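import Pool.Agent.Lib.MP_33bfb2_co.Th.ADefs2

namespace Pool.Agent.Lib.MP_33bfb2_co.Th

open Finset

variable {L : Type} [AddCommGroup L] {ω : Skew L} {C C' : Cone L}

instance K_charZero : CharZero K :=
  charZero_of_injective_ringHom (f := (HahnSeries.C : ℚ →+* K)) HahnSeries.C_injective

theorem intCast_K_ne {d : ℤ} (h : d ≠ 0) : (d : K) ≠ 0 := Int.cast_ne_zero.2 h

theorem A.mul_ne_zero {a b : A ω C} {n : L} (h : (a * b).f n ≠ 0) :
    ∃ m, a.f m ≠ 0 ∧ b.f (n - m) ≠ 0 := by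
  rw [A.mul_apply] at h
  obtain ⟨m, -, hm⟩ := exists_ne_zero_of_sum_ne_zero h
  exact ⟨m, fun e => hm (by simp [e]), fun e => hm (by simp [e])⟩

theorem A.In.mul {S T U : Set L} {a b : A ω C} (ha : a.In S) (hb : b.In T)
    (h : ∀ m ∈ S, ∀ n ∈ T, m + n ∈ U) : (a * b).In U := fun n hn => by
  obtain ⟨m, h1, h2⟩ := A.mul_ne_zero hn
  simpa using h m (ha m h1) _ (hb _ h2)

theorem A.Cong.mul {Λ : Set L} (hΛ : C.Lower Λ) {a a' b b' : A ω C} (ha : A.Cong Λ a a')
    (hb : A.Cong Λ b b') : A.Cong Λ (a * b) (a' * b') := fun n hn => by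
  rw [A.mul_apply, A.mul_apply]
  refine sum_congr rfl fun m hm => ?_
  obtain ⟨h1, h2⟩ := Cone.mem_box.1 hm
  rw [ha m (hΛ m h1 _ h2 (by simpa using hn)), hb _ (hΛ _ h2 m h1 (by simpa using hn))]

theorem A.Cong.refl (Λ : Set L) (a : A ω C) : A.Cong Λ a a := fun _ _ => rfl
theorem A.Cong.symm {Λ : Set L} {a b : A ω C} (h : A.Cong Λ a b) : A.Cong Λ b a :=
  fun n hn => (h n hn).symm
theorem A.Cong.trans {Λ : Set L} {a b c : A ω C} (h : A.Cong Λ a b) (h' : A.Cong Λ b c) :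
    A.Cong Λ a c := fun n hn => (h n hn).trans (h' n hn)

theorem G.inv_mul_val (g : G ω C) : (g⁻¹).1 * g.1 = 1 := congrArg Subtype.val (inv_mul_cancel g)
theorem G.mul_inv_val (g : G ω C) : g.1 * (g⁻¹).1 = 1 := congrArg Subtype.val (mul_inv_cancel g)

theorem A.Cong.inv {Λ : Set L} (hΛ : C.Lower Λ) {g g' : G ω C} (h : A.Cong Λ g.1 g'.1) :
    A.Cong Λ (g⁻¹).1 (g'⁻¹).1 := by
  have h1 := ((A.Cong.refl Λ (g⁻¹).1).mul hΛ h.symm).mul hΛ (A.Cong.refl Λ (g'⁻¹).1)
  rw [mul_assoc, G.mul_inv_val, mul_one, G.inv_mul_val, one_mul] at h1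
  exact h1

theorem Cone.induction {P : L → Prop} (h : ∀ n ∈ C.car, (∀ m ∈ C.car, C.deg m < C.deg n → P m) → P n) :
    ∀ n ∈ C.car, P n := by
  intro n hn
  induction' e : (C.deg n).toNat using Nat.strong_induction_on with d ih generalizing n
  refine h n hn fun m hm lt => ih (C.deg m).toNat ?_ m hm rfl
  have := C.deg_nonneg hm
  omega

theorem A.In.inv (S : AddSubmonoid L) {g : G ω C} (h : g.1.In S) : (g⁻¹).1.In S := by
  classical
  suffices ∀ n ∈ C.car, (g⁻¹).1.f n ≠ 0 → n ∈ S from fun n hn => this n ((g⁻¹).1.supp n hn) hn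
  refine Cone.induction fun n hn ih hne => ?_
  by_contra hS
  have e : n ≠ 0 := fun e => hS (e ▸ S.zero_mem)
  have h1 := congrArg (fun a : A ω C => a.f n) (G.inv_mul_val g)
  simp only [A.mul_apply, A.one_f, if_neg e] at h1
  rw [← add_sum_erase _ _ (a := n) (by simp [Cone.mem_box, hn]), sum_eq_zero] at h1
  · simp [ω.alt, tp_zero, G.f_zero, hne] at h1
  · intro m hm
    have a1 := mem_of_mem_erase hm
    by_contra h0
    have a2 : (g⁻¹).1.f m ≠ 0 := fun e => h0 (by simp [e])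
    have a3 : g.1.f (n - m) ≠ 0 := fun e => h0 (by simp [e])
    exact hS (by simpa using S.add_mem (ih m (Cone.mem_box.1 a1).1
      (Cone.deg_lt a1 (ne_of_mem_erase hm)) a2) (h _ a3))


theorem A.res_f (S : Set L) (a : A ω C) (n : L) : (a.res S).f n = S.indicator a.f n := rfl

theorem A.res_of_mem {S : Set L} (a : A ω C) {n : L} (h : n ∈ S) : (a.res S).f n = a.f n :=
  Set.indicator_of_mem h _

theorem A.res_of_not {S : Set L} (a : A ω C) {n : L} (h : n ∉ S) : (a.res S).f n = 0 :=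
  Set.indicator_of_notMem h _

theorem A.res_in (S : Set L) (a : A ω C) : (a.res S).In S := fun _ hn =>
  by_contra fun e => hn (a.res_of_not e)

theorem A.In.res {S T : Set L} {a : A ω C} (h : a.In T) : (a.res S).In T := fun n hn =>
  h n fun e => hn (by
    by_cases m : n ∈ S
    · rw [a.res_of_mem m, e]
    · exact a.res_of_not m)

theorem A.res_eq_self {S : Set L} {a : A ω C} (h : a.In S) : a.res S = a := by
  ext n : 2
  by_cases m : n ∈ S
  · exact a.res_of_mem m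
  · rw [a.res_of_not m, not_not.1 (mt (h n) m)]

/-- Restriction to a face is multiplicative. -/
theorem A.res_mul_face {S T U : Set L} {a b : A ω C} (ha : a.In S) (hb : b.In T)
    (h : ∀ s ∈ S, ∀ t ∈ T, s + t ∈ U ↔ s ∈ U ∧ t ∈ U) :
    (a * b).res U = a.res U * b.res U := by
  ext n : 2
  by_cases m : n ∈ U
  · rw [A.res_of_mem _ m, A.mul_apply, A.mul_apply]
    refine sum_congr rfl fun k _ => ?_
    by_cases h1 : a.f k = 0
    · simp [A.res_f, h1]
    by_cases h2 : b.f (n - k) = 0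
    · simp [A.res_f, h2]
    have := (h k (ha k h1) _ (hb _ h2)).1 (by simpa using m)
    rw [A.res_of_mem _ this.1, A.res_of_mem _ this.2]
  · rw [A.res_of_not _ m]
    by_contra e
    obtain ⟨k, h1, h2⟩ := A.mul_ne_zero (Ne.symm e)
    exact m (by simpa using (h k (ha.res k h1) _ (hb.res _ h2)).2 ⟨a.res_in U k h1, b.res_in U _ h2⟩)

theorem A.res_mul (μ : L →+ ℚ) {a b : A ω C} (ha : a.In {n | 0 ≤ μ n}) (hb : b.In {n | 0 ≤ μ n}) :
    (a * b).res {n | μ n = 0} = a.res {n | μ n = 0} * b.res {n | μ n = 0} :=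
  A.res_mul_face ha hb fun s hs t ht => by
    simp only [Set.mem_ofPred_eq, map_add] at *
    constructor
    · intro e; constructor <;> linarith
    · rintro ⟨e1, e2⟩; linarith

theorem A.one_in {S : Set L} (h : 0 ∈ S) : (1 : A ω C).In S := fun n hn => by
  rw [A.one_f] at hn
  split_ifs at hn with e
  · exact e ▸ h
  · exact absurd rfl hn

/-- The submonoid of vectors that are zero or negative. -/
def neg0 (θ : L →+ ℚ) : AddSubmonoid L where
  carrier := {n | n = 0 ∨ θ n < 0}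
  zero_mem' := Or.inl rfl
  add_mem' := by
    rintro a b (rfl | ha) (rfl | hb)
    · simp
    · simpa using Or.inr hb
    · simpa using Or.inr ha
    · exact Or.inr (by rw [map_add]; linarith)

/-- The submonoid of non-negative vectors. -/
def nonneg (θ : L →+ ℚ) : AddSubmonoid L where
  carrier := {n | 0 ≤ θ n}
  zero_mem' := by simp
  add_mem' := fun {a b} ha hb => by
    simp only [Set.mem_ofPred_eq, map_add] at *
    linarith

/-- The submonoid of vectors that are zero or positive. -/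
def pos0 (θ : L →+ ℚ) : AddSubmonoid L where
  carrier := {n | n = 0 ∨ 0 < θ n}
  zero_mem' := Or.inl rfl
  add_mem' := by
    rintro a b (rfl | ha) (rfl | hb)
    · simp
    · simpa using Or.inr hb
    · simpa using Or.inr ha
    · exact Or.inr (by rw [map_add]; linarith)

/-- The submonoid made of zero and a set closed under addition. -/
def with0 (S : Set L) (hS : ∀ m ∈ S, ∀ n ∈ S, m + n ∈ S) : AddSubmonoid L where
  carrier := {n | n = 0 ∨ n ∈ S}
  zero_mem' := Or.inl rfl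
  add_mem' := by
    rintro a b (rfl | ha) (rfl | hb)
    · simp
    · simpa using Or.inr hb
    · simpa using Or.inr ha
    · exact Or.inr (hS a ha b hb)

theorem A.In0.mul {S : Set L} (hS : ∀ m ∈ S, ∀ n ∈ S, m + n ∈ S) {a b : A ω C} (ha : a.In0 S)
    (hb : b.In0 S) : (a * b).In0 S := fun n hn =>
  A.In.mul (S := with0 S hS) (T := with0 S hS) (U := with0 S hS) (fun n h => ha n h)
    (fun n h => hb n h) (fun _ h _ h' => (with0 S hS).add_mem h h') n hn

theorem A.In0.inv {S : Set L} (hS : ∀ m ∈ S, ∀ n ∈ S, m + n ∈ S) {g : G ω C} (h : g.1.In0 S) :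
    (g⁻¹).1.In0 S := fun n hn => A.In.inv (with0 S hS) (fun n e => h n e) n hn

theorem A.In.mono {a : A ω C} {S T : Set L} (h : a.In S) (e : S ⊆ T) : a.In T :=
  fun n hn => e (h n hn)

theorem A.In.mul_sub (S : AddSubmonoid L) {a b : A ω C} (ha : a.In S) (hb : b.In S) :
    (a * b).In S := ha.mul hb fun _ h _ h' => S.add_mem h h'

theorem Cone.lower_univ (C : Cone L) : C.Lower Set.univ := fun _ _ _ _ _ => trivial

theorem Cone.lower_deg (C : Cone L) (D : ℤ) : C.Lower {n | C.deg n ≤ D} := fun a _ b hb h => by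
  have h1 : C.deg (a + b) ≤ D := h
  have := C.deg_nonneg hb
  rw [map_add] at h1
  show C.deg a ≤ D
  omega

theorem Cone.Lower.inter {Λ Λ' : Set L} (h : C.Lower Λ) (h' : C.Lower Λ') : C.Lower (Λ ∩ Λ') :=
  fun a ha b hb e => ⟨h a ha b hb e.1, h' a ha b hb e.2⟩

theorem G.eq_of_cong {a b : G ω C} (h : A.Cong Set.univ a.1 b.1) : a = b :=
  Subtype.ext (A.ext (funext fun n => h n trivial))

theorem A.Cong.mono {Λ Λ' : Set L} {a b : A ω C} (h : A.Cong Λ a b) (e : Λ' ⊆ Λ) :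
    A.Cong Λ' a b := fun n hn => h n (e hn)

theorem A.Cong.add {Λ : Set L} {a b c d : A ω C} (h : A.Cong Λ a b) (h' : A.Cong Λ c d) :
    A.Cong Λ (a + c) (b + d) := fun n hn => by
  simp only [A.add_f, Pi.add_apply, h n hn, h' n hn]

theorem A.cong_of_car {Λ : Set L} {a b : A ω C} (h : ∀ n ∈ C.car, n ∈ Λ → a.f n = b.f n) :
    A.Cong Λ a b := fun n hn => by
  by_cases c : n ∈ C.car
  · exact h n c hn
  · rw [A.eq_zero c, A.eq_zero c]

/-- Restriction of a group element to a set containing zero. -/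
noncomputable def G.res (S : Set L) (h : 0 ∈ S) (g : G ω C) : G ω C :=
  ⟨g.1.res S, by
    show (g.1.res S).f 0 = 1
    rw [A.res_of_mem _ h, G.f_zero]⟩

theorem A.res_cong (S : Set L) (a : A ω C) : A.Cong S (a.res S) a := fun _ h => a.res_of_mem h

theorem A.cong_of_not {Λ : Set L} (hΛ : C.Lower Λ) (h : 0 ∉ Λ) (a b : A ω C) : A.Cong Λ a b :=
  fun n hn => by
    have : n ∉ C.car := fun e => h (hΛ 0 C.car.zero_mem n e (by simpa using hn))
    rw [A.eq_zero this, A.eq_zero this]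

theorem A.res_ne_zero {S : Set L} {a : A ω C} {n : L} (h : (a.res S).f n ≠ 0) :
    n ∈ S ∧ a.f n ≠ 0 :=
  ⟨a.res_in S n h, by rwa [A.res_of_mem _ (a.res_in S n h)] at h⟩

theorem A.Cong.res {Λ : Set L} {a b : A ω C} (e : A.Cong Λ a b) (S : Set L) :
    A.Cong Λ (a.res S) (b.res S) := fun n hn => by
  by_cases m : n ∈ S
  · rw [A.res_of_mem _ m, A.res_of_mem _ m, e n hn]
  · rw [A.res_of_not _ m, A.res_of_not _ m]

theorem A.mul_split [DecidableEq L] (a b : A ω C) {n : L} (hn : n ∈ C.car) (e : n ≠ 0) :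
    (a * b).f n = a.f n * b.f 0 + a.f 0 * b.f n +
      ∑ m ∈ ((C.box n).erase n).erase 0, tp (- ω.w m n) * a.f m * b.f (n - m) := by
  rw [A.mul_apply, ← add_sum_erase _ _ (a := n) (by simp [Cone.mem_box, hn]),
    ← add_sum_erase _ _ (a := 0) (by simp [Cone.mem_box, hn, Ne.symm e])]
  simp [ω.alt, tp_zero, add_assoc]

theorem A.mul_ne_zero' {Λ : Set L} (hΛ : C.Lower Λ) {a b : A ω C} {n : L} (hn : n ∈ Λ)
    (h : (a * b).f n ≠ 0) : ∃ m ∈ Λ, ∃ m' ∈ Λ, m + m' = n ∧ a.f m ≠ 0 ∧ b.f m' ≠ 0 := by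
  obtain ⟨m, h1, h2⟩ := A.mul_ne_zero h
  exact ⟨m, hΛ m (a.supp m h1) _ (b.supp _ h2) (by simpa using hn), n - m,
    hΛ _ (b.supp _ h2) m (a.supp m h1) (by simpa using hn), by simp, h1, h2⟩

theorem A.res_zero_of {r : A ω C} (h : r.f 0 = 0) (T : Set L) : (r.res T).f 0 = 0 :=
  by_contra fun e => (A.res_ne_zero e).2 h

/-- Adding a series without constant term. -/
noncomputable def G.addTop (g : G ω C) (r : A ω C) (h : r.f 0 = 0) : G ω C :=
  ⟨g.1 + r, by
    show g.1.f 0 + r.f 0 = 1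
    rw [h, add_zero, G.f_zero]⟩

/-- The same function in another cone. -/
theorem A.exists_lift (a : A ω C) (h : a.In C'.car) : ∃ a' : A ω C', a'.f = a.f :=
  ⟨⟨a.f, h⟩, rfl⟩

theorem G.exists_lift (g : G ω C) (h : g.1.In C'.car) : ∃ g' : G ω C', g'.1.f = g.1.f :=
  ⟨⟨⟨g.1.f, h⟩, g.2⟩, rfl⟩

theorem mul_f_congr {a b : A ω C} {a' b' : A ω C'} (ha : a'.f = a.f) (hb : b'.f = b.f) :
    (a' * b').f = (a * b).f := by rw [A.mul_f, A.mul_f, ha, hb]

theorem one_f_congr : (1 : A ω C').f = (1 : A ω C).f := rfl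

theorem inv_f_congr {g : G ω C} {g' : G ω C'} (h : g'.1.f = g.1.f) :
    (g'⁻¹).1.f = (g⁻¹).1.f := by
  obtain ⟨k, hk⟩ := G.exists_lift (C' := C') g⁻¹
    (A.In.inv C'.car fun n hn => g'.1.supp n (by rwa [h]))
  have : k * g' = 1 := Subtype.ext (A.ext ((mul_f_congr hk h).trans (by
    rw [G.inv_mul_val]; rfl)))
  rw [← eq_inv_of_mul_eq_one_left this, hk]

end Pool.Agent.Lib.MP_33bfb2_co.Th
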