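import Pool.Agent.Lib.MP_33bfb2_co.Th.A0

namespace Pool.Agent.Lib.MP_33bfb2_co.Th

open Finset

variable {L : Type} [AddCommGroup L] {ω : Skew L} {C C' : Cone L}

/-! ## File A1: scalars, monomials, push forward (supports and congruences are in A0) -/

theorem Pos.zero : Pos 0 := ⟨0, by simp⟩
theorem Pos.tp (a : ℤ) : Pos (tp a) := ⟨{a}, by simp⟩
theorem Pos.one : Pos 1 := Pos.tp 0
theorem Pos.add {f g : K} (hf : Pos f) (hg : Pos g) : Pos (f + g) := by
  obtain ⟨s, rfl⟩ := hf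
  obtain ⟨t, rfl⟩ := hg
  exact ⟨s + t, by simp⟩
theorem Pos.tp_mul (a : ℤ) {g : K} (hg : Pos g) : Pos (Th.tp a * g) := by
  obtain ⟨t, rfl⟩ := hg
  refine ⟨t.map (a + ·), ?_⟩
  rw [← Multiset.sum_map_mul_left, Multiset.map_map]
  exact congrArg _ (Multiset.map_congr rfl fun b _ => (tp_add a b).symm)
theorem Pos.mul {f g : K} (hf : Pos f) (hg : Pos g) : Pos (f * g) := by
  obtain ⟨s, rfl⟩ := hf
  induction s using Multiset.induction_on with
  | empty => simpa using Pos.zero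
  | cons a s ih =>
    rw [Multiset.map_cons, Multiset.sum_cons, add_mul]
    exact (hg.tp_mul a).add ih
theorem Pos.sum {α : Type} (s : Finset α) {f : α → K} (h : ∀ a ∈ s, Pos (f a)) :
    Pos (∑ a ∈ s, f a) := sum_induction f Pos (fun _ _ => Pos.add) Pos.zero h
theorem Pos.prod {α : Type} (s : Finset α) {f : α → K} (h : ∀ a ∈ s, Pos (f a)) :
    Pos (∏ a ∈ s, f a) := prod_induction f Pos (fun _ _ => Pos.mul) Pos.one h
theorem Pos.nsmul (m : ℕ) {f : K} (hf : Pos f) : Pos (m • f) := by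
  induction m with
  | zero => simpa using Pos.zero
  | succ m ih =>
    rw [succ_nsmul]
    exact ih.add hf
theorem tp_coeff (a b : ℤ) : (tp a).coeff b = if b = a then 1 else 0 := by
  rw [tp, HahnSeries.coeff_single]
  congr
theorem Pos.coeff {f : K} (hf : Pos f) (a : ℤ) : ∃ m : ℕ, f.coeff a = m := by
  obtain ⟨s, rfl⟩ := hf
  induction s using Multiset.induction_on with
  | empty => exact ⟨0, by simp⟩
  | cons b s ih =>
    obtain ⟨m, hm⟩ := ih
    rw [Multiset.map_cons, Multiset.sum_cons, HahnSeries.coeff_add, hm, tp_coeff]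
    split_ifs
    · exact ⟨m + 1, by push_cast; ring⟩
    · exact ⟨m, by simp⟩
theorem Pos.finite {f : K} (hf : Pos f) : f.support.Finite := by
  obtain ⟨s, rfl⟩ := hf
  induction s using Multiset.induction_on with
  | empty => simp
  | cons b s ih =>
    rw [Multiset.map_cons, Multiset.sum_cons]
    exact (((Set.finite_singleton b).subset HahnSeries.support_single_subset).union ih).subset
      (HahnSeries.support_add_subset _ _)
theorem pos_of_coeff {f : K} (h : ∀ a, ∃ m : ℕ, f.coeff a = m) (hfin : f.support.Finite) :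
    Pos f := by
  choose m hm using h
  have e : f = ∑ a ∈ hfin.toFinset, m a • tp a := by
    ext b
    rw [HahnSeries.coeff_sum, sum_eq_single b]
    · rw [HahnSeries.coeff_nsmul, Pi.smul_apply, tp_coeff, hm]
      simp
    · intro a _ hab
      rw [HahnSeries.coeff_nsmul, Pi.smul_apply, tp_coeff, if_neg hab.symm, smul_zero]
    · intro hb
      have : f.coeff b = 0 := by simpa using hb
      have h0 : m b = 0 := by exact_mod_cast (hm b).symm.trans this
      simp [h0]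
  rw [e]
  exact Pos.sum _ fun a _ => (Pos.tp a).nsmul _
theorem tp_ne_zero (a : ℤ) : tp a ≠ 0 := HahnSeries.single_ne_zero one_ne_zero
theorem one_sub_tp_ne {a : ℤ} (h : a ≠ 0) : 1 - tp a ≠ 0 := fun e => by
  have := congrArg (fun f : K => f.coeff a) (sub_eq_zero.1 e)
  simp only [← tp_zero, tp_coeff, if_neg h, if_true] at this
  exact zero_ne_one this

theorem A.mon_f {n : L} (hn : n ∈ C.car) (m : L) [Decidable (m = n)] :
    (A.mon ω C n).f m = if m = n then 1 else 0 := by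
  simp [A.mon, hn]

theorem A.mon_mul_mon {m n : L} (hm : m ∈ C.car) (hn : n ∈ C.car) :
    A.mon ω C m * A.mon ω C n = tp (- ω.w m n) • A.mon ω C (m + n) := by
  classical
  ext k : 2
  rw [A.mul_f, conv, finsum_eq_single _ m fun l hl => by simp [A.mon_f hm, hl]]
  simp only [A.smul_f, Pi.smul_apply, smul_eq_mul, A.mon_f hm, A.mon_f hn,
    A.mon_f (C.car.add_mem hm hn), if_true, mul_one, sub_eq_iff_eq_add']
  split_ifs with e
  · rw [e, map_add, ω.alt, zero_add]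
  · simp

section
variable {L₁ : Type} [AddCommGroup L₁] {ω₁ : Skew L₁} {C₁ : Cone L₁} {φ : L₁ →+ L}

/-- The fibre of the push forward. -/
noncomputable def PushOK.fib (h : PushOK ω₁ C₁ ω C φ) (n : L) : Finset L₁ := (h.fin n).toFinset

theorem PushOK.mem_fib (h : PushOK ω₁ C₁ ω C φ) {n : L} {d : L₁} :
    d ∈ h.fib n ↔ d ∈ C₁.car ∧ φ d = n := by simp [PushOK.fib]

theorem PushOK.fib_zero (h : PushOK ω₁ C₁ ω C φ) : h.fib 0 = {0} := by
  ext d
  rw [h.mem_fib, mem_singleton]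
  exact ⟨fun e => by_contra fun e' => h.ne d e.1 e' e.2, fun e => by simp [e]⟩

/-- The push forward of a series. -/
noncomputable def PushOK.push (h : PushOK ω₁ C₁ ω C φ) (α : L₁ →+ ℤ) (a : A ω₁ C₁) : A ω C :=
  ⟨fun n => ∑ d ∈ h.fib n, tp (α d) * a.f d, fun n hn => by
    obtain ⟨d, hd, -⟩ := exists_ne_zero_of_sum_ne_zero hn
    obtain ⟨h1, rfl⟩ := h.mem_fib.1 hd
    exact h.mem d h1⟩

theorem PushOK.push_f (h : PushOK ω₁ C₁ ω C φ) (α : L₁ →+ ℤ) (a : A ω₁ C₁) (n : L) :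
    (h.push α a).f n = ∑ d ∈ h.fib n, tp (α d) * a.f d := rfl

theorem PushOK.push_one (h : PushOK ω₁ C₁ ω C φ) (α : L₁ →+ ℤ) : h.push α 1 = 1 := by
  classical
  ext n : 2
  simp only [h.push_f, A.one_f, mul_ite, mul_one, mul_zero, sum_ite_eq', h.mem_fib, map_zero,
    tp_zero, zero_mem, true_and, eq_comm (a := (0 : L))]

theorem PushOK.push_mul (h : PushOK ω₁ C₁ ω C φ) (α : L₁ →+ ℤ) (a b : A ω₁ C₁) :
    h.push α (a * b) = h.push α a * h.push α b := by
  classical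
  ext n : 2
  have e0 : ∀ M, tp (- ω.w M n) * (h.push α a).f M * (h.push α b).f (n - M) =
      ∑ x ∈ h.fib M ×ˢ h.fib (n - M),
        tp (- ω.w M n) * (tp (α x.1) * a.f x.1 * (tp (α x.2) * b.f x.2)) := fun M => by
    rw [mul_assoc, h.push_f, h.push_f, sum_mul_sum, ← sum_product', mul_sum]
  rw [A.mul_apply, sum_congr rfl fun M _ => e0 M]
  simp only [h.push_f, A.mul_apply, mul_sum]
  rw [sum_sigma', sum_sigma']
  refine sum_nbij' (fun p => ⟨φ p.2, (p.2, p.1 - p.2)⟩) (fun p => ⟨p.2.1 + p.2.2, p.2.1⟩)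
    ?_ ?_ ?_ ?_ ?_
  · rintro ⟨d, m⟩ e
    simp only [mem_sigma, Cone.mem_box, h.mem_fib, mem_product] at e ⊢
    obtain ⟨⟨-, rfl⟩, e1, e2⟩ := e
    exact ⟨⟨h.mem m e1, by simpa using h.mem _ e2⟩, ⟨e1, trivial⟩, e2, map_sub φ d m⟩
  · rintro ⟨M, m, m'⟩ e
    simp only [mem_sigma, Cone.mem_box, h.mem_fib, mem_product] at e ⊢
    obtain ⟨-, ⟨e1, rfl⟩, e2, e3⟩ := e
    exact ⟨⟨C₁.car.add_mem e1 e2, by rw [map_add, e3]; abel⟩, e1, by simpa using e2⟩
  · rintro ⟨d, m⟩ _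
    simp
  · rintro ⟨M, m, m'⟩ e
    simp only [mem_sigma, h.mem_fib, mem_product] at e
    simp [e.2.1.2]
  · rintro ⟨d, m⟩ e
    simp only [mem_sigma, h.mem_fib] at e
    obtain ⟨⟨-, rfl⟩, -⟩ := e
    have e1 : tp (α d) = tp (α m) * tp (α (d - m)) := by
      rw [← tp_add, ← map_add, add_sub_cancel]
    simp only [h.w, e1]
    ring

theorem exists_push (h : PushOK ω₁ C₁ ω C φ) (α : L₁ →+ ℤ) :
    ∃ (Φ : A ω₁ C₁ →+* A ω C) (Ψ : G ω₁ C₁ →* G ω C), (∀ g, (Ψ g).1 = Φ g.1) ∧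
      ∀ a n, (Φ a).f n = ∑ᶠ d ∈ {d | φ d = n}, tp (α d) * a.f d := by
  refine ⟨⟨⟨⟨h.push α, h.push_one α⟩, h.push_mul α⟩, ?_, fun a b => ?_⟩,
    ⟨⟨fun g => ⟨h.push α g.1, ?_⟩, Subtype.ext (h.push_one α)⟩,
      fun g g' => Subtype.ext (h.push_mul α g.1 g'.1)⟩, fun _ => rfl, fun a n => ?_⟩
  · ext n : 2
    simp [h.push_f]
  · ext n : 2
    simp [h.push_f, mul_add, sum_add_distrib]
  · show (h.push α g.1).f 0 = 1
    rw [h.push_f, h.fib_zero, sum_singleton, G.f_zero, map_zero, tp_zero, one_mul]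
  · refine (finsum_mem_eq_sum_of_inter_support_eq _ ?_).symm
    ext d
    simp only [Set.mem_inter_iff, Set.mem_ofPred_eq, mem_coe, h.mem_fib, Function.mem_support]
    exact ⟨fun e => ⟨⟨a.supp d (right_ne_zero_of_mul e.2), e.1⟩, e.2⟩, fun e => ⟨e.1.2, e.2⟩⟩
end

end Pool.Agent.Lib.MP_33bfb2_co.Th
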