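import Pool.Agent.Lib.MP_33bfb2_co.Th.A0

namespace Pool.Agent.Lib.MP_33bfb2_co.Th

open Finset

variable {L : Type} [AddCommGroup L] {ω : Skew L} {C C' : Cone L}

/-- Uniqueness of the factorisation on a lower set, for a pair of sets closed under addition. -/
theorem G.fac_unique_cong {Λ : Set L} (hΛ : C.Lower Λ) (P N : AddSubmonoid L)
    (hPN : ∀ n ∈ Λ, n ∈ P → n ∈ N → n = 0) {a a' c c' : G ω C}
    (ha : a.1.In P) (ha' : a'.1.In P) (hc : c.1.In N) (hc' : c'.1.In N)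
    (e : A.Cong Λ (a * c).1 (a' * c').1) : A.Cong Λ a.1 a'.1 ∧ A.Cong Λ c.1 c'.1 := by
  have h1 : A.Cong Λ (a'⁻¹ * a).1 (c' * c⁻¹).1 := by
    have := ((A.Cong.refl Λ (a'⁻¹).1).mul hΛ e).mul hΛ (A.Cong.refl Λ (c⁻¹).1)
    change A.Cong Λ (a'⁻¹ * (a * c) * c⁻¹).1 (a'⁻¹ * (a' * c') * c⁻¹).1 at this
    simpa [mul_assoc] using this
  have h2 : (a'⁻¹ * a).1.In P := (A.In.inv P ha').mul ha fun _ h _ h' => P.add_mem h h'
  have h3 : (c' * c⁻¹).1.In N := hc'.mul (A.In.inv N hc) fun _ h _ h' => N.add_mem h h'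
  have h4 : A.Cong Λ (a'⁻¹ * a).1 1 := fun n hn => by
    by_cases z : n = 0
    · rw [z, G.f_zero, A.one_f, if_pos rfl]
    · rw [A.one_f, if_neg z]
      by_contra e'
      exact z (hPN n hn (h2 n e') (h3 n (h1 n hn ▸ e')))
  constructor
  · have := (A.Cong.refl Λ a'.1).mul hΛ h4
    change A.Cong Λ (a' * (a'⁻¹ * a)).1 (a' * 1).1 at this
    simpa using this
  · have := (h1.symm.trans h4).mul hΛ (A.Cong.refl Λ c.1)
    change A.Cong Λ (c' * c⁻¹ * c).1 (1 * c).1 at this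
    simpa using this.symm

theorem fac_cong0 {Λ : Set L} (hΛ : C.Lower Λ) (θ : L →+ ℚ) {g a c : G ω C}
    (ha : a.1.In {n | 0 ≤ θ n}) (hc : c.1.In0 {n | θ n < 0}) (e : A.Cong Λ g.1 (a * c).1) :
    A.Cong Λ (fa θ g).1 a.1 ∧ A.Cong Λ (fc θ g).1 c.1 :=
  G.fac_unique_cong hΛ (nonneg θ) (neg0 θ) (fun n _ h1 h2 => h2.resolve_right (not_lt.2 h1))
    (fa_in θ g) ha (fc_in θ g) hc (by rw [fa_mul_fc]; exact e)

theorem fac_unique (θ : L →+ ℚ) {g a c : G ω C} (h : a * c = g) (ha : a.1.In {n | 0 ≤ θ n})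
    (hc : c.1.In0 {n | θ n < 0}) : fa θ g = a ∧ fc θ g = c :=
  (fac_cong0 C.lower_univ θ ha hc (by rw [h]; exact A.Cong.refl _ _)).imp G.eq_of_cong G.eq_of_cong

theorem fac_cong' {Λ : Set L} (hΛ : C.Lower Λ) (θ : L →+ ℚ) {g a c : G ω C}
    (ha : ∀ n ∈ Λ, a.1.f n ≠ 0 → 0 ≤ θ n) (hc : ∀ n ∈ Λ, c.1.f n ≠ 0 → n = 0 ∨ θ n < 0)
    (e : A.Cong Λ g.1 (a * c).1) : A.Cong Λ (fa θ g).1 a.1 ∧ A.Cong Λ (fc θ g).1 c.1 := by
  by_cases z : 0 ∈ Λ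
  swap
  · exact ⟨A.cong_of_not hΛ z _ _, A.cong_of_not hΛ z _ _⟩
  have := fac_cong0 hΛ θ (g := g) (a := G.res Λ z a) (c := G.res Λ z c)
    (fun n hn => ha n (A.res_ne_zero hn).1 (A.res_ne_zero hn).2)
    (fun n hn => hc n (A.res_ne_zero hn).1 (A.res_ne_zero hn).2)
    (e.trans ((a.1.res_cong Λ).symm.mul hΛ (c.1.res_cong Λ).symm))
  exact ⟨this.1.trans (a.1.res_cong Λ), this.2.trans (c.1.res_cong Λ)⟩

theorem fa_cong {Λ : Set L} (hΛ : C.Lower Λ) (θ : L →+ ℚ) {g h : G ω C} (e : A.Cong Λ g.1 h.1) :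
    A.Cong Λ (fa θ g).1 (fa θ h).1 :=
  (fac_cong0 hΛ θ (fa_in θ h) (fc_in θ h) (by rw [fa_mul_fc]; exact e)).1

theorem fc_cong {Λ : Set L} (hΛ : C.Lower Λ) (θ : L →+ ℚ) {g h : G ω C} (e : A.Cong Λ g.1 h.1) :
    A.Cong Λ (fc θ g).1 (fc θ h).1 :=
  (fac_cong0 hΛ θ (fa_in θ h) (fc_in θ h) (by rw [fa_mul_fc]; exact e)).2

/-- Uniqueness modulo a lower set; contains the dependence on signs and on congruence classes. -/
theorem fac_cong {Λ : Set L} (hΛ : C.Lower Λ) (θ : L →+ ℚ) {g a c : G ω C}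
    (h : A.Cong Λ (a * c).1 g.1) (ha : ∀ n ∈ Λ, a.1.f n ≠ 0 → 0 ≤ θ n)
    (hc : ∀ n ∈ Λ, c.1.f n ≠ 0 → n = 0 ∨ θ n < 0) :
    A.Cong Λ (fa θ g).1 a.1 ∧ A.Cong Λ (fc θ g).1 c.1 := fac_cong' hΛ θ ha hc h.symm

theorem z0_val (θ : L →+ ℚ) (g : G ω C) : (z0 θ g).1 = (fa θ g).1.res {n | θ n = 0} := rfl

theorem z0_cong0 {Λ : Set L} (hΛ : C.Lower Λ) (θ : L →+ ℚ) {g h : G ω C} (e : A.Cong Λ g.1 h.1) :
    A.Cong Λ (z0 θ g).1 (z0 θ h).1 := (fa_cong hΛ θ e).res _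

theorem z0_in (θ : L →+ ℚ) (g : G ω C) : (z0 θ g).1.In {n | θ n = 0} := A.res_in _ _

theorem fac_sign {Λ : Set L} (hΛ : C.Lower Λ) {θ θ' : L →+ ℚ}
    (h : ∀ n ∈ Λ, n ∈ C.car → (0 ≤ θ n ↔ 0 ≤ θ' n)) (g : G ω C) :
    A.Cong Λ (fa θ g).1 (fa θ' g).1 ∧ A.Cong Λ (fc θ g).1 (fc θ' g).1 :=
  fac_cong' hΛ θ (fun n hn e => (h n hn (A.supp _ n e)).2 (fa_in θ' g n e))
    (fun n hn e => (fc_in θ' g n e).imp_right fun l =>
      not_le.1 fun l' => not_le.2 l ((h n hn (A.supp _ n e)).1 l'))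
    (by rw [fa_mul_fc]; exact A.Cong.refl _ _)

theorem z0_sign {Λ : Set L} (hΛ : C.Lower Λ) {θ θ' : L →+ ℚ}
    (h : ∀ n ∈ Λ, n ∈ C.car → (0 ≤ θ n ↔ 0 ≤ θ' n))
    (h' : ∀ n ∈ Λ, n ∈ C.car → (θ n = 0 ↔ θ' n = 0)) (g : G ω C) :
    A.Cong Λ (z0 θ g).1 (z0 θ' g).1 := fun n hn => by
  by_cases c : n ∈ C.car
  swap
  · rw [A.eq_zero c, A.eq_zero c]
  rw [z0_val, z0_val]
  by_cases m : θ n = 0
  · rw [A.res_of_mem (S := {n | θ n = 0}) _ m,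
      A.res_of_mem (S := {n | θ' n = 0}) _ ((h' n hn c).1 m), (fac_sign hΛ h g).1 n hn]
  · rw [A.res_of_not (S := {n | θ n = 0}) _ m,
      A.res_of_not (S := {n | θ' n = 0}) _ (mt (h' n hn c).2 m)]

theorem z0_cong {Λ : Set L} (hΛ : C.Lower Λ) {θ θ' : L →+ ℚ} (hs : SameSign (Λ ∩ C.car) θ θ')
    {g g' : G ω C} (h : A.Cong Λ g.1 g'.1) : A.Cong Λ (z0 θ g).1 (z0 θ' g').1 ∧
      A.Cong Λ (fc θ g).1 (fc θ' g').1 := by
  have h1 : ∀ n ∈ Λ, n ∈ C.car → (0 ≤ θ n ↔ 0 ≤ θ' n) := fun n a b => by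
    rw [le_iff_lt_or_eq, le_iff_lt_or_eq, (hs n ⟨a, b⟩).1, eq_comm, (hs n ⟨a, b⟩).2, eq_comm]
  exact ⟨(z0_cong0 hΛ θ h).trans (z0_sign hΛ h1 (fun n a b => (hs n ⟨a, b⟩).2) g'),
    (fc_cong hΛ θ h).trans (fac_sign hΛ h1 g').2⟩

theorem fac_in2 (S : AddSubmonoid L) (θ : L →+ ℚ) {g : G ω C} (h : g.1.In S) :
    (fa θ g).1.In S ∧ (fc θ g).1.In S := by
  classical
  suffices ∀ n ∈ C.car, ((fa θ g).1.f n ≠ 0 → n ∈ S) ∧ ((fc θ g).1.f n ≠ 0 → n ∈ S) from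
    ⟨fun n hn => (this n (A.supp _ n hn)).1 hn, fun n hn => (this n (A.supp _ n hn)).2 hn⟩
  refine Cone.induction fun n hn ih => ?_
  by_cases hS : n ∈ S
  · exact ⟨fun _ => hS, fun _ => hS⟩
  have e : n ≠ 0 := fun e => hS (e ▸ S.zero_mem)
  have h1 := A.mul_split (fa θ g).1 (fc θ g).1 hn e
  change (fa θ g * fc θ g).1.f n = _ at h1
  rw [fa_mul_fc, not_not.1 (mt (h n) hS), G.f_zero, G.f_zero, sum_eq_zero] at h1
  · rcases le_or_gt 0 (θ n) with a | a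
    · have : (fc θ g).1.f n = 0 := by_contra fun z =>
        not_lt.2 a ((fc_in θ g n z).resolve_left e)
      rw [this] at h1
      exact ⟨fun z => absurd (by linear_combination -h1) z, fun z => absurd this z⟩
    · have : (fa θ g).1.f n = 0 := by_contra fun z => not_le.2 a (fa_in θ g n z)
      rw [this] at h1
      exact ⟨fun z => absurd this z, fun z => absurd (by linear_combination -h1) z⟩
  · intro m hm
    have a1 := mem_of_mem_erase (mem_of_mem_erase hm)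
    by_contra h0
    have a2 : (fa θ g).1.f m ≠ 0 := fun e => h0 (by simp [e])
    have a3 : (fc θ g).1.f (n - m) ≠ 0 := fun e => h0 (by simp [e])
    exact hS (by simpa using S.add_mem ((ih m (Cone.mem_box.1 a1).1
      (Cone.deg_lt a1 (ne_of_mem_erase (mem_of_mem_erase hm)))).1 a2) ((ih _ (Cone.mem_box.1 a1).2
        (Cone.deg_sub_lt a1 (ne_of_mem_erase hm))).2 a3))

theorem z0_in_sub (S : AddSubmonoid L) (θ : L →+ ℚ) {g : G ω C} (h : g.1.In S) :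
    (z0 θ g).1.In S := (fac_in2 S θ h).1.res

theorem fac_in (S : AddSubmonoid L) (θ : L →+ ℚ) {g : G ω C} (h : g.1.In S) :
    (fa θ g).1.In S ∧ (z0 θ g).1.In S ∧ (fc θ g).1.In S :=
  ⟨(fac_in2 S θ h).1, z0_in_sub S θ h, (fac_in2 S θ h).2⟩

/-- The positive factor. -/
noncomputable def fp (θ : L →+ ℚ) (g : G ω C) : G ω C := fa θ g * (z0 θ g)⁻¹

theorem fp_mul_z0 (θ : L →+ ℚ) (g : G ω C) : fp θ g * z0 θ g = fa θ g := by simp [fp]

theorem fp_z0_fc (θ : L →+ ℚ) (g : G ω C) : fp θ g * z0 θ g * fc θ g = g := by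
  rw [fp_mul_z0, fa_mul_fc]

theorem z0_inv_in (θ : L →+ ℚ) (g : G ω C) : ((z0 θ g)⁻¹).1.In {n | θ n = 0} :=
  A.In.inv (AddMonoidHom.mker θ) (z0_in θ g)

theorem A.in0_of_res {θ : L →+ ℚ} {a : A ω C} (h : a.In {n | 0 ≤ θ n})
    (e : a.res {n | θ n = 0} = 1) : a.In0 {n | 0 < θ n} := fun n hn => by
  rcases (show 0 ≤ θ n from h n hn).eq_or_lt with z | z
  · left
    by_contra nz
    have := congrArg (fun a : A ω C => a.f n) e
    simp only [A.one_f, if_neg nz] at this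
    rw [A.res_of_mem _ (show n ∈ {n | θ n = 0} from z.symm)] at this
    exact hn this
  · exact Or.inr z

theorem fp_in (θ : L →+ ℚ) (g : G ω C) : (fp θ g).1.In0 {n | 0 < θ n} := by
  have h1 : ((z0 θ g)⁻¹).1.In {n | 0 ≤ θ n} := (z0_inv_in θ g).mono fun n h => le_of_eq h.symm
  refine A.in0_of_res ((fa_in θ g).mul h1 fun s hs t ht => (nonneg θ).add_mem hs ht) ?_
  change ((fa θ g).1 * _).res _ = _
  rw [A.res_mul θ (fa_in θ g) h1, A.res_eq_self (z0_inv_in θ g), ← z0_val, G.mul_inv_val]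

theorem fp_in_sub (S : AddSubmonoid L) (θ : L →+ ℚ) {g : G ω C} (h : g.1.In S) :
    (fp θ g).1.In S :=
  (fac_in2 S θ h).1.mul (A.In.inv S (z0_in_sub S θ h)) fun _ h _ h' => S.add_mem h h'

/-- The middle factor of a triple product. -/
theorem z0_triple {Λ : Set L} (hΛ : C.Lower Λ) (θ : L →+ ℚ) {g b k d : G ω C}
    (hb : ∀ n ∈ Λ, b.1.f n ≠ 0 → n = 0 ∨ 0 < θ n) (hk : ∀ n ∈ Λ, k.1.f n ≠ 0 → θ n = 0)
    (hd : ∀ n ∈ Λ, d.1.f n ≠ 0 → n = 0 ∨ θ n < 0) (e : A.Cong Λ g.1 (b * k * d).1) :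
    A.Cong Λ (z0 θ g).1 k.1 := by
  by_cases z : 0 ∈ Λ
  swap
  · exact A.cong_of_not hΛ z _ _
  have b1 : (G.res Λ z b).1.In0 {n | 0 < θ n} := fun n hn =>
    hb n (A.res_ne_zero hn).1 (A.res_ne_zero hn).2
  have b2 : (G.res Λ z b).1.In {n | 0 ≤ θ n} := fun n hn => by
    rcases b1 n hn with rfl | h
    · simp
    · exact le_of_lt (show 0 < θ n from h)
  have k1 : (G.res Λ z k).1.In {n | θ n = 0} := fun n hn =>
    hk n (A.res_ne_zero hn).1 (A.res_ne_zero hn).2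
  have k2 : (G.res Λ z k).1.In {n | 0 ≤ θ n} := k1.mono fun n h => le_of_eq h.symm
  have h1 := (fac_cong' hΛ θ (g := g) (a := G.res Λ z b * G.res Λ z k) (c := d)
    (fun n _ hn => (b2.mul k2 fun s hs t ht => (nonneg θ).add_mem hs ht) n hn) hd
    (e.trans (((b.1.res_cong Λ).symm.mul hΛ (k.1.res_cong Λ).symm).mul hΛ (A.Cong.refl _ _)))).1
  have h2 : (G.res Λ z b).1.res {n | θ n = 0} = 1 := by
    ext n : 2
    by_cases nz : n = 0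
    · rw [nz, A.res_of_mem _ (by simp), G.f_zero, A.one_f, if_pos rfl]
    · rw [A.one_f, if_neg nz]
      by_contra hn
      exact ((b1 n (A.res_ne_zero hn).2).resolve_left nz).ne' (A.res_ne_zero hn).1
  have h3 := h1.res {n | θ n = 0}
  change A.Cong Λ _ (((G.res Λ z b).1 * (G.res Λ z k).1).res _) at h3
  rw [A.res_mul θ b2 k2, h2, one_mul, A.res_eq_self k1] at h3
  exact h3.trans (k.1.res_cong Λ)

theorem exists_fpos (θ : L →+ ℚ) (g : G ω C) :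
    ∃ b : G ω C, b.1.In0 {n | 0 < θ n} ∧ g = b * z0 θ g * fc θ g :=
  ⟨fp θ g, fp_in θ g, (fp_z0_fc θ g).symm⟩

theorem A.In0.nonneg {θ : L →+ ℚ} {a : A ω C} (h : a.In0 {n | 0 < θ n}) : a.In {n | 0 ≤ θ n} :=
  fun n hn => by
    rcases h n hn with rfl | l
    · simp
    · exact le_of_lt (show 0 < θ n from l)

theorem A.In.nonneg {θ : L →+ ℚ} {a : A ω C} (h : a.In {n | θ n = 0}) : a.In {n | 0 ≤ θ n} :=
  h.mono fun _ e => le_of_eq (Eq.symm e)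

theorem G.res_in0 {θ : L →+ ℚ} {b : G ω C} (h : b.1.In0 {n | 0 < θ n}) :
    b.1.res {n | θ n = 0} = 1 := by
  ext n : 2
  by_cases nz : n = 0
  · rw [nz, A.res_of_mem _ (by simp), G.f_zero, A.one_f, if_pos rfl]
  · rw [A.one_f, if_neg nz]
    by_contra hn
    exact ((h n (A.res_ne_zero hn).2).resolve_left nz).ne' (A.res_ne_zero hn).1

theorem fac3 (θ : L →+ ℚ) {b k d : G ω C} (hb : b.1.In0 {n | 0 < θ n}) (hk : k.1.In {n | θ n = 0})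
    (hd : d.1.In0 {n | θ n < 0}) : z0 θ (b * k * d) = k ∧ fc θ (b * k * d) = d :=
  ⟨G.eq_of_cong (z0_triple C.lower_univ θ (fun n _ => hb n) (fun n _ => hk n) (fun n _ => hd n)
    (A.Cong.refl _ _)), (fac_unique θ rfl (A.In.mul_sub (nonneg θ) hb.nonneg hk.nonneg) hd).2⟩

theorem pos_add (θ : L →+ ℚ) : ∀ m ∈ {n | 0 < θ n}, ∀ n ∈ {n | 0 < θ n}, m + n ∈ {n | 0 < θ n} :=
  fun m hm n hn => by
    simp only [Set.mem_ofPred_eq, map_add] at *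
    linarith

theorem neg_add' (θ : L →+ ℚ) : ∀ m ∈ {n | θ n < 0}, ∀ n ∈ {n | θ n < 0}, m + n ∈ {n | θ n < 0} :=
  fun m hm n hn => by
    simp only [Set.mem_ofPred_eq, map_add] at *
    linarith

theorem z0_absorb (θ : L →+ ℚ) (g : G ω C) {b d : G ω C} (hb : b.1.In0 {n | 0 < θ n})
    (hd : d.1.In0 {n | θ n < 0}) : z0 θ (b * g * d) = z0 θ g ∧ fc θ (b * g * d) = fc θ g * d := by
  have : b * g * d = b * fp θ g * z0 θ g * (fc θ g * d) := by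
    conv_lhs => rw [← fp_z0_fc θ g]
    simp only [mul_assoc]
  rw [this]
  exact fac3 θ (A.In0.mul (pos_add θ) hb (fp_in θ g)) (z0_in θ g)
    (A.In0.mul (neg_add' θ) (fc_in θ g) hd)

theorem conj_in0 {θ : L →+ ℚ} {b k : G ω C} (hb : b.1.In0 {n | 0 < θ n})
    (hk : k.1.In {n | θ n = 0}) : (k * b * k⁻¹).1.In0 {n | 0 < θ n} := by
  have hk' : (k⁻¹).1.In {n | θ n = 0} := A.In.inv (AddMonoidHom.mker θ) hk
  have h1 : (k.1 * b.1).In {n | 0 ≤ θ n} := A.In.mul_sub (nonneg θ) hk.nonneg hb.nonneg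
  refine A.in0_of_res (A.In.mul_sub (nonneg θ) h1 hk'.nonneg) ?_
  change (k.1 * b.1 * _).res _ = _
  rw [A.res_mul θ h1 hk'.nonneg, A.res_mul θ hk.nonneg hb.nonneg, G.res_in0 hb, mul_one,
    A.res_eq_self hk, A.res_eq_self hk', G.mul_inv_val]

theorem conj_in0_neg {θ : L →+ ℚ} {b k : G ω C} (hb : b.1.In0 {n | θ n < 0})
    (hk : k.1.In {n | θ n = 0}) : (k * b * k⁻¹).1.In0 {n | θ n < 0} := by
  have := conj_in0 (θ := -θ) (b := b) (k := k) (by simpa using hb) (by simpa using hk)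
  simpa using this

theorem z0_side (θ : L →+ ℚ) (g : G ω C) {k k' : G ω C} (hk : k.1.In {n | θ n = 0})
    (hk' : k'.1.In {n | θ n = 0}) :
    z0 θ (k * g * k') = k * z0 θ g * k' ∧ fc θ (k * g * k') = k'⁻¹ * fc θ g * k' := by
  have : k * g * k' = k * fp θ g * k⁻¹ * (k * z0 θ g * k') * (k'⁻¹ * fc θ g * k') := by
    conv_lhs => rw [← fp_z0_fc θ g]
    simp only [mul_assoc, inv_mul_cancel_left, mul_inv_cancel_left]
  rw [this]
  refine fac3 θ (conj_in0 (fp_in θ g) hk) (A.In.mul_sub (AddMonoidHom.mker θ)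
    (A.In.mul_sub (AddMonoidHom.mker θ) hk (z0_in θ g)) hk') ?_
  have := conj_in0_neg (fc_in θ g) (A.In.inv (AddMonoidHom.mker θ) hk')
  rwa [inv_inv] at this

/-- Working form of the lexicographic sign condition. -/
def LexSign' (Λ : Set L) (θ' θ ξ : L →+ ℚ) : Prop :=
  ∀ n ∈ Λ, (0 < θ n → 0 < θ' n) ∧ (θ n < 0 → θ' n < 0) ∧
    (θ n = 0 → (0 < ξ n → 0 < θ' n) ∧ (ξ n < 0 → θ' n < 0) ∧ (ξ n = 0 → θ' n = 0))

theorem lexSign_iff {Λ : Set L} {θ' θ ξ : L →+ ℚ} : LexSign Λ θ' θ ξ ↔ LexSign' Λ θ' θ ξ := by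
  refine forall₂_congr fun n _ => ?_
  generalize θ n = a, ξ n = b, θ' n = c
  grind

theorem z0_nest {Λ : Set L} (hΛ : C.Lower Λ) {θ' θ ξ : L →+ ℚ} (hs : LexSign (Λ ∩ C.car) θ' θ ξ)
    (g : G ω C) : A.Cong Λ (z0 θ' g).1 (z0 ξ (z0 θ g)).1 := by
  have h := lexSign_iff.1 hs
  have hk : (z0 θ g).1.In (AddMonoidHom.mker θ) := z0_in θ g
  refine z0_triple hΛ θ' (b := fp θ g * fp ξ (z0 θ g)) (d := fc ξ (z0 θ g) * fc θ g)
    (fun n hn e => ?_) (fun n hn e => ?_) (fun n hn e => ?_) ?_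
  · obtain ⟨m, hm, m', hm', rfl, h1, h2⟩ := A.mul_ne_zero' hΛ hn e
    exact (pos0 θ').add_mem ((fp_in θ g m h1).imp_right (h m ⟨hm, A.supp _ m h1⟩).1)
      ((fp_in ξ _ m' h2).imp_right ((h m' ⟨hm', A.supp _ m' h2⟩).2.2 (fp_in_sub _ ξ hk m' h2)).1)
  · exact ((h n ⟨hn, A.supp _ n e⟩).2.2 (z0_in_sub _ ξ hk n e)).2.2 (z0_in ξ _ n e)
  · obtain ⟨m, hm, m', hm', rfl, h1, h2⟩ := A.mul_ne_zero' hΛ hn e
    exact (neg0 θ').add_mem
      ((fc_in ξ _ m h1).imp_right ((h m ⟨hm, A.supp _ m h1⟩).2.2 ((fac_in2 _ ξ hk).2 m h1)).2.1)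
      ((fc_in θ g m' h2).imp_right (h m' ⟨hm', A.supp _ m' h2⟩).2.1)
  · have : fp θ g * fp ξ (z0 θ g) * z0 ξ (z0 θ g) * (fc ξ (z0 θ g) * fc θ g) = g := by
      conv_rhs => rw [← fp_z0_fc θ g, ← fp_z0_fc ξ (z0 θ g)]
      simp only [mul_assoc]
    rw [this]
    exact A.Cong.refl _ _

theorem fc_nest {Λ : Set L} (hΛ : C.Lower Λ) {θ' θ ξ : L →+ ℚ} (hs : LexSign (Λ ∩ C.car) θ' θ ξ)
    (g : G ω C) : A.Cong Λ (fc θ' g).1 (fc ξ (z0 θ g) * fc θ g).1 := by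
  have h := lexSign_iff.1 hs
  have hk : (z0 θ g).1.In (AddMonoidHom.mker θ) := z0_in θ g
  refine (fac_cong' hΛ θ' (a := fp θ g * fa ξ (z0 θ g)) (fun n hn e => ?_) (fun n hn e => ?_) ?_).2
  · obtain ⟨m, hm, m', hm', rfl, h1, h2⟩ := A.mul_ne_zero' hΛ hn e
    refine (nonneg θ').add_mem (?_ : 0 ≤ θ' m) (?_ : 0 ≤ θ' m')
    · rcases fp_in θ g m h1 with rfl | l
      · simp
      · exact ((h m ⟨hm, A.supp _ m h1⟩).1 l).le
    · have := (h m' ⟨hm', A.supp _ m' h2⟩).2.2 ((fac_in2 _ ξ hk).1 m' h2)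
      rcases (show 0 ≤ ξ m' from fa_in ξ _ m' h2).eq_or_lt with l | l
      · exact (this.2.2 l.symm).ge
      · exact (this.1 l).le
  · obtain ⟨m, hm, m', hm', rfl, h1, h2⟩ := A.mul_ne_zero' hΛ hn e
    exact (neg0 θ').add_mem
      ((fc_in ξ _ m h1).imp_right ((h m ⟨hm, A.supp _ m h1⟩).2.2 ((fac_in2 _ ξ hk).2 m h1)).2.1)
      ((fc_in θ g m' h2).imp_right (h m' ⟨hm', A.supp _ m' h2⟩).2.1)
  · have : fp θ g * fa ξ (z0 θ g) * (fc ξ (z0 θ g) * fc θ g) = g := by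
      conv_rhs => rw [← fp_z0_fc θ g, ← fa_mul_fc ξ (z0 θ g)]
      simp only [mul_assoc]
    rw [this]
    exact A.Cong.refl _ _

theorem exists_eps' {Λ : Set L} (hΛ : Λ.Finite) (θ ξ : L →+ ℚ) :
    ∃ ε₀ : ℚ, 0 < ε₀ ∧ ∀ ε, 0 < ε → ε ≤ ε₀ → LexSign' Λ (θ + ε • ξ) θ ξ := by
  induction Λ, hΛ using Set.Finite.induction_on with
  | empty => exact ⟨1, one_pos, fun _ _ _ _ h => absurd h (Set.notMem_empty _)⟩
  | @insert a s _ _ ih =>
    obtain ⟨e, he, h⟩ := ih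
    have p : 0 < |ξ a| + 1 := by positivity
    have key : ∀ ε : ℚ, 0 < ε → (θ a ≠ 0 → ε ≤ |θ a| / (|ξ a| + 1)) →
        LexSign' {a} (θ + ε • ξ) θ ξ := by
      rintro ε h0 h1 n rfl
      simp only [AddMonoidHom.add_apply, AddMonoidHom.smul_apply, smul_eq_mul]
      have l1 := neg_abs_le (ξ n)
      have l2 := le_abs_self (ξ n)
      refine ⟨fun l => ?_, fun l => ?_, fun l => ?_⟩
      · have := (le_div_iff₀ p).1 (h1 l.ne')
        rw [abs_of_pos l] at this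
        nlinarith
      · have := (le_div_iff₀ p).1 (h1 l.ne)
        rw [abs_of_neg l] at this
        nlinarith
      · rw [l, zero_add]
        exact ⟨fun z => mul_pos h0 z, fun z => mul_neg_of_pos_of_neg h0 z, fun z => by simp [z]⟩
    by_cases z : θ a = 0
    · refine ⟨e, he, fun ε h0 h1 n hn => ?_⟩
      rcases hn with rfl | hn
      · exact key ε h0 (fun nz => absurd z nz) n rfl
      · exact h ε h0 h1 n hn
    · refine ⟨min e (|θ a| / (|ξ a| + 1)), lt_min he (div_pos (abs_pos.2 z) p),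
        fun ε h0 h1 n hn => ?_⟩
      rcases hn with rfl | hn
      · exact key ε h0 (fun _ => h1.trans (min_le_right _ _)) n rfl
      · exact h ε h0 (h1.trans (min_le_left _ _)) n hn

theorem exists_eps {Λ : Set L} (hΛ : Λ.Finite) (θ ξ : L →+ ℚ) :
    ∃ ε₀ : ℚ, 0 < ε₀ ∧ ∀ ε, 0 < ε → ε ≤ ε₀ → LexSign Λ (θ + ε • ξ) θ ξ := by
  simpa only [lexSign_iff] using exists_eps' hΛ θ ξ

theorem fac_f_congr2 (θ : L →+ ℚ) {g : G ω C} {g' : G ω C'} (h : g'.1.f = g.1.f) :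
    (fa θ g').1.f = (fa θ g).1.f ∧ (fc θ g').1.f = (fc θ g).1.f := by
  have hg : g.1.In C'.car := fun n hn => g'.1.supp n (by rwa [h])
  obtain ⟨a, ha⟩ := G.exists_lift (C' := C') (fa θ g) (fac_in2 C'.car θ hg).1
  obtain ⟨c, hc⟩ := G.exists_lift (C' := C') (fc θ g) (fac_in2 C'.car θ hg).2
  have e : a * c = g' := Subtype.ext (A.ext ((mul_f_congr ha hc).trans (by
    rw [h, ← fa_mul_fc θ g]; simp only [fa_mul_fc]; exact congrArg (fun x : G ω C => x.1.f) (fa_mul_fc θ g))))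
  have := fac_unique θ e (fun n hn => fa_in θ g n (by rwa [← ha])) fun n hn =>
    fc_in θ g n (by rwa [← hc])
  rw [this.1, this.2]
  exact ⟨ha, hc⟩

theorem fac_f_congr (θ : L →+ ℚ) {g : G ω C} {g' : G ω C'} (h : g'.1.f = g.1.f) :
    (z0 θ g').1.f = (z0 θ g).1.f ∧ (fc θ g').1.f = (fc θ g).1.f :=
  ⟨by
    show Set.indicator _ (fa θ g').1.f = Set.indicator _ (fa θ g).1.f
    rw [(fac_f_congr2 θ h).1], (fac_f_congr2 θ h).2⟩

theorem push_ne_zero {L₁ : Type} [AddCommGroup L₁] {φ : L₁ →+ L} {α : L₁ →+ ℤ} {f : L₁ → K} {n : L}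
    (h : ∑ᶠ d ∈ {d | φ d = n}, tp (α d) * f d ≠ 0) : ∃ d, φ d = n ∧ f d ≠ 0 := by
  by_contra e
  push Not at e
  exact h (finsum_mem_of_eqOn_zero fun d hd => by simp [e d hd])

theorem fac_push {L₁ : Type} [AddCommGroup L₁] {ω₁ : Skew L₁} {C₁ : Cone L₁} {φ : L₁ →+ L}
    (h : PushOK ω₁ C₁ ω C φ) {α : L₁ →+ ℤ} {Ψ : G ω₁ C₁ →* G ω C}
    (hΨ : ∀ g n, (Ψ g).1.f n = ∑ᶠ d ∈ {d | φ d = n}, tp (α d) * g.1.f d) (θ : L →+ ℚ)
    (g : G ω₁ C₁) : z0 θ (Ψ g) = Ψ (z0 (θ.comp φ) g) ∧ fc θ (Ψ g) = Ψ (fc (θ.comp φ) g) := by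
  have _ := h
  have e : Ψ g = Ψ (fp (θ.comp φ) g) * Ψ (z0 (θ.comp φ) g) * Ψ (fc (θ.comp φ) g) := by
    rw [← map_mul, ← map_mul, fp_z0_fc]
  rw [e]
  refine fac3 θ (fun n hn => ?_) (fun n hn => ?_) fun n hn => ?_
  all_goals
    rw [hΨ] at hn
    obtain ⟨d, rfl, hd⟩ := push_ne_zero hn
  · exact (fp_in _ g d hd).imp (fun z => by rw [z, map_zero]) id
  · exact z0_in _ g d hd
  · exact (fc_in _ g d hd).imp (fun z => by rw [z, map_zero]) id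

section Top

variable {Λ : Set L} {S : AddSubmonoid L} {r : A ω C}

theorem top_mul (hr : ∀ m, r.f m ≠ 0 → ∀ s ∈ S, s ∈ C.car → s ≠ 0 → m + s ∉ Λ) {a : A ω C}
    (ha : a.In S) : A.Cong Λ (r * a) (a.f 0 • r) := fun n hn => by
  rw [A.mul_apply, sum_eq_single n]
  · simp [ω.alt, tp_zero, mul_comm]
  · intro m _ e
    by_contra h0
    have a2 : r.f m ≠ 0 := fun e => h0 (by simp [e])
    have a3 : a.f (n - m) ≠ 0 := fun e => h0 (by simp [e])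
    exact hr m a2 _ (ha _ a3) (a.supp _ a3) (sub_ne_zero.2 e.symm) (by simpa using hn)
  · intro h
    have : n ∉ C.car := fun c => h (by simp [Cone.mem_box, c])
    simp [A.eq_zero this]

theorem mul_top (hr : ∀ m, r.f m ≠ 0 → ∀ s ∈ S, s ∈ C.car → s ≠ 0 → m + s ∉ Λ) {a : A ω C}
    (ha : a.In S) : A.Cong Λ (a * r) (a.f 0 • r) := fun n hn => by
  rw [A.mul_apply, sum_eq_single 0]
  · simp [tp_zero]
  · intro m _ e
    by_contra h0
    have a2 : a.f m ≠ 0 := fun e => h0 (by simp [e])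
    have a3 : r.f (n - m) ≠ 0 := fun e => h0 (by simp [e])
    exact hr _ a3 _ (ha _ a2) (a.supp _ a2) e (by simpa using hn)
  · intro h
    have : n ∉ C.car := fun c => h (by simp [Cone.mem_box, c])
    simp [A.eq_zero this]

theorem top_res (hr : ∀ m, r.f m ≠ 0 → ∀ s ∈ S, s ∈ C.car → s ≠ 0 → m + s ∉ Λ) (T : Set L) :
    ∀ m, (r.res T).f m ≠ 0 → ∀ s ∈ S, s ∈ C.car → s ≠ 0 → m + s ∉ Λ :=
  fun m hm => hr m (A.res_ne_zero hm).2

/-- A5: the two factors after a change in top position. -/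
theorem fac_top (hΛ : C.Lower Λ) (θ : L →+ ℚ) {h h' : G ω C} (hS : h'.1.In S) (hrS : r.In S)
    (r0 : r.f 0 = 0) (hr : ∀ m, r.f m ≠ 0 → ∀ s ∈ S, s ∈ C.car → s ≠ 0 → m + s ∉ Λ)
    (e : A.Cong Λ h.1 (h'.1 + r)) :
    A.Cong Λ (fa θ h).1 ((fa θ h').1 + r.res {n | 0 ≤ θ n}) ∧
      A.Cong Λ (fc θ h).1 ((fc θ h').1 + r.res {n | θ n < 0}) := by
  refine fac_cong0 hΛ θ (a := G.addTop (fa θ h') _ (A.res_zero_of r0 _))
    (c := G.addTop (fc θ h') _ (A.res_zero_of r0 _)) (fun n hn => ?_) (fun n hn => ?_)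
    (e.trans fun n hn => ?_)
  · by_cases z : (fa θ h').1.f n = 0
    · exact A.res_in _ r n fun z' => hn (by simp [G.addTop, z, z'])
    · exact fa_in θ h' n z
  · by_cases z : (fc θ h').1.f n = 0
    · exact Or.inr (A.res_in _ r n fun z' => hn (by simp [G.addTop, z, z']))
    · exact fc_in θ h' n z
  · change _ = (((fa θ h').1 + _) * ((fc θ h').1 + _)).f n
    have e0 : (fa θ h').1 * (fc θ h').1 = h'.1 := congrArg Subtype.val (fa_mul_fc θ h')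
    simp only [add_mul, mul_add, e0, A.add_f, Pi.add_apply]
    rw [top_mul (top_res hr _) (fac_in2 S θ hS).2 n hn, mul_top (top_res hr _) (fac_in2 S θ hS).1 n hn,
      top_mul (top_res hr _) hrS.res n hn]
    simp only [G.f_zero, A.res_zero_of r0, one_smul, zero_smul, A.zero_f, Pi.zero_apply, add_zero]
    rcases le_or_gt 0 (θ n) with a | a
    · rw [A.res_of_mem (S := {n | 0 ≤ θ n}) _ a, A.res_of_not (S := {n | θ n < 0}) _ a.not_gt,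
        add_zero]
    · rw [A.res_of_not (S := {n | 0 ≤ θ n}) _ a.not_ge, A.res_of_mem (S := {n | θ n < 0}) _ a,
        add_zero]

theorem z0_top0 (hΛ : C.Lower Λ) (θ : L →+ ℚ) {h h' : G ω C} (hS : h'.1.In S) (hrS : r.In S)
    (r0 : r.f 0 = 0) (hr : ∀ m, r.f m ≠ 0 → ∀ s ∈ S, s ∈ C.car → s ≠ 0 → m + s ∉ Λ)
    (e : A.Cong Λ h.1 (h'.1 + r)) :
    A.Cong Λ (z0 θ h).1 ((z0 θ h').1 + r.res {n | θ n = 0}) := fun n hn => by
  rw [A.add_f, Pi.add_apply, z0_val, z0_val]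
  by_cases m : n ∈ {n | θ n = 0}
  · rw [A.res_of_mem _ m, A.res_of_mem _ m, A.res_of_mem _ m, (fac_top hΛ θ hS hrS r0 hr e).1 n hn,
      A.add_f, Pi.add_apply, A.res_of_mem (S := {n | 0 ≤ θ n}) _ (le_of_eq m.symm)]
  · rw [A.res_of_not _ m, A.res_of_not _ m, A.res_of_not _ m, add_zero]

theorem top_data {h h' : G ω C} (hS : h.1.In S) (hS' : h'.1.In S) {T : Set L}
    (hT : ∀ n ∈ T, ∀ m ∈ C.car, m ∈ S → m ≠ 0 → n + m ∉ Λ)
    (e : ∀ n ∈ Λ, n ∉ T → h.1.f n = h'.1.f n) : ∃ r : A ω C, r.In S ∧ r.f 0 = 0 ∧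
      (∀ m, r.f m ≠ 0 → ∀ s ∈ S, s ∈ C.car → s ≠ 0 → m + s ∉ Λ) ∧ A.Cong Λ h.1 (h'.1 + r) ∧
      ∀ n ∈ Λ, r.f n = h.1.f n - h'.1.f n := by
  refine ⟨(h.1 - h'.1).res Λ, A.In.res fun n hn => ?_, A.res_zero_of (by simp [G.f_zero]) _,
    fun m hm s a b c => ?_, fun m hm => ?_, fun n hn => A.res_of_mem _ hn⟩
  · by_contra z
    exact hn (by simp [not_not.1 (mt (hS n) z), not_not.1 (mt (hS' n) z)])
  · obtain ⟨h1, h2⟩ := A.res_ne_zero hm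
    exact hT m (by_contra fun z => h2 (sub_eq_zero.2 (e m h1 z))) s b a c
  · rw [A.add_f, Pi.add_apply, A.res_of_mem _ hm]
    simp

end Top

/-- TOP for the middle factor: h and h' live on S, and agree on Λ except at top points T. -/
theorem z0_top {Λ : Set L} (hΛ : C.Lower Λ) (S : AddSubmonoid L) (θ : L →+ ℚ) {h h' : G ω C}
    (hS : h.1.In S) (hS' : h'.1.In S) {T : Set L}
    (hT : ∀ n ∈ T, ∀ m ∈ C.car, m ∈ S → m ≠ 0 → n + m ∉ Λ)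
    (e : ∀ n ∈ Λ, n ∉ T → h.1.f n = h'.1.f n) (n : L) (hn : n ∈ Λ) :
    (z0 θ h).1.f n - (z0 θ h').1.f n = if θ n = 0 then h.1.f n - h'.1.f n else 0 := by
  obtain ⟨r, r1, r0, r2, r3, r4⟩ := top_data hS hS' hT e
  rw [z0_top0 hΛ θ hS' r1 r0 r2 r3 n hn, A.add_f, Pi.add_apply, add_sub_cancel_left]
  split_ifs with z
  · rw [A.res_of_mem (S := {n | θ n = 0}) _ z, r4 n hn]
  · exact A.res_of_not (S := {n | θ n = 0}) _ z

/-- TOP for the negative factor. -/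
theorem fc_top {Λ : Set L} (hΛ : C.Lower Λ) (S : AddSubmonoid L) (θ : L →+ ℚ) {h h' : G ω C}
    (hS : h.1.In S) (hS' : h'.1.In S) {T : Set L}
    (hT : ∀ n ∈ T, ∀ m ∈ C.car, m ∈ S → m ≠ 0 → n + m ∉ Λ)
    (e : ∀ n ∈ Λ, n ∉ T → h.1.f n = h'.1.f n) (n : L) (hn : n ∈ Λ) :
    (fc θ h).1.f n - (fc θ h').1.f n = if θ n < 0 then h.1.f n - h'.1.f n else 0 := by
  obtain ⟨r, r1, r0, r2, r3, r4⟩ := top_data hS hS' hT e
  rw [(fac_top hΛ θ hS' r1 r0 r2 r3).2 n hn, A.add_f, Pi.add_apply, add_sub_cancel_left]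
  split_ifs with z
  · rw [A.res_of_mem (S := {n | θ n < 0}) _ z, r4 n hn]
  · exact A.res_of_not (S := {n | θ n < 0}) _ z

end Pool.Agent.Lib.MP_33bfb2_co.Th
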