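import Pool.Agent.Lib.MP_33bfb2_co.Th.A2a

namespace Pool.Agent.Lib.MP_33bfb2_co.Th

open Finset

variable {L : Type} [AddCommGroup L] {ω : Skew L} {C C' : Cone L}

theorem der_f (δ : L →+ ℤ) (a : A ω C) (n : L) : (der δ a).f n = (δ n : K) * a.f n :=
  zsmul_eq_mul _ _

theorem der_mul (δ : L →+ ℤ) (a b : A ω C) : der δ (a * b) = der δ a * b + a * der δ b := by
  ext n : 2
  simp only [der_f, A.add_f, Pi.add_apply, A.mul_apply, mul_sum, ← sum_add_distrib, map_sub]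
  exact sum_congr rfl fun m _ => by push_cast; ring

theorem der_add (δ : L →+ ℤ) (a b : A ω C) : der δ (a + b) = der δ a + der δ b := by
  ext n : 2
  simp only [der_f, A.add_f, Pi.add_apply, mul_add]

theorem der_one (δ : L →+ ℤ) : der δ (1 : A ω C) = 0 := by
  ext n : 2
  by_cases e : n = 0 <;> simp [der_f, A.one_f, e]

theorem der_in (δ : L →+ ℤ) {a : A ω C} {S : Set L} (h : a.In S) : (der δ a).In S :=
  fun n hn => h n fun e => hn (by simp [der_f, e])

theorem der_f_zero (δ : L →+ ℤ) (a : A ω C) : (der δ a).f 0 = 0 := by simp [der_f]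

theorem A.Cong.der {Λ : Set L} {a b : A ω C} (h : A.Cong Λ a b) (δ : L →+ ℤ) :
    A.Cong Λ (der δ a) (der δ b) := fun n hn => by rw [der_f, der_f, h n hn]

theorem mul_ell (δ : L →+ ℤ) (k : G ω C) : k.1 * ell δ k = der δ k.1 := by
  rw [ell, ← mul_assoc, G.mul_inv_val, one_mul]

theorem ell_one (δ : L →+ ℤ) : ell δ (1 : G ω C) = 0 := by
  have : der δ (1 : G ω C).1 = 0 := der_one δ
  rw [ell, this, mul_zero]

theorem ell_mul' (δ : L →+ ℤ) (a b : G ω C) :
    ell δ (a * b) = (b⁻¹).1 * ell δ a * b.1 + ell δ b := by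
  simp only [ell, mul_inv_rev, Submonoid.coe_mul, der_mul, mul_add, mul_assoc]
  rw [← mul_assoc (a⁻¹).1 a.1, G.inv_mul_val, one_mul]

theorem ell_mul (δ : L →+ ℤ) (a b : G ω C) :
    ell δ (a * b) = Ad b⁻¹ (ell δ a) + ell δ b := by
  rw [ell_mul', Ad, inv_inv]

theorem ell_f_zero (δ : L →+ ℤ) (k : G ω C) : (ell δ k).f 0 = 0 := by
  rw [ell, A.mul_zero_apply, der_f_zero, mul_zero]

theorem ell_in (S : AddSubmonoid L) (δ : L →+ ℤ) {k : G ω C} (h : k.1.In S) :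
    (ell δ k).In S :=
  (A.In.inv S h).mul (der_in δ h) fun _ h _ h' => S.add_mem h h'

theorem ell_cong {Λ : Set L} (hΛ : C.Lower Λ) (δ : L →+ ℤ) {k k' : G ω C}
    (h : A.Cong Λ k.1 k'.1) : A.Cong Λ (ell δ k) (ell δ k') := (h.inv hΛ).mul hΛ (h.der δ)

/-- The coefficient at n is a trace when one factor is orthogonal to n. -/
theorem A.trace {a : A ω C} (b : A ω C) {n : L} (h : a.In {m | ω.w n m = 0}) :
    (a * b).f n = (b * a).f n := by
  rw [A.mul_apply, A.mul_apply]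
  refine sum_nbij' (fun m => n - m) (fun m => n - m) (fun m hm => ?_) (fun m hm => ?_)
    (fun m _ => by simp) (fun m _ => by simp) fun m _ => ?_
  · simpa [Cone.mem_box, and_comm] using hm
  · simpa [Cone.mem_box, and_comm] using hm
  · by_cases e : a.f m = 0
    · simp [e]
    · have : ω.w n m = 0 := h m e
      simp only [map_sub, AddMonoidHom.sub_apply, ω.alt, ω.skew m n, this, sub_sub_cancel]
      simp only [neg_zero, sub_zero]
      ring

theorem perp_inv {n : L} {k : G ω C} (h : k.1.In {m | ω.w n m = 0}) :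
    (k⁻¹).1.In {m | ω.w n m = 0} := A.In.inv (AddMonoidHom.mker (ω.w n)) h

theorem Ad_apply_perp {p : L} {k : G ω C} (hk : k.1.In {n | ω.w p n = 0}) (a : A ω C) :
    (Ad k a).f p = a.f p := by
  rw [Ad, mul_assoc, A.trace _ hk, mul_assoc, G.inv_mul_val, mul_one]

theorem ell_mul_perp (δ : L →+ ℤ) {n : L} {b : G ω C} (hb : b.1.In {m | ω.w n m = 0})
    (a : G ω C) : (ell δ (a * b)).f n = (ell δ a).f n + (ell δ b).f n := by
  rw [ell_mul', A.add_f, Pi.add_apply, ← A.trace _ hb, ← mul_assoc, G.mul_inv_val, one_mul]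

theorem ell_z0' (δ : L →+ ℤ) (ξ : L →+ ℚ) {n : L} (hn : ξ n = 0) {k : G ω C}
    (h : k.1.In {m | ω.w n m = 0}) : (ell δ (z0 ξ k)).f n = (ell δ k).f n := by
  have hS : k.1.In (AddMonoidHom.mker (ω.w n)) := h
  conv_rhs => rw [← fp_z0_fc ξ k]
  rw [ell_mul_perp δ (fac_in2 _ ξ hS).2, ell_mul_perp δ (z0_in_sub _ ξ hS)]
  have h1 : (ell δ (fp ξ k)).f n = 0 := by_contra fun e => by
    rcases ell_in (pos0 ξ) δ (fun m hm => fp_in ξ k m hm) n e with rfl | l
    · exact e (ell_f_zero _ _)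
    · exact l.ne' hn
  have h2 : (ell δ (fc ξ k)).f n = 0 := by_contra fun e => by
    rcases ell_in (neg0 ξ) δ (fun m hm => fc_in ξ k m hm) n e with rfl | l
    · exact e (ell_f_zero _ _)
    · exact l.ne hn
  rw [h1, h2, zero_add, add_zero]

theorem ell_z0 (δ : L →+ ℤ) {n : L} {k : G ω C} (hk : k.1.In {m | ω.w n m = 0}) (ξ : L →+ ℚ)
    (hξ : ξ n = 0) (hn : n ≠ 0) : (ell δ (z0 ξ k)).f n = (ell δ k).f n :=
  have _ := hn
  ell_z0' δ ξ hξ hk

theorem ell_change (δ δ' : L →+ ℤ) {n : L} {k : G ω C} (h : k.1.In {m | ω.w n m = 0}) :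
    (δ' n : K) * (ell δ k).f n = (δ n : K) * (ell δ' k).f n := by
  let ξ : L →+ ℚ := (Int.castAddHom ℚ).comp (δ' n • δ - δ n • δ')
  have hξ : ∀ m, ξ m = ((δ' n * δ m - δ n * δ' m : ℤ) : ℚ) := fun m => by simp [ξ]
  have hn : ξ n = 0 := by rw [hξ, mul_comm, sub_self, Int.cast_zero]
  rw [← ell_z0' δ ξ hn h, ← ell_z0' δ' ξ hn h, ell, ell, A.mul_apply, A.mul_apply, mul_sum, mul_sum]
  refine sum_congr rfl fun m _ => ?_
  by_cases e : (z0 ξ k).1.f (n - m) = 0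
  · simp [der_f, e]
  · have : ξ (n - m) = 0 := z0_in ξ k _ e
    rw [hξ, Int.cast_eq_zero, sub_eq_zero] at this
    have : (δ' n : K) * δ (n - m) = δ n * δ' (n - m) := by
      rw [← Int.cast_mul, this, Int.cast_mul]
    rw [der_f, der_f]
    linear_combination (tp (- ω.w m n) * ((z0 ξ k)⁻¹).1.f m * (z0 ξ k).1.f (n - m)) * this

theorem ell_indep (δ δ' : L →+ ℤ) {n : L} {k : G ω C} (hk : k.1.In {m | ω.w n m = 0}) :
    δ' n • (ell δ k).f n = δ n • (ell δ' k).f n := by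
  rw [zsmul_eq_mul, zsmul_eq_mul, ell_change δ δ' hk]

theorem th_apply (n m : L) : th ω n m = - (ω.w n m : ℚ) := by simp [th]

theorem th_self (n : L) : th ω n n = 0 := by simp [th_apply, ω.alt]

theorem z0_th_in (n : L) (g : G ω C) : (z0 (th ω n) g).1.In {m | ω.w n m = 0} := fun m hm => by
  have : th ω n m = 0 := z0_in _ g m hm
  simpa [th_apply] using this

theorem Att_change (δ δ' : L →+ ℤ) (g : G ω C) (n : L) :
    (δ' n : K) * Att δ g n = (δ n : K) * Att δ' g n := ell_change δ δ' (z0_th_in n g)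

theorem Att_cong {Λ : Set L} (hΛ : C.Lower Λ) (δ : L →+ ℤ) {g g' : G ω C}
    (h : A.Cong Λ g.1 g'.1) {n : L} (hn : n ∈ Λ) : Att δ g n = Att δ g' n :=
  ell_cong hΛ δ (z0_cong0 hΛ _ h) n hn

/-- Equal logarithmic derivatives give equal elements. -/
theorem cong_of_ell {Λ : Set L} (hΛ : C.Lower Λ) {k k' : G ω C}
    (h : A.Cong Λ (ell C.deg k) (ell C.deg k')) : A.Cong Λ k.1 k'.1 := by
  classical
  suffices ∀ n ∈ C.car, n ∈ Λ → k.1.f n = k'.1.f n from fun n hn => by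
    by_cases c : n ∈ C.car
    · exact this n c hn
    · rw [A.eq_zero c, A.eq_zero c]
  refine Cone.induction fun n hn ih hΛn => ?_
  by_cases e : n = 0
  · rw [e, G.f_zero, G.f_zero]
  refine mul_left_cancel₀ (intCast_K_ne (C.pos n hn e).ne') ?_
  rw [← der_f, ← der_f, ← mul_ell, ← mul_ell, A.mul_apply, A.mul_apply]
  refine sum_congr rfl fun m hm => ?_
  obtain ⟨h1, h2⟩ := Cone.mem_box.1 hm
  by_cases z : m = n
  · simp [z, ell_f_zero]
  · rw [ih m h1 (Cone.deg_lt hm z) (hΛ m h1 _ h2 (by simpa using hΛn)),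
      h _ (hΛ _ h2 m h1 (by simpa using hΛn))]

theorem der_f_congr (δ : L →+ ℤ) {a : A ω C} {a' : A ω C'} (h : a'.f = a.f) :
    (der δ a').f = (der δ a).f := funext fun n => by rw [der_f, der_f, h]

theorem ell_f_congr (δ : L →+ ℤ) {g : G ω C} {g' : G ω C'} (h : g'.1.f = g.1.f) :
    (ell δ g').f = (ell δ g).f := mul_f_congr (inv_f_congr h) (der_f_congr δ h)

theorem Att_f_congr (δ : L →+ ℤ) {g : G ω C} {g' : G ω C'} (h : g'.1.f = g.1.f) (n : L) :
    Att δ g' n = Att δ g n := congrFun (ell_f_congr δ (fac_f_congr _ h).1) n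

theorem Ad_f_congr {g : G ω C} {g' : G ω C'} (h : g'.1.f = g.1.f) {a : A ω C} {a' : A ω C'}
    (ha : a'.f = a.f) : (Ad g' a').f = (Ad g a).f :=
  mul_f_congr (mul_f_congr h ha) (inv_f_congr h)

section Top

variable {Λ : Set L} {S : AddSubmonoid L} {r : A ω C}

theorem ell_top0 (hΛ : C.Lower Λ) (δ : L →+ ℤ) {k k' : G ω C} (hS : k'.1.In S) (hrS : r.In S)
    (hr : ∀ m, r.f m ≠ 0 → ∀ s ∈ S, s ∈ C.car → s ≠ 0 → m + s ∉ Λ)
    (e : A.Cong Λ k.1 (k'.1 + r)) : A.Cong Λ (ell δ k) (ell δ k' + der δ r) := by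
  have hd : ∀ m, (der δ r).f m ≠ 0 → ∀ s ∈ S, s ∈ C.car → s ≠ 0 → m + s ∉ Λ :=
    fun m hm => hr m fun z => hm (by simp [der_f, z])
  have h1 : A.Cong Λ (der δ k.1) (k.1 * (ell δ k' + der δ r)) := by
    refine (e.der δ).trans (A.Cong.symm ((e.mul hΛ (A.Cong.refl _ _)).trans fun n hn => ?_))
    simp only [add_mul, mul_add, mul_ell, der_add, A.add_f, Pi.add_apply]
    rw [top_mul hr (ell_in S δ hS) n hn, mul_top hd hS n hn, top_mul hr (der_in δ hrS) n hn]
    simp [ell_f_zero, der_f_zero, G.f_zero]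
  have h2 := (A.Cong.refl Λ (k⁻¹).1).mul hΛ h1
  rwa [← mul_assoc, G.inv_mul_val, one_mul] at h2

theorem ell_z0_top (hΛ : C.Lower Λ) (δ : L →+ ℤ) (θ : L →+ ℚ) {h h' : G ω C} (hS : h'.1.In S)
    (hrS : r.In S) (r0 : r.f 0 = 0)
    (hr : ∀ m, r.f m ≠ 0 → ∀ s ∈ S, s ∈ C.car → s ≠ 0 → m + s ∉ Λ)
    (e : A.Cong Λ h.1 (h'.1 + r)) {n : L} (hn : n ∈ Λ) (h0 : θ n = 0) :
    (ell δ (z0 θ h)).f n = (ell δ (z0 θ h')).f n + δ n * r.f n := by
  rw [ell_top0 hΛ δ (z0_in_sub S θ hS) hrS.res (top_res hr _)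
    (z0_top0 hΛ θ hS hrS r0 hr e) n hn, A.add_f, Pi.add_apply, der_f,
    A.res_of_mem (S := {n | θ n = 0}) _ h0]

end Top

theorem ell_top {Λ : Set L} (hΛ : C.Lower Λ) (S : AddSubmonoid L) (δ : L →+ ℤ) {h h' : G ω C}
    (hS : h.1.In S) (hS' : h'.1.In S) {T : Set L}
    (hT : ∀ n ∈ T, ∀ m ∈ C.car, m ∈ S → m ≠ 0 → n + m ∉ Λ)
    (e : ∀ n ∈ Λ, n ∉ T → h.1.f n = h'.1.f n) (n : L) (hn : n ∈ Λ) :
    (ell δ h).f n - (ell δ h').f n = δ n • (h.1.f n - h'.1.f n) := by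
  obtain ⟨r, r1, -, r2, r3, r4⟩ := top_data hS hS' hT e
  rw [ell_top0 hΛ δ hS' r1 r2 r3 n hn, A.add_f, Pi.add_apply, add_sub_cancel_left, der_f, r4 n hn,
    zsmul_eq_mul]

/-- TOP for the logarithmic derivative of the middle factor. -/
theorem ell_z0_top' {Λ : Set L} (hΛ : C.Lower Λ) (S : AddSubmonoid L) (δ : L →+ ℤ) (θ : L →+ ℚ)
    {h h' : G ω C} (hS : h.1.In S) (hS' : h'.1.In S) {T : Set L}
    (hT : ∀ n ∈ T, ∀ m ∈ C.car, m ∈ S → m ≠ 0 → n + m ∉ Λ)
    (e : ∀ n ∈ Λ, n ∉ T → h.1.f n = h'.1.f n) (n : L) (hn : n ∈ Λ) (h0 : θ n = 0) :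
    (ell δ (z0 θ h)).f n - (ell δ (z0 θ h')).f n = δ n • (h.1.f n - h'.1.f n) := by
  obtain ⟨r, r1, r0, r2, r3, r4⟩ := top_data hS hS' hT e
  rw [ell_z0_top hΛ δ θ hS' r1 r0 r2 r3 hn h0, add_sub_cancel_left, r4 n hn, zsmul_eq_mul]

theorem ell_push {L₁ : Type} [AddCommGroup L₁] {ω₁ : Skew L₁} {C₁ : Cone L₁} {φ : L₁ →+ L}
    {α : L₁ →+ ℤ} {Φ : A ω₁ C₁ →+* A ω C} {Ψ : G ω₁ C₁ →* G ω C} (h : PushOK ω₁ C₁ ω C φ)
    (h1 : ∀ g, (Ψ g).1 = Φ g.1)
    (hΦ : ∀ a n, (Φ a).f n = ∑ᶠ d ∈ {d | φ d = n}, tp (α d) * a.f d) (δ : L →+ ℤ)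
    (g : G ω₁ C₁) : ell δ (Ψ g) = Φ (ell (δ.comp φ) g) := by
  have key : ∀ (a : A ω₁ C₁) n, (Φ a).f n = ∑ d ∈ (h.fin n).toFinset, tp (α d) * a.f d :=
    fun a n => by
      rw [hΦ]
      refine finsum_mem_eq_sum_of_inter_support_eq _ ?_
      ext d
      simp only [Set.mem_inter_iff, Set.mem_ofPred_eq, Function.mem_support, Set.Finite.coe_toFinset]
      exact ⟨fun e => ⟨⟨a.supp d fun z => e.2 (by simp [z]), e.1⟩, e.2⟩, fun e => ⟨e.1.2, e.2⟩⟩
  have hd : der δ (Φ g.1) = Φ (der (δ.comp φ) g.1) := by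
    ext n : 2
    rw [der_f, key, key, mul_sum]
    refine sum_congr rfl fun d hd => ?_
    rw [der_f, AddMonoidHom.comp_apply, ((h.fin n).mem_toFinset.1 hd).2]
    ring
  rw [ell, ell, ← map_inv, h1, h1, hd, map_mul]

/-- The attractor invariant changes by the top coefficient. -/
theorem Att_top {Λ : Set L} (hΛ : C.Lower Λ) (δ : L →+ ℤ) {g g' : G ω C} {n : L} (hn : n ∈ Λ)
    (e : ∀ m ∈ Λ, m ∈ C.car → C.deg m < C.deg n → g.1.f m = g'.1.f m) :
    Att δ g n = Att δ g' n + δ n * (g.1.f n - g'.1.f n) := by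
  have hL : C.Lower (Λ ∩ {m | C.deg m ≤ C.deg n}) := fun a ha b hb h =>
    ⟨hΛ a ha b hb h.1, by
      have h1 : C.deg (a + b) ≤ C.deg n := h.2
      have := C.deg_nonneg hb
      rw [map_add] at h1
      show C.deg a ≤ C.deg n
      omega⟩
  have hn' : n ∈ Λ ∩ {m | C.deg m ≤ C.deg n} := ⟨hn, le_refl (C.deg n)⟩
  have := ell_z0_top (S := ⊤) (r := (g.1 - g'.1).res (Λ ∩ {m | C.deg m ≤ C.deg n})) hL δ (th ω n)
    (h := g) (h' := g') (fun _ _ => trivial) (fun _ _ => trivial)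
    (A.res_zero_of (by simp [G.f_zero]) _) (fun m hm s _ hs s0 hms => ?_) (fun m hm => ?_) hn'
    (th_self n)
  · rwa [A.res_of_mem _ hn'] at this
  · obtain ⟨h1, h2⟩ := A.res_ne_zero hm
    have h3 : C.deg (m + s) ≤ C.deg n := hms.2
    have := C.pos s hs s0
    rw [map_add] at h3
    exact h2 (sub_eq_zero.2 (e m h1.1 (A.supp _ m h2) (by omega)))
  · rw [A.add_f, Pi.add_apply, A.res_of_mem _ hm]
    simp

/-- A6: equal attractor invariants give equal elements. -/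
theorem cong_of_att {Λ : Set L} (hΛ : C.Lower Λ) {g g' : G ω C}
    (h : ∀ n ∈ Λ, n ∈ C.car → n ≠ 0 → Att C.deg g n = Att C.deg g' n) : A.Cong Λ g.1 g'.1 := by
  suffices ∀ n ∈ C.car, n ∈ Λ → g.1.f n = g'.1.f n from fun n hn => by
    by_cases c : n ∈ C.car
    · exact this n c hn
    · rw [A.eq_zero c, A.eq_zero c]
  refine Cone.induction fun n hn ih hΛn => ?_
  by_cases e : n = 0
  · rw [e, G.f_zero, G.f_zero]
  have := Att_top hΛ C.deg hΛn fun m h1 h2 h3 => ih m h2 h3 h1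
  rw [h n hΛn hn e, left_eq_add, mul_eq_zero] at this
  exact sub_eq_zero.1 (this.resolve_left (intCast_K_ne (C.pos n hn e).ne'))

open Classical in
/-- The group element with the given coefficients below degree D. -/
noncomputable def G.trunc (ω : Skew L) (C : Cone L) (f : L → K) (D : ℤ) : G ω C :=
  G.addTop 1 (A.mk' ω C fun m => if m ≠ 0 ∧ C.deg m < D then f m else 0) (by simp [A.mk'])

theorem exists_att (s : L → K) : ∃ g : G ω C, ∀ n ∈ C.car, n ≠ 0 → Att C.deg g n = s n := by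
  classical
  obtain ⟨f, h1, h2⟩ := C.exists_fix (fun n f => if n = 0 then 1 else
    (s n - Att C.deg (G.trunc ω C f (C.deg n)) n) / C.deg n) fun n _ f g h => by
      have : G.trunc ω C f (C.deg n) = G.trunc ω C g (C.deg n) := by
        ext m : 3
        simp only [G.trunc, G.addTop, A.add_f, Pi.add_apply, A.mk', Set.indicator_apply]
        split_ifs with a b
        · rw [h m a b.2]
        · rfl
        · rfl
      rw [this]
  have h0 : f 0 = 1 := (h2 0 C.car.zero_mem).trans (if_pos rfl)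
  refine ⟨⟨⟨f, fun n hn => not_not.1 (mt (h1 n) hn)⟩, h0⟩, fun n hn e => ?_⟩
  rw [Att_top C.lower_univ C.deg (g' := G.trunc ω C f (C.deg n)) trivial fun m _ a b => ?_]
  · have h3 := h2 n hn
    rw [if_neg e, eq_div_iff (intCast_K_ne (C.pos n hn e).ne')] at h3
    have h4 : (G.trunc ω C f (C.deg n)).1.f n = 0 := by
      simp [G.trunc, G.addTop, A.mk', A.one_f, e]
    rw [h4]
    linear_combination h3
  · by_cases z : m = 0
    · rw [z, G.f_zero, G.f_zero]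
    · simp [G.trunc, G.addTop, A.mk', A.one_f, z, a, b]

theorem exists_init (I : Finset L) : ∃ g : G ω C, IsInit I g :=
  exists_att fun n => ∑ e ∈ I, (ell C.deg (EE ω C e)).f n

theorem IsInit.unique {I : Finset L} {g g' : G ω C} (h : IsInit I g) (h' : IsInit I g') : g = g' :=
  G.eq_of_cong (cong_of_att C.lower_univ fun n _ hn e => (h n hn e).trans (h' n hn e).symm)

/-- If the attractor invariants live in a submonoid then so does the element. -/
theorem in_of_Att (S : AddSubmonoid L) {g : G ω C}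
    (h : ∀ n ∈ C.car, n ∉ S → Att C.deg g n = 0) : g.1.In S := by
  suffices ∀ n ∈ C.car, g.1.f n ≠ 0 → n ∈ S from fun n hn => this n (A.supp _ n hn) hn
  refine Cone.induction fun n hn ih hne => by_contra fun hS => ?_
  have e : n ≠ 0 := fun e => hS (e ▸ S.zero_mem)
  have h1 := Att_top C.lower_univ C.deg (g := g) (g' := G.res S S.zero_mem g) (n := n) trivial
    fun m _ a b => by
      by_cases z : m ∈ (S : Set L)
      · exact (g.1.res_of_mem z).symm
      · rw [not_not.1 (mt (ih m a b) z)]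
        exact (g.1.res_of_not z).symm
  have h2 : Att C.deg (G.res S S.zero_mem g) n = 0 := by_contra fun z =>
    hS (ell_in S C.deg (z0_in_sub S _ (A.res_in _ _)) n z)
  have h3 : (G.res S S.zero_mem g).1.f n = 0 := g.1.res_of_not hS
  rw [h n hn hS, h2, h3, zero_add, sub_zero] at h1
  exact mul_ne_zero (intCast_K_ne (C.pos n hn e).ne') hne h1.symm

theorem gen_in_sub (S : AddSubmonoid L) (x : Gn L) (h : x.2.2 ∈ S) : (gen ω C x).1.In S := by
  unfold gen
  split_ifs with c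
  · intro n hn
    by_cases e : ∃ j : ℕ, j • x.2.2 = n
    · obtain ⟨j, rfl⟩ := e
      exact S.nsmul_mem h j
    · exact absurd (Function.extend_apply' (fun j : ℕ => tp (x.2.1 * j) * cc x.1 j) (0 : L → K) n e)
        hn
  · exact A.one_in S.zero_mem

theorem IsInit.in {I : Finset L} {g : G ω C} (hg : IsInit I g) (S : AddSubmonoid L)
    (hI : ∀ e ∈ I, e ∈ S) : g.1.In S :=
  in_of_Att S fun n hn hS => by
    rw [hg n hn fun e => hS (e ▸ S.zero_mem)]
    exact sum_eq_zero fun e he => by_contra fun z =>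
      hS (ell_in S C.deg (gen_in_sub S (true, 0, e) (hI e he)) n z)

theorem ell_gen_change (δ δ' : L →+ ℤ) (x : Gn L) (n : L) :
    (δ' n : K) * (ell δ (gen ω C x)).f n = (δ n : K) * (ell δ' (gen ω C x)).f n := by
  by_cases e : ω.w n x.2.2 = 0
  · exact ell_change δ δ' (gen_in_sub (AddMonoidHom.mker (ω.w n)) x e)
  · have : ∀ δ : L →+ ℤ, (ell δ (gen ω C x)).f n = 0 := fun δ => by_contra fun z => by
      have : ω.w x.2.2 n = 0 :=
        ell_in (AddMonoidHom.mker (ω.w x.2.2)) δ (gen_in_sub _ x (ω.alt _)) n z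
      exact e (by rw [ω.skew, this, neg_zero])
    rw [this, this, mul_zero, mul_zero]

theorem att_transfer {I : Finset L} {g : G ω C} {δ δ' : L →+ ℤ} {n : L} (h0 : δ n ≠ 0)
    (h : Att δ g n = ∑ e ∈ I, (ell δ (EE ω C e)).f n) :
    Att δ' g n = ∑ e ∈ I, (ell δ' (EE ω C e)).f n := by
  refine mul_left_cancel₀ (intCast_K_ne h0) ?_
  rw [← Att_change, h, mul_sum, mul_sum]
  exact sum_congr rfl fun e _ => ell_gen_change δ δ' _ n

/-- The attractor condition may be tested with any additive map. -/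
theorem IsInit.att {I : Finset L} {g : G ω C} (hg : IsInit I g) (δ : L →+ ℤ) {n : L}
    (hn : n ∈ C.car) (h0 : n ≠ 0) : Att δ g n = ∑ e ∈ I, (ell δ (EE ω C e)).f n :=
  att_transfer (C.pos n hn h0).ne' (hg n hn h0)

theorem isInit_of {I : Finset L} {g : G ω C} (h : ∀ n ∈ C.car, n ≠ 0 → ∃ δ : L →+ ℤ, δ n ≠ 0 ∧
    Att δ g n = ∑ e ∈ I, (ell δ (EE ω C e)).f n) : IsInit I g := fun n hn h0 =>
  let ⟨_, h1, h2⟩ := h n hn h0
  att_transfer h1 h2

end Pool.Agent.Lib.MP_33bfb2_co.Th
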