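import Pool.Agent.Lib.MP_33bfb2_co.Th.ADefs2

/-! Conjugation by the quantum dilogarithm, line by line. -/

namespace Pool.Agent.Lib.MP_33bfb2_co.Th

open Finset

variable {L : Type} [AddCommGroup L] {ω : Skew L} {C : Cone L}

/-- The product of 1 + t^(m+1-2i) y over i = 1..m. -/
noncomputable def fm : ℕ → Polynomial K
  | 0 => 1
  | 1 => 1 + Polynomial.X
  | m + 2 => fm m * ((1 + Polynomial.C (tp (-(m + 1 : ℤ))) * Polynomial.X) *
      (1 + Polynomial.C (tp (m + 1)) * Polynomial.X))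

theorem fm_eq : ∀ m : ℕ, fm m =
    ∏ i ∈ range m, (1 + Polynomial.C (tp (m - 1 - 2 * i)) * Polynomial.X)
  | 0 => by simp [fm]
  | 1 => by simp [fm, tp_zero]
  | m + 2 => by
    have e1 : ∀ i : ℕ, ((m + 2 : ℕ) : ℤ) - 1 - 2 * ((i + 1 : ℕ) : ℤ) = m - 1 - 2 * i := fun i => by
      push_cast; ring
    have e2 : ((m + 2 : ℕ) : ℤ) - 1 - 2 * ((0 : ℕ) : ℤ) = m + 1 := by push_cast; ring
    have e3 : (m : ℤ) - 1 - 2 * m = -(m + 1) := by ring
    rw [fm, fm_eq m, prod_range_succ', prod_range_succ]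
    simp only [e1, e2, e3]
    ring

theorem qb_eq (m j : ℕ) : qb m j = (fm m).coeff j := by rw [fm_eq, qb]

theorem G1_quad (m : ℤ) : (1 + Polynomial.C (tp (-m)) * Polynomial.X) *
    (1 + Polynomial.C (tp m) * Polynomial.X) =
      1 + Polynomial.C (tp (-m) + tp m) * Polynomial.X + Polynomial.X ^ 2 := by
  have : (Polynomial.C (tp (-m)) * Polynomial.C (tp m) : Polynomial K) = 1 := by
    rw [← map_mul, ← tp_add, neg_add_cancel, tp_zero, map_one]
  rw [map_add]
  linear_combination (Polynomial.X : Polynomial K) ^ 2 * this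

theorem G1_fm : ∀ m, (fm m).natDegree ≤ m ∧ Polynomial.reflect m (fm m) = fm m ∧
    (fm m).coeff 0 = 1
  | 0 => by simp [fm]
  | 1 => by
    refine ⟨?_, ?_, by simp [fm]⟩
    · unfold fm; compute_degree
    · have h1 : Polynomial.reflect 1 (Polynomial.X : Polynomial K) = 1 := by
        simp
      rw [fm, Polynomial.reflect_add, h1, Polynomial.reflect_one, pow_one, add_comm]
  | m + 2 => by
    obtain ⟨h1, h2, h3⟩ := G1_fm m
    have hd : (1 + Polynomial.C (tp (-(m + 1 : ℤ)) + tp (m + 1)) * Polynomial.X +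
        Polynomial.X ^ 2 : Polynomial K).natDegree ≤ 2 := by compute_degree
    rw [fm, G1_quad]
    refine ⟨Polynomial.natDegree_mul_le.trans (add_le_add h1 hd), ?_, ?_⟩
    · rw [Polynomial.reflect_mul _ _ h1 hd, h2]
      congr 1
      have e1 : Polynomial.reflect 2 (Polynomial.X : Polynomial K) = Polynomial.X := by
        simpa using Polynomial.reflect_monomial (R := K) 2 1
      have e2 : Polynomial.reflect 2 (Polynomial.X ^ 2 : Polynomial K) = 1 := by
        simp
      rw [Polynomial.reflect_add, Polynomial.reflect_add, Polynomial.reflect_C_mul, e1, e2,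
        Polynomial.reflect_one]
      ring
    · simp [h3]

theorem qb_zero (m : ℕ) : qb m 0 = 1 := (qb_eq m 0).trans (G1_fm m).2.2

theorem qb_symm {m j : ℕ} (h : j ≤ m) : qb m (m - j) = qb m j := by
  rw [qb_eq, qb_eq]
  conv_rhs => rw [← (G1_fm m).2.1, Polynomial.coeff_reflect, Polynomial.revAt_le h]

theorem qb_self (m : ℕ) : qb m m = 1 := by
  rw [← qb_symm le_rfl, Nat.sub_self, qb_zero]

theorem qb_one_one : qb 1 1 = 1 := qb_self 1

theorem qb_gt {m j : ℕ} (h : m < j) : qb m j = 0 :=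
  (qb_eq m j).trans (Polynomial.coeff_eq_zero_of_natDegree_lt ((G1_fm m).1.trans_lt h))

theorem G1_one_sub {a : ℤ} (h : a ≠ 0) : 1 - tp a ≠ 0 := fun e => by
  have h1 : tp a = 1 := (sub_eq_zero.1 e).symm
  have h2 := congrArg (fun f : K => f.coeff a) h1
  simp [tp, HahnSeries.coeff_one, h] at h2

theorem G1_cc_succ (j : ℕ) : cc true (j + 1) * (1 - tp (2 * (j + 1))) = tp (2 * j + 1) * cc true j := by
  have h : (1 - tp (2 * ((j : ℤ) + 1))) ≠ 0 := G1_one_sub (by omega)
  have h' : (∏ i ∈ range j, (1 - tp (2 * ((i : ℤ) + 1)))) ≠ 0 :=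
    prod_ne_zero_iff.2 fun i _ => G1_one_sub (by omega)
  have e : tp (((j + 1 : ℕ) : ℤ) ^ 2) = tp (2 * j + 1) * tp ((j : ℤ) ^ 2) := by
    rw [← tp_add]; congr 1; push_cast; ring
  simp only [cc, if_true, prod_range_succ, e]
  field_simp

/-- The series of the dilogarithm at t^s y. -/
noncomputable def Es (s : ℤ) : PowerSeries K := PowerSeries.mk fun j => tp (s * j) * cc true j

theorem Es_step (s : ℤ) :
    Es s = (1 + PowerSeries.C (tp (s + 1)) * PowerSeries.X) * Es (s + 2) := by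
  ext j : 1
  rw [add_mul, one_mul, map_add, mul_assoc, PowerSeries.coeff_C_mul]
  cases j with
  | zero => simp [Es, tp_zero]
  | succ j =>
    rw [PowerSeries.coeff_succ_X_mul]
    simp only [Es, PowerSeries.coeff_mk]
    have e1 : tp ((s + 2) * ((j + 1 : ℕ) : ℤ)) = tp (s * ((j + 1 : ℕ) : ℤ)) * tp (2 * (j + 1)) := by
      rw [← tp_add]; congr 1; push_cast; ring
    have e2 : tp (s + 1) * tp ((s + 2) * j) = tp (s * ((j + 1 : ℕ) : ℤ)) * tp (2 * j + 1) := by
      rw [← tp_add, ← tp_add]; congr 1; push_cast; ring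
    rw [e1]
    linear_combination tp (s * ((j + 1 : ℕ) : ℤ)) * G1_cc_succ j - cc true j * e2

theorem Es_neg : ∀ m : ℕ, Es (-m) = (fm m : PowerSeries K) * Es m
  | 0 => by simp [fm]
  | 1 => by
    rw [Es_step]
    simp [fm, tp_zero]
  | m + 2 => by
    have h1 := Es_step (-((m + 2 : ℕ) : ℤ))
    have h2 := Es_step (m : ℤ)
    rw [show -((m + 2 : ℕ) : ℤ) + 2 = -m by push_cast; ring,
      show -((m + 2 : ℕ) : ℤ) + 1 = -(m + 1) by push_cast; ring, Es_neg m, h2] at h1
    rw [h1, fm]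
    push_cast
    ring

theorem Es_ne_zero (s : ℤ) : Es s ≠ 0 := fun h => by
  have := congrArg (PowerSeries.coeff 0) h
  simp [Es, cc, tp_zero] at this

theorem G1_inj {X : L} (hX : X ∈ C.car) (h0 : X ≠ 0) : Function.Injective fun j : ℕ => j • X :=
  fun i j e => by
    have := congrArg C.deg e
    simp only [map_nsmul, nsmul_eq_mul] at this
    exact_mod_cast mul_right_cancel₀ (C.pos _ hX h0).ne' this

theorem G1_sub (X : L) {i j : ℕ} (h : i ≤ j) : (j - i) • X = j • X - i • X := by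
  rw [eq_sub_iff_add_eq, ← add_nsmul, Nat.sub_add_cancel h]

theorem EE_nsmul {X : L} (hX : X ∈ C.car) (h0 : X ≠ 0) (j : ℕ) :
    (EE ω C X).1.f (j • X) = cc true j := by
  have := (G1_inj hX h0).extend_apply (fun j : ℕ => tp (0 * j) * cc true j) (0 : L → K) j
  simp only [EE, gen, hX, h0, ne_eq, not_false_eq_true, and_self, dif_pos]
  simpa [tp_zero] using this

theorem EE_supp {X : L} (hX : X ∈ C.car) (h0 : X ≠ 0) {n : L} (h : (EE ω C X).1.f n ≠ 0) :
    ∃ j : ℕ, j • X = n := by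
  by_contra e
  simp only [EE, gen, hX, h0, ne_eq, not_false_eq_true, and_self, dif_pos] at h
  exact h (Function.extend_apply' _ _ _ e)

/-- The values of a function along a half line. -/
noncomputable def line (X : L) (a : L → K) (n : L) : PowerSeries K :=
  PowerSeries.mk fun j => a (n + j • X)

theorem G1_far {X : L} (hX : X ∈ C.car) (h0 : X ≠ 0) (a : A ω C) {n : L} (hn : C.deg n ≤ 0)
    {i j : ℕ} (h : j < i) : a.f (n + j • X - i • X) = 0 := by
  refine A.eq_zero fun e => ?_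
  have h1 := C.deg_nonneg e
  have h2 := C.pos _ hX h0
  simp only [map_sub, map_add, map_nsmul, nsmul_eq_mul] at h1
  have : (j : ℤ) + 1 ≤ i := by exact_mod_cast h
  nlinarith

theorem line_EE_mul {X : L} (hX : X ∈ C.car) (h0 : X ≠ 0) (a : A ω C) {n : L} (hn : C.deg n ≤ 0) :
    line X ((EE ω C X).1 * a).f n = Es (ω.w n X) * line X a.f n := by
  classical
  ext j : 1
  rw [PowerSeries.coeff_mul, Nat.sum_antidiagonal_eq_sum_range_succ_mk]
  simp only [line, Es, PowerSeries.coeff_mk]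
  rw [A.mul_f, conv, finsum_eq_sum_of_support_subset (s := (range (j + 1)).image fun i => i • X),
    sum_image fun _ _ _ _ e => G1_inj hX h0 e]
  · refine sum_congr rfl fun i hi => ?_
    have hij : i ≤ j := Nat.lt_succ_iff.1 (mem_range.1 hi)
    rw [EE_nsmul hX h0, G1_sub X hij, add_sub_assoc]
    congr 3
    simp only [map_nsmul, map_add, AddMonoidHom.nsmul_apply, ω.alt, ω.skew X n, nsmul_eq_mul]
    ring
  · intro m hm
    rw [Function.mem_support] at hm
    obtain ⟨i, rfl⟩ := EE_supp hX h0 (ω := ω) (n := m) fun e => hm (by simp [e])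
    refine mem_coe.2 (mem_image_of_mem _ (mem_range.2 ?_))
    by_contra hi
    exact hm (by rw [G1_far hX h0 a hn (by omega), mul_zero])

theorem line_mul_EE {X : L} (hX : X ∈ C.car) (h0 : X ≠ 0) (a : A ω C) {n : L} (hn : C.deg n ≤ 0) :
    line X (a * (EE ω C X).1).f n = Es (- ω.w n X) * line X a.f n := by
  classical
  ext j : 1
  rw [PowerSeries.coeff_mul, Nat.sum_antidiagonal_eq_sum_range_succ_mk]
  simp only [line, Es, PowerSeries.coeff_mk]
  rw [A.mul_f, conv, finsum_eq_sum_of_support_subset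
    (s := (range (j + 1)).image fun i => n + j • X - i • X),
    sum_image fun _ _ _ _ e => G1_inj hX h0 (sub_right_injective e)]
  · refine sum_congr rfl fun i hi => ?_
    have hij : i ≤ j := Nat.lt_succ_iff.1 (mem_range.1 hi)
    rw [sub_sub_cancel, EE_nsmul hX h0, G1_sub X hij, ← add_sub_assoc, mul_right_comm]
    congr 3
    simp only [map_nsmul, map_add, map_sub, AddMonoidHom.nsmul_apply, AddMonoidHom.add_apply,
      AddMonoidHom.sub_apply, ω.alt, ω.skew X n, nsmul_eq_mul]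
    ring
  · intro m hm
    rw [Function.mem_support] at hm
    obtain ⟨i, hi⟩ := EE_supp hX h0 (ω := ω) (n := n + j • X - m) fun e => hm (by simp [e])
    have e : m = n + j • X - i • X := by rw [hi, sub_sub_cancel]
    subst e
    refine mem_coe.2 (mem_image_of_mem _ (mem_range.2 ?_))
    by_contra hi
    exact hm (by rw [G1_far hX h0 a hn (by omega), mul_zero, zero_mul])

theorem G1_read {X : L} (hX : X ∈ C.car) (h0 : X ≠ 0) (a b : A ω C) (n : L) (m : ℕ)
    (h : ∀ p, ω.w p X = ω.w n X → C.deg p ≤ 0 → line X a.f p = (fm m : PowerSeries K) * line X b.f p) :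
    a.f n = ∑ j ∈ range (m + 1), qb m j * b.f (n - j • X) := by
  have h2 := C.pos _ hX h0
  obtain ⟨J, hJ, hJ'⟩ : ∃ J : ℕ, m ≤ J ∧ C.deg (n - J • X) ≤ 0 := by
    refine ⟨m + (C.deg n).toNat, Nat.le_add_right _ _, ?_⟩
    simp only [map_sub, map_nsmul, nsmul_eq_mul]
    have := Int.self_le_toNat (C.deg n)
    push_cast
    nlinarith [Int.natCast_nonneg m, Int.natCast_nonneg (C.deg n).toNat]
  have := congrArg (PowerSeries.coeff J) (h (n - J • X) (by simp [ω.alt]) hJ')
  rw [PowerSeries.coeff_mul, Nat.sum_antidiagonal_eq_sum_range_succ_mk] at this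
  simp only [line, PowerSeries.coeff_mk, Polynomial.coeff_coe, sub_add_cancel] at this
  rw [this]
  symm
  refine sum_subset_zero_on_sdiff (range_subset_range.2 (by omega)) (fun i hi => ?_) fun i hi => ?_
  · have : m < i := by
      have := (mem_sdiff.1 hi).2
      rw [mem_range] at this
      omega
    rw [← qb_eq, qb_gt this, zero_mul]
  · have hij : i ≤ J := by
      have := mem_range.1 hi
      omega
    rw [G1_sub X hij, qb_eq]
    congr 2
    abel

/-- G1 for lines with w(n, X) ≥ 0; here b = E a E⁻¹. -/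
theorem G1_pos {X : L} (hX : X ∈ C.car) (h0 : X ≠ 0) {a b : A ω C}
    (e : (EE ω C X).1 * a = b * (EE ω C X).1) {n : L} {m : ℕ} (hm : ω.w n X = m) :
    a.f n = ∑ j ∈ range (m + 1), qb m j * b.f (n - j • X) :=
  G1_read hX h0 a b n m fun p hp hd => by
    have h1 := line_EE_mul hX h0 a hd
    rw [e, line_mul_EE hX h0 b hd, hp, hm, Es_neg] at h1
    refine mul_left_cancel₀ (Es_ne_zero m) ?_
    rw [← h1]; ring

/-- G1 for lines with w(n, X) ≤ 0; here b = E a E⁻¹. -/
theorem G1_neg {X : L} (hX : X ∈ C.car) (h0 : X ≠ 0) {a b : A ω C}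
    (e : (EE ω C X).1 * a = b * (EE ω C X).1) {n : L} {m : ℕ} (hm : ω.w n X = - m) :
    b.f n = ∑ j ∈ range (m + 1), qb m j * a.f (n - j • X) :=
  G1_read hX h0 b a n m fun p hp hd => by
    have h1 := line_EE_mul hX h0 a hd
    rw [e, line_mul_EE hX h0 b hd, hp, hm, neg_neg, Es_neg] at h1
    refine mul_left_cancel₀ (Es_ne_zero m) ?_
    rw [h1]; ring

theorem Ad_EE_inv {X : L} (hX : X ∈ C.car) (h0 : X ≠ 0) (a : A ω C) {p : L} {m : ℕ}
    (hm : ω.w p X = m) :
    (Ad (EE ω C X)⁻¹ a).f p = ∑ j ∈ range (m + 1), qb m j * a.f (p - j • X) :=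
  G1_pos hX h0 (by
    have : (EE ω C X).1 * ((EE ω C X)⁻¹).1 = 1 := congrArg Subtype.val (mul_inv_cancel (EE ω C X))
    rw [Ad, inv_inv, ← mul_assoc, ← mul_assoc, this, one_mul]) hm

theorem Ad_EE {X : L} (hX : X ∈ C.car) (h0 : X ≠ 0) (a : A ω C) {p : L} {m : ℕ}
    (hm : ω.w p X = -m) :
    (Ad (EE ω C X) a).f p = ∑ j ∈ range (m + 1), qb m j * a.f (p - j • X) :=
  G1_neg hX h0 (by
    have : ((EE ω C X)⁻¹).1 * (EE ω C X).1 = 1 := congrArg Subtype.val (inv_mul_cancel (EE ω C X))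
    rw [Ad, mul_assoc, this, mul_one]) hm

end Pool.Agent.Lib.MP_33bfb2_co.Th
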