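import Pool.Agent.Lib.MP_33bfb2_co.Th.G1a

namespace Pool.Agent.Lib.MP_33bfb2_co.Th.G1

open Finset PowerSeries

/-- The multisets counted by the coefficients. -/
def St (ε : Bool) (j : ℕ) (a : ℤ) : Set (Multiset ℕ) :=
  {s | s.card = j ∧ (ε = true → s.Nodup) ∧ 2 * (s.sum : ℤ) + j = a}

theorem St_finite (ε : Bool) (j : ℕ) (a : ℤ) : (St ε j a).Finite := by
  refine (Set.finite_Iic (j • Multiset.range (a.toNat + 1))).subset fun s hs => ?_
  obtain ⟨h1, -, h3⟩ := hs
  refine Multiset.le_iff_count.2 fun x => ?_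
  by_cases hx : x ∈ s
  · have := Multiset.single_le_sum (fun _ _ => Nat.zero_le _) x hx
    rw [Multiset.count_nsmul, Multiset.count_eq_one_of_mem (Multiset.nodup_range _)
      (Multiset.mem_range.2 (by omega)), mul_one, ← h1]
    exact Multiset.count_le_card _ _
  · simp [Multiset.count_eq_zero_of_notMem hx]

theorem exists_succ {s : Multiset ℕ} (h : 0 ∉ s) : ∃ s' : Multiset ℕ, s'.map Nat.succ = s := by
  refine ⟨s.map Nat.pred, ?_⟩
  rw [Multiset.map_map]
  refine (Multiset.map_congr rfl fun x hx => ?_).trans s.map_id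
  exact Nat.succ_pred_eq_of_ne_zero fun e => h (e ▸ hx)

theorem sum_succ (s : Multiset ℕ) : (s.map Nat.succ).sum = s.sum + s.card := by
  induction s using Multiset.induction_on with
  | empty => simp
  | cons a s ih => simp only [Multiset.map_cons, Multiset.sum_cons, ih, Multiset.card_cons]; omega

theorem St_succ (ε : Bool) (j : ℕ) (a : ℤ) : (St ε (j + 1) a).ncard =
    (St ε (j + 1) (a - 2 * (j + 1))).ncard +
      (St ε j (a - if ε then 2 * (j : ℤ) + 1 else 1)).ncard := by
  have i1 : Function.Injective (Multiset.map Nat.succ) := Multiset.map_injective Nat.succ_injective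
  have i2 : Function.Injective fun s : Multiset ℕ => 0 ::ₘ if ε then s.map Nat.succ else s := by
    intro s s' e
    cases ε
    · simpa using e
    · exact i1 (by simpa using e)
  rw [← Set.ncard_image_of_injective (St ε (j + 1) (a - 2 * (j + 1))) i1,
    ← Set.ncard_image_of_injective (St ε j _) i2,
    ← Set.ncard_union_eq _ ((St_finite _ _ _).image _) ((St_finite _ _ _).image _)]
  · congr 1
    ext s
    constructor
    · rintro ⟨h1, h2, h3⟩
      by_cases h0 : 0 ∈ s
      · obtain ⟨u, rfl⟩ := Multiset.exists_cons_of_mem h0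
        simp only [Multiset.card_cons, Multiset.sum_cons, Multiset.nodup_cons] at h1 h2 h3
        right
        cases ε
        · exact ⟨u, ⟨by omega, by simp, by rw [if_neg (by simp)]; omega⟩, by simp⟩
        · obtain ⟨v, rfl⟩ := exists_succ (h2 rfl).1
          rw [sum_succ] at h3
          rw [Multiset.card_map] at h1
          exact ⟨v, ⟨by omega, fun _ => (h2 rfl).2.of_map _, by rw [if_pos rfl]; omega⟩, by simp⟩
      · obtain ⟨v, rfl⟩ := exists_succ h0
        rw [sum_succ] at h3
        rw [Multiset.card_map] at h1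
        exact Or.inl ⟨v, ⟨h1, fun e => (h2 e).of_map _, by omega⟩, rfl⟩
    · rintro (⟨v, ⟨h1, h2, h3⟩, rfl⟩ | ⟨v, ⟨h1, h2, h3⟩, rfl⟩)
      · exact ⟨by simpa using h1, fun e => (h2 e).map Nat.succ_injective, by
          rw [sum_succ]; omega⟩
      · cases ε
        · simp only [Bool.false_eq_true, if_false] at h3 ⊢
          exact ⟨by simpa using h1, by simp, by rw [Multiset.sum_cons]; omega⟩
        · simp only [if_true] at h3 ⊢
          refine ⟨by simpa using h1, fun e => Multiset.nodup_cons.2
            ⟨by simp, (h2 e).map Nat.succ_injective⟩, ?_⟩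
          rw [Multiset.sum_cons, sum_succ]
          omega
  · rw [Set.disjoint_left]
    rintro s ⟨v, -, rfl⟩ ⟨u, -, e⟩
    have : 0 ∈ v.map Nat.succ := e ▸ Multiset.mem_cons_self _ _
    simp at this

theorem coeff_cc' (ε : Bool) (j : ℕ) (a : ℤ) : (cc ε j).coeff a = ((St ε j a).ncard : ℚ) := by
  induction j generalizing a with
  | zero =>
    rw [cc_zero, HahnSeries.coeff_one]
    split_ifs with h
    · rw [show St ε 0 a = {0} by ext s; simp +contextual [St, h, iff_def]]
      simp
    · rw [show St ε 0 a = ∅ by ext s; simp +contextual [St, Ne.symm h]]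
      simp
  | succ j ih =>
    have h := cc_succ ε j
    have low : ∀ a < min 0 (cc ε (j + 1)).order,
        (cc ε (j + 1)).coeff a = ((St ε (j + 1) a).ncard : ℚ) := fun a ha => by
      rw [HahnSeries.coeff_eq_zero_of_lt_order (ha.trans_le (min_le_right _ _)),
        show St ε (j + 1) a = ∅ from Set.eq_empty_of_forall_notMem fun s hs => by
          have := hs.2.2
          have := ha.trans_le (min_le_left _ _)
          omega]
      simp
    generalize min 0 (cc ε (j + 1)).order = b at low
    induction' e : (a - b + 1).toNat using Nat.strong_induction_on with d ihd generalizing a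
    by_cases hab : a < b
    · exact low a hab
    have e1 := congrArg (fun f : K => f.coeff a) h
    simp only [mul_comm (cc ε (j + 1)), sub_mul, one_mul, HahnSeries.coeff_sub, coeff_tp_mul] at e1
    rw [St_succ, Nat.cast_add, ← ih, ← ihd _ (by omega) (a - 2 * (j + 1)) rfl]
    linear_combination e1

variable {L : Type} [AddCommGroup L] {ω : Skew L} {C : Cone L} {x : L}

theorem mul_inj (hx : x ∈ C.car) (h0 : x ≠ 0) : Function.Injective fun j : ℕ => j • x :=
  fun i j e => by
    have := congrArg C.deg e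
    simp only [map_nsmul, nsmul_eq_mul] at this
    exact_mod_cast mul_right_cancel₀ (C.pos _ hx h0).ne' this

/-- A power series placed on the ray of x. -/
noncomputable def ray (ω : Skew L) (hx : x ∈ C.car) (P : K⟦X⟧) : A ω C :=
  ⟨Function.extend (fun j : ℕ => j • x) (fun j => coeff j P) 0, fun n hn => by
    by_cases e : ∃ j : ℕ, j • x = n
    · obtain ⟨j, rfl⟩ := e
      exact C.car.nsmul_mem hx j
    · exact absurd (Function.extend_apply' _ _ _ e) hn⟩

theorem ray_apply (hx : x ∈ C.car) (h0 : x ≠ 0) (P : K⟦X⟧) (j : ℕ) :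
    (ray ω hx P).f (j • x) = coeff j P :=
  (mul_inj hx h0).extend_apply (fun j => coeff j P) (0 : L → K) j

theorem ray_off (hx : x ∈ C.car) (P : K⟦X⟧) {n : L} (e : ¬ ∃ j : ℕ, j • x = n) :
    (ray ω hx P).f n = 0 := Function.extend_apply' (fun j => coeff j P) (0 : L → K) _ e

theorem finsum_ray (hx : x ∈ C.car) (h0 : x ≠ 0) {F : L → K}
    (h : ∀ n, (¬ ∃ j : ℕ, j • x = n) → F n = 0) : ∑ᶠ n, F n = ∑ᶠ j : ℕ, F (j • x) := by
  rw [← finsum_mem_range (mul_inj hx h0), ← finsum_mem_univ]
  exact finsum_mem_inter_support_eq' _ _ _ fun n hn =>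
    ⟨fun _ => by_contra fun e => hn (h n e), fun _ => trivial⟩

theorem ray_mul_apply (hx : x ∈ C.car) (h0 : x ≠ 0) (P : K⟦X⟧) (a : A ω C) (p : L) :
    (ray ω hx P * a).f p = ∑ᶠ j : ℕ, tp (ω.w p x * j) * coeff j P * a.f (p - j • x) := by
  rw [A.mul_f, conv, finsum_ray hx h0 fun n e => by rw [ray_off hx P e]; simp]
  refine finsum_congr fun j => ?_
  rw [ray_apply hx h0, map_nsmul, AddMonoidHom.nsmul_apply, ω.skew p x]
  simp [mul_comm]

theorem ray_mul (hx : x ∈ C.car) (h0 : x ≠ 0) (P Q : K⟦X⟧) :
    ray ω hx (P * Q) = ray ω hx P * ray ω hx Q := by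
  ext n : 2
  rw [ray_mul_apply hx h0]
  by_cases e : ∃ j : ℕ, j • x = n
  · obtain ⟨k, rfl⟩ := e
    rw [ray_apply hx h0, coeff_mul, Finset.Nat.sum_antidiagonal_eq_sum_range_succ_mk,
      finsum_eq_sum_of_support_subset (s := range (k + 1))]
    · refine sum_congr rfl fun j hj => ?_
      rw [show k • x - j • x = (k - j) • x by
        rw [sub_eq_iff_eq_add, ← add_nsmul, Nat.sub_add_cancel (Nat.lt_succ_iff.1 (mem_range.1 hj))],
        ray_apply hx h0]
      simp [ω.alt, tp_zero]
    · intro j hj
      rw [mem_coe, mem_range]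
      by_contra hk
      refine hj (mul_eq_zero_of_right _ (A.eq_zero fun hm => ?_))
      have h1 := C.deg_nonneg hm
      have h2 := C.pos _ hx h0
      simp only [map_sub, map_nsmul, nsmul_eq_mul] at h1
      have : (k : ℤ) + 1 ≤ j := by omega
      nlinarith
  · rw [ray_off hx _ e, finsum_eq_zero_of_forall_eq_zero fun j => ?_]
    rw [ray_off hx, mul_zero]
    rintro ⟨i, hi⟩
    exact e ⟨i + j, by rw [add_nsmul, hi, sub_add_cancel]⟩

end Pool.Agent.Lib.MP_33bfb2_co.Th.G1
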