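import Pool.Agent.Lib.MP_33bfb2_co.Th.A1
import Pool.Agent.Lib.MP_33bfb2_co.Th.G1b
import Pool.Agent.Lib.MP_33bfb2_co.Th.G1E

namespace Pool.Agent.Lib.MP_33bfb2_co.Th

open Finset

variable {L : Type} [AddCommGroup L] {ω : Skew L} {C C' : Cone L}

theorem G1.gen_eq {x : Gn L} (h : x.2.2 ∈ C.car) (h0 : x.2.2 ≠ 0) :
    (gen ω C x).1 = G1.ray ω h (G1.ser x.1 x.2.1) := by
  rw [gen, dif_pos ⟨h, h0⟩]
  ext n : 2
  simp only [G1.ray, G1.ser, PowerSeries.coeff_mk]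

theorem G1.gen_one {x : Gn L} (h : ¬ (x.2.2 ∈ C.car ∧ x.2.2 ≠ 0)) : gen ω C x = 1 := by
  rw [gen, dif_neg h]

theorem gen_apply {x : Gn L} (h : x.2.2 ∈ C.car) (h0 : x.2.2 ≠ 0) (j : ℕ) :
    (gen ω C x).1.f (j • x.2.2) = tp (x.2.1 * j) * cc x.1 j := by
  rw [G1.gen_eq h h0, G1.ray_apply h h0, G1.ser, PowerSeries.coeff_mk]

theorem gen_in (x : Gn L) : (gen ω C x).1.In (AddSubmonoid.multiples x.2.2) := fun n hn => by
  by_cases h : x.2.2 ∈ C.car ∧ x.2.2 ≠ 0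
  · rw [G1.gen_eq h.1 h.2] at hn
    exact by_contra fun e => hn (G1.ray_off _ _ e)
  · rw [G1.gen_one h] at hn
    have : n = 0 := by_contra fun e => hn ((A.one_f n).trans (if_neg e))
    exact this ▸ zero_mem _

theorem gen_f_congr {x : Gn L} (h : x.2.2 ∈ C.car) (h' : x.2.2 ∈ C'.car) :
    (gen ω C' x).1.f = (gen ω C x).1.f := by
  by_cases h0 : x.2.2 = 0
  · rw [G1.gen_one fun e => e.2 h0, G1.gen_one fun e => e.2 h0]
    rfl
  · rw [G1.gen_eq h h0, G1.gen_eq h' h0]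
    rfl

theorem gens_in (S : AddSubmonoid L) {l : List (Gn L)} (h : ∀ x ∈ l, x.2.2 ∈ S) :
    (gens ω C l).1.In S := by
  induction l with
  | nil =>
    intro n hn
    have : n = 0 := by_contra fun e => hn ((A.one_f n).trans (if_neg e))
    exact this ▸ zero_mem _
  | cons x l ih =>
    refine A.In.mul (gen_in x) (ih fun y hy => h y (List.mem_cons_of_mem _ hy)) ?_
    rintro _ ⟨j, rfl⟩ n hn
    exact S.add_mem (S.nsmul_mem (h x List.mem_cons_self) j) hn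

theorem gen_cong_one {Λ : Set L} (hΛ : C.Lower Λ) {x : Gn L} (h : x.2.2 ∉ Λ) :
    A.Cong Λ (gen ω C x).1 1 := fun n hn => by
  by_cases hx : x.2.2 ∈ C.car ∧ x.2.2 ≠ 0
  · rw [A.one_f]
    split_ifs with e
    · rw [e, G.f_zero]
    · by_contra e'
      obtain ⟨j, rfl⟩ := gen_in x n e'
      cases j with
      | zero => exact e (zero_nsmul _)
      | succ j => exact h (hΛ _ hx.1 _ (C.car.nsmul_mem hx.1 j) (by rwa [← succ_nsmul']))
  · rw [G1.gen_one hx]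
    rfl

theorem gen_push {L₁ : Type} [AddCommGroup L₁] {ω₁ : Skew L₁} {C₁ : Cone L₁} {φ : L₁ →+ L}
    (h : PushOK ω₁ C₁ ω C φ) {α : L₁ →+ ℤ} {Ψ : G ω₁ C₁ →* G ω C}
    (hΨ : ∀ g n, (Ψ g).1.f n = ∑ᶠ d ∈ {d | φ d = n}, tp (α d) * g.1.f d) {x : Gn L₁}
    (hx : x.2.2 ∈ C₁.car) (h0 : x.2.2 ≠ 0) :
    Ψ (gen ω₁ C₁ x) = gen ω C (x.1, x.2.1 + α x.2.2, φ x.2.2) := by
  have h1 := h.mem _ hx
  have h2 := h.ne _ hx h0
  ext n : 3
  rw [hΨ, finsum_mem_def, G1.finsum_ray hx h0 fun d e => by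
    simp [G1.gen_eq hx h0, G1.ray_off hx _ e]]
  by_cases e : ∃ j : ℕ, j • φ x.2.2 = n
  · obtain ⟨k, rfl⟩ := e
    rw [finsum_eq_single _ k fun j hj => Set.indicator_of_notMem (fun e => hj
      (G1.mul_inj h1 h2 (by simpa using e))) _, Set.indicator_of_mem (by simp), gen_apply hx h0,
      gen_apply (x := (x.1, x.2.1 + α x.2.2, φ x.2.2)) h1 h2, ← mul_assoc, ← tp_add]
    congr 2
    simp only [map_nsmul, nsmul_eq_mul]
    ring
  · rw [G1.gen_eq (x := (x.1, x.2.1 + α x.2.2, φ x.2.2)) h1 h2, G1.ray_off _ _ e]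
    exact finsum_eq_zero_of_forall_eq_zero fun j =>
      Set.indicator_of_notMem (fun e' => e ⟨j, by simpa using e'⟩) _

theorem G1.ell_eq (δ : L →+ ℤ) {x : Gn L} (h : x.2.2 ∈ C.car) (h0 : x.2.2 ≠ 0) :
    ell δ (gen ω C x) = ((δ x.2.2 : ℤ) : K) • G1.ray ω h (G1.lg x.1 x.2.1) := by
  have e : der δ (gen ω C x).1 =
      ((δ x.2.2 : ℤ) : K) • ((gen ω C x).1 * G1.ray ω h (G1.lg x.1 x.2.1)) := by
    rw [G1.gen_eq h h0, ← G1.ray_mul h h0, G1.ser_mul_lg]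
    ext n : 2
    show δ n • _ = _ * _
    by_cases e : ∃ j : ℕ, j • x.2.2 = n
    · obtain ⟨k, rfl⟩ := e
      simp only [G1.ray_apply h h0, G1.eul, PowerSeries.coeff_mk, map_nsmul, nsmul_eq_mul,
        zsmul_eq_mul]
      push_cast
      ring
    · simp [G1.ray_off h _ e]
  have i : ((gen ω C x)⁻¹).1 * (gen ω C x).1 = 1 :=
    congrArg Subtype.val (inv_mul_cancel (gen ω C x))
  rw [ell, e, mul_smul_comm, ← mul_assoc, i, one_mul]

theorem ell_gen (δ : L →+ ℤ) {x : Gn L} (h : x.2.2 ∈ C.car) (h0 : x.2.2 ≠ 0) (j : ℕ) :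
    (ell δ (gen ω C x)).f ((j + 1) • x.2.2) = δ x.2.2 • ((if x.1 then (-1) ^ j else 1) *
      tp ((x.2.1 + 1) * (j + 1)) / (1 - tp (2 * (j + 1)))) := by
  rw [G1.ell_eq δ h h0, A.smul_f, Pi.smul_apply, G1.ray_apply h h0]
  simp [G1.lg]

/-- The coefficients of cc count multisets (sets in the fermionic case). -/
theorem coeff_cc (ε : Bool) (j : ℕ) (a : ℤ) : (cc ε j).coeff a =
    ({s : Multiset ℕ | s.card = j ∧ (ε = true → s.Nodup) ∧ 2 * (s.sum : ℤ) + j = a}.ncard : ℚ) :=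
  G1.coeff_cc' ε j a

end Pool.Agent.Lib.MP_33bfb2_co.Th
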