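import Mathlib

namespace Pool.Agent.Lib.MP_33bfb2_co.Th

open Finset

/-- Laurent series in t over the rationals. -/
abbrev K : Type := LaurentSeries ℚ

/-- The power t ^ a. -/
noncomputable def tp (a : ℤ) : K := HahnSeries.single a 1

/-- Finite sums of powers of t. -/
def Pos (f : K) : Prop := ∃ s : Multiset ℤ, f = (s.map tp).sum

theorem tp_add (a b : ℤ) : tp (a + b) = tp a * tp b := by
  simp [tp, HahnSeries.single_mul_single]

theorem tp_zero : tp 0 = 1 := rfl

/-- A skew form. -/
structure Skew (L : Type) [AddCommGroup L] where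
  w : L →+ L →+ ℤ
  alt : ∀ a, w a a = 0

/-- An admissible cone with its degree. -/
structure Cone (L : Type) [AddCommGroup L] where
  car : AddSubmonoid L
  deg : L →+ ℤ
  pos : ∀ n ∈ car, n ≠ 0 → 0 < deg n
  fin : ∀ D : ℤ, {n | n ∈ car ∧ deg n ≤ D}.Finite

variable {L : Type} [AddCommGroup L]

theorem Skew.skew (ω : Skew L) (a b : L) : ω.w a b = - ω.w b a := by
  have := ω.alt (a + b)
  simp only [map_add, AddMonoidHom.add_apply, ω.alt] at this
  omega

theorem Cone.deg_nonneg (C : Cone L) {n : L} (h : n ∈ C.car) : 0 ≤ C.deg n := by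
  by_cases e : n = 0
  · simp [e]
  · exact (C.pos n h e).le

/-- The elements below n. -/
noncomputable def Cone.box (C : Cone L) (n : L) : Finset L :=
  (show {m | m ∈ C.car ∧ n - m ∈ C.car}.Finite from (C.fin (C.deg n)).subset fun m hm => ⟨hm.1, by
    have := C.deg_nonneg hm.2
    rw [map_sub] at this
    omega⟩).toFinset

theorem Cone.mem_box {C : Cone L} {n m : L} : m ∈ C.box n ↔ m ∈ C.car ∧ n - m ∈ C.car := by
  simp [Cone.box]

/-- A subcone. -/
def Cone.sub (C : Cone L) (S : AddSubmonoid L) : Cone L where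
  car := C.car ⊓ S
  deg := C.deg
  pos n hn := C.pos n hn.1
  fin D := (C.fin D).subset fun _ h => ⟨h.1.1, h.2⟩

/-- The product of two functions, independent of the cone. -/
noncomputable def conv (ω : Skew L) (a b : L → K) (n : L) : K :=
  ∑ᶠ m, tp (- ω.w m n) * a m * b (n - m)

/-- Functions supported in the cone. -/
@[ext] structure A (ω : Skew L) (C : Cone L) where
  f : L → K
  supp : ∀ n, f n ≠ 0 → n ∈ C.car

variable {ω : Skew L} {C : Cone L}

theorem conv_eq (a b : A ω C) (n : L) :
    conv ω a.f b.f n = ∑ m ∈ C.box n, tp (- ω.w m n) * a.f m * b.f (n - m) := by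
  refine finsum_eq_sum_of_support_subset _ fun m hm => ?_
  rw [Function.mem_support] at hm
  exact mem_coe.2 (Cone.mem_box.2 ⟨a.supp _ fun e => hm (by simp [e]),
    b.supp _ fun e => hm (by simp [e])⟩)

namespace A

noncomputable instance : Zero (A ω C) := ⟨⟨0, fun _ h => absurd rfl h⟩⟩
noncomputable instance : Add (A ω C) := ⟨fun a b => ⟨a.f + b.f, fun n h => by
  by_contra e
  exact h (by simp [not_not.1 (mt (a.supp n) e), not_not.1 (mt (b.supp n) e)])⟩⟩
noncomputable instance : Neg (A ω C) := ⟨fun a => ⟨-a.f, fun n h => a.supp n (by simpa using h)⟩⟩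
noncomputable instance : Sub (A ω C) := ⟨fun a b => ⟨a.f - b.f, fun n h => by
  by_contra e
  exact h (by simp [not_not.1 (mt (a.supp n) e), not_not.1 (mt (b.supp n) e)])⟩⟩
noncomputable instance {R : Type} [Zero R] [SMulZeroClass R K] : SMul R (A ω C) :=
  ⟨fun r a => ⟨r • a.f, fun n h => a.supp n fun e => h (by simp [e])⟩⟩
open Classical in
noncomputable instance : One (A ω C) := ⟨⟨Pi.single 0 1, fun n h => by
  by_contra e
  exact h (Pi.single_eq_of_ne (fun e' => e (by rw [e']; exact C.car.zero_mem)) _)⟩⟩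
noncomputable instance : Mul (A ω C) := ⟨fun a b => ⟨conv ω a.f b.f, fun n h => by
  rw [conv_eq] at h
  obtain ⟨m, hm, -⟩ := exists_ne_zero_of_sum_ne_zero h
  have := Cone.mem_box.1 hm
  simpa using C.car.add_mem this.1 this.2⟩⟩

@[simp] theorem zero_f : (0 : A ω C).f = 0 := rfl
@[simp] theorem add_f (a b : A ω C) : (a + b).f = a.f + b.f := rfl
@[simp] theorem neg_f (a : A ω C) : (-a).f = -a.f := rfl
@[simp] theorem sub_f (a b : A ω C) : (a - b).f = a.f - b.f := rfl
@[simp] theorem smul_f {R : Type} [Zero R] [SMulZeroClass R K] (r : R) (a : A ω C) :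
    (r • a).f = r • a.f := rfl
theorem mul_f (a b : A ω C) : (a * b).f = conv ω a.f b.f := rfl
open Classical in
theorem one_f (n : L) : (1 : A ω C).f n = if n = 0 then 1 else 0 := by
  show (Pi.single 0 1 : L → K) n = _
  simp [Pi.single_apply]

theorem mul_apply (a b : A ω C) (n : L) :
    (a * b).f n = ∑ m ∈ C.box n, tp (- ω.w m n) * a.f m * b.f (n - m) := conv_eq a b n

theorem f_inj : Function.Injective (A.f : A ω C → L → K) := fun _ _ h => A.ext h

noncomputable instance : AddCommGroup (A ω C) :=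
  f_inj.addCommGroup _ rfl (fun _ _ => rfl) (fun _ => rfl) (fun _ _ => rfl) (fun _ _ => rfl)
    (fun _ _ => rfl)

/-- The underlying function as an additive map. -/
noncomputable def fHom : A ω C →+ (L → K) := ⟨⟨A.f, rfl⟩, fun _ _ => rfl⟩

noncomputable instance : Module K (A ω C) := f_inj.module K fHom fun _ _ => rfl

theorem eq_zero {a : A ω C} {n : L} (h : n ∉ C.car) : a.f n = 0 := not_not.1 (mt (a.supp n) h)

theorem mul_assoc' (a b c : A ω C) : a * b * c = a * (b * c) := by
  classical
  ext n : 2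
  simp only [mul_apply, mul_sum, sum_mul]
  rw [sum_sigma', sum_sigma']
  refine sum_nbij' (fun p => ⟨p.2, p.1 - p.2⟩) (fun p => ⟨p.1 + p.2, p.1⟩) ?_ ?_ ?_ ?_ ?_
  · rintro ⟨m, l⟩ h
    simp only [mem_sigma, Cone.mem_box] at h ⊢
    refine ⟨⟨h.2.1, ?_⟩, h.2.2, by simpa using h.1.2⟩
    simpa using C.car.add_mem h.1.2 h.2.2
  · rintro ⟨l, k⟩ h
    simp only [mem_sigma, Cone.mem_box] at h ⊢
    exact ⟨⟨C.car.add_mem h.1.1 h.2.1, by simpa [sub_sub] using h.2.2⟩, h.1.1, by simpa using h.2.1⟩
  · rintro ⟨m, l⟩ _; simp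
  · rintro ⟨m, l⟩ _; simp
  · rintro ⟨m, l⟩ _
    have e : tp (- ω.w m n) * tp (- ω.w l m) = tp (- ω.w l n) * tp (- ω.w (m - l) (n - l)) := by
      rw [← tp_add, ← tp_add]
      congr 1
      simp only [map_sub, AddMonoidHom.sub_apply, ω.alt, ω.skew m l]
      ring
    simp only [sub_sub_sub_cancel_right]
    linear_combination (a.f l * b.f (m - l) * c.f (n - m)) * e

noncomputable instance : Ring (A ω C) where
  __ := (inferInstance : AddCommGroup (A ω C))
  mul_assoc := mul_assoc'
  one_mul a := by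
    ext n : 2
    rw [mul_f, conv, finsum_eq_single _ 0 fun m hm => by simp [one_f, hm]]
    simp [one_f, tp_zero]
  mul_one a := by
    ext n : 2
    rw [mul_f, conv, finsum_eq_single _ n fun m hm => by simp [one_f, sub_eq_zero, Ne.symm hm]]
    simp [one_f, tp_zero, ω.alt]
  left_distrib a b c := by
    ext n : 2
    simp [mul_apply, mul_add, sum_add_distrib]
  right_distrib a b c := by
    ext n : 2
    simp [mul_apply, mul_add, add_mul, sum_add_distrib]
  zero_mul a := by
    ext n : 2
    simp [mul_apply]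
  mul_zero a := by
    ext n : 2
    simp [mul_apply]

noncomputable instance : Algebra K (A ω C) :=
  Algebra.ofModule (fun r a b => by
    ext n : 2
    simp only [mul_apply, smul_f, Pi.smul_apply, smul_eq_mul, mul_sum]
    exact sum_congr rfl fun _ _ => by ring) (fun r a b => by
    ext n : 2
    simp only [mul_apply, smul_f, Pi.smul_apply, smul_eq_mul, mul_sum]
    exact sum_congr rfl fun _ _ => by ring)

end A

theorem Cone.exists_fix (C : Cone L) (Φ : L → (L → K) → K)
    (hΦ : ∀ n ∈ C.car, ∀ f g : L → K, (∀ m ∈ C.car, C.deg m < C.deg n → f m = g m) →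
      Φ n f = Φ n g) : ∃ f : L → K, (∀ n, n ∉ C.car → f n = 0) ∧ ∀ n ∈ C.car, f n = Φ n f := by
  classical
  have wf : WellFounded fun m n : L => m ∈ C.car ∧ C.deg m < C.deg n :=
    Subrelation.wf (r := InvImage (· < ·) fun n => (C.deg n).toNat) (fun {m n} h => by
      have := C.deg_nonneg h.1
      have := h.2
      show (C.deg m).toNat < (C.deg n).toNat
      omega) (InvImage.wf _ wellFounded_lt)
  refine ⟨wf.fix fun n ih => if n ∈ C.car then
    Φ n (fun m => if h : m ∈ C.car ∧ C.deg m < C.deg n then ih m h else 0) else 0,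
    fun n hn => by rw [wf.fix_eq, if_neg hn], fun n hn => ?_⟩
  rw [wf.fix_eq, if_pos hn]
  exact hΦ n hn _ _ fun m h1 h2 => dif_pos ⟨h1, h2⟩

theorem Cone.box_zero (C : Cone L) : C.box 0 = {0} := by
  ext m
  simp only [Cone.mem_box, mem_singleton]
  refine ⟨fun h => by_contra fun e => ?_, fun h => by simp [h]⟩
  have := C.pos m h.1 e
  have := C.deg_nonneg h.2
  rw [map_sub, map_zero] at this
  omega

theorem Cone.deg_lt {C : Cone L} {n m : L} (h : m ∈ C.box n) (e : m ≠ n) : C.deg m < C.deg n := by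
  have := C.pos _ (Cone.mem_box.1 h).2 (sub_ne_zero.2 e.symm)
  rw [map_sub] at this
  omega

theorem Cone.deg_sub_lt {C : Cone L} {n m : L} (h : m ∈ C.box n) (e : m ≠ 0) :
    C.deg (n - m) < C.deg n := by
  have := C.pos _ (Cone.mem_box.1 h).1 e
  rw [map_sub]
  omega

theorem A.mul_zero_apply (a b : A ω C) : (a * b).f 0 = a.f 0 * b.f 0 := by
  simp [A.mul_apply, C.box_zero, tp_zero]

/-- Elements with constant term one. -/
def G (ω : Skew L) (C : Cone L) : Submonoid (A ω C) where
  carrier := {a | a.f 0 = 1}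
  one_mem' := by simp [A.one_f]
  mul_mem' ha hb := by
    simp only [Set.mem_ofPred_eq] at ha hb ⊢
    rw [A.mul_zero_apply, ha, hb, one_mul]

theorem G.f_zero (g : G ω C) : g.1.f 0 = 1 := g.2

theorem G.exists_inv (a : G ω C) : ∃ b : G ω C, b * a = 1 := by
  classical
  obtain ⟨f, h1, h2⟩ := C.exists_fix (fun n f => if n = 0 then 1 else
    - ∑ m ∈ (C.box n).erase n, tp (- ω.w m n) * f m * a.1.f (n - m)) fun n _ f g h => by
      refine if_congr Iff.rfl rfl (congrArg _ (sum_congr rfl fun m hm => ?_))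
      rw [h m (Cone.mem_box.1 (mem_of_mem_erase hm)).1
        (Cone.deg_lt (mem_of_mem_erase hm) (ne_of_mem_erase hm))]
  refine ⟨⟨⟨f, fun n hn => not_not.1 (mt (h1 n) hn)⟩, ?_⟩, ?_⟩
  · exact (h2 0 C.car.zero_mem).trans (if_pos rfl)
  · ext n : 3
    by_cases hn : n ∈ C.car
    swap
    · rw [A.eq_zero hn, A.eq_zero hn]
    show (_ * _ : A ω C).f n = (1 : A ω C).f n
    by_cases e : n = 0
    · subst e
      rw [A.mul_zero_apply, G.f_zero a, A.one_f, mul_one]
      exact (h2 0 hn).trans (by simp)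
    · rw [A.mul_apply, A.one_f, if_neg e, ← add_sum_erase _ _ (a := n) (by simp [Cone.mem_box, hn])]
      have := h2 n hn
      rw [if_neg e] at this
      simp only [ω.alt, neg_zero, tp_zero, sub_self, G.f_zero]
      linear_combination this

noncomputable instance : Group (G ω C) where
  __ := (inferInstance : Monoid (G ω C))
  inv a := (G.exists_inv a).choose
  inv_mul_cancel a := (G.exists_inv a).choose_spec

/-- a is supported in S. -/
def A.In (a : A ω C) (S : Set L) : Prop := ∀ n, a.f n ≠ 0 → n ∈ S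

/-- a is supported in S together with 0. -/
def A.In0 (a : A ω C) (S : Set L) : Prop := ∀ n, a.f n ≠ 0 → n = 0 ∨ n ∈ S

/-- a and b agree on Λ. -/
def A.Cong (Λ : Set L) (a b : A ω C) : Prop := ∀ n ∈ Λ, a.f n = b.f n

/-- Lower sets of the cone. -/
def Cone.Lower (C : Cone L) (Λ : Set L) : Prop :=
  ∀ a ∈ C.car, ∀ b ∈ C.car, a + b ∈ Λ → a ∈ Λ

open Classical in
/-- Restriction to a set. -/
noncomputable def A.res (S : Set L) (a : A ω C) : A ω C :=
  ⟨S.indicator a.f, fun n h => a.supp n fun e => h (by simp [Set.indicator_apply, e])⟩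

/-- A monomial, zero if the exponent is outside the cone. -/
noncomputable def A.mon (ω : Skew L) (C : Cone L) (n : L) : A ω C :=
  open Classical in ⟨fun m => if m = n ∧ n ∈ C.car then 1 else 0, fun m h => by
    by_contra e
    exact h (if_neg fun e' : m = n ∧ n ∈ C.car => e (e'.1 ▸ e'.2))⟩

/-- A function cut down to the cone. -/
noncomputable def A.mk' (ω : Skew L) (C : Cone L) (f : L → K) : A ω C :=
  ⟨(C.car : Set L).indicator f, fun n h => by
    by_contra e
    exact h (Set.indicator_of_notMem e _)⟩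

theorem G.exists_fac (θ : L →+ ℚ) (g : G ω C) : ∃ p : G ω C × G ω C,
    p.1 * p.2 = g ∧ p.1.1.In {n | 0 ≤ θ n} ∧ p.2.1.In0 {n | θ n < 0} := by
  classical
  obtain ⟨f, h1, h2⟩ := C.exists_fix (fun n f => if n = 0 then 1 else g.1.f n -
    ∑ m ∈ ((C.box n).erase n).erase 0, tp (- ω.w m n) * (if 0 ≤ θ m then f m else 0) *
      (if θ (n - m) < 0 then f (n - m) else 0)) fun n _ f g h => by
      refine if_congr Iff.rfl rfl (congrArg _ (sum_congr rfl fun m hm => ?_))
      have a1 := mem_of_mem_erase (mem_of_mem_erase hm)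
      rw [h m (Cone.mem_box.1 a1).1 (Cone.deg_lt a1 (ne_of_mem_erase (mem_of_mem_erase hm))),
        h _ (Cone.mem_box.1 a1).2 (Cone.deg_sub_lt a1 (ne_of_mem_erase hm))]
  have h0 : f 0 = 1 := (h2 0 C.car.zero_mem).trans (if_pos rfl)
  refine ⟨(⟨⟨fun n => if 0 ≤ θ n then f n else 0, fun n hn => not_not.1 (mt (h1 n) fun e =>
    hn (by simp [e]))⟩, by simpa [G] using h0⟩, ⟨⟨fun n => if n = 0 ∨ θ n < 0 then f n else 0,
      fun n hn => not_not.1 (mt (h1 n) fun e => hn (by simp [e]))⟩, by simpa [G] using h0⟩),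
    ?_, fun n hn => by_contra fun e => hn (if_neg e), fun n hn => by_contra fun e => hn (if_neg e)⟩
  ext n : 3
  by_cases hn : n ∈ C.car
  swap
  · rw [A.eq_zero hn, A.eq_zero hn]
  show (_ * _ : A ω C).f n = _
  by_cases e : n = 0
  · subst e
    rw [A.mul_zero_apply, G.f_zero g]
    simp [h0]
  · rw [A.mul_apply, ← add_sum_erase _ _ (a := n) (by simp [Cone.mem_box, hn]),
      ← add_sum_erase _ _ (a := 0) (by simp [Cone.mem_box, hn, Ne.symm e])]
    have := h2 n hn
    rw [if_neg e] at this
    dsimp only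
    rw [sum_congr rfl (g := fun m => tp (- ω.w m n) * (if 0 ≤ θ m then f m else 0) *
      (if θ (n - m) < 0 then f (n - m) else 0)) fun m hm => by
        simp only [sub_eq_zero, (ne_of_mem_erase (mem_of_mem_erase hm)).symm, false_or]]
    simp only [ω.alt, neg_zero, tp_zero, sub_self, map_zero, AddMonoidHom.zero_apply, sub_zero,
      le_refl, if_true, true_or, h0, e, false_or]
    rcases le_or_gt 0 (θ n) with a | a
    · rw [if_pos a, if_neg a.not_gt]; linear_combination this
    · rw [if_neg a.not_ge, if_pos a]; linear_combination this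

/-- The factor supported in the non-negative part. -/
noncomputable def fa (θ : L →+ ℚ) (g : G ω C) : G ω C := (G.exists_fac θ g).choose.1

/-- The factor supported in the negative part. -/
noncomputable def fc (θ : L →+ ℚ) (g : G ω C) : G ω C := (G.exists_fac θ g).choose.2

theorem fa_mul_fc (θ : L →+ ℚ) (g : G ω C) : fa θ g * fc θ g = g :=
  (G.exists_fac θ g).choose_spec.1
theorem fa_in (θ : L →+ ℚ) (g : G ω C) : (fa θ g).1.In {n | 0 ≤ θ n} :=
  (G.exists_fac θ g).choose_spec.2.1
theorem fc_in (θ : L →+ ℚ) (g : G ω C) : (fc θ g).1.In0 {n | θ n < 0} :=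
  (G.exists_fac θ g).choose_spec.2.2

/-- The middle factor. -/
noncomputable def z0 (θ : L →+ ℚ) (g : G ω C) : G ω C :=
  ⟨(fa θ g).1.res {n | θ n = 0}, by
    show Set.indicator _ _ _ = _
    rw [Set.indicator_of_mem (by simp), G.f_zero]⟩

/-- The derivation attached to an additive map. -/
noncomputable def der (δ : L →+ ℤ) (a : A ω C) : A ω C :=
  ⟨fun n => δ n • a.f n, fun n h => a.supp n fun e => h (by simp [e])⟩

/-- The logarithmic derivative. -/
noncomputable def ell (δ : L →+ ℤ) (k : G ω C) : A ω C := (k⁻¹).1 * der δ k.1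

/-- The attractor functional of n. -/
def th (ω : Skew L) (n : L) : L →+ ℚ := (Int.castAddHom ℚ).comp (- ω.w n)

/-- The attractor invariant. -/
noncomputable def Att (δ : L →+ ℤ) (g : G ω C) (n : L) : K := (ell δ (z0 (th ω n) g)).f n

/-- Coefficients of the generators; true is the fermionic type. -/
noncomputable def cc (ε : Bool) (j : ℕ) : K :=
  tp (if ε then j ^ 2 else j) / ∏ i ∈ range j, (1 - tp (2 * (i + 1)))

/-- A generator: type, shift, exponent. -/
abbrev Gn (L : Type) := Bool × ℤ × L

open Classical in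
/-- The element of a generator, one if the exponent is zero or outside the cone. -/
noncomputable def gen (ω : Skew L) (C : Cone L) (x : Gn L) : G ω C :=
  if h : x.2.2 ∈ C.car ∧ x.2.2 ≠ 0 then
    ⟨⟨Function.extend (fun j : ℕ => j • x.2.2) (fun j => tp (x.2.1 * j) * cc x.1 j) 0,
      fun n hn => by
        by_cases e : ∃ j : ℕ, j • x.2.2 = n
        · obtain ⟨j, rfl⟩ := e
          exact C.car.nsmul_mem h.1 j
        · exact absurd (Function.extend_apply' _ _ _ e) hn⟩, by
      have inj : Function.Injective fun j : ℕ => j • x.2.2 := fun i j e => by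
        have := congrArg C.deg e
        simp only [map_nsmul, nsmul_eq_mul] at this
        exact_mod_cast mul_right_cancel₀ (C.pos _ h.1 h.2).ne' this
      have := inj.extend_apply (fun j => tp (x.2.1 * j) * cc x.1 j) (0 : L → K) 0
      simpa [G, cc, tp_zero] using this⟩
  else 1

/-- The ordered product of a list of generators. -/
noncomputable def gens (ω : Skew L) (C : Cone L) (l : List (Gn L)) : G ω C :=
  (l.map (gen ω C)).prod

/-- The quantum dilogarithm of a monomial. -/
noncomputable def EE (ω : Skew L) (C : Cone L) (n : L) : G ω C := gen ω C (true, 0, n)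

/-- g has the attractor invariants of the initial set I. -/
def IsInit (I : Finset L) (g : G ω C) : Prop :=
  ∀ n ∈ C.car, n ≠ 0 → Att C.deg g n = ∑ e ∈ I, (ell C.deg (EE ω C e)).f n

/-- Conjugation. -/
noncomputable def Ad (k : G ω C) (a : A ω C) : A ω C := k.1 * a * (k⁻¹).1

/-- The attractor coefficient of F at p. -/
noncomputable def att (g : G ω C) (F : A ω C) (p : L) : K := (Ad (fc (th ω p) g) F).f p

/-- Parallel vectors. -/
def Cone.Par (C : Cone L) (a b : L) : Prop := C.deg b • a = C.deg a • b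

end Pool.Agent.Lib.MP_33bfb2_co.Th
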