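import Pool.Agent.Lib.MP_33bfb2_co.Th.ADefs

namespace Pool.Agent.Lib.MP_33bfb2_co.Th

open Finset

variable {L : Type} [AddCommGroup L] {ω : Skew L} {C C' : Cone L}

/-- Hypotheses for pushing forward along φ. -/
structure PushOK {L₁ : Type} [AddCommGroup L₁] (ω₁ : Skew L₁) (C₁ : Cone L₁) (ω : Skew L)
    (C : Cone L) (φ : L₁ →+ L) : Prop where
  w : ∀ a b, ω.w (φ a) (φ b) = ω₁.w a b
  mem : ∀ d ∈ C₁.car, φ d ∈ C.car
  ne : ∀ d ∈ C₁.car, d ≠ 0 → φ d ≠ 0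
  fin : ∀ n, {d | d ∈ C₁.car ∧ φ d = n}.Finite

/-- θ and θ' have the same signs on Λ. -/
def SameSign (Λ : Set L) (θ θ' : L →+ ℚ) : Prop :=
  ∀ n ∈ Λ, (0 < θ n ↔ 0 < θ' n) ∧ (θ n = 0 ↔ θ' n = 0)

/-- θ' has the signs of the lexicographic pair (θ, ξ) on Λ. -/
def LexSign (Λ : Set L) (θ' θ ξ : L →+ ℚ) : Prop :=
  ∀ n ∈ Λ, (0 < θ' n ↔ 0 < θ n ∨ (θ n = 0 ∧ 0 < ξ n)) ∧ (θ' n = 0 ↔ θ n = 0 ∧ ξ n = 0)

/-- The symmetric q-binomial coefficient: coefficient of y ^ j in f_m. -/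
noncomputable def qb (m j : ℕ) : K :=
  (∏ i ∈ range m, (1 + Polynomial.C (tp (m - 1 - 2 * i)) * Polynomial.X)).coeff j

/-- Number of arrows from d to d'. -/
def kap {r : ℕ} (w : Fin r → Fin r → ℕ) (d d' : Fin r → ℕ) : ℕ :=
  ∑ i, ∑ j ∈ Iio i, w j i * d i * d' j

/-- The statistics of a dimension vector; odd is fermionic. -/
def par {r : ℕ} (w : Fin r → Fin r → ℕ) (ε : Fin r → Bool) (e : Fin r → ℕ) : ℕ :=
  kap w e e + ∑ i, if ε i then e i else 0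

/-- Monomial orbits of type d and degree m. -/
def Orb {r : ℕ} (ε : Fin r → Bool) (d : Fin r → ℕ) (m : ℕ) : Set (Fin r → Multiset ℕ) :=
  {s | (∀ i, (s i).card = d i ∧ (ε i = true → (s i).Nodup)) ∧ ∑ i, (s i).sum = m}

/-- PBW index sets: multisets of (type e, degree, index, power). -/
def PB {r : ℕ} (w : Fin r → Fin r → ℕ) (ε : Fin r → Bool) (η : Fin r → ℚ)
    (ν : (Fin r → ℕ) → ℕ → ℕ) (d : Fin r → ℕ) (m : ℕ) :
    Set (Multiset ((Fin r → ℕ) × ℕ × ℕ × ℕ)) :=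
  {s | (∀ x ∈ s, x.1 ≠ 0 ∧ ∑ i, η i * x.1 i = 0 ∧ x.2.2.1 < ν x.1 x.2.1 ∧
      (Odd (par w ε x.1) → s.count x ≤ 1)) ∧ (s.map (·.1)).sum = d ∧
    2 * m + (s.map fun x => kap w x.1 x.1).sum =
      2 * (s.map fun x => x.2.1 + x.2.2.2).sum + kap w d d}

/-- Series that become Laurent polynomials after multiplication by a polynomial over ℕ. -/
def InO (f : K) : Prop := ∃ Q : K, Pos Q ∧ Q ≠ 0 ∧ (Q * f).support.Finite

/-- The linear part of the ratio of two elements. -/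
noncomputable def xi (y : L →+ ℤ) (g gh : G ω C) : A ω C :=
  (cc true 1)⁻¹ • (g⁻¹ * gh).1.res {n | y n = 1}

/-- Data of a mutation at X between the cones C and C'. -/
structure Mut (ω : Skew L) (C C' : Cone L) (X : L) (Γ : AddSubmonoid L) (db la la' : L →+ ℤ) :
    Prop where
  shift : ∀ n, n ∈ Γ ↔ n + X ∈ Γ
  db0 : ∀ n ∈ Γ, 0 ≤ db n
  dbX : db X = 0
  dbz : ∀ n ∈ Γ, db n = 0 → ∃ k : ℤ, n = k • X
  laX : la X = 1
  laX' : la' X = -1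
  car : ∀ n, n ∈ C.car ↔ n ∈ Γ ∧ 0 ≤ la n
  car' : ∀ n, n ∈ C'.car ↔ n ∈ Γ ∧ 0 ≤ la' n

/-- The tropical mutation. -/
def tau (ω : Skew L) (X n : L) : L := n + max (- ω.w n X) 0 • X

/-- Admissible initial vectors other than X. -/
def MutI (ω : Skew L) (C C' : Cone L) (X : L) (db la' : L →+ ℤ) (I : Finset L) : Prop :=
  ∀ e ∈ I, e ∈ C.car ∧ e ∈ C'.car ∧ 0 ≤ la' e + ω.w e X ∧ 0 < db e

end Pool.Agent.Lib.MP_33bfb2_co.Th
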