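import Mathlib

namespace Pool.Agent.Lib.MP_33bfb2_co.Th

open Finset

theorem no_growth (f : ℕ → ℤ) (n : ℤ) (h : ∀ r, f r + 1 ≤ f (r + 1)) (hb : ∀ r, f r ≤ n) :
    False := by
  have h1 : ∀ r : ℕ, f 0 + r ≤ f r := fun r => by
    induction r with
    | zero => simp
    | succ r ih => have := h r; push_cast; omega
  have h2 := h1 ((n - f 0).toNat + 1)
  have h3 := hb ((n - f 0).toNat + 1)
  push_cast at h2
  omega

theorem sweep_sum {J : Type} [Fintype J] {l : ℕ} {js : ℕ → J} (per : ∀ K, js (K + l) = js K)
    (bij : Function.Bijective fun k : Fin l => js k) (g : J → ℤ) (K : ℕ) :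
    ∑ k ∈ range l, g (js (K + k)) = ∑ j, g j := by
  induction K with
  | zero =>
    simp only [zero_add]
    rw [← Fin.sum_univ_eq_sum_range (fun k => g (js k)) l]
    exact bij.sum_comp g
  | succ K ih =>
    have h1 := sum_range_succ (fun k => g (js (K + k))) l
    have h2 := sum_range_succ' (fun k => g (js (K + k))) l
    simp only [per, add_zero] at h1 h2
    rw [← ih, add_right_cancel (h1.symm.trans h2)]
    exact sum_congr rfl fun k _ => by rw [add_assoc, add_comm 1 k]

theorem tele (f g : ℕ → ℤ) (K l : ℕ) (h : ∀ k, f (K + k + 1) = f (K + k) + g (K + k)) :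
    f (K + l) = f K + ∑ k ∈ range l, g (K + k) := by
  induction l with
  | zero => simp
  | succ l ih => rw [sum_range_succ, ← add_assoc, h, ih, add_assoc]

theorem concave_zero (N i0 : ℕ) (m : ℕ → ℤ) (h0 : m 0 = 0) (hN : ∀ i, N ≤ i → m i = 0)
    (pos : ∀ i, 0 ≤ m i)
    (h : ∀ i, i + 1 < N → 2 * m (i + 1) - m i - m (i + 2) ≤ if i + 1 = i0 then 1 else 0) (i : ℕ) :
    m i = 0 := by
  have h' : ∀ i, 2 * m (i + 1) - m i - m (i + 2) ≤ if i + 1 = i0 then 1 else 0 := fun i => by
    by_cases e : i + 1 < N
    · exact h i e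
    · have := hN (i + 1) (by omega)
      have := pos i
      have := pos (i + 2)
      split_ifs <;> omega
  induction i using Nat.strong_induction_on with
  | _ i ih =>
    rcases i with _ | i
    · exact h0
    by_contra e
    have e1 : 1 ≤ m (i + 1) := by have := pos (i + 1); omega
    have e0 := ih i (by omega)
    have key : ∀ k, 1 ≤ m (i + k + 1) ∧
        (if i0 ≤ i + k ∧ i < i0 then 0 else 1) ≤ m (i + k + 1) - m (i + k) := fun k => by
      induction k with
      | zero => exact ⟨e1, by simp only [add_zero]; split_ifs <;> omega⟩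
      | succ k ihk =>
        have := h' (i + k)
        obtain ⟨a, b⟩ := ihk
        rw [← add_assoc, show i + k + 1 + 1 = i + k + 2 from rfl]
        split_ifs at * <;> omega
    have := (key N).1
    have := hN (i + N + 1) (by omega)
    omega

theorem dyn {J : Type} [Fintype J] [DecidableEq J] (N i0 l : ℕ) (gap : J → ℕ)
    (gap1 : ∀ j, 1 ≤ gap j) (gapN : ∀ j, gap j < N) (onto : ∀ i, 1 ≤ i → i < N → ∃ j, gap j = i)
    (js : ℕ → J) (per : ∀ K, js (K + l) = js K) (bij : Function.Bijective fun k : Fin l => js k)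
    (A : ℕ → ℕ → ℤ) (b : ℕ → J → ℤ) (yy d : ℕ → ℤ) (n : ℤ)
    (hd : ∀ K, d K = A K (gap (js K) + 1) - A K (gap (js K)) + b K (js K) - yy K)
    (hb : ∀ K j, b (K + 1) j = b K j - if j = js K then max (d K) 0 else 0)
    (hA : ∀ K a, A (K + 1) a = A K a - (if a = gap (js K) then b (K + 1) (js K) else 0) +
      if a = gap (js K) + 1 then b K (js K) else 0)
    (hy : ∀ K, yy (K + l) = yy K + if gap (js K) = i0 then 1 else 0)
    (hπ : ∀ K i, 1 ≤ i → i < N →
      ∑ a ∈ Icc 1 i, A K a + ∑ j, (if gap j < i then b K j else 0) ≤ n) :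
    ∃ K0, ∀ K, K0 ≤ K → d K ≤ 0 ∧ b K = b K0 ∧ ∀ i, ∑ j, (if gap j = i then b K j else 0) = 0 := by
  have l0 : 0 < l := by
    obtain ⟨k, -⟩ := bij.2 (js 0)
    exact k.pos
  have anti : ∀ j, Antitone fun K => b K j := fun j => antitone_nat_of_succ_le fun K => by
    rw [hb]; split_ifs <;> omega
  set m : ℕ → ℕ → ℤ := fun K i => ∑ j, (if gap j = i then b K j else 0) with hm
  have manti : ∀ i, Antitone fun K => m K i := fun i K K' h =>
    sum_le_sum fun j _ => by split_ifs; exacts [anti j h, le_rfl]
  have mout : ∀ K i, i = 0 ∨ N ≤ i → m K i = 0 := fun K i h => sum_eq_zero fun j _ =>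
    if_neg (by have := gap1 j; have := gapN j; omega)
  have mpos : ∀ K i, 0 ≤ m K i := fun K i => by
    by_cases e : i = 0 ∨ N ≤ i
    · exact (mout K i e).ge
    by_contra hneg
    set π : ℕ → ℤ := fun K => ∑ a ∈ Icc 1 i, A K a + ∑ j, (if gap j < i then b K j else 0) with hp
    have step : ∀ K, π (K + 1) = π K + - if gap (js K) = i then b (K + 1) (js K) else 0 :=
      fun K => by
        have e1 : ∑ j, (if gap j < i then b (K + 1) j else 0) =
            ∑ j, (if gap j < i then b K j else 0) - if gap (js K) < i then max (d K) 0 else 0 := by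
          rw [← sum_ite_eq_of_mem' univ (js K) (fun j => if gap j < i then max (d K) 0 else 0)
            (mem_univ _), ← sum_sub_distrib]
          exact sum_congr rfl fun j _ => by rw [hb]; split_ifs <;> simp
        have := gap1 (js K)
        simp only [hp, hA K, e1, sum_add_distrib, sum_sub_distrib, sum_ite_eq', mem_Icc, hb K (js K),
          if_true]
        split_ifs <;> omega
    refine no_growth (fun r => π (K + r * l)) n (fun r => ?_) fun r => hπ _ i (by omega) (by omega)
    have h1 := tele π (fun K => - if gap (js K) = i then b (K + 1) (js K) else 0) (K + r * l) l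
      fun k => step _
    have h2 := sweep_sum per bij (fun j => if gap j = i then b (K + r * l) j else 0) (K + r * l)
    have h3 : ∑ k ∈ range l, (if gap (js (K + r * l + k)) = i then
        b (K + r * l + k + 1) (js (K + r * l + k)) else 0) ≤ m (K + r * l) i := by
      rw [hm]
      simp only
      rw [← h2]
      exact sum_le_sum fun k _ => by
        split_ifs
        exacts [anti _ (by omega), le_rfl]
    have h4 : m (K + r * l) i ≤ m K i := manti i (Nat.le_add_right _ _)
    rw [sum_neg_distrib] at h1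
    show π (K + r * l) + 1 ≤ π (K + (r + 1) * l)
    rw [add_mul, one_mul, ← add_assoc, h1]
    omega
  have tot : ∀ K, 0 ≤ ∑ j, b K j := fun K => by
    have : ∑ j, b K j = ∑ i ∈ range N, m K i := by
      rw [hm, sum_comm]
      exact sum_congr rfl fun j _ => by simp [gapN j]
    rw [this]
    exact sum_nonneg fun i _ => mpos K i
  obtain ⟨M, ⟨K0, hK0⟩, hM⟩ := Int.exists_least_of_bdd (P := fun z => ∃ K, ∑ j, b K j = z)
    ⟨0, fun z ⟨K, e⟩ => e ▸ tot K⟩ ⟨_, 0, rfl⟩
  have cst : ∀ K, K0 ≤ K → b K = b K0 := fun K h => funext fun j =>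
    (sum_eq_sum_iff_of_le fun j _ => anti j h).1
      (le_antisymm (sum_le_sum fun j _ => anti j h) (hK0 ▸ hM _ ⟨K, rfl⟩)) j (mem_univ j)
  have dneg : ∀ K, K0 ≤ K → d K ≤ 0 := fun K h => by
    have := hb K (js K)
    rw [cst K h, cst (K + 1) (by omega), if_pos rfl] at this
    omega
  have sweepA : ∀ K, K0 ≤ K → ∀ a, A (K + l) a = A K a - m K0 a +
      ∑ j, (if a = gap j + 1 then b K0 j else 0) := fun K h a => by
    rw [tele (fun K => A K a) (fun K => (if a = gap (js K) + 1 then b K0 (js K) else 0) -
      if gap (js K) = a then b K0 (js K) else 0) K l fun k => by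
        rw [hA, cst (K + k) (by omega), cst (K + k + 1) (by omega)]
        simp only [eq_comm (a := a) (b := gap _)]
        ring, sum_sub_distrib,
      sweep_sum per bij (fun j => if a = gap j + 1 then b K0 j else 0) K,
      sweep_sum per bij (fun j => if gap j = a then b K0 j else 0) K]
    ring
  have sh : ∀ a, ∑ j, (if a + 1 = gap j + 1 then b K0 j else 0) = m K0 a := fun a =>
    sum_congr rfl fun j _ => if_congr (by omega) rfl rfl
  have zero : ∀ i, m K0 i = 0 := concave_zero N i0 (m K0) (mout _ _ (Or.inl rfl))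
    (fun i h => mout _ _ (Or.inr h)) (mpos K0) fun i hi => by
      by_contra hc
      obtain ⟨j, hj⟩ := onto (i + 1) (by omega) hi
      obtain ⟨k, hk⟩ := bij.2 j
      have hjs : ∀ r, js (k + r * l) = j := fun r => by
        induction r with
        | zero => simpa using hk
        | succ r ih => rw [add_mul, one_mul, ← add_assoc, per, ih]
      have big : ∀ r, K0 ≤ k + (K0 + r) * l := fun r => by nlinarith [Nat.zero_le (k : ℕ)]
      refine no_growth (fun r => d (k + (K0 + r) * l)) 0 (fun r => ?_) fun r => dneg _ (big r)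
      show d (k + (K0 + r) * l) + 1 ≤ d (k + (K0 + (r + 1)) * l)
      have e : k + (K0 + (r + 1)) * l = k + (K0 + r) * l + l := by ring
      have e1 := hd (k + (K0 + r) * l)
      have e2 := hd (k + (K0 + r) * l + l)
      rw [per, hy, sweepA _ (big r), sweepA _ (big r), cst _ ((big r).trans (Nat.le_add_right _ _)),
        hjs, hj, sh, sh] at e2
      rw [hjs, hj, cst _ (big r)] at e1
      rw [e, e1, e2]
      rw [show i + 1 + 1 = i + 2 from rfl]
      omega
  exact ⟨K0, fun K h => ⟨dneg K h, cst K h, fun i => by rw [cst K h]; exact zero i⟩⟩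

end Pool.Agent.Lib.MP_33bfb2_co.Th
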