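import Pool.Agent.Lib.MP_33bfb2_co.Th.DT
import Pool.Agent.Lib.MP_33bfb2_co.Th.DDyn

namespace Pool.Agent.Lib.MP_33bfb2_co.Th.Gr

open Finset

variable {n m : ℕ}

/-! ## File DD (imports DT): the tropical dynamics stops on the heavy face -/

theorem dd_mi (j i : Fin (n + 1)) (T : ℕ) : mi m j (Xv m i T) = if i = j then 1 else 0 := by
  have h := congrArg (mi m j) (vec_mv (m := m) (s := fun _ => T) (i := i))
  have h2 := mi_vec (m := m) (s := fun _ => T) (i := j) (.inl i.succ)
  rw [map_add, mi_vec] at h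
  simp only [Sum.elim_inr, Sum.elim_inl, vec] at h h2
  rw [h, h2, zero_add]

theorem dd_XK (i : Fin (n + 1)) (T : ℕ) : XK n m (T * (n + 1) + (n - i)) = Xv m i T := by
  have hi := i.2
  have h1 : (T * (n + 1) + (n - i)) % (n + 1) = n - i := by
    rw [Nat.mul_add_mod_of_lt (by omega)]
  have h2 : mv n (T * (n + 1) + (n - i)) = i := Fin.ext (by simp only [mv, h1]; omega)
  have h3 : st n (T * (n + 1) + (n - i)) i = T := by
    simp only [st]
    rw [show T * (n + 1) + (n - i) + i = n + (n + 1) * T by rw [mul_comm]; omega,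
      Nat.add_mul_div_left _ _ (Nat.succ_pos n), Nat.div_eq_of_lt (Nat.lt_succ_self n), zero_add]
  rw [XK, h2, h3]

theorem dd_iter (i : Fin (n + 1)) (T r : ℕ) :
    Xv m i (T + r * (m + 1)) = Xv m i T - (r : ℤ) • ro m i := by
  induction r with
  | zero => simp
  | succ r ih =>
    rw [add_mul, one_mul, ← add_assoc, Xv_add, ih, Nat.cast_succ, add_smul, one_smul, sub_sub]

theorem dyn_lat (i0 : ℕ) (p : ℕ → Lt n m) (hy : yy n m (p 0) = 1)
    (hp : ∀ k, p k ∈ (Cn m (st n k)).car)
    (hs : ∀ k, p (k + 1) = p k - max (- (om n m i0).w (p k) (XK n m k)) 0 • XK n m k) :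
    ∃ k0, (∀ k, k0 ≤ k → 0 ≤ (om n m i0).w (p k0) (XK n m k)) ∧ ∀ i, mi m i (p k0) = 0 := by
  have hyk : ∀ k, yy n m (p k) = 1 := fun k => by
    induction k with
    | zero => exact hy
    | succ k ih => rw [hs, map_sub, map_zsmul, ih, XK, yy_Xv, smul_zero, sub_zero]
  have back : ∀ r K k, K + r ≤ k → p (K + r) ∈ (Cn m (st n k)).car →
      p K ∈ (Cn m (st n k)).car := fun r => by
    induction r with
    | zero => exact fun _ _ _ h => h
    | succ r ih =>
      refine fun K k hk h => ih K k (by omega) ?_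
      rw [← add_assoc, hs] at h
      have h1 : XK n m (K + r) ∈ (Cn m (st n k)).car := Xv_mem (st_lt (by omega))
      obtain ⟨d, hd⟩ := Int.eq_ofNat_of_zero_le
        (le_max_right (- (om n m i0).w (p (K + r)) (XK n m (K + r))) 0)
      have h2 := add_mem h (nsmul_mem h1 d)
      rwa [hd, natCast_zsmul, sub_add_cancel] at h2
  have mpos : ∀ K i, 0 ≤ mi m i (p K) := fun K i => mi_nonneg K (fun k hk => by
    obtain ⟨r, rfl⟩ := Nat.exists_eq_add_of_le hk
    exact back r K _ le_rfl (hp _)) i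
  have step : ∀ k, ∑ j, mi m j (p (k + 1)) =
      ∑ j, mi m j (p k) - max (- (om n m i0).w (p k) (XK n m k)) 0 := fun k => by
    rw [hs]
    simp only [map_sub, map_zsmul, sum_sub_distrib, ← smul_sum]
    simp [XK, dd_mi]
  obtain ⟨M, ⟨k0, hk0⟩, hM⟩ := Int.exists_least_of_bdd (P := fun z => ∃ k, ∑ j, mi m j (p k) = z)
    ⟨0, fun z ⟨k, e⟩ => e ▸ sum_nonneg fun j _ => mpos k j⟩ ⟨_, 0, rfl⟩
  have one : ∀ k, p k = p k0 → 0 ≤ (om n m i0).w (p k0) (XK n m k) := fun k e => by
    have h1 := step k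
    have h2 := hM _ ⟨k + 1, rfl⟩
    rw [e, hk0] at h1
    omega
  have cst : ∀ k, k0 ≤ k → p k = p k0 := fun k hk => by
    induction k, hk using Nat.le_induction with
    | base => rfl
    | succ k _ ih =>
      have := one k ih
      rw [hs, ih, max_eq_right (by omega), zero_smul, sub_zero]
  have fin : ∀ k, k0 ≤ k → 0 ≤ (om n m i0).w (p k0) (XK n m k) := fun k hk => one k (cst k hk)
  refine ⟨k0, fin, ?_⟩
  have root : ∀ i, (om n m i0).w (p k0) (ro m i) ≤ 0 := fun i => by
    by_contra e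
    refine no_growth (fun r => (r : ℤ) * (om n m i0).w (p k0) (ro m i))
      ((om n m i0).w (p k0) (Xv m i k0)) (fun r => ?_) fun r => ?_
    · push_cast
      rw [add_mul]
      omega
    · have := fin ((k0 + r * (m + 1)) * (n + 1) + (n - i)) (((Nat.le_add_right _ _).trans
        (Nat.le_mul_of_pos_right _ (Nat.succ_pos n))).trans (Nat.le_add_right _ _))
      rw [dd_XK, dd_iter, map_sub, map_zsmul, smul_eq_mul] at this
      omega
  set μ : ℕ → ℤ := fun a => ∑ j : Fin (n + 1), if a = j + 1 then mi m j (p k0) else 0 with hμ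
  have hw : ∀ a : Fin (n + 2), (om n m i0).w (hv m a) (p k0) =
      μ (a + 1) - μ a + if i0 < a then 1 else 0 := fun a => by
    rw [w_hv, hyk, one_mul, hμ]
    simp only [← sum_sub_distrib]
    congr 1
    refine sum_congr rfl fun j _ => ?_
    simp only [Fin.ext_iff, Fin.val_castSucc, Fin.val_succ, Nat.add_right_cancel_iff]
    split_ifs <;> simp
  have key := concave_zero (n + 2) (i0 + 1) μ (by simp [hμ])
    (fun a ha => sum_eq_zero fun j _ => if_neg (by have := j.2; omega))
    (fun a => sum_nonneg fun j _ => by split_ifs; exacts [mpos _ _, le_rfl]) fun a ha => by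
      have h1 := root ⟨a, by omega⟩
      rw [ro, map_sub, (om n m i0).skew _ (hv m _), (om n m i0).skew (p k0) (hv m _), hw, hw] at h1
      simp only [Fin.val_castSucc, Fin.val_succ] at h1
      rw [show a + 1 + 1 = a + 2 from rfl] at h1
      split_ifs at h1 ⊢ <;> omega
  intro i
  have := key (i + 1)
  simpa [hμ, Fin.val_inj] using this

end Pool.Agent.Lib.MP_33bfb2_co.Th.Gr
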