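import Pool.Agent.Lib.MP_33bfb2_co.Th.ADefs2

namespace Pool.Agent.Lib.MP_33bfb2_co.Th.Gr

open Finset

section general
variable {L : Type} [AddCommGroup L]

/-- Stable sets of a family of vectors. -/
def Stab (ω : Skew L) {V : Type} (vec : V → L) (S : Finset V) : Prop :=
  ∀ x ∈ S, ∀ x' ∈ S, ω.w (vec x) (vec x') = 0

open Classical in
/-- The sum over stable sets with k elements. -/
noncomputable def ek (ω : Skew L) (C : Cone L) {V : Type} [Fintype V] (vec : V → L) (k : ℕ) :
    A ω C :=
  ∑ S ∈ (powersetCard k univ).filter (Stab ω vec), A.mon ω C (∑ x ∈ S, vec x)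

/-- The ordered product along a word. -/
noncomputable def ew (ω : Skew L) (C : Cone L) {V : Type} [Fintype V] (vec : V → L)
    (al : List ℕ) : A ω C := (al.map (ek ω C vec)).prod

/-- The element attached to a combination of pairs of words and a middle factor Z. -/
noncomputable def FF {ω : Skew L} {C : Cone L} {V : Type} [Fintype V] (vec : V → L)
    (φ : List ℕ × List ℕ →₀ K) (Z : A ω C) : A ω C :=
  φ.sum fun ab c => c • (ew ω C vec ab.1 * Z * ew ω C vec ab.2)

/-- The cone cut out by finitely many functionals without common kernel. -/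
def coneOf {κ : Type} [Fintype κ] (f : κ → L →+ ℤ) (hf : ∀ n, (∀ k, f k n = 0) → n = 0) :
    Cone L where
  car := { carrier := {n | ∀ k, 0 ≤ f k n}
           add_mem' := fun ha hb k => by rw [map_add]; exact add_nonneg (ha k) (hb k)
           zero_mem' := fun k => by simp }
  deg := ∑ k, f k
  pos n hn h0 := by
    rw [AddMonoidHom.finsetSum_apply]
    by_contra e
    refine h0 (hf n fun k => ?_)
    exact (sum_eq_zero_iff_of_nonneg fun k _ => hn k).1
      (le_antisymm (not_lt.1 e) (sum_nonneg fun k _ => hn k)) k (mem_univ k)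
  fin D := by
    refine Set.Finite.of_finite_image (f := fun n k => f k n)
      ((Set.Finite.pi' fun _ : κ => Set.finite_Icc (0 : ℤ) D).subset ?_) fun a _ b _ e => ?_
    · rintro _ ⟨n, ⟨h1, h2⟩, rfl⟩ k
      rw [AddMonoidHom.finsetSum_apply] at h2
      exact ⟨h1 k, (single_le_sum (fun k _ => h1 k) (mem_univ k)).trans h2⟩
    · exact sub_eq_zero.1 (hf _ fun k => by rw [map_sub, sub_eq_zero]; exact congrFun e k)

theorem mem_coneOf {κ : Type} [Fintype κ] {f : κ → L →+ ℤ} {hf} {n : L} :
    n ∈ (coneOf f hf).car ↔ ∀ k, 0 ≤ f k n := Iff.rfl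

/-- The functional with coefficient vector c. -/
def dot {ι : Type} [Fintype ι] (c : ι → ℤ) : (ι → ℤ) →+ ℤ where
  toFun n := ∑ x, c x * n x
  map_zero' := by simp
  map_add' a b := by simp [mul_add, sum_add_distrib]

theorem dot_apply {ι : Type} [Fintype ι] (c n : ι → ℤ) : dot c n = ∑ x, c x * n x := rfl

theorem dot_single {ι : Type} [Fintype ι] [DecidableEq ι] (c : ι → ℤ) (x : ι) :
    dot c (Pi.single x 1) = c x := by
  simp [dot_apply, Pi.single_apply]

/-- The skew form of a skew matrix. -/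
def skewOf {ι : Type} [Fintype ι] (W : ι → ι → ℤ) (h : ∀ x x', W x x' = - W x' x) :
    Skew (ι → ℤ) where
  w := { toFun := fun a => dot fun x' => ∑ x, a x * W x x'
         map_zero' := by ext; simp [dot_apply]
         map_add' := fun a b => by ext; simp [dot_apply, add_mul, sum_add_distrib] }
  alt a := by
    show ∑ x', (∑ x, a x * W x x') * a x' = 0
    have : ∑ x', (∑ x, a x * W x x') * a x' = - ∑ x', (∑ x, a x * W x x') * a x' := by
      simp only [sum_mul, ← sum_neg_distrib]
      rw [sum_comm]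
      exact sum_congr rfl fun x _ => sum_congr rfl fun x' _ => by rw [h x x']; ring
    omega

theorem skewOf_apply {ι : Type} [Fintype ι] (W : ι → ι → ℤ) (h) (a b : ι → ℤ) :
    (skewOf W h).w a b = ∑ x', (∑ x, a x * W x x') * b x' := rfl

theorem skewOf_single {ι : Type} [Fintype ι] [DecidableEq ι] (W : ι → ι → ℤ) (h) (x x' : ι) :
    (skewOf W h).w (Pi.single x 1) (Pi.single x' 1) = W x x' := by
  simp [skewOf_apply, Pi.single_apply]

end general

/-! ## The grid: heavy vertices 0 .. n+1, and m+1 light vertices in each of the n+1 gaps -/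

/-- Vertices. -/
abbrev Vt (n m : ℕ) : Type := Fin (n + 2) ⊕ Fin (n + 1) × Fin (m + 1)

/-- The lattice; none is the framing vector. -/
abbrev Lt (n m : ℕ) : Type := Option (Vt n m) → ℤ

variable {n m : ℕ}

/-- Integer part of the position. -/
def ip : Vt n m → ℕ
  | .inl a => a
  | .inr p => p.1

/-- Fractional part of the position, in units of 1 / (m + 2). -/
def fr : Vt n m → ℕ
  | .inl _ => 0
  | .inr p => p.2 + 1

/-- x is left of x' at distance less than one. -/
def Ar (x x' : Vt n m) : Prop :=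
  (ip x' = ip x ∧ fr x < fr x') ∨ (ip x' = ip x + 1 ∧ fr x' < fr x)

/-- x is right of the cut, which is just right of the heavy vertex i0. -/
def Rt (i0 : ℕ) (x : Vt n m) : Prop := i0 < ip x ∨ (ip x = i0 ∧ 0 < fr x)

instance (x x' : Vt n m) : Decidable (Ar x x') := by unfold Ar; infer_instance
instance (i0 : ℕ) (x : Vt n m) : Decidable (Rt i0 x) := by unfold Rt; infer_instance

/-- The pairing table. -/
def Wm (i0 : ℕ) : Option (Vt n m) → Option (Vt n m) → ℤ
  | none, none => 0
  | none, some x => if Rt i0 x then -1 else 0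
  | some x, none => if Rt i0 x then 1 else 0
  | some x, some x' => (if Ar x x' then 1 else 0) - (if Ar x' x then 1 else 0)

/-- The skew form. -/
def om (n m i0 : ℕ) : Skew (Lt n m) := skewOf (Wm i0) (by
  rintro (_ | x) (_ | x') <;> simp only [Wm] <;> (try split_ifs) <;> simp)

/-- Basis vectors. -/
def bs (x : Option (Vt n m)) : Lt n m := Pi.single x 1

/-- The framing vector. -/
def Yv (n m : ℕ) : Lt n m := bs none

/-- Heavy basis vectors. -/
def hv (m : ℕ) (a : Fin (n + 2)) : Lt n m := bs (some (.inl a))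

/-- Light basis vectors. -/
def lv (i : Fin (n + 1)) (ρ : Fin (m + 1)) : Lt n m := bs (some (.inr (i, ρ)))

/-- The root of gap i. -/
def ro (m : ℕ) (i : Fin (n + 1)) : Lt n m := hv m i.succ - hv m i.castSucc

/-- The label moved at time T in a cycle of length m + 1. -/
def mv (m T : ℕ) : Fin (m + 1) := ⟨m - T % (m + 1), by omega⟩

/-- The vertex vectors in the state s (s i moves were made in gap i). -/
def vec (s : Fin (n + 1) → ℕ) : Vt n m → Lt n m
  | .inl a => hv m a
  | .inr p => lv p.1 p.2 - (((s p.1 + p.2) / (m + 1) : ℕ) : ℤ) • ro m p.1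

/-- The mutation vector of move number T in gap i. -/
def Xv (m : ℕ) (i : Fin (n + 1)) (T : ℕ) : Lt n m :=
  lv i (mv m T) - ((T / (m + 1) : ℕ) : ℤ) • ro m i - hv m i.succ

/-- The framing coordinate. -/
def yy (n m : ℕ) : Lt n m →+ ℤ := dot fun x => if x = none then 1 else 0

/-- The total degree in the vertices. -/
def tot (n m : ℕ) : Lt n m →+ ℤ := dot fun x => if x = none then 0 else 1

/-- Coefficients of the suffix sums. -/
def cf (i : Fin (n + 1)) (T : ℕ) : Option (Vt n m) → ℤ
  | none => 0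
  | some (.inl a) => if (i : ℕ) < a then 1 else 0
  | some (.inr p) => if i < p.1 then 1 else if p.1 = i then ((T + p.2) / (m + 1) : ℕ) else 0

/-- The suffix sums. -/
def sg (m : ℕ) (i : Fin (n + 1)) (T : ℕ) : Lt n m →+ ℤ := dot (cf i T)

/-- The light mass of gap i. -/
def mi (m : ℕ) (i : Fin (n + 1)) : Lt n m →+ ℤ :=
  ∑ ρ : Fin (m + 1), Pi.evalAddMonoidHom (fun _ => ℤ) (some (.inr (i, ρ)))

/-- The functionals of the state s. -/
def fn (m : ℕ) (s : Fin (n + 1) → ℕ) : Bool ⊕ Fin (n + 1) × Fin (m + 2) → Lt n m →+ ℤ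
  | .inl true => yy n m
  | .inl false => tot n m
  | .inr p => sg m p.1 (s p.1 + p.2)

theorem add_div_le (T c : ℕ) (hc : c ≤ m + 1) :
    (T + c) / (m + 1) = T / (m + 1) + if m + 1 ≤ T % (m + 1) + c then 1 else 0 := by
  have h1 := Nat.div_add_mod T (m + 1)
  have h2 : T % (m + 1) < m + 1 := Nat.mod_lt T (Nat.succ_pos m)
  rw [show T + c = T % (m + 1) + c + (m + 1) * (T / (m + 1)) by omega,
    Nat.add_mul_div_left _ _ (Nat.succ_pos m), add_comm]
  congr 1
  split_ifs with h
  · exact Nat.div_eq_of_lt_le (by omega) (by omega)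
  · exact Nat.div_eq_of_lt (by omega)

theorem div_succ (T : ℕ) (ρ : Fin (m + 1)) :
    (T + 1 + ρ) / (m + 1) = (T + ρ) / (m + 1) + if ρ = mv m T then 1 else 0 := by
  have h2 : T % (m + 1) < m + 1 := Nat.mod_lt T (Nat.succ_pos m)
  have h3 := ρ.2
  rw [add_assoc, add_div_le T _ (by omega), add_div_le T _ (by omega)]
  simp only [Fin.ext_iff, mv]
  split_ifs <;> omega

theorem mv_surj (s : ℕ) (ρ : Fin (m + 1)) : ∃ t, t ≤ m ∧ mv m (s + t) = ρ := by
  have h2 : s % (m + 1) < m + 1 := Nat.mod_lt s (Nat.succ_pos m)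
  have h3 := ρ.2
  by_cases e : s % (m + 1) + ρ ≤ m
  · refine ⟨m - s % (m + 1) - ρ, by omega, Fin.ext ?_⟩
    simp only [mv]
    rw [← Nat.mod_add_mod, Nat.mod_eq_of_lt (a := _ + _) (by omega)]
    omega
  · refine ⟨2 * m + 1 - s % (m + 1) - ρ, by omega, Fin.ext ?_⟩
    simp only [mv]
    rw [← Nat.mod_add_mod, show s % (m + 1) + (2 * m + 1 - s % (m + 1) - ρ) = m - ρ + (m + 1) by
      omega, Nat.add_mod_right, Nat.mod_eq_of_lt (a := m - ρ) (by omega)]
    omega

theorem sg_succ (i : Fin (n + 1)) (T : ℕ) (p : Lt n m) :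
    sg m i (T + 1) p = sg m i T p + p (some (.inr (i, mv m T))) := by
  have : cf (m := m) i (T + 1) = cf i T + Pi.single (some (.inr (i, mv m T))) 1 := by
    funext x
    rcases x with _ | a | ⟨j, ρ⟩
    · simp [cf]
    · simp [cf]
    · simp only [cf, Pi.add_apply, Pi.single_apply, Option.some.injEq, Sum.inr.injEq, Prod.mk.injEq]
      by_cases e : j = i
      · subst e
        simp [div_succ]
      · simp [e]
  simp [sg, dot_apply, this, add_mul, sum_add_distrib, Pi.single_apply]

theorem fn_inj (s : Fin (n + 1) → ℕ) (p : Lt n m) (h : ∀ k, fn m s k p = 0) : p = 0 := by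
  have hl : ∀ q, p (some (.inr q)) = 0 := by
    rintro ⟨i, ρ⟩
    obtain ⟨t, ht, rfl⟩ := mv_surj (s i) ρ
    have a := h (.inr (i, ⟨t, by omega⟩))
    have b := h (.inr (i, ⟨t + 1, by omega⟩))
    simp only [fn] at a b
    rw [← add_assoc, sg_succ] at b
    omega
  have hs : ∀ c : ℕ, ∑ a : Fin (n + 2), (if c ≤ (a : ℕ) then p (some (.inl a)) else 0) = 0 := by
    intro c
    rcases c with _ | c
    · have := h (.inl false)
      simpa [fn, tot, dot_apply, Fintype.sum_option, Fintype.sum_sum_type, hl] using this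
    · by_cases e : c < n + 1
      · have := h (.inr (⟨c, e⟩, 0))
        simpa [fn, sg, cf, dot_apply, Fintype.sum_option, Fintype.sum_sum_type, hl,
          Nat.succ_le_iff] using this
      · exact sum_eq_zero fun a _ => if_neg (by omega)
  funext x
  rcases x with _ | a | q
  · simpa [fn, yy, dot_apply] using h (.inl true)
  · have := hs a
    rw [sum_congr rfl (g := fun b : Fin (n + 2) => (if (a : ℕ) + 1 ≤ b then p (some (.inl b)) else 0)
      + if b = a then p (some (.inl b)) else 0) fun b _ => by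
        simp only [Fin.ext_iff]
        split_ifs <;> omega, sum_add_distrib, hs] at this
    simpa using this
  · exact hl q

/-- The cone of the state s. -/
def Cn (m : ℕ) (s : Fin (n + 1) → ℕ) : Cone (Lt n m) := coneOf (fn m s) (fn_inj s)

theorem mem_Cn {s : Fin (n + 1) → ℕ} {p : Lt n m} : p ∈ (Cn m s).car ↔
    0 ≤ yy n m p ∧ 0 ≤ tot n m p ∧ ∀ i t, t ≤ m + 1 → 0 ≤ sg m i (s i + t) p := by
  refine ⟨fun h => ⟨h (.inl true), h (.inl false), fun i t ht => h (.inr (i, ⟨t, by omega⟩))⟩,
    fun h k => ?_⟩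
  rcases k with (_ | _) | ⟨i, t⟩
  exacts [h.2.1, h.1, h.2.2 i t (by omega)]

/-- The face number t, counted from the right, of gap i after s moves. -/
def face (m : ℕ) (i : Fin (n + 1)) (s t : ℕ) : Lt n m :=
  (if t = 0 then 0 else Xv m i (s + t - 1)) - if t = m + 1 then - ro m i else Xv m i (s + t)

/-- The faces of the state s. -/
def Fs (m : ℕ) (s : Fin (n + 1) → ℕ) : Finset (Lt n m) :=
  univ.image fun p : Fin (n + 1) × Fin (m + 2) => face m p.1 (s p.1) p.2

/-- A move in gap i is allowed in the state s. -/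
def Ok (s : Fin (n + 1) → ℕ) (i : Fin (n + 1)) : Prop :=
  ∀ i' : Fin (n + 1), ((i' : ℕ) = i + 1 → s i' = s i + 1) ∧ ((i' : ℕ) + 1 = i → s i' = s i)

/-- The state after a move in gap i. -/
def up (s : Fin (n + 1) → ℕ) (i : Fin (n + 1)) : Fin (n + 1) → ℕ := Function.update s i (s i + 1)

/-- The state at time k. -/
def st (n k : ℕ) : Fin (n + 1) → ℕ := fun i => (k + i) / (n + 1)

/-- The mutation vector at time k. -/
def XK (n m k : ℕ) : Lt n m := Xv m (mv n k) (st n k (mv n k))

end Pool.Agent.Lib.MP_33bfb2_co.Th.Gr
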