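import Pool.Agent.Lib.MP_33bfb2_co.Th.G1
import Pool.Agent.Lib.MP_33bfb2_co.Th.DDefs

namespace Pool.Agent.Lib.MP_33bfb2_co.Th.Gr

open Finset

variable {L : Type} [AddCommGroup L] {ω : Skew L} {C C' : Cone L} {V : Type} [Fintype V]

/-! ## File DE (imports G1, DDefs): sums over stable sets -/

theorem de_sum_f {ι : Type} (s : Finset ι) (a : ι → A ω C) (p : L) :
    (∑ i ∈ s, a i).f p = ∑ i ∈ s, (a i).f p := by
  rw [show (∑ i ∈ s, a i).f = ∑ i ∈ s, (a i).f from map_sum A.fHom a s, Finset.sum_apply]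

theorem de_mon_ne {n p : L} (h : (A.mon ω C n).f p ≠ 0) : p = n := by
  by_contra e
  exact h (by simp [A.mon, e])

theorem de_ek_ne {vec : V → L} {k : ℕ} {p : L} (h : (ek ω C vec k).f p ≠ 0) :
    ∃ S : Finset V, p = ∑ x ∈ S, vec x := by
  rw [ek, de_sum_f] at h
  obtain ⟨S, -, hS⟩ := exists_ne_zero_of_sum_ne_zero h
  exact ⟨S, de_mon_ne hS⟩

theorem ek_f_congr {vec : V → L} (h : ∀ x, vec x ∈ C.car) (h' : ∀ x, vec x ∈ C'.car) (k : ℕ) :
    (ek ω C' vec k).f = (ek ω C vec k).f := by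
  classical
  funext p
  rw [ek, ek, de_sum_f, de_sum_f]
  refine sum_congr rfl fun S _ => ?_
  rw [A.mon_f (sum_mem fun x _ => h x), A.mon_f (sum_mem fun x _ => h' x)]

theorem ek_fin (vec : V → L) (k : ℕ) : (Function.support (ek ω C vec k).f).Finite :=
  (Set.finite_range fun S : Finset V => ∑ x ∈ S, vec x).subset fun _ hp =>
    let ⟨S, e⟩ := de_ek_ne hp
    ⟨S, e.symm⟩

theorem ek_in (S : AddSubmonoid L) {vec : V → L} (h : ∀ x, vec x ∈ S) (k : ℕ) :
    (ek ω C vec k).In S := fun p hp => by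
  obtain ⟨T, rfl⟩ := de_ek_ne hp
  exact sum_mem fun x _ => h x

theorem ek_res {H : Type} [Fintype H] (e : H ↪ V) {vec : V → L} (μ : L →+ ℚ)
    (h0 : ∀ a, μ (vec (e a)) = 0) (h1 : ∀ x, x ∉ Set.range e → 0 < μ (vec x)) (k : ℕ) :
    (ek ω C vec k).res {n | μ n = 0} = ek ω C (vec ∘ e) k := by
  classical
  have nn : ∀ x, 0 ≤ μ (vec x) := fun x => by
    by_cases c : x ∈ Set.range e
    · obtain ⟨a, rfl⟩ := c
      exact (h0 a).ge
    · exact (h1 x c).le
  ext p : 2
  by_cases hp : μ p = 0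
  swap
  · rw [A.res_of_not (S := {n | μ n = 0}) _ hp]
    symm
    refine by_contra fun c => hp ?_
    obtain ⟨S, rfl⟩ := de_ek_ne c
    rw [map_sum]
    exact sum_eq_zero fun a _ => h0 a
  rw [A.res_of_mem (S := {n | μ n = 0}) _ hp, ek, ek, de_sum_f, de_sum_f]
  refine (sum_of_injOn (fun S : Finset H => S.map e) (fun _ _ _ _ c => map_injective e c) ?_ ?_
    ?_).symm
  · intro S hS
    simp only [mem_coe, mem_filter, mem_powersetCard_univ, card_map] at hS ⊢
    refine ⟨hS.1, fun x hx x' hx' => ?_⟩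
    obtain ⟨a, ha, rfl⟩ := mem_map.1 hx
    obtain ⟨a', ha', rfl⟩ := mem_map.1 hx'
    exact hS.2 a ha a' ha'
  · intro S hS c
    by_contra z
    have e1 := de_mon_ne z
    rw [e1, map_sum, sum_eq_zero_iff_of_nonneg fun x _ => nn x] at hp
    have sub : ∀ x ∈ S, x ∈ Set.range e := fun x hx => by_contra fun c => (h1 x c).ne' (hp x hx)
    have e2 : (S.preimage e e.injective.injOn).map e = S := by
      ext x
      simp only [mem_map, mem_preimage]
      exact ⟨fun ⟨a, ha, c⟩ => c ▸ ha, fun hx => let ⟨a, c⟩ := sub x hx; ⟨a, c ▸ hx, c⟩⟩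
    refine c ⟨_, ?_, e2⟩
    simp only [coe_filter, mem_filter, mem_powersetCard_univ, Set.mem_ofPred_eq] at hS ⊢
    refine ⟨by rw [← hS.1, ← card_map e, e2], fun a ha a' ha' => ?_⟩
    exact hS.2 _ (mem_preimage.1 ha) _ (mem_preimage.1 ha')
  · intro S _
    rw [sum_map]
    rfl

theorem de_Ad_in {X : L} {g : G ω C} (hg : g.1.In (AddMonoidHom.mker (ω.w.flip X))) {c : ℤ}
    {a : A ω C} (ha : a.In {q | ω.w q X = c}) : (Ad g a).In {q | ω.w q X = c} := by
  refine A.In.mul (S := {q | ω.w q X = c}) (hg.mul ha fun m hm n hn => ?_) (A.In.inv _ hg)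
    fun m hm n hn => ?_
  · have h1 : ω.w m X = 0 := hm
    have h2 : ω.w n X = c := hn
    simp [h1, h2]
  · have h1 : ω.w m X = c := hm
    have h2 : ω.w n X = 0 := hn
    simp [h1, h2]

theorem de_EE_in (X : L) : (EE ω C X).1.In (AddMonoidHom.mker (ω.w.flip X)) :=
  (gen_in (true, 0, X)).mono fun n hn => by
    obtain ⟨j, rfl⟩ := hn
    show ω.w (j • X) X = 0
    simp [ω.alt]

theorem de_mon_in {n X : L} {c : ℤ} (h : ω.w n X = c) : (A.mon ω C n).In {q | ω.w q X = c} :=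
  fun _ hp => de_mon_ne hp ▸ h

theorem de_ext {X : L} {c : ℤ} {a b : A ω C} (ha : a.In {q | ω.w q X = c})
    (hb : b.In {q | ω.w q X = c}) (h : ∀ p, ω.w p X = c → a.f p = b.f p) : a = b := by
  ext p : 2
  by_cases e : ω.w p X = c
  · exact h p e
  · rw [not_not.1 (mt (ha p) e), not_not.1 (mt (hb p) e)]

theorem de_two {n X : L} (hX : X ∈ C.car) (hn : n ∈ C.car) {c : ℤ} (h : ω.w n X = c)
    {a : A ω C} (ha : a.In {q | ω.w q X = c}) (e : ∀ p, ω.w p X = c →
      a.f p = ∑ j ∈ range (1 + 1), qb 1 j * (A.mon ω C n).f (p - j • X)) :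
    a = A.mon ω C n + A.mon ω C (n + X) := by
  classical
  refine de_ext ha (fun p hp => ?_) fun p hp => ?_
  · by_contra z
    have h2 : ω.w (n + X) X = c := by simp [h, ω.alt]
    exact hp (by
      rw [A.add_f, Pi.add_apply, not_not.1 (mt (de_mon_in h p) z),
        not_not.1 (mt (de_mon_in h2 p) z), add_zero])
  · rw [e p hp, A.add_f, Pi.add_apply, A.mon_f (C.car.add_mem hn hX)]
    simp [sum_range_succ, qb_zero, qb_one_one, A.mon_f hn, sub_eq_iff_eq_add]

theorem de_Ad_zero {n X : L} (hX : X ∈ C.car) (h0 : X ≠ 0) (h : ω.w n X = 0) :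
    Ad (EE ω C X) (A.mon ω C n) = A.mon ω C n :=
  de_ext (de_Ad_in (de_EE_in X) (de_mon_in h)) (de_mon_in h) fun p hp => by
    rw [Ad_EE hX h0 _ (m := 0) (by simpa using hp)]
    simp [qb_zero]

theorem de_Ad_neg {n X : L} (hX : X ∈ C.car) (h0 : X ≠ 0) (hn : n ∈ C.car) (h : ω.w n X = -1) :
    Ad (EE ω C X) (A.mon ω C n) = A.mon ω C n + A.mon ω C (n + X) :=
  de_two hX hn h (de_Ad_in (de_EE_in X) (de_mon_in h)) fun _ hp => Ad_EE hX h0 _ (m := 1) hp

theorem de_Ad_pos {n X : L} (hX : X ∈ C.car) (h0 : X ≠ 0) (hn : n ∈ C.car) (h : ω.w n X = 1) :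
    Ad (EE ω C X) (A.mon ω C n + A.mon ω C (n + X)) = A.mon ω C n := by
  rw [← de_two hX hn h (de_Ad_in (A.In.inv _ (de_EE_in X)) (de_mon_in h))
    fun _ hp => Ad_EE_inv hX h0 _ (m := 1) hp]
  simp only [Ad, inv_inv, ← mul_assoc, G.mul_inv_val, one_mul]
  rw [mul_assoc, G.mul_inv_val, mul_one]

omit [Fintype V] in
theorem de_stab_insert [DecidableEq V] {vec : V → L} {c : V} {T : Finset V} :
    Stab ω vec (insert c T) ↔ (∀ x ∈ T, ω.w (vec x) (vec c) = 0) ∧ Stab ω vec T := by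
  simp only [Stab, forall_mem_insert, ω.alt, true_and]
  refine ⟨fun h => ⟨fun x hx => (h.2 x hx).1, fun x hx => (h.2 x hx).2⟩,
    fun h => ⟨fun x hx => ?_, fun x hx => ⟨h.1 x hx, h.2 x hx⟩⟩⟩
  rw [ω.skew, h.1 x hx, neg_zero]

open Classical in
theorem de_split [DecidableEq V] {vec : V → L} {X : L} {c d j : V} (hcj : c ≠ j) (hcd : c ≠ d)
    (hj : vec j = vec c + X)
    (hw : ∀ x, x ≠ c → x ≠ d → x ≠ j → ω.w (vec x) X = 0) (hc : ω.w (vec c) X ≠ 0)
    (hd : ω.w (vec d) X ≠ 0) (h0 : ω.w (vec d) (vec c) = 0) (k : ℕ) :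
    ek ω C vec k = ∑ S ∈ (powersetCard k univ).filter (fun S => Stab ω vec S ∧ j ∉ S),
      (A.mon ω C (∑ x ∈ S, vec x) +
        if c ∈ S ∧ d ∉ S then A.mon ω C (∑ x ∈ S, vec x + X) else 0) := by
  have key : ∀ T : Finset V, c ∉ T → d ∉ T → j ∉ T →
      (Stab ω vec (insert j T) ↔ Stab ω vec (insert c T)) := fun T h1 h2 h3 => by
    rw [de_stab_insert, de_stab_insert]
    refine and_congr_left' (forall₂_congr fun x hx => ?_)
    rw [hj, map_add, hw x (ne_of_mem_of_not_mem hx h1) (ne_of_mem_of_not_mem hx h2)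
      (ne_of_mem_of_not_mem hx h3), add_zero]
  have out : ∀ S : Finset V, Stab ω vec S → j ∈ S → c ∉ S ∧ d ∉ S := fun S hS h =>
    ⟨fun e => hc (by simpa [hj, ω.alt] using hS c e j h),
      fun e => hd (by simpa [hj, h0] using hS d e j h)⟩
  rw [sum_add_distrib, ← sum_filter, ek, ← sum_filter_not_add_sum_filter _ fun S => j ∈ S,
    filter_filter, filter_filter, filter_filter]
  congr 1
  refine sum_nbij' (fun S => insert c (S.erase j)) (fun S => insert j (S.erase c)) ?_ ?_ ?_ ?_ ?_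
  · intro S hS
    simp only [mem_filter, mem_powersetCard_univ] at hS ⊢
    obtain ⟨h1, h2, h3⟩ := hS
    obtain ⟨o1, o2⟩ := out S h2 h3
    have o3 : c ∉ S.erase j := fun e => o1 (mem_of_mem_erase e)
    refine ⟨by rw [card_insert_of_notMem o3, card_erase_add_one h3, h1],
      ⟨(key _ o3 (fun e => o2 (mem_of_mem_erase e)) (notMem_erase _ _)).1
        (by rwa [insert_erase h3]), by simp [hcj.symm]⟩, mem_insert_self _ _,
      by simp [hcd.symm, o2]⟩
  · intro S hS
    simp only [mem_filter, mem_powersetCard_univ] at hS ⊢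
    obtain ⟨h1, ⟨h2, h3⟩, h4, h5⟩ := hS
    have o3 : j ∉ S.erase c := fun e => h3 (mem_of_mem_erase e)
    exact ⟨by rw [card_insert_of_notMem o3, card_erase_add_one h4, h1],
      (key _ (notMem_erase _ _) (fun e => h5 (mem_of_mem_erase e)) o3).2
        (by rwa [insert_erase h4]), mem_insert_self _ _⟩
  · intro S hS
    simp only [mem_filter, mem_powersetCard_univ] at hS
    rw [erase_insert fun e => (out S hS.2.1 hS.2.2).1 (mem_of_mem_erase e), insert_erase hS.2.2]
  · intro S hS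
    simp only [mem_filter, mem_powersetCard_univ] at hS
    rw [erase_insert fun e => hS.2.1.2 (mem_of_mem_erase e), insert_erase hS.2.2.1]
  · intro S hS
    simp only [mem_filter, mem_powersetCard_univ] at hS
    rw [sum_insert fun e => (out S hS.2.1 hS.2.2).1 (mem_of_mem_erase e),
      ← add_sum_erase _ _ hS.2.2, hj, add_right_comm]

theorem ek_mut [DecidableEq V] {vec vec' : V → L} {X : L} {a j b : V} (hX : X ∈ C.car)
    (h0 : X ≠ 0) (hm : ∀ x, vec x ∈ C.car) (haj : a ≠ j) (hab : a ≠ b) (hjb : j ≠ b)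
    (hne : ∀ x, x ≠ j → vec' x = vec x) (hj : vec j = vec a + X) (hj' : vec' j = vec b + X)
    (hw : ∀ x, ω.w (vec x) X = if x = a ∨ x = j then 1 else if x = b then -1 else 0)
    (hab0 : ω.w (vec a) (vec b) = 0) (k : ℕ) :
    ek ω C vec' k = Ad (EE ω C X) (ek ω C vec k) := by
  classical
  have wa : ω.w (vec a) X = 1 := by simp [hw]
  have wb : ω.w (vec b) X = -1 := by simp [hw, hab.symm, hjb.symm]
  rw [de_split (vec := vec) haj hab hj (fun x h1 h2 h3 => by simp [hw, h1, h2, h3])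
      (by simp [wa]) (by simp [wb]) (by rw [ω.skew, hab0, neg_zero]) k,
    de_split (vec := vec') (X := X) hjb.symm hab.symm (by rw [hj', hne b hjb.symm])
      (fun x h1 h2 h3 => by simp [hne x h3, hw, h1, h2, h3]) (by simp [hne b hjb.symm, wb])
      (by simp [hne a haj, wa]) (by rw [hne a haj, hne b hjb.symm, hab0]) k,
    Ad, mul_sum, sum_mul]
  have nj : ∀ S : Finset V, j ∉ S → ∀ x ∈ S, vec' x = vec x := fun S h x hx =>
    hne x (ne_of_mem_of_not_mem hx h)
  refine sum_congr (filter_congr fun S _ => and_congr_left fun h =>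
    forall₂_congr fun x hx => forall₂_congr fun x' hx' => by rw [nj S h x hx, nj S h x' hx'])
    fun S hS => ?_
  have h3 : j ∉ S := (mem_filter.1 hS).2.2
  have hn : ∑ x ∈ S, vec x ∈ C.car := sum_mem fun x _ => hm x
  have e : ω.w (∑ x ∈ S, vec x) X = (if a ∈ S then 1 else 0) - if b ∈ S then 1 else 0 := by
    rw [← sum_ite_eq' S a fun _ => (1 : ℤ), ← sum_ite_eq' S b fun _ => (1 : ℤ),
      ← sum_sub_distrib, map_sum, AddMonoidHom.finsetSum_apply]
    refine sum_congr rfl fun x hx => ?_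
    have := ne_of_mem_of_not_mem hx h3
    rw [hw]
    by_cases c : x = a
    · simp [c, hab]
    · by_cases c' : x = b <;> simp [c, c', this, hab.symm, hjb.symm]
  rw [sum_congr rfl (nj S h3)]
  change _ = Ad _ _
  by_cases c : a ∈ S <;> by_cases c' : b ∈ S <;> simp only [c, c', if_true, if_false, not_true,
    not_false_iff, and_true, and_false, and_self, add_zero, sub_self,
    sub_zero, zero_sub] at e ⊢
  exacts [(de_Ad_zero hX h0 e).symm, (de_Ad_pos hX h0 hn e).symm, (de_Ad_neg hX h0 hn e).symm,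
    (de_Ad_zero hX h0 e).symm]

end Pool.Agent.Lib.MP_33bfb2_co.Th.Gr
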