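import Pool.Agent.Lib.MP_33bfb2_co.Th.DE

namespace Pool.Agent.Lib.MP_33bfb2_co.Th.Gr

open Finset

variable {L : Type} [AddCommGroup L] {ω : Skew L} {C C' : Cone L} {V : Type} [Fintype V]

/-! ## File DF (imports DE): evaluation on the heavy face -/

/-- Restriction as a linear map. -/
noncomputable def resL (ω : Skew L) (C : Cone L) (S : Set L) : A ω C →ₗ[K] A ω C where
  toFun := A.res S
  map_add' a b := by
    ext n : 2
    by_cases h : n ∈ S <;> simp [A.res_of_mem, A.res_of_not, h]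
  map_smul' c a := by
    ext n : 2
    by_cases h : n ∈ S <;> simp [A.res_of_mem, A.res_of_not, h]

theorem sum_f {α : Type} (s : Finset α) (a : α → A ω C) (n : L) :
    (∑ i ∈ s, a i).f n = ∑ i ∈ s, (a i).f n := by
  have := congrFun (map_sum (A.fHom (ω := ω) (C := C)) a s) n
  rwa [Finset.sum_apply] at this

theorem in_sum {α : Type} {s : Finset α} {a : α → A ω C} {S : Set L} (h : ∀ i ∈ s, (a i).In S) :
    (∑ i ∈ s, a i).In S := fun n hn => by
  rw [sum_f] at hn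
  obtain ⟨i, hi, e⟩ := exists_ne_zero_of_sum_ne_zero hn
  exact h i hi n e

theorem in_smul (c : K) {a : A ω C} {S : Set L} (h : a.In S) : (c • a).In S := fun n hn =>
  h n fun e => hn (by simp [e])

theorem mon_in {Y : L} {S : Set L} (h : Y ∈ S) : (A.mon ω C Y).In S := fun n hn => by
  by_contra e
  exact hn (if_neg fun e' : n = Y ∧ Y ∈ C.car => e (e'.1 ▸ h))

theorem ew_in (S : AddSubmonoid L) {vec : V → L} (h : ∀ x, vec x ∈ S) (al : List ℕ) :
    (ew ω C vec al).In S := by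
  induction al with
  | nil => exact A.one_in S.zero_mem
  | cons k al ih => exact (ek_in S h k).mul_sub S ih

theorem FF_in {S : AddSubmonoid L} {T : Set L} {vec : V → L} (h : ∀ x, vec x ∈ S) {Z : A ω C}
    (hZ : Z.In T) (hT : ∀ a ∈ S, ∀ b ∈ T, a + b ∈ T) (φ : List ℕ × List ℕ →₀ K) :
    (FF vec φ Z).In T :=
  in_sum fun ab _ => in_smul _ (((ew_in S h ab.1).mul hZ hT).mul (ew_in S h ab.2)
    fun a ha b hb => add_comm b a ▸ hT b hb a ha)

theorem ew_f_congr {vec : V → L} (h : ∀ x, vec x ∈ C.car) (h' : ∀ x, vec x ∈ C'.car)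
    (al : List ℕ) : (ew ω C' vec al).f = (ew ω C vec al).f := by
  induction al with
  | nil => rfl
  | cons k al ih => exact mul_f_congr (ek_f_congr h h' k) ih

theorem FF_f_congr {vec : V → L} (h : ∀ x, vec x ∈ C.car) (h' : ∀ x, vec x ∈ C'.car)
    (φ : List ℕ × List ℕ →₀ K) {Z : A ω C} {Z' : A ω C'} (hZ : Z'.f = Z.f) :
    (FF vec φ Z').f = (FF vec φ Z).f := by
  funext n
  simp only [FF, Finsupp.sum, sum_f, A.smul_f, Pi.smul_apply]
  exact sum_congr rfl fun ab _ => by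
    rw [mul_f_congr (mul_f_congr (ew_f_congr h h' ab.1) hZ) (ew_f_congr h h' ab.2)]

section res
variable {H : Type} [Fintype H] (e : H ↪ V) {vec : V → L} (μ : L →+ ℚ)
  (h0 : ∀ a, μ (vec (e a)) = 0) (h1 : ∀ x, x ∉ Set.range e → 0 < μ (vec x))
include h0 h1

omit [Fintype V] [Fintype H] in
theorem vec_nonneg (x : V) : vec x ∈ nonneg μ := by
  show 0 ≤ μ (vec x)
  by_cases h : x ∈ Set.range e
  · obtain ⟨a, rfl⟩ := h
    exact (h0 a).ge
  · exact (h1 x h).le

theorem ew_res (al : List ℕ) :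
    (ew ω C vec al).res {n | μ n = 0} = ew ω C (vec ∘ e) al := by
  induction al with
  | nil => exact A.res_eq_self (A.one_in (map_zero μ))
  | cons k al ih =>
    have := A.res_mul μ (ek_in (ω := ω) (C := C) (nonneg μ) (vec_nonneg e μ h0 h1) k)
      (ew_in (nonneg μ) (vec_nonneg e μ h0 h1) al)
    rw [ek_res e μ h0 h1, ih] at this
    exact this

theorem FF_res (φ : List ℕ × List ℕ →₀ K) {Z : A ω C} (hZ : Z.In {n | 0 ≤ μ n}) :
    (FF vec φ Z).res {n | μ n = 0} = FF (vec ∘ e) φ (Z.res {n | μ n = 0}) := by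
  have hv := vec_nonneg e μ h0 h1
  show resL ω C _ _ = _
  simp only [FF, Finsupp.sum, map_sum, map_smul]
  refine sum_congr rfl fun ab _ => congrArg _ ?_
  show A.res _ _ = _
  rw [A.res_mul μ ((ew_in (nonneg μ) hv ab.1).mul_sub (nonneg μ) hZ) (ew_in (nonneg μ) hv ab.2),
    A.res_mul μ (ew_in (nonneg μ) hv ab.1) hZ, ew_res e μ h0 h1, ew_res e μ h0 h1]

end res

/-- The twist by a power of t that is linear in the exponent. -/
noncomputable def tw (Y : L) (b : A ω C) : A ω C :=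
  ⟨fun n => tp (2 * ω.w n Y) * b.f n, fun n h => b.supp n fun e => h (by simp [e])⟩

theorem mul_eq_tw (Y : L) {S T : Set L} {Z b : A ω C} (hb : b.In S) (hZ : Z.In T)
    (h : ∀ a ∈ S, ∀ n ∈ T, ω.w a n = ω.w a Y) : Z * b = tw Y b * Z := by
  ext n : 2
  rw [A.mul_apply, A.mul_apply]
  refine sum_nbij' (fun l => n - l) (fun l => n - l) ?_ ?_ ?_ ?_ ?_
  · intro l hl
    simpa [Cone.mem_box, and_comm] using hl
  · intro l hl
    simpa [Cone.mem_box, and_comm] using hl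
  · intro l _; simp
  · intro l _; simp
  · intro l _
    simp only [tw, sub_sub_cancel]
    by_cases e1 : Z.f l = 0
    · simp [e1]
    by_cases e2 : b.f (n - l) = 0
    · simp [e2]
    have e3 := h _ (hb _ e2) _ (hZ _ e1)
    have e4 : tp (- ω.w l n) = tp (- ω.w (n - l) n) * tp (2 * ω.w (n - l) Y) := by
      rw [← tp_add, ← e3]
      congr 1
      simp only [map_sub, AddMonoidHom.sub_apply, ω.alt, ω.skew n l]
      ring
    rw [e4]
    ring

theorem tw_zero (b : A ω C) : tw 0 b = b := by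
  ext n : 2
  simp [tw, tp_zero]

theorem pos_mul {a b : A ω C} (ha : ∀ q, Pos (a.f q)) (hb : ∀ q, Pos (b.f q)) (q : L) :
    Pos ((a * b).f q) := by
  rw [A.mul_apply]
  exact Pos.sum _ fun l _ => ((Pos.tp _).mul (ha _)).mul (hb _)

theorem pos_of_mul_mon {a : A ω C} {Y : L} (hY : Y ∈ C.car)
    (h : ∀ q, Pos ((a * A.mon ω C Y).f q)) (q : L) : Pos (a.f q) := by
  classical
  have := (Pos.tp (ω.w q (q + Y))).mul (h (q + Y))
  rwa [A.mul_f, conv, finsum_eq_single _ q fun l hl => by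
    rw [A.mon_f hY, if_neg fun e => hl (add_left_cancel (a := Y) (by
      rw [← sub_eq_iff_eq_add.1 e, add_comm])), mul_zero],
    A.mon_f hY, if_pos (by simp), mul_one, ← mul_assoc, ← tp_add, add_neg_cancel, tp_zero,
    one_mul] at this

theorem FF_eq_mul {vec : V → L} (φ : List ℕ × List ℕ →₀ K) (Y : L) {T : Set L} {Z : A ω C}
    (hZ : Z.In T) (h : ∀ n ∈ T, ∀ x, ω.w (vec x) n = ω.w (vec x) Y) :
    FF vec φ Z = (φ.sum fun ab c => c • (ew ω C vec ab.1 * tw Y (ew ω C vec ab.2))) * Z := by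
  simp only [FF, Finsupp.sum, sum_mul]
  refine sum_congr rfl fun ab _ => ?_
  rw [smul_mul_assoc, mul_assoc, mul_assoc, mul_eq_tw Y
    (ew_in (AddSubmonoid.closure (Set.range vec))
      (fun x => AddSubmonoid.subset_closure ⟨x, rfl⟩) ab.2) hZ fun a ha n hn => ?_]
  induction ha using AddSubmonoid.closure_induction with
  | mem a ha => obtain ⟨x, rfl⟩ := ha; exact h n hn x
  | zero => simp
  | add a b _ _ ha hb => simp [ha, hb]

theorem eval_pos {H : Type} [Fintype H] (e : H ↪ V) {vec : V → L} (μ : L →+ ℚ) (y : L →+ ℤ)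
    (T : AddSubmonoid L) {Y : L} (hY : Y ∈ C.car)
    (hT : ∀ x, vec x ∈ T) (hμ : ∀ n ∈ T, 0 ≤ μ n)
    (h0 : ∀ a, μ (vec (e a)) = 0) (h1 : ∀ x, x ∉ Set.range e → 0 < μ (vec x))
    (hw : ∀ n ∈ T, μ n = 0 → ∀ a, ω.w (vec (e a)) n = y n * ω.w (vec (e a)) Y)
    {c : G ω C} (hc : c.1.In T) (hcy : c.1.In {n | y n = 0})
    {Z : A ω C} (hZ : Z.In T) (hZy : Z.In {n | y n = 1}) (hpos : ∀ q, Pos ((Ad c Z).f q))
    (φ : List ℕ × List ℕ →₀ K) (hφ : ∀ q, Pos ((FF (vec ∘ e) φ (A.mon ω C Y)).f q))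
    {p : L} (hp : μ p = 0) : Pos ((Ad c (FF vec φ Z)).f p) := by
  have hc' := A.In.inv T hc
  have hF : (FF vec φ Z).In T := FF_in hT hZ (fun a ha b hb => T.add_mem ha hb) φ
  rw [FF_eq_mul φ Y (mon_in (S := {Y}) rfl) (by rintro _ rfl x; rfl)] at hφ
  set Φ := φ.sum fun ab c => c • (ew ω C (vec ∘ e) ab.1 * tw Y (ew ω C (vec ∘ e) ab.2)) with hΦ
  have hE : ∀ al, (ew ω C (vec ∘ e) al).In (AddSubmonoid.closure (Set.range (vec ∘ e))) :=
    ew_in _ fun x => AddSubmonoid.subset_closure (Set.mem_range_self x)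
  have hS : Φ.In (AddSubmonoid.closure (Set.range (vec ∘ e))) := in_sum fun ab _ => in_smul _
    ((hE ab.1).mul_sub _ fun n hn => hE ab.2 n fun e' => hn (by simp [tw, e']))
  have comm : c.1.res {n | μ n = 0} * Φ = Φ * c.1.res {n | μ n = 0} := by
    rw [mul_eq_tw 0 hS (Z := c.1.res {n | μ n = 0}) (T := {n | n ∈ T ∧ μ n = 0 ∧ y n = 0}) (fun n hn =>
      ⟨hc n (A.res_ne_zero hn).2, (A.res_ne_zero hn).1, hcy n (A.res_ne_zero hn).2⟩)
      fun a ha n hn => ?_, tw_zero]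
    induction ha using AddSubmonoid.closure_induction with
    | mem a ha => obtain ⟨x, rfl⟩ := ha; simpa [hn.2.2] using hw n hn.1 hn.2.1 x
    | zero => simp
    | add a b _ _ ha hb => simp only [map_add, AddMonoidHom.add_apply, ha, hb]
  rw [← A.res_of_mem (S := {n | μ n = 0}) _ hp, Ad,
    A.res_mul μ ((hc.mul_sub T hF).mono hμ) (hc'.mono hμ), A.res_mul μ (hc.mono hμ) (hF.mono hμ),
    FF_res e μ h0 h1 φ (hZ.mono hμ), FF_eq_mul φ Y (T := {n | n ∈ T ∧ μ n = 0 ∧ y n = 1})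
      (Z := Z.res {n | μ n = 0})
      (fun n hn => ⟨hZ n (A.res_ne_zero hn).2, (A.res_ne_zero hn).1, hZy n (A.res_ne_zero hn).2⟩)
      (fun n hn x => by simpa [hn.2.2] using hw n hn.1 hn.2.1 x), ← hΦ, ← mul_assoc, comm,
    mul_assoc, mul_assoc, ← mul_assoc _ (Z.res _), ← A.res_mul μ (hc.mono hμ) (hZ.mono hμ),
    ← A.res_mul μ ((hc.mul_sub T hZ).mono hμ) (hc'.mono hμ)]
  refine pos_mul (pos_of_mul_mon hY hφ) (fun q => ?_) p
  by_cases h : μ q = 0
  · rw [A.res_of_mem _ (show q ∈ {n | μ n = 0} from h)]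
    exact hpos q
  · rw [A.res_of_not _ (show q ∉ {n | μ n = 0} from h)]
    exact Pos.zero

end Pool.Agent.Lib.MP_33bfb2_co.Th.Gr
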