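import Pool.Agent.Lib.MP_33bfb2_co.Th.DT

namespace Pool.Agent.Lib.MP_33bfb2_co.Th.Gr

open Finset

variable {n m i0 : ℕ} {s : Fin (n + 1) → ℕ} {i : Fin (n + 1)}

/-! ## File DM (imports DT): one move is a mutation -/

theorem dm_div {a : ℤ} (q : ℤ) (h1 : q * (m + 1) ≤ a) (h2 : a < (q + 1) * (m + 1)) :
    a / (m + 1) = q := by
  have hm : (0 : ℤ) < m + 1 := by positivity
  exact le_antisymm (Int.lt_add_one_iff.1 ((Int.ediv_lt_iff_lt_mul hm).2 h2))
    ((Int.le_ediv_iff_mul_le hm).2 h1)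

theorem dm_div0 {a : ℤ} (h1 : 0 ≤ a) (h2 : a ≤ m) : a / (m + 1) = 0 :=
  dm_div 0 (by simpa using h1) (by simp; omega)

theorem dm_div1 {a : ℤ} (h1 : - (m + 1) ≤ a) (h2 : a < 0) : a / (m + 1) = -1 :=
  dm_div (-1) (by simpa using h1) (by simpa using h2)

theorem dm_sg_Xv (T u t : ℕ) (hu : u ≤ m + 1 + t) (ht : t ≤ m + u) :
    sg m i (T + u) (Xv m i (T + t)) = if t < u then 0 else -1 := by
  rw [sg_Xv, if_pos rfl]
  push_cast
  split_ifs with h
  · exact dm_div0 (by omega) (by omega)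
  · exact dm_div1 (by omega) (by omega)

theorem sg_face_ne {j : Fin (n + 1)} (h : i ≠ j) (T T' t : ℕ) :
    sg m i T (face m j T' t) = 0 := by
  unfold face
  split_ifs <;> simp [sg_Xv, sg_ro, h]

theorem sg_face (T : ℕ) {u t : ℕ} (hu : u ≤ m + 1) (ht : t ≤ m + 1) :
    sg m i (T + u) (face m i T t) = if u = t then 1 else 0 := by
  unfold face
  rcases t with _ | t
  · rw [if_pos rfl, if_neg (by omega), map_sub, map_zero, dm_sg_Xv T u 0 (by omega) (by omega)]
    split_ifs <;> omega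
  · rw [if_neg (by omega), show T + (t + 1) - 1 = T + t by omega, map_sub,
      dm_sg_Xv T u t (by omega) (by omega)]
    by_cases e : t + 1 = m + 1
    · rw [if_pos e, map_neg, sg_ro, if_pos rfl]
      split_ifs <;> omega
    · rw [if_neg e, dm_sg_Xv T u (t + 1) (by omega) (by omega)]
      split_ifs <;> omega

theorem face_mem (j : Fin (n + 1)) {t : ℕ} (ht : t ≤ m + 1) :
    face m j (s j) t ∈ (Cn m s).car := by
  refine mem_Cn.2 ⟨(yy_face _ _).ge, (tot_face _ _).ge, fun k u hu => ?_⟩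
  by_cases e : k = j
  · subst e
    rw [sg_face _ hu ht]
    split_ifs <;> omega
  · exact (sg_face_ne e _ _ _).ge

theorem Xv_eq_vec (j : Fin (n + 1)) {t : ℕ} (ht : t ≤ m) :
    Xv m j (s j + t) = vec s (.inr (j, mv m (s j + t))) - hv m j.succ := by
  have : (s j + (mv m (s j + t) : ℕ)) / (m + 1) = (s j + t) / (m + 1) := by
    have h1 := Nat.div_add_mod (s j + t) (m + 1)
    have h2 : (s j + t) % (m + 1) < m + 1 := Nat.mod_lt _ (Nat.succ_pos m)
    refine Nat.div_eq_of_lt_le ?_ ?_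
    · simp only [mv]
      rw [mul_comm]
      omega
    · simp only [mv]
      rw [add_mul, mul_comm]
      omega
  simp only [Xv, vec, this]

theorem mv_eq_iff (T : ℕ) {t : ℕ} (h1 : 0 < t) (ht : t ≤ m + 1) :
    mv m (T + t) = mv m T ↔ t = m + 1 := by
  have h2 : T % (m + 1) < m + 1 := Nat.mod_lt _ (Nat.succ_pos m)
  have h3 : (T + t) % (m + 1) < m + 1 := Nat.mod_lt _ (Nat.succ_pos m)
  have h4 := Nat.div_add_mod T (m + 1)
  have h5 := Nat.div_add_mod (T + t) (m + 1)
  have h6 := add_div_le (m := m) T t ht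
  simp only [Fin.ext_iff, mv]
  rw [h6] at h5
  split_ifs at h5 with h
  · rw [mul_add] at h5
    omega
  · rw [add_zero] at h5
    omega

theorem up_self : up s i i = s i + 1 := by simp [up]

theorem up_ne {j : Fin (n + 1)} (h : j ≠ i) : up s i j = s j := by simp [up, h]

theorem w_Xv_Xv (h : Ok s i) {t : ℕ} (ht : t ≤ m) :
    (om n m i0).w (Xv m i (s i + 1 + t)) (Xv m i (s i)) = if t = m then 2 else 1 := by
  have := Xv_eq_vec (s := up s i) i ht
  rw [up_self] at this
  rw [this, map_sub, AddMonoidHom.sub_apply, w_vec_Xv h, w_hv_Xv,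
    if_neg (Fin.castSucc_lt_succ (i := i)).ne', if_pos rfl]
  simp only [reduceCtorEq, false_or, Sum.inr.injEq, Prod.mk.injEq, true_and, if_false, add_assoc,
    mv_eq_iff (s i) (show 0 < 1 + t by omega) (show 1 + t ≤ m + 1 by omega)]
  split_ifs <;> omega

theorem w_Xv_Xv_ne (h : Ok s i) {j : Fin (n + 1)} (hj : j ≠ i) {t : ℕ} (ht : t ≤ m) :
    (om n m i0).w (Xv m j (s j + t)) (Xv m i (s i)) = if j.succ = i.castSucc then -1 else 0 := by
  have := Xv_eq_vec (s := up s i) j ht
  rw [up_ne hj] at this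
  rw [this, map_sub, AddMonoidHom.sub_apply, w_vec_Xv h, w_hv_Xv]
  simp only [reduceCtorEq, false_or, Sum.inr.injEq, Prod.mk.injEq, hj, false_and, if_false,
    Fin.succ_inj]
  split_ifs <;> omega

theorem w_ro_Xv (j : Fin (n + 1)) (T : ℕ) : (om n m i0).w (ro m j) (Xv m i T) =
    if j = i then -2 else (if j.succ = i.castSucc then 1 else 0) +
      if j.castSucc = i.succ then 1 else 0 := by
  rw [ro, map_sub, AddMonoidHom.sub_apply, w_hv_Xv, w_hv_Xv]
  simp only [Fin.ext_iff, Fin.val_succ, Fin.val_castSucc]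
  split_ifs <;> omega

theorem tau_of_nonneg {L : Type} [AddCommGroup L] {ω : Skew L} {X p : L} (h : 0 ≤ ω.w p X) :
    tau ω X p = p := by
  rw [tau, max_eq_right (by omega), zero_smul, add_zero]

theorem tau_of_eq {L : Type} [AddCommGroup L] {ω : Skew L} {X p : L} (c : ℕ)
    (h : ω.w p X = - c) : tau ω X p = p + c • X := by
  rw [tau, h, neg_neg, max_eq_left (by omega), natCast_zsmul]

theorem tau_face_ne (h : Ok s i) {j : Fin (n + 1)} (hj : j ≠ i) {t : ℕ} (ht : t ≤ m + 1) :
    tau (om n m i0) (Xv m i (s i)) (face m j (s j) t) = face m j (s j) t := by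
  refine tau_of_nonneg ?_
  unfold face
  rcases t with _ | t
  · rw [if_pos rfl, if_neg (by omega), zero_sub, map_neg, AddMonoidHom.neg_apply,
      w_Xv_Xv_ne h hj (by omega)]
    split_ifs <;> omega
  · rw [if_neg (by omega), show s j + (t + 1) - 1 = s j + t by omega, map_sub,
      AddMonoidHom.sub_apply, w_Xv_Xv_ne h hj (by omega)]
    by_cases e : t + 1 = m + 1
    · rw [if_pos e, map_neg, AddMonoidHom.neg_apply, w_ro_Xv, if_neg hj]
      split_ifs <;> omega
    · rw [if_neg e, w_Xv_Xv_ne h hj (by omega)]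
      omega

theorem tau_face (h : Ok s i) {t : ℕ} (ht : t ≤ m) :
    tau (om n m i0) (Xv m i (s i)) (face m i (s i + 1) t) = face m i (s i) (t + 1) := by
  unfold face
  rw [if_neg (show t ≠ m + 1 by omega), if_neg (show t + 1 ≠ 0 by omega),
    show s i + (t + 1) - 1 = s i + t by omega]
  have hX : Xv m i (s i + 1 + m) = Xv m i (s i) - ro m i := by
    rw [← Xv_add]; congr 1; omega
  rcases t with _ | t
  · rw [if_pos rfl, zero_sub]
    by_cases e : 0 = m
    · subst e
      rw [tau_of_eq 2 (by rw [map_neg, AddMonoidHom.neg_apply, w_Xv_Xv h le_rfl]; simp), if_pos rfl,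
        hX, two_smul, add_zero]
      abel
    · rw [tau_of_eq 1 (by rw [map_neg, AddMonoidHom.neg_apply, w_Xv_Xv h ht, if_neg e]; simp),
        if_neg (by omega), one_smul, add_zero, add_zero, zero_add]
      abel
  · rw [if_neg (by omega), show s i + 1 + (t + 1) - 1 = s i + 1 + t by omega]
    by_cases e : t + 1 = m
    · rw [tau_of_eq 1 (by
        rw [map_sub, AddMonoidHom.sub_apply, w_Xv_Xv h (by omega), w_Xv_Xv h ht, if_pos e,
          if_neg (by omega)]; simp), if_pos (by omega), e, hX, one_smul,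
        show s i + 1 + t = s i + m by omega]
      abel
    · rw [tau_of_nonneg (by
        rw [map_sub, AddMonoidHom.sub_apply, w_Xv_Xv h (by omega), w_Xv_Xv h ht, if_neg e,
          if_neg (by omega)]; simp), if_neg (by omega),
        show s i + 1 + t = s i + (t + 1) by omega,
        show s i + 1 + (t + 1) = s i + (t + 1 + 1) by omega]

theorem face_last (T : ℕ) : face m i (T + 1) (m + 1) = Xv m i T := by
  rw [face, if_neg (by omega), if_pos rfl, show T + 1 + (m + 1) - 1 = T + (m + 1) by omega, Xv_add]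
  abel

theorem face_zero (T : ℕ) : face m i T 0 = - Xv m i T := by
  rw [face, if_pos rfl, if_neg (by omega), zero_sub, add_zero]

/-- The functionals common to the two states. -/
abbrev Com (n m : ℕ) (i : Fin (n + 1)) : Type :=
  {k : Bool ⊕ Fin (n + 1) × Fin (m + 2) // k ≠ .inr (i, 0)}

theorem com_Xv (k : Com n m i) : fn m s k.1 (Xv m i (s i)) = 0 := by
  obtain ⟨(_ | _) | ⟨j, t⟩, hk⟩ := k
  · exact tot_Xv _
  · exact yy_Xv _
  · have := t.2
    by_cases e : j = i
    · subst e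
      have : (t : ℕ) ≠ 0 := fun e => hk (by rw [show t = 0 from Fin.ext e])
      exact (dm_sg_Xv (s j) t 0 (by omega) (by omega)).trans (if_pos (by omega))
    · simp [fn, sg_Xv, e]

theorem com_iff {p : Lt n m} : (∀ k : Com n m i, 0 ≤ fn m s k.1 p) ↔ 0 ≤ yy n m p ∧ 0 ≤ tot n m p ∧
    ∀ j t, t ≤ m + 1 → (j = i → t ≠ 0) → 0 ≤ sg m j (s j + t) p := by
  refine ⟨fun h => ⟨h ⟨.inl true, by simp⟩, h ⟨.inl false, by simp⟩, fun j t ht hj =>
    h ⟨.inr (j, ⟨t, by omega⟩), by simpa [Fin.ext_iff] using fun e => hj (Fin.ext e)⟩⟩,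
    fun h k => ?_⟩
  obtain ⟨(_ | _) | ⟨j, t⟩, hk⟩ := k
  exacts [h.2.1, h.1, h.2.2 j t (by omega) fun e e' => hk (by rw [e, show t = 0 from Fin.ext e'])]

theorem move (i0 : ℕ) (h : Ok s i) :
    ∃ (Γ : AddSubmonoid (Lt n m)) (db : Lt n m →+ ℤ) (I : Finset (Lt n m)),
      Mut (om n m i0) (Cn m (up s i)) (Cn m s) (Xv m i (s i)) Γ db (sg m i (s i + (m + 2)))
        (sg m i (s i)) ∧
      MutI (om n m i0) (Cn m (up s i)) (Cn m s) (Xv m i (s i)) db (sg m i (s i))
        (insert (Yv n m) I) ∧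
      Fs m (up s i) = insert (Xv m i (s i)) I ∧
      Fs m s = insert (- Xv m i (s i)) (I.image (tau (om n m i0) (Xv m i (s i)))) ∧
      tau (om n m i0) (Xv m i (s i)) (Yv n m) = Yv n m := by
  classical
  have hY : 0 ≤ (om n m i0).w (Yv n m) (Xv m i (s i)) := by
    rw [w_Yv_Xv]; split_ifs <;> positivity
  have hl : sg m i (s i) (Xv m i (s i)) = -1 := dm_sg_Xv (s i) 0 0 (by omega) (by omega)
  let Γ : AddSubmonoid (Lt n m) :=
    { carrier := {p | ∀ k : Com n m i, 0 ≤ fn m s k.1 p}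
      add_mem' := fun ha hb k => by rw [map_add]; exact add_nonneg (ha k) (hb k)
      zero_mem' := fun k => by simp }
  have hΓ : ∀ p, p ∈ Γ ↔ ∀ k : Com n m i, 0 ≤ fn m s k.1 p := fun _ => Iff.rfl
  have c1 : ∀ p, p ∈ (Cn m (up s i)).car ↔ p ∈ Γ ∧ 0 ≤ sg m i (s i + (m + 2)) p := fun p => by
    rw [hΓ, com_iff, mem_Cn]
    refine ⟨fun a => ⟨⟨a.1, a.2.1, fun j t ht hj => ?_⟩, ?_⟩,
      fun a => ⟨a.1.1, a.1.2.1, fun j t ht => ?_⟩⟩
    · by_cases e : j = i
      · subst e
        have := a.2.2 j (t - 1) (by omega)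
        have := hj rfl
        rwa [up_self, show s j + 1 + (t - 1) = s j + t by omega] at *
      · have := a.2.2 j t ht
        rwa [up_ne e] at this
    · have := a.2.2 i (m + 1) le_rfl
      rwa [up_self, show s i + 1 + (m + 1) = s i + (m + 2) by omega] at this
    · by_cases e : j = i
      · subst e
        rw [up_self, add_assoc]
        by_cases e' : t = m + 1
        · rw [show 1 + t = m + 2 by omega]; exact a.2
        · exact a.1.2.2 j (1 + t) (by omega) (by omega)
      · rw [up_ne e]; exact a.1.2.2 j t ht fun e' => absurd e' e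
  have c2 : ∀ p, p ∈ (Cn m s).car ↔ p ∈ Γ ∧ 0 ≤ sg m i (s i) p := fun p => by
    rw [hΓ, com_iff, mem_Cn]
    refine ⟨fun a => ⟨⟨a.1, a.2.1, fun j t ht _ => a.2.2 j t ht⟩, a.2.2 i 0 (by omega)⟩,
      fun a => ⟨a.1.1, a.1.2.1, fun j t ht => ?_⟩⟩
    by_cases e : j = i ∧ t = 0
    · rw [e.1, e.2]; exact a.2
    · exact a.1.2.2 j t ht fun e1 e2 => e ⟨e1, e2⟩
  have dpos : ∀ p ∈ Γ, ∀ k : Com n m i, 0 < fn m s k.1 p →
      0 < (∑ k : Com n m i, fn m s k.1) p := fun p hp k hk => by
    rw [AddMonoidHom.finsetSum_apply]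
    exact hk.trans_le (single_le_sum (fun k _ => hp k) (mem_univ k))
  let J : Finset (Fin (n + 1) × Fin (m + 2)) := univ.erase (i, Fin.last _)
  have hJ : ∀ p ∈ J, ∃ q : Fin (n + 1) × Fin (m + 2), q ≠ (i, 0) ∧ q.1 = p.1 ∧
      s q.1 + q.2 = up s i p.1 + p.2 ∧
      tau (om n m i0) (Xv m i (s i)) (face m p.1 (up s i p.1) p.2) = face m q.1 (s q.1) q.2 := by
    rintro ⟨j, t⟩ hp
    have ht := t.2
    by_cases e : j = i
    · subst e
      have : (t : ℕ) ≠ m + 1 := fun e' => ne_of_mem_erase hp (by rw [show t = Fin.last _ from Fin.ext e'])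
      refine ⟨(j, ⟨t + 1, by omega⟩), fun e' => absurd (congrArg (fun q => (q.2 : ℕ)) e')
        (Nat.succ_ne_zero _), rfl, ?_, ?_⟩
      · simp only [up_self]; omega
      · simp only [up_self]; exact tau_face h (by omega)
    · refine ⟨(j, t), by simp [e], rfl, by simp only [up_ne e], ?_⟩
      simp only [up_ne e]
      exact tau_face_ne h e (by omega)
  refine ⟨Γ, ∑ k : Com n m i, fn m s k.1, J.image fun p => face m p.1 (up s i p.1) p.2,
    ⟨fun p => ?_, fun p hp => ?_, ?_, fun p hp h0 => ?_, ?_, hl, c1, c2⟩, fun e he => ?_, ?_, ?_,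
    tau_of_nonneg hY⟩
  · simp only [hΓ, map_add, com_Xv, add_zero]
  · rw [AddMonoidHom.finsetSum_apply]
    exact sum_nonneg fun k _ => hp k
  · rw [AddMonoidHom.finsetSum_apply]
    exact sum_eq_zero fun k _ => com_Xv k
  · rw [AddMonoidHom.finsetSum_apply, sum_eq_zero_iff_of_nonneg fun k _ => hp k] at h0
    refine ⟨- sg m i (s i) p, ?_⟩
    rw [neg_smul, ← add_eq_zero_iff_eq_neg]
    refine fn_inj s _ fun k => ?_
    rw [map_add, map_zsmul]
    by_cases e : k = .inr (i, 0)
    · subst e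
      show sg m i (s i) p + sg m i (s i) p • sg m i (s i) (Xv m i (s i)) = 0
      rw [hl]; simp
    · rw [h0 ⟨k, e⟩ (mem_univ _), com_Xv ⟨k, e⟩]; simp
  · rw [sg_Xv, if_pos rfl]
    exact dm_div 1 (by push_cast; omega) (by push_cast; omega)
  · rcases mem_insert.1 he with rfl | he
    · refine ⟨Yv_mem, Yv_mem, by rw [sg_Yv]; omega, dpos _ ((c2 _).1 Yv_mem).1 ⟨.inl true, by simp⟩ ?_⟩
      show 0 < yy n m (Yv n m)
      rw [yy_Yv]; exact one_pos
    · obtain ⟨p, hp, rfl⟩ := mem_image.1 he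
      obtain ⟨q, hq, e1, e2, e3⟩ := hJ p hp
      have m1 : face m p.1 (up s i p.1) p.2 ∈ (Cn m (up s i)).car :=
        face_mem p.1 (by have := p.2.2; omega)
      have m2 : face m q.1 (s q.1) q.2 ∈ (Cn m s).car := face_mem q.1 (by have := q.2.2; omega)
      have m3 := ((c2 _).1 m2).2
      rw [← e3, tau, map_add, map_zsmul, hl] at m3
      simp only [smul_eq_mul] at m3
      refine ⟨m1, (c2 _).2 ⟨((c1 _).1 m1).1, by omega⟩, by omega,
        dpos _ ((c1 _).1 m1).1 ⟨.inr q, by simpa using hq⟩ ?_⟩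
      show 0 < sg m q.1 (s q.1 + q.2) _
      rw [e2, e1, sg_face _ (by have := p.2.2; omega) (by have := p.2.2; omega), if_pos rfl]
      exact one_pos
  · rw [Fs, ← insert_erase (mem_univ ((i, Fin.last _) : Fin (n + 1) × Fin (m + 2))), image_insert]
    congr 1
    simp only [up_self, Fin.val_last]
    exact face_last _
  · ext x
    simp only [Fs, mem_insert, mem_image, mem_univ, true_and, exists_exists_and_eq_and]
    constructor
    · rintro ⟨⟨j, t⟩, rfl⟩
      have ht := t.2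
      by_cases e : j = i
      · subst e
        by_cases e' : (t : ℕ) = 0
        · left; simp only [e']; exact face_zero _
        · refine Or.inr ⟨(j, ⟨t - 1, by omega⟩), ?_, ?_⟩
          · simp only [J, mem_erase, mem_univ, and_true, ne_eq, Prod.mk.injEq, true_and, Fin.ext_iff,
              Fin.val_last]
            omega
          · simp only [up_self]
            rw [tau_face h (by omega), show (t : ℕ) - 1 + 1 = t by omega]
      · refine Or.inr ⟨(j, t), by simp [J, e], ?_⟩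
        simp only [up_ne e]
        exact tau_face_ne h e (by omega)
    · rintro (rfl | ⟨p, hp, rfl⟩)
      · exact ⟨(i, 0), face_zero _⟩
      · obtain ⟨q, -, -, -, e3⟩ := hJ p hp
        exact ⟨q, e3.symm⟩

end Pool.Agent.Lib.MP_33bfb2_co.Th.Gr
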