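import Pool.Agent.Lib.MP_33bfb2_co.Th.DDefs

namespace Pool.Agent.Lib.MP_33bfb2_co.Th.Gr

open Finset

variable {n m i0 : ℕ} {s : Fin (n + 1) → ℕ} {i : Fin (n + 1)}

/-! ## File DT (imports DDefs): tables of the grid -/

theorem st_zero : st n 0 = fun _ => 0 := funext fun i => Nat.div_eq_of_lt (by omega)

theorem st_succ (k : ℕ) : st n (k + 1) = up (st n k) (mv n k) := by
  funext j
  simp only [st, up, div_succ, Function.update_apply]
  split_ifs with h
  · rw [h]
  · rfl

theorem st_ok (k : ℕ) : Ok (st n k) (mv n k) := by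
  intro j
  constructor
  · intro h
    have := div_succ k (mv n k)
    rw [if_pos rfl] at this
    simp only [st]
    rw [h, ← this]
    congr 1
    omega
  · intro h
    have := div_succ k j
    rw [if_neg (by rintro rfl; omega)] at this
    simp only [st]
    rw [← h, ← add_zero ((k + j) / (n + 1)), ← this]
    congr 1
    omega

theorem st_lt {k k' : ℕ} (h : k < k') : st n k (mv n k) < st n k' (mv n k) := by
  have := div_succ k (mv n k)
  rw [if_pos rfl] at this
  have h2 : (k + 1 + mv n k) / (n + 1) ≤ (k' + mv n k) / (n + 1) := Nat.div_le_div_right (by omega)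
  simp only [st]
  omega

theorem vec_zero (x : Vt n m) : vec (fun _ => 0) x = bs (some x) := by
  rcases x with a | ⟨j, ρ⟩
  · rfl
  · simp [vec, lv, Nat.div_eq_of_lt ρ.2]

theorem vec_up_ne {x : Vt n m} (h : x ≠ .inr (i, mv m (s i))) : vec s x = vec (up s i) x := by
  rcases x with a | ⟨j, ρ⟩
  · rfl
  · by_cases e : j = i
    · subst e
      have : ρ ≠ mv m (s j) := fun e => h (by rw [e])
      simp only [vec, up, Function.update_self, div_succ, if_neg this, add_zero]
    · simp only [vec, up, Function.update_of_ne e]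

theorem div_mv (T : ℕ) : (T + mv m T) / (m + 1) = T / (m + 1) := by
  have h2 : T % (m + 1) < m + 1 := Nat.mod_lt T (Nat.succ_pos m)
  rw [add_div_le T _ (mv m T).2.le, if_neg (by simp only [mv]; omega), add_zero]

theorem vec_up_mv :
    vec (up s i) (.inr (i, mv m (s i))) = hv m i.castSucc + Xv m i (s i) := by
  simp only [vec, up, Function.update_self, div_succ, if_true, div_mv, Xv, ro, Nat.cast_add,
    Nat.cast_one, add_smul, one_smul]
  abel

theorem vec_mv : vec s (.inr (i, mv m (s i))) = hv m i.succ + Xv m i (s i) := by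
  simp only [vec, div_mv, Xv]
  abel

theorem Xv_add (T : ℕ) : Xv m i (T + (m + 1)) = Xv m i T - ro m i := by
  simp only [Xv, mv, Nat.add_mod_right, Nat.add_div_right _ (Nat.succ_pos m), Nat.cast_add,
    Nat.cast_one, add_smul, one_smul]
  abel

theorem Xv_ne (T : ℕ) : Xv m i T ≠ 0 := fun h => by
  have := congrFun h (some (.inr (i, mv m T)))
  simp [Xv, lv, ro, hv, bs] at this

theorem yy_bs (x : Option (Vt n m)) : yy n m (bs x) = if x = none then 1 else 0 := dot_single _ x
theorem tot_bs (x : Option (Vt n m)) : tot n m (bs x) = if x = none then 0 else 1 := dot_single _ x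
theorem sg_bs (T : ℕ) (x : Option (Vt n m)) : sg m i T (bs x) = cf i T x := dot_single _ x
theorem w_bs (x x' : Option (Vt n m)) : (om n m i0).w (bs x) (bs x') = Wm i0 x x' :=
  skewOf_single _ _ x x'

theorem yy_ro : yy n m (ro m i) = 0 := by simp [ro, hv, yy_bs]
theorem tot_ro : tot n m (ro m i) = 0 := by simp [ro, hv, tot_bs]

theorem yy_vec (x : Vt n m) : yy n m (vec s x) = 0 := by
  rcases x with a | p <;> simp [vec, hv, lv, yy_bs, yy_ro, -zsmul_eq_mul]
theorem tot_vec (x : Vt n m) : tot n m (vec s x) = 1 := by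
  rcases x with a | p <;> simp [vec, hv, lv, tot_bs, tot_ro, -zsmul_eq_mul]
theorem yy_Yv : yy n m (Yv n m) = 1 := by simp [Yv, yy_bs]
theorem yy_Xv (T : ℕ) : yy n m (Xv m i T) = 0 := by
  simp [Xv, hv, lv, yy_bs, yy_ro, -zsmul_eq_mul]
theorem yy_face (T t : ℕ) : yy n m (face m i T t) = 0 := by
  simp only [face, map_sub]
  split_ifs <;> simp [yy_Xv, yy_ro]
theorem tot_Xv (T : ℕ) : tot n m (Xv m i T) = 0 := by
  simp [Xv, hv, lv, tot_bs, tot_ro, -zsmul_eq_mul]
theorem tot_face (T t : ℕ) : tot n m (face m i T t) = 0 := by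
  simp only [face, map_sub]
  split_ifs <;> simp [tot_Xv, tot_ro]
theorem sg_Yv (T : ℕ) : sg m i T (Yv n m) = 0 := sg_bs T _
theorem sg_hv (T : ℕ) (a : Fin (n + 2)) : sg m i T (hv m a) = if (i : ℕ) < a then 1 else 0 :=
  sg_bs T _
theorem sg_lv (T : ℕ) (j : Fin (n + 1)) (ρ : Fin (m + 1)) : sg m i T (lv j ρ) =
    if i < j then 1 else if j = i then (((T + ρ) / (m + 1) : ℕ) : ℤ) else 0 := sg_bs T _
theorem sg_ro (T : ℕ) (j : Fin (n + 1)) : sg m i T (ro m j) = if i = j then 1 else 0 := by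
  simp only [ro, map_sub, sg_hv, Fin.val_succ, Fin.val_castSucc, Fin.ext_iff]
  split_ifs <;> omega

theorem sg_Xv (T : ℕ) (j : Fin (n + 1)) (T' : ℕ) :
    sg m i T (Xv m j T') = if i = j then ((T : ℤ) - T' - 1) / (m + 1) else 0 := by
  simp only [Xv, map_sub, map_zsmul, sg_lv, sg_ro, sg_hv, Fin.val_succ, smul_eq_mul]
  by_cases e : i = j
  · subst e
    have h1 := Nat.div_add_mod T' (m + 1)
    have h2 : T' % (m + 1) < m + 1 := Nat.mod_lt T' (Nat.succ_pos m)
    have h3 : ((T + mv m T' : ℕ) : ℤ) =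
        (T : ℤ) - T' - 1 + (m + 1) * ((T' / (m + 1) : ℕ) + 1 : ℤ) := by
      have h4 : ((m + 1) * (T' / (m + 1)) : ℕ) + (T' % (m + 1) : ℕ) = (T' : ℤ) := by
        exact_mod_cast h1
      have h5 : ((mv m T' : ℕ) : ℤ) = m - (T' % (m + 1) : ℕ) := by
        simp only [mv]
        omega
      rw [Nat.cast_add, h5]
      rw [Nat.cast_mul, Nat.cast_add, Nat.cast_one] at h4
      linear_combination -h4
    rw [if_neg (lt_irrefl i), if_pos rfl, if_pos rfl, if_pos rfl, if_pos (Nat.lt_succ_self _),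
      Int.natCast_div (T + mv m T'), h3, Nat.cast_add, Nat.cast_one,
      Int.add_mul_ediv_left _ _ (by omega)]
    ring
  · rw [if_neg e, if_neg e, if_neg (Ne.symm e)]
    simp only [Fin.ext_iff, Fin.lt_def] at e ⊢
    split_ifs <;> omega

theorem lt_ext {f g : Lt n m →+ ℤ} (h : ∀ x, f (bs x) = g (bs x)) (p : Lt n m) : f p = g p := by
  rw [pi_eq_sum_univ' p, map_sum, map_sum]
  exact sum_congr rfl fun x _ => by rw [map_zsmul, map_zsmul]; exact congrArg _ (h x)

theorem mi_Yv : mi m i (Yv n m) = 0 := by simp [mi, Yv, bs]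
theorem mi_hv (a : Fin (n + 2)) : mi m i (hv m a) = 0 := by simp [mi, hv, bs]
theorem mi_ro (j : Fin (n + 1)) : mi m i (ro m j) = 0 := by simp [ro, mi_hv]
theorem mi_lv (j : Fin (n + 1)) (ρ : Fin (m + 1)) : mi m i (lv j ρ) = if j = i then 1 else 0 := by
  by_cases e : j = i
  · simp [mi, lv, bs, Pi.single_apply, e]
  · simp [mi, lv, bs, e, Ne.symm e]

theorem sg_add (T : ℕ) (p : Lt n m) : sg m i (T + (m + 1)) p = sg m i T p + mi m i p := by
  refine lt_ext (g := sg m i T + mi m i) (fun x => ?_) p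
  rw [AddMonoidHom.add_apply]
  rcases x with _ | a | ⟨j, ρ⟩
  · exact (sg_Yv _).trans (by rw [← Yv, sg_Yv, mi_Yv]; rfl)
  · exact (sg_hv _ a).trans (by rw [← hv, sg_hv, mi_hv, add_zero])
  · rw [← lv, sg_lv, sg_lv, mi_lv, add_right_comm, Nat.add_div_right _ (Nat.succ_pos m)]
    by_cases e : j = i
    · simp [e]
    · simp [e]

theorem mi_vec (x : Vt n m) :
    mi m i (vec s x) = Sum.elim (fun _ => 0) (fun q => if q.1 = i then 1 else 0) x := by
  rcases x with a | p <;> simp [vec, mi_hv, mi_lv, mi_ro, -zsmul_eq_mul]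

theorem vec_mem (x : Vt n m) : vec s x ∈ (Cn m s).car := by
  refine mem_Cn.2 ⟨(yy_vec x).ge, by simp [tot_vec], fun j t _ => ?_⟩
  rcases x with a | ⟨l, ρ⟩
  · simp only [vec, sg_hv]
    split_ifs <;> simp
  · simp only [vec, map_sub, map_zsmul, sg_lv, sg_ro, smul_eq_mul]
    by_cases e : j = l
    · subst e
      have : (s j + ρ) / (m + 1) ≤ (s j + t + ρ) / (m + 1) := Nat.div_le_div_right (by omega)
      rw [if_neg (lt_irrefl j), if_pos rfl, if_pos rfl]
      omega
    · rw [if_neg e, if_neg (Ne.symm e)]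
      split_ifs <;> simp

theorem hv_mem (a : Fin (n + 2)) : hv m a ∈ (Cn m s).car := vec_mem (.inl a)

theorem Yv_mem : Yv n m ∈ (Cn m s).car :=
  mem_Cn.2 ⟨by simp [yy_Yv], by simp [Yv, tot_bs], fun _ _ _ => (sg_Yv _).ge⟩

theorem Xv_mem {T : ℕ} (h : T < s i) : Xv m i T ∈ (Cn m s).car := by
  refine mem_Cn.2 ⟨(yy_Xv T).ge, (tot_Xv T).ge, fun j t _ => ?_⟩
  rw [sg_Xv]
  split_ifs with e
  · subst e
    exact Int.ediv_nonneg (by omega) (by omega)
  · exact le_rfl

theorem sg_add_mul (T N : ℕ) (p : Lt n m) :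
    sg m i (T + N * (m + 1)) p = sg m i T p + N * mi m i p := by
  induction N with
  | zero => simp
  | succ N ih =>
    rw [Nat.succ_mul, ← add_assoc, sg_add, ih]
    push_cast
    ring

theorem mi_nonneg (k0 : ℕ) {p : Lt n m} (h : ∀ k, k0 ≤ k → p ∈ (Cn m (st n k)).car)
    (i : Fin (n + 1)) : 0 ≤ mi m i p := by
  by_contra hn
  have key : ∀ N : ℕ, 0 ≤ sg m i (st n k0 i) p + N * mi m i p := fun N => by
    have h1 := (mem_Cn.1 (h (k0 + N * (m + 1) * (n + 1)) (by omega))).2.2 i 0 (by omega)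
    have h2 : st n (k0 + N * (m + 1) * (n + 1)) i = st n k0 i + N * (m + 1) := by
      simp only [st]
      rw [add_right_comm, Nat.add_mul_div_right _ _ (Nat.succ_pos n)]
    rwa [add_zero, h2, sg_add_mul] at h1
  have h3 := key ((sg m i (st n k0 i) p).toNat + 1)
  have h4 := Int.self_le_toNat (sg m i (st n k0 i) p)
  push_cast at h3
  nlinarith

theorem w_hv_hv (a b : Fin (n + 2)) : (om n m i0).w (hv m a) (hv m b) = 0 := by
  simp [hv, w_bs, Wm, Ar, fr]

theorem w_hv_lv (a : Fin (n + 2)) (j : Fin (n + 1)) (ρ : Fin (m + 1)) :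
    (om n m i0).w (hv m a) (lv j ρ) =
      (if (a : ℕ) = j then 1 else 0) - if (a : ℕ) = j + 1 then 1 else 0 := by
  simp only [hv, lv, w_bs, Wm, Ar, fr, ip]
  split_ifs <;> omega

theorem w_lv_hv (a : Fin (n + 2)) (j : Fin (n + 1)) (ρ : Fin (m + 1)) :
    (om n m i0).w (lv j ρ) (hv m a) =
      (if (a : ℕ) = j + 1 then 1 else 0) - if (a : ℕ) = j then 1 else 0 := by
  rw [Skew.skew, w_hv_lv, neg_sub]

theorem w_lv_lv (j l : Fin (n + 1)) (ρ μ : Fin (m + 1)) : (om n m i0).w (lv j ρ) (lv l μ) =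
    (if ((l : ℕ) = j ∧ (ρ : ℕ) < μ) ∨ ((l : ℕ) = j + 1 ∧ (μ : ℕ) < ρ) then 1 else 0) -
      if ((j : ℕ) = l ∧ (μ : ℕ) < ρ) ∨ ((j : ℕ) = l + 1 ∧ (ρ : ℕ) < μ) then 1 else 0 := by
  simp only [lv, w_bs, Wm, Ar, fr, ip, Nat.add_lt_add_iff_right]

theorem w_hv_Xv' (a : Fin (n + 2)) (T : ℕ) : (om n m i0).w (hv m a) (Xv m i T) =
    (if (a : ℕ) = i then 1 else 0) - if (a : ℕ) = i + 1 then 1 else 0 := by
  simp [Xv, ro, w_hv_hv, w_hv_lv, -zsmul_eq_mul]

theorem w_hv_Xv (a : Fin (n + 2)) (T : ℕ) : (om n m i0).w (hv m a) (Xv m i T) =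
    if a = i.castSucc then 1 else if a = i.succ then -1 else 0 := by
  simp only [w_hv_Xv', Fin.ext_iff, Fin.val_succ, Fin.val_castSucc]
  split_ifs <;> omega

theorem w_hv_Yv (a : Fin (n + 2)) :
    (om n m i0).w (hv m a) (Yv n m) = if i0 < a then 1 else 0 := by
  simp [hv, Yv, w_bs, Wm, Rt, fr, ip]

theorem w_Yv_hv (a : Fin (n + 2)) :
    (om n m i0).w (Yv n m) (hv m a) = - if i0 < a then 1 else 0 := by
  rw [Skew.skew, w_hv_Yv]

theorem w_Yv_lv (ρ : Fin (m + 1)) :
    (om n m i0).w (Yv n m) (lv i ρ) = - if i0 ≤ i then 1 else 0 := by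
  simp only [lv, Yv, w_bs, Wm, Rt, fr, ip]
  split_ifs <;> omega

theorem w_Yv_ro : (om n m i0).w (Yv n m) (ro m i) = - if (i : ℕ) = i0 then 1 else 0 := by
  simp only [ro, map_sub, w_Yv_hv, Fin.val_succ, Fin.val_castSucc]
  split_ifs <;> omega

theorem w_Yv_Xv (T : ℕ) : (om n m i0).w (Yv n m) (Xv m i T) =
    if (i : ℕ) = i0 then ((T / (m + 1) : ℕ) : ℤ) else 0 := by
  simp only [Xv, map_sub, map_zsmul, w_Yv_lv, w_Yv_ro, w_Yv_hv, Fin.val_succ, smul_eq_mul]
  generalize ((T / (m + 1) : ℕ) : ℤ) = q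
  split_ifs <;> omega

theorem w_Yv_face {t : ℕ} (h : t ≤ m + 1) : (om n m i0).w (Yv n m) (face m i 0 t) ≤ 0 := by
  have h0 : ∀ T, T < m + 1 → (om n m i0).w (Yv n m) (Xv m i T) = 0 := fun T hT => by
    simp [w_Yv_Xv, Nat.div_eq_of_lt hT]
  simp only [face, map_sub, zero_add]
  split_ifs with h1 h2 h2
  · omega
  · rw [h0 _ (by omega)]
    simp
  · rw [h0 _ (by omega), map_neg, w_Yv_ro]
    split_ifs <;> simp
  · rw [h0 _ (by omega), h0 _ (by omega)]
    simp

theorem w_vec_Xv (h : Ok s i) (x : Vt n m) : (om n m i0).w (vec (up s i) x) (Xv m i (s i)) =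
    if x = .inl i.castSucc ∨ x = .inr (i, mv m (s i)) then 1
    else if x = .inl i.succ then -1 else 0 := by
  rcases x with a | ⟨j, ρ⟩
  · simp [vec, w_hv_Xv]
  · have h1 := ρ.2
    have h2 : s i % (m + 1) < m + 1 := Nat.mod_lt _ (Nat.succ_pos m)
    have h3 := add_div_le (m := m) (s i) (1 + ρ) (by omega)
    have h4 := add_div_le (m := m) (s i) ρ (by omega)
    have h5 : ((mv m (s i) : Fin (m + 1)) : ℕ) = m - s i % (m + 1) := rfl
    have h6 : (om n m i0).w (lv j ρ) (Xv m i (s i)) = (om n m i0).w (lv j ρ) (lv i (mv m (s i))) -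
        ((s i / (m + 1) : ℕ) : ℤ) * ((om n m i0).w (lv j ρ) (hv m i.succ) -
          (om n m i0).w (lv j ρ) (hv m i.castSucc)) - (om n m i0).w (lv j ρ) (hv m i.succ) := by
      simp only [Xv, ro, map_sub, map_zsmul, smul_eq_mul]
    simp only [vec, ro, map_sub, map_zsmul, AddMonoidHom.sub_apply, AddMonoidHom.zsmul_apply,
      smul_eq_mul, h6, w_hv_Xv', w_lv_hv, w_lv_lv, Fin.val_succ, Fin.val_castSucc, reduceCtorEq,
      false_or, if_false, Sum.inr.injEq, Prod.mk.injEq, Fin.ext_iff, h5]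
    by_cases e : j = i
    · subst e
      rw [up, Function.update_self, add_assoc, h3]
      generalize s j / (m + 1) = q
      generalize s j % (m + 1) = r at *
      simp only [true_and, if_true, Nat.succ_ne_self, Nat.left_eq_add, one_ne_zero, false_and,
        or_false, if_false]
      split_ifs <;> omega
    · rw [up, Function.update_of_ne e]
      rw [Fin.ext_iff] at e
      have e' : ¬(i : ℕ) = j := fun h => e h.symm
      by_cases e1 : (j : ℕ) = i + 1
      · rw [(h j).1 e1, add_assoc, h3]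
        generalize s i / (m + 1) = q
        generalize s i % (m + 1) = r at *
        have a1 : ¬(i : ℕ) = j + 1 := by omega
        have a2 : ¬(j : ℕ) + 1 = i := by omega
        have a3 : (i : ℕ) + 1 = j := by omega
        have a4 : ((j : ℕ) = i + 1) = True := eq_true e1
        simp only [Nat.add_right_cancel_iff, eq_true a3, e, e', a1, a2, a4, true_and, if_true,
          false_and, or_false, false_or, if_false]
        split_ifs <;> omega
      · by_cases e2 : (j : ℕ) + 1 = i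
        · rw [(h j).2 e2, h4]
          generalize s i / (m + 1) = q
          generalize s i % (m + 1) = r at *
          have a1 : (i : ℕ) = j + 1 := by omega
          have a3 : ¬(i : ℕ) + 1 = j := by omega
          simp only [Nat.add_right_cancel_iff, eq_true a1, eq_true e2, e, e', e1, a3, true_and,
            if_true, false_and, or_false, false_or, if_false]
          split_ifs <;> omega
        · have a1 : ¬(i : ℕ) = j + 1 := by omega
          have a3 : ¬(i : ℕ) + 1 = j := by omega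
          simp only [Nat.add_right_cancel_iff, a1, e2, e, e', e1, a3, false_and, or_false,
            if_false]
          simp

/-- Pairing with a heavy vertex sees only the light masses and the framing coordinate. -/
theorem w_hv (a : Fin (n + 2)) (p : Lt n m) : (om n m i0).w (hv m a) p =
    (∑ j : Fin (n + 1), ((if a = j.castSucc then 1 else 0) - if a = j.succ then 1 else 0) * mi m j p)
      + yy n m p * if i0 < a then 1 else 0 := by
  have := lt_ext (f := (om n m i0).w (hv m a)) (g := (∑ j : Fin (n + 1),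
    ((if a = j.castSucc then 1 else 0) - if a = j.succ then 1 else 0 : ℤ) • mi m j)
      + (if i0 < a then 1 else 0 : ℤ) • yy n m) (fun x => ?_) p
  · rw [this, AddMonoidHom.add_apply, AddMonoidHom.finsetSum_apply, mul_comm (yy n m p)]
    rfl
  · rw [AddMonoidHom.add_apply, AddMonoidHom.finsetSum_apply, AddMonoidHom.zsmul_apply, yy_bs]
    simp only [AddMonoidHom.zsmul_apply, smul_eq_mul]
    rcases x with _ | b | ⟨l, ρ⟩
    · rw [← Yv]
      simp [w_hv_Yv, mi_Yv]
    · rw [← hv]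
      simp [w_hv_hv, mi_hv]
    · rw [← lv]
      simp only [w_hv_lv, mi_lv, mul_ite, mul_one, mul_zero, sum_ite_eq, mem_univ, if_true,
        reduceCtorEq, if_false, add_zero]
      simp only [Fin.ext_iff, Fin.val_succ, Fin.val_castSucc]

end Pool.Agent.Lib.MP_33bfb2_co.Th.Gr
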