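import Pool.Agent.Lib.MP_33bfb2_co.Th.DE
import Pool.Agent.Lib.MP_33bfb2_co.Th.DT

namespace Pool.Agent.Lib.MP_33bfb2_co.Th.Gr

open Finset MvPolynomial

/-- The polynomial attached to a combination of pairs of words. -/
noncomputable def phibar (N i0 : ℕ) (φ : List ℕ × List ℕ →₀ K) : MvPolynomial (Fin N) K :=
  φ.sum fun ab c => c • ((ab.1.map (esymm (Fin N) K)).prod * (ab.2.map fun k =>
    aeval (fun a : Fin N => (if i0 < a then tp 2 else 1) • (X a : MvPolynomial (Fin N) K))
      (esymm (Fin N) K k)).prod)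

/-! ## File DP (imports DE, DT): the heavy part is the polynomial -/

section general
variable {L : Type} [AddCommGroup L] {ω : Skew L} {Γ : Cone L} {H : Type} [Fintype H]

theorem dp_mon_zero : A.mon ω Γ 0 = 1 := by
  classical
  ext k : 2
  rw [A.mon_f Γ.car.zero_mem, A.one_f]

/-- Polynomials in commuting monomials. -/
theorem dp_exists_ev (v : H → L) (hv : ∀ a, v a ∈ Γ.car) (hw : ∀ a b, ω.w (v a) (v b) = 0) :
    ∃ ev : MvPolynomial H K →ₐ[K] A ω Γ,
      ∀ d c, ev (monomial d c) = c • A.mon ω Γ (∑ a, d a • v a) := by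
  have mem : ∀ d : H →₀ ℕ, ∑ a, d a • v a ∈ Γ.car := fun d =>
    Γ.car.sum_mem fun a _ => Γ.car.nsmul_mem (hv a) _
  let F : Multiplicative (H →₀ ℕ) →* A ω Γ :=
    { toFun := fun d => A.mon ω Γ (∑ a, d.toAdd a • v a)
      map_one' := by simpa using dp_mon_zero
      map_mul' := fun d e => by
        rw [A.mon_mul_mon (mem _) (mem _)]
        have : ω.w (∑ a, d.toAdd a • v a) (∑ a, e.toAdd a • v a) = 0 := by
          simp [map_sum, AddMonoidHom.finsetSum_apply, hw]
        rw [this, neg_zero, tp_zero, one_smul, ← sum_add_distrib]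
        simp [add_smul] }
  exact ⟨AddMonoidAlgebra.lift K (A ω Γ) (H →₀ ℕ) F, fun d c =>
    AddMonoidAlgebra.lift_single F d c⟩

theorem dp_main [DecidableEq H] (v : H → L) (hv : ∀ a, v a ∈ Γ.car)
    (hw : ∀ a b, ω.w (v a) (v b) = 0) {Y : L} (hY : Y ∈ Γ.car) (s : H → K)
    (hs : ∀ a, s a = tp (2 * ω.w (v a) Y)) (φ : List ℕ × List ℕ →₀ K)
    (h : ∀ d, Pos (coeff d (φ.sum fun ab c => c • ((ab.1.map (esymm H K)).prod * (ab.2.map fun k =>
      aeval (fun a : H => s a • (X a : MvPolynomial H K)) (esymm H K k)).prod)))) (q : L) :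
    Pos ((FF v φ (A.mon ω Γ Y)).f q) := by
  classical
  obtain ⟨ev, hev⟩ := dp_exists_ev (ω := ω) v hv hw
  have hX : ∀ a, ev (X a) = A.mon ω Γ (v a) := fun a => by
    rw [X, hev, one_smul]
    simp [Finsupp.single_apply]
  have he : ∀ k, ev (esymm H K k) = ek ω Γ v k := fun k => by
    rw [esymm_eq_sum_monomial, map_sum, ek, filter_true_of_mem fun S _ x _ x' _ => hw x x']
    refine sum_congr rfl fun S _ => ?_
    rw [hev, one_smul]
    congr 1
    simp only [Finsupp.coe_finsetSum, Finset.sum_apply, Finsupp.single_apply, sum_smul, ite_smul,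
      one_smul, zero_smul]
    rw [sum_comm]
    simp
  have hl : ∀ l : List ℕ, ev (l.map (esymm H K)).prod = ew ω Γ v l := fun l => by
    rw [map_list_prod, ew, List.map_map]
    congr 1
    exact List.map_congr_left fun k _ => he k
  have hc : ∀ P : MvPolynomial H K, A.mon ω Γ Y * ev P =
      ev (aeval (fun a : H => s a • (X a : MvPolynomial H K)) P) * A.mon ω Γ Y := fun P => by
    induction P using MvPolynomial.induction_on with
    | C c =>
      rw [aeval_C, ← algebraMap_eq, AlgHom.commutes]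
      exact (Algebra.commutes c _).symm
    | add P Q hP hQ => simp only [map_add, mul_add, add_mul, hP, hQ]
    | mul_X P a hP =>
      rw [map_mul, map_mul, map_mul, ← mul_assoc, hP, aeval_X, map_smul, hX, mul_assoc, mul_assoc,
        smul_mul_assoc, A.mon_mul_mon hY (hv a), A.mon_mul_mon (hv a) hY, smul_smul, hs, ← tp_add,
        add_comm Y, ω.skew Y]
      congr 3
      ring
  have key : FF v φ (A.mon ω Γ Y) = ev (φ.sum fun ab c => c • ((ab.1.map (esymm H K)).prod *
      (ab.2.map fun k => aeval (fun a : H => s a • (X a : MvPolynomial H K))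
        (esymm H K k)).prod)) * A.mon ω Γ Y := by
    rw [FF, Finsupp.sum, Finsupp.sum, map_sum, sum_mul]
    refine sum_congr rfl fun ab _ => ?_
    rw [map_smul, smul_mul_assoc, map_mul, hl, ← hl ab.2, mul_assoc, hc, mul_assoc,
      map_list_prod (aeval _), List.map_map]
    rfl
  rw [key]
  generalize (φ.sum fun ab c => c • ((ab.1.map (esymm H K)).prod *
      (ab.2.map fun k => aeval (fun a : H => s a • (X a : MvPolynomial H K))
        (esymm H K k)).prod)) = P at h
  rw [P.as_sum, map_sum, sum_mul]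
  show Pos (A.fHom (∑ d ∈ P.support, ev (monomial d (coeff d P)) * A.mon ω Γ Y) q)
  rw [map_sum, Finset.sum_apply]
  refine Pos.sum _ fun d _ => ?_
  have mem : ∑ a, d a • v a ∈ Γ.car := Γ.car.sum_mem fun a _ => Γ.car.nsmul_mem (hv a) _
  rw [hev, smul_mul_assoc, A.mon_mul_mon mem hY]
  show Pos (coeff d P * (tp _ * (A.mon ω Γ _).f q))
  refine (h d).mul (Pos.tp_mul _ ?_)
  rw [A.mon_f (Γ.car.add_mem mem hY)]
  split_ifs
  · exact Pos.one
  · exact Pos.zero

end general

theorem heavy_pos {n m i0 : ℕ} {Γ : Cone (Lt n m)} (hh : ∀ a, hv m a ∈ Γ.car) (hY : Yv n m ∈ Γ.car)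
    (φ : List ℕ × List ℕ →₀ K) (h : ∀ d, Pos (coeff d (phibar (n + 2) i0 φ))) (q : Lt n m) :
    Pos ((FF (hv m) φ (A.mon (om n m i0) Γ (Yv n m))).f q) :=
  dp_main (hv m) hh w_hv_hv hY (fun a => if i0 < a then tp 2 else 1) (fun a => by
    rw [w_hv_Yv]
    split_ifs <;> simp [tp_zero]) φ h q

end Pool.Agent.Lib.MP_33bfb2_co.Th.Gr
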