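import Pool.Agent.Lib.MP_33bfb2_co.Th.P1

namespace Pool.Agent.Lib.MP_33bfb2_co.Th

open Finset

variable {L : Type} [AddCommGroup L] {ω : Skew L} {C C' : Cone L}

/-! ## File P2 (imports A3; framed_pos also wall_pos): framed elements -/

theorem p2_cc_one (ε : Bool) : cc ε 1 = tp 1 / (1 - tp 2) := by
  cases ε <;> simp [cc]

theorem p2_cc_ne : cc true 1 ≠ 0 := by
  rw [p2_cc_one]
  exact div_ne_zero (tp_ne_zero _) (one_sub_tp_ne (by norm_num))

theorem p2_res_f (S : Set L) (a : A ω C) (n : L) : (a.res S).f n = S.indicator a.f n := rfl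

theorem p2_res_in (S : Set L) (a : A ω C) : (a.res S).In S := fun _ h =>
  by_contra fun e => h (Set.indicator_of_notMem e _)

theorem p2_res_in' {S T : Set L} {a : A ω C} (h : a.In T) : (a.res S).In T := fun n hn =>
  h n fun e => hn (by rw [p2_res_f]; simp [e])

theorem p2_smul_in {S : Set L} {a : A ω C} (h : a.In S) (r : K) : (r • a).In S := fun n hn =>
  h n fun e => hn (by simp [e])

theorem p2_in_zero {S : Set L} {a : A ω C} (h : a.In S) {n : L} (hn : n ∉ S) : a.f n = 0 :=
  by_contra fun e => hn (h n e)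

theorem p2_cong_refl (Λ : Set L) (a : A ω C) : A.Cong Λ a a := fun _ _ => rfl

theorem p2_lower {y : L →+ ℤ} (hy : ∀ n ∈ C.car, 0 ≤ y n) (k : ℤ) : C.Lower {n | y n ≤ k} :=
  fun a _ b hb h => by
    have := hy b hb
    simp only [Set.mem_ofPred_eq, map_add] at h ⊢
    omega

/-- The kernel as a submonoid. -/
def p2_ker (y : L →+ ℤ) : AddSubmonoid L := y.ker.toAddSubmonoid

theorem p2_in_ker {y : L →+ ℤ} {a : A ω C} : a.In (p2_ker y) ↔ a.In {n | y n = 0} := Iff.rfl

/-- One plus an element of level one. -/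
noncomputable def p2_un {y : L →+ ℤ} {X : A ω C} (h : X.In {n | y n = 1}) : G ω C :=
  ⟨1 + X, by
    show (1 + X : A ω C).f 0 = 1
    simp [A.one_f, p2_in_zero h (n := 0) (by simp)]⟩

theorem p2_Ad_in {y : L →+ ℤ} {k : G ω C} (hk : k.1.In {n | y n = 0}) {F : A ω C}
    (hF : F.In {n | y n = 1}) : (Ad k F).In {n | y n = 1} :=
  A.In.mul (S := {n | y n = 1}) (A.In.mul hk hF fun m hm n hn => by simp_all)
    (p2_in_ker.1 (A.In.inv (p2_ker y) hk)) fun m hm n hn => by simp_all

theorem p2_ell_one (δ : L →+ ℤ) : ell δ (1 : G ω C) = 0 := by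
  have : der δ (1 : A ω C) = 0 := by
    ext n : 2
    show δ n • (1 : A ω C).f n = 0
    rw [A.one_f]
    split_ifs with h <;> simp [h]
  show _ * der δ (1 : A ω C) = 0
  rw [this, mul_zero]

theorem p2_ell_zero (δ : L →+ ℤ) (k : G ω C) : (ell δ k).f 0 = 0 := by
  rw [ell, A.mul_zero_apply]
  show _ * (δ 0 • k.1.f 0) = 0
  simp

theorem p2_ell_un {y : L →+ ℤ} (hy : ∀ n ∈ C.car, 0 ≤ y n) (δ : L →+ ℤ) {X : A ω C}
    (h : X.In {n | y n = 1}) {n : L} (hn : y n ≤ 1) : (ell δ (p2_un h)).f n = δ n • X.f n := by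
  have h1 : der δ (p2_un h).1 = der δ X := by
    ext m : 2
    show δ m • ((1 : A ω C).f m + X.f m) = δ m • X.f m
    rw [A.one_f]
    split_ifs with e <;> simp [e]
  have h2 : ((p2_un h)⁻¹).1 * (1 + X) = 1 := congrArg Subtype.val (inv_mul_cancel (p2_un h))
  have h3 : ell δ (p2_un h) = der δ X - ((p2_un h)⁻¹).1 * (X * der δ X) := by
    rw [ell, h1, eq_sub_iff_add_eq, ← mul_add]
    nth_rw 1 [← one_mul (der δ X)]
    rw [← add_mul, ← mul_assoc, h2, one_mul]
  have h4 : (der δ X).In {n | y n = 1} := fun m hm => h m fun e => hm (by simp [der, e])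
  have h5 : (((p2_un h)⁻¹).1 * (X * der δ X)).In {n | 2 ≤ y n} :=
    A.In.mul (S := C.car) (T := {n | y n = 2}) (fun m hm => ((p2_un h)⁻¹).1.supp m hm)
      (A.In.mul h h4 fun m hm n hn => by simp_all) fun m hm n hn => by
        have := hy m hm
        simp only [Set.mem_ofPred_eq, map_add] at hn ⊢
        omega
  rw [h3, A.sub_f, Pi.sub_apply, p2_in_zero h5 (by simp only [Set.mem_ofPred_eq]; omega), sub_zero]
  rfl

theorem p2_ell_gen_off (δ : L →+ ℤ) {x : Gn L} {n : L} (h : ∀ j : ℕ, j • x.2.2 ≠ n) :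
    (ell δ (gen ω C x)).f n = 0 :=
  p2_in_zero (ell_in _ δ (gen_in x)) fun ⟨j, e⟩ => h j e

theorem p2_ell_gen_self (δ : L →+ ℤ) {x : Gn L} (h : x.2.2 ∈ C.car) (h0 : x.2.2 ≠ 0) :
    (ell δ (gen ω C x)).f x.2.2 = δ x.2.2 • (cc true 1 * tp x.2.1) := by
  have := ell_gen (ω := ω) δ h h0 0
  simp only [zero_add, one_smul, pow_zero, ite_self, one_mul, Nat.cast_zero, mul_one] at this
  rw [this, p2_cc_one, tp_add]
  congr 1
  ring

theorem p2_ell_gens (δ : L →+ ℤ) {n : L} {l : List (Gn L)} (h : ∀ x ∈ l, ω.w n x.2.2 = 0) :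
    (ell δ (gens ω C l)).f n = (l.map fun x => (ell δ (gen ω C x)).f n).sum := by
  induction l with
  | nil => simp [gens, p2_ell_one]
  | cons x l ih =>
    have h' : ∀ x ∈ l, ω.w n x.2.2 = 0 := fun z hz => h z (List.mem_cons_of_mem _ hz)
    rw [List.map_cons, List.sum_cons, ← ih h']
    exact ell_mul_perp δ (p2_in_ker.1 (gens_in (p2_ker (ω.w n)) h')) _

theorem p2_par_perp (ω : Skew L) {a b : L} (hb : C.deg b ≠ 0) (h : C.Par a b) : ω.w b a = 0 := by
  have := congrArg (ω.w b) h
  simp only [map_zsmul, ω.alt, smul_eq_mul, mul_zero] at this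
  exact (mul_eq_zero.1 this).resolve_left hb

theorem p2_par_map {a b : L} (h : C.Par a b) (y : L →+ ℤ) : C.deg b * y a = C.deg a * y b := by
  simpa using congrArg y h

theorem p2_z0_par {m n : L} (hm : 0 < C.deg m) (hn : 0 < C.deg n) (h : C.Par m n) (g : G ω C) :
    z0 (th ω n) g = z0 (th ω m) g := by
  refine Subtype.ext (A.ext (funext fun a => (z0_cong (Λ := Set.univ) (fun _ _ _ _ _ => trivial)
    (fun a _ => ?_) (p2_cong_refl _ _)).1 a trivial))
  have := p2_par_map h (ω.w.flip a)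
  simp only [AddMonoidHom.flip_apply] at this
  simp only [th, AddMonoidHom.comp_apply, AddMonoidHom.neg_apply, Int.coe_castAddHom, Int.cast_pos,
    Int.cast_eq_zero, neg_pos, neg_eq_zero]
  refine ⟨⟨fun e => ?_, fun e => ?_⟩, fun e => ?_, fun e => ?_⟩
  · nlinarith
  · nlinarith
  · rw [e, mul_zero] at this
    exact (mul_eq_zero.1 this).resolve_left hn.ne'
  · rw [e, mul_zero] at this
    exact (mul_eq_zero.1 this.symm).resolve_left hm.ne'

theorem p2_cancel {d : ℤ} (hd : d ≠ 0) {a b : K} (h : d • (cc true 1 * a) = d • (cc true 1 * b)) :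
    a = b := by
  rw [zsmul_eq_mul, zsmul_eq_mul] at h
  have : CharZero K := algebraRat.charZero K
  exact mul_left_cancel₀ p2_cc_ne (mul_left_cancel₀ (Int.cast_ne_zero.2 hd) h)

theorem framed_att {y : L →+ ℤ} (hy : ∀ n ∈ C.car, 0 ≤ y n) {g gh : G ω C}
    (hg : g.1.In {n | y n = 0}) {F : A ω C} (hF : F.In {n | y n = 1})
    (h : A.Cong {n | y n ≤ 1} gh.1 (g.1 * (1 + cc true 1 • F))) :
    (∀ θ, A.Cong {n | y n ≤ 1} (z0 θ gh).1
      ((z0 θ g).1 * (1 + cc true 1 • (Ad (fc θ g) F).res {n | θ n = 0}))) ∧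
    (∀ n, y n = 0 → Att C.deg gh n = Att C.deg g n) ∧
    ∀ p, y p = 1 → Att C.deg gh p = C.deg p • (cc true 1 * att g F p) := by
  have lo := p2_lower hy 1
  have hF' : ∀ θ, (Ad (fc θ g) F).In {n | y n = 1} := fun θ =>
    p2_Ad_in (p2_in_ker.1 (fac_in (p2_ker y) θ hg).2.2) hF
  have main : ∀ θ, A.Cong {n | y n ≤ 1} (z0 θ gh).1
      ((z0 θ g).1 * (1 + cc true 1 • (Ad (fc θ g) F).res {n | θ n = 0})) := fun θ => by
    set F' := Ad (fc θ g) F with hF'd
    have h1 : (cc true 1 • F'.res {n | 0 ≤ θ n}).In {n | y n = 1} := p2_smul_in (p2_res_in' (hF' θ)) _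
    have h2 : (cc true 1 • F'.res {n | θ n < 0}).In {n | y n = 1} := p2_smul_in (p2_res_in' (hF' θ)) _
    have i1 : (p2_un h1).1.In {n | 0 ≤ θ n} := fun n hn => by
      by_contra e
      refine hn ?_
      show (1 : A ω C).f n + cc true 1 • (F'.res _).f n = 0
      rw [p2_in_zero (p2_res_in _ _) e, A.one_f, if_neg (by rintro rfl; simp at e)]
      simp
    have i2 : (p2_un h2).1.In0 {n | θ n < 0} := fun n hn => by
      by_contra e
      rw [not_or] at e
      refine hn ?_
      show (1 : A ω C).f n + cc true 1 • (F'.res _).f n = 0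
      rw [p2_in_zero (p2_res_in _ _) e.2, A.one_f, if_neg e.1]
      simp
    have i3 : (fa θ g * p2_un h1).1.In {n | 0 ≤ θ n} := A.In.mul (fa_in θ g) i1 fun m hm n hn => by
      simp only [Set.mem_ofPred_eq, map_add] at hm hn ⊢
      positivity
    have i4 : (p2_un h2 * fc θ g).1.In0 {n | θ n < 0} := A.In0.mul (fun m hm n hn => by
      simp only [Set.mem_ofPred_eq, map_add] at hm hn ⊢
      linarith) i2 (fc_in θ g)
    have c1 : A.Cong {n | y n ≤ 1} ((p2_un h1).1 * (p2_un h2).1) (1 + cc true 1 • F') := fun n hn => by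
      show ((1 + _) * (1 + _) : A ω C).f n = _
      rw [add_mul, one_mul, mul_add, mul_one]
      have : ((cc true 1 • F'.res {n | 0 ≤ θ n}) * (cc true 1 • F'.res {n | θ n < 0})).In
          {n | y n = 2} := A.In.mul h1 h2 fun m hm n hn => by simp_all
      simp only [A.add_f, Pi.add_apply, p2_in_zero this (n := n) (by
        simp only [Set.mem_ofPred_eq] at hn ⊢; omega), A.smul_f, Pi.smul_apply, p2_res_f,
        Set.indicator_apply, Set.mem_ofPred_eq]
      rcases le_or_gt 0 (θ n) with e | e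
      · simp [e, e.not_gt]
      · simp [e, e.not_ge]
    have e1 : g.1 * (1 + cc true 1 • F) = (fa θ g).1 * (1 + cc true 1 • F') * (fc θ g).1 := by
      have a1 : ((fc θ g)⁻¹).1 * (fc θ g).1 = 1 := congrArg Subtype.val (inv_mul_cancel (fc θ g))
      have a2 : (fa θ g).1 * (fc θ g).1 = g.1 := congrArg Subtype.val (fa_mul_fc θ g)
      rw [mul_assoc, add_mul, one_mul, smul_mul_assoc, hF'd, Ad, mul_assoc, a1, mul_one, ← a2,
        mul_assoc, mul_add (fc θ g).1, mul_one, mul_smul_comm]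
    have c2 : A.Cong {n | y n ≤ 1} (fa θ g * p2_un h1 * (p2_un h2 * fc θ g)).1 gh.1 := fun n hn => by
      rw [h n hn, e1, ← ((p2_cong_refl _ (fa θ g).1).mul lo c1).mul lo (p2_cong_refl _ (fc θ g).1) n hn]
      simp only [Submonoid.coe_mul, mul_assoc]
    have c3 := (fac_cong lo θ c2 (fun n _ hn => i3 n hn) fun n _ hn => i4 n hn).1
    intro n hn
    have e2 : (p2_un h1).1.res {n | θ n = 0} = 1 + cc true 1 • F'.res {n | θ n = 0} := by
      ext m : 2
      show Set.indicator _ ((1 : A ω C).f + cc true 1 • (F'.res _).f) m = _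
      simp only [Set.indicator_apply, Set.mem_ofPred_eq, A.add_f, Pi.add_apply, A.smul_f,
        Pi.smul_apply, p2_res_f, A.one_f]
      by_cases e : θ m = 0
      · simp [e]
      · rw [if_neg e, if_neg e, if_neg (by rintro rfl; simp at e)]
        simp
    rw [← e2]
    show _ = ((fa θ g).1.res _ * _).f n
    rw [← A.res_mul θ (fa_in θ g) i1]
    show Set.indicator _ _ n = Set.indicator _ _ n
    simp only [Set.indicator_apply, c3 n hn, Submonoid.coe_mul]
  have key : ∀ n, y n ≤ 1 → Att C.deg gh n = Att C.deg g n + C.deg n • (cc true 1 * att g F n) :=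
    fun n hn => by
      have h1 : (cc true 1 • (Ad (fc (th ω n) g) F).res {m | th ω n m = 0}).In {n | y n = 1} :=
        p2_smul_in (p2_res_in' (hF' _)) _
      have i1 : (p2_un h1).1.In {m | ω.w n m = 0} := fun m hm => by
        by_contra e
        refine hm ?_
        show (1 : A ω C).f m + cc true 1 • (A.res _ _).f m = 0
        rw [p2_in_zero (p2_res_in _ _) (by simpa [th] using e), A.one_f,
          if_neg (by rintro rfl; simp at e)]
        simp
      rw [Att, ell_cong lo C.deg (k' := z0 (th ω n) g * p2_un h1) (main _) n hn,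
        ell_mul_perp C.deg i1, p2_ell_un hy _ _ hn, A.smul_f, Pi.smul_apply, p2_res_f,
        Set.indicator_of_mem (by simp [th, ω.alt])]
      rfl
  refine ⟨main, fun n hn => ?_, fun p hp => ?_⟩
  · rw [key n (by omega), att, p2_in_zero (hF' _) (by simp [hn])]
    simp
  · rw [key p hp.le, Att, p2_in_zero (ell_in (p2_ker y) _ (fac_in (p2_ker y) _ hg).2.1) (by simp [p2_ker, hp]),
      zero_add]

theorem att_xi [DecidableEq L] {y : L →+ ℤ} (hy : ∀ n ∈ C.car, 0 ≤ y n) {I : Finset L} (hI : ∀ e ∈ I, y e = 0)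
    {Y : L} (hY : Y ∈ C.car) (hY1 : y Y = 1) {g gh : G ω C} (hg : IsInit I g)
    (hgh : IsInit (insert Y I) gh) (p : L) (hp : y p = 1) :
    att g (xi y g gh) p = if p = Y then 1 else 0 := by
  have nY : Y ∉ I := fun e => by have := hI Y e; omega
  have Y0 : Y ≠ 0 := by rintro rfl; simp at hY1
  by_cases hc : p ∈ C.car
  swap
  · rw [att, A.eq_zero hc, if_neg (by rintro rfl; exact hc hY)]
  have p0 : p ≠ 0 := by rintro rfl; simp at hp
  have c0 : A.Cong {n | y n ≤ 0} gh.1 g.1 := cong_of_att (p2_lower hy 0) fun n hn h1 h2 => by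
    rw [hgh n h1 h2, hg n h1 h2, sum_insert nY, EE, p2_ell_gen_off, zero_add]
    rintro j rfl
    simp only [Set.mem_ofPred_eq, map_nsmul, hY1, nsmul_eq_mul, mul_one] at hn
    exact h2 (by rw [show j = 0 by omega, zero_smul])
  have c1 : A.Cong {n | y n ≤ 1} (g⁻¹ * gh).1 (1 + cc true 1 • xi y g gh) := fun n hn => by
    rw [xi, smul_inv_smul₀ p2_cc_ne, A.add_f, Pi.add_apply, p2_res_f]
    by_cases e : y n = 1
    · rw [Set.indicator_of_mem (s := {n | y n = 1}) e, A.one_f, if_neg (by rintro rfl; simp at e), zero_add]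
    · have a1 : (g⁻¹).1 * g.1 = 1 := congrArg Subtype.val (inv_mul_cancel g)
      rw [Set.indicator_of_notMem (s := {n | y n = 1}) e, add_zero, ← a1]
      exact (p2_cong_refl _ (g⁻¹).1).mul (p2_lower hy 0) c0 n (by
        simp only [Set.mem_ofPred_eq] at hn ⊢; omega)
  have c2 : A.Cong {n | y n ≤ 1} gh.1 (g.1 * (1 + cc true 1 • xi y g gh)) := fun n hn => by
    rw [← (p2_cong_refl _ g.1).mul (p2_lower hy 1) c1 n hn, ← Submonoid.coe_mul, mul_inv_cancel_left]
  have k := (framed_att hy (p2_in_ker.1 (hg.in (p2_ker y) hI)) (p2_smul_in (p2_res_in _ _) _) c2).2.2 p hp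
  have k0 : ∑ e ∈ I, (ell C.deg (EE ω C e)).f p = 0 :=
    sum_eq_zero fun e he => p2_ell_gen_off _ fun j a => by
      have := congrArg y a
      simp [hI e he, hp] at this
  rw [hgh p hc p0, sum_insert nY, k0, add_zero] at k
  refine p2_cancel (C.pos p hc p0).ne' (k.symm.trans ?_)
  split_ifs with e
  · subst e
    exact (p2_ell_gen_self C.deg (x := (true, 0, p)) hc p0).trans (by rw [tp_zero])
  · rw [EE, p2_ell_gen_off, mul_zero, smul_zero]
    rintro j rfl
    simp only [map_nsmul, hY1, nsmul_eq_mul, mul_one] at hp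
    exact e (by rw [show j = 1 by omega, one_smul])

theorem eq_of_att {y : L →+ ℤ} (hy : ∀ n ∈ C.car, 0 ≤ y n) {g : G ω C}
    (hg : g.1.In {n | y n = 0}) {F F' : A ω C} (hF : F.In {n | y n = 1}) (hF' : F'.In {n | y n = 1})
    (h : ∀ p, y p = 1 → att g F p = att g F' p) : F = F' := by
  have k := framed_att hy (gh := g * p2_un (p2_smul_in hF (cc true 1))) hg hF (p2_cong_refl _ _)
  have k' := framed_att hy (gh := g * p2_un (p2_smul_in hF' (cc true 1))) hg hF' (p2_cong_refl _ _)
  have c := cong_of_att (g := g * p2_un (p2_smul_in hF (cc true 1)))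
    (g' := g * p2_un (p2_smul_in hF' (cc true 1))) (p2_lower hy 1) fun n hn h1 _ => by
      have := hy n h1
      by_cases e : y n = 0
      · rw [k.2.1 n e, k'.2.1 n e]
      · have e1 : y n = 1 := by simp only [Set.mem_ofPred_eq] at hn; omega
        rw [k.2.2 n e1, k'.2.2 n e1, h n e1]
  ext n : 2
  by_cases e : y n = 1
  · have := (p2_cong_refl _ (g⁻¹).1).mul (p2_lower hy 1) c n e.le
    rw [← Submonoid.coe_mul, ← Submonoid.coe_mul, inv_mul_cancel_left, inv_mul_cancel_left] at this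
    exact mul_left_cancel₀ p2_cc_ne (add_left_cancel this)
  · rw [p2_in_zero hF e, p2_in_zero hF' e]

theorem framed_pos {ι : Type} [Fintype ι] {ω : Skew (ι → ℤ)} {C : Cone (ι → ℤ)}
    {y : (ι → ℤ) →+ ℤ} (hy : ∀ n ∈ C.car, 0 ≤ y n) {I : Finset (ι → ℤ)}
    (hI : ∀ e ∈ I, y e = 0) {g : G ω C} (hg : IsInit I g) {F : A ω C} (hF : F.In {n | y n = 1})
    (h : ∀ p ∈ C.car, y p = 1 → Pos (att g F p)) :
    (∀ θ p, Pos ((Ad (fc θ g) F).f p)) ∧ ∀ p, Pos (F.f p) := by
  classical
  have hg0 : g.1.In {n | y n = 0} := p2_in_ker.1 (hg.in (p2_ker y) hI)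
  have hF' : ∀ θ, (Ad (fc θ g) F).In {n | y n = 1} := fun θ =>
    p2_Ad_in (p2_in_ker.1 (fac_in (p2_ker y) θ hg0).2.2) hF
  set gh := g * p2_un (p2_smul_in hF (cc true 1)) with hgh
  have k := framed_att hy (gh := gh) hg0 hF (p2_cong_refl _ _)
  have one : ∀ {m n : ι → ℤ}, n ∈ C.car → m ∈ C.car → m ≠ 0 → y n = 1 → C.Par m n →
      1 ≤ y m ∧ (y m = 1 → m = n) := fun {m n} hn hm m0 e hp => by
    have h1 := p2_par_map hp y
    have h2 := C.pos m hm m0
    have h3 := C.pos n hn (by rintro rfl; simp at e)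
    rw [e, mul_one] at h1
    refine ⟨by nlinarith, fun e' => ?_⟩
    rw [e', mul_one] at h1
    have h4 : C.deg n • m = C.deg m • n := hp
    rw [← h1] at h4
    exact smul_right_injective _ h3.ne' h4
  have main : ∀ θ p, Pos ((Ad (fc θ g) F).f p) := fun θ p => by
    by_cases hc : p ∈ C.car
    swap
    · rw [A.eq_zero hc]; exact Pos.zero
    by_cases hp : y p = 1
    swap
    · rw [p2_in_zero (hF' θ) hp]; exact Pos.zero
    have p0 : p ≠ 0 := by rintro rfl; simp at hp
    set Λ : Set (ι → ℤ) := {m | p - m ∈ C.car} with hΛd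
    have lo : C.Lower Λ := fun a _ b hb hab => by
      have := C.car.add_mem hab hb
      simp only [hΛd, Set.mem_ofPred_eq]
      convert this using 1
      abel
    have fin : (Λ ∩ C.car).Finite := (C.box p).finite_toSet.subset fun m hm =>
      mem_coe.2 (Cone.mem_box.2 ⟨hm.2, hm.1⟩)
    have pΛ : p ∈ Λ := by simp [hΛd]
    have le1 : ∀ m ∈ Λ, y m ≤ 1 := fun m hm => by
      have := hy _ hm
      rw [map_sub] at this
      omega
    set yq := (Int.castAddHom ℚ).comp y with hyq
    set ξ := (Int.castAddHom ℚ).comp C.deg - (C.deg p : ℚ) • yq with hξ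
    obtain ⟨ε, ε0, hε⟩ := exists_eps fin (θ - θ p • yq) ξ
    have lex := hε ε ε0 le_rfl
    set θ' := θ - θ p • yq + ε • ξ with hθ'
    have tp0 : θ' p = 0 := by simp [hθ', hξ, hyq, hp]
    have sg : ∀ a ∈ Λ, a ∈ C.car → a ≠ 0 → y a = 0 → θ' a ≠ 0 ∧ (0 < θ' a ↔ 0 ≤ θ a) :=
      fun a h1 h2 h3 h4 => by
        have h5 : (0 : ℚ) < C.deg a := by exact_mod_cast C.pos a h2 h3
        have := lex a ⟨h1, h2⟩
        simp only [hξ, hyq, AddMonoidHom.sub_apply, AddMonoidHom.smul_apply,
          AddMonoidHom.comp_apply, h4, map_zero, smul_zero, sub_zero, Int.coe_castAddHom, h5,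
          h5.ne', and_true, and_false, iff_false] at this
        exact ⟨this.2, this.1.trans ⟨fun e => e.elim le_of_lt ge_of_eq,
          fun e => e.lt_or_eq.imp id Eq.symm⟩⟩
    have kill : ∀ a ∈ Λ, a ∈ C.car → a ≠ 0 → θ' a = 0 → a = p := fun a h1 h2 h3 h4 => by
      have h5 := hy a h2
      have h6 := le1 a h1
      have h7 : y a = 1 := by
        by_contra e
        exact (sg a h1 h2 h3 (by omega)).1 h4
      have h8 := ((lex a ⟨h1, h2⟩).2.1 h4).2
      simp only [hξ, hyq, AddMonoidHom.sub_apply, AddMonoidHom.smul_apply, AddMonoidHom.comp_apply,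
        h7, Int.coe_castAddHom, Int.cast_one, smul_eq_mul, mul_one, sub_eq_zero,
        Int.cast_inj] at h8
      by_contra e
      have := C.pos _ h1 (sub_ne_zero.2 (Ne.symm e))
      rw [map_sub] at this
      omega
    have cfc : A.Cong Λ (fc θ' g).1 (fc θ g).1 := by
      refine (fac_cong lo θ' (a := fa θ g) (by rw [fa_mul_fc]; exact p2_cong_refl _ _)
        (fun n h1 hn => ?_) fun n h1 hn => ?_).2
      · by_cases e : n = 0
        · simp [e]
        · exact ((sg n h1 ((fa θ g).1.supp n hn) e ((fac_in (p2_ker y) θ hg0).1 n hn)).2.2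
            (fa_in θ g n hn)).le
      · by_cases e : n = 0
        · exact Or.inl e
        · have := sg n h1 ((fc θ g).1.supp n hn) e ((fac_in (p2_ker y) θ hg0).2.2 n hn)
          have h2 : θ n < 0 := (fc_in θ g n hn).resolve_left e
          exact Or.inr (lt_of_le_of_ne (not_lt.1 fun a => h2.not_ge (this.2.1 a)) this.1)
    rw [← show (Ad (fc θ' g) F).f p = (Ad (fc θ g) F).f p from
      (cfc.mul lo (p2_cong_refl _ F)).mul lo (A.Cong.inv lo cfc) p pΛ]
    obtain ⟨l, hl, hz⟩ := wall_pos gh lo fin (fun n hn h1 n0 => by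
      have dn := C.pos n h1 n0
      by_cases e : y n = 0
      · refine ⟨(I.filter fun e => e ∈ C.car ∧ e ≠ 0 ∧ C.Par e n).toList.map fun e => (true, 0, e),
          fun x hx => ?_, fun m hm h2 hpar => ?_⟩
        · obtain ⟨e, he, rfl⟩ := List.mem_map.1 hx
          exact (mem_filter.1 (mem_toList.1 he)).2
        by_cases m0 : m = 0
        · rw [m0, p2_ell_zero, p2_ell_zero]
        have dm := C.pos m h2 m0
        have ym : y m = 0 := by
          have := p2_par_map hpar y
          rw [e, mul_zero] at this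
          exact (mul_eq_zero.1 this).resolve_left dn.ne'
        rw [p2_z0_par dm dn hpar, p2_ell_gens, List.map_map, sum_map_toList, sum_filter_of_ne]
        · exact (k.2.1 m ym).trans (hg m h2 m0)
        · intro a _ ha
          by_cases b : a ∈ C.car ∧ a ≠ 0
          swap
          · exact absurd (by simp [gen, b, p2_ell_one]) ha
          refine ⟨b.1, b.2, by_contra fun b' => ha (p2_ell_gen_off _ ?_)⟩
          rintro j rfl
          refine b' (smul_right_injective _ (r := j) (fun j0 => m0 (by simp [j0])) ?_)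
          have h4 : C.deg n • j • a = C.deg (j • a) • n := hpar
          show j • C.deg n • a = j • C.deg a • n
          rw [smul_comm, h4, map_nsmul, smul_assoc]
        · intro x hx
          obtain ⟨a, ha, rfl⟩ := List.mem_map.1 hx
          have h3 := p2_par_perp ω dn.ne' (mem_filter.1 (mem_toList.1 ha)).2.2.2
          have h4 := p2_par_map hpar (ω.w.flip a)
          simp only [AddMonoidHom.flip_apply, h3, mul_zero] at h4
          exact (mul_eq_zero.1 h4).resolve_left dn.ne'
      · have e1 : y n = 1 := by have := le1 n hn; have := hy n h1; omega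
        obtain ⟨s, hs⟩ := h n h1 e1
        refine ⟨s.toList.map fun a => (true, a, n), fun x hx => ?_, fun m hm h2 hpar => ?_⟩
        · obtain ⟨e, -, rfl⟩ := List.mem_map.1 hx
          exact ⟨h1, n0, rfl⟩
        by_cases m0 : m = 0
        · rw [m0, p2_ell_zero, p2_ell_zero]
        have := one h1 h2 m0 e1 hpar
        obtain rfl := this.2 (le_antisymm (le1 m hm) this.1)
        rw [p2_ell_gens, List.map_map]
        · refine (k.2.2 m e1).trans ?_
          rw [hs, ← Multiset.sum_coe, ← Multiset.map_coe, Multiset.coe_toList,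
            ← Multiset.sum_map_mul_left, Multiset.smul_sum, Multiset.map_map]
          exact congrArg _ (Multiset.map_congr rfl fun a _ =>
            (p2_ell_gen_self C.deg (x := (true, a, m)) h1 n0).symm)
        · intro x hx
          obtain ⟨a, -, rfl⟩ := List.mem_map.1 hx
          exact ω.alt _) θ' hc p0 fun a h1 h2 h3 h4 => by rw [kill a h1 h2 h3 h4]; rfl
    have dp := C.pos p hc p0
    have h1 : (cc true 1 • (Ad (fc θ' g) F).res {m | θ' m = 0}).In {n | y n = 1} :=
      p2_smul_in (p2_res_in' (hF' _)) _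
    have z1 : A.Cong Λ (z0 θ' g).1 1 := fun n hn => by
      by_cases e : n = 0
      · rw [e, G.f_zero, A.one_f, if_pos rfl]
      · rw [A.one_f, if_neg e]
        by_contra b
        exact (sg n hn ((z0 θ' g).1.supp n b) e ((fac_in (p2_ker y) θ' hg0).2.1 n b)).1
          (z0_in θ' g n b)
    have z2 : A.Cong Λ (p2_un h1).1 (gens ω C l).1 := fun n hn => by
      rw [← hz n hn, k.1 θ' n (le1 n hn), z1.mul lo (p2_cong_refl _ _) n hn, one_mul]
      rfl
    have z3 := ell_cong lo C.deg z2 p pΛ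
    rw [p2_ell_un hy _ _ hp.le, A.smul_f, Pi.smul_apply, p2_res_f,
      Set.indicator_of_mem (s := {m | θ' m = 0}) tp0,
      p2_ell_gens _ fun x hx => p2_par_perp ω dp.ne' (hl x hx).2.2] at z3
    have z4 : ∀ l : List (Gn (ι → ℤ)), (∀ x ∈ l, x.2.2 ∈ C.car ∧ x.2.2 ≠ 0 ∧ C.Par x.2.2 p) →
        ∃ P, Pos P ∧ (l.map fun x => (ell C.deg (gen ω C x)).f p).sum =
          C.deg p • (cc true 1 * P) := fun l hl => by
      induction l with
      | nil => exact ⟨0, Pos.zero, by simp⟩
      | cons x l ih =>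
        obtain ⟨P, hP, e⟩ := ih fun z hz => hl z (List.mem_cons_of_mem _ hz)
        obtain ⟨a1, a2, a3⟩ := hl x List.mem_cons_self
        rw [List.map_cons, List.sum_cons, e]
        by_cases b : x.2.2 = p
        · refine ⟨tp x.2.1 + P, (Pos.tp _).add hP, ?_⟩
          rw [← b, p2_ell_gen_self _ a1 a2, mul_add, smul_add]
        · refine ⟨P, hP, ?_⟩
          rw [p2_ell_gen_off, zero_add]
          intro j hj
          have a4 := one hc a1 a2 hp a3
          have a5 := congrArg y hj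
          rw [map_nsmul, hp, nsmul_eq_mul] at a5
          exact b (a4.2 (Int.eq_one_of_mul_eq_one_left (by omega) a5))
    obtain ⟨P, hP, e⟩ := z4 l hl
    rw [p2_cancel dp.ne' (z3.trans e)]
    exact hP
  refine ⟨main, fun p => ?_⟩
  have e := (fac_unique (0 : (ι → ℤ) →+ ℚ) (mul_one g) (fun n _ => by simp) fun n hn => by
    left
    by_contra b
    exact hn ((A.one_f n).trans (if_neg b))).2
  have := main 0 p
  rwa [e, Ad, inv_one, OneMemClass.coe_one, one_mul, mul_one] at this

end Pool.Agent.Lib.MP_33bfb2_co.Th
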