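import Pool.Agent.Lib.MP_33bfb2_co.Th.M1
import Pool.Agent.Lib.MP_33bfb2_co.Th.P2
import Pool.Agent.Lib.MP_33bfb2_co.Th.DM
import Pool.Agent.Lib.MP_33bfb2_co.Th.DD
import Pool.Agent.Lib.MP_33bfb2_co.Th.DF
import Pool.Agent.Lib.MP_33bfb2_co.Th.DP

namespace Pool.Agent.Lib.MP_33bfb2_co.Th.Gr

open Finset

/-! ## File DTh: theorem THETA on the grid -/

section general
variable {L : Type} [AddCommGroup L] {ω : Skew L} {C : Cone L} {V : Type} [Fintype V]

theorem Ad_mul2 (k : G ω C) (a b : A ω C) : Ad k (a * b) = Ad k a * Ad k b := by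
  simp only [Ad, mul_assoc]
  rw [← mul_assoc (k⁻¹).1, G.inv_mul_val, one_mul]

theorem FF_Ad {vec vec' : V → L} (E : G ω C) (h : ∀ k, ek ω C vec' k = Ad E (ek ω C vec k))
    (φ : List ℕ × List ℕ →₀ K) (Z : A ω C) : FF vec' φ (Ad E Z) = Ad E (FF vec φ Z) := by
  have hw : ∀ al, ew ω C vec' al = Ad E (ew ω C vec al) := fun al => by
    induction al with
    | nil => show (1 : A ω C) = E.1 * 1 * (E⁻¹).1; rw [mul_one, G.mul_inv_val]
    | cons k al ih =>
      show ek ω C vec' k * ew ω C vec' al = Ad E (ek ω C vec k * ew ω C vec al)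
      rw [Ad_mul2, h, ih]
  have e : ∀ a : A ω C, Ad E a = (LinearMap.mulLeftRight K (E.1, (E⁻¹).1)) a := fun a => rfl
  rw [e (FF _ _ _), FF, FF, Finsupp.sum, Finsupp.sum, map_sum]
  exact sum_congr rfl fun ab _ => by rw [map_smul, ← e, Ad_mul2, Ad_mul2, hw, hw]

theorem xi_in (y : L →+ ℤ) (g gh : G ω C) : (xi y g gh).In {n | y n = 1} :=
  in_smul _ (A.res_in _ _)

theorem xi_eq_mon [DecidableEq L] {y : L →+ ℤ} (hy : ∀ n ∈ C.car, 0 ≤ y n) {I : Finset L}
    (hI : ∀ e ∈ I, y e = 0) {Y : L} (hY : Y ∈ C.car) (hY1 : y Y = 1) {g gh : G ω C}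
    (hg : IsInit I g) (hgh : IsInit (insert Y I) gh) (hw : ∀ e ∈ I, ω.w Y e ≤ 0) :
    xi y g gh = A.mon ω C Y := by
  refine eq_of_att hy (hg.in (AddMonoidHom.mker y) hI) (xi_in y g gh) (mon_in hY1) fun p hp => ?_
  rw [att_xi hy hI hY hY1 hg hgh p hp]
  let S : AddSubmonoid L := nonneg (th ω Y) ⊓ neg0 (th ω p)
  have hc : (fc (th ω p) g).1.In S := fun n hn => ⟨(fac_in (nonneg (th ω Y)) _
    (hg.in _ fun e he => by
      show 0 ≤ th ω Y e
      rw [th_apply, neg_nonneg]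
      exact_mod_cast hw e he)).2.2 n hn, fc_in _ _ n hn⟩
  split_ifs with e
  · subst e
    rw [att, Ad_apply_perp fun n hn => ?_, A.mon_f hY, if_pos rfl]
    rcases (hc n hn).2 with h | h
    · simp [h]
    · exact absurd (hc n hn).1 (not_le.2 h)
  · by_contra h
    have : (Ad (fc (th ω p) g) (A.mon ω C Y)).In {q | q - Y ∈ S} :=
      (hc.mul (mon_in (S := {Y}) rfl) (U := {q | q - Y ∈ S}) (by
        rintro a ha _ rfl
        simpa using ha)).mul (A.In.inv S hc) fun a ha b hb => by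
          have := S.add_mem ha hb
          rwa [sub_add_eq_add_sub] at this
    obtain ⟨h1, h2 | h2⟩ := this p (Ne.symm h)
    · exact e (sub_eq_zero.1 h2)
    · have h3 : 0 ≤ th ω Y (p - Y) := h1
      simp only [th_apply, map_sub, ω.alt, ω.skew p Y] at h2 h3
      push_cast at h2 h3
      linarith

theorem tau_back (X q : L) : tau ω X (q - max (- ω.w q X) 0 • X) = q := by
  rw [tau, map_sub, map_zsmul, AddMonoidHom.sub_apply, AddMonoidHom.zsmul_apply, ω.alt, smul_zero,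
    sub_zero, sub_add_cancel]

end general

variable {n m : ℕ} (i0 : ℕ)

/-- The group element of the state s. -/
noncomputable def gI (m : ℕ) (s : Fin (n + 1) → ℕ) : G (om n m i0) (Cn m s) :=
  (exists_init (Fs m s)).choose

/-- The framed group element of the state s. -/
noncomputable def gH (m : ℕ) (s : Fin (n + 1) → ℕ) : G (om n m i0) (Cn m s) :=
  (exists_init (insert (Yv n m) (Fs m s))).choose

/-- The dressed framing monomial of the state s. -/
noncomputable def Xi (m : ℕ) (s : Fin (n + 1) → ℕ) : A (om n m i0) (Cn m s) :=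
  xi (yy n m) (gI i0 m s) (gH i0 m s)

theorem gI_init (s : Fin (n + 1) → ℕ) : IsInit (Fs m s) (gI i0 m s) :=
  (exists_init (Fs m s)).choose_spec

theorem gH_init (s : Fin (n + 1) → ℕ) : IsInit (insert (Yv n m) (Fs m s)) (gH i0 m s) :=
  (exists_init (insert (Yv n m) (Fs m s))).choose_spec

theorem yy_Fs {s : Fin (n + 1) → ℕ} : ∀ e ∈ Fs m s, yy n m e = 0 := fun e he => by
  obtain ⟨p, -, rfl⟩ := mem_image.1 he
  exact yy_face _ _

theorem yy_car {s : Fin (n + 1) → ℕ} : ∀ p ∈ (Cn m s).car, 0 ≤ yy n m p := fun _ h =>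
  (mem_Cn.1 h).1

theorem step {s : Fin (n + 1) → ℕ} {i : Fin (n + 1)} (h : Ok s i) :
    (Xi i0 m s).f = (Ad (EE _ _ (Xv m i (s i))) (Xi i0 m (up s i))).f ∧
    (∀ (φ : List ℕ × List ℕ →₀ K) p, att (gI i0 m (up s i)) (FF (vec (up s i)) φ (Xi i0 m (up s i))) p
      = att (gI i0 m s) (FF (vec s) φ (Xi i0 m s)) (tau (om n m i0) (Xv m i (s i)) p)) ∧
    ∀ θ : Lt n m →+ ℚ, θ (Xv m i (s i)) ≤ 0 → ∀ S : AddSubmonoid (Lt n m), Xv m i (s i) ∈ S →
      (fc θ (gI i0 m (up s i))).1.In S → (fc θ (gI i0 m s)).1.In S := by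
  obtain ⟨Γ, db, I, M, hJ, e1, e2, e3⟩ := move (m := m) i0 h
  have hI : MutI _ _ _ _ _ _ I := fun e he => hJ e (mem_insert_of_mem he)
  have g1 := gI_init (m := m) i0 (up s i)
  have g2 := gI_init (m := m) i0 s
  have g3 := gH_init (m := m) i0 (up s i)
  have g4 := gH_init (m := m) i0 s
  rw [e1] at g1 g3
  rw [e2] at g2 g4
  rw [insert_comm] at g3 g4
  rw [← e3, ← image_insert] at g4
  obtain ⟨x1, x2⟩ := mut_xi M hI hJ g1 g2 g3 g4 (yy n m) (yy_Xv _)
  have hX : Xv m i (s i) ∈ (Cn m (up s i)).car := Xv_mem (by simp [up])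
  refine ⟨x1, fun φ p => mut_att M hI g1 g2 ?_ ?_ p, mut_fc M hI g1 g2⟩
  · rw [← FF_Ad _ (ek_mut (a := .inl i.castSucc) (j := .inr (i, mv m (s i))) (b := .inl i.succ)
      hX (Xv_ne _) (fun x => vec_mem x) (by simp) (by simp [Fin.ext_iff]) (by simp)
      (fun x hx => vec_up_ne hx) vec_up_mv vec_mv (w_vec_Xv h) (w_hv_hv _ _))]
    refine FF_f_congr (fun x => ?_) (fun x => vec_mem x) φ x1
    by_cases e : x = .inr (i, mv m (s i))
    · rw [e, vec_mv]
      exact add_mem (hv_mem _) hX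
    · rw [vec_up_ne e]
      exact vec_mem x
  · let S : AddSubmonoid (Lt n m) := (AddSubmonoid.nonneg ℤ).comap
      (sg m i (s i) + (om n m i0).w.flip (Xv m i (s i)))
    refine FF_in (S := S) (T := S) (fun x => ?_) x2 (fun a ha b hb => S.add_mem ha hb) φ
    show 0 ≤ sg m i (s i) _ + (om n m i0).w _ _
    rw [w_vec_Xv h]
    by_cases e : x = .inr (i, mv m (s i))
    · rw [if_pos (Or.inr e), e, vec_up_mv, map_add, M.laX', sg_hv]
      simp
    · have := (mem_Cn.1 (vec_mem (s := s) x)).2.2 i 0 (by omega)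
      rw [add_zero, vec_up_ne e] at this
      split_ifs with a b
      · omega
      · rw [b]
        show 0 ≤ sg m i (s i) (hv m i.succ) + -1
        rw [sg_hv]
        simp
      · omega

theorem XK_mem {j k : ℕ} (h : j < k) : XK n m j ∈ (Cn m (st n k)).car := Xv_mem (st_lt h)

theorem Xi_in (d j : ℕ) : (Xi i0 m (st n j)).In (Cn m (st n (j + d))).car := by
  induction d generalizing j with
  | zero => exact (Xi i0 m (st n j)).supp
  | succ d ih =>
    have h := ih (j + 1)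
    rw [st_succ j, add_right_comm, add_assoc] at h
    have hE := EE_in (ω := om n m i0) (C := Cn m (up (st n j) (mv n j))) _
      (XK_mem (n := n) (m := m) (show j < j + (d + 1) by omega))
    intro p hp
    rw [(step i0 (st_ok j)).1] at hp
    exact (hE.mul_sub _ h).mul_sub _ (A.In.inv _ hE) p hp

theorem fc_in_later (θ : Lt n m →+ ℚ) {k0 : ℕ} (hθ : ∀ k, k0 ≤ k → θ (XK n m k) ≤ 0) (d j : ℕ)
    (hj : k0 ≤ j) : (fc θ (gI i0 m (st n j))).1.In (Cn m (st n (j + d))).car := by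
  induction d generalizing j with
  | zero => exact (fc θ (gI i0 m (st n j))).1.supp
  | succ d ih =>
    have h := ih (j + 1) (by omega)
    rw [st_succ j, add_right_comm, add_assoc] at h
    exact (step i0 (st_ok j)).2.2 θ (hθ j hj) _ (XK_mem (by omega)) h

theorem stop_pos (φ : List ℕ × List ℕ →₀ K)
    (h : ∀ d, Pos (MvPolynomial.coeff d (phibar (n + 2) i0 φ))) {k0 : ℕ} {p : Lt n m}
    (h1 : ∀ k, k0 ≤ k → 0 ≤ (om n m i0).w p (XK n m k)) (h2 : ∀ i, mi m i p = 0) :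
    Pos (att (gI i0 m (st n k0)) (FF (vec (st n k0)) φ (Xi i0 m (st n k0))) p) := by
  obtain ⟨T, hT⟩ : ∃ T : AddSubmonoid (Lt n m), ∀ q, q ∈ T ↔ ∀ i, 0 ≤ mi m i q :=
    ⟨⨅ i, (AddSubmonoid.nonneg ℤ).comap (mi m i), fun q => by simp [AddSubmonoid.mem_iInf]⟩
  obtain ⟨μ, hμ⟩ : ∃ μ : Lt n m →+ ℚ, ∀ q, μ q = ((∑ i, mi m i q : ℤ) : ℚ) :=
    ⟨(Int.castAddHom ℚ).comp (∑ i, mi m i), fun q => by simp [AddMonoidHom.finsetSum_apply]⟩
  have later : ∀ a : A (om n m i0) (Cn m (st n k0)),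
      (∀ d, a.In (Cn m (st n (k0 + d))).car) → a.In T := fun a ha q hq =>
    (hT q).2 (mi_nonneg k0 fun k hk => by
      obtain ⟨d, rfl⟩ := Nat.exists_eq_add_of_le hk
      exact ha d q hq)
  have a1 : ∀ x, vec (st n k0) x ∈ T := fun x => (hT _).2 fun i => by
    rw [mi_vec]
    rcases x with a | q <;> simp only [Sum.elim_inl, Sum.elim_inr] <;> (try split_ifs) <;> omega
  have a2 : ∀ q ∈ T, 0 ≤ μ q := fun q hq => by
    rw [hμ]
    exact_mod_cast sum_nonneg fun i _ => (hT q).1 hq i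
  have a3 : ∀ a, μ (vec (st n k0) (Function.Embedding.inl (β := Fin (n + 1) × Fin (m + 1)) a)) = 0 :=
    fun a => by simp [hμ, mi_vec]
  have a4 : ∀ x, x ∉ Set.range (Function.Embedding.inl (β := Fin (n + 1) × Fin (m + 1))) →
      0 < μ (vec (st n k0) x) := fun x hx => by
    rcases x with a | q
    · exact absurd ⟨a, rfl⟩ hx
    · simp [hμ, mi_vec]
  have a5 : ∀ q ∈ T, μ q = 0 → ∀ a, (om n m i0).w (hv m a) q =
      yy n m q * (om n m i0).w (hv m a) (Yv n m) := fun q hq hq' a => by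
    rw [hμ, Int.cast_eq_zero, sum_eq_zero_iff_of_nonneg fun i _ => (hT q).1 hq i] at hq'
    rw [w_hv, w_hv_Yv, sum_eq_zero fun j hj => by rw [hq' j hj, mul_zero], zero_add]
  have a6 : (fc (th (om n m i0) p) (gI i0 m (st n k0))).1.In T :=
    later _ fun d => fc_in_later i0 _ (fun k hk => by
      rw [th_apply, neg_nonpos]
      exact_mod_cast h1 k hk) d k0 le_rfl
  have a7 : (fc (th (om n m i0) p) (gI i0 m (st n k0))).1.In {q | yy n m q = 0} :=
    (fac_in (AddMonoidHom.mker (yy n m)) _ ((gI_init i0 _).in _ yy_Fs)).2.2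
  have a8 : ∀ q, Pos ((Ad (fc (th (om n m i0) p) (gI i0 m (st n k0))) (Xi i0 m (st n k0))).f q) :=
    (framed_pos yy_car yy_Fs (gI_init i0 _) (xi_in _ _ _) fun q _ hq => by
      rw [att_xi yy_car yy_Fs Yv_mem yy_Yv (gI_init i0 _) (gH_init i0 _) q hq]
      split_ifs
      exacts [Pos.one, Pos.zero]).1 _
  exact eval_pos Function.Embedding.inl μ (yy n m) T Yv_mem a1 a2 a3 a4 a5 a6 a7
    (later _ fun d => Xi_in i0 d k0) (xi_in _ _ _) a8 φ
    (heavy_pos (fun a => hv_mem a) Yv_mem φ h) (by simp [hμ, h2])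

theorem att_pos (φ : List ℕ × List ℕ →₀ K)
    (h : ∀ d, Pos (MvPolynomial.coeff d (phibar (n + 2) i0 φ))) (p0 : Lt n m)
    (hy : yy n m p0 = 1) :
    Pos (att (gI i0 m (st n 0)) (FF (vec (st n 0)) φ (Xi i0 m (st n 0))) p0) := by
  obtain ⟨p, rfl, hs⟩ : ∃ p : ℕ → Lt n m, p 0 = p0 ∧
      ∀ k, p (k + 1) = p k - max (- (om n m i0).w (p k) (XK n m k)) 0 • XK n m k :=
    ⟨fun k => Nat.rec p0 (fun k q => q - max (- (om n m i0).w q (XK n m k)) 0 • XK n m k) k,
      rfl, fun k => rfl⟩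
  have ha : ∀ k, att (gI i0 m (st n k)) (FF (vec (st n k)) φ (Xi i0 m (st n k))) (p k) =
      att (gI i0 m (st n 0)) (FF (vec (st n 0)) φ (Xi i0 m (st n 0))) (p 0) := fun k => by
    induction k with
    | zero => rfl
    | succ k ih =>
      rw [st_succ, (step i0 (st_ok k)).2.1, ← ih, hs]
      exact congrArg _ (tau_back _ _)
  by_cases e : att (gI i0 m (st n 0)) (FF (vec (st n 0)) φ (Xi i0 m (st n 0))) (p 0) = 0
  · rw [e]; exact Pos.zero
  obtain ⟨k0, h1, h2⟩ := dyn_lat i0 p hy (fun k => A.supp _ _ ((ha k).trans_ne e)) hs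
  rw [← ha k0]
  exact stop_pos i0 φ h h1 h2

theorem theta (n m i0 : ℕ) (φ : List ℕ × List ℕ →₀ K)
    (h : ∀ d, Pos (MvPolynomial.coeff d (phibar (n + 2) i0 φ))) (p : Lt n m) :
    Pos ((FF (fun x => bs (some x)) φ (A.mon (om n m i0) (Cn m fun _ => 0) (Yv n m))).f p) := by
  have h1 := att_pos (m := m) i0 φ h
  rw [st_zero] at h1
  have h2 : Xi i0 m (fun _ : Fin (n + 1) => 0) = A.mon _ _ (Yv n m) :=
    xi_eq_mon yy_car yy_Fs Yv_mem yy_Yv (gI_init i0 _) (gH_init i0 _) fun e he => by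
      obtain ⟨q, -, rfl⟩ := mem_image.1 he
      exact w_Yv_face (by omega)
  rw [← h2, ← funext vec_zero]
  exact (framed_pos yy_car yy_Fs (gI_init i0 _) (FF_in (S := AddMonoidHom.mker (yy n m))
    (fun x => yy_vec x) (xi_in _ _ _) (fun a ha b hb => by
      have e1 : yy n m a = 0 := ha
      have e2 : yy n m b = 1 := hb
      show yy n m (a + b) = 1
      rw [map_add, e1, e2, zero_add]) φ) fun q _ hq => h1 q hq).2 p

end Pool.Agent.Lib.MP_33bfb2_co.Th.Gr
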