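import Pool.Agent.Lib.MP_33bfb2_co.Th.TDefs
import Pool.Agent.Lib.MP_33bfb2_co.Th.DTh

namespace Pool.Agent.Lib.MP_33bfb2_co.Th

open Finset MvPolynomial

/-! ## File DMain: THETA in the form the bridge uses -/

theorem Gr.sum_phi {M : Type} [AddCommMonoid M] [Module K M] (v : List ℕ × List ℕ → M) {I : Type}
    (S : Finset I) (c : I → K) (al be : I → List ℕ) :
    ((∑ i ∈ S, Finsupp.single (al i, be i) (c i)).sum fun ab r => r • v ab) =
      ∑ i ∈ S, c i • v (al i, be i) := by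
  rw [← Finsupp.linearCombination_apply, map_sum]
  simp

theorem Gr.phibar_sum (N i0 : ℕ) {I : Type} (S : Finset I) (c : I → K) (al be : I → List ℕ) :
    Gr.phibar N i0 (∑ i ∈ S, Finsupp.single (al i, be i) (c i)) =
      ∑ i ∈ S, c i • bar N (i0 + 1) (al i) (be i) := by
  have e : (fun k => aeval (fun a : Fin N => (if i0 < a then tp 2 else 1) •
      (X a : MvPolynomial (Fin N) K)) (esymm (Fin N) K k)) = eq N (i0 + 1 ≤ ·) := by
    funext k
    rw [eq]
    congr 2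
    funext a
    simp only [Nat.succ_le_iff]
    split_ifs <;> simp [smul_eq_C_mul]
  rw [Gr.phibar, e, Gr.sum_phi fun ab => (ab.1.map (esymm (Fin N) K)).prod *
    (ab.2.map (eq N (i0 + 1 ≤ ·))).prod]
  rfl

theorem Gr.word_eq {L : Type} [AddCommGroup L] {ω : Skew L} {C : Cone L} {V : Type} [Fintype V]
    (x : V → L) (Z : A ω C) (al be : List ℕ) :
    word x Z al be = Gr.ew ω C x al * Z * Gr.ew ω C x be := by
  have : est ω C x = Gr.ek ω C x := by
    funext k
    rw [est, Gr.ek]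
    exact sum_congr (filter_congr_decidable _ _ _ |>.trans (by
      ext S
      simp only [mem_filter, Gr.Stab])) fun _ _ => rfl
  rw [word, this, Gr.ew, Gr.ew]

theorem theta (N i0 l : ℕ) (gap : Fin l → ℕ) (h1 : 1 ≤ i0) (h2 : i0 < N)
    (hgap : ∀ j, 1 ≤ gap j ∧ gap j < N) (honto : ∀ i, 1 ≤ i → i < N → ∃ j, gap j = i) :
    ∃ (L : Type) (_ : AddCommGroup L) (ω : Skew L) (C : Cone L) (x : Fin N ⊕ Fin l → L) (Y : L),
      (∀ v, x v ∈ C.car) ∧ LinearIndependent ℤ x ∧ Y ∈ C.car ∧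
      (∀ j j', ω.w (x (.inr j)) (x (.inr j')) = wuu gap j j') ∧
      (∀ j, ω.w Y (x (.inr j)) = if i0 ≤ gap j then -1 else 0) ∧
      ∀ (n : ℕ) (I : Type) (S : Finset I) (c : I → K) (al be : I → List ℕ),
        (∀ i ∈ S, (al i).sum + (be i).sum = n) →
        (∀ ν, Pos (coeff ν (∑ i ∈ S, c i • bar N i0 (al i) (be i)))) →
        ∀ p, Pos ((∑ i ∈ S, c i • word x (A.mon ω C Y) (al i) (be i)).f p) := by
  classical
  obtain ⟨n, rfl⟩ : ∃ n, N = n + 2 := ⟨N - 2, by omega⟩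
  obtain ⟨i0, rfl⟩ : ∃ k, i0 = k + 1 := ⟨i0 - 1, by omega⟩
  let e : Fin (n + 2) ⊕ Fin l ↪ Gr.Vt n l := Function.Embedding.sumMap (.refl _)
    ⟨fun j => (⟨gap j - 1, by have := hgap j; omega⟩, j.castSucc),
      fun j j' h => Fin.castSucc_injective _ (congrArg Prod.snd h)⟩
  refine ⟨Gr.Lt n l, inferInstance, Gr.om n l i0, Gr.Cn l fun _ => 0,
    (fun v => Gr.bs (some v)) ∘ e, Gr.Yv n l, fun v => ?_, ?_, Gr.Yv_mem, fun j j' => ?_,
    fun j => ?_, fun _ I S c al be _ h p => ?_⟩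
  · rw [Function.comp_apply, ← Gr.vec_zero]
    exact Gr.vec_mem _
  · exact (Pi.linearIndependent_single_one _ ℤ).comp (fun v => some (e v))
      ((Option.some_injective _).comp e.injective)
  · have := hgap j
    have := hgap j'
    refine (Gr.skewOf_single _ _ _ _).trans ?_
    simp only [Gr.Wm, Gr.Ar, Gr.ip, Gr.fr, e, wuu, Function.Embedding.coe_sumMap, Sum.map_inr,
      Function.Embedding.coeFn_mk, Fin.val_castSucc, Fin.lt_def]
    split_ifs <;> omega
  · have := hgap j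
    refine (Gr.skewOf_single _ _ _ _).trans ?_
    simp only [Gr.Wm, Gr.Rt, Gr.ip, Gr.fr, e, Function.Embedding.coe_sumMap, Sum.map_inr,
      Function.Embedding.coeFn_mk, Fin.val_castSucc]
    split_ifs <;> omega
  · have key := Gr.theta n l i0 (∑ i ∈ S, Finsupp.single (al i, be i) (c i)) (fun d => by
      rw [Gr.phibar_sum]
      exact h d)
    obtain ⟨μ, hY, hμ⟩ : ∃ μ : Gr.Lt n l →+ ℚ, μ (Gr.Yv n l) = 0 ∧
        ∀ v, μ (Gr.bs (some v)) = if v ∈ Set.range e then 0 else 1 :=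
      ⟨(Int.castAddHom ℚ).comp (Gr.dot fun o => o.elim 0 fun v => if v ∈ Set.range e then 0 else 1),
        by simp [Gr.Yv, Gr.bs, Gr.dot_single], fun v => by simp [Gr.bs, Gr.dot_single]⟩
    have r := Gr.FF_res (ω := Gr.om n l i0) (C := Gr.Cn l fun _ => 0) e
      (vec := fun v => Gr.bs (some v)) μ (fun a => by rw [hμ, if_pos ⟨a, rfl⟩])
      (fun v hv => by rw [hμ, if_neg hv]; exact one_pos)
      (∑ i ∈ S, Finsupp.single (al i, be i) (c i)) (Z := A.mon _ _ (Gr.Yv n l)) (Gr.mon_in hY.ge)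
    rw [A.res_eq_self (Gr.mon_in (S := {q | μ q = 0}) hY), Gr.FF, Gr.FF, Gr.sum_phi,
      Gr.sum_phi] at r
    rw [Gr.FF, Gr.sum_phi] at key
    simp only [Gr.word_eq]
    rw [← r]
    by_cases hp : μ p = 0
    · rw [A.res_of_mem _ (show p ∈ {q | μ q = 0} from hp)]
      exact key p
    · rw [A.res_of_not _ (show p ∉ {q | μ q = 0} from hp)]
      exact Pos.zero

end Pool.Agent.Lib.MP_33bfb2_co.Th
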