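import Pool.Agent.Lib.MP_33bfb2_co.Th.ADefs2

namespace Pool.Agent.Lib.MP_33bfb2_co.Th.G1

open Finset PowerSeries

theorem tp_mul_neg (a : ℤ) : tp a * tp (-a) = 1 := by rw [← tp_add, add_neg_cancel, tp_zero]

theorem tp_ne (a : ℤ) : tp a ≠ 0 := left_ne_zero_of_mul_eq_one (tp_mul_neg a)

theorem tp_pow (a : ℤ) (j : ℕ) : tp a ^ j = tp (a * j) := by
  induction j with
  | zero => simp [tp_zero]
  | succ j ih => rw [pow_succ, ih, ← tp_add]; congr 1; push_cast; ring

theorem coeff_tp_mul (a b : ℤ) (f : K) : (tp a * f).coeff b = f.coeff (b - a) := by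
  rw [tp, HahnSeries.coeff_single_mul, one_mul]

theorem one_sub_ne {a : ℤ} (h : a ≠ 0) : 1 - tp a ≠ 0 := fun e => by
  have := congrArg (fun f : K => f.coeff 0) e
  simp [tp, h.symm] at this

theorem cc_zero (ε : Bool) : cc ε 0 = 1 := by simp [cc, tp_zero]

/-- The recurrence of the coefficients. -/
theorem cc_succ (ε : Bool) (j : ℕ) :
    cc ε (j + 1) * (1 - tp (2 * (j + 1))) = tp (if ε then 2 * j + 1 else 1) * cc ε j := by
  have h : (1 - tp (2 * ((j : ℤ) + 1))) ≠ 0 := one_sub_ne (by omega)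
  rw [cc, cc, prod_range_succ, ← div_div, div_mul_cancel₀ _ h, ← mul_div_assoc, ← tp_add]
  congr 2
  cases ε <;> simp <;> ring

/-- The series of a generator. -/
noncomputable def ser (ε : Bool) (a : ℤ) : K⟦X⟧ := PowerSeries.mk fun j => tp (a * j) * cc ε j

theorem ser_rescale (ε : Bool) (a c : ℤ) : rescale (tp c) (ser ε a) = ser ε (a + c) := by
  ext j : 1
  rw [coeff_rescale, ser, ser, coeff_mk, coeff_mk, tp_pow, ← mul_assoc, ← tp_add]
  congr 2
  ring

theorem ser_fer (a : ℤ) : ser true a = (1 + C (tp (a + 1)) * X) * ser true (a + 2) := by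
  ext j : 1
  rw [add_mul, one_mul, mul_assoc, map_add, coeff_C_mul]
  cases j with
  | zero => simp [ser]
  | succ j =>
    have h := cc_succ true j
    simp only [coeff_succ_X_mul, ser, coeff_mk, if_true] at h ⊢
    have e1 : tp ((a + 2) * (j + 1 : ℕ)) = tp (a * (j + 1 : ℕ)) * tp (2 * (j + 1)) := by
      rw [← tp_add]; congr 1; push_cast; ring
    have e2 : tp (a + 1) * tp ((a + 2) * j) = tp (a * (j + 1 : ℕ)) * tp (2 * j + 1) := by
      rw [← tp_add, ← tp_add]; congr 1; push_cast; ring
    rw [e1, ← mul_assoc, e2]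
    linear_combination tp (a * (j + 1 : ℕ)) * h

theorem ser_bos (a : ℤ) : (1 - C (tp (a + 1)) * X) * ser false a = ser false (a + 2) := by
  ext j : 1
  rw [sub_mul, one_mul, mul_assoc, map_sub, coeff_C_mul]
  cases j with
  | zero => simp [ser]
  | succ j =>
    have h := cc_succ false j
    simp only [coeff_succ_X_mul, ser, coeff_mk, Bool.false_eq_true, if_false] at h ⊢
    have e1 : tp ((a + 2) * (j + 1 : ℕ)) = tp (a * (j + 1 : ℕ)) * tp (2 * (j + 1)) := by
      rw [← tp_add]; congr 1; push_cast; ring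
    have e2 : tp (a + 1) * tp (a * j) = tp (a * (j + 1 : ℕ)) * tp 1 := by
      rw [← tp_add, ← tp_add]; congr 1; push_cast; ring
    rw [e1, ← mul_assoc, e2]
    linear_combination tp (a * (j + 1 : ℕ)) * h

/-- The Euler operator. -/
noncomputable def eul (P : K⟦X⟧) : K⟦X⟧ := PowerSeries.mk fun j => (j : K) * coeff j P

/-- The logarithmic derivative of the series of a generator. -/
noncomputable def lg (ε : Bool) (a : ℤ) : K⟦X⟧ := PowerSeries.mk fun j =>
  if j = 0 then 0 else (if ε then (-1) ^ (j - 1) else 1) * tp ((a + 1) * j) / (1 - tp (2 * j))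

theorem lg_step (ε : Bool) (a : ℤ) :
    (1 + C ((if ε then 1 else -1) * tp (a + 1)) * X) * (lg ε a - lg ε (a + 2)) =
      C (tp (a + 1)) * X := by
  have key : ∀ j : ℕ, coeff (j + 1) (lg ε a - lg ε (a + 2)) =
      (if ε then (-1) ^ j else 1) * tp (a + 1) ^ (j + 1) := fun j => by
    have h : (1 - tp (2 * ((j + 1 : ℕ) : ℤ))) ≠ 0 := one_sub_ne (by omega)
    have e : tp ((a + 2 + 1) * (j + 1 : ℕ)) = tp ((a + 1) * (j + 1 : ℕ)) * tp (2 * (j + 1 : ℕ)) := by
      rw [← tp_add]; congr 1; ring
    simp only [map_sub, lg, coeff_mk, if_neg (Nat.succ_ne_zero j), Nat.add_sub_cancel, tp_pow, e]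
    field_simp
  ext j : 1
  rw [add_mul, one_mul, mul_assoc, map_add, coeff_C_mul, coeff_C_mul]
  rcases j with _ | _ | j
  · simp [lg]
  · rw [coeff_succ_X_mul, key]
    simp [lg]
  · rw [coeff_succ_X_mul, key, key, coeff_X, if_neg (show ¬ j + 1 + 1 = 1 by omega)]
    cases ε <;> simp <;> ring

theorem eul_step (u : K) (P : K⟦X⟧) :
    eul ((1 + C u * X) * P) = C u * X * P + (1 + C u * X) * eul P := by
  ext j : 1
  simp only [eul, add_mul, one_mul, mul_assoc, map_add, coeff_C_mul, coeff_mk]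
  cases j with
  | zero => simp
  | succ j =>
    simp only [coeff_succ_X_mul, coeff_mk]
    push_cast
    ring

theorem ser_mul_lg (ε : Bool) (a : ℤ) : ser ε a * lg ε a = eul (ser ε a) := by
  have hl : rescale (tp 2) (lg ε a) = lg ε (a + 2) := by
    ext j : 1
    rw [coeff_rescale, lg, lg, coeff_mk, coeff_mk, tp_pow]
    split_ifs with h1 h2
    · simp
    all_goals
      rw [show (a + 2 + 1) * (j : ℤ) = 2 * j + (a + 1) * j by ring, tp_add]
      ring
  have he : rescale (tp 2) (eul (ser ε a)) = eul (ser ε (a + 2)) := by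
    rw [← ser_rescale]
    ext j : 1
    simp only [coeff_rescale, eul, coeff_mk]
    ring
  set Z := ser ε a * lg ε a - eul (ser ε a) with hZ
  have hR : rescale (tp 2) Z = ser ε (a + 2) * lg ε (a + 2) - eul (ser ε (a + 2)) := by
    rw [hZ, map_sub, map_mul, hl, he, ser_rescale]
  have h0 : coeff 0 Z = 0 := by simp [hZ, lg, eul]
  have hs := lg_step ε a
  rw [← sub_eq_zero, ← hZ]
  ext j : 1
  rw [map_zero]
  induction j with
  | zero => exact h0
  | succ j ih =>
    have h : (1 - tp (2 * ((j + 1 : ℕ) : ℤ))) ≠ 0 := one_sub_ne (by omega)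
    refine (mul_eq_zero.1 ?_).resolve_left h
    cases ε
    · have e1 := ser_bos a
      have e2 := eul_step (- tp (a + 1)) (ser false a)
      rw [map_neg, neg_mul, ← sub_eq_add_neg, e1] at e2
      have e3 : Z - C (tp (a + 1)) * (X * Z) = rescale (tp 2) Z := by
        rw [hR, e2, hZ, ← e1]
        simp only [Bool.false_eq_true, if_false, neg_mul, one_mul, map_neg] at hs
        linear_combination ser false a * hs
      have e4 := congrArg (coeff (j + 1)) e3
      rw [map_sub, coeff_C_mul, coeff_succ_X_mul, ih, coeff_rescale, tp_pow] at e4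
      linear_combination e4
    · have e1 := ser_fer a
      have e2 := eul_step (tp (a + 1)) (ser true (a + 2))
      rw [← e1] at e2
      have e3 : Z = rescale (tp 2) Z + C (tp (a + 1)) * (X * rescale (tp 2) Z) := by
        rw [hR, hZ, e2]
        simp only [if_true, one_mul] at hs
        linear_combination ser true (a + 2) * hs + lg true a * e1
      have e4 := congrArg (coeff (j + 1)) e3
      rw [map_add, coeff_C_mul, coeff_succ_X_mul, coeff_rescale, coeff_rescale, ih, tp_pow] at e4
      linear_combination e4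

end Pool.Agent.Lib.MP_33bfb2_co.Th.G1
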