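import Pool.Agent.Lib.MP_33bfb2_co.Th.LDefs

namespace Pool.Agent.Lib.MP_33bfb2_co.Th

open Finset MvPolynomial

variable {n : ℕ}

section
variable {T : Type} [CommRing T]

/-- The weight of a missing loop. -/
def lan (q : T) (a : ℤ) (γ : Rt n) (κ : Fin n → ℤ) : T :=
  if isLoop γ ∧ 0 < κ γ.1 ∧ κ γ.1 ≤ a then q else 1

/-- The weight of a root. -/
def laf (q : T) (a : ℤ) (E : Finset (Rt n)) (κ : Fin n → ℤ) (γ : Rt n) : T :=
  if γ ∈ E then chi q (vl (kh κ) γ) else lan q a γ κ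

theorem la_local (q : T) (a : ℤ) {E : Finset (Rt n)} {α β β' : Rt n} {σ : Rt n → Rt n}
    (t : Trip E α β β' σ) {κ κ' : Fin n → ℤ} (hκ : ∀ i, κ i ≠ 0)
    (h : ∀ v, kh κ' v = kh κ ((rf (α.1, 1) α.2).1 v)) :
    (1 + q) * (∏ γ, laf q a (insert β E) κ γ + ∏ γ, laf q a (insert β E) κ' γ) =
      (∏ γ, laf q a (insert β' (insert β E)) κ γ + ∏ γ, laf q a (insert β' (insert β E)) κ' γ) +
        q * (∏ γ, laf q a E κ γ + ∏ γ, laf q a E κ' γ) := by
  have n1 : β ≠ α := t.βα
  have n2 : β' ≠ α := fun e => t.hβ' (e ▸ t.hα)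
  have n3 := t.hne
  have σβ' : σ β' = β := by rw [← t.σβ, t.inv]
  have split : ∀ g : Rt n → T, ∏ γ, g γ =
      g α * g β * g β' * ∏ γ ∈ ((univ.erase α).erase β).erase β', g γ := by
    intro g
    rw [← mul_prod_erase _ _ (mem_univ α), ← mul_prod_erase (a := β) _ _ (by simp [n1]),
      ← mul_prod_erase (a := β') _ _ (by simp [n2, n3.symm])]
    ring
  have hv : ∀ γ, can γ → γ ≠ α → vl (kh κ') γ = vl (kh κ) (σ γ) := fun γ c b => by
    rw [vl_par (kh_ng κ) (t.par γ c b)]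
    simp only [vl, h]
  have hn : ∀ γ, γ ≠ α → lan q a γ κ' = lan q a (σ γ) κ := by
    intro γ b
    by_cases l : isLoop γ
    · have e : ((σ γ).1, 1) = (rf (α.1, 1) α.2).1 (γ.1, 1) := by
        rcases t.par γ (Or.inr l) b with e | e
        · exact e.1
        · rw [e.1, show γ.2 = ng (γ.1, 1) from l, W_ng, ng_ng]
      simp only [lan, l, t.loop γ l, true_and]
      rw [← kh_one κ', ← kh_one κ, h, e]
    · have l' : ¬ isLoop (σ γ) := fun e => l (by have := t.loop _ e; rwa [t.inv] at this)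
      simp [lan, l, l']
  have hR : ∏ γ ∈ ((univ.erase α).erase β).erase β', laf q a E κ' γ =
      ∏ γ ∈ ((univ.erase α).erase β).erase β', laf q a E κ γ := by
    have m : ∀ γ ∈ ((univ.erase α).erase β).erase β', σ γ ∈ ((univ.erase α).erase β).erase β' := by
      intro γ hγ
      simp only [mem_erase, mem_univ, and_true] at hγ ⊢
      refine ⟨fun e => hγ.2.1 ?_, fun e => hγ.1 ?_, fun e => hγ.2.2 ?_⟩ <;>
        rw [← t.inv γ, e]
      exacts [σβ', t.σβ, t.σα]
    refine prod_bij' (fun γ _ => σ γ) (fun γ _ => σ γ) m m (fun γ _ => t.inv γ)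
      (fun γ _ => t.inv γ) fun γ hγ => ?_
    simp only [mem_erase, mem_univ, and_true] at hγ
    by_cases e : γ ∈ E
    · simp only [laf, e, t.mem γ e, if_true, hv γ (t.hE γ e) hγ.2.2]
    · have e' : σ γ ∉ E := fun e' => e (by have := t.mem _ e'; rwa [t.inv] at this)
      simp only [laf, e, e', if_false, hn γ hγ.2.2]
  have r1 : ∀ κ, ∏ γ ∈ ((univ.erase α).erase β).erase β', laf q a (insert β E) κ γ =
      ∏ γ ∈ ((univ.erase α).erase β).erase β', laf q a E κ γ := fun κ =>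
    prod_congr rfl fun γ hγ => by
      simp only [mem_erase] at hγ
      simp [laf, hγ.2.1]
  have r2 : ∀ κ, ∏ γ ∈ ((univ.erase α).erase β).erase β', laf q a (insert β' (insert β E)) κ γ =
      ∏ γ ∈ ((univ.erase α).erase β).erase β', laf q a E κ γ := fun κ =>
    prod_congr rfl fun γ hγ => by
      simp only [mem_erase] at hγ
      simp [laf, hγ.2.1, hγ.1]
  have a1 : vl (kh κ') α = - vl (kh κ) α := by
    simp only [vl, h, rf_left, rf_right]; ring
  simp only [split (laf _ _ _ _), r1, r2, hR]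
  generalize ∏ γ ∈ ((univ.erase α).erase β).erase β', laf q a E κ γ = R
  simp only [laf, mem_insert, t.hα, t.hβ, t.hβ', n3, n3.symm, or_true, or_false, if_true,
    if_false, a1, hv β t.cβ n1, hv β' t.cβ' n2, hn β n1, hn β' n2, t.σβ, σβ']
  rcases t.lin with ⟨l, e⟩ | ⟨l, e⟩
  · have l' : ¬ isLoop β' := fun e => l (σβ' ▸ t.loop _ e)
    rw [e ℤ _ (kh_ng κ)]
    simp only [lan, l, l', false_and, if_false, chi]
    generalize vl (kh κ) α = A, vl (kh κ) β = B
    split_ifs <;> first | (exfalso; omega) | ring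
  · have l' : isLoop β' := t.σβ ▸ t.loop _ l
    have e1 := e ℤ _ (kh_ng κ)
    have e2 : ∀ γ : Rt n, isLoop γ → vl (kh κ) γ = 2 * κ γ.1 := fun γ l => by
      rw [vl, show γ.2 = ng (γ.1, 1) from l, kh_ng, kh_one]; ring
    rw [e2 β l, e2 β' l'] at e1 ⊢
    simp only [lan, l, l', true_and, chi]
    have := hκ β.1
    have := hκ β'.1
    generalize vl (kh κ) α = A at *
    generalize κ β.1 = B at *
    generalize κ β'.1 = B' at *
    split_ifs <;> first | (exfalso; omega) | ring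

end

theorem la_FA (s a : ℕ) (E : Finset (Rt n)) : FA s a E = ∑ κ : Fin n → Fin s × ℤˣ,
    C (∏ γ, laf (tp 2) a E (fun i => sc (κ i)) γ) * ∏ i, X (κ i).1 := by
  refine sum_congr rfl fun κ _ => ?_
  congr 2
  refine prod_congr rfl fun γ _ => ?_
  rw [laf, lan]
  refine if_congr Iff.rfl rfl ?_
  have e : ((κ γ.1).2 = 1 ∧ ((κ γ.1).1 : ℕ) < a) ↔ 0 < sc (κ γ.1) ∧ sc (κ γ.1) ≤ a := by
    rcases Int.units_eq_one_or (κ γ.1).2 with e | e <;> simp [sc, e]
  simp only [e]

/-- The action of a signed permutation on signed colourings. -/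
def lact {s : ℕ} (w : W n) (κ : Fin n → Fin s × ℤˣ) (i : Fin n) : Fin s × ℤˣ :=
  ((κ (w.1 (i, 1)).1).1, (w.1 (i, 1)).2 * (κ (w.1 (i, 1)).1).2)

theorem la_sgn (w : W n) (i : Fin n) (u : ℤˣ) :
    w.1 (i, u) = ((w.1 (i, 1)).1, u * (w.1 (i, 1)).2) := by
  rcases Int.units_eq_one_or u with rfl | rfl
  · simp
  · rw [← ng_mk, W_ng]; simp [ng]

theorem la_kh {s : ℕ} (w : W n) (κ : Fin n → Fin s × ℤˣ) (v : V n) :
    kh (fun i => sc (lact w κ i)) v = kh (fun i => sc (κ i)) (w.1 v) := by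
  obtain ⟨i, u⟩ := v
  rw [la_sgn]
  simp only [kh, sc, lact, Units.val_mul]
  ring

theorem la_sq {w : W n} (h : w * w = 1) (i : Fin n) :
    (w.1 ((w.1 (i, 1)).1, 1)).1 = i ∧ (w.1 (i, 1)).2 * (w.1 ((w.1 (i, 1)).1, 1)).2 = 1 := by
  have e : w.1 (w.1 (i, 1)) = (i, 1) := by rw [← W_mul_apply, h]; rfl
  rw [show w.1 (w.1 (i, 1)) = _ from la_sgn w _ _] at e
  exact Prod.ext_iff.1 e

theorem FA_tlaw (s a : ℕ) : TLaw (C (tp 2)) (FA (n := n) s a) := by
  intro E α β β' σ t
  have hw := rf_mul_self (α.1, 1) α.2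
  set w := rf (α.1, 1) α.2 with hw'
  have inv : Function.Involutive (lact (s := s) w) := fun κ => funext fun i => by
    simp only [lact, ← mul_assoc, (la_sq hw i).1, (la_sq hw i).2, one_mul]
  have inv' : Function.Involutive fun i : Fin n => (w.1 (i, 1)).1 := fun i => (la_sq hw i).1
  have key : ∀ E, FA s a E + FA s a E = ∑ κ : Fin n → Fin s × ℤˣ,
      C (∏ γ, laf (tp 2) a E (fun i => sc (κ i)) γ +
        ∏ γ, laf (tp 2) a E (fun i => sc (lact w κ i)) γ) * ∏ i, X (κ i).1 := fun E => by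
    rw [la_FA]
    nth_rewrite 2 [← Equiv.sum_comp inv.toPerm]
    rw [← sum_add_distrib]
    refine sum_congr rfl fun κ _ => ?_
    rw [map_add, add_mul]
    congr 2
    exact Equiv.prod_comp inv'.toPerm fun i => (X (κ i).1 : MvPolynomial (Fin s) K)
  have : (1 + C (tp 2)) * (FA s a (insert β E) + FA s a (insert β E)) =
      (FA s a (insert β' (insert β E)) + FA s a (insert β' (insert β E))) +
        C (tp 2) * (FA s a E + FA s a E) := by
    simp only [key, mul_sum, ← sum_add_distrib]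
    refine sum_congr rfl fun κ _ => ?_
    have := congrArg (C : K →+* MvPolynomial (Fin s) K) (la_local (tp 2) a t
      (κ := fun i => sc (κ i)) (fun i => mul_ne_zero (Units.ne_zero _) (by omega)) (la_kh w κ))
    rw [map_mul, map_add C 1, map_one, map_add C _ (_ * _), map_mul] at this
    linear_combination (∏ i, X (κ i).1) * this
  haveI i0 : CharZero K := algebraRat.charZero K
  have h2 : (2 : MvPolynomial (Fin s) K) ≠ 0 := two_ne_zero
  refine mul_left_cancel₀ h2 ?_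
  linear_combination this

end Pool.Agent.Lib.MP_33bfb2_co.Th
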