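import Pool.Agent.Lib.MP_33bfb2_co.Th.LDefs

namespace Pool.Agent.Lib.MP_33bfb2_co.Th

open Finset MvPolynomial

variable {n : ℕ}

/-! ## File LB (imports LDefs) -/

section
variable {R Γ : Type} [CommRing R]

theorem lb_es_congr {S : Finset Γ} {t t' : Γ → R} (h : ∀ c ∈ S, t c = t' c) (j : ℕ) :
    es S t j = es S t' j :=
  sum_congr rfl fun _ hs => prod_congr rfl fun c hc => h c ((mem_powersetCard.1 hs).1 hc)

theorem lb_es_mul (S : Finset Γ) (x : R) (t : Γ → R) (j : ℕ) :
    es S (fun c => x * t c) j = x ^ j * es S t j := by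
  rw [es, es, mul_sum]
  exact sum_congr rfl fun s hs => by rw [prod_mul_distrib, prod_const, (mem_powersetCard.1 hs).2]

theorem lb_step [DecidableEq Γ] (q : R) {v : Γ → ℤ} (hv : Function.Injective v) (Y : Γ → R)
    (S : Finset Γ) (k : ℕ) :
    ∑ c ∈ S, Y c * es S (fun d => chi q (v c - v d) * Y d) k = qi q (k + 1) * es S Y (k + 1) := by
  induction S using Finset.induction_on_max_value v generalizing k with
  | empty => rw [es_big _ (by simp), sum_empty, mul_zero]
  | insert M S hM hle ih =>
    have hlt : ∀ c ∈ S, v c < v M := fun c hc =>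
      lt_of_le_of_ne (hle c hc) fun e => hM (hv e ▸ hc)
    have h1 : es (insert M S) (fun d => chi q (v M - v d) * Y d) k = q ^ k * es S Y k := by
      have : es S (fun d => chi q (v M - v d) * Y d) k = q ^ k * es S Y k := by
        rw [← lb_es_mul]
        refine lb_es_congr (fun c hc => ?_) k
        have := hlt c hc
        rw [chi, if_neg (by omega), if_pos (by omega)]
      rcases k with _ | k
      · simp [es_zero]
      · rw [es_insert _ hM, this, sub_self, chi, if_pos rfl, zero_mul, zero_mul, add_zero]
    rw [sum_insert hM, h1, es_insert _ hM]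
    rcases k with _ | k
    · have := ih 0
      simp only [es_zero, qi_one, zero_add] at this ⊢
      rw [this]
      ring
    · have h2 : ∀ c ∈ S, Y c * es (insert M S) (fun d => chi q (v c - v d) * Y d) (k + 1) =
          Y c * es S (fun d => chi q (v c - v d) * Y d) (k + 1) +
            Y M * (Y c * es S (fun d => chi q (v c - v d) * Y d) k) := fun c hc => by
        have := hlt c hc
        rw [es_insert _ hM, chi, if_neg (by omega), if_neg (by omega)]
        ring
      rw [sum_congr rfl h2, sum_add_distrib, ← mul_sum, ih, ih, qi_succ q (k + 1)]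
      ring

theorem lb_cnt {B : Type} [DecidableEq B] (blk : Fin (n + 1) → B) (b : B) :
    cnt blk b = cnt (fun i : Fin n => blk i.succ) b + if blk 0 = b then 1 else 0 := by
  simp only [cnt, card_filter]
  rw [Fin.sum_univ_succ, add_comm]

theorem lb_blocks [Fintype Γ] [DecidableEq Γ] {B : Type} [Fintype B] [DecidableEq B] (q : R)
    {v : Γ → ℤ} (hv : Function.Injective v) (n : ℕ) (blk : Fin n → B) (Y : B → Γ → R) :
    ∑ κ : Fin n → Γ, (∏ i, ∏ j, if i < j ∧ blk i = blk j then chi q (v (κ i) - v (κ j)) else 1) *
      ∏ i, Y (blk i) (κ i) = ∏ b, qf q (cnt blk b) * es univ (Y b) (cnt blk b) := by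
  induction n generalizing Y with
  | zero => simp [cnt, qf, es_zero]
  | succ n ih =>
    rw [← (Fin.consEquiv fun _ => Γ).sum_comp, Fintype.sum_prod_type]
    have h1 : ∀ (c : Γ) (κ : Fin n → Γ),
        (∏ i, ∏ j, if i < j ∧ blk i = blk j then
          chi q (v ((Fin.consEquiv fun _ => Γ) (c, κ) i) - v ((Fin.consEquiv fun _ => Γ) (c, κ) j))
          else 1) * ∏ i, Y (blk i) ((Fin.consEquiv fun _ => Γ) (c, κ) i) =
        Y (blk 0) c * ((∏ i, ∏ j, if i < j ∧ blk i.succ = blk j.succ then
          chi q (v (κ i) - v (κ j)) else 1) *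
          ∏ i, (if blk 0 = blk i.succ then chi q (v c - v (κ i)) else 1) * Y (blk i.succ) (κ i)) := by
      intro c κ
      simp only [Fin.prod_univ_succ, Fin.consEquiv_apply, Fin.cons_zero, Fin.cons_succ,
        false_and, if_false, Fin.succ_pos, true_and, Fin.not_lt_zero, Fin.succ_lt_succ_iff,
        prod_mul_distrib, prod_const_one]
      ring
    simp only [h1, ← mul_sum]
    have h2 : ∀ c : Γ, ∑ κ : Fin n → Γ, (∏ i, ∏ j, if i < j ∧ blk i.succ = blk j.succ then
          chi q (v (κ i) - v (κ j)) else 1) *
          ∏ i, (if blk 0 = blk i.succ then chi q (v c - v (κ i)) else 1) * Y (blk i.succ) (κ i) =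
        es univ (fun d => chi q (v c - v d) * Y (blk 0) d) (cnt (fun i : Fin n => blk i.succ) (blk 0))
          * (qf q (cnt (fun i : Fin n => blk i.succ) (blk 0)) *
          ∏ b ∈ univ.erase (blk 0), qf q (cnt blk b) * es univ (Y b) (cnt blk b)) := fun c => by
      rw [ih (fun i => blk i.succ) fun b d => (if blk 0 = b then chi q (v c - v d) else 1) * Y b d,
        ← mul_prod_erase _ _ (mem_univ (blk 0)), ← mul_assoc, mul_comm (qf _ _)]
      simp only [if_true]
      congr 1
      refine prod_congr rfl fun b hb => ?_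
      have := (ne_of_mem_erase hb).symm
      simp only [lb_cnt blk b, if_neg this, one_mul, add_zero]
    simp only [h2, ← mul_assoc, ← sum_mul]
    rw [lb_step q hv, ← mul_prod_erase _ _ (mem_univ (blk 0)), lb_cnt blk (blk 0), if_pos rfl, qf,
      qf, prod_range_succ]
    ring

theorem lb_coeff [DecidableEq Γ] (S : Finset Γ) (t : Γ → R) (j : ℕ) :
    (∏ c ∈ S, (1 + Polynomial.X * Polynomial.C (t c))).coeff j = es S t j := by
  induction S using Finset.induction_on generalizing j with
  | empty =>
    rcases j with _ | j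
    · simp [es_zero]
    · rw [es_big _ (by simp)]
      simp [Polynomial.coeff_one]
  | insert c S hc ih =>
    rw [prod_insert hc, add_mul, one_mul, mul_assoc, Polynomial.coeff_add]
    rcases j with _ | j
    · rw [ih]
      simp [es_zero]
    · rw [Polynomial.coeff_X_mul, Polynomial.coeff_C_mul, ih, ih, es_insert _ hc]

theorem lb_split [Fintype Γ] [DecidableEq Γ] (t : Γ × ℤˣ → R) (k : ℕ) :
    es univ t k = ∑ j ∈ range (k + 1),
      es univ (fun c => t (c, 1)) j * es univ (fun c => t (c, -1)) (k - j) := by
  simp only [← lb_coeff]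
  rw [← coeff_mul_range, ← prod_mul_distrib, Fintype.prod_prod_type]
  simp only [show (univ : Finset ℤˣ) = {1, -1} from rfl, prod_pair (show (1 : ℤˣ) ≠ -1 by decide)]

end

theorem lb_sc (s : ℕ) : Function.Injective (sc : Fin s × ℤˣ → ℤ) := by
  rintro ⟨c, u⟩ ⟨d, u'⟩ h
  rcases Int.units_eq_one_or u with rfl | rfl <;> rcases Int.units_eq_one_or u' with rfl | rfl <;>
    simp only [sc, Units.val_one, Units.val_neg] at h <;>
    first | omega | (congr 1; ext; omega)

theorem FA_base (s a : ℕ) {B : Type} [Fintype B] [DecidableEq B] {blk : Fin n → B}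
    {lp : B → Prop} {E : Finset (Rt n)} (h : IsBase blk lp E) :
    FA s a E = BaseV (C (tp 2)) (esymm (Fin s) K) (eq s (· < a)) lp (cnt blk) := by
  classical
  have key := lb_blocks (R := MvPolynomial (Fin s) K) (C (tp 2)) (lb_sc s) n blk
    fun b c => (if c.2 = 1 ∧ (lp b ∨ (c.1 : ℕ) < a) then C (tp 2) else 1) * X c.1
  have e3 : ¬ ((-1 : ℤˣ) = 1) := by decide
  rw [FA, BaseV]
  convert key using 2 with κ _ b _
  · rw [prod_mul_distrib, ← mul_assoc]
    congr 1
    rw [map_prod, Fintype.prod_prod_type, ← prod_mul_distrib]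
    refine prod_congr rfl fun i _ => ?_
    rw [Fintype.prod_prod_type]
    simp only [show (univ : Finset ℤˣ) = {1, -1} from rfl, prod_pair (show (1 : ℤˣ) ≠ -1 by decide),
      prod_mul_distrib]
    congr 1
    · refine prod_congr rfl fun j _ => ?_
      have : ¬ ((1 : ℤˣ) = -1) := by decide
      simp only [h _, isLoop, Prod.mk.injEq, this, and_false, false_and, or_false, true_and,
        if_false, vl, kh_one, chi]
      split_ifs <;> simp
    · rw [prod_eq_single i]
      · have e1 : vl (kh fun i => sc (κ i)) (i, i, -1) = 2 * sc (κ i) := by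
          simp only [vl, kh, Units.val_one, Units.val_neg]
          ring
        have e2 : chi (tp 2) (2 * sc (κ i)) = if (κ i).2 = 1 then tp 2 else 1 := by
          rcases Int.units_eq_one_or (κ i).2 with e | e <;>
            simp only [chi, sc, e, e3, if_true, if_false, Units.val_one, Units.val_neg]
          · rw [if_neg (by omega), if_pos (by omega)]
          · rw [if_neg (by omega), if_neg (by omega)]
        rw [e1, e2]
        by_cases l : lp (blk i) <;> by_cases l1 : (κ i).2 = 1 <;> by_cases l2 : ((κ i).1 : ℕ) < a <;>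
          simp [h _, isLoop, l, l1, l2]
      · intro j _ hj
        simp [h _, isLoop, hj]
      · simp
  · congr 1
    rw [lb_split]
    refine sum_congr rfl fun j _ => ?_
    congr 1
    · split_ifs with l
      · simp only [l, true_or, and_self, if_true]
        rw [lb_es_mul, es, esymm]
      · simp only [l, false_or, true_and, eq, esymm, map_sum, map_prod, aeval_X, es]
        refine sum_congr rfl fun t _ => prod_congr rfl fun c _ => ?_
        split_ifs <;> simp
    · simp only [e3, false_and, if_false, one_mul]
      rw [es, esymm]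

end Pool.Agent.Lib.MP_33bfb2_co.Th
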