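import Pool.Agent.Lib.MP_33bfb2_co.Th.TDefs
import Pool.Agent.Lib.MP_33bfb2_co.Hess

namespace Pool.Agent.Lib.MP_33bfb2_co.Th

open Finset MvPolynomial

variable {n : ℕ}

/-- The integer value of a signed colour. -/
def sc {s : ℕ} (c : Fin s × ℤˣ) : ℤ := c.2 * ((c.1 : ℕ) + 1)

/-- The signed colouring sum. -/
noncomputable def FA (s a : ℕ) (E : Finset (Rt n)) : MvPolynomial (Fin s) K :=
  open Classical in
  ∑ κ : Fin n → Fin s × ℤˣ, C (∏ γ : Rt n, if γ ∈ E then chi (tp 2) (vl (kh fun i => sc (κ i)) γ)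
    else if isLoop γ ∧ (κ γ.1).2 = 1 ∧ ((κ γ.1).1 : ℕ) < a then tp 2 else 1) * ∏ i, X (κ i).1

/-- The substitution of the two alphabets. -/
noncomputable def rho (n : ℕ) :
    MvPolynomial (Fin n ⊕ Fin n) K →ₐ[K] MvPolynomial (Fin (n + n)) K :=
  aeval (Sum.elim (fun k : Fin n => esymm (Fin (n + n)) K (k + 1))
    fun k : Fin n => eq (n + n) (· < n) (k + 1))

/-- E is determined by the modular law and the base values. -/
def Det (E : Finset (Rt n)) : Prop :=
  ∀ (T : Type) [CommRing T] [IsDomain T] (q : T), q ≠ 0 → (∀ j, qi q (j + 1) ≠ 0) →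
    ∀ F : Finset (Rt n) → T, TLaw q F →
      (∀ (B : Type) [Fintype B] [DecidableEq B] (blk : Fin n → B) (lp : B → Prop)
        (E' : Finset (Rt n)), IsBase blk lp E' → F E' = 0) → F E = 0

/-- The roots of H as a finite set of signed edges. -/
noncomputable def EH (c : ℤ) (H : Set (Fin n → ℤ)) : Finset (Rt n) :=
  open Classical in univ.filter fun γ => can γ ∧ rv c γ ∈ H

end Pool.Agent.Lib.MP_33bfb2_co.Th
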