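import Pool.Agent.Lib.MP_33bfb2_co.Th.WDefs

namespace Pool.Agent.Lib.MP_33bfb2_co.Th

open Finset

variable {n : ℕ}

/-- The conditions on the point number i. -/
def w4Good (P N : Fin n → Fin n → Prop) (L : Fin n → Prop) (δ : ℝ) (d : Fin n → ℝ) (i : Fin n) :
    Prop :=
  0 < d i ∧ (L i → d i < δ) ∧ (¬ L i → δ < d i) ∧ ((∃ k < i, N k i) → d i < 1 / 2) ∧
    ∀ j, i < j → d j < d i ∧ (P i j → d i < 1 + d j) ∧ (¬ P i j → 1 + d j < d i) ∧
      (N i j → d i < 1 - d j) ∧ (¬ N i j → 1 - d j < d i)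

theorem w4_real {P N : Fin n → Fin n → Prop} {L : Fin n → Prop} {δ : ℝ}
    (h1 : ∀ i k j, i < k → k < j → P i j → P k j ∧ P i k)
    (hs : ∀ i j, N i j → N j i)
    (h2 : ∀ i k j, i < k → i ≠ j → k ≠ j → N i j → N k j)
    (h3 : ∀ i j k, i ≠ j → i < k → N i j → P i k)
    (h4 : ∀ i k, i < k → L i → L k ∧ P i k)
    (h5 : ∀ i j, i < j → N i j → L j)
    (h6 : (δ = 1 ∧ ∀ i j, i < j → N i j → L i) ∨ (δ = 1 / 2 ∧ ∀ i k, i < k → L i → N i k))
    (m : ℕ) : ∃ d : Fin n → ℝ, ∀ i : Fin n, n ≤ i + m → w4Good P N L δ d i := by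
  classical
  induction m with
  | zero => exact ⟨fun _ => 0, fun i hi => absurd i.2 (by omega)⟩
  | succ m ih =>
    obtain ⟨d, hd⟩ := ih
    by_cases hm : n ≤ m
    · exact ⟨d, fun i _ => hd i (by omega)⟩
    obtain ⟨i, hi⟩ : ∃ i : Fin n, (i : ℕ) + m + 1 = n := ⟨⟨n - m - 1, by omega⟩, by simp; omega⟩
    have g : ∀ j, i < j → w4Good P N L δ d j := fun j hj => hd j (by
      have : (i : ℕ) < j := hj
      omega)
    have δ0 : 1 / 2 ≤ δ ∧ δ ≤ 1 := by
      rcases h6 with ⟨e, _⟩ | ⟨e, _⟩ <;> rw [e] <;> norm_num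
    have mono : ∀ j k, i < j → j ≤ k → d k ≤ d j := fun j k a b => by
      rcases b.eq_or_lt with rfl | b
      · exact le_rfl
      · exact ((g j a).2.2.2.2 k b).1.le
    have cap : ∀ j, i < j → N i j → d j < 1 / 2 := fun j a b => (g j a).2.2.2.1 ⟨i, a, b⟩
    let A : Set ℝ := {x | x = 0 ∨ (¬ L i ∧ x = δ) ∨
      ∃ k, i < k ∧ (x = d k ∨ (¬ P i k ∧ x = 1 + d k) ∨ (¬ N i k ∧ x = 1 - d k))}
    let B : Set ℝ := {x | (L i ∧ x = δ) ∨ ((∃ k < i, N k i) ∧ x = 1 / 2) ∨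
      ∃ j, i < j ∧ ((P i j ∧ x = 1 + d j) ∨ (N i j ∧ x = 1 - d j))}
    have fin : ({0, δ, 1 / 2} ∪ (Set.range d ∪ (Set.range (fun k => 1 + d k) ∪
        Set.range fun k => 1 - d k)) : Set ℝ).Finite := Set.toFinite _
    have fA : A.Finite := fin.subset (by
      rintro x (rfl | ⟨_, rfl⟩ | ⟨k, _, rfl | ⟨_, rfl⟩ | ⟨_, rfl⟩⟩) <;> simp)
    have fB : B.Finite := fin.subset (by
      rintro x (⟨_, rfl⟩ | ⟨_, rfl⟩ | ⟨k, _, ⟨_, rfl⟩ | ⟨_, rfl⟩⟩) <;> simp)
    obtain ⟨x, xA, xB⟩ := Set.Finite.exists_between' fA fB (by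
      rintro a (rfl | ⟨a1, rfl⟩ | ⟨k, ik, rfl | ⟨a1, rfl⟩ | ⟨a1, rfl⟩⟩) b
        (⟨b1, rfl⟩ | ⟨⟨t, ti, b1⟩, rfl⟩ | ⟨j, ij, ⟨b1, rfl⟩ | ⟨b1, rfl⟩⟩)
      · linarith
      · norm_num
      · linarith [(g j ij).1]
      · linarith [cap j ij b1]
      · exact absurd b1 a1
      · exact absurd (h5 t i ti b1) a1
      · linarith [(g j ij).1]
      · rcases h6 with ⟨_, e⟩ | ⟨e, _⟩
        · exact absurd (e i j ij b1) a1
        · linarith [cap j ij b1]
      · exact (g k ik).2.1 (h4 i k ik b1).1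
      · exact (g k ik).2.2.2.1 ⟨t, ti.trans ik,
          hs _ _ (h2 i k t ik ti.ne' (ti.trans ik).ne' (hs _ _ b1))⟩
      · rcases lt_or_ge k j with e | e
        · exact ((g k ik).2.2.2.2 j e).2.1 (h1 i k j ik e b1).1
        · linarith [mono j k ij e]
      · rcases lt_trichotomy k j with e | rfl | e
        · exact ((g k ik).2.2.2.2 j e).2.2.2.1 (h2 i k j ik ij.ne e.ne b1)
        · linarith [cap k ik b1]
        · linarith [((g j ij).2.2.2.2 k e).2.2.2.1 (hs _ _ (h2 i k j ik ij.ne e.ne' b1))]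
      · exact absurd (h4 i k ik b1).2 a1
      · exact absurd (h3 i t k ti.ne' ik (hs _ _ b1)) a1
      · rcases lt_trichotomy k j with e | rfl | e
        · exact absurd (h1 i k j ik e b1).2 a1
        · exact absurd b1 a1
        · linarith [((g j ij).2.2.2.2 k e).1]
      · exact absurd (h3 i j k ij.ne ik b1) a1
      · rcases h6 with ⟨e, _⟩ | ⟨_, e⟩
        · linarith [(g k ik).1]
        · exact absurd (e i k ik b1) a1
      · exact absurd (hs _ _ (h2 t k i (ti.trans ik) ti.ne ik.ne' b1)) a1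
      · linarith [(g k ik).1, (g j ij).1]
      · rcases lt_trichotomy k j with e | rfl | e
        · linarith [((g k ik).2.2.2.2 j e).1]
        · exact absurd b1 a1
        · exact absurd (hs _ _ (h2 j k i e ij.ne' ik.ne' (hs _ _ b1))) a1)
    refine ⟨Function.update d i x, fun j hj => ?_⟩
    by_cases e : j = i
    · subst e
      unfold w4Good
      rw [Function.update_self]
      refine ⟨xA _ (Or.inl rfl), fun a => xB _ (Or.inl ⟨a, rfl⟩),
        fun a => xA _ (Or.inr (Or.inl ⟨a, rfl⟩)), fun a => xB _ (Or.inr (Or.inl ⟨a, rfl⟩)),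
        fun k hk => ?_⟩
      rw [Function.update_of_ne hk.ne']
      exact ⟨xA _ (Or.inr (Or.inr ⟨k, hk, Or.inl rfl⟩)),
        fun a => xB _ (Or.inr (Or.inr ⟨k, hk, Or.inl ⟨a, rfl⟩⟩)),
        fun a => xA _ (Or.inr (Or.inr ⟨k, hk, Or.inr (Or.inl ⟨a, rfl⟩)⟩)),
        fun a => xB _ (Or.inr (Or.inr ⟨k, hk, Or.inr ⟨a, rfl⟩⟩)),
        fun a => xA _ (Or.inr (Or.inr ⟨k, hk, Or.inr (Or.inr ⟨a, rfl⟩)⟩))⟩
    · have ij : i < j := by
        have : (j : ℕ) ≠ i := fun a => e (Fin.ext a)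
        exact Fin.lt_def.2 (by omega)
      have := g j ij
      unfold w4Good at this ⊢
      rw [Function.update_of_ne e]
      refine ⟨this.1, this.2.1, this.2.2.1, this.2.2.2.1, fun k hk => ?_⟩
      rw [Function.update_of_ne (ij.trans hk).ne']
      exact this.2.2.2.2 k hk

theorem w4_abs (a : ℤ) {f : ℝ} (h0 : 0 ≤ f) (h1 : f ≤ 1 / 2) :
    (0 ≤ a ∧ |a + f| = a + f) ∨ (a < 0 ∧ |a + f| = -a - f) := by
  rcases le_or_gt 0 a with h | h
  · have : (0 : ℝ) ≤ a := by exact_mod_cast h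
    exact Or.inl ⟨h, abs_of_nonneg (by linarith)⟩
  · have : (a : ℝ) ≤ -1 := by exact_mod_cast (show a ≤ -1 by omega)
    exact Or.inr ⟨h, by rw [abs_of_nonpos (by linarith)]; ring⟩

theorem w4_tri (e : ℤ) : (e ≤ -1 ∧ (e : ℝ) ≤ -1) ∨ (e = 0 ∧ (e : ℝ) = 0) ∨ (1 ≤ e ∧ (1 : ℝ) ≤ e) := by
  rcases lt_trichotomy e 0 with h | h | h
  · exact Or.inl ⟨by omega, by exact_mod_cast (show e ≤ -1 by omega)⟩
  · exact Or.inr (Or.inl ⟨h, by exact_mod_cast h⟩)
  · exact Or.inr (Or.inr ⟨h, by exact_mod_cast (show 1 ≤ e from h)⟩)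

theorem w4_cmp (a b k x y : ℤ) {f g : ℝ} (f0 : 0 ≤ f) (f1 : f ≤ 1 / 2) (g0 : 0 ≤ g) (g1 : g ≤ 1 / 2)
    (h : (x = 1 ∧ y = 3 ∧ f ≤ g) ∨ (x = 3 ∧ y = 1 ∧ g ≤ f)) :
    (|a + f| < |b + g| + k → ((8 * a + x).natAbs : ℤ) < (8 * b + y).natAbs + 8 * k) ∧
    (|a + f| + |b + g| < k → ((8 * a + x).natAbs : ℤ) + (8 * b + y).natAbs < 8 * k) ∧
    (k < |a + f| + |b + g| → 8 * k < ((8 * a + x).natAbs : ℤ) + (8 * b + y).natAbs) := by
  have t1 := w4_tri (a - b - k)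
  have t2 := w4_tri (a + b - k)
  have t3 := w4_tri (-a - b - k)
  have t4 := w4_tri (-a + b - k)
  push_cast at t1 t2 t3 t4
  rcases w4_abs a f0 f1 with ⟨a0, ea⟩ | ⟨a0, ea⟩ <;>
    rcases w4_abs b g0 g1 with ⟨b0, eb⟩ | ⟨b0, eb⟩ <;> rw [ea, eb] <;>
    rcases h with ⟨rfl, rfl, h⟩ | ⟨rfl, rfl, h⟩ <;> refine ⟨fun e => ?_, fun e => ?_, fun e => ?_⟩ <;>
    first
    | (rcases t1 with ⟨u, v⟩ | ⟨u, v⟩ | ⟨u, v⟩ <;> first | omega | (exfalso; linarith))
    | (rcases t2 with ⟨u, v⟩ | ⟨u, v⟩ | ⟨u, v⟩ <;> first | omega | (exfalso; linarith))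
    | (rcases t3 with ⟨u, v⟩ | ⟨u, v⟩ | ⟨u, v⟩ <;> first | omega | (exfalso; linarith))
    | (rcases t4 with ⟨u, v⟩ | ⟨u, v⟩ | ⟨u, v⟩ <;> first | omega | (exfalso; linarith))

theorem w4_fold {D : ℝ} (h : 0 ≤ D) : ∃ (a : ℤ) (f : ℝ), 0 ≤ f ∧ f ≤ 1 / 2 ∧ |a + f| = D := by
  have h1 := Int.floor_le D
  have h2 := Int.lt_floor_add_one D
  rcases le_or_gt (D - ⌊D⌋) (1 / 2) with e | e
  · exact ⟨⌊D⌋, D - ⌊D⌋, by linarith, e, by rw [add_sub_cancel, abs_of_nonneg h]⟩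
  · refine ⟨-⌊D⌋ - 1, ⌊D⌋ + 1 - D, by linarith, by linarith, ?_⟩
    push_cast
    rw [show -(⌊D⌋ : ℝ) - 1 + (⌊D⌋ + 1 - D) = -D by ring, abs_neg, abs_of_nonneg h]

theorem w4_word (lv : Option (Fin n) → ℤ) (f : Option (Fin n) → ℝ) :
    ∃ (ps : Option (Fin n) → ℕ) (u v : List ℤ), Function.Injective ps ∧
      (∀ x y, ps x < ps y → f x ≤ f y) ∧
      (∀ x, (u.map lx ++ ly (lv none) :: v.map lx)[ps x]? = some (lv x, x.isNone)) ∧
      (u.map lx ++ ly (lv none) :: v.map lx).length = n + 1 := by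
  classical
  let e : Fin (n + 1) ≃ Option (Fin n) :=
    (Tuple.sort (f ∘ finSuccEquiv n)).trans (finSuccEquiv n)
  have hm : Monotone (f ∘ e) := Tuple.monotone_sort (f ∘ finSuccEquiv n)
  obtain ⟨s, t, hst⟩ := List.append_of_mem (a := none) (l := List.ofFn e)
    (List.mem_ofFn.2 ⟨e.symm none, by simp⟩)
  have nd : (s ++ none :: t).Nodup := hst ▸ List.nodup_ofFn.2 e.injective
  have c : ∀ l : List (Option (Fin n)), none ∉ l →
      (l.map lv).map lx = l.map fun x => (lv x, x.isNone) := fun l hl => by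
    rw [List.map_map]
    refine List.map_congr_left fun x hx => ?_
    cases x with
    | none => exact absurd hx hl
    | some i => rfl
  have w : (s.map lv).map lx ++ ly (lv none) :: (t.map lv).map lx =
      (List.ofFn e).map fun x => (lv x, x.isNone) := by
    rw [List.nodup_middle, List.nodup_cons, List.mem_append, not_or] at nd
    rw [c s nd.1.1, c t nd.1.2, hst, List.map_append, List.map_cons]
    rfl
  refine ⟨fun x => e.symm x, s.map lv, t.map lv,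
    fun x y h => e.symm.injective (Fin.ext h), fun x y h => ?_, fun x => ?_, ?_⟩
  · have := hm (Fin.le_def.2 h.le)
    simpa using this
  · rw [w, List.getElem?_map, List.getElem?_ofFn, dif_pos (e.symm x).2]
    simp
  · rw [w]; simp

theorem w4_rp {E : Finset (Rt n)} {P N : Fin n → Fin n → Prop} {L : Fin n → Prop} {δ : ℝ}
    {d : Fin n → ℝ} (hδ : 1 / 2 ≤ δ ∧ δ ≤ 1) (hd : ∀ i, w4Good P N L δ d i)
    (hE : ∀ γ ∈ E, can γ) (hP : ∀ i j, i < j → ((i, (j, 1)) ∈ E ↔ P i j))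
    (hN : ∀ i j, i < j → ((i, (j, -1)) ∈ E ↔ N i j)) (hL : ∀ i, (i, (i, -1)) ∈ E ↔ L i) :
    ∃ u v : List ℤ, Rp (u.map lx ++ ly (-1) :: v.map lx) E := by
  choose a f f0 f1 e using fun i => w4_fold (hd i).1.le
  let lv : Option (Fin n) → ℤ := fun x => x.elim (-1) a
  let g : Option (Fin n) → ℝ := fun x => x.elim (1 - δ) f
  let D : Option (Fin n) → ℝ := fun x => x.elim δ d
  have g0 : ∀ x, 0 ≤ g x ∧ g x ≤ 1 / 2 ∧ |lv x + g x| = D x := by
    rintro (_ | i)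
    · refine ⟨by simp only [g, Option.elim]; linarith, by simp only [g, Option.elim]; linarith, ?_⟩
      simp only [g, lv, D, Option.elim]
      push_cast
      rw [show (-1 : ℝ) + (1 - δ) = -δ by ring, abs_neg, abs_of_nonneg (by linarith)]
    · exact ⟨f0 i, f1 i, e i⟩
  obtain ⟨ps, u, v, p1, p2, p3, p4⟩ := w4_word lv g
  let s : Cfg n := ⟨lv, ps⟩
  have key : ∀ x y, x ≠ y → ∀ k : ℤ, (D x < D y + k → (s.d x y : ℤ) < s.d y x + 8 * k) ∧
      (D x + D y < k → (s.d x y : ℤ) + s.d y x < 8 * k) ∧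
      (k < D x + D y → 8 * k < (s.d x y : ℤ) + s.d y x) := by
    intro x y hxy k
    rw [← (g0 x).2.2, ← (g0 y).2.2]
    refine w4_cmp _ _ k _ _ (g0 x).1 (g0 x).2.1 (g0 y).1 (g0 y).2.1 ?_
    rcases lt_or_gt_of_ne (fun h => hxy (p1 h)) with h | h
    · exact Or.inl ⟨if_pos h, if_neg h.not_gt, p2 _ _ h⟩
    · exact Or.inr ⟨if_neg h.not_gt, if_pos h, p2 _ _ h⟩
  have ne : ∀ {i j : Fin n}, i < j → some i ≠ some j := fun h e => h.ne (Option.some.inj e)
  refine ⟨u, v, s, p3, p1, p4, fun i j h => ?_, ?_⟩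
  · have := (key _ _ (ne h).symm 0).1 (by
      have := ((hd i).2.2.2.2 j h).1
      simpa [D] using this)
    omega
  · ext ⟨i, j, t⟩
    simp only [Cfg.E, mem_filter, mem_univ, true_and, Prod.mk.injEq]
    by_cases h : i < j
    · obtain ⟨_, q1, q2, q3, q4⟩ := (hd i).2.2.2.2 j h
      have k1 := (key _ _ (ne h) 1).1
      have k2 := (key _ _ (ne h).symm (-1)).1
      have k3 := (key _ _ (ne h) 1).2.1
      have k4 := (key _ _ (ne h) 1).2.2
      simp only [D, Option.elim] at k1 k2 k3 k4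
      push_cast at k1 k2 k3 k4
      have z : ¬ ((1 : ℤˣ) = -1) := by decide
      have z' : ¬ ((-1 : ℤˣ) = 1) := by decide
      rcases Int.units_eq_one_or t with rfl | rfl
      · rw [hP i j h]
        simp only [h, h.ne', true_and, false_and, or_false, z]
        refine ⟨fun a => ?_, fun a => by_contra fun b => ?_⟩
        · have := k1 (by linarith [q1 a])
          omega
        · have := k2 (by linarith [q2 b])
          omega
      · rw [hN i j h]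
        simp only [h, h.ne', true_and, false_and, or_false, false_or, z']
        refine ⟨fun a => ?_, fun a => by_contra fun b => ?_⟩
        · have := k3 (by linarith [q3 a])
          omega
        · have := k4 (by linarith [q4 b])
          omega
    · simp only [h, false_and, false_or]
      obtain ⟨_, q1, q2, _⟩ := hd i
      have k1 := (key (some i) none (by simp) 0).1
      have k2 := (key none (some i) (by simp) 0).1
      simp only [D, Option.elim] at k1 k2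
      push_cast at k1 k2
      constructor
      · intro a
        have b := (hE _ a).resolve_left h
        simp only [isLoop, Prod.mk.injEq] at b
        obtain ⟨rfl, rfl⟩ := b
        have := k1 (by linarith [q1 ((hL _).1 a)])
        exact ⟨⟨rfl, rfl⟩, by omega⟩
      · rintro ⟨⟨rfl, rfl⟩, a⟩
        refine (hL _).2 (by_contra fun b => ?_)
        have := k2 (by linarith [q2 b])
        omega

theorem rp_EH {c : ℤ} (hc : c = 1 ∨ c = 2) {H : Set (Fin n → ℤ)}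
    (hd : ∀ β ∈ posRoots n c, ∀ γ ∈ posRoots n c, β + γ ∈ H → β ∈ H) :
    ∃ (u v : List ℤ) (y : ℤ), y ≠ 0 ∧ Rp (u.map lx ++ ly y :: v.map lx) (EH c H) := by
  classical
  have hE : ∀ γ, γ ∈ EH c H ↔ can γ ∧ rv c γ ∈ H := fun γ => by simp [EH]
  obtain ⟨e, he⟩ : ∃ e : Fin n → Fin n → ℤ, ∀ i, Pi.single i 1 = e i := ⟨_, fun _ => rfl⟩
  obtain ⟨l, hl⟩ : ∃ l : Fin n → Fin n → ℤ, ∀ i, Pi.single i c = l i := ⟨_, fun _ => rfl⟩
  have pm : ∀ i j, i < j → e i - e j ∈ posRoots n c := fun i j h =>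
    Or.inl ⟨i, j, h, Or.inl (by rw [he, he])⟩
  have pp : ∀ i j, i ≠ j → e i + e j ∈ posRoots n c := fun i j h => by
    rcases lt_or_gt_of_ne h with h | h
    · exact Or.inl ⟨i, j, h, Or.inr (by rw [he, he])⟩
    · exact Or.inl ⟨j, i, h, Or.inr (by rw [he, he, add_comm])⟩
  have pl : ∀ i, l i ∈ posRoots n c := fun i => Or.inr ⟨i, (hl i).symm⟩
  have hl' : (∀ i, l i = e i) ∨ ∀ i, l i = e i + e i := by
    refine hc.imp (fun a i => by rw [← hl, a, he]) fun a i => ?_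
    rw [← hl, a, ← he, ← Pi.single_add]; rfl
  have hd' : ∀ {a β γ}, a ∈ H → β ∈ posRoots n c → γ ∈ posRoots n c → a = β + γ → β ∈ H :=
    fun h1 h2 h3 h4 => hd _ h2 _ h3 (h4 ▸ h1)
  have h2 : ∀ i k j, i < k → i ≠ j → k ≠ j → e i + e j ∈ H → e k + e j ∈ H :=
    fun i k j a _ b h => hd' h (pp _ _ b) (pm _ _ a) (by abel)
  have h5 : ∀ i j, i < j → e i + e j ∈ H → l j ∈ H := fun i j a h => by
    rcases hl' with b | b
    · exact hd' h (pl j) (pl i) (by rw [b, b]; abel)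
    · exact hd' h (pl j) (pm _ _ a) (by rw [b]; abel)
  have h4 : ∀ i k, i < k → l i ∈ H → l k ∈ H ∧ e i - e k ∈ H := fun i k a h => by
    rcases hl' with b | b
    · exact ⟨hd' h (pl k) (pm _ _ a) (by rw [b, b]; abel),
        hd' h (pm _ _ a) (pl k) (by rw [b, b]; abel)⟩
    · exact ⟨h5 i k a (hd' h (pp _ _ a.ne) (pm _ _ a) (by rw [b]; abel)),
        hd' h (pm _ _ a) (pp _ _ a.ne) (by rw [b]; abel)⟩
  have h3 : ∀ i j k, i ≠ j → i < k → e i + e j ∈ H → e i - e k ∈ H := fun i j k a1 a h => by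
    by_cases a2 : k = j
    · subst a2
      rcases hl' with b | b
      · exact (h4 i k a (hd' h (pl i) (pl k) (by rw [b, b]))).2
      · exact hd' h (pm _ _ a) (pl k) (by rw [b]; abel)
    · exact hd' h (pm _ _ a) (pp _ _ a2) (by abel)
  obtain ⟨δ, h6⟩ : ∃ δ : ℝ, (δ = 1 ∧ ∀ i j, i < j → e i + e j ∈ H → l i ∈ H) ∨
      (δ = 1 / 2 ∧ ∀ i k, i < k → l i ∈ H → e i + e k ∈ H) := by
    rcases hl' with b | b
    · exact ⟨1, Or.inl ⟨rfl, fun i j _ h => hd' h (pl i) (pl j) (by rw [b, b])⟩⟩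
    · exact ⟨1 / 2, Or.inr ⟨rfl, fun i k a h => hd' h (pp _ _ a.ne) (pm _ _ a) (by rw [b]; abel)⟩⟩
  obtain ⟨d, g⟩ := w4_real (P := fun i j => e i - e j ∈ H) (N := fun i j => e i + e j ∈ H)
    (L := fun i => l i ∈ H) (δ := δ)
    (fun i k j a b h => ⟨hd' h (pm _ _ b) (pm _ _ a) (by abel), hd' h (pm _ _ a) (pm _ _ b) (by abel)⟩)
    (fun i j h => by rwa [add_comm]) h2 h3 h4 h5 h6 n
  obtain ⟨u, v, h⟩ := w4_rp (E := EH c H)
    (by rcases h6 with ⟨a, _⟩ | ⟨a, _⟩ <;> rw [a] <;> norm_num) (fun i => g i (by omega))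
    (fun γ h => ((hE γ).1 h).1)
    (fun i j h => by rw [hE, rv_p c h, he, he]; exact and_iff_right (Or.inl h))
    (fun i j h => by rw [hE, rv_m c h, he, he]; exact and_iff_right (Or.inl h))
    (fun i => by rw [hE, rv_loop, hl]; exact and_iff_right (Or.inr rfl))
  exact ⟨u, v, -1, by decide, h⟩

end Pool.Agent.Lib.MP_33bfb2_co.Th
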