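import Pool.Agent.Lib.MP_33bfb2_co.Th.WADef

namespace Pool.Agent.Lib.MP_33bfb2_co.Th

namespace One

/-- The increasing word a, a + 1, ... of length k. -/
def sk (a : ℤ) : ℕ → List ℤ
  | 0 => []
  | k + 1 => a :: sk (a + 1) k

/-- The segment from a to j. -/
def sz (a j : ℤ) : List ℤ := sk a (j + 1 - a).toNat

theorem sz_nil {a j : ℤ} (h : j < a) : sz a j = [] := by
  rw [sz, show (j + 1 - a).toNat = 0 by omega, sk]

theorem sz_cons {a j : ℤ} (h : a ≤ j) : sz a j = a :: sz (a + 1) j := by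
  rw [sz, sz, show (j + 1 - a).toNat = (j + 1 - (a + 1)).toNat + 1 by omega, sk]

theorem sz_ind {P : ℤ → Prop} (j : ℤ) (h0 : ∀ a, j < a → P a) (h1 : ∀ a, a ≤ j → P (a + 1) → P a)
    (a : ℤ) : P a := by
  have : ∀ k : ℕ, ∀ a, (j + 1 - a).toNat = k → P a := by
    intro k
    induction k with
    | zero => exact fun a e => h0 a (by omega)
    | succ k ih => exact fun a e => h1 a (by omega) (ih _ (by omega))
  exact this _ a rfl

theorem mem_sz {j x : ℤ} : ∀ {a : ℤ}, x ∈ sz a j → a ≤ x ∧ x ≤ j := by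
  intro a
  induction a using sz_ind j with
  | h0 a h => simp [sz_nil h]
  | h1 a h ih =>
    rw [sz_cons h, List.mem_cons]
    rintro (rfl | e)
    · omega
    · have := ih e; omega

theorem sz_app {b j : ℤ} (hj : b ≤ j) : ∀ {a : ℤ}, a ≤ b + 1 → sz a j = sz a b ++ sz (b + 1) j := by
  intro a
  induction a using sz_ind b with
  | h0 a h => intro e; rw [sz_nil h, show a = b + 1 by omega]; rfl
  | h1 a h ih => intro _; rw [sz_cons h, sz_cons (h.trans hj), ih (by omega)]; rfl

theorem sz_map (j : ℤ) : ∀ a : ℤ, (sz a j).map (· - 1) = sz (a - 1) (j - 1) := by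
  intro a
  induction a using sz_ind j with
  | h0 a h => rw [sz_nil h, sz_nil (by omega)]; rfl
  | h1 a h ih =>
    rw [sz_cons h, sz_cons (show a - 1 ≤ j - 1 by omega), List.map_cons, ih]
    congr 2; ring

theorem sz_sorted (j : ℤ) : ∀ a : ℤ, (sz a j).Pairwise (· ≤ ·) := by
  intro a
  induction a using sz_ind j with
  | h0 a h => simp [sz_nil h]
  | h1 a h ih =>
    rw [sz_cons h]
    exact List.pairwise_cons.2 ⟨fun x hx => by have := mem_sz hx; omega, ih⟩

variable {T : Type} {Φ : Wd → T}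

/-- The two words of letters are congruent. -/
def R (Φ : Wd → T) (x y : List ℤ) : Prop :=
  ∀ u v, Φ (u ++ (x.map lx ++ v)) = Φ (u ++ (y.map lx ++ v))

theorem R.rfl' (x : List ℤ) : R Φ x x := fun _ _ => rfl
theorem R.symm {x y : List ℤ} (h : R Φ x y) : R Φ y x := fun u v => (h u v).symm
theorem R.trans {x y z : List ℤ} (h : R Φ x y) (h' : R Φ y z) : R Φ x z :=
  fun u v => (h u v).trans (h' u v)
theorem R.ctx {x y : List ℤ} (h : R Φ x y) (p s : List ℤ) : R Φ (p ++ (x ++ s)) (p ++ (y ++ s)) :=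
  fun u v => by simpa using h (u ++ p.map lx) (s.map lx ++ v)
theorem R.cons {x y : List ℤ} (h : R Φ x y) (a : ℤ) : R Φ (a :: x) (a :: y) := by
  simpa using h.ctx [a] []

theorem far1 (h : WA Φ) {x : ℤ} {l : List ℤ} (f : ∀ y ∈ l, x + 2 ≤ y ∨ y + 2 ≤ x) :
    R Φ (x :: l) (l ++ [x]) := by
  induction l with
  | nil => exact R.rfl' _
  | cons y l ih =>
    refine R.trans (y := y :: x :: l) (fun u v => ?_)
      ((ih fun z hz => f z (List.mem_cons_of_mem _ hz)).cons y)
    rcases f y List.mem_cons_self with e | e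
    · exact h.comm u _ x y e
    · exact (h.comm u _ y x e).symm

theorem in1 (h : WA Φ) {j x : ℤ} (hx : x ≤ j) : ∀ {a : ℤ}, a ≤ x →
    R Φ (x :: sz a j) (sz a j ++ [x]) := by
  intro a
  induction a using sz_ind j with
  | h0 a h => intro; omega
  | h1 a ha ih =>
    intro e
    rcases (show x = a ∨ x = a + 1 ∨ a + 2 ≤ x by omega) with rfl | rfl | e
    · rcases ha.eq_or_lt with rfl | e
      · rw [sz_cons le_rfl, sz_nil (by omega)]; exact R.rfl' _
      · rw [sz_cons ha, sz_cons (show x + 1 ≤ j by omega)]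
        refine R.trans (y := x :: (x + 1) :: x :: sz (x + 1 + 1) j)
          (fun u v => (h.s1 u _ x).symm) (((far1 h fun y hy => ?_).cons _).cons _)
        have := mem_sz hy; omega
    · have := (ih le_rfl).cons a
      rw [sz_cons ha]
      refine R.trans ?_ this
      rw [sz_cons hx]
      exact fun u v => h.s2 u _ a
    · rw [sz_cons ha]
      exact R.trans (y := a :: x :: sz (a + 1) j) (fun u v => (h.comm u _ a x e).symm)
        ((ih (by omega)).cons a)

theorem comm_list {l m : List ℤ} (f : ∀ x ∈ l, R Φ (x :: m) (m ++ [x])) :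
    R Φ (l ++ m) (m ++ l) := by
  induction l with
  | nil => simpa using R.rfl' m
  | cons x l ih =>
    refine ((ih fun y hy => f y (List.mem_cons_of_mem _ hy)).cons x).trans ?_
    simpa using (f x List.mem_cons_self).ctx [] l

theorem inL (h : WA Φ) {a j : ℤ} {l : List ℤ} (f : ∀ x ∈ l, a ≤ x ∧ x ≤ j) :
    R Φ (l ++ sz a j) (sz a j ++ l) :=
  comm_list fun x hx => in1 h (f x hx).2 (f x hx).1

/-- s is linked to the later segment t. -/
def lk (s t : ℤ × ℤ) : Prop := s.1 < t.1 ∧ t.1 ≤ s.2 + 1 ∧ s.2 < t.2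

theorem comm_seg (h : WA Φ) {s t : ℤ × ℤ} (h1 : ¬ lk s t) (h2 : ¬ lk t s) :
    R Φ (sz s.1 s.2 ++ sz t.1 t.2) (sz t.1 t.2 ++ sz s.1 s.2) := by
  unfold lk at h1 h2
  rcases (show (t.1 ≤ s.1 ∧ s.2 ≤ t.2) ∨ (s.1 ≤ t.1 ∧ t.2 ≤ s.2) ∨ s.2 + 2 ≤ t.1 ∨ t.2 + 2 ≤ s.1 by
    omega) with e | e | e
  · exact inL h fun x hx => by have := mem_sz hx; omega
  · exact (inL h fun x hx => by have := mem_sz hx; omega).symm
  · exact comm_list fun x hx => far1 h fun y hy => by
      have := mem_sz hx; have := mem_sz hy; omega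

theorem link (h : WA Φ) {s t : ℤ × ℤ} (hs : s.1 ≤ s.2 + 1) (e : lk s t) :
    R Φ (sz s.1 s.2 ++ sz t.1 t.2) (sz t.1 s.2 ++ sz s.1 t.2) := by
  obtain ⟨e1, e2, e3⟩ := e
  rw [sz_app e3.le e2, sz_app e3.le hs]
  simpa using (inL h (a := s.1) (j := s.2) (l := sz t.1 s.2) fun x hx => by
    have := mem_sz hx; omega).symm.ctx [] (sz (s.2 + 1) t.2)

theorem passY (h : WA Φ) {c : ℤ} {l : List ℤ} (f : ∀ x ∈ l, x ≠ c) (u v : Wd) :
    Φ (u ++ (l.map lx ++ ly c :: v)) = Φ (u ++ ly c :: (l.map lx ++ v)) := by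
  induction l generalizing u with
  | nil => rfl
  | cons x l ih =>
    have e := ih (fun y hy => f y (List.mem_cons_of_mem _ hy)) (u ++ [lx x])
    simp only [List.append_assoc, List.cons_append, List.nil_append, List.map_cons] at e ⊢
    rw [e]
    exact h.commY u _ x c (f x List.mem_cons_self)

theorem cross (h : WA Φ) {a j a' j' c : ℤ} (hc : c < 0) (h1 : a ≤ a') (h2 : a' ≤ c) (h3 : c ≤ j)
    (h4 : j ≤ j') (u : Wd) :
    Φ (u ++ ((sz a j).map lx ++ ly c :: (sz a' j').map lx)) =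
      Φ (u ++ ((sz a j).map lx ++ ((sz a' j').map lx ++ [ly c]))) := by
  have e1 : sz a' j' = sz a' (c - 1) ++ sz c j' := by
    simpa using sz_app (b := c - 1) (j := j') (a := a') (by omega) (by omega)
  have e2 : sz a j = sz a (c - 1) ++ c :: sz (c + 1) j := by
    rw [← sz_cons h3]
    simpa using sz_app (b := c - 1) (j := j) (a := a) (by omega) (by omega)
  have e3 : sz c j' = c :: sz (c + 1) j' := sz_cons (by omega)
  have n1 : ∀ x ∈ sz a' (c - 1), x ≠ c := fun x hx => by have := mem_sz hx; omega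
  have n2 : ∀ {i : ℤ}, ∀ x ∈ sz (c + 1) i, x ≠ c := fun x hx => by have := mem_sz hx; omega
  have c1 := inL h (a := a) (j := j) (l := sz a' (c - 1)) fun x hx => by have := mem_sz hx; omega
  have c2 := inL h (a := c) (j := j') (l := sz (c + 1) j) fun x hx => by have := mem_sz hx; omega
  have p1 := passY h n1 (u ++ (sz a j).map lx) ((sz c j').map lx)
  have p2 := c1 u (ly c :: (sz c j').map lx)
  have p3 := c1 u ((sz c j').map lx ++ [ly c])
  set w := u ++ ((sz a' (c - 1)).map lx ++ (sz a (c - 1)).map lx) with hw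
  have p4 := passY h (n2 (i := j)) (w ++ [lx c]) ((sz c j').map lx)
  have p5 := c2 (w ++ [lx c, ly c]) []
  have p6 := c2 (w ++ [lx c]) [ly c]
  have p7 := h.lN w ((sz (c + 1) j').map lx ++ (sz (c + 1) j).map lx) c hc
  have p8 := passY h (l := sz (c + 1) j' ++ sz (c + 1) j)
    (fun x hx => (List.mem_append.1 hx).elim (n2 x) (n2 x)) (w ++ [lx c, lx c]) []
  rw [e1]
  rw [e2] at p1 p2 p3 ⊢
  rw [e3] at p1 p2 p3 p4 p5 p6 ⊢
  simp only [hw, List.map_append, List.map_cons, List.append_assoc, List.cons_append,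
    List.nil_append, List.append_nil] at *
  rw [← p1, ← p2, ← p3, p4, p5, p6, p7, p8]

theorem rotL (h : WA Φ) {l : List ℤ} (f : ∀ x ∈ l, x < 0) (w : Wd) :
    Φ (l.map lx ++ w) = Φ (w ++ (l.map (· - 1)).map lx) := by
  induction l generalizing w with
  | nil => simp
  | cons x l ih =>
    have e := ih (fun y hy => f y (List.mem_cons_of_mem _ hy)) (w ++ [lx (x - 1)])
    have e' := h.rot (l.map lx ++ w) x false (f x List.mem_cons_self)
    simp only [List.append_assoc, List.cons_append, List.nil_append, List.map_cons] at e e' ⊢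
    rw [e', e]

theorem merge (h : WA Φ) {j : ℤ} : ∀ (a : ℤ) (l : List ℤ), l.Pairwise (· ≤ ·) →
    (∀ x ∈ l, a ≤ x ∧ x ≤ j) →
    ∃ m : List ℤ, m.Pairwise (· ≤ ·) ∧ (∀ x ∈ m, a ≤ x ∧ x ≤ j) ∧ R Φ (sz a j ++ l) m := by
  intro a
  induction a using sz_ind j with
  | h0 a ha => exact fun l h1 h2 => ⟨l, h1, h2, by rw [sz_nil ha]; exact R.rfl' _⟩
  | h1 a ha ih =>
    intro l
    induction l with
    | nil => exact fun _ _ => ⟨_, sz_sorted j a, fun x hx => mem_sz hx, by simpa using R.rfl' _⟩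
    | cons x l ih' =>
      intro h1 h2
      have hx := h2 x List.mem_cons_self
      have h3 := List.pairwise_cons.1 h1
      rcases hx.1.eq_or_lt with rfl | e
      · obtain ⟨m, m1, m2, m3⟩ := ih' h3.2 fun y hy => h2 y (List.mem_cons_of_mem _ hy)
        refine ⟨a :: m, List.pairwise_cons.2 ⟨fun y hy => (m2 y hy).1, m1⟩, fun y hy => ?_,
          R.trans ?_ (m3.cons a)⟩
        · rcases List.mem_cons.1 hy with rfl | hy
          · exact hx
          · exact m2 y hy
        · simpa using (in1 h ha le_rfl).symm.ctx [] l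
      · obtain ⟨m, m1, m2, m3⟩ := ih (x :: l) h1 fun y hy => by
          have := h2 y hy
          rcases List.mem_cons.1 hy with rfl | hy
          · omega
          · have := h3.1 y hy; omega
        refine ⟨a :: m, List.pairwise_cons.2 ⟨fun y hy => by have := m2 y hy; omega, m1⟩,
          fun y hy => ?_, by rw [sz_cons ha]; exact m3.cons a⟩
        rcases List.mem_cons.1 hy with rfl | hy
        · omega
        · have := m2 y hy; omega

/-- The word of a list of segments. -/
def W (L : List (ℤ × ℤ)) : List ℤ := L.flatMap fun s => sz s.1 s.2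

theorem W_nil : W [] = [] := rfl
theorem W_cons (s : ℤ × ℤ) (L : List (ℤ × ℤ)) : W (s :: L) = sz s.1 s.2 ++ W L := rfl
theorem W_app (L M : List (ℤ × ℤ)) : W (L ++ M) = W L ++ W M := List.flatMap_append

theorem mem_W {L : List (ℤ × ℤ)} {x : ℤ} (h : x ∈ W L) : ∃ s ∈ L, s.1 ≤ x ∧ x ≤ s.2 := by
  obtain ⟨s, h1, h2⟩ := List.mem_flatMap.1 h
  exact ⟨s, h1, mem_sz h2⟩

theorem ex_max {α : Type} (p : α → Prop) (f : α → ℤ) {L : List α} (h : ∃ x ∈ L, p x) :
    ∃ L1 x L2, L = L1 ++ x :: L2 ∧ p x ∧ ∀ y ∈ L, p y → f y ≤ f x := by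
  classical
  obtain ⟨x, h1, h2⟩ := h
  obtain ⟨x, h1, h2⟩ := Finset.exists_max_image (L.toFinset.filter p) f ⟨x, by simp [h1, h2]⟩
  simp only [Finset.mem_filter, List.mem_toFinset, and_imp] at h1 h2
  obtain ⟨L1, L2, e⟩ := List.append_of_mem h1.1
  exact ⟨L1, x, L2, e, h1.2, h2⟩

theorem nest (h : WA Φ) : ∀ (k : ℕ) (L : List (ℤ × ℤ)), L.length = k →
    (∀ r ∈ L, ∀ s ∈ L, ¬ (r.1 < s.1 ∧ r.2 < s.2)) → ∀ a j, (∀ s ∈ L, a ≤ s.1 ∧ s.2 ≤ j) →
    ∃ m : List ℤ, m.Pairwise (· ≤ ·) ∧ (∀ x ∈ m, a ≤ x ∧ x ≤ j) ∧ R Φ (W L) m := by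
  intro k
  induction k with
  | zero =>
    intro L e _ a j _
    rw [List.length_eq_zero_iff.1 e]
    exact ⟨[], List.Pairwise.nil, by simp, R.rfl' _⟩
  | succ k ih =>
    intro L e h1 a j h2
    obtain ⟨L1, s, L2, rfl, -, hm⟩ := ex_max (fun _ => True) (fun s : ℤ × ℤ => s.2 - s.1) (L := L)
      (by obtain ⟨x, hx⟩ := List.exists_mem_of_length_pos (l := L) (by omega); exact ⟨x, hx, trivial⟩)
    have hs : s ∈ L1 ++ s :: L2 := by simp
    have sub : ∀ r ∈ L1 ++ L2, r ∈ L1 ++ s :: L2 := fun r hr => by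
      simp only [List.mem_append, List.mem_cons] at hr ⊢; tauto
    have key : ∀ r ∈ L1 ++ L2, s.1 ≤ r.1 ∧ r.2 ≤ s.2 := fun r hr => by
      have a1 := h1 r (sub r hr) s hs
      have a2 := h1 s hs r (sub r hr)
      have a3 := hm r (sub r hr) trivial
      omega
    obtain ⟨m, m1, m2, m3⟩ := ih (L1 ++ L2) (by simp at e ⊢; omega)
      (fun r hr t ht => h1 r (sub r hr) t (sub t ht)) s.1 s.2 key
    obtain ⟨m', n1, n2, n3⟩ := merge h s.1 m m1 m2
    refine ⟨m', n1, fun x hx => by have := n2 x hx; have := h2 s hs; omega, R.trans ?_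
      (R.trans (by simpa using m3.ctx (sz s.1 s.2) []) n3)⟩
    have := (inL h (a := s.1) (j := s.2) (l := W L1) fun x hx => by
      obtain ⟨r, r1, r2⟩ := mem_W hx
      have := key r (List.mem_append_left _ r1)
      omega).ctx [] (W L2)
    simpa [W_app, W_cons] using this

/-- Total length, sum of squares of lengths, distance of the ends from the cut. -/
def tot (L : List (ℤ × ℤ)) : ℤ := (L.map fun s => s.2 + 1 - s.1).sum
def sq (L : List (ℤ × ℤ)) : ℤ := (L.map fun s => (s.2 + 1 - s.1) ^ 2).sum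
def en (c : ℤ) (L : List (ℤ × ℤ)) : ℕ := (L.map fun s => (s.2 - c).natAbs).sum
def ok (L : List (ℤ × ℤ)) : Prop := ∀ s ∈ L, s.1 ≤ s.2 + 1 ∧ s.2 < 0

theorem sq_le {L : List (ℤ × ℤ)} (h : ok L) : 0 ≤ tot L ∧ sq L ≤ tot L ^ 2 := by
  induction L with
  | nil => simp [tot, sq]
  | cons s L ih =>
    have h1 := ih fun t ht => h t (List.mem_cons_of_mem _ ht)
    have h2 := (h s List.mem_cons_self).1
    simp only [tot, sq, List.map_cons, List.sum_cons] at h1 ⊢
    constructor
    · omega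
    · nlinarith [mul_nonneg (show 0 ≤ s.2 + 1 - s.1 by omega) h1.1]

variable [Zero T]

/-- The value at the word of L followed by the cut vanishes. -/
def Z (Φ : Wd → T) (c : ℤ) (L : List (ℤ × ℤ)) : Prop := Φ ((W L).map lx ++ [ly c]) = 0

/-- The class of lists with given total length and sum of squares. -/
def Cl (N S : ℤ) (L : List (ℤ × ℤ)) : Prop := ok L ∧ tot L = N ∧ sq L = S

theorem Cl.perm {N S : ℤ} {L M : List (ℤ × ℤ)} (h : Cl N S L) (p : L.Perm M) : Cl N S M :=
  ⟨fun s hs => h.1 s (p.mem_iff.2 hs), ((p.map _).sum_eq).symm.trans h.2.1,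
    ((p.map _).sum_eq).symm.trans h.2.2⟩

theorem Z_of {c : ℤ} {L M : List (ℤ × ℤ)} (r : R Φ (W L) (W M)) (h : Z Φ c M) : Z Φ c L :=
  (r [] [ly c]).trans h

section
variable {c N S : ℤ} (h : WA Φ) (H : ∀ L, ok L → tot L = N → S < sq L → Z Φ c L)
include h H

theorem swap {L1 L2 : List (ℤ × ℤ)} {s t : ℤ × ℤ} (cl : Cl N S (L1 ++ s :: t :: L2))
    (e : ¬ lk t s) (z : Z Φ c (L1 ++ t :: s :: L2)) : Z Φ c (L1 ++ s :: t :: L2) := by
  by_cases e' : lk s t
  · have hs := cl.1 s (by simp)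
    have ht := cl.1 t (by simp)
    refine Z_of (M := L1 ++ (t.1, s.2) :: (s.1, t.2) :: L2)
      (by simpa [W_app, W_cons] using (link h hs.1 e').ctx (W L1) (W L2)) (H _ ?_ ?_ ?_)
    · intro r hr
      have := cl.1 r
      unfold lk at e'
      simp only [List.mem_append, List.mem_cons] at hr this
      rcases hr with hr | rfl | rfl | hr
      · exact this (Or.inl hr)
      · dsimp only; omega
      · dsimp only; omega
      · exact this (Or.inr (Or.inr (Or.inr hr)))
    · have := cl.2.1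
      simp only [tot, List.map_append, List.map_cons, List.sum_append, List.sum_cons] at this ⊢
      omega
    · have := cl.2.2
      simp only [sq, List.map_append, List.map_cons, List.sum_append, List.sum_cons] at this ⊢
      nlinarith [mul_pos (sub_pos.2 e'.1) (sub_pos.2 e'.2.2)]
  · exact Z_of (by simpa [W_app, W_cons] using (comm_seg h e' e).ctx (W L1) (W L2)) z

theorem toF {s : ℤ × ℤ} {L1 L2 : List (ℤ × ℤ)} (e : ∀ t ∈ L1, ¬ lk s t) :
    ∀ L0, Cl N S (L0 ++ (L1 ++ s :: L2)) → Z Φ c (L0 ++ s :: (L1 ++ L2)) →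
      Z Φ c (L0 ++ (L1 ++ s :: L2)) := by
  induction L1 with
  | nil => exact fun _ _ z => z
  | cons t L1 ih =>
    intro L0 cl z
    have := ih (fun r hr => e r (List.mem_cons_of_mem _ hr)) (L0 ++ [t]) (by simpa using cl)
      (by
        rw [List.append_assoc]
        exact swap h H (cl.perm (List.Perm.append_left _ (List.perm_middle.cons t)))
          (e t List.mem_cons_self) z)
    simpa using this

theorem toB {t : ℤ × ℤ} {L2 : List (ℤ × ℤ)} (e : ∀ s ∈ L2, ¬ lk s t) :
    ∀ L1, Cl N S (L1 ++ t :: L2) → Z Φ c (L1 ++ (L2 ++ [t])) → Z Φ c (L1 ++ t :: L2) := by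
  induction L2 with
  | nil => exact fun _ _ z => z
  | cons s L2 ih =>
    intro L1 cl z
    refine swap h H cl (e s List.mem_cons_self) ?_
    have := ih (fun r hr => e r (List.mem_cons_of_mem _ hr)) (L1 ++ [s])
      (by rw [List.append_assoc]; exact cl.perm (List.Perm.append_left _ (List.Perm.swap _ _ _)))
      (by simpa using z)
    simpa using this

end

theorem main (h : WA Φ) {c : ℤ} (hc : c < 0)
    (hb : ∀ l : List ℤ, l.Pairwise (· ≤ ·) → (∀ a ∈ l, a < 0) → Φ (l.map lx ++ [ly c]) = 0)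
    (N : ℤ) : ∀ (A : ℕ) (S : ℤ), (N ^ 2 - S).toNat = A → ∀ (B : ℕ) (L : List (ℤ × ℤ)),
      en c L = B → Cl N S L → Z Φ c L := by
  intro A
  induction A using Nat.strong_induction_on with
  | _ A ihA =>
  intro S eA B
  have H : ∀ L, ok L → tot L = N → S < sq L → Z Φ c L := fun L o t s =>
    ihA _ (by have := (sq_le o).2; rw [t] at this; omega) (sq L) rfl _ L rfl ⟨o, t, rfl⟩
  induction B using Nat.strong_induction_on with
  | _ B ihB =>
  intro L eB cl
  have sh : ∀ (s : ℤ × ℤ) (M : List (ℤ × ℤ)), Cl N S (s :: M) → c < s.2 → en c (s :: M) = B →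
      Z Φ c (M ++ [(s.1 - 1, s.2 - 1)]) := by
    intro s M cl' e eB'
    have hs := cl'.1 s List.mem_cons_self
    refine ihB _ ?_ _ rfl ⟨fun r hr => ?_, ?_, ?_⟩
    · simp only [en, List.map_append, List.map_cons, List.sum_append, List.sum_cons, List.map_nil,
        List.sum_nil] at eB' ⊢
      omega
    · rcases List.mem_append.1 hr with hr | hr
      · exact cl'.1 r (List.mem_cons_of_mem _ hr)
      · rw [List.mem_singleton.1 hr]; dsimp only; omega
    · rw [← cl'.2.1]; simp [tot]; ring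
    · rw [← cl'.2.2]; simp [sq]; ring
  have rot : ∀ (s : ℤ × ℤ) (w : Wd), s.2 < 0 →
      Φ ((sz s.1 s.2).map lx ++ w) = Φ (w ++ (sz (s.1 - 1) (s.2 - 1)).map lx) := fun s w e => by
    rw [rotL h (fun x hx => by have := mem_sz hx; omega), sz_map]
  have enp : ∀ {L M : List (ℤ × ℤ)}, L.Perm M → en c L = en c M := fun p => (p.map _).sum_eq
  by_cases c1 : ∃ s ∈ L, c + 2 ≤ s.1
  · obtain ⟨L1, s, L2, rfl, p, hm⟩ := ex_max _ (fun s : ℤ × ℤ => s.1) c1
    have cl' := cl.perm List.perm_middle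
    have hs := cl'.1 s List.mem_cons_self
    refine toF h H (fun t ht e => ?_) [] cl ?_
    · have := hm t (List.mem_append_left _ ht)
      unfold lk at e; omega
    · have z := sh s _ cl' (by omega) ((enp List.perm_middle).symm.trans eB)
      have := passY h (c := c) (l := sz (s.1 - 1) (s.2 - 1))
        (fun x hx => by have := mem_sz hx; omega) ((W (L1 ++ L2)).map lx) []
      unfold Z at z ⊢
      rw [List.nil_append, W_cons, List.map_append, List.append_assoc, rot s _ hs.2]
      simp only [W_app, W_cons, W_nil, List.map_append, List.append_assoc, List.append_nil,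
        List.cons_append, List.nil_append] at z this ⊢
      rw [← this, z]
  by_cases c2 : ∃ s ∈ L, s.2 < c
  · obtain ⟨L1, t, L2, rfl, p, hm⟩ := ex_max _ (fun s : ℤ × ℤ => -s.2) c2
    have cl' := cl.perm List.perm_middle
    have ht := cl'.1 t List.mem_cons_self
    refine toB h H (fun s hs e => ?_) L1 cl ?_
    · have := hm s (by simp [hs])
      unfold lk at e; omega
    · have z : Z Φ c ((t.1 + 1, t.2 + 1) :: (L1 ++ L2)) := by
        have eB' := (enp List.perm_middle).symm.trans eB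
        refine ihB _ ?_ _ rfl ⟨fun r hr => ?_, ?_, ?_⟩
        · simp only [en, List.map_cons, List.sum_cons] at eB' ⊢
          omega
        · rcases List.mem_cons.1 hr with rfl | hr
          · dsimp only; omega
          · exact cl'.1 r (List.mem_cons_of_mem _ hr)
        · rw [← cl'.2.1]; simp [tot]
        · rw [← cl'.2.2]; simp [sq]
      have := passY h (c := c) (l := sz t.1 t.2)
        (fun x hx => by have := mem_sz hx; omega) ((W (L1 ++ L2)).map lx) []
      unfold Z at z ⊢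
      rw [W_cons, List.map_append, List.append_assoc, rot _ _ (by dsimp only; omega)] at z
      simp only [W_app, W_cons, W_nil, List.map_append, List.append_assoc, List.append_nil,
        List.cons_append, List.nil_append, add_sub_cancel_right] at z this ⊢
      rw [this, z]
  push Not at c1 c2
  by_cases c3 : ∃ s ∈ L, ∃ t ∈ L, t.1 < s.1 ∧ t.2 < s.2
  · obtain ⟨L1, s, L2, e, ⟨t0, t1, t2⟩, hm⟩ := ex_max _ (fun s : ℤ × ℤ => s.1) c3
    have hs : s ∈ L := by simp [e]
    have sub : ∀ r ∈ L1 ++ L2, r ∈ L := fun r hr => by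
      simp only [e, List.mem_append, List.mem_cons] at hr ⊢; tauto
    obtain ⟨M1, t, M2, e', p, hm'⟩ := ex_max (fun t : ℤ × ℤ => t.1 < s.1 ∧ t.2 < s.2)
      (fun s : ℤ × ℤ => -s.1) (L := L1 ++ L2) ⟨t0, by
        simp only [e, List.mem_append, List.mem_cons] at t1 ⊢
        rcases t1 with t1 | rfl | t1
        · exact Or.inl t1
        · omega
        · exact Or.inr t1, t2⟩
    have ht : t ∈ L := sub t (by simp [e'])
    have p1 : L.Perm (s :: (M1 ++ t :: M2)) := by rw [e, ← e']; exact List.perm_middle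
    have p2 : (s :: (M1 ++ t :: M2)).Perm (s :: (M1 ++ (M2 ++ [t]))) :=
      (List.Perm.append_left _ (List.perm_append_singleton t M2).symm).cons s
    rw [e]
    refine toF h H (fun r hr lr => ?_) [] (by rw [List.nil_append, ← e]; exact cl) ?_
    · have := hm r (sub r (List.mem_append_left _ hr)) ⟨s, hs, lr.1, lr.2.2⟩
      have := lr.1
      omega
    rw [List.nil_append, e']
    refine toB h H (fun r hr lr => ?_) (s :: M1) (cl.perm p1) ?_
    · have := hm' r (by simp [e', hr])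
      unfold lk at lr; omega
    have a1 := c1 s hs
    have a2 := c2 t ht
    have a3 := cl.1 s hs
    have z := sh s _ (cl.perm (p1.trans p2)) (by omega) ((enp (p1.trans p2)).symm.trans eB)
    have := cross h (a := t.1) (j := t.2) (a' := s.1 - 1) (j' := s.2 - 1) hc (by omega) (by omega)
      a2 (by omega) ((W (M1 ++ M2)).map lx)
    unfold Z at z ⊢
    rw [List.cons_append, W_cons, List.map_append, List.append_assoc, rot s _ a3.2]
    simp only [W_app, W_cons, W_nil, List.map_append, List.append_assoc, List.append_nil,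
      List.cons_append, List.nil_append] at z this ⊢
    rw [this, z]
  · obtain ⟨a, ha⟩ : ∃ a, ∀ s ∈ L, a ≤ s.1 := by
      obtain ⟨a, ha⟩ := (L.finite_toSet.image Prod.fst).bddBelow
      exact ⟨a, fun s hs => ha ⟨s, hs, rfl⟩⟩
    obtain ⟨m, m1, m2, m3⟩ := nest h _ L rfl (fun r hr s hs e => c3 ⟨s, hs, r, hr, e⟩) a (-1)
      fun s hs => ⟨ha s hs, by have := cl.1 s hs; omega⟩
    exact (m3 [] [ly c]).trans (hb m m1 fun x hx => by have := m2 x hx; omega)

theorem W_sing (l : List ℤ) : W (l.map fun a => (a, a)) = l := by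
  induction l with
  | nil => rfl
  | cons a l ih => rw [List.map_cons, W_cons, ih, sz_cons le_rfl, sz_nil (by omega)]; rfl

end One

theorem stage1_mod {T : Type} [AddCommGroup T] {Φ : Wd → T} (h : WA Φ)
    (hb : ∀ (l : List ℤ) (c : ℤ), l.Pairwise (· ≤ ·) → (∀ a ∈ l, a < 0) → c < 0 →
      Φ (l.map lx ++ [ly c]) = 0)
    (u v : List ℤ) (c : ℤ) (hu : ∀ a ∈ u, a < 0) (hv : ∀ a ∈ v, a < 0) (hc : c < 0) :
    Φ (u.map lx ++ ly c :: v.map lx) = 0 := by
  have z := One.main h (c := c - 1) (by omega) (fun l a b => hb l _ a b (by omega)) _ _ _ rfl _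
    ((v ++ u.map (· - 1)).map fun a => (a, a)) rfl ⟨fun s hs => ?_, rfl, rfl⟩
  · rw [One.Z, One.W_sing] at z
    rw [One.rotL h hu, List.cons_append, h.rot _ c true hc]
    simpa using z
  · obtain ⟨a, ha, rfl⟩ := List.mem_map.1 hs
    rcases List.mem_append.1 ha with e | e
    · have := hv a e; dsimp only; omega
    · obtain ⟨b, hb', rfl⟩ := List.mem_map.1 e
      have := hu b hb'; dsimp only; omega

end Pool.Agent.Lib.MP_33bfb2_co.Th
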