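import Mathlib

namespace Pool.Agent.Lib.MP_33bfb2_co.Th

/-- Any two of the three statements give the third. -/
def T3 (x y z : Prop) : Prop := (x → y → z) ∧ (x → z → y) ∧ (y → z → x)

/-- Closure laws of a set of words next to a cut of level c placed after the last letter. -/
structure FK (c : ℤ) (Z : List ℤ → Prop) : Prop where
  comm : ∀ u v a b, a + 2 ≤ b → (Z (u ++ a :: b :: v) ↔ Z (u ++ b :: a :: v))
  ser : ∀ u v a b, b = a + 1 ∨ a = b + 1 →
    T3 (Z (u ++ a :: a :: b :: v)) (Z (u ++ a :: b :: a :: v)) (Z (u ++ b :: a :: a :: v))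
  e1 : ∀ u a, a ≠ c → Z (u ++ [a])
  e2 : ∀ u, Z (u ++ [c, c])

namespace FK

/-- The occupied places after the word has acted on the places up to c. -/
def st (c : ℤ) : List ℤ → ℤ → Prop
  | [], p => p ≤ c
  | a :: w, p => p = a + 1 ∨ (p ≠ a ∧ st c w p)

/-- Every letter moves a particle to a free place. -/
def ok (c : ℤ) : List ℤ → Prop
  | [] => True
  | a :: w => ok c w ∧ st c w a ∧ ¬ st c w (a + 1)

variable {c : ℤ} {Z : List ℤ → Prop}

theorem st_cons (a : ℤ) (w : List ℤ) (p : ℤ) :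
    st c (a :: w) p ↔ p = a + 1 ∨ (p ≠ a ∧ st c w p) := Iff.rfl

theorem ok_cons (a : ℤ) (w : List ℤ) :
    ok c (a :: w) ↔ ok c w ∧ st c w a ∧ ¬ st c w (a + 1) := Iff.rfl

theorem comm' (h : FK c Z) (u v : List ℤ) {a b : ℤ} (hab : a + 2 ≤ b ∨ b + 2 ≤ a) :
    Z (u ++ a :: b :: v) ↔ Z (u ++ b :: a :: v) :=
  hab.elim (h.comm u v a b) fun e => (h.comm u v b a e).symm

theorem cx (h : FK c Z) : ∀ (w : List ℤ) (b : ℤ), ok c w → ¬ st c w b → st c w (b + 1) →
    ∃ w0 : List ℤ, ok c w0 ∧ (∀ p, st c w0 p ↔ p = b ∨ (p ≠ b + 1 ∧ st c w p)) ∧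
      (b :: w0).Perm w ∧ ∀ u, Z (u ++ w) ↔ Z (u ++ b :: w0)
  | [], b, _, h1, h2 => by simp only [st] at h1 h2; omega
  | a :: w, b, ⟨h0, ha, ha'⟩, h1, h2 => by
    rw [st_cons] at h1 h2
    by_cases e : a = b
    · subst e
      refine ⟨w, h0, fun p => ?_, List.Perm.refl _, fun _ => Iff.rfl⟩
      rw [st_cons]
      by_cases e1 : p = a
      · simp [e1, ha]
      · by_cases e2 : p = a + 1
        · simp [e2, ha']
        · simp [e1, e2]
    · have hab : a + 2 ≤ b ∨ b + 2 ≤ a := by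
        rcases h2 with h2 | h2
        · omega
        · have := h2.1
          have : b ≠ a + 1 := fun e => h1 (Or.inl e)
          omega
      have g1 : ¬ st c w b := fun g => h1 (Or.inr ⟨by omega, g⟩)
      have g2 : st c w (b + 1) := h2.elim (fun e => by omega) And.right
      obtain ⟨w0, k0, k1, k2, k3⟩ := cx h w b h0 g1 g2
      refine ⟨a :: w0, ⟨k0, (k1 a).2 (Or.inr ⟨by omega, ha⟩), fun g => ?_⟩, fun p => ?_,
        (List.Perm.swap a b w0).trans (k2.cons a), fun u => ?_⟩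
      · rcases (k1 _).1 g with g | g
        · omega
        · exact ha' g.2
      · rw [st_cons, st_cons, k1]
        by_cases g : st c w p <;> simp only [g, and_true, and_false, or_false] <;> omega
      · have := k3 (u ++ [a])
        simp only [List.append_assoc, List.singleton_append] at this
        rw [this, h.comm' u w0 hab]

theorem kill (h : FK c Z) : ∀ (m : ℕ) (w : List ℤ) (a : ℤ), w.length = m → ok c w →
    ¬ (st c w a ∧ ¬ st c w (a + 1)) → ∀ u, Z (u ++ a :: w) := by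
  intro m
  induction m using Nat.strong_induction_on with
  | _ m ih =>
    intro w a hm hw ha u
    rcases w with _ | ⟨b, w0⟩
    · refine h.e1 u a fun e => ha ?_
      simp only [st]; omega
    obtain ⟨h0, hb, hb'⟩ := hw
    simp only [List.length_cons] at hm
    simp only [st_cons] at ha
    have self : ∀ x : List ℤ, ¬ (st c (a :: x) a ∧ ¬ st c (a :: x) (a + 1)) := fun x g =>
      g.2 (Or.inl rfl)
    by_cases e1 : a + 2 ≤ b ∨ b + 2 ≤ a
    · rw [h.comm' u w0 e1]
      have := ih _ (by omega) w0 a rfl h0 (fun g => ha ⟨Or.inr ⟨by omega, g.1⟩, fun g' =>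
        g'.elim (fun e => by omega) fun e => g.2 e.2⟩) (u ++ [b])
      simpa using this
    by_cases e2 : a = b
    · subst e2
      rcases w0 with _ | ⟨d, w1⟩
      · have : a = c := by simp only [st] at hb hb'; omega
        subst this; exact h.e2 u
      obtain ⟨k0, kd, kd'⟩ := h0
      simp only [List.length_cons] at hm
      rw [st_cons] at hb hb'
      by_cases e3 : a + 2 ≤ d ∨ d + 2 ≤ a
      · have t1 := h.comm' (u ++ [a]) w1 e3
        have t2 := h.comm' u (a :: w1) e3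
        have := ih _ (by simp only [List.length_cons]; omega) (a :: w1) a rfl
          ⟨k0, hb.elim (fun e => by omega) And.right, fun g => hb' (Or.inr ⟨by omega, g⟩)⟩
          (self w1) (u ++ [d])
        simp only [List.append_assoc, List.singleton_append] at t1 this
        rw [t1, t2]; exact this
      · have e4 : d = a + 1 ∨ a = d + 1 := by
          rcases hb with hb | hb
          · omega
          · have := hb.1; omega
        have na : ¬ (st c w1 a ∧ ¬ st c w1 (a + 1)) := fun g =>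
          e4.elim (fun e => g.2 (e ▸ kd)) fun e => kd' (e ▸ g.1)
        have t1 := ih _ (by omega) w1 a rfl k0 na (u ++ [a, d])
        have t2 := ih _ (by omega) w1 a rfl k0 na (u ++ [d, a])
        simp only [List.append_assoc, List.cons_append, List.nil_append] at t1 t2
        exact (h.ser u w1 a d e4).2.2 t1 t2
    have e4 : b = a + 1 ∨ a = b + 1 := by omega
    have r1 : ¬ st c w0 a := fun g => e4.elim
      (fun e => ha ⟨Or.inr ⟨by omega, g⟩, fun g' => g'.elim (fun _ => by omega) fun g' =>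
        g'.1 e.symm⟩) fun e => hb' (e ▸ g)
    have r2 : st c w0 (a + 1) := by
      rcases e4 with e | e
      · exact e ▸ hb
      · by_contra g
        exact ha ⟨Or.inl e, fun g' => g'.elim (fun _ => by omega) fun g' => g g'.2⟩
    obtain ⟨w1, k0, k1, k2, k3⟩ := h.cx w0 a h0 r1 r2
    have hl : w1.length + 1 = w0.length := by simpa using k2.length_eq
    have s1 : st c w1 a := (k1 a).2 (Or.inl rfl)
    have s2 : ¬ st c w1 (a + 1) := fun g => ((k1 _).1 g).elim (fun _ => by omega) fun g => g.1 rfl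
    have t0 := k3 (u ++ [a, b])
    have t1 := ih _ (by omega) w1 b rfl k0
      (fun g => e4.elim (fun e => s2 (e ▸ g.1)) fun e => g.2 (e ▸ s1)) (u ++ [a, a])
    have t2 := ih _ (by simp only [List.length_cons]; omega) (a :: w1) a rfl ⟨k0, s1, s2⟩
      (self w1) (u ++ [b])
    simp only [List.append_assoc, List.cons_append, List.nil_append] at t0 t1 t2
    exact t0.2 ((h.ser u w1 a b e4).2.1 t1 t2)

theorem kill' (h : FK c Z) {w : List ℤ} {a : ℤ} (hw : ok c w)
    (ha : ¬ (st c w a ∧ ¬ st c w (a + 1))) (u : List ℤ) : Z (u ++ a :: w) :=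
  h.kill _ w a rfl hw ha u

theorem ok_or (h : FK c Z) : ∀ w : List ℤ, ok c w ∨ ∀ u, Z (u ++ w)
  | [] => Or.inl trivial
  | a :: w => by
    rcases ok_or h w with g | g
    · by_cases e : st c w a ∧ ¬ st c w (a + 1)
      · exact Or.inl ⟨g, e⟩
      · exact Or.inr (h.kill' g e)
    · exact Or.inr fun u => by simpa using g (u ++ [a])

theorem hole : ∀ w : List ℤ, ok c w → w ≠ [] → ∃ p ≤ c, ¬ st c w p
  | [], _, h => absurd rfl h
  | a :: w, ⟨h0, ha, ha'⟩, _ => by
    by_cases e : a ≤ c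
    · exact ⟨a, e, fun g => g.elim (fun _ => by omega) fun g => g.1 rfl⟩
    · obtain ⟨p, hp, hp'⟩ := hole w h0 (by rintro rfl; exact e ha)
      exact ⟨p, hp, fun g => g.elim (fun _ => by omega) fun g => hp' g.2⟩

theorem down {S : ℤ → Prop} {lo t : ℤ} (hl : lo ≤ t) (ht : S t)
    (h : ∀ p, lo ≤ p → p < t → S (p + 1) → S p) : S lo := by
  have : ∀ k : ℕ, lo ≤ t - k → S (t - k) := by
    intro k
    induction k with
    | zero => intro _; simpa using ht
    | succ k ih =>
      intro g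
      push_cast at g ⊢
      refine h _ g (by omega) ?_
      rw [show t - ((k : ℤ) + 1) + 1 = t - k by ring]
      exact ih (by omega)
  have e := this (t - lo).toNat (by omega)
  rwa [show t - ((t - lo).toNat : ℤ) = lo by omega] at e

theorem top {w : List ℤ} (hw : w ≠ []) {M : ℤ}
    (hM : ∀ b, M < b → ¬ (¬ st c w b ∧ st c w (b + 1))) :
    ∃ b ≤ M, ¬ st c w b ∧ st c w (b + 1) ∧ ∀ p, b < p → st c w (p + 1) → st c w p := by
  obtain ⟨b, hb, hb'⟩ := Int.exists_greatest_of_bdd
    (P := fun b => ¬ st c w b ∧ st c w (b + 1)) ⟨M, fun z hz => not_lt.1 fun g => hM z g hz⟩ (by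
      rcases w with _ | ⟨a, w⟩
      · exact absurd rfl hw
      · exact ⟨a, fun g => g.elim (fun _ => by omega) fun g => g.1 rfl, Or.inl rfl⟩)
  refine ⟨b, not_lt.1 fun g => hM b g hb, hb.1, hb.2, fun p hp g => ?_⟩
  by_contra g'
  have := hb' p ⟨g', g⟩
  omega

/-- One reflection of a removable letter. -/
theorem refl (h : FK c Z) {f : ℤ → ℤ} (hf : ∀ a w, Z (f a :: w) → Z (a :: w)) {w : List ℤ}
    (hw : ok c w) {b : ℤ} (h1 : ¬ st c w b) (h2 : st c w (b + 1))
    (hz : ∀ w0 : List ℤ, ok c (f b :: w0) → (∀ p, st c w0 p ↔ p = b ∨ (p ≠ b + 1 ∧ st c w p)) →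
      (b :: w0).Perm w → Z (f b :: w0)) : Z w := by
  obtain ⟨w0, k0, k1, k2, k3⟩ := h.cx w b hw h1 h2
  refine (k3 []).2 (hf _ _ ?_)
  by_cases e : st c w0 (f b) ∧ ¬ st c w0 (f b + 1)
  · exact hz w0 ⟨k0, e⟩ k1 k2
  · exact h.kill' k0 e []

theorem cnt_lt {w w0 : List ℤ} {a b : ℤ} (hp : (b :: w0).Perm w) (hb : 0 ≤ b) (ha : a < 0) :
    (a :: w0).countP (fun x => decide (0 ≤ x)) < w.countP fun x => decide (0 ≤ x) := by
  rw [← hp.countP_eq]
  simp [hb, not_le.2 ha]

theorem backH (h : FK c Z) (hf : ∀ a w, Z ((-a - 1) :: w) → Z (a :: w)) : ∀ (i : ℕ) (w : List ℤ),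
    ok c w → (∀ p, -(i : ℤ) ≤ p → p ≤ i → st c w p) → ¬ st c w (-i - 1) → ¬ st c w (i + 1) → Z w := by
  intro i
  induction i with
  | zero =>
    intro w hw h1 h2 _
    refine h.refl (f := fun a => -a - 1) hf hw h2 (h1 _ (by omega) (by omega)) fun w0 k0 k1 _ => ?_
    exact ((k1 _).1 k0.2.1).elim (fun _ => by omega) fun g => absurd (by omega) g.1
  | succ i ih =>
    intro w hw h1 h2 h3
    refine h.refl (f := fun a => -a - 1) hf hw h2 (h1 _ (by omega) (by omega)) fun w0 k0 k1 _ => ?_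
    refine ih _ k0 (fun p g1 g2 => Or.inr ⟨by omega, (k1 p).2 (Or.inr ⟨by omega,
      h1 p (by omega) (by omega)⟩)⟩) (fun g => ?_) fun g => ?_
    · exact g.elim (fun _ => by omega) fun g => ((k1 _).1 g.2).elim (fun _ => by omega)
        fun g => g.1 (by omega)
    · exact g.elim (fun _ => by omega) fun g => g.1 (by omega)

theorem back (h : FK c Z) (hf : ∀ a w, Z ((-a - 1) :: w) → Z (a :: w)) (w : List ℤ)
    (hne : w ≠ []) : Z w := by
  have key : ∀ (m : ℕ) (w : List ℤ), w.countP (fun x => decide (0 ≤ x)) = m → ok c w → w ≠ [] →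
      Z w := by
    intro m
    induction m using Nat.strong_induction_on with
    | _ m ih =>
      intro w hm hw hne
      by_cases e : ∃ b, -1 < b ∧ ¬ st c w b ∧ st c w (b + 1)
      · obtain ⟨b, hb, h1, h2⟩ := e
        exact h.refl (f := fun a => -a - 1) hf hw h1 h2 fun w0 k0 _ k2 =>
          ih _ (hm ▸ cnt_lt k2 (by omega) (by omega)) _ rfl k0 (List.cons_ne_nil _ _)
      obtain ⟨b, hb, h1, h2, h3⟩ := top (c := c) hne (M := -1) fun b hb g => e ⟨b, hb, g⟩
      by_contra hz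
      refine hz (h.refl (f := fun a => -a - 1) hf hw h1 h2 fun w0 k0 k1 _ => absurd ?_ hz)
      obtain ⟨i, rfl⟩ : ∃ i : ℕ, b = -i - 1 := ⟨(-b - 1).toNat, by omega⟩
      have g1 : st c w i := by
        have := (k1 _).1 k0.2.1
        rw [show -(-(i : ℤ) - 1) - 1 = i by ring] at this
        exact this.elim (fun _ => by omega) And.right
      refine h.backH hf i w hw (fun p a1 a2 => down a2 g1 fun r b1 _ => h3 r (by omega)) h1
        fun g => k0.2.2 ((k1 _).2 (Or.inr ⟨by omega, ?_⟩))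
      rwa [show -(-(i : ℤ) - 1) - 1 + 1 = i + 1 by ring]
  rcases h.ok_or w with g | g
  · exact key _ w rfl g hne
  · exact g []

/-- Two removals in a row. -/
theorem cx2 (h : FK c Z) {w : List ℤ} (hw : ok c w) {a b : ℤ} (h1 : ¬ st c w a)
    (h2 : st c w (a + 1)) (h3 : ¬ (b = a ∨ (b ≠ a + 1 ∧ st c w b)))
    (h4 : b + 1 = a ∨ (b ≠ a ∧ st c w (b + 1))) :
    ∃ w1 : List ℤ, ok c w1 ∧ (∀ p, st c w1 p ↔ p = b ∨ (p ≠ b + 1 ∧
      (p = a ∨ (p ≠ a + 1 ∧ st c w p)))) ∧ (Z (a :: b :: w1) → Z w) := by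
  obtain ⟨w0, k0, k1, -, k3⟩ := h.cx w a hw h1 h2
  obtain ⟨w1, l0, l1, -, l3⟩ := h.cx w0 b k0 (fun g => h3 ((k1 _).1 g))
    ((k1 _).2 (h4.imp id fun g => ⟨by have := g.1; omega, g.2⟩))
  exact ⟨w1, l0, fun p => by rw [l1, k1], fun g => (k3 []).2 ((l3 [a]).2 g)⟩

section front

variable (h : FK c Z) (hN : ∀ w, T3 (Z (0 :: -1 :: w)) (Z (1 :: 0 :: w)) (Z (0 :: 1 :: w)))
include h hN

theorem al {w : List ℤ} (hw : ok c w) (h0 : ¬ st c w 0) (h1 : ¬ st c w 1) (h2 : st c w 2) :
    Z w := by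
  obtain ⟨w1, k0, k1, k2⟩ := h.cx2 hw (a := 1) (b := 0) h1 h2 (by simp [h0]) (by simp)
  exact k2 ((hN w1).2.1 (h.kill' k0 (by simp [k1]) [0]) (h.kill' k0 (by simp [k1]) [0]))

theorem be {w : List ℤ} (hw : ok c w) (h0 : ¬ st c w (-1)) (h1 : ¬ st c w 0) (h2 : st c w 1) :
    Z w := by
  obtain ⟨w1, k0, k1, k2⟩ := h.cx2 hw (a := 0) (b := -1) h1 h2 (by simp [h0]) (by simp)
  exact k2 ((hN w1).2.2 (h.kill' k0 (by simp [k1]) [1]) (h.kill' k0 (by simp [k1]) [0]))

theorem ga {w : List ℤ} (hw : ok c w) (h0 : ¬ st c w 0) (h1 : st c w 1) (h2 : st c w 2) :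
    Z w := by
  obtain ⟨w1, k0, k1, k2⟩ := h.cx2 hw (a := 0) (b := 1) h0 h1 (by simp) (Or.inr ⟨by simp, h2⟩)
  exact k2 ((hN w1).1 (h.kill' k0 (by simp [k1]) [0]) (h.kill' k0 (by simp [k1]) [1]))

theorem frontH (hf : ∀ a w, Z ((-a) :: w) → Z (a :: w)) : ∀ (i : ℕ) (w : List ℤ),
    ok c w → (∀ p, -(i : ℤ) < p → p ≤ i → st c w p) → ¬ st c w (-i) → ¬ st c w (i + 1) →
    (1 ≤ i ∨ st c w 2) → Z w := by
  intro i
  induction i with
  | zero =>
    intro w hw _ h2 h3 h4
    exact h.al hN hw h2 h3 (h4.elim (fun _ => by omega) id)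
  | succ i ih =>
    intro w hw h1 h2 h3 _
    refine h.refl (f := fun a => -a) hf hw h2 (h1 _ (by omega) (by omega)) fun w0 k0 k1 _ => ?_
    refine ih _ k0 (fun p g1 g2 => Or.inr ⟨by omega, (k1 p).2 (Or.inr ⟨by omega,
      h1 p (by omega) (by omega)⟩)⟩) (fun g => ?_) (fun g => ?_) ?_
    · exact g.elim (fun _ => by omega) fun g => ((k1 _).1 g.2).elim (fun _ => by omega)
        fun g => g.1 (by omega)
    · exact g.elim (fun _ => by omega) fun g => g.1 (by omega)
    · rcases Nat.eq_zero_or_pos i with rfl | g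
      · exact Or.inr (Or.inl (by norm_num))
      · exact Or.inl g

theorem front (hf : ∀ a w, Z ((-a) :: w) → Z (a :: w)) (hc : c < 0) (w : List ℤ)
    (hne : w ≠ []) : Z w := by
  have key : ∀ (m : ℕ) (w : List ℤ), w.countP (fun x => decide (0 ≤ x)) = m → ok c w → w ≠ [] →
      Z w := by
    intro m
    induction m using Nat.strong_induction_on with
    | _ m ih =>
      intro w hm hw hne
      by_cases e : ∃ b, 0 < b ∧ ¬ st c w b ∧ st c w (b + 1)
      · obtain ⟨b, hb, h1, h2⟩ := e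
        exact h.refl (f := fun a => -a) hf hw h1 h2 fun w0 k0 _ k2 =>
          ih _ (hm ▸ cnt_lt k2 (by omega) (by omega)) _ rfl k0 (List.cons_ne_nil _ _)
      have e' : ∀ p, 0 < p → st c w (p + 1) → st c w p := fun p hp g =>
        by_contra fun g' => e ⟨p, hp, g', g⟩
      by_cases e0 : ¬ st c w 0 ∧ st c w 1
      · by_cases g1 : st c w (-1)
        swap
        · exact h.be hN hw g1 e0.1 e0.2
        by_cases g2 : st c w 2
        · exact h.ga hN hw e0.1 e0.2 g2
        obtain ⟨p, hp, hp'⟩ := hole w hw hne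
        obtain ⟨b, hb, h1, h2⟩ : ∃ b, b < -1 ∧ ¬ st c w b ∧ st c w (b + 1) := by
          by_contra g
          exact hp' (down (by omega) g1 fun r _ b2 b3 => by_contra fun g' => g ⟨r, b2, g', b3⟩)
        refine h.refl (f := fun a => -a) hf hw h1 h2 fun w0 k0 k1 _ => absurd ?_ g2
        exact down (t := -b) (by omega) (((k1 _).1 k0.2.1).elim (fun _ => by omega) And.right)
          fun r b1 _ => e' r (by omega)
      obtain ⟨b, hb, h1, h2, h3⟩ := top (c := c) hne (M := -1) fun b hb g => by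
        rcases (show b = 0 ∨ 0 < b by omega) with rfl | g'
        · exact e0 g
        · exact e ⟨b, g', g⟩
      by_contra hz
      refine hz (h.refl (f := fun a => -a) hf hw h1 h2 fun w0 k0 k1 _ => absurd ?_ hz)
      obtain ⟨i, rfl⟩ : ∃ i : ℕ, b = -i := ⟨(-b).toNat, by omega⟩
      have g1 : st c w i := by
        have := (k1 _).1 k0.2.1
        rw [neg_neg] at this
        exact this.elim (fun _ => by omega) And.right
      refine h.frontH hN hf i w hw (fun p a1 a2 => down a2 g1 fun r b1 _ => h3 r (by omega)) h1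
        (fun g => k0.2.2 ((k1 _).2 (Or.inr ⟨by omega, ?_⟩))) (Or.inl (by omega))
      rwa [neg_neg]
  rcases h.ok_or w with g | g
  · exact key _ w rfl g hne
  · exact g []

end front

end FK

end Pool.Agent.Lib.MP_33bfb2_co.Th
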