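import Pool.Agent.Lib.MP_33bfb2_co.Th.WFar
import Pool.Agent.Lib.MP_33bfb2_co.Th.WFock

namespace Pool.Agent.Lib.MP_33bfb2_co.Th

namespace WTwo

variable {T : Type} [CommRing T] [IsDomain T] {q : T} {Φ : Wd → T}

theorem two (h0 : q ≠ 0) (h1 : 1 + q ≠ 0) {t m b : T} (h : Mod q t m b) :
    (t = 0 → m = 0 → b = 0) ∧ (t = 0 → b = 0 → m = 0) ∧ (m = 0 → b = 0 → t = 0) := by
  unfold Mod at h
  refine ⟨fun a1 a2 => ?_, fun a1 a2 => ?_, fun a1 a2 => ?_⟩ <;> rw [a1, a2] at h
  · exact (mul_eq_zero.1 (by linear_combination -h)).resolve_left h0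
  · exact (mul_eq_zero.1 (by linear_combination h)).resolve_left h1
  · linear_combination -h

omit [IsDomain T] in
theorem t3 {x y z : Prop} {a b c : T} {A B C j : ℕ} (h : T3 (a = 0) (b = 0) (c = 0))
    (e1 : A = B) (e2 : B = C) (hx : x ↔ (A = j → a = 0)) (hy : y ↔ (B = j → b = 0))
    (hz : z ↔ (C = j → c = 0)) : T3 x y z := by
  subst e1 e2
  rw [hx, hy, hz]
  exact ⟨fun a1 a2 e => h.1 (a1 e) (a2 e), fun a1 a2 e => h.2.1 (a1 e) (a2 e),
    fun a1 a2 e => h.2.2 (a1 e) (a2 e)⟩

/-- All words with n ordinary letters and cut level c vanish. -/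
def Zc (Φ : Wd → T) (n : ℕ) (c : ℤ) : Prop :=
  ∀ u v : List ℤ, u.length + v.length = n → Φ (u.map lx ++ ly c :: v.map lx) = 0

variable (h0 : q ≠ 0) (h1 : 1 + q ≠ 0) (h : WL (Mod q) (Mod q) Φ)
include h0 h1 h

theorem ser (u v : Wd) {a b : ℤ} (e : b = a + 1 ∨ a = b + 1) :
    T3 (Φ (u ++ lx a :: lx a :: lx b :: v) = 0) (Φ (u ++ lx a :: lx b :: lx a :: v) = 0)
      (Φ (u ++ lx b :: lx a :: lx a :: v) = 0) := by
  rcases e with rfl | rfl
  · obtain ⟨a1, a2, a3⟩ := two h0 h1 (h.s1 u v a)
    exact ⟨fun x y => a3 y x, fun x y => a2 y x, fun x y => a1 y x⟩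
  · exact two h0 h1 (h.s2 u v b)

theorem cut (u v : Wd) (c : ℤ) :
    T3 (Φ (u ++ lx c :: lx c :: ly c :: v) = 0) (Φ (u ++ lx c :: ly c :: lx c :: v) = 0)
      (Φ (u ++ ly c :: lx c :: lx c :: v) = 0) := by
  rcases lt_or_ge c 0 with e | e
  · obtain ⟨a1, a2, a3⟩ := two h0 h1 (h.lN u v c e)
    exact ⟨fun x y => a3 y x, fun x y => a2 y x, fun x y => a1 y x⟩
  · exact two h0 h1 (h.lP u v c e)

theorem front {n : ℕ} {c : ℤ} (hc : c < 0)
    (hz : ∀ v : List ℤ, v.length = n → Φ (ly c :: v.map lx) = 0) : Zc Φ n c := by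
  have key : ∀ (j : ℕ) (u v : List ℤ), u.length = j → u.length + v.length = n →
      Φ (u.map lx ++ ly c :: v.map lx) = 0 := by
    intro j
    induction j using Nat.strong_induction_on with
    | _ j ih =>
      intro u v hu hn
      by_cases e : u = []
      · subst e; exact hz v (by simpa using hn)
      have F : FK c fun w => w.length = j → Φ (w.map lx ++ ly c :: v.map lx) = 0 := by
        refine ⟨fun u v' a b hab => ?_, fun u v' a b hab => ?_, fun u a ha hl => ?_,
          fun u hl => ?_⟩
        · have := h.comm (u.map lx) (v'.map lx ++ ly c :: v.map lx) a b hab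
          simp [this]
        · exact t3 (A := u.length + (v'.length + 3)) (j := j)
            (ser h0 h1 h (u.map lx) (v'.map lx ++ ly c :: v.map lx) hab) rfl rfl
            (by simp) (by simp) (by simp)
        · have := h.commY (u.map lx) (v.map lx) a c ha
          have := ih u.length (by simp at hl; omega) u (a :: v) rfl (by simp at hl ⊢; omega)
          simp_all
        · have t1 := ih (u ++ [c]).length (by simp at hl ⊢; omega) (u ++ [c]) (c :: v) rfl
            (by simp at hl ⊢; omega)
          have t2 := ih u.length (by simp at hl; omega) u (c :: c :: v) rfl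
            (by simp at hl ⊢; omega)
          simpa using (cut h0 h1 h (u.map lx) (v.map lx) c).2.2 (by simpa using t1)
            (by simpa using t2)
      refine F.front (fun w => ?_) (fun a w g hl => ?_) hc u e hu
      · exact t3 (A := w.length + 2) (j := j) (two h0 h1 (h.zero (w.map lx ++ ly c :: v.map lx)))
          rfl rfl (by simp) (by simp) (by simp)
      · exact (h.front (w.map lx ++ ly c :: v.map lx) a false).trans (g hl)
  exact fun u v hn => key _ u v rfl hn

theorem back {n : ℕ} {c : ℤ}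
    (hz : ∀ u : List ℤ, u.length = n → Φ (u.map lx ++ [ly c]) = 0) : Zc Φ n c := by
  have key : ∀ (j : ℕ) (u v : List ℤ), v.length = j → u.length + v.length = n →
      Φ (u.map lx ++ ly c :: v.reverse.map lx) = 0 := by
    intro j
    induction j using Nat.strong_induction_on with
    | _ j ih =>
      intro u v hu hn
      by_cases e : v = []
      · subst e; exact hz u (by simpa using hn)
      have F : FK c fun w => w.length = j → Φ (u.map lx ++ ly c :: w.reverse.map lx) = 0 := by
        refine ⟨fun u' v' a b hab => ?_, fun u' v' a b hab => ?_, fun u' a ha hl => ?_,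
          fun u' hl => ?_⟩
        · have := h.comm (u.map lx ++ ly c :: v'.reverse.map lx) (u'.reverse.map lx) a b hab
          simp only [List.append_assoc, List.cons_append, List.map_reverse] at this
          simp [this]
        · obtain ⟨a1, a2, a3⟩ := ser h0 h1 h (u.map lx ++ ly c :: v'.reverse.map lx)
            (u'.reverse.map lx) hab
          exact t3 (A := u'.length + (v'.length + 3)) (j := j)
            ⟨fun x y => a3 y x, fun x y => a2 y x, fun x y => a1 y x⟩ rfl rfl
            (by simp) (by simp) (by simp)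
        · have := h.commY (u.map lx) (u'.reverse.map lx) a c ha
          have := ih u'.length (by simp at hl; omega) (u ++ [a]) u' rfl (by simp at hl ⊢; omega)
          simp_all
        · have t1 := ih (u' ++ [c]).length (by simp at hl ⊢; omega) (u ++ [c]) (u' ++ [c]) rfl
            (by simp at hl ⊢; omega)
          have t2 := ih u'.length (by simp at hl; omega) (u ++ [c, c]) u' rfl
            (by simp at hl ⊢; omega)
          simpa using (cut h0 h1 h (u.map lx) (u'.reverse.map lx) c).1 (by simpa using t2)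
            (by simpa using t1)
      refine F.back (fun a w g hl => ?_) v e hu
      have := h.back (u.map lx ++ ly c :: w.reverse.map lx) a false
      have g' := g hl
      simp only [List.reverse_cons, List.map_append, List.map_cons, List.map_nil, List.append_assoc,
        List.cons_append] at this g' ⊢
      exact this.trans g'
  intro u v hn
  simpa using key _ u v.reverse rfl (by simpa using hn)

theorem up {n : ℕ} {k : ℤ} (hz : Zc Φ n (-k - 1)) : Zc Φ n k :=
  back h0 h1 h fun u hu => (h.back (u.map lx) k true).trans (hz u [] (by simpa using hu))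

theorem dn {n : ℕ} {k : ℤ} (hk : k < 0) (hz : Zc Φ n (-k)) : Zc Φ n k :=
  front h0 h1 h hk fun v hv => (h.front (v.map lx) k true).trans (hz [] v (by simpa using hv))

theorem chain {n : ℕ} (far : ∀ c : ℤ, c + n + 2 ≤ 0 → Zc Φ n c) (c : ℤ) : Zc Φ n c := by
  have key : ∀ (m : ℕ) (c : ℤ), c < 0 → c + n + 2 ≤ m → Zc Φ n c := by
    intro m
    induction m with
    | zero => exact fun c _ g => far c (by simpa using g)
    | succ m ih =>
      exact fun c hc g => dn h0 h1 h hc (up h0 h1 h (ih _ (by omega) (by push_cast at g; omega)))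
  rcases lt_or_ge c 0 with e | e
  · exact key (n + 2) c e (by push_cast; omega)
  · exact up h0 h1 h (key (n + 2) _ (by omega) (by push_cast; omega))

end WTwo

/-- Stage II from the case of a far cut. -/
theorem stage2_of_far {T : Type} [CommRing T] [IsDomain T] {q : T} (h0 : q ≠ 0)
    (h1 : ∀ j, qi q (j + 1) ≠ 0) {Φ : Wd → T} (h : WL (Mod q) (Mod q) Φ)
    (far : ∀ (u v : List ℤ) (c : ℤ), c + u.length + v.length + 2 ≤ 0 →
      Φ (u.map lx ++ ly c :: v.map lx) = 0)
    (u v : List ℤ) (c : ℤ) : Φ (u.map lx ++ ly c :: v.map lx) = 0 :=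
  WTwo.chain h0 (by rw [← qi_two]; exact h1 1) h (n := u.length + v.length)
    (fun c g u' v' e => far u' v' c (by omega)) c u v rfl

theorem stage2 {T : Type} [CommRing T] [IsDomain T] {q : T} (h0 : q ≠ 0)
    (h1 : ∀ j, qi q (j + 1) ≠ 0)
    (hq : ∀ P : Polynomial ℤ, P.coeff 0 = 1 → Polynomial.aeval q P ≠ 0) {Φ : Wd → T}
    (h : WL (Mod q) (Mod q) Φ) (hf : (Set.range Φ).Finite)
    (hA : ∀ (u v : List ℤ) (c : ℤ), (∀ a ∈ u, a < 0) → (∀ a ∈ v, a < 0) → c < 0 →
      Φ (u.map lx ++ ly c :: v.map lx) = 0)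
    (u v : List ℤ) {c : ℤ} (_hc : c ≠ 0) : Φ (u.map lx ++ ly c :: v.map lx) = 0 :=
  stage2_of_far h0 h1 h (fun u v _ g => far hq h hf hA u v g) u v c

end Pool.Agent.Lib.MP_33bfb2_co.Th
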