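import Pool.Agent.Lib.MP_33bfb2_co.Th.LDet1
import Pool.Agent.Lib.MP_33bfb2_co.Th.W4
import Pool.Agent.Lib.MP_33bfb2_co.Th.WOne
import Pool.Agent.Lib.MP_33bfb2_co.Th.WTwo

namespace Pool.Agent.Lib.MP_33bfb2_co.Th

variable {n : ℕ}

theorem detN_EH {c : ℤ} (hc : c = 1 ∨ c = 2) {H : Set (Fin n → ℤ)}
    (hd : ∀ β ∈ posRoots n c, ∀ γ ∈ posRoots n c, β + γ ∈ H → β ∈ H) : DetN (EH c H) := by
  intro T _ _ q h0 h1 hq F hF hb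
  obtain ⟨u, v, y, hy, r⟩ := rp_EH hc hd
  rw [← wv_eq F r]
  exact stage2 h0 h1 hq (ld_mod hF) (wv_fin F)
    (ld_stage1 (fun _ _ _ h => stage1_mod h) h0 hq hF fun blk lp E => hb _ blk lp E) u v hy

end Pool.Agent.Lib.MP_33bfb2_co.Th
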