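import Pool.Agent.Lib.MP_33bfb2_co.Th.LDefs

namespace Pool.Agent.Lib.MP_33bfb2_co.Th

variable {n : ℕ}

/-- E is determined by the modular law and the base values, for parameters q that are not roots of
an integer polynomial with constant term one. -/
def DetN (E : Finset (Rt n)) : Prop :=
  ∀ (T : Type) [CommRing T] [IsDomain T] (q : T), q ≠ 0 → (∀ j, qi q (j + 1) ≠ 0) →
    (∀ P : Polynomial ℤ, P.coeff 0 = 1 → Polynomial.aeval q P ≠ 0) →
    ∀ F : Finset (Rt n) → T, TLaw q F →
      (∀ (B : Type) [Fintype B] [DecidableEq B] (blk : Fin n → B) (lp : B → Prop)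
        (E' : Finset (Rt n)), IsBase blk lp E' → F E' = 0) → F E = 0

end Pool.Agent.Lib.MP_33bfb2_co.Th
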