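import Pool.Agent.Lib.MP_33bfb2_co.Th.WDefs

namespace Pool.Agent.Lib.MP_33bfb2_co.Th

/-- The laws of words without negative edges, modulo q: middle equals bottom. -/
structure WA {T : Type} (Φ : Wd → T) : Prop where
  comm : ∀ u v a b, a + 2 ≤ b → Φ (u ++ lx a :: lx b :: v) = Φ (u ++ lx b :: lx a :: v)
  commY : ∀ u v a c, a ≠ c → Φ (u ++ lx a :: ly c :: v) = Φ (u ++ ly c :: lx a :: v)
  rot : ∀ w a s, a < 0 → Φ ((a, s) :: w) = Φ (w ++ [(a - 1, s)])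
  s1 : ∀ u v a, Φ (u ++ lx a :: lx (a + 1) :: lx a :: v) =
    Φ (u ++ lx a :: lx a :: lx (a + 1) :: v)
  s2 : ∀ u v a, Φ (u ++ lx (a + 1) :: lx a :: lx (a + 1) :: v) =
    Φ (u ++ lx a :: lx (a + 1) :: lx (a + 1) :: v)
  lN : ∀ u v c, c < 0 → Φ (u ++ lx c :: ly c :: lx c :: v) = Φ (u ++ lx c :: lx c :: ly c :: v)

end Pool.Agent.Lib.MP_33bfb2_co.Th
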