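import Pool.Agent.Lib.MP_33bfb2_co.Th.WDefs

namespace Pool.Agent.Lib.MP_33bfb2_co.Th

open Finset

/-! ## File WNak (imports WDefs): Nakayama -/

theorem nak {T ι : Type} [CommRing T] [IsDomain T] {q : T}
    (hq : ∀ P : Polynomial ℤ, P.coeff 0 = 1 → Polynomial.aeval q P ≠ 0) (g : ι → T)
    (hf : (Set.range g).Finite)
    (h : ∀ M : AddSubgroup T, (∀ i, q * g i ∈ M) → (∀ x ∈ M, q * x ∈ M) → ∀ i, g i ∈ M) (i : ι) :
    g i = 0 := by
  let _ : Algebra (Polynomial ℤ) T := (Polynomial.aeval q).toRingHom.toAlgebra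
  have hs : ∀ (P : Polynomial ℤ) (x : T), P • x = Polynomial.aeval q P * x := fun _ _ => rfl
  let N : Submodule (Polynomial ℤ) T := Submodule.span _ (Set.range g)
  let I : Ideal (Polynomial ℤ) := Ideal.span {Polynomial.X}
  have hX : (Polynomial.X : Polynomial ℤ) ∈ I := Ideal.subset_span rfl
  have e : ∀ x : T, q * x = (Polynomial.X : Polynomial ℤ) • x := fun x => by simp [hs]
  have hN : N ≤ I • N := Submodule.span_le.2 (by
    rintro _ ⟨j, rfl⟩
    exact h (I • N).toAddSubgroup (fun k => e _ ▸ Submodule.smul_mem_smul hX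
      (Submodule.subset_span ⟨k, rfl⟩)) (fun x hx => by
        rw [e]; exact (I • N).smul_mem _ hx) j)
  obtain ⟨r, h1, h2⟩ := Submodule.exists_sub_one_mem_and_smul_eq_zero_of_fg_of_le_smul I N
    (Submodule.fg_span hf) hN
  have h3 : r.coeff 0 = 1 := by
    have := Polynomial.X_dvd_iff.1 (Ideal.mem_span_singleton.1 h1)
    rwa [Polynomial.coeff_sub, Polynomial.coeff_one_zero, sub_eq_zero] at this
  exact (mul_eq_zero.1 (h2 (g i) (Submodule.subset_span ⟨i, rfl⟩))).resolve_left (hq r h3)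

end Pool.Agent.Lib.MP_33bfb2_co.Th
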