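import Pool.Agent.Lib.MP_33bfb2_co.Th.W5
import Pool.Agent.Lib.MP_33bfb2_co.Th.WNak
import Pool.Agent.Lib.MP_33bfb2_co.Th.WADef

namespace Pool.Agent.Lib.MP_33bfb2_co.Th

open Finset

variable {n : ℕ}

/-- A positive letter passes a word of negative ordinary letters and cut letters. -/
theorem ld_passX {T : Type} {R S : T → T → T → Prop} {Φ : Wd → T} (h : WL R S Φ) {a : ℤ}
    (ha : 0 < a) (w : Wd) (hw : ∀ x ∈ w, x.1 < 0) (u v : Wd) :
    Φ (u ++ lx a :: (w ++ v)) = Φ (u ++ (w ++ lx a :: v)) := by
  induction w generalizing u with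
  | nil => rfl
  | cons x w ih =>
    have hx := hw x (by simp)
    have e := ih (fun y hy => hw y (by simp [hy])) (u ++ [x])
    obtain ⟨b, _ | _⟩ := x
    · have := h.comm u (w ++ v) b a (by simp at hx; omega)
      simp only [List.append_assoc, List.cons_append, List.nil_append] at e this ⊢
      rw [← this, e]
    · have := h.commY u (w ++ v) a b (by simp at hx; omega)
      simp only [List.append_assoc, List.cons_append, List.nil_append] at e this ⊢
      rw [this, e]

/-- A positive cut letter passes a word of negative ordinary letters. -/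
theorem ld_passY {T : Type} {R S : T → T → T → Prop} {Φ : Wd → T} (h : WL R S Φ) {a : ℤ}
    (ha : 0 < a) (w : List ℤ) (hw : ∀ x ∈ w, x < 0) (u v : Wd) :
    Φ (u ++ ly a :: (w.map lx ++ v)) = Φ (u ++ (w.map lx ++ ly a :: v)) := by
  induction w generalizing u with
  | nil => rfl
  | cons b w ih =>
    have hx := hw b (by simp)
    have e := ih (fun y hy => hw y (by simp [hy])) (u ++ [lx b])
    have := h.commY u (w.map lx ++ v) b a (by omega)
    simp only [List.append_assoc, List.cons_append, List.nil_append, List.map_cons] at e this ⊢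
    rw [← this, e]

theorem ld_cnt {T : Type} [Zero T] (G : Finset (Rt n) → T) {w : Wd} (h : wv G w ≠ 0) :
    w.countP (·.2) = 1 := by
  obtain ⟨u, v, c, rfl, -⟩ := wv_shape G h
  simp [List.countP_map, Function.comp_def]

theorem ld_noY {w : Wd} (h : w.countP (·.2) = 0) : w = (w.map (·.1)).map lx := by
  rw [List.map_map]
  refine (List.map_id w).symm.trans (List.map_congr_left fun x hx => ?_)
  have := List.countP_eq_zero.1 h x hx
  obtain ⟨a, _ | _⟩ := x
  · rfl
  · simp at this

/-- Rotation of a word with negative letters. -/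
theorem ld_rot {T : Type} [Zero T] {R S : T → T → T → Prop} {G : Finset (Rt n) → T}
    (h : WL R S (wv G)) (w : Wd) (a : ℤ) (s : Bool) (ha : a < 0) (hw : ∀ x ∈ w, x.1 < 0) :
    wv G ((a, s) :: w) = wv G (w ++ [(a - 1, s)]) := by
  have e : a - 1 = -(-a) - 1 := by ring
  rw [h.front, e, ← h.back]
  cases s
  · simpa using ld_passX h (a := -a) (by omega) w hw [] []
  · by_cases c : w.countP (·.2) = 0
    · rw [ld_noY c]
      simpa using ld_passY h (a := -a) (by omega) (w.map (·.1))
        (fun x hx => by obtain ⟨y, hy, rfl⟩ := List.mem_map.1 hx; exact hw y hy) [] []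
    · have z : ∀ x : Wd, x.countP (·.2) = w.countP (·.2) + 1 → wv G x = 0 := fun x hx => by
        by_contra hne
        have := ld_cnt G hne
        omega
      rw [z _ (by simp), z _ (by simp)]

/-- The weighted values satisfy the law read from the other end. -/
theorem ld_rev {T : Type} [CommRing T] {q : T} {F : Finset (Rt n) → T} (hF : TLaw q F) :
    WL (Rev q) (Rev q) (wv fun E => q ^ (Fintype.card (Rt n) - E.card) * F E) := by
  have key : ∀ E α β β' σ, Trip E α β β' σ → Rev q
      (q ^ (Fintype.card (Rt n) - (insert β' (insert β E)).card) * F (insert β' (insert β E)))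
      (q ^ (Fintype.card (Rt n) - (insert β E).card) * F (insert β E))
      (q ^ (Fintype.card (Rt n) - E.card) * F E) := fun E α β β' σ t => by
    have c1 : (insert β E).card = E.card + 1 := card_insert_of_notMem t.hβ
    have c2 : (insert β' (insert β E)).card = E.card + 2 := by
      rw [card_insert_of_notMem (by simp [t.hβ', t.hne.symm]), c1]
    have c3 := card_le_univ (insert β' (insert β E))
    obtain ⟨k, hk⟩ : ∃ k, Fintype.card (Rt n) = E.card + 2 + k := ⟨_, (Nat.add_sub_cancel' (c2 ▸ c3)).symm⟩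
    rw [c1, c2, hk, show E.card + 2 + k - (E.card + 2) = k by omega,
      show E.card + 2 + k - (E.card + 1) = k + 1 by omega,
      show E.card + 2 + k - E.card = k + 2 by omega]
    unfold Rev
    linear_combination q ^ (k + 1) * hF E α β β' σ t
  exact wl_wv (by simp [Rev]) (by simp [Rev]) (fun E α β β' σ t _ => key E α β β' σ t)
    fun E α β β' σ t _ => key E α β β' σ t

theorem ld_mod {T : Type} [CommRing T] {q : T} {F : Finset (Rt n) → T} (hF : TLaw q F) :
    WL (Mod q) (Mod q) (wv F) :=
  wl_wv (by simp [Mod]) (by simp [Mod]) (fun E α β β' σ t _ => hF E α β β' σ t)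
    fun E α β β' σ t _ => hF E α β β' σ t

/-- Stage one: words with negative letters have value zero. -/
theorem ld_stage1
    (H : ∀ (A : Type) [AddCommGroup A] (Φ : Wd → A), WA Φ →
      (∀ (l : List ℤ) (c : ℤ), l.Pairwise (· ≤ ·) → (∀ a ∈ l, a < 0) → c < 0 →
        Φ (l.map lx ++ [ly c]) = 0) →
      ∀ (u v : List ℤ) (c : ℤ), (∀ a ∈ u, a < 0) → (∀ a ∈ v, a < 0) → c < 0 →
        Φ (u.map lx ++ ly c :: v.map lx) = 0)
    {T : Type} [CommRing T] [IsDomain T] {q : T} (h0 : q ≠ 0)
    (hq : ∀ P : Polynomial ℤ, P.coeff 0 = 1 → Polynomial.aeval q P ≠ 0)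
    {F : Finset (Rt n) → T} (hF : TLaw q F)
    (hb : ∀ (blk : Fin n → Fin n) (lp : Fin n → Prop) (E : Finset (Rt n)),
      IsBase blk lp E → F E = 0)
    (u v : List ℤ) (c : ℤ) (hu : ∀ a ∈ u, a < 0) (hv : ∀ a ∈ v, a < 0) (hc : c < 0) :
    wv F (u.map lx ++ ly c :: v.map lx) = 0 := by
  classical
  have h := ld_rev hF
  set G : Finset (Rt n) → T := fun E => q ^ (Fintype.card (Rt n) - E.card) * F E with hG
  let P : Wd → Prop := fun w => ∀ x ∈ w, x.1 < 0
  let g : Wd → T := fun w => if P w then wv G w else 0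
  have g0 : ∀ w, P w → g w = wv G w := fun w hw => if_pos hw
  have g1 : ∀ w, ¬ P w → g w = 0 := fun w hw => if_neg hw
  have pw : ∀ (u v : List ℤ) (c : ℤ), (∀ a ∈ u, a < 0) → (∀ a ∈ v, a < 0) → c < 0 →
      P (u.map lx ++ ly c :: v.map lx) := fun u v c hu hv hc x hx => by
    simp only [List.mem_append, List.mem_map, List.mem_cons] at hx
    rcases hx with ⟨a, ha, rfl⟩ | rfl | ⟨a, ha, rfl⟩
    exacts [hu a ha, hc, hv a ha]
  have e2 : ∀ {x y : Wd}, (P x ↔ P y) → (P x → wv G x = wv G y) → g x = g y :=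
    fun {x y} e e' => by
      by_cases hx : P x
      · rw [g0 x hx, g0 y (e.1 hx), e' hx]
      · rw [g1 x hx, g1 y (mt e.2 hx)]
  have main : g (u.map lx ++ ly c :: v.map lx) = 0 := by
    refine nak hq g (((wv_fin G).insert 0).subset ?_) (fun M m1 _ w => ?_) _
    · rintro _ ⟨w, rfl⟩
      by_cases hw : P w
      · exact Or.inr ⟨w, (g0 w hw).symm⟩
      · exact Or.inl (g1 w hw)
    by_cases hw : P w
    swap
    · rw [g1 w hw]; exact M.zero_mem
    have e3 : ∀ {x y z : Wd}, (P x ↔ P y) → (P z ↔ P y) → Rev q (wv G x) (wv G y) (wv G z) →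
        (g y : T ⧸ M) = (g z : T ⧸ M) := fun {x y z} e e' e'' => by
      by_cases hy : P y
      · rw [QuotientAddGroup.eq]
        have := M.sub_mem (m1 y) (m1 x)
        rw [g0 x (e.2 hy), g0 y hy] at this
        rw [g0 z (e'.2 hy), g0 y hy]
        unfold Rev at e''
        rwa [show -wv G y + wv G z = q * wv G y - q * wv G x by linear_combination -e'']
      · rw [g1 y hy, g1 z (mt e'.1 hy)]
    have pp : ∀ {x y : Wd}, x.Perm y → (P x ↔ P y) := fun e =>
      ⟨fun h a ha => h a (e.mem_iff.2 ha), fun h a ha => h a (e.mem_iff.1 ha)⟩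
    have sw : ∀ (u v : Wd) (a b : ℤ × Bool), (u ++ a :: b :: v).Perm (u ++ b :: a :: v) :=
      fun u v a b => (List.Perm.swap b a v).append_left u
    have sw' : ∀ (u v : Wd) (a b c : ℤ × Bool),
        (u ++ a :: b :: c :: v).Perm (u ++ a :: c :: b :: v) :=
      fun u v a b c => ((List.Perm.swap c b v).cons a).append_left u
    have L : WA fun w => (g w : T ⧸ M) :=
      ⟨fun u v a b e => congrArg _ (e2 (pp (sw ..)) fun _ => h.comm u v a b e),
        fun u v a b e => congrArg _ (e2 (pp (sw ..)) fun _ => h.commY u v a b e),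
        fun w a s e => congrArg _ (e2 (by
          simp only [P, List.mem_cons, List.mem_append, List.not_mem_nil, or_false, or_imp,
            forall_and, forall_eq]
          exact ⟨fun h => ⟨h.2, by omega⟩, fun h => ⟨e, h.1⟩⟩)
          fun p => ld_rot h w a s e fun x hx => p x (by simp [hx])),
        fun u v a => e3 (pp (sw ..)) (pp (sw' ..)) (h.s1 u v a),
        fun u v a => e3 (pp (sw' ..)) (pp (sw ..)) (h.s2 u v a),
        fun u v c e => e3 (pp (sw ..)) (pp (sw' ..)) (h.lN u v c e)⟩
    by_cases z : wv G w = 0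
    · rw [g0 w hw, z]; exact M.zero_mem
    obtain ⟨a, b, d, rfl, -⟩ := wv_shape G z
    rw [← QuotientAddGroup.eq_zero_iff]
    refine H _ _ L (fun l c hl hn hc => ?_) a b d (fun s hs => hw (lx s) (by simp [hs]))
      (fun s hs => hw (lx s) (by simp [hs])) (hw (ly d) (by simp))
    have p := pw l [] c hn (by simp) hc
    simp only [List.map_nil] at p
    have : wv G (l.map lx ++ [ly c]) = 0 := by
      by_cases r : ∃ E : Finset (Rt n), Rp (l.map lx ++ [ly c]) E
      · obtain ⟨E, r⟩ := r
        obtain ⟨blk, lp, hB⟩ := rp_base hl hn hc r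
        rw [wv_eq G r, hG]
        simp [hb blk lp E hB]
      · exact dif_neg r
    simp only [g0 _ p, this]
    rfl
  rw [g0 _ (pw u v c hu hv hc)] at main
  by_cases r : ∃ E : Finset (Rt n), Rp (u.map lx ++ ly c :: v.map lx) E
  · obtain ⟨E, r⟩ := r
    rw [wv_eq G r, hG] at main
    rw [wv_eq F r]
    exact (mul_eq_zero.1 main).resolve_left (pow_ne_zero _ h0)
  · exact dif_neg r

end Pool.Agent.Lib.MP_33bfb2_co.Th
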