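import Pool.Agent.Lib.MP_33bfb2_co.Th.LDefs

namespace Pool.Agent.Lib.MP_33bfb2_co.Th

open Finset MvPolynomial

variable {n : ℕ}

/-! ## File LS (imports LDefs) -/

theorem ls_tp_sum {α : Type} (S : Finset α) (f : α → ℤ) :
    tp (∑ x ∈ S, f x) = ∏ x ∈ S, tp (f x) := by
  classical
  induction S using Finset.induction_on with
  | empty => simp [tp_zero]
  | insert x S hx ih => rw [sum_insert hx, prod_insert hx, tp_add, ih]

theorem ls_prod_unit {M : Type} [CommMonoid M] (g : ℤˣ → M) (v : ℤˣ) :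
    ∏ u, g u = g v * g (-v) := by
  rw [show (univ : Finset ℤˣ) = {1, -1} from rfl, prod_pair (by decide)]
  rcases Int.units_eq_one_or v with rfl | rfl
  · rfl
  · rw [neg_neg, mul_comm]

theorem ls_prod_pair {M : Type} [CommMonoid M] (G : Fin n → Fin n → M) (h : ∀ i, G i i = 1) :
    ∏ i, ∏ j, G i j = ∏ i, ∏ j, if i < j then G i j * G j i else 1 := by
  have e : ∀ i j, G i j = (if i < j then G i j else 1) * if j < i then G i j else 1 := by
    intro i j
    rcases lt_trichotomy i j with a | rfl | a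
    · rw [if_pos a, if_neg a.not_gt, mul_one]
    · simp [h]
    · rw [if_neg a.not_gt, if_pos a, one_mul]
  rw [prod_congr rfl fun i _ => prod_congr rfl fun j _ => e i j]
  simp only [prod_mul_distrib]
  rw [prod_comm (f := fun i j => if j < i then G i j else 1), ← prod_mul_distrib]
  refine prod_congr rfl fun i _ => ?_
  rw [← prod_mul_distrib]
  refine prod_congr rfl fun j _ => ?_
  split_ifs
  · rfl
  · exact mul_one 1

theorem ls_pos {i j : Fin n} (h : i < j) (u v : ℤˣ) :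
    (pos ((i, u) : V n) < pos ((j, v) : V n) ↔ u = 1) ∧
      (pos ((j, v) : V n) < pos ((i, u) : V n) ↔ u = -1) := by
  have := j.2
  have : (i : ℕ) < j := h
  rcases Int.units_eq_one_or u with rfl | rfl <;> rcases Int.units_eq_one_or v with rfl | rfl <;>
    simp only [pos_p, pos_m] <;> constructor <;> simp <;> omega

open Classical in
theorem ls_wt {s : ℕ} (a : ℕ) {E : Finset (Rt n)} (hE : ∀ γ ∈ E, can γ) (ε : Fin n → ℤˣ)
    (κ : Fin n → Fin s) :
    (∏ γ : Rt n, if γ ∈ E then chi (tp 2) (vl (kh fun i => sc (κ i, ε i)) γ)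
      else if isLoop γ ∧ ε γ.1 = 1 ∧ (κ γ.1 : ℕ) < a then tp 2 else 1)
    = tp (∑ i, ∑ j, if (i, (j, -(ε i * ε j))) ∈ E ∧ ε i = 1 then 2 else 0) *
      cwt (fun i => pos ((i, ε i) : V n)) (fun i j => tadj E (i, ε i) (j, ε j))
        (fun i => ε i = 1 ∧ (i, (i, -1)) ∉ E) a κ := by
  have e0 : ∀ (x : K) (f : Fin n → K), x * ∏ i, f i = x * ∏ i, ∏ j, if j = i then f i else 1 :=
    fun x f => by simp
  rw [cwt, e0, ls_prod_pair _ fun i => if_neg fun t => lt_irrefl _ t.1, ls_tp_sum,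
    ← prod_mul_distrib, ← prod_mul_distrib, Fintype.prod_prod_type]
  refine prod_congr rfl fun i _ => ?_
  rw [ls_tp_sum, ← prod_mul_distrib, ← prod_mul_distrib, Fintype.prod_prod_type]
  refine prod_congr rfl fun j _ => ?_
  rw [ls_prod_unit _ (ε i * ε j), mul_left_comm]
  congr 1
  · by_cases h : i < j
    · have t1 : tadj E (i, ε i) (j, ε j) ↔ (i, (j, ε i * ε j)) ∈ E := by
        rw [tadj_iff hE, rt, if_pos h]
        exact and_iff_right h.ne
      have t2 : tadj E (j, ε j) (i, ε i) ↔ (i, (j, ε i * ε j)) ∈ E :=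
        ⟨fun t => t1.1 t.symm, fun t => (t1.2 t).symm⟩
      rw [if_pos h]
      simp only [t1, t2, (ls_pos h _ _).1, (ls_pos h _ _).2]
      by_cases m : (i, (j, ε i * ε j)) ∈ E
      · rw [if_pos m]
        simp only [m, and_true]
        rcases Int.units_eq_one_or (ε i) with e | e <;>
          rcases Int.units_eq_one_or (ε j) with e' | e' <;>
          simp [chi, vl, kh, sc, e, e'] <;> split_ifs <;> first | rfl | omega
      · rw [if_neg m, if_neg fun t => h.ne' (Prod.ext_iff.1 t.1).1]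
        simp [m]
    · have hl : ¬ isLoop ((i, (j, ε i * ε j)) : Rt n) := fun t => by
        obtain ⟨t1, t2⟩ := Prod.ext_iff.1 t
        dsimp only at t1 t2
        rw [t1, Int.units_mul_self] at t2
        exact absurd t2 (by decide)
      rw [if_neg h, if_neg fun t => (hE _ t).elim h hl, if_neg fun t => hl t.1]
  · by_cases m : (i, (j, -(ε i * ε j))) ∈ E
    · have t : j = i → ¬ ((ε i = 1 ∧ (i, (i, -1)) ∉ E) ∧ (κ i : ℕ) < a) := by
        rintro rfl h2
        rw [Int.units_mul_self] at m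
        exact absurd m h2.1.2
      rw [if_pos m, ite_eq_right_iff.2 fun h1 => if_neg (t h1), mul_one]
      simp only [m, true_and]
      rcases Int.units_eq_one_or (ε i) with e | e <;>
        rcases Int.units_eq_one_or (ε j) with e' | e' <;>
        simp [chi, vl, kh, sc, e, e', tp_zero] <;> split_ifs <;> first | rfl | omega
    · rw [if_neg m, if_neg (c := _ ∈ E ∧ _) fun t => m t.1, tp_zero, one_mul]
      by_cases h : j = i
      · subst h
        rw [Int.units_mul_self] at m ⊢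
        simp [isLoop, m]
      · rw [if_neg h, if_neg fun t => h (Prod.ext_iff.1 t.1).1]

theorem FA_split (s a : ℕ) {E : Finset (Rt n)} (hE : ∀ γ ∈ E, can γ) :
    ∃ asc : (Fin n → ℤˣ) → ℤ, FA s a E = ∑ ε : Fin n → ℤˣ, tp (asc ε) •
      Phi (fun i => pos ((i, ε i) : V n)) (fun i j => tadj E (i, ε i) (j, ε j))
        (fun i => ε i = 1 ∧ (i, (i, -1)) ∉ E) s a := by
  classical
  refine ⟨fun ε => ∑ i, ∑ j, if (i, (j, -(ε i * ε j))) ∈ E ∧ ε i = 1 then 2 else 0, ?_⟩
  rw [FA, ← (Equiv.arrowProdEquivProdArrow _ _ _).symm.sum_comp, Fintype.sum_prod_type, sum_comm]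
  refine sum_congr rfl fun ε _ => ?_
  rw [Phi, smul_sum]
  refine sum_congr (by ext; simp) fun κ _ => ?_
  rw [smul_eq_C_mul, ← mul_assoc, ← map_mul]
  congr 2
  convert ls_wt a hE ε κ <;> rfl

/-- The vector of a signed vertex. -/
def ls_ev (v : V n) : Fin n → ℤ := Pi.single v.1 (v.2 : ℤ)

theorem ls_root (c : ℤ) (H : Set (Fin n → ℤ)) {x z : V n} (h : pos x < pos z) (hne : x.1 ≠ z.1) :
    ls_ev x - ls_ev z ∈ posRoots n c ∧ (tadj (EH c H) x z ↔ ls_ev x - ls_ev z ∈ H) := by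
  have mE : ∀ γ, γ ∈ EH c H ↔ can γ ∧ rv c γ ∈ H := fun γ => by simp [EH]
  rw [tadj_iff fun γ t => ((mE γ).1 t).1, and_iff_right hne, mE]
  obtain ⟨i, u⟩ := x
  obtain ⟨j, v⟩ := z
  rcases lt_or_gt_of_ne hne with a | a
  · obtain rfl : u = 1 := (ls_pos a u v).1.1 h
    rw [rt, if_pos a, can, and_iff_right (Or.inl a)]
    rcases Int.units_eq_one_or v with rfl | rfl
    · exact ⟨Or.inl ⟨i, j, a, Or.inl rfl⟩, by rw [one_mul, rv_p c a]; rfl⟩
    · have e : ls_ev ((i, 1) : V n) - ls_ev ((j, -1) : V n) = Pi.single i 1 + Pi.single j 1 := by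
        simp [ls_ev, Pi.single_neg]
      rw [e, one_mul, rv_m c a]
      exact ⟨Or.inl ⟨i, j, a, Or.inr rfl⟩, Iff.rfl⟩
  · obtain rfl : v = -1 := (ls_pos a v u).2.1 h
    rw [rt, if_neg a.not_gt, can, and_iff_right (Or.inl a)]
    rcases Int.units_eq_one_or u with rfl | rfl
    · have e : ls_ev ((i, 1) : V n) - ls_ev ((j, -1) : V n) = Pi.single j 1 + Pi.single i 1 := by
        simp [ls_ev, Pi.single_neg, add_comm]
      rw [e, one_mul, rv_m c a]
      exact ⟨Or.inl ⟨j, i, a, Or.inr rfl⟩, Iff.rfl⟩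
    · have e : ls_ev ((i, -1) : V n) - ls_ev ((j, -1) : V n) = Pi.single j 1 - Pi.single i 1 := by
        simp [ls_ev, Pi.single_neg, sub_eq_add_neg, add_comm]
      rw [e, Int.units_mul_self, rv_p c a]
      exact ⟨Or.inl ⟨j, i, a, Or.inl rfl⟩, Iff.rfl⟩

theorem EH_interval {c : ℤ} (hc : c = 1 ∨ c = 2) {H : Set (Fin n → ℤ)}
    (hd : ∀ β ∈ posRoots n c, ∀ γ ∈ posRoots n c, β + γ ∈ H → β ∈ H) :
    (∀ x y z : V n, pos x < pos y → pos y < pos z → x.1 ≠ y.1 → y.1 ≠ z.1 →
      tadj (EH c H) x z → tadj (EH c H) x y ∧ tadj (EH c H) y z) ∧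
    ∀ i k : Fin n, i ≤ k → (i, (i, -1)) ∈ EH c H → (k, (k, -1)) ∈ EH c H := by
  constructor
  · intro x y z h1 h2 h3 h4 t
    obtain ⟨a1, a2⟩ := ls_root c H h1 h3
    obtain ⟨b1, b2⟩ := ls_root c H h2 h4
    have t' := (ls_root c H (h1.trans h2) t.1).2.1 t
    exact ⟨a2.2 (hd _ a1 _ b1 (by rwa [sub_add_sub_cancel])),
      b2.2 (hd _ b1 _ a1 (by rwa [sub_add_sub_cancel']))⟩
  · intro i k h1 h2
    rcases h1.eq_or_lt with rfl | h1
    · exact h2
    have ml : ∀ i : Fin n, (i, (i, -1)) ∈ EH c H ↔ Pi.single i c ∈ H := fun i => by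
      simp [EH, rv_loop, can, isLoop]
    rw [ml] at h2 ⊢
    have pm : Pi.single i 1 - Pi.single k 1 ∈ posRoots n c := Or.inl ⟨i, k, h1, Or.inl rfl⟩
    have pp : Pi.single i 1 + Pi.single k 1 ∈ posRoots n c := Or.inl ⟨i, k, h1, Or.inr rfl⟩
    have pl : Pi.single k c ∈ posRoots n c := Or.inr ⟨k, rfl⟩
    rcases hc with rfl | rfl
    · exact hd _ pl _ pm (by rwa [add_sub_cancel])
    · have e : ∀ l : Fin n, (Pi.single l 2 : Fin n → ℤ) = Pi.single l 1 + Pi.single l 1 :=
        fun l => by rw [← Pi.single_add]; rfl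
      refine hd _ pl _ pm ?_
      have := hd _ pp _ pm (by rw [e] at h2; convert h2 using 1; abel)
      rw [e]
      convert this using 1
      abel

end Pool.Agent.Lib.MP_33bfb2_co.Th
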