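import Pool.Agent.Lib.MP_33bfb2_co.Th.LDefs
import Pool.Agent.Lib.MP_33bfb2_co.Th.A1

namespace Pool.Agent.Lib.MP_33bfb2_co.Th

open Finset MvPolynomial

variable {n : ℕ}

namespace LR

theorem coeff_gen {ι R : Type} [CommRing R] (S : Finset ι) (t : ι → R) (j : ℕ) :
    (∏ c ∈ S, (1 + Polynomial.C (t c) * Polynomial.X)).coeff j = es S t j := by
  classical
  induction S using Finset.induction_on generalizing j with
  | empty =>
    rcases j with _ | j
    · simp [es_zero]
    · rw [es_big _ (by simp), prod_empty, Polynomial.coeff_one, if_neg j.succ_ne_zero]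
  | insert c S hc ih =>
    rw [prod_insert hc, add_mul, one_mul, Polynomial.coeff_add, mul_assoc, Polynomial.coeff_C_mul]
    rcases j with _ | j
    · simp [ih, es_zero]
    · rw [Polynomial.coeff_X_mul, ih, ih, es_insert t hc]

theorem es_add {R : Type} [CommRing R] (t : Fin (n + n) → R) (k : ℕ) :
    es univ t k = ∑ i ∈ range (k + 1), es univ (fun c => t (Fin.castAdd n c)) i *
      es univ (fun c => t (Fin.natAdd n c)) (k - i) := by
  rw [← coeff_gen, Fin.prod_univ_add, Polynomial.coeff_mul,
    Nat.sum_antidiagonal_eq_sum_range_succ_mk]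
  simp only [coeff_gen]

theorem es_scale {ι R : Type} [CommRing R] (S : Finset ι) (q : R) (t : ι → R) (j : ℕ) :
    es S (fun c => q * t c) j = q ^ j * es S t j := by
  rw [es, es, mul_sum]
  refine sum_congr rfl fun s hs => ?_
  rw [prod_mul_distrib, prod_const, (mem_powersetCard.1 hs).2]

/-- The two families of elementary symmetric polynomials. -/
noncomputable def ab (n : ℕ) : Fin n ⊕ Fin n → MvPolynomial (Fin (n + n)) K :=
  Sum.elim (fun k => es univ (fun c => X (Fin.castAdd n c)) (k + 1))
    fun k => es univ (fun c => X (Fin.natAdd n c)) (k + 1)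

theorem esymm_indep (R : Type) [CommRing R] :
    AlgebraicIndependent R fun k : Fin n => esymm (Fin n) R (k + 1) := by
  intro f g e
  apply esymmAlgHom_injective (σ := Fin n) R (n := n) (by simp)
  apply Subtype.ext
  rw [esymmAlgHom_apply, esymmAlgHom_apply]
  exact e

theorem ab_indep : AlgebraicIndependent K (ab n) := by
  have h := (esymm_indep (n := n) K).sumElim_comp (esymm_indep (n := n) (MvPolynomial (Fin n) K))
  let e := (sumAlgEquiv K (Fin n) (Fin n)).symm.trans (renameEquiv K finSumFinEquiv)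
  have := h.map' (f := e.toAlgHom) e.injective
  convert this using 1
  funext x
  rcases x with k | k
  · have := map_es e.toAlgHom.toRingHom univ (X : Fin n → MvPolynomial (Fin n) (MvPolynomial (Fin n) K))
      (k + 1)
    simp only [AlgHom.toRingHom_eq_coe, RingHom.coe_coe, AlgEquiv.coe_toAlgHom, e,
      AlgEquiv.trans_apply, sumAlgEquiv_symm_X, renameEquiv_apply,
      rename_X, finSumFinEquiv_apply_left] at this
    exact this.symm
  · have := map_es (e.toAlgHom.toRingHom.comp C) univ (X : Fin n → MvPolynomial (Fin n) K) (k + 1)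
    simp only [RingHom.comp_apply, AlgHom.toRingHom_eq_coe, RingHom.coe_coe, AlgEquiv.coe_toAlgHom,
      e, AlgEquiv.trans_apply, sumAlgEquiv_symm_C_X,
      renameEquiv_apply, rename_X, finSumFinEquiv_apply_right] at this
    exact this.symm

/-- The symbols of the first alphabet. -/
noncomputable def sa (n : ℕ) : ℕ → MvPolynomial (Fin n ⊕ Fin n) K := vr fun k => X (.inl k)

/-- The symbols of the second alphabet. -/
noncomputable def sb (n : ℕ) : ℕ → MvPolynomial (Fin n ⊕ Fin n) K := vr fun k => X (.inr k)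

/-- The two convolutions. -/
noncomputable def cv (n : ℕ) : Fin n ⊕ Fin n → MvPolynomial (Fin n ⊕ Fin n) K :=
  Sum.elim (fun k => ∑ i ∈ range (k + 1 + 1), sa n i * sb n (k + 1 - i))
    fun k => ∑ i ∈ range (k + 1 + 1), C (tp 2) ^ i * sa n i * sb n (k + 1 - i)

theorem sa_zero : sa n 0 = 1 := by simp [sa, vr]
theorem sb_zero : sb n 0 = 1 := by simp [sb, vr]
theorem sa_succ (k : Fin n) : sa n (k + 1) = X (.inl k) := by simp [sa, vr]
theorem sb_succ (k : Fin n) : sb n (k + 1) = X (.inr k) := by simp [sb, vr]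

theorem tp_pow (a : ℤ) (j : ℕ) : tp a ^ j = tp (a * j) := by
  induction j with
  | zero => simp [tp_zero]
  | succ j ih => rw [pow_succ, ih, ← tp_add]; congr 1; push_cast; ring

theorem cv_top : Algebra.adjoin K (Set.range (cv n)) = ⊤ := by
  set S := Algebra.adjoin K (Set.range (cv n))
  have key : ∀ k, k ≤ n → sa n k ∈ S ∧ sb n k ∈ S := by
    intro k
    induction k using Nat.strong_induction_on with
    | _ k ih =>
    rcases k with _ | k
    · intro _
      rw [sa_zero, sb_zero]
      exact ⟨one_mem _, one_mem _⟩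
    intro hk
    have h1 : cv n (.inl ⟨k, hk⟩) ∈ S := Algebra.subset_adjoin ⟨_, rfl⟩
    have h2 : cv n (.inr ⟨k, hk⟩) ∈ S := Algebra.subset_adjoin ⟨_, rfl⟩
    simp only [cv, Sum.elim_inl, Sum.elim_inr] at h1 h2
    rw [sum_range_succ, sum_range_succ'] at h1 h2
    simp only [sa_zero, sb_zero, Nat.sub_self, Nat.sub_zero, one_mul, mul_one, pow_zero] at h1 h2
    have m : ∀ i ∈ range k, sa n (i + 1) ∈ S ∧ sb n (k + 1 - (i + 1)) ∈ S := fun i hi => by
      have := mem_range.1 hi
      exact ⟨(ih _ (by omega) (by omega)).1, (ih _ (by omega) (by omega)).2⟩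
    have q : (C (tp 2) : MvPolynomial (Fin n ⊕ Fin n) K) ∈ S := S.algebraMap_mem _
    have m1 := S.sum_mem fun i hi => S.mul_mem (m i hi).1 (m i hi).2
    have m2 := S.sum_mem fun i hi =>
      S.mul_mem (S.mul_mem (S.pow_mem q (i + 1)) (m i hi).1) (m i hi).2
    have ne : (1 - tp 2 ^ (k + 1) : K) ≠ 0 := by
      rw [tp_pow]
      exact one_sub_tp_ne (by positivity)
    have a : sa n (k + 1) ∈ S := by
      have := S.smul_mem (S.sub_mem (S.sub_mem h1 m1) (S.sub_mem h2 m2)) (1 - tp 2 ^ (k + 1))⁻¹
      convert this using 1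
      rw [eq_inv_smul_iff₀ ne, smul_eq_C_mul, map_sub, map_one, map_pow]
      ring
    refine ⟨a, ?_⟩
    convert S.sub_mem (S.sub_mem h1 m1) a using 1
    ring
  rw [eq_top_iff, ← adjoin_range_X, Algebra.adjoin_le_iff]
  rintro _ ⟨k | k, rfl⟩
  · exact sa_succ k ▸ (key _ k.2).1
  · exact sb_succ k ▸ (key _ k.2).2

theorem cv_indep : AlgebraicIndependent K (cv n) := by
  have : Algebra.IsAlgebraic (Algebra.adjoin K (Set.range (cv n)))
      (MvPolynomial (Fin n ⊕ Fin n) K) :=
    ⟨fun x => isAlgebraic_algebraMap (⟨x, cv_top ▸ Algebra.mem_top⟩ :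
      Algebra.adjoin K (Set.range (cv n)))⟩
  exact (Algebra.IsAlgebraic.isTranscendenceBasis_of_le_trdeg_of_finite K (cv n)
    (by rw [MvPolynomial.trdeg_of_isDomain]; simp)).1

theorem eq_es (s : ℕ) (Q : ℕ → Prop) [DecidablePred Q] (k : ℕ) :
    eq s Q k = es univ (fun c : Fin s => if Q c then C (tp 2) * X c else X c) k := by
  have := map_es (aeval (R := K) fun c : Fin s =>
    if Q c then C (tp 2) * X c else (X c : MvPolynomial (Fin s) K)).toRingHom univ X k
  simp only [AlgHom.toRingHom_eq_coe, RingHom.coe_coe, aeval_X] at this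
  convert this
  unfold eq
  congr!

theorem rho_eq : rho n = (aeval (ab n)).comp (aeval (cv n)) := by
  have ha : ∀ j ≤ n, aeval (ab n) (sa n j) = es univ (fun c => X (Fin.castAdd n c)) j :=
    fun j hj => map_vr (aeval (R := K) (ab n)).toRingHom (fun k => X (.inl k))
      (es univ fun c => X (Fin.castAdd n c)) (es_zero _ _) (fun k => by simp [ab]) hj
  have hb : ∀ j ≤ n, aeval (ab n) (sb n j) = es univ (fun c => X (Fin.natAdd n c)) j :=
    fun j hj => map_vr (aeval (R := K) (ab n)).toRingHom (fun k => X (.inr k))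
      (es univ fun c => X (Fin.natAdd n c)) (es_zero _ _) (fun k => by simp [ab]) hj
  refine algHom_ext fun x => ?_
  rcases x with k | k
  · simp only [rho, aeval_X, Sum.elim_inl, AlgHom.comp_apply, cv, map_sum, map_mul]
    refine (es_add X _).trans (sum_congr rfl fun i hi => ?_)
    have := mem_range.1 hi
    have := k.2
    rw [ha i (by omega), hb _ (by omega)]
  · simp only [rho, aeval_X, Sum.elim_inr, AlgHom.comp_apply, cv, map_sum, map_mul, map_pow, aeval_C]
    rw [eq_es, es_add]
    refine sum_congr rfl fun i hi => ?_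
    have := mem_range.1 hi
    have := k.2
    rw [ha i (by omega), hb _ (by omega), algebraMap_eq, ← es_scale]
    simp

end LR

theorem rho_inj (n : ℕ) : Function.Injective (rho n) := by
  rw [LR.rho_eq, AlgHom.coe_comp]
  exact (algebraicIndependent_iff_injective_aeval.1 LR.ab_indep).comp
    (algebraicIndependent_iff_injective_aeval.1 LR.cv_indep)

end Pool.Agent.Lib.MP_33bfb2_co.Th
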