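import Pool.Agent.Lib.MP_33bfb2_co.Th.LA
import Pool.Agent.Lib.MP_33bfb2_co.Th.LB
import Pool.Agent.Lib.MP_33bfb2_co.Th.LR
import Pool.Agent.Lib.MP_33bfb2_co.Th.A1

namespace Pool.Agent.Lib.MP_33bfb2_co.Th

open Finset MvPolynomial

variable {n : ℕ}

/-! ## File LT (imports LA, LB, LR, A1) -/

namespace LTr

/-- Power series in the square of the variable. -/
noncomputable def sq2 (R : Type) [CommRing R] : PowerSeries R →+* HahnSeries ℤ R :=
  (HahnSeries.embDomainRingHom (R := R) (Γ := ℕ) (Γ' := ℤ)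
    ⟨⟨fun n => 2 * (n : ℤ), by simp⟩, fun a b => by push_cast; ring⟩
    (fun a b h => by simpa using h) (fun a b => by simp)).comp
    (HahnSeries.toPowerSeries (R := R)).symm.toRingHom

theorem coeff_sq {R : Type} [CommRing R] (f : PowerSeries R) (m : ℕ) :
    (sq2 R f).coeff (2 * (m : ℤ)) = PowerSeries.coeff m f :=
  HahnSeries.embDomain_coeff (R := R) (Γ := ℕ) (Γ' := ℤ)
    (f := ⟨⟨fun n => 2 * (n : ℤ), fun a b h => by simpa using h⟩, by intro a b; simp⟩)
    (x := HahnSeries.toPowerSeries.symm f) (a := m)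

theorem coeff_sq_ne {R : Type} [CommRing R] (f : PowerSeries R) (a : ℤ)
    (h : ∀ m : ℕ, a ≠ 2 * (m : ℤ)) : (sq2 R f).coeff a = 0 :=
  HahnSeries.embDomain_of_notMem_range (R := R) (Γ := ℕ) (Γ' := ℤ)
    (f := ⟨⟨fun n => 2 * (n : ℤ), fun a b h => by simpa using h⟩, by intro a b; simp⟩)
    (x := HahnSeries.toPowerSeries.symm f) (b := a) (by rintro ⟨m, hm⟩; exact h m hm.symm)

theorem sq_monomial {R : Type} [CommRing R] (k : ℕ) (x : R) :
    sq2 R (PowerSeries.monomial k x) = HahnSeries.single (2 * (k : ℤ)) x := by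
  ext a
  by_cases h : ∃ m : ℕ, a = 2 * (m : ℤ)
  · obtain ⟨m, rfl⟩ := h
    rw [coeff_sq, PowerSeries.coeff_monomial, HahnSeries.coeff_single]
    by_cases e : m = k
    · simp [e]
    · rw [if_neg e, if_neg (by omega)]
  · push Not at h
    rw [coeff_sq_ne _ _ h, HahnSeries.coeff_single_of_ne (h k)]

theorem sq_X {R : Type} [CommRing R] : sq2 R PowerSeries.X = HahnSeries.single 2 1 :=
  sq_monomial 1 1

theorem sq_C {R : Type} [CommRing R] (x : R) : sq2 R (PowerSeries.C x) = HahnSeries.C x := by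
  simpa using sq_monomial 0 x

/-- Extension of the coefficients. -/
noncomputable def ex (R : Type) [CommRing R] [Algebra ℚ R] : K →+* HahnSeries ℤ R where
  toFun f := f.map (algebraMap ℚ R)
  map_zero' := by ext; simp
  map_add' f g := by ext; simp
  map_one' := HahnSeries.map_one (algebraMap ℚ R).toMonoidWithZeroHom
  map_mul' f g := HahnSeries.map_mul (algebraMap ℚ R).toNonUnitalRingHom

theorem coeff_ex {R : Type} [CommRing R] [Algebra ℚ R] (f : K) (a : ℤ) :
    (ex R f).coeff a = algebraMap ℚ R (f.coeff a) := rfl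

theorem ex_tp {R : Type} [CommRing R] [Algebra ℚ R] (a : ℤ) :
    ex R (tp a) = HahnSeries.single a 1 := by
  ext b
  rw [coeff_ex, tp_coeff, HahnSeries.coeff_single]
  split_ifs <;> simp

/-- The values of the symbols. -/
noncomputable def val (n N : ℕ) : Fin n ⊕ Fin n → SL N :=
  Sum.elim (fun k => hx N (k + 1)) fun k => hy N (k + 1)

/-- Evaluation of the symbols at complete symmetric polynomials. -/
noncomputable def ev (n N : ℕ) : MvPolynomial (Fin n ⊕ Fin n) K →+* HahnSeries ℤ (SL N) :=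
  eval₂Hom (ex (SL N)) fun i => HahnSeries.C (val n N i)

/-- The first family of symbols. -/
noncomputable def xs (n : ℕ) : ℕ → MvPolynomial (Fin n ⊕ Fin n) K := vr fun k => X (Sum.inl k)

/-- The second family of symbols. -/
noncomputable def ys (n : ℕ) : ℕ → MvPolynomial (Fin n ⊕ Fin n) K := vr fun k => X (Sum.inr k)

theorem rho_xs {j : ℕ} (hj : j ≤ n) : rho n (xs n j) = esymm (Fin (n + n)) K j :=
  map_vr (rho n).toRingHom _ (esymm (Fin (n + n)) K) (esymm_zero _ _) (fun k => by simp [rho]) hj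

theorem rho_ys {j : ℕ} (hj : j ≤ n) : rho n (ys n j) = eq (n + n) (· < n) j :=
  map_vr (rho n).toRingHom _ (eq (n + n) (· < n)) (by simp [eq]) (fun k => by simp [rho]) hj

theorem ev_xs (N : ℕ) {j : ℕ} (hj : j ≤ n) : ev n N (xs n j) = HahnSeries.C (hx N j) :=
  map_vr (ev n N) _ (fun j => HahnSeries.C (hx N j)) (by simp [hx_zero])
    (fun k => by simp [ev, val]) hj

theorem ev_ys (N : ℕ) {j : ℕ} (hj : j ≤ n) : ev n N (ys n j) = HahnSeries.C (hy N j) :=
  map_vr (ev n N) _ (fun j => HahnSeries.C (hy N j)) (by simp [hy_zero])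
    (fun k => by simp [ev, val]) hj

/-- The parts recorded by one half of an exponent vector. -/
def parts (a : Fin n → ℕ) : Multiset ℕ := ∑ k : Fin n, Multiset.replicate (a k) (k + 1)

/-- The weight of an exponent vector. -/
def wgt (m : Fin n ⊕ Fin n →₀ ℕ) : ℕ :=
  (parts fun k => m (Sum.inl k)).sum + (parts fun k => m (Sum.inr k)).sum

theorem parts_sum (a : Fin n → ℕ) : (parts a).sum = ∑ k : Fin n, a k * (k + 1) := by
  simp [parts, Multiset.sum_sum]

theorem parts_prod {R : Type} [CommRing R] (a : Fin n → ℕ) (f : ℕ → R) :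
    ((parts a).map f).prod = ∏ k : Fin n, f (k + 1) ^ a k := by
  rw [parts, ← Multiset.coe_mapAddMonoidHom, map_sum, Multiset.prod_sum]
  simp

/-- Monomials of weight j. -/
def Mo (f : MvPolynomial (Fin n ⊕ Fin n) K) (j : ℕ) : Prop := ∃ m, f = monomial m 1 ∧ wgt m = j

theorem Mo.one : Mo (1 : MvPolynomial (Fin n ⊕ Fin n) K) 0 := ⟨0, rfl, by simp [wgt, parts_sum]⟩

theorem Mo.mul {f g : MvPolynomial (Fin n ⊕ Fin n) K} {i j : ℕ} (hf : Mo f i) (hg : Mo g j) :
    Mo (f * g) (i + j) := by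
  obtain ⟨a, rfl, rfl⟩ := hf
  obtain ⟨b, rfl, rfl⟩ := hg
  refine ⟨a + b, by simp [monomial_mul], ?_⟩
  simp only [wgt, parts_sum, Finsupp.add_apply, add_mul, sum_add_distrib]
  ring

theorem mo_xs {j : ℕ} (hj : j ≤ n) : Mo (xs n j) j := by
  unfold xs vr
  split_ifs with e
  · refine ⟨Finsupp.single (Sum.inl ⟨j - 1, e.2⟩) 1, rfl, ?_⟩
    simp [wgt, parts_sum, Finsupp.single_apply]
    omega
  · obtain rfl : j = 0 := by omega
    exact Mo.one

theorem mo_ys {j : ℕ} (hj : j ≤ n) : Mo (ys n j) j := by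
  unfold ys vr
  split_ifs with e
  · refine ⟨Finsupp.single (Sum.inr ⟨j - 1, e.2⟩) 1, rfl, ?_⟩
    simp [wgt, parts_sum, Finsupp.single_apply]
    omega
  · obtain rfl : j = 0 := by omega
    exact Mo.one

theorem mo_prod {z : ℕ → MvPolynomial (Fin n ⊕ Fin n) K} (hz : ∀ j ≤ n, Mo (z j) j)
    (l : Multiset ℕ) (hl : l.sum ≤ n) : Mo (l.map z).prod l.sum := by
  induction l using Multiset.induction_on with
  | empty => exact Mo.one
  | cons a l ih =>
    rw [Multiset.sum_cons] at hl
    rw [Multiset.map_cons, Multiset.prod_cons, Multiset.sum_cons]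
    exact (hz a (by omega)).mul (ih (by omega))

theorem exists_mo (lam mu : Multiset ℕ) (h : lam.sum + mu.sum = n) :
    ∃ m, wgt m = n ∧ (lam.map (esymm (Fin (n + n)) K)).prod * (mu.map (eq (n + n) (· < n))).prod =
      rho n (monomial m 1) := by
  obtain ⟨m, h1, h2⟩ := (mo_prod (fun _ => mo_xs (n := n)) lam (by omega)).mul
    (mo_prod (fun _ => mo_ys) mu (by omega))
  refine ⟨m, h2.trans h, ?_⟩
  rw [← h1, map_mul, map_multiset_prod, map_multiset_prod, Multiset.map_map, Multiset.map_map]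
  congr 2 <;> refine Multiset.map_congr rfl fun j hj => ?_
  · exact (rho_xs ((Multiset.single_le_sum (fun _ _ => Nat.zero_le _) j hj).trans (by omega))).symm
  · exact (rho_ys ((Multiset.single_le_sum (fun _ _ => Nat.zero_le _) j hj).trans (by omega))).symm

theorem pos_neg {f : K} (h : Pos f) (h' : Pos (-f)) : f = 0 := by
  ext a
  obtain ⟨x, hx⟩ := h.coeff a
  obtain ⟨y, hy⟩ := h'.coeff a
  rw [HahnSeries.coeff_neg, hx] at hy
  have : (x : ℚ) = 0 := by
    have h1 : (0 : ℚ) ≤ x := Nat.cast_nonneg x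
    have h2 : (0 : ℚ) ≤ y := Nat.cast_nonneg y
    linarith
  rw [hx, this]
  rfl

theorem hpos_mono (r : ℕ) {m : Fin n ⊕ Fin n →₀ ℕ} (hm : wgt m = n) :
    HPos n fun N => r • m.prod fun i e => val n N i ^ e := by
  have b := HPos.basic (n := n) r ⟨(parts fun k => m (Sum.inl k)).sum, by unfold wgt at hm; omega⟩
    (.ofSums _ (parts fun k => m (Sum.inl k)) rfl)
    (.ofSums _ (parts fun k => m (Sum.inr k)) (by unfold wgt at hm; dsimp only; omega))
  simp only [hsymmPart_ofSums, parts_prod, map_prod, map_pow] at b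
  simpa only [Finsupp.prod_fintype _ _ fun _ => pow_zero _, Fintype.prod_sum_type, val,
    Sum.elim_inl, Sum.elim_inr, hx, hy] using b

theorem aeval_int {T : Type} [CommRing T] (q : T) (P : Polynomial ℤ) :
    Polynomial.aeval q P = P.eval₂ (Int.castRingHom T) q := by
  rw [Polynomial.aeval_def, algebraMap_int_eq]

theorem eval_ne {R : Type} [CommRing R] [Nontrivial R] (P : Polynomial ℤ) (h : P.coeff 0 = 1) :
    P.eval₂ (Int.castRingHom (HahnSeries ℤ R)) (HahnSeries.single 2 1) ≠ 0 := fun e => by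
  rw [← sq_X, RingHom.ext_int (Int.castRingHom _) ((sq2 R).comp (Int.castRingHom _)),
    ← Polynomial.hom_eval₂] at e
  have h1 := congrArg (fun f => f.coeff (2 * ((0 : ℕ) : ℤ))) e
  simp only [coeff_sq] at h1
  rw [PowerSeries.coeff_zero_eq_constantCoeff_apply, Polynomial.hom_eval₂,
    PowerSeries.constantCoeff_X, Polynomial.eval₂_at_zero, h] at h1
  simp at h1

theorem qi_ne {R : Type} [CommRing R] [Nontrivial R] (j : ℕ) :
    qi (HahnSeries.single 2 1 : HahnSeries ℤ R) (j + 1) ≠ 0 := fun e => by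
  rw [← sq_X, ← map_qi] at e
  have := congrArg (fun f => f.coeff (2 * ((0 : ℕ) : ℤ))) e
  simp only [coeff_sq] at this
  simp [qi, sum_range_succ'] at this

end LTr

open LTr in
/-- The transfer, for any way of proving that the law and the base values determine E. -/
theorem hpos_core {E : Finset (Rt n)}
    (hE : ∀ (N : ℕ) (F : Finset (Rt n) → HahnSeries ℤ (SL N)), TLaw (HahnSeries.single 2 1) F →
      (∀ (B : Type) [Fintype B] [DecidableEq B] (blk : Fin n → B) (lp : B → Prop)
        (E' : Finset (Rt n)), IsBase blk lp E' → F E' = 0) → F E = 0)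
    (h : ∀ φ, PosFn n (n + n) n φ → Pos (φ (FA (n + n) n E))) (d : ℕ) :
    HPos n fun N => PowerSeries.coeff d (LL N E) := by
  obtain ⟨ψ, hψ⟩ := (rho n).toLinearMap.exists_leftInverse_of_injective
    (LinearMap.ker_eq_bot.2 (rho_inj n))
  have hψ' : ∀ f, ψ (rho n f) = f := fun f => congrArg (fun l => l f) (congrArg DFunLike.coe hψ)
  have key : ∀ N, sq2 (SL N) (LL N E) = ev n N (ψ (FA (n + n) n E)) := fun N => by
    rw [← sub_eq_zero]
    refine hE N (fun E => sq2 (SL N) (LL N E) - ev n N (ψ (FA (n + n) n E)))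
      (fun E α β β' σ t => ?_) fun B _ _ blk lp E' hb => ?_
    · have l1 := congrArg (sq2 (SL N)) (LL_tlaw N E α β β' σ t)
      have l2 := congrArg ψ (FA_tlaw (n + n) n E α β β' σ t)
      simp only [add_mul, one_mul, map_add, C_mul', map_smul] at l2
      have l3 := congrArg (ev n N) l2
      simp only [map_add, ← C_mul', map_mul, ev, eval₂Hom_C, ex_tp] at l3
      simp only [map_add, map_mul, map_one, sq_X] at l1
      simp only [ev]
      linear_combination l1 - l3
    · have m1 := map_BaseV (rho n).toRingHom (C (tp 2)) (xs n) (ys n) lp (cnt blk) (cnt_le blk)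
        (fun j hj => rho_xs hj) fun j hj => rho_ys hj
      have m2 := map_BaseV (ev n N) (C (tp 2)) (xs n) (ys n) lp (cnt blk) (cnt_le blk)
        (fun j hj => ev_xs N hj) fun j hj => ev_ys N hj
      have m3 := map_BaseV (sq2 (SL N)) PowerSeries.X (fun j => PowerSeries.C (hx N j))
        (fun j => PowerSeries.C (hy N j)) lp (cnt blk) (cnt_le blk) (fun j _ => sq_C _)
        fun j _ => sq_C _
      have c1 : (rho n).toRingHom (C (tp 2)) = C (tp 2) := (rho n).commutes _
      have c2 : ev n N (C (tp 2)) = HahnSeries.single 2 1 := by simp [ev, ex_tp]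
      rw [c1] at m1
      show _ - _ = 0
      rw [LL_base N hb, FA_base _ _ hb, ← m1, m3, sq_X, ← c2, ← m2]
      exact sub_eq_zero.2 (congrArg _ (hψ' _).symm)
  have p1 : ∀ m, Pos (coeff m (ψ (FA (n + n) n E))) := fun m =>
    h ((lcoeff K m).comp ψ) fun lam mu e => by
      obtain ⟨m', -, e'⟩ := exists_mo lam mu e
      rw [e', LinearMap.comp_apply, hψ', lcoeff_apply, coeff_monomial]
      split_ifs
      exacts [Pos.one, Pos.zero]
  have p2 : ∀ m, wgt m ≠ n → coeff m (ψ (FA (n + n) n E)) = 0 := fun m hm =>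
    pos_neg (p1 m) (h (-(lcoeff K m).comp ψ) fun lam mu e => by
      obtain ⟨m', a, e'⟩ := exists_mo lam mu e
      rw [e', LinearMap.neg_apply, LinearMap.comp_apply, hψ', lcoeff_apply, coeff_monomial,
        if_neg fun c : m' = m => hm (c ▸ a), neg_zero]
      exact Pos.zero)
  choose r hr using fun m => (p1 m).coeff (2 * (d : ℤ))
  have e : ∀ N, PowerSeries.coeff d (LL N E) =
      ∑ m ∈ (ψ (FA (n + n) n E)).support, r m • m.prod fun i e => val n N i ^ e := fun N => by
    rw [← coeff_sq, key]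
    conv_lhs => rw [(ψ (FA (n + n) n E)).as_sum, map_sum, HahnSeries.coeff_sum]
    refine sum_congr rfl fun m _ => ?_
    rw [ev, eval₂Hom_monomial, show (m.prod fun i e => (HahnSeries.C (val n N i) ^ e :
      HahnSeries ℤ (SL N))) = HahnSeries.C (m.prod fun i e => val n N i ^ e) by
        simp only [map_finsuppProd, map_pow], HahnSeries.C_apply,
      HahnSeries.coeff_mul_single_zero, coeff_ex, hr, map_natCast, nsmul_eq_mul]
  simp only [e]
  exact HPos.sum _ fun m hm => hpos_mono _ (by_contra fun c => mem_support_iff.1 hm (p2 m c))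

theorem hpos_of_det {E : Finset (Rt n)} (hE : Det E)
    (h : ∀ φ, PosFn n (n + n) n φ → Pos (φ (FA (n + n) n E))) (d : ℕ) :
    HPos n fun N => PowerSeries.coeff d (LL N E) :=
  hpos_core (fun _ => hE _ _ (HahnSeries.single_ne_zero one_ne_zero) LTr.qi_ne) h d

/-- The same with the extra hypothesis that polynomials with constant term one do not vanish. -/
theorem hpos_of_det' {E : Finset (Rt n)}
    (hE : ∀ (T : Type) [CommRing T] [IsDomain T] (q : T), q ≠ 0 → (∀ j, qi q (j + 1) ≠ 0) →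
      (∀ P : Polynomial ℤ, P.coeff 0 = 1 → Polynomial.aeval q P ≠ 0) →
      ∀ F : Finset (Rt n) → T, TLaw q F →
        (∀ (B : Type) [Fintype B] [DecidableEq B] (blk : Fin n → B) (lp : B → Prop)
          (E' : Finset (Rt n)), IsBase blk lp E' → F E' = 0) → F E = 0)
    (h : ∀ φ, PosFn n (n + n) n φ → Pos (φ (FA (n + n) n E))) (d : ℕ) :
    HPos n fun N => PowerSeries.coeff d (LL N E) :=
  hpos_core (fun _ => hE _ _ (HahnSeries.single_ne_zero one_ne_zero) LTr.qi_ne fun P hP =>
    (LTr.aeval_int _ P).trans_ne (LTr.eval_ne P hP)) h d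

end Pool.Agent.Lib.MP_33bfb2_co.Th
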