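import Pool.Agent.Lib.MP_33bfb2_co.Th.TMain
import Pool.Agent.Lib.MP_33bfb2_co.Th.LS
import Pool.Agent.Lib.MP_33bfb2_co.Th.LT
import Pool.Agent.Lib.MP_33bfb2_co.Th.LDet

namespace Pool.Agent.Lib.MP_33bfb2_co.Th

open Finset MvPolynomial

variable {n : ℕ}

theorem mem_EH' {c : ℤ} {H : Set (Fin n → ℤ)} (γ : Rt n) :
    γ ∈ EH c H ↔ can γ ∧ rv c γ ∈ H := by simp [EH]

theorem FA_pos {c : ℤ} (hc : c = 1 ∨ c = 2) {H : Set (Fin n → ℤ)}
    (hd : ∀ β ∈ posRoots n c, ∀ γ ∈ posRoots n c, β + γ ∈ H → β ∈ H) (s a : ℕ)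
    {φ : MvPolynomial (Fin s) K →ₗ[K] K} (hφ : PosFn n s a φ) : Pos (φ (FA s a (EH c H))) := by
  obtain ⟨asc, e⟩ := FA_split s a (E := EH c H) fun γ h => ((mem_EH' γ).1 h).1
  obtain ⟨h1, h2⟩ := EH_interval hc hd
  rw [e, map_sum]
  refine Pos.sum _ fun ε _ => ?_
  rw [map_smul, smul_eq_mul]
  have inj : Function.Injective fun i => pos ((i, ε i) : V n) := fun i j h =>
    congrArg Prod.fst (pos_inj h)
  refine (Pos.tp _).mul (Phi_pos _ inj _ (fun i j k a b => ?_) _ (fun i j a b => ?_) _ _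
    (by rwa [Fintype.card_fin]))
  · refine h1 _ _ _ a b (fun h => ?_) fun h => ?_
    · obtain rfl : i = j := h
      exact lt_irrefl _ a
    · obtain rfl : j = k := h
      exact lt_irrefl _ b
  · have := i.2
    have := j.2
    rcases Int.units_eq_one_or (ε i) with u | u <;> simp only [u, b.1, pos_p, pos_m] at a
    · exact ⟨u, fun h => b.2 (h2 i j (by omega) h)⟩
    · omega

theorem main_full (hn : 1 ≤ n) {c : ℤ} (hc : c = 1 ∨ c = 2) {H : Set (Fin n → ℤ)}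
    (hH : H ⊆ posRoots n c)
    (hd : ∀ β ∈ posRoots n c, ∀ γ ∈ posRoots n c, β + γ ∈ H → β ∈ H) (d : ℕ) :
    HPos n fun N => frob N (dotChar H d) := by
  have := hpos_of_det' (detN_EH hc hd) (fun φ hφ => FA_pos hc hd _ _ hφ) d
  simp only [LL, coeff_FL, ← spl_eq (by omega) hH mem_EH', ← dotChar_eq] at this
  exact this

end Pool.Agent.Lib.MP_33bfb2_co.Th
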