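import Pool.Agent.Lib.MP_33bfb2_co.Th.LT

namespace Pool.Agent.Lib.MP_33bfb2_co.Th

open Finset MvPolynomial

variable {n : ℕ}

/-- E is determined by the modular law and the base values when q is transcendental. -/
def DetQ (E : Finset (Rt n)) : Prop :=
  ∀ (T : Type) [CommRing T] [IsDomain T] [Algebra ℚ T] (q : T),
    (∀ P : Polynomial ℚ, Polynomial.aeval q P = 0 → P = 0) →
    ∀ F : Finset (Rt n) → T, TLaw q F →
      (∀ (B : Type) [Fintype B] [DecidableEq B] (blk : Fin n → B) (lp : B → Prop)
        (E' : Finset (Rt n)), IsBase blk lp E' → F E' = 0) → F E = 0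

theorem LTr.single_transc {R : Type} [CommRing R] [Nontrivial R] [Algebra ℚ R] (P : Polynomial ℚ)
    (h : Polynomial.aeval (HahnSeries.single 2 1 : HahnSeries ℤ R) P = 0) : P = 0 := by
  ext i
  have e : algebraMap ℚ (HahnSeries ℤ R) = HahnSeries.C.comp (algebraMap ℚ R) :=
    RingHom.ext_rat _ _
  have h1 := congrArg (fun f => f.coeff (2 * (i : ℤ))) h
  simp only [Polynomial.aeval_eq_sum_range, HahnSeries.single_pow, HahnSeries.coeff_sum,
    Algebra.smul_def, e, RingHom.comp_apply, HahnSeries.C_apply, HahnSeries.single_mul_single,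
    HahnSeries.coeff_single, one_pow, HahnSeries.coeff_zero, mul_one, zero_add] at h1
  rw [sum_eq_single i] at h1
  · simpa [mul_comm] using h1
  · intro b _ hb
    rw [if_neg (by simp; omega)]
  · intro hi
    simp [Polynomial.coeff_eq_zero_of_natDegree_lt (show P.natDegree < i by simpa using hi)]

theorem hpos_of_detQ {E : Finset (Rt n)} (hE : DetQ E)
    (h : ∀ φ, PosFn n (n + n) n φ → Pos (φ (FA (n + n) n E))) (d : ℕ) :
    HPos n fun N => PowerSeries.coeff d (LL N E) :=
  hpos_core (fun _ => hE _ _ LTr.single_transc) h d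

/-- What a transcendental q gives for the landed determination theorem. -/
theorem transc_facts {T : Type} [CommRing T] [Algebra ℚ T] {q : T}
    (h : ∀ P : Polynomial ℚ, Polynomial.aeval q P = 0 → P = 0) :
    q ≠ 0 ∧ (∀ j, qi q (j + 1) ≠ 0) ∧
      ∀ P : Polynomial ℤ, P.coeff 0 = 1 → Polynomial.aeval q P ≠ 0 := by
  refine ⟨fun e => Polynomial.X_ne_zero (h Polynomial.X (by simpa using e)), fun j e => ?_,
    fun P hP e => ?_⟩
  · have := h (qi Polynomial.X (j + 1)) (by simpa [qi] using e)
    have := congrArg (Polynomial.coeff · 0) this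
    simp [qi, sum_range_succ'] at this
  · have := h (P.map (algebraMap ℤ ℚ)) (by rwa [Polynomial.aeval_map_algebraMap])
    have := congrArg (Polynomial.coeff · 0) this
    simp [hP] at this

theorem Det.detQ {E : Finset (Rt n)} (h : Det E) : DetQ E :=
  fun T _ _ _ q hq => h T q (transc_facts hq).1 (transc_facts hq).2.1

end Pool.Agent.Lib.MP_33bfb2_co.Th
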