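import Pool.Agent.Lib.MP_33bfb2_co.Th.A2

/-! Transport between cones along an additive equivalence that preserves the skew form. -/

namespace Pool.Agent.Lib.MP_33bfb2_co.Th

open Finset

variable {L : Type} [AddCommGroup L] {ω : Skew L} {C C' C'' : Cone L} {S : L ≃+ L}

/-- b is the transport of a along S. -/
def Tr (S : L ≃+ L) (a : A ω C) (b : A ω C') : Prop := ∀ n, b.f (S n) = a.f n

/-- S preserves the skew form. -/
def Skew.Pres (ω : Skew L) (S : L ≃+ L) : Prop := ∀ a b, ω.w (S a) (S b) = ω.w a b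

theorem Skew.pres_refl (ω : Skew L) : ω.Pres (AddEquiv.refl L) := fun _ _ => rfl

theorem Tr.refl_iff {a : A ω C} {b : A ω C'} : Tr (AddEquiv.refl L) a b ↔ b.f = a.f :=
  ⟨fun h => funext h, fun h n => congrFun h n⟩

theorem Tr.right_unique {a : A ω C} {b b' : A ω C'} (h : Tr S a b) (h' : Tr S a b') : b = b' := by
  ext n : 2
  rw [← S.apply_symm_apply n, h, h']

theorem Tr.left_unique {a a' : A ω C} {b : A ω C'} (h : Tr S a b) (h' : Tr S a' b) : a = a' := by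
  ext n : 2
  rw [← h, h']

theorem Tr.symm {a : A ω C} {b : A ω C'} (h : Tr S a b) : Tr S.symm b a := fun n => by
  rw [← h, S.apply_symm_apply]

theorem Tr.in_comap {a : A ω C} {b : A ω C'} (h : Tr S a b) :
    a.In (C'.car.comap S.toAddMonoidHom) := fun n hn => b.supp (S n) (by rwa [h])

theorem Tr.exists (a : A ω C) (h : ∀ n, a.f n ≠ 0 → S n ∈ C'.car) : ∃ b : A ω C', Tr S a b :=
  ⟨⟨fun n => a.f (S.symm n), fun n hn => by simpa using h _ hn⟩, fun n => by simp⟩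

theorem Tr.mem_G {a : A ω C} {b : A ω C'} (h : Tr S a b) (ha : a ∈ G ω C) : b ∈ G ω C' := by
  have := h 0
  rw [map_zero] at this
  exact this.trans ha

theorem Tr.existsG (a : G ω C) (h : ∀ n, a.1.f n ≠ 0 → S n ∈ C'.car) :
    ∃ b : G ω C', Tr S a.1 b.1 := by
  obtain ⟨b, hb⟩ := Tr.exists a.1 h
  exact ⟨⟨b, hb.mem_G a.2⟩, hb⟩

theorem Tr.one : Tr S (1 : A ω C) (1 : A ω C') := fun n => by
  rw [A.one_f, A.one_f]
  by_cases h : n = 0
  · simp [h]
  · rw [if_neg h, if_neg fun e => h (S.injective (by simpa using e))]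

theorem Tr.zero : Tr S (0 : A ω C) (0 : A ω C') := fun _ => rfl

theorem Tr.add {a a' : A ω C} {b b' : A ω C'} (h : Tr S a b) (h' : Tr S a' b') :
    Tr S (a + a') (b + b') := fun n => by simp [h n, h' n]

theorem Tr.smul (r : K) {a : A ω C} {b : A ω C'} (h : Tr S a b) : Tr S (r • a) (r • b) :=
  fun n => by simp [h n]

theorem Tr.mul (hS : ω.Pres S) {a a' : A ω C} {b b' : A ω C'} (h : Tr S a b) (h' : Tr S a' b') :
    Tr S (a * a') (b * b') := fun n => by
  rw [A.mul_f, A.mul_f, conv, conv, ← finsum_comp_equiv S.toEquiv]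
  refine finsum_congr fun m => ?_
  show tp (- ω.w (S m) (S n)) * b.f (S m) * b'.f (S n - S m) = _
  rw [hS, h, ← map_sub, h']

theorem Tr.inv (hS : ω.Pres S) {g : G ω C} {h : G ω C'} (e : Tr S g.1 h.1) :
    Tr S (g⁻¹).1 (h⁻¹).1 := by
  obtain ⟨b, hb⟩ := Tr.existsG (S := S) (C' := C') g⁻¹ (A.In.inv _ e.in_comap)
  have h1 := Tr.mul hS hb e
  rw [G.inv_mul_val] at h1
  have h2 : b * h = 1 := Subtype.ext (h1.right_unique Tr.one)
  rwa [eq_inv_of_mul_eq_one_left h2] at hb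

theorem Tr.Ad (hS : ω.Pres S) {g : G ω C} {h : G ω C'} (e : Tr S g.1 h.1) {a : A ω C}
    {b : A ω C'} (e' : Tr S a b) : Tr S (Ad g a) (Ad h b) :=
  Tr.mul hS (Tr.mul hS e e') (Tr.inv hS e)

theorem Tr.In {a : A ω C} {b : A ω C'} (h : Tr S a b) {T : Set L} (ha : a.In (S ⁻¹' T)) :
    b.In T := fun n hn => by
  rw [← S.apply_symm_apply n] at hn ⊢
  exact ha _ (by rwa [← h])

theorem Tr.res {a : A ω C} {b : A ω C'} (h : Tr S a b) {T T' : Set L} (e : ∀ n, S n ∈ T' ↔ n ∈ T) :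
    Tr S (a.res T) (b.res T') := fun n => by
  by_cases m : n ∈ T
  · rw [A.res_of_mem _ m, A.res_of_mem _ ((e n).2 m), h]
  · rw [A.res_of_not _ m, A.res_of_not _ fun k => m ((e n).1 k)]

theorem Tr.fac (hS : ω.Pres S) {θ θ' : L →+ ℚ} (hθ : ∀ n, θ' (S n) = θ n) {g : G ω C}
    {h : G ω C'} (e : Tr S g.1 h.1) :
    Tr S (fa θ g).1 (fa θ' h).1 ∧ Tr S (fc θ g).1 (fc θ' h).1 := by
  obtain ⟨a, ha⟩ := Tr.existsG (S := S) (C' := C') (fa θ g) (fac_in _ θ e.in_comap).1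
  obtain ⟨c, hc⟩ := Tr.existsG (S := S) (C' := C') (fc θ g) (fac_in _ θ e.in_comap).2.2
  have h1 : Tr S (fa θ g * fc θ g).1 (a * c).1 := Tr.mul hS ha hc
  rw [fa_mul_fc] at h1
  obtain ⟨k1, k2⟩ := fac_unique θ' (g := h) (a := a) (c := c) (Subtype.ext (h1.right_unique e))
    (ha.In fun n hn => by
      show 0 ≤ θ' (S n)
      rw [hθ]; exact fa_in θ g n hn)
    (hc.In (T := neg0 θ') fun n hn => by
      rcases fc_in θ g n hn with rfl | k
      · exact Or.inl (map_zero S)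
      · exact Or.inr (by rw [hθ]; exact k))
  rw [k1, k2]
  exact ⟨ha, hc⟩

theorem Tr.z0 (hS : ω.Pres S) {θ θ' : L →+ ℚ} (hθ : ∀ n, θ' (S n) = θ n) {g : G ω C}
    {h : G ω C'} (e : Tr S g.1 h.1) : Tr S (z0 θ g).1 (z0 θ' h).1 :=
  (Tr.fac hS hθ e).1.res fun n => by
    show θ' (S n) = 0 ↔ θ n = 0
    rw [hθ]

theorem Tr.ell (hS : ω.Pres S) {δ δ' : L →+ ℤ} (hδ : ∀ n, δ' (S n) = δ n) {g : G ω C}
    {h : G ω C'} (e : Tr S g.1 h.1) : Tr S (ell δ g) (ell δ' h) :=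
  Tr.mul hS (Tr.inv hS e) fun n => by
    show δ' (S n) • h.1.f (S n) = δ n • g.1.f n
    rw [hδ, e]

theorem Skew.Pres.th (hS : ω.Pres S) (p n : L) : th ω (S p) (S n) = th ω p n := by
  simp [Th.th, hS p n]

theorem Tr.Att (hS : ω.Pres S) {δ δ' : L →+ ℤ} (hδ : ∀ n, δ' (S n) = δ n) {g : G ω C}
    {h : G ω C'} (e : Tr S g.1 h.1) (n : L) : Att δ' h (S n) = Att δ g n :=
  Tr.ell hS hδ (Tr.z0 hS (hS.th n) e) n

theorem Tr.gen (ε : Bool) (s : ℤ) {n : L} (h : n ∈ C.car) (h' : S n ∈ C'.car) :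
    Tr S (gen ω C (ε, s, n)).1 (gen ω C' (ε, s, S n)).1 := by
  by_cases h0 : n = 0
  · subst h0
    simp only [Th.gen, map_zero, ne_eq, not_true_eq_false, and_false, dif_neg, not_false_eq_true]
    exact Tr.one
  have h0' : S n ≠ 0 := fun e => h0 (S.injective (by simpa using e))
  intro m
  simp only [Th.gen, h, h', h0, h0', ne_eq, not_false_eq_true, and_self, dif_pos]
  have inj : Function.Injective fun j : ℕ => j • n := fun i j e => by
    have := congrArg C.deg e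
    simp only [map_nsmul, nsmul_eq_mul] at this
    exact_mod_cast mul_right_cancel₀ (C.pos _ h h0).ne' this
  have inj' : Function.Injective fun j : ℕ => j • S n := fun i j e =>
    inj (S.injective (by simpa using e))
  by_cases k : ∃ j : ℕ, j • n = m
  · obtain ⟨j, rfl⟩ := k
    rw [map_nsmul]
    exact (inj'.extend_apply (fun j : ℕ => tp (s * j) * cc ε j) 0 j).trans
      (inj.extend_apply (fun j : ℕ => tp (s * j) * cc ε j) 0 j).symm
  · have k' : ¬ ∃ j : ℕ, j • S n = S m := fun ⟨j, hj⟩ => k ⟨j, S.injective (by simpa using hj)⟩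
    rw [Function.extend_apply' _ _ _ k, Function.extend_apply' _ _ _ k']
    rfl

theorem Tr.EE {n : L} (h : n ∈ C.car) (h' : S n ∈ C'.car) :
    Tr S (EE ω C n).1 (EE ω C' (S n)).1 := Tr.gen true 0 h h'

end Pool.Agent.Lib.MP_33bfb2_co.Th
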