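import Pool.Agent.Lib.MP_33bfb2_co.Th.G1
import Pool.Agent.Lib.MP_33bfb2_co.Th.A3a
import Pool.Agent.Lib.MP_33bfb2_co.Th.MTr

/-! Mutation: the shear, conjugation line by line, small tools. -/

namespace Pool.Agent.Lib.MP_33bfb2_co.Th

open Finset

variable {L : Type} [AddCommGroup L] {ω : Skew L} {C C' : Cone L}

/-- The shear along X. -/
def shear (ω : Skew L) (X : L) : L ≃+ L where
  toFun n := n - ω.w n X • X
  invFun n := n + ω.w n X • X
  left_inv n := by simp [ω.alt]
  right_inv n := by simp [ω.alt]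
  map_add' a b := by
    simp only [map_add, AddMonoidHom.add_apply, add_smul]
    abel

theorem shear_apply (X n : L) : shear ω X n = n - ω.w n X • X := rfl

theorem shear_w (X n : L) : ω.w (shear ω X n) X = ω.w n X := by simp [shear_apply, ω.alt]

theorem shear_pres (X : L) : ω.Pres (shear ω X) := fun a b => by
  simp only [shear_apply, map_sub, map_zsmul, AddMonoidHom.sub_apply, AddMonoidHom.zsmul_apply,
    ω.alt, ω.skew X b, smul_eq_mul]
  ring

theorem tau_w (X n : L) : ω.w (tau ω X n) X = ω.w n X := by simp [tau, ω.alt]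

theorem tau_of_nonneg {X n : L} (h : 0 ≤ ω.w n X) : tau ω X n = n := by
  rw [tau, max_eq_right (by omega), zero_smul, add_zero]

theorem tau_of_nonpos {X n : L} (h : ω.w n X ≤ 0) : tau ω X n = shear ω X n := by
  rw [tau, max_eq_left (by omega), shear_apply, neg_smul, sub_eq_add_neg]

theorem tau_inj (X : L) : Function.Injective (tau ω X) := fun a b e => by
  have h : ω.w a X = ω.w b X := by rw [← tau_w X a, e, tau_w]
  rw [tau, tau, h] at e
  exact add_right_cancel e

/-- The submonoid where an integral functional is non-negative. -/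
def nnz (f : L →+ ℤ) : AddSubmonoid L where
  carrier := {n | 0 ≤ f n}
  zero_mem' := by simp
  add_mem' := fun {a b} ha hb => by
    simp only [Set.mem_ofPred_eq, map_add] at *
    omega

/-- The submonoid of vectors that are zero or have positive value. -/
def psz (f : L →+ ℤ) : AddSubmonoid L where
  carrier := {n | n = 0 ∨ 0 < f n}
  zero_mem' := Or.inl rfl
  add_mem' := by
    rintro a b (rfl | ha) (rfl | hb)
    · simp
    · simpa using Or.inr hb
    · simpa using Or.inr ha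
    · exact Or.inr (by rw [map_add]; omega)

theorem Ad_mul' (a b : G ω C) (F : A ω C) : Ad (a * b) F = Ad a (Ad b F) := by
  simp only [Ad, mul_inv_rev, Submonoid.coe_mul, mul_assoc]

theorem Ad_smul' (a : G ω C) (r : K) (F : A ω C) : Ad a (r • F) = r • Ad a F := by
  simp only [Ad, mul_smul_comm, smul_mul_assoc]

theorem Ad_comm' (a : G ω C) (F : A ω C) : a.1 * F = Ad a F * a.1 := by
  rw [Ad, mul_assoc, G.inv_mul_val, mul_one]

theorem EE_mult (X : L) {n : L} (h : (EE ω C X).1.f n ≠ 0) : ∃ j : ℕ, n = j • X := by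
  obtain ⟨j, hj⟩ := gen_in (true, 0, X) n h
  exact ⟨j, hj.symm⟩

theorem EE_in (S : AddSubmonoid L) {X : L} (h : X ∈ S) : (EE ω C X).1.In S := fun n hn => by
  obtain ⟨j, rfl⟩ := EE_mult X hn
  exact S.nsmul_mem h j

theorem EE_in_neg {θ : L →+ ℚ} {X : L} (h : θ X < 0) : (EE ω C X).1.In0 {n | θ n < 0} :=
  EE_in (neg0 θ) (Or.inr h)

theorem EE_in_pos {θ : L →+ ℚ} {X : L} (h : 0 < θ X) : (EE ω C X).1.In0 {n | 0 < θ n} :=
  EE_in (pos0 θ) (Or.inr h)

theorem EE_in_ker {θ : L →+ ℚ} {X : L} (h : θ X = 0) : (EE ω C X).1.In {n | θ n = 0} :=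
  fun n hn => by
    obtain ⟨j, rfl⟩ := EE_mult X hn
    simp [h]

theorem EE_in_kerz {θ : L →+ ℤ} {X : L} (h : θ X = 0) : (EE ω C X).1.In {n | θ n = 0} :=
  fun n hn => by
    obtain ⟨j, rfl⟩ := EE_mult X hn
    simp [h]

theorem one_in0' (S : Set L) : (1 : G ω C).1.In0 S :=
  A.one_in (S := {n | n = 0 ∨ n ∈ S}) (Or.inl rfl)

theorem one_in_ker (θ : L →+ ℚ) : (1 : G ω C).1.In {n | θ n = 0} := A.one_in (map_zero θ)

theorem ell_EE_mult (δ : L →+ ℤ) (e : L) {n : L} (h : (ell δ (EE ω C e)).f n ≠ 0) :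
    ∃ j : ℕ, n = j • e := by
  obtain ⟨j, hj⟩ := ell_in (AddSubmonoid.multiples e) δ (gen_in (true, 0, e)) n h
  exact ⟨j, hj.symm⟩

theorem ell_EE_zero {δ : L →+ ℤ} {X : L} (h : δ X = 0) : ell δ (EE ω C X) = 0 := by
  have : der δ (EE ω C X).1 = 0 := by
    ext n : 2
    show δ n • (EE ω C X).1.f n = 0
    by_cases e : (EE ω C X).1.f n = 0
    · rw [e, smul_zero]
    · rw [show δ n = 0 from EE_in_kerz h n e, zero_smul]
  rw [ell, this, mul_zero]

theorem th_apply' (p n : L) : th ω p n = - (ω.w p n : ℚ) := by simp [th]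

theorem res_mul_left {y : L →+ ℤ} {k : A ω C} (hk : k.In {n | y n = 0}) (a : A ω C) :
    (k * a).res {n | y n = 1} = k * a.res {n | y n = 1} := by
  ext n : 2
  by_cases h : y n = 1
  · rw [A.res_of_mem (S := {n | y n = 1}) (n := n) _ h, A.mul_apply, A.mul_apply]
    refine sum_congr rfl fun m _ => ?_
    by_cases e : k.f m = 0
    · simp [e]
    · rw [A.res_of_mem]
      show y (n - m) = 1
      rw [map_sub, h, show y m = 0 from hk m e, sub_zero]
  · rw [A.res_of_not (S := {n | y n = 1}) (n := n) _ h]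
    by_contra e
    obtain ⟨m, h1, h2⟩ := A.mul_ne_zero (Ne.symm e)
    have h3 : y (n - m) = 1 := A.res_in {n | y n = 1} _ _ h2
    rw [map_sub, show y m = 0 from hk m h1, sub_zero] at h3
    exact h h3

theorem res_mul_right {y : L →+ ℤ} {k : A ω C} (hk : k.In {n | y n = 0}) (a : A ω C) :
    (a * k).res {n | y n = 1} = a.res {n | y n = 1} * k := by
  ext n : 2
  by_cases h : y n = 1
  · rw [A.res_of_mem (S := {n | y n = 1}) (n := n) _ h, A.mul_apply, A.mul_apply]
    refine sum_congr rfl fun m _ => ?_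
    by_cases e : k.f (n - m) = 0
    · simp [e]
    · rw [A.res_of_mem]
      have h3 : y (n - m) = 0 := hk _ e
      rw [map_sub, h] at h3
      show y m = 1
      omega
  · rw [A.res_of_not (S := {n | y n = 1}) (n := n) _ h]
    by_contra e
    obtain ⟨m, h1, h2⟩ := A.mul_ne_zero (Ne.symm e)
    have h3 : y m = 1 := A.res_in {n | y n = 1} _ _ h1
    have h4 : y (n - m) = 0 := hk _ h2
    rw [map_sub, h3] at h4
    exact h (by omega)

theorem res_Ad {y : L →+ ℤ} {k : G ω C} (hk : k.1.In {n | y n = 0}) (a : A ω C) :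
    (Ad k a).res {n | y n = 1} = Ad k (a.res {n | y n = 1}) := by
  have hk' : (k⁻¹).1.In {n | y n = 0} := A.In.inv y.ker.toAddSubmonoid hk
  rw [Ad, res_mul_right hk', res_mul_left hk, Ad]

/-- A top coefficient outside U is read off from the attractor invariant. -/
theorem top_vanish {db : L →+ ℤ} (h0 : ∀ n ∈ C.car, 0 ≤ db n) {h : G ω C} (hS : h.1.In (psz db))
    (U : AddSubmonoid L) {n : L} (hD : 0 < db n) (hU : n ∉ U)
    (ih : ∀ m, db m < db n → h.1.f m ≠ 0 → m ∈ U) (ha : Att db h n = 0) : h.1.f n = 0 := by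
  have hΛ : C.Lower {m | db m ≤ db n} := fun a _ b hb e => by
    have := h0 b hb
    simp only [Set.mem_ofPred_eq, map_add] at e ⊢
    omega
  let h' : G ω C := G.res {m | db m < db n} (by simpa using hD) h
  have hS' : h'.1.In (psz db) := hS.res
  have hU' : h'.1.In U := fun m hm => ih m (A.res_ne_zero hm).1 (A.res_ne_zero hm).2
  have hT : ∀ p ∈ {m | db m = db n}, ∀ m ∈ C.car, m ∈ psz db → m ≠ 0 →
      p + m ∉ {m | db m ≤ db n} := fun p hp m _ hm hm0 e => by
    have := hm.resolve_left hm0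
    simp only [Set.mem_ofPred_eq, map_add] at e hp
    omega
  have e : ∀ m ∈ {m | db m ≤ db n}, m ∉ {m | db m = db n} → h.1.f m = h'.1.f m :=
    fun m h1 h2 => (A.res_of_mem (S := {m | db m < db n}) (n := m) _ (lt_of_le_of_ne h1 h2)).symm
  have z := z0_top hΛ (psz db) (th ω n) hS hS' hT e
  have l := ell_top hΛ (psz db) db (fac_in _ (th ω n) hS).2.1 (fac_in _ (th ω n) hS').2.1 hT
    (fun m h1 h2 => sub_eq_zero.1 (by rw [z m h1, e m h1 h2, sub_self, ite_self])) n (le_refl (db n))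
  have l0 : (ell db (z0 (th ω n) h')).f n = 0 := by
    by_contra k
    exact hU (ell_in U db (fac_in U _ hU').2.1 n k)
  have l1 : h'.1.f n = 0 := A.res_of_not (S := {m | db m < db n}) (n := n) _ (lt_irrefl (db n))
  rw [z n (le_refl (db n)), if_pos (by simp [th_apply', ω.alt]), l0, l1, sub_zero, sub_zero] at l
  have l2 : (db n : K) * h.1.f n = 0 := by rw [← zsmul_eq_mul, ← l]; exact ha
  exact (mul_eq_zero.1 l2).resolve_left (intCast_K_ne hD.ne')

theorem line_pos {X : L} (hX : X ∈ C.car) (h0 : X ≠ 0) {a b : A ω C}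
    (e : (EE ω C X).1 * a = b * (EE ω C X).1) {n : L} (hm : 0 ≤ ω.w n X) (h : a.f n ≠ 0) :
    ∃ j : ℕ, (j : ℤ) ≤ ω.w n X ∧ b.f (n - j • X) ≠ 0 := by
  obtain ⟨m, hm⟩ := Int.eq_ofNat_of_zero_le hm
  rw [G1_pos hX h0 e hm] at h
  obtain ⟨j, hj, k⟩ := exists_ne_zero_of_sum_ne_zero h
  have := mem_range.1 hj
  exact ⟨j, by omega, fun z => k (by rw [z, mul_zero])⟩

theorem line_neg {X : L} (hX : X ∈ C.car) (h0 : X ≠ 0) {a b : A ω C}
    (e : (EE ω C X).1 * a = b * (EE ω C X).1) {n : L} (hm : ω.w n X ≤ 0) (h : b.f n ≠ 0) :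
    ∃ j : ℕ, (j : ℤ) ≤ - ω.w n X ∧ a.f (n - j • X) ≠ 0 := by
  obtain ⟨m, hm⟩ := Int.eq_ofNat_of_zero_le (neg_nonneg.2 hm)
  rw [G1_neg hX h0 e (m := m) (by omega)] at h
  obtain ⟨j, hj, k⟩ := exists_ne_zero_of_sum_ne_zero h
  have := mem_range.1 hj
  exact ⟨j, by omega, fun z => k (by rw [z, mul_zero])⟩

theorem line_inj {X : L} (hX : X ∈ C.car) (h0 : X ≠ 0) (d : A ω C) (m : ℕ)
    (h : ∀ n, ω.w n X = m → (Ad (EE ω C X)⁻¹ d).f n = 0) : ∀ n, ω.w n X = m → d.f n = 0 := by
  suffices ∀ n ∈ C.car, ω.w n X = m → d.f n = 0 from fun n hn =>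
    by_contra fun e => e (this n (d.supp n e) hn)
  refine Cone.induction fun n _ ih hn => ?_
  have := h n hn
  rw [Ad_EE_inv hX h0 d hn, sum_range_succ', sum_eq_zero, qb_zero] at this
  · simpa using this
  · intro j _
    by_cases k : n - (j + 1) • X ∈ C.car
    · rw [ih _ k ?_ (by simp [ω.alt, hn]), mul_zero]
      have := C.pos X hX h0
      simp only [map_sub, map_nsmul, nsmul_eq_mul]
      have : 0 < ((j + 1 : ℕ) : ℤ) * C.deg X := by positivity
      omega
    · rw [A.eq_zero k, mul_zero]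

section
variable {X : L} {Γ : AddSubmonoid L} {db la la' : L →+ ℤ}

theorem Mut.zs (M : Mut ω C C' X Γ db la la') (k : ℤ) (n : L) : n ∈ Γ ↔ n + k • X ∈ Γ := by
  induction k using Int.induction_on with
  | zero => simp
  | succ k ih => rw [ih, M.shift, add_smul, one_smul, add_assoc]
  | pred k ih => rw [ih, M.shift (n + (-k - 1 : ℤ) • X), sub_smul, one_smul, add_assoc, sub_add_cancel]

theorem Mut.ne (M : Mut ω C C' X Γ db la la') : X ≠ 0 := fun e => by
  have := M.laX
  rw [e, map_zero] at this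
  omega

theorem Mut.mem (M : Mut ω C C' X Γ db la la') : X ∈ C.car :=
  (M.car X).2 ⟨by simpa using (M.shift 0).1 Γ.zero_mem, by rw [M.laX]; omega⟩

theorem Mut.mem' (M : Mut ω C C' X Γ db la la') : -X ∈ C'.car :=
  (M.car' _).2 ⟨(M.shift _).2 (by simp), by rw [map_neg, M.laX']; omega⟩

theorem Mut.shear_mem (M : Mut ω C C' X Γ db la la') {n : L} (h : n ∈ C.car)
    (h' : 0 ≤ la' n + ω.w n X) : shear ω X n ∈ C'.car := by
  refine (M.car' _).2 ⟨?_, ?_⟩
  · rw [shear_apply, sub_eq_add_neg, ← neg_smul]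
    exact (M.zs _ _).1 ((M.car n).1 h).1
  · simpa [shear_apply, M.laX'] using h'

theorem Mut.db_shear (M : Mut ω C C' X Γ db la la') (n : L) : db (shear ω X n) = db n := by
  simp [shear_apply, M.dbX]

/-- The shear of a is the conjugate of E a E⁻¹ by the opposite dilogarithm. -/
theorem Mut.tr_shear (M : Mut ω C C' X Γ db la la') {a : A ω C} {a' : A ω C'}
    (h : a'.f = (Ad (EE ω C X) a).f) (ha : a.In {n | 0 ≤ la' n + ω.w n X}) :
    Tr (shear ω X) a (Ad (EE ω C' (-X)) a') := by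
  have h0' : -X ≠ 0 := neg_ne_zero.2 M.ne
  have refl : ∀ (m : ℕ) (F G : L → K) (p q : L), (∀ j ≤ m, F (p - j • -X) = G (q - (m - j) • X)) →
      ∑ j ∈ range (m + 1), qb m j * F (p - j • -X) = ∑ j ∈ range (m + 1), qb m j * G (q - j • X) :=
    fun m F G p q k => by
      rw [← sum_range_reflect (fun j => qb m j * G (q - j • X))]
      refine sum_congr rfl fun j hj => ?_
      have hj' : j ≤ m := Nat.lt_succ_iff.1 (mem_range.1 hj)
      rw [k j hj', show m + 1 - 1 - j = m - j by omega, qb_symm hj']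
  obtain ⟨a2, h2⟩ := Tr.exists (S := shear ω X) (C' := C') a
    fun n hn => M.shear_mem (a.supp n hn) (ha n hn)
  intro n
  rcases le_total 0 (ω.w n X) with hm | hm
  · obtain ⟨m, hm⟩ := Int.eq_ofNat_of_zero_le hm
    rw [Ad_EE M.mem' h0' a' (m := m) (by rw [map_neg, shear_w, hm]),
      G1_pos M.mem M.ne (Ad_comm' _ a) hm, h]
    refine refl m _ _ _ _ fun j hj => ?_
    rw [shear_apply, hm, G1_sub X hj, natCast_zsmul]
    congr 1
    simp only [smul_neg]
    abel
  · obtain ⟨m, hm⟩ := Int.eq_ofNat_of_zero_le (neg_nonneg.2 hm)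
    have := line_inj M.mem' h0' (Ad (EE ω C' (-X)) a' - a2) m (fun p hp => ?_) (shear ω X n)
      (by rw [map_neg, shear_w, hm])
    · rw [← h2 n]
      exact sub_eq_zero.1 this
    · have e : Ad (EE ω C' (-X))⁻¹ (Ad (EE ω C' (-X)) a' - a2) = a' - Ad (EE ω C' (-X))⁻¹ a2 := by
        rw [Ad, mul_sub, sub_mul, ← Ad, ← Ad, ← Ad_mul', inv_mul_cancel]
        simp [Ad]
      have hp' : ω.w p X = - m := by rw [map_neg] at hp; omega
      rw [e, A.sub_f, Pi.sub_apply, h, Ad_EE M.mem M.ne a hp', Ad_EE_inv M.mem' h0' a2 hp,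
        refl m a2.f a.f p p fun j hj => ?_, sub_self]
      rw [← h2, shear_apply, G1_sub X hj]
      congr 1
      simp only [map_sub, map_nsmul, AddMonoidHom.sub_apply, AddMonoidHom.nsmul_apply, ω.alt, hp',
        smul_zero, sub_zero, neg_smul, natCast_zsmul, smul_neg]
      abel

end

end Pool.Agent.Lib.MP_33bfb2_co.Th
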