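import Pool.Agent.Lib.MP_33bfb2_co.Th.M0

namespace Pool.Agent.Lib.MP_33bfb2_co.Th

open Finset

variable {L : Type} [AddCommGroup L] {ω : Skew L} {C C' : Cone L}

/-! ## File M1: mutation -/

theorem lower_db {db : L →+ ℤ} (h0 : ∀ n ∈ C.car, 0 ≤ db n) (D : ℤ) : C.Lower {m | db m ≤ D} :=
  fun a _ b hb e => by
    have := h0 b hb
    simp only [Set.mem_ofPred_eq, map_add] at e ⊢
    omega

/-- A dilogarithm on the right is absorbed. -/
theorem att_right {δ : L →+ ℤ} {Y n : L} (hδ : δ Y = 0) (hn : 0 ≤ ω.w n Y) (h : G ω C) :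
    Att δ (h * EE ω C Y) n = Att δ h n := by
  unfold Att
  rcases hn.lt_or_eq with k | k
  · have := (z0_absorb (th ω n) h (one_in0' _) (EE_in_neg (ω := ω) (C := C) (X := Y) (by
      rw [th_apply']; exact neg_neg_of_pos (by exact_mod_cast k)))).1
    rw [one_mul] at this
    rw [this]
  · have := (z0_side (th ω n) h (one_in_ker _) (EE_in_ker (ω := ω) (C := C) (X := Y) (by
      rw [th_apply', ← k]; simp))).1
    rw [one_mul, one_mul] at this
    rw [this, ell_mul_perp δ (EE_in_kerz k.symm), ell_EE_zero hδ]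
    simp

/-- A dilogarithm on the left is absorbed. -/
theorem att_left {δ : L →+ ℤ} {Y n : L} (hδ : δ Y = 0) (hn : ω.w n Y ≤ 0) (h : G ω C) :
    Att δ (EE ω C Y * h) n = Att δ h n := by
  unfold Att
  rcases hn.lt_or_eq with k | k
  · have := (z0_absorb (th ω n) h (EE_in_pos (ω := ω) (C := C) (X := Y) (by
      rw [th_apply']; exact neg_pos.2 (by exact_mod_cast k))) (one_in0' _)).1
    rw [mul_one] at this
    rw [this]
  · have := (z0_side (th ω n) h (EE_in_ker (ω := ω) (C := C) (X := Y) (by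
      rw [th_apply', k]; simp)) (one_in_ker _)).1
    rw [mul_one, mul_one] at this
    have hp : (z0 (th ω n) h).1.In {m | ω.w n m = 0} := fun m hm => by
      have := z0_in (th ω n) h m hm
      simpa [th_apply'] using this
    rw [this, ell_mul_perp δ hp, ell_EE_zero hδ]
    simp

theorem att_base [DecidableEq L] {db : L →+ ℤ} {Y n : L} {J : Finset L} (hY : db Y = 0)
    (hJ : ∀ e ∈ J, 0 < db e) (h0 : n ≠ 0) (hn : db n ≤ 0) (hw : ω.w n Y = 0) (δ : L →+ ℤ) :
    Att δ (EE ω C Y) n = ∑ e ∈ insert Y J, (ell δ (EE ω C e)).f n := by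
  have := (fac3 (th ω n) (one_in0' _) (EE_in_ker (ω := ω) (C := C) (X := Y) (by
    rw [th_apply', hw]; simp)) (one_in0' _)).1
  rw [one_mul, mul_one] at this
  rw [Att, this, sum_insert fun h => (hJ Y h).ne' hY, sum_eq_zero, add_zero]
  intro e he
  by_contra k
  obtain ⟨j, rfl⟩ := ell_EE_mult δ e k
  have h1 := hJ e he
  rw [map_nsmul, nsmul_eq_mul] at hn
  rcases Nat.eq_zero_or_pos j with rfl | hj
  · exact h0 (zero_smul _ _)
  · exact absurd hn (not_le.2 (by positivity))

section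
variable [DecidableEq L] {X : L} {Γ : AddSubmonoid L} {db la la' : L →+ ℤ} {I J : Finset L}
  {g gh : G ω C} {g' gh' : G ω C'}

omit [DecidableEq L] in
theorem Mut.db_car (M : Mut ω C C' X Γ db la la') : ∀ n ∈ C.car, 0 ≤ db n :=
  fun n hn => M.db0 n ((M.car n).1 hn).1

omit [DecidableEq L] in
theorem Mut.db_car' (M : Mut ω C C' X Γ db la la') : ∀ n ∈ C'.car, 0 ≤ db n :=
  fun n hn => M.db0 n ((M.car' n).1 hn).1

omit [DecidableEq L] in
theorem Mut.w_zero (M : Mut ω C C' X Γ db la la') {n : L} (h : n ∈ Γ) (h' : db n ≤ 0) :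
    ω.w n X = 0 := by
  obtain ⟨k, rfl⟩ := M.dbz n h (le_antisymm h' (M.db0 n h))
  simp [ω.alt]

theorem Mut.base (M : Mut ω C C' X Γ db la la') (hI : MutI ω C C' X db la' I)
    (hg : IsInit (insert X I) g) : A.Cong {m | db m ≤ 0} g.1 (EE ω C X).1 :=
  cong_of_att (lower_db M.db_car 0) fun n hn hc h0 => by
    rw [hg n hc h0, att_base M.dbX (fun e he => (hI e he).2.2.2) h0 hn
      (M.w_zero ((M.car n).1 hc).1 hn)]

theorem Mut.att_g (M : Mut ω C C' X Γ db la la') (hI : MutI ω C C' X db la' I)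
    (hg : IsInit (insert X I) g) {n : L} (h0 : n ≠ 0) :
    Att db g n = ∑ e ∈ I, (ell db (EE ω C e)).f n := by
  by_cases hn : n ∈ C.car
  · rw [hg.att db hn h0, sum_insert fun h => (hI X h).2.2.2.ne' M.dbX, ell_EE_zero M.dbX]
    simp
  · rw [Att, A.eq_zero hn, sum_eq_zero fun e _ => A.eq_zero hn]

omit [DecidableEq L] in
theorem in_psz {h : G ω C} (e : A.Cong {m | db m ≤ 0} h.1 1) : h.1.In (psz db) := fun n hn => by
  by_contra k
  have k1 : n ≠ 0 := fun z => k (Or.inl z)
  have k2 : db n ≤ 0 := not_lt.1 fun z => k (Or.inr z)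
  rw [e n k2, A.one_f, if_neg k1] at hn
  exact hn rfl

theorem Mut.psz (M : Mut ω C C' X Γ db la la') (hI : MutI ω C C' X db la' I)
    (hg : IsInit (insert X I) g) :
    A.Cong {m | db m ≤ 0} (g * (EE ω C X)⁻¹).1 1 ∧ A.Cong {m | db m ≤ 0} ((EE ω C X)⁻¹ * g).1 1 := by
  have h1 := (M.base hI hg).mul (lower_db M.db_car 0) (A.Cong.refl _ ((EE ω C X)⁻¹).1)
  have h2 := (A.Cong.refl _ ((EE ω C X)⁻¹).1).mul (lower_db M.db_car 0) (M.base hI hg)
  rw [G.mul_inv_val] at h1
  rw [G.inv_mul_val] at h2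
  exact ⟨h1, h2⟩

theorem Mut.supp (M : Mut ω C C' X Γ db la la') (hI : MutI ω C C' X db la' I)
    (hg : IsInit (insert X I) g) :
    (g * (EE ω C X)⁻¹).1.In (nnz la') ∧ ((EE ω C X)⁻¹ * g).1.In (nnz (la' + ω.w.flip X)) := by
  obtain ⟨p1, p2⟩ := (M.psz hI hg).imp in_psz in_psz
  set hm := g * (EE ω C X)⁻¹ with e1
  set hp := (EE ω C X)⁻¹ * g with e2
  have g1 : g = hm * EE ω C X := by rw [e1, inv_mul_cancel_right]
  have g2 : g = EE ω C X * hp := by rw [e2, mul_inv_cancel_left]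
  have e : (EE ω C X).1 * hp.1 = hm.1 * (EE ω C X).1 := congrArg Subtype.val (g2.symm.trans g1)
  have van : ∀ (U : AddSubmonoid L), (∀ e ∈ I, e ∈ U) → ∀ n ∉ U, Att db g n = 0 := fun U hU n hn => by
    rw [M.att_g hI hg (n := n) fun z => hn (z ▸ U.zero_mem)]
    refine sum_eq_zero fun e he => by_contra fun k => ?_
    obtain ⟨j, rfl⟩ := ell_EE_mult db e k
    exact hn (U.nsmul_mem (hU e he) j)
  have key : ∀ D : ℕ, ∀ n, db n = D → (hm.1.f n ≠ 0 → n ∈ nnz la') ∧
      (hp.1.f n ≠ 0 → n ∈ nnz (la' + ω.w.flip X)) := by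
    intro D
    induction D using Nat.strong_induction_on with
    | _ D ih =>
    rcases Nat.eq_zero_or_pos D with rfl | hD
    · intro n hn
      constructor
      · intro k
        rcases p1 n k with rfl | k'
        · exact AddSubmonoid.zero_mem _
        · omega
      · intro k
        rcases p2 n k with rfl | k'
        · exact AddSubmonoid.zero_mem _
        · omega
    have low : ∀ m ∈ C.car, db m < D → (hm.1.f m ≠ 0 → m ∈ nnz la') ∧
        (hp.1.f m ≠ 0 → m ∈ nnz (la' + ω.w.flip X)) := fun m hc hlt => by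
      have := M.db_car m hc
      exact ih (db m).toNat (by omega) m (by omega)
    have a1 : ∀ n, db n = D → 0 ≤ ω.w n X → hm.1.f n ≠ 0 → n ∈ nnz la' := fun n hn hw k => by
      by_contra hU
      refine k (top_vanish M.db_car p1 (nnz la') (by omega) hU
        (fun m h1 h2 => (low m (hm.1.supp m h2) (by omega)).1 h2) ?_)
      rw [← att_right M.dbX hw, ← g1]
      exact van _ (fun e he => ((M.car' e).1 (hI e he).2.1).2) n hU
    have a2 : ∀ n, db n = D → ω.w n X ≤ 0 → hp.1.f n ≠ 0 → n ∈ nnz (la' + ω.w.flip X) :=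
      fun n hn hw k => by
        by_contra hU
        refine k (top_vanish M.db_car p2 _ (by omega) hU
          (fun m h1 h2 => (low m (hp.1.supp m h2) (by omega)).2 h2) ?_)
        rw [← att_left M.dbX hw, ← g2]
        exact van _ (fun e he => (hI e he).2.2.1) n hU
    intro n hn
    rcases le_total 0 (ω.w n X) with hw | hw
    · refine ⟨a1 n hn hw, fun k => ?_⟩
      obtain ⟨j, hj, k'⟩ := line_pos M.mem M.ne e hw k
      have : 0 ≤ la' (n - j • X) := a1 _ (by simp [M.dbX, hn]) (by simpa [ω.alt] using hw) k'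
      simp only [map_sub, map_nsmul, M.laX', nsmul_eq_mul] at this
      show 0 ≤ la' n + ω.w n X
      omega
    · refine ⟨fun k => ?_, a2 n hn hw⟩
      obtain ⟨j, hj, k'⟩ := line_neg M.mem M.ne e hw k
      have : 0 ≤ la' (n - j • X) + ω.w (n - j • X) X :=
        a2 _ (by simp [M.dbX, hn]) (by simpa [ω.alt] using hw) k'
      simp only [map_sub, map_nsmul, M.laX', nsmul_eq_mul, AddMonoidHom.sub_apply,
        AddMonoidHom.nsmul_apply, ω.alt, mul_zero, sub_zero] at this
      show 0 ≤ la' n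
      omega
  constructor
  · intro n hn
    have := M.db_car n (hm.1.supp n hn)
    exact (key (db n).toNat n (by omega)).1 hn
  · intro n hn
    have := M.db_car n (hp.1.supp n hn)
    exact (key (db n).toNat n (by omega)).2 hn

theorem Mut.core (M : Mut ω C C' X Γ db la la') (hI : MutI ω C C' X db la' I)
    (hg : IsInit (insert X I) g) (hg' : IsInit (insert (-X) (I.image (tau ω X))) g') :
    ∃ hm' hp' : G ω C', Tr (AddEquiv.refl L) (g * (EE ω C X)⁻¹).1 hm'.1 ∧
      Tr (shear ω X) ((EE ω C X)⁻¹ * g).1 hp'.1 ∧ g' = EE ω C' (-X) * hm' ∧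
      g' = hp' * EE ω C' (-X) := by
  obtain ⟨s1, s2⟩ := M.supp hI hg
  obtain ⟨hm', t1⟩ := Tr.existsG (S := AddEquiv.refl L) (C' := C') (g * (EE ω C X)⁻¹) fun n hn =>
    (M.car' n).2 ⟨((M.car n).1 (A.supp _ n hn)).1, s1 n hn⟩
  have t2 : Tr (shear ω X) ((EE ω C X)⁻¹ * g).1 (EE ω C' (-X) * hm' * (EE ω C' (-X))⁻¹).1 :=
    M.tr_shear (a' := hm'.1) (by
      rw [Tr.refl_iff.1 t1]
      show _ = (EE ω C X * ((EE ω C X)⁻¹ * g) * (EE ω C X)⁻¹).1.f
      rw [mul_inv_cancel_left]) s2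
  have dX : db (-X) = 0 := by rw [map_neg, M.dbX, neg_zero]
  have dt : ∀ e, db (tau ω X e) = db e := fun e => by simp [tau, M.dbX]
  have hJ : ∀ e ∈ I.image (tau ω X), 0 < db e := fun e he => by
    obtain ⟨e', he', rfl⟩ := mem_image.1 he
    rw [dt]; exact (hI e' he').2.2.2
  have init : IsInit (insert (-X) (I.image (tau ω X))) (EE ω C' (-X) * hm') := by
    refine isInit_of fun n hn h0 => ?_
    rcases (M.db_car' n hn).eq_or_lt with hd | hd
    · refine ⟨C'.deg, (C'.pos n hn h0).ne', ?_⟩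
      have hΛ := lower_db M.db_car' 0
      have c1 : A.Cong {m | db m ≤ 0} hm'.1 1 := fun m hm => (t1 m).trans ((M.psz hI hg).1 m hm)
      have c2 := (A.Cong.refl _ (EE ω C' (-X)).1).mul hΛ c1
      rw [mul_one] at c2
      rw [← att_base dX hJ h0 hd.ge (by rw [map_neg, M.w_zero ((M.car' n).1 hn).1 hd.ge, neg_zero])]
      exact ell_cong hΛ _ (z0_cong hΛ (fun _ _ => ⟨Iff.rfl, Iff.rfl⟩)
        (g := EE ω C' (-X) * hm') (g' := EE ω C' (-X)) c2).1 n hd.ge
    refine ⟨db, hd.ne', ?_⟩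
    rw [sum_insert fun h => (hJ _ h).ne' dX, ell_EE_zero dX,
      sum_image fun _ _ _ _ e => tau_inj X e, A.zero_f, Pi.zero_apply, zero_add]
    have neg : ∀ (D : Cone L) (e p : L), p ≠ 0 → 0 ≤ ω.w p X → ω.w e X < 0 →
        (ell db (EE ω D e)).f p = 0 := fun D e p hp h1 h2 => by
      by_contra k
      obtain ⟨j, rfl⟩ := ell_EE_mult db e k
      simp only [map_nsmul, AddMonoidHom.nsmul_apply, nsmul_eq_mul] at h1
      rcases Nat.eq_zero_or_pos j with rfl | hj
      · exact hp (zero_smul _ _)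
      · exact absurd h1 (not_le.2 (mul_neg_of_pos_of_neg (by exact_mod_cast hj) h2))
    have pos : ∀ (D : Cone L) (e p : L), ω.w p X < 0 → 0 ≤ ω.w e X →
        (ell db (EE ω D e)).f p = 0 := fun D e p h1 h2 => by
      by_contra k
      obtain ⟨j, rfl⟩ := ell_EE_mult db e k
      simp only [map_nsmul, AddMonoidHom.nsmul_apply, nsmul_eq_mul] at h1
      exact absurd h1 (not_lt.2 (by positivity))
    rcases le_or_gt 0 (ω.w n X) with hw | hw
    · rw [att_left dX (by rw [map_neg]; omega)]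
      have := Tr.Att ω.pres_refl (δ := db) (δ' := db) (fun _ => rfl) t1 n
      rw [AddEquiv.refl_apply] at this
      rw [this, ← att_right M.dbX hw, inv_mul_cancel_right, M.att_g hI hg h0]
      refine sum_congr rfl fun e he => ?_
      rcases le_or_gt 0 (ω.w e X) with k | k
      · rw [tau_of_nonneg k]
        exact (Tr.ell ω.pres_refl (δ := db) (δ' := db) (fun _ => rfl)
          (Tr.EE (S := AddEquiv.refl L) (hI e he).1 (hI e he).2.1) n).symm
      · rw [neg C e n h0 hw k, neg C' _ n h0 hw (by rwa [tau_w])]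
    · obtain ⟨p, rfl⟩ := (shear ω X).surjective n
      have hp : p ≠ 0 := fun z => h0 (by rw [z, map_zero])
      have hw' : ω.w p X < 0 := by rwa [shear_w] at hw
      rw [← inv_mul_cancel_right (EE ω C' (-X) * hm') (EE ω C' (-X)),
        att_right dX (by rw [map_neg]; omega), Tr.Att (shear_pres X) M.db_shear t2 p,
        ← att_left M.dbX hw'.le, mul_inv_cancel_left, M.att_g hI hg hp]
      refine sum_congr rfl fun e he => ?_
      rcases le_or_gt 0 (ω.w e X) with k | k
      · rw [pos C e p hw' k, pos C' _ _ hw (by rwa [tau_w])]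
      · rw [tau_of_nonpos k.le]
        exact (Tr.ell (shear_pres X) M.db_shear
          (Tr.EE (hI e he).1 (M.shear_mem (hI e he).1 (hI e he).2.2.1)) p).symm
  have eq : g' = EE ω C' (-X) * hm' := G.eq_of_cong (cong_of_att C'.lower_univ
    fun n _ hn h0 => (hg' n hn h0).trans (init n hn h0).symm)
  exact ⟨hm', _, t1, t2, eq, by rw [inv_mul_cancel_right, eq]⟩

set_option linter.unusedSectionVars false in
theorem mut_fin (M : Mut ω C C' X Γ db la la') {a : A ω C} {a' : A ω C'}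
    (h : a'.f = (Ad (EE ω C X) a).f) (hfin : (Function.support a.f).Finite) :
    a.In {n | 0 ≤ la' n + ω.w n X} := by
  intro n hn
  have hl : ∀ p, (Ad (EE ω C X) a).f p ≠ 0 → 0 ≤ la' p := fun p hp =>
    ((M.car' p).1 (a'.supp p (by rwa [h]))).2
  show 0 ≤ la' n + ω.w n X
  rcases le_total 0 (ω.w n X) with hw | hw
  · obtain ⟨j, hj, k⟩ := line_pos M.mem M.ne (Ad_comm' _ a) hw hn
    have := hl _ k
    simp only [map_sub, map_nsmul, M.laX', nsmul_eq_mul] at this
    omega
  · obtain ⟨m, hm⟩ := Int.eq_ofNat_of_zero_le (neg_nonneg.2 hw)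
    have fin : {k : ℕ | a.f (n + k • X) ≠ 0}.Finite :=
      hfin.preimage (f := fun k : ℕ => n + k • X)
        fun i _ j _ e => G1_inj M.mem M.ne (add_left_cancel e)
    obtain ⟨k, hk, top⟩ := fin.exists_maximal ⟨0, by simpa using hn⟩
    have : (Ad (EE ω C X) a).f (n + k • X + m • X) ≠ 0 := by
      rw [Ad_EE M.mem M.ne a (m := m) (by simp [ω.alt]; omega), sum_range_succ, qb_self, one_mul,
        add_sub_cancel_right, sum_eq_zero, zero_add]
      · exact hk
      · intro j hj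
        have hj' := mem_range.1 hj
        have e : n + k • X + m • X - j • X = n + (k + (m - j)) • X := by
          rw [add_nsmul, G1_sub X hj'.le]; abel
        rw [e]
        by_contra z
        have := top (fun z' : a.f (n + (k + (m - j)) • X) = 0 => z (by rw [z', mul_zero]))
          (Nat.le_add_right _ _)
        omega
    have := hl _ this
    simp only [map_add, map_nsmul, M.laX', nsmul_eq_mul] at this
    omega

theorem mut_init (M : Mut ω C C' X Γ db la la') (hI : MutI ω C C' X db la' I)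
    (hg : IsInit (insert X I) g) (hg' : IsInit (insert (-X) (I.image (tau ω X))) g') :
    ((EE ω C X)⁻¹ * g).1.In {n | 0 ≤ la' n + ω.w n X} ∧
      ((EE ω C' (-X))⁻¹ * g').1.f = (g * (EE ω C X)⁻¹).1.f := by
  obtain ⟨hm', hp', t1, -, e1, -⟩ := M.core hI hg hg'
  refine ⟨(M.supp hI hg).2, ?_⟩
  rw [e1, inv_mul_cancel_left]
  exact Tr.refl_iff.1 t1

omit [DecidableEq L] in
theorem fc_left {θ : L →+ ℚ} {Y : L} (h : 0 ≤ θ Y) (k : G ω C) :
    fc θ (EE ω C Y * k) = fc θ k := by
  rcases h.lt_or_eq with h | h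
  · simpa using (z0_absorb θ k (EE_in_pos (ω := ω) (C := C) h) (one_in0' _)).2
  · simpa using (z0_side θ k (EE_in_ker (ω := ω) (C := C) h.symm) (one_in_ker _)).2

omit [DecidableEq L] in
theorem fc_right_neg {θ : L →+ ℚ} {Y : L} (h : θ Y < 0) (k : G ω C) :
    fc θ (k * EE ω C Y) = fc θ k * EE ω C Y := by
  simpa using (z0_absorb θ k (one_in0' _) (EE_in_neg (ω := ω) (C := C) h)).2

omit [DecidableEq L] in
theorem fc_right_zero {θ : L →+ ℚ} {Y : L} (h : θ Y = 0) (k : G ω C) :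
    fc θ (k * EE ω C Y) = (EE ω C Y)⁻¹ * fc θ k * EE ω C Y := by
  simpa using (z0_side θ k (one_in_ker _) (EE_in_ker (ω := ω) (C := C) h)).2

theorem mut_att (M : Mut ω C C' X Γ db la la') (hI : MutI ω C C' X db la' I)
    (hg : IsInit (insert X I) g) (hg' : IsInit (insert (-X) (I.image (tau ω X))) g')
    {F : A ω C} {F' : A ω C'} (h : F'.f = (Ad (EE ω C X) F).f)
    (hF : F.In {n | 0 ≤ la' n + ω.w n X}) (p : L) : att g F p = att g' F' (tau ω X p) := by
  obtain ⟨hm', hp', t1, t2, e1, e2⟩ := M.core hI hg hg'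
  unfold att
  rcases le_or_gt 0 (ω.w p X) with hw | hw
  · have hw' : (0 : ℚ) ≤ ω.w p X := by exact_mod_cast hw
    have k := Tr.Ad ω.pres_refl (Tr.fac ω.pres_refl (θ := th ω p) (θ' := th ω p) (fun _ => rfl) t1).2
      (Tr.refl_iff.2 h) p
    rw [AddEquiv.refl_apply] at k
    rw [tau_of_nonneg hw, e1, fc_left (by rw [map_neg, th_apply', neg_neg]; exact hw'), k,
      ← inv_mul_cancel_right g (EE ω C X)]
    rcases hw.lt_or_eq with z | z
    · rw [fc_right_neg (by rw [th_apply']; exact neg_neg_of_pos (by exact_mod_cast z)), Ad_mul',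
        inv_mul_cancel_right]
    · rw [fc_right_zero (by rw [th_apply', ← z]; simp), mul_assoc, Ad_mul', Ad_mul',
        inv_mul_cancel_right]
      exact Ad_apply_perp (A.In.inv (ω.w p).ker.toAddSubmonoid (EE_in_kerz z.symm)) _
  · have hw' : (ω.w p X : ℚ) < 0 := by exact_mod_cast hw
    have k := Tr.Ad (shear_pres X) (Tr.fac (shear_pres X) ((shear_pres X).th p) t2).2
      (M.tr_shear h hF) p
    rw [tau_of_nonpos hw.le, e2, fc_right_neg (by
      rw [map_neg, th_apply', neg_neg, shear_w]; exact hw'), Ad_mul', k,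
      ← mul_inv_cancel_left (EE ω C X) g, fc_left (by rw [th_apply']; linarith),
      mul_inv_cancel_left]

theorem mut_fc (M : Mut ω C C' X Γ db la la') (hI : MutI ω C C' X db la' I)
    (hg : IsInit (insert X I) g) (hg' : IsInit (insert (-X) (I.image (tau ω X))) g')
    (θ : L →+ ℚ) (hθ : θ X ≤ 0) (S : AddSubmonoid L) (hX : X ∈ S) (h : (fc θ g).1.In S) :
    (fc θ g').1.In S := by
  obtain ⟨hm', hp', t1, -, e1, -⟩ := M.core hI hg hg'
  rw [e1, fc_left (by rw [map_neg]; linarith)]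
  refine (Tr.fac ω.pres_refl (θ := θ) (θ' := θ) (fun _ => rfl) t1).2.In ?_
  have hE : (EE ω C X).1.In S := EE_in S hX
  rw [← inv_mul_cancel_right g (EE ω C X)] at h
  rcases hθ.lt_or_eq with z | z
  · rw [fc_right_neg z] at h
    have := A.In.mul_sub S h (A.In.inv S hE)
    change (fc θ (g * (EE ω C X)⁻¹) * EE ω C X * (EE ω C X)⁻¹).1.In S at this
    rwa [mul_inv_cancel_right] at this
  · rw [fc_right_zero z] at h
    have := A.In.mul_sub S hE (A.In.mul_sub S h (A.In.inv S hE))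
    change (EE ω C X * ((EE ω C X)⁻¹ * fc θ (g * (EE ω C X)⁻¹) * EE ω C X *
      (EE ω C X)⁻¹)).1.In S at this
    rwa [mul_inv_cancel_right, mul_inv_cancel_left] at this

theorem mut_xi (M : Mut ω C C' X Γ db la la') (hI : MutI ω C C' X db la' I)
    (hJ : MutI ω C C' X db la' J)
    (hg : IsInit (insert X I) g) (hg' : IsInit (insert (-X) (I.image (tau ω X))) g')
    (hgh : IsInit (insert X J) gh) (hgh' : IsInit (insert (-X) (J.image (tau ω X))) gh')
    (y : L →+ ℤ) (hy : y X = 0) :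
    (xi y g' gh').f = (Ad (EE ω C X) (xi y g gh)).f ∧
      (xi y g gh).In {n | 0 ≤ la' n + ω.w n X} := by
  obtain ⟨hm', -, t1, -, e1, -⟩ := M.core hI hg hg'
  obtain ⟨km', -, u1, -, f1, -⟩ := M.core hJ hgh hgh'
  constructor
  · have k : Tr (AddEquiv.refl L) ((g * (EE ω C X)⁻¹)⁻¹ * (gh * (EE ω C X)⁻¹)).1 (hm'⁻¹ * km').1 :=
      Tr.mul ω.pres_refl (Tr.inv ω.pres_refl t1) u1
    have e : ((g * (EE ω C X)⁻¹)⁻¹ * (gh * (EE ω C X)⁻¹)).1 = Ad (EE ω C X) (g⁻¹ * gh).1 := by
      show _ = (EE ω C X * (g⁻¹ * gh) * (EE ω C X)⁻¹).1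
      simp only [mul_inv_rev, inv_inv, mul_assoc]
    have e' : g'⁻¹ * gh' = hm'⁻¹ * km' := by
      rw [e1, f1, mul_inv_rev, mul_assoc, inv_mul_cancel_left]
    rw [xi, xi, Ad_smul', ← res_Ad (EE_in_kerz hy), ← e, e']
    exact Tr.refl_iff.1 (Tr.smul _ (k.res fun _ => Iff.rfl))
  · have e : g⁻¹ * gh = ((EE ω C X)⁻¹ * g)⁻¹ * ((EE ω C X)⁻¹ * gh) := by
      rw [mul_inv_rev, inv_inv, mul_assoc, mul_inv_cancel_left]
    have k : (g⁻¹ * gh).1.In (nnz (la' + ω.w.flip X)) := by
      rw [e]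
      exact A.In.mul_sub _ (A.In.inv _ (M.supp hI hg).2) (M.supp hJ hgh).2
    intro n hn
    refine k.res (S := {n | y n = 1}) n fun z => hn ?_
    rw [xi, A.smul_f, Pi.smul_apply, z, smul_zero]
end

end Pool.Agent.Lib.MP_33bfb2_co.Th
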