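import Pool.Agent.Lib.MP_33bfb2_co.Th.ADefs

/-! Lattice geometry for the flow argument: small perturbations, parallel vectors, slopes. -/

namespace Pool.Agent.Lib.MP_33bfb2_co.Th

open Finset Filter Topology

variable {L : Type} [AddCommGroup L] {ω : Skew L} {C : Cone L}

/-- Rational functionals separate the points of L. -/
def PSep (L : Type) [AddCommGroup L] : Prop := ∀ x : L, x ≠ 0 → ∃ φ : L →+ ℚ, φ x ≠ 0

theorem PSep.cancel (h : PSep L) {k : ℤ} (hk : k ≠ 0) {a b : L} (e : k • a = k • b) : a = b := by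
  by_contra ne
  obtain ⟨φ, hφ⟩ := h (a - b) (sub_ne_zero.2 ne)
  have h1 : φ (k • a) = φ (k • b) := by rw [e]
  rw [map_zsmul, map_zsmul, zsmul_eq_mul, zsmul_eq_mul] at h1
  have h2 := mul_left_cancel₀ (show (k : ℚ) ≠ 0 by exact_mod_cast hk) h1
  exact hφ (by rw [map_sub, h2, sub_self])

theorem P_eps (F : Finset L) (θ ξ : L →+ ℚ) : ∃ ε : ℚ, 0 < ε ∧ ∀ a ∈ F,
    (0 < θ a → 0 < θ a + ε * ξ a) ∧ (θ a < 0 → θ a + ε * ξ a < 0) := by
  have h : ∀ᶠ ε in 𝓝[>] (0 : ℚ), ∀ a ∈ F,
      (0 < θ a → 0 < θ a + ε * ξ a) ∧ (θ a < 0 → θ a + ε * ξ a < 0) := by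
    refine (eventually_all_finset F).2 fun a _ => eventually_nhdsWithin_of_eventually_nhds ?_
    have t : Tendsto (fun ε : ℚ => θ a + ε * ξ a) (𝓝 0) (𝓝 (θ a)) := by
      have c : Continuous fun ε : ℚ => θ a + ε * ξ a := by fun_prop
      simpa using c.tendsto 0
    refine Eventually.and ?_ ?_
    · by_cases p : 0 < θ a
      · exact (t.eventually (lt_mem_nhds p)).mono fun _ h _ => h
      · exact Eventually.of_forall fun _ h => absurd h p
    · by_cases p : θ a < 0
      · exact (t.eventually (gt_mem_nhds p)).mono fun _ h _ => h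
      · exact Eventually.of_forall fun _ h => absurd h p
  obtain ⟨ε, h1, h2⟩ := (h.and self_mem_nhdsWithin).exists
  exact ⟨ε, h2, h1⟩

theorem Cone.Par.refl (C : Cone L) (a : L) : C.Par a a := rfl

theorem Cone.Par.symm {a b : L} (h : C.Par a b) : C.Par b a := Eq.symm h

theorem Cone.Par.map {a b : L} (h : C.Par a b) (φ : L →+ ℚ) :
    (C.deg b : ℚ) * φ a = C.deg a * φ b := by
  have h1 : φ (C.deg b • a) = φ (C.deg a • b) := congrArg φ h
  rwa [map_zsmul, map_zsmul, zsmul_eq_mul, zsmul_eq_mul] at h1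

theorem Cone.Par.kill {a b : L} (h : C.Par a b) (hb : 0 < C.deg b) {φ : L →+ ℚ} (e : φ b = 0) :
    φ a = 0 := by
  have h1 := h.map φ
  rw [e, mul_zero] at h1
  exact (mul_eq_zero.1 h1).resolve_left (by exact_mod_cast hb.ne')

theorem Cone.Par.trans (hs : PSep L) {a b c : L} (h : C.Par a b) (h' : C.Par b c)
    (hb : 0 < C.deg b) : C.Par a c := by
  refine hs.cancel hb.ne' ?_
  have e1 : C.deg b • a = C.deg a • b := h
  have e2 : C.deg c • b = C.deg b • c := h'
  rw [smul_comm, e1, smul_comm, e2, smul_comm]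

theorem Cone.Par.eq (hs : PSep L) {a b : L} (h : C.Par a b) (hb : 0 < C.deg b)
    (e : C.deg a = C.deg b) : a = b := by
  refine hs.cancel hb.ne' ?_
  have e1 : C.deg b • a = C.deg a • b := h
  rw [e1, e]

theorem P_th (n x : L) : th ω n x = - (ω.w n x : ℚ) := by simp [th]

theorem P_th_self (n : L) : th ω n n = 0 := by rw [P_th, ω.alt]; simp

theorem Cone.Par.w_zero {a b : L} (h : C.Par a b) (hb : 0 < C.deg b) : ω.w b a = 0 := by
  have h1 := h.kill hb (P_th_self (ω := ω) b)
  rw [P_th, neg_eq_zero] at h1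
  exact_mod_cast h1

/-- The vectors parallel to n. -/
def PRay (C : Cone L) (n : L) : AddSubgroup L where
  carrier := {a | C.Par a n}
  zero_mem' := by simp [Cone.Par]
  add_mem' := fun {a b} ha hb => by
    have e1 : C.deg n • a = C.deg a • n := ha
    have e2 : C.deg n • b = C.deg b • n := hb
    show C.deg n • (a + b) = C.deg (a + b) • n
    rw [smul_add, e1, e2, map_add, add_smul]
  neg_mem' := fun {a} ha => by
    have e1 : C.deg n • a = C.deg a • n := ha
    show C.deg n • (-a) = C.deg (-a) • n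
    rw [smul_neg, e1, map_neg, neg_smul]

/-- A functional that kills the ray of n but not a given vector off the ray. -/
theorem P_sep_ray (hs : PSep L) {n y : L} (h : ¬ C.Par y n) :
    ∃ ξ : L →+ ℚ, ξ y ≠ 0 ∧ ∀ a, C.Par a n → ξ a = 0 := by
  obtain ⟨φ, hφ⟩ := hs (C.deg n • y - C.deg y • n) (sub_ne_zero.2 h)
  refine ⟨φ.comp (AddMonoidHom.mk' (fun x => C.deg n • x - C.deg x • n) fun a b => by
    rw [smul_add, map_add, add_smul]; abel), hφ, fun a ha => ?_⟩
  have e1 : C.deg n • a = C.deg a • n := ha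
  simp [e1]

/-- Perturbation that keeps all strict signs on M, keeps killing the ray of n and kills no vector
of Y off the ray. -/
theorem P_perturb (hs : PSep L) (M : Finset L) (n : L) (θ : L →+ ℚ)
    (hθ : ∀ a, C.Par a n → θ a = 0) (Y : Finset L) : ∃ θ' : L →+ ℚ,
      (∀ a, C.Par a n → θ' a = 0) ∧ (∀ a ∈ M, (0 < θ a → 0 < θ' a) ∧ (θ a < 0 → θ' a < 0)) ∧
      ∀ y ∈ Y, θ' y = 0 → C.Par y n := by
  classical
  induction Y using Finset.induction_on with
  | empty => exact ⟨θ, hθ, fun _ _ => ⟨id, id⟩, fun _ h => absurd h (notMem_empty _)⟩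
  | insert y Y _ ih =>
    obtain ⟨θ1, h1, h2, h3⟩ := ih
    by_cases p : C.Par y n
    · refine ⟨θ1, h1, h2, fun z hz e => ?_⟩
      rcases mem_insert.1 hz with rfl | hz
      · exact p
      · exact h3 z hz e
    obtain ⟨ξ, x1, x2⟩ := P_sep_ray hs p
    obtain ⟨ε, e0, e1⟩ := P_eps (M ∪ insert y Y) θ1 ξ
    refine ⟨θ1 + ε • ξ, fun a ha => by simp [h1 a ha, x2 a ha], fun a ha => ?_, fun z hz e => ?_⟩
    · have := e1 a (mem_union_left _ ha)
      exact ⟨fun q => this.1 ((h2 a ha).1 q), fun q => this.2 ((h2 a ha).2 q)⟩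
    · have k1 := e1 z (mem_union_right _ hz)
      have k2 : θ1 z + ε * ξ z = 0 := e
      rcases lt_trichotomy (θ1 z) 0 with q | q | q
      · exact absurd k2 (k1.2 q).ne
      · rcases mem_insert.1 hz with rfl | hz
        · rw [q, zero_add] at k2
          exact absurd k2 (mul_ne_zero e0.ne' x1)
        · exact h3 z hz q
      · exact absurd k2 (k1.1 q).ne'

/-- The test vector of a pair. -/
def Pyy (ω : Skew L) (n a b : L) : L := ω.w n b • a - ω.w n a • b

theorem Pyy_map (n a b : L) (φ : L →+ ℚ) :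
    φ (Pyy ω n a b) = ω.w n b * φ a - ω.w n a * φ b := by
  simp [Pyy]

theorem Pyy_th (n a b : L) : th ω n (Pyy ω n a b) = 0 := by
  rw [Pyy_map, P_th, P_th]; ring

/-- The rank two identity. -/
theorem P_id (hs : PSep L) {n a b : L} (hn : 0 < C.deg n) (h : C.Par (Pyy ω n a b) n)
    (ha : ω.w n a = 0 → C.Par a n) : Pyy ω n a b = ω.w a b • n := by
  refine hs.cancel hn.ne' ?_
  have e1 : C.deg n • Pyy ω n a b = C.deg (Pyy ω n a b) • n := h
  rw [e1, smul_smul]
  congr 1
  by_cases z : ω.w n a = 0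
  · have e2 : C.deg n • a = C.deg a • n := ha z
    have e3 := congrArg (fun x => ω.w x b) e2
    simp only [map_zsmul, AddMonoidHom.smul_apply, smul_eq_mul] at e3
    simp only [Pyy, z, zero_smul, sub_zero, map_zsmul, smul_eq_mul]
    linarith
  · have e3 := congrArg (fun x => ω.w x a) e1
    simp only [Pyy, map_zsmul, map_sub, AddMonoidHom.smul_apply, AddMonoidHom.sub_apply,
      smul_eq_mul, ω.alt, ω.skew b a] at e3
    refine mul_right_cancel₀ z ?_
    simp only [Pyy, map_zsmul, map_sub, smul_eq_mul]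
    linarith

theorem P_id_closure {n : L} {Z : Set L} (h : ∀ a ∈ Z, ∀ b ∈ Z, Pyy ω n a b = ω.w a b • n)
    {a b : L} (ha : a ∈ AddSubmonoid.closure Z) (hb : b ∈ AddSubmonoid.closure Z) :
    Pyy ω n a b = ω.w a b • n := by
  induction ha using AddSubmonoid.closure_induction with
  | zero => simp [Pyy]
  | add a a' _ _ h1 h2 =>
    have : Pyy ω n (a + a') b = Pyy ω n a b + Pyy ω n a' b := by
      simp only [Pyy, map_add, smul_add, add_smul]; abel
    rw [this, h1, h2, map_add, AddMonoidHom.add_apply, add_smul]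
  | mem a ha =>
    induction hb using AddSubmonoid.closure_induction with
    | zero => simp [Pyy]
    | add b b' _ _ h1 h2 =>
      have : Pyy ω n a (b + b') = Pyy ω n a b + Pyy ω n a b' := by
        simp only [Pyy, map_add, smul_add, add_smul]; abel
      rw [this, h1, h2, map_add, add_smul]
    | mem b hb => exact h a ha b hb

/-- The functional that compares the slope with σ. -/
def Psl (ω : Skew L) (C : Cone L) (n : L) (σ : ℚ) : L →+ ℚ :=
  th ω n - σ • (Int.castAddHom ℚ).comp C.deg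

theorem Psl_apply (n : L) (σ : ℚ) (x : L) : Psl ω C n σ x = th ω n x - σ * C.deg x := by
  simp [Psl]

theorem P_id_slope {n a b : L} (h : Pyy ω n a b = ω.w a b • n) {σ τ : ℚ}
    (ha : Psl ω C n σ a = 0) (hb : Psl ω C n τ b = 0) :
    (ω.w a b : ℚ) * C.deg n = C.deg a * C.deg b * (σ - τ) := by
  have e := congrArg C.deg h
  simp only [Pyy, map_sub, map_zsmul, smul_eq_mul] at e
  have e' : (ω.w n b : ℚ) * C.deg a - ω.w n a * C.deg b = ω.w a b * C.deg n := by exact_mod_cast e
  rw [Psl_apply, P_th] at ha hb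
  have h1 : (ω.w n a : ℚ) = - (σ * C.deg a) := by linarith
  have h2 : (ω.w n b : ℚ) = - (τ * C.deg b) := by linarith
  rw [← e', h1, h2]
  ring

theorem P_id_par (hs : PSep L) {n a b : L} (hn : 0 < C.deg n)
    (h : Pyy ω n a b = ω.w a b • n) {σ : ℚ} (ha : Psl ω C n σ a = 0) (hb : Psl ω C n σ b = 0)
    (hb0 : 0 < C.deg b) (hσ : σ ≠ 0) : C.Par a b := by
  have h1 := P_id_slope h ha hb
  rw [sub_self, mul_zero] at h1
  have h2 : ω.w a b = 0 := by
    have := (mul_eq_zero.1 h1).resolve_right (by exact_mod_cast hn.ne')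
    exact_mod_cast this
  rw [h2, zero_smul, Pyy, sub_eq_zero] at h
  have h3 : ω.w n b ≠ 0 := fun z => by
    rw [Psl_apply, P_th, z] at hb
    have : σ * C.deg b = 0 := by simpa using hb
    exact (mul_ne_zero hσ (by exact_mod_cast hb0.ne')) this
  have h4 := congrArg C.deg h
  simp only [map_zsmul, smul_eq_mul] at h4
  refine hs.cancel h3 ?_
  rw [smul_comm, h, smul_smul, smul_smul, h4, mul_comm]

end Pool.Agent.Lib.MP_33bfb2_co.Th
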