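import Pool.Agent.Lib.MP_33bfb2_co.Th.RV3a

namespace Pool.Agent.Lib.MP_33bfb2_co.Th.R

open MvPolynomial Finset Equiv
open scoped Pointwise

variable {U I : Type} [Fintype U] [LinearOrder U] [Fintype I] [DecidableEq I]

namespace Dat

variable {D : Dat U I} {θ : I → ℚ}

theorem F_PS {S : Finset U} {ρ : Set (Finset U)} {p : ℤ} {f : P U} (hf : f ∈ D.F θ S ρ p) :
    f ∈ PS S := (mem_F.1 hf).1

theorem F_neg {A : Finset U} (hA : D.et θ A = 0) {f : P U} (hf : f ∈ D.F θ A ∅ (-1)) (i : ℤ) :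
    f ∈ D.F θ A ∅ i := by
  rcases A.eq_empty_or_nonempty with rfl | hne
  · rw [F_empty (by omega) hf]; exact zero_mem _
  · exact F_of_JT _ _ (F_PS hf) (JT_of_F hne hA (by omega) hf)

theorem Ct_kill {φ : P U →ₗ[ℚ] ℚ} {A : Finset U} {W N : Submodule ℚ (P U)} (hW : W ≤ PS A)
    (hN : N ≤ PS Aᶜ) (hφ : ∀ f ∈ W, φ f = 0) {h : P U} (hh : h ∈ W * N) : Ct φ A h = 0 := by
  refine Submodule.mul_induction_on hh (fun f hf g hg => ?_) fun x y hx hy => by
    rw [map_add, hx, hy, add_zero]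
  rw [mul_comm, Ct_mul φ (hN hg) (hW hf), hφ f hf, zero_smul]

theorem v3_step {A : Finset U} {W' W N N' : Submodule ℚ (P U)} (hW : W ≤ PS A) (hW' : W' ≤ W)
    (hN : N ≤ PS Aᶜ) (hN' : N' ≤ N) {h : P U} (hh : h ∈ W * N)
    (hp : ∀ φ : P U →ₗ[ℚ] ℚ, (∀ f ∈ W', φ f = 0) → Ct φ A h ∈ N') : h ∈ W * N' ⊔ W' * N := by
  classical
  obtain ⟨s, hs, hm⟩ : ∃ s : Finset (P U), (s : Set (P U)) ⊆ W ∧
      h ∈ (W' ⊔ Submodule.span ℚ (s : Set (P U))) * N := by
    obtain ⟨s, t, h1, h2, h3⟩ := Submodule.mem_span_mul_finite_of_mem_mul hh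
    refine ⟨s, h1, ?_⟩
    rw [← Submodule.span_mul_span] at h3
    exact mul_le_mul' le_sup_right (Submodule.span_le.2 h2) h3
  clear hh
  induction s using Finset.induction_on generalizing h with
  | empty => exact Submodule.mem_sup_right (by simpa using hm)
  | insert a s _ ih =>
    rw [coe_insert, Set.insert_subset_iff] at hs
    by_cases ha : a ∈ W' ⊔ Submodule.span ℚ (s : Set (P U))
    · have hle : W' ⊔ Submodule.span ℚ ((insert a s : Finset (P U)) : Set (P U)) ≤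
          W' ⊔ Submodule.span ℚ (s : Set (P U)) := by
        rw [coe_insert, Submodule.span_insert]
        exact sup_le le_sup_left (sup_le ((Submodule.span_singleton_le_iff_mem _ _).2 ha)
          le_sup_right)
      exact ih hp hs.2 (mul_le_mul' hle (le_refl N) hm)
    · rw [coe_insert, Submodule.span_insert, sup_left_comm, Submodule.sup_mul] at hm
      obtain ⟨y, hy, z, hz, rfl⟩ := Submodule.mem_sup.1 hm
      obtain ⟨g, hg, rfl⟩ := Submodule.mem_span_singleton_mul.1 hy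
      obtain ⟨φ, h1, h2⟩ := Submodule.exists_le_ker_of_notMem ha
      have hle : W' ⊔ Submodule.span ℚ (s : Set (P U)) ≤ PS A :=
        (sup_le hW' (Submodule.span_le.2 hs.2)).trans hW
      have e : ∀ ψ : P U →ₗ[ℚ] ℚ, Ct ψ A (a * g) = ψ a • g := fun ψ => by
        rw [mul_comm, Ct_mul ψ (hN hg) (hW hs.1)]
      have g' : g ∈ N' := by
        have := hp φ fun f hf => h2 (Submodule.mem_sup_left hf)
        rw [map_add, e, Ct_kill hle hN (fun f hf => h2 hf) hz, add_zero] at this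
        exact (Submodule.smul_mem_iff _ h1).1 this
      refine add_mem (Submodule.mem_sup_left (Submodule.mul_mem_mul hs.1 g'))
        (ih (fun ψ hψ => ?_) hs.2 hz)
      have := hp ψ hψ
      rw [map_add, e] at this
      exact (Submodule.add_mem_iff_right _ (Submodule.smul_mem _ _ g')).1 this

theorem T2 (hs : D.Sym θ) {A B : Finset U} (hd : Disjoint A B) (hA : D.et θ A = 0) (hB : D.et θ B = 0)
    {p : ℤ} {h : P U} (hh : h ∈ D.F θ (A ∪ B) {A} p) :
    h ∈ Submodule.span ℚ {y | ∃ i j : ℤ, ∃ f ∈ D.F θ A ∅ i, ∃ g ∈ D.F θ B ∅ j,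
      i + j = p + 2 * D.kap A B ∧ y = f * g} := by
  have hp : ∀ (q : ℤ) (φ : P U →ₗ[ℚ] ℚ), (∀ f ∈ D.F θ A ∅ (q - 1), φ f = 0) →
      Ct φ A h ∈ D.F θ B ∅ (p + 2 * D.kap A B - q) := fun q φ hφ => by
    rw [hs A B hA hB]
    refine Ct_F hs hd.symm hB hA (by simp) ?_ hφ
    rw [union_comm]; simpa using hh
  obtain ⟨n, hn⟩ : ∃ n : ℕ, h ∈ D.F θ A ∅ ((n : ℤ) - 1) * PS B := by
    have := PS_split (F_PS hh)
    clear hp hh
    induction this using Submodule.span_induction with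
    | mem y hy =>
      obtain ⟨f, hf, g, hg, rfl⟩ := hy
      obtain ⟨i, hi⟩ := F_exh (D := D) (θ := θ) ∅ hf
      exact ⟨(i + 1).toNat, Submodule.mul_mem_mul (F_mono le_rfl (by omega) hi) hg⟩
    | zero => exact ⟨0, zero_mem _⟩
    | add x y _ _ hx hy =>
      obtain ⟨a, ha⟩ := hx
      obtain ⟨b, hb⟩ := hy
      exact ⟨a + b, add_mem (mul_le_mul' (F_mono le_rfl (by omega)) le_rfl ha)
        (mul_le_mul' (F_mono le_rfl (by omega)) le_rfl hb)⟩
    | smul c x _ hx =>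
      obtain ⟨a, ha⟩ := hx
      exact ⟨a, Submodule.smul_mem _ _ ha⟩
  clear hh
  have hB' : PS B ≤ PS Aᶜ := v3_compl hd.symm
  induction n generalizing h with
  | zero =>
    refine Submodule.mul_le.2 (fun f hf g hg => ?_) hn
    obtain ⟨j, hj⟩ := F_exh (D := D) (θ := θ) ∅ hg
    exact Submodule.subset_span ⟨p + 2 * D.kap A B - j, j, f, F_neg hA (by simpa using hf) _,
      g, hj, by ring, rfl⟩
  | succ n ih =>
    have e : ((n + 1 : ℕ) : ℤ) - 1 = n := by omega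
    rw [e] at hn
    have := v3_step (W' := D.F θ A ∅ ((n : ℤ) - 1)) (N' := D.F θ B ∅ (p + 2 * D.kap A B - n))
      (fun _ => F_PS) (F_mono le_rfl (by omega)) hB' (fun _ => F_PS) hn (hp n)
    obtain ⟨y, hy, z, hz, rfl⟩ := Submodule.mem_sup.1 this
    refine add_mem (Submodule.mul_le.2 (fun f hf g hg => ?_) hy) (ih (fun q φ hφ => ?_) hz)
    · exact Submodule.subset_span ⟨_, _, f, hf, g, hg, by ring, rfl⟩
    have h1 := hp q φ hφ
    rw [map_add] at h1
    refine (Submodule.add_mem_iff_right _ ?_).1 h1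
    refine Submodule.mul_induction_on hy (fun f hf g hg => ?_) fun x y hx hy => by
      rw [map_add]; exact add_mem hx hy
    rw [mul_comm f g, Ct_mul φ (hB' (F_PS hg)) (F_PS hf)]
    rcases le_or_gt q n with hq | hq
    · exact Submodule.smul_mem _ _ (F_mono le_rfl (by omega) hg)
    · rw [hφ f (F_mono le_rfl (by omega) hf), zero_smul]; exact zero_mem _

theorem Dc_of_F {S : Finset U} {p : ℤ} {f : P U} (hf : f ∈ D.F θ S ∅ (p - 1)) : f ∈ D.Dc θ S p :=
  Submodule.mem_sup_left hf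

theorem Dc_of_mul {A B : Finset U} {i j p : ℤ} {f g : P U} (hf : f ∈ D.F θ A ∅ i)
    (hg : g ∈ D.F θ B ∅ j) (h1 : A.Nonempty) (h2 : B.Nonempty) (hd : Disjoint A B)
    (hA : D.et θ A = 0) (hB : D.et θ B = 0) (e : i + j = p) :
    f * g * D.Kk A B ∈ D.Dc θ (A ∪ B) p :=
  Submodule.mem_sup_right (Submodule.subset_span
    ⟨A, B, i, j, f, hf, g, hg, h1, h2, hd, rfl, hA, hB, e, rfl⟩)

theorem Dc_ind {S : Finset U} {p : ℤ} (M : Submodule ℚ (P U)) (h0 : D.F θ S ∅ (p - 1) ≤ M)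
    (h : ∀ (A B : Finset U) (i j : ℤ) (f g : P U), f ∈ D.F θ A ∅ i → g ∈ D.F θ B ∅ j → A.Nonempty →
      B.Nonempty → Disjoint A B → A ∪ B = S → D.et θ A = 0 → D.et θ B = 0 → i + j = p →
      f * g * D.Kk A B ∈ M) : D.Dc θ S p ≤ M := by
  refine sup_le h0 (Submodule.span_le.2 ?_)
  rintro _ ⟨A, B, i, j, f, hf, g, hg, h1, h2, hd, e', hA, hB, e, rfl⟩
  exact h A B i j f g hf hg h1 h2 hd e' hA hB e

theorem dd_D {S : Finset U} {p : ℤ} {f : P U} (hf : f ∈ D.Dc θ S p) : dd S f ∈ D.Dc θ S (p - 2) := by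
  refine Dc_ind ((D.Dc θ S (p - 2)).comap (dd S).toLinearMap)
    (fun f hf => Dc_of_F (F_mono le_rfl (by omega) (dd_F hf))) ?_ hf
  clear hf
  rintro A B i j f g hf hg h1 h2 hd rfl hA hB e
  rw [Submodule.mem_comap, Derivation.coeFn_coe, v3_dd_mul,
    v3_dd_Kk D subset_union_left subset_union_right, mul_zero, add_zero, v3_dd_mul,
    v3_dd_eq (B := A) (fun v hv => by simp [hv]) (F_PS hf),
    v3_dd_eq (B := B) (fun v hv => by simp [hv]) (F_PS hg), add_mul]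
  exact add_mem (Dc_of_mul (dd_F hf) hg h1 h2 hd hA hB (by omega))
    (Dc_of_mul hf (dd_F hg) h1 h2 hd hA hB (by omega))

theorem X_mul_D {S : Finset U} {p : ℤ} {f : P U} (hf : f ∈ D.Dc θ S p) {v : U} (hv : v ∈ S) :
    X v * f ∈ D.Dc θ S (p + 2) := by
  refine Dc_ind ((D.Dc θ S (p + 2)).comap (LinearMap.mulLeft ℚ (X v)))
    (fun f hf => Dc_of_F (F_mono le_rfl (by omega) (X_mul_F hf hv))) ?_ hf
  clear hf
  rintro A B i j f g hf hg h1 h2 hd rfl hA hB e
  rw [Submodule.mem_comap, LinearMap.mulLeft_apply]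
  rcases mem_union.1 hv with hv | hv
  · rw [show X v * (f * g * D.Kk A B) = X v * f * g * D.Kk A B by ring]
    exact Dc_of_mul (i := i + 2) (X_mul_F hf hv) hg h1 h2 hd hA hB (by omega)
  · rw [show X v * (f * g * D.Kk A B) = f * (X v * g) * D.Kk A B by ring]
    exact Dc_of_mul (j := j + 2) hf (X_mul_F hg hv) h1 h2 hd hA hB (by omega)

theorem mem_HH {b T : Finset U} {p : ℤ} {h : P U} : h ∈ D.HH θ b T p ↔ h ∈ PS (b ∪ T) ∧
    ∀ (q : ℤ) (φ : P U →ₗ[ℚ] ℚ), (∀ f ∈ D.F θ T ∅ (q - 1), φ f = 0) →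
      Ct φ T h ∈ D.Dc θ b (p + 2 * D.kap b T - q) := by
  simp only [HH, Submodule.mem_inf, Submodule.mem_iInf, Submodule.mem_comap]

theorem Dc_eq {S : Finset U} {p q : ℤ} {f : P U} (hf : f ∈ D.Dc θ S p) (e : p = q) :
    f ∈ D.Dc θ S q := e ▸ hf

theorem HH_eq {b T : Finset U} {p q : ℤ} {f : P U} (hf : f ∈ D.HH θ b T p) (e : p = q) :
    f ∈ D.HH θ b T q := e ▸ hf

theorem HH_of_F (hs : D.Sym θ) {b T : Finset U} (hd : Disjoint b T) (hb : D.et θ b = 0)
    (hT : D.et θ T = 0) {p : ℤ} {h : P U} (hh : h ∈ D.F θ (b ∪ T) ∅ (p - 1)) :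
    h ∈ D.HH θ b T p :=
  mem_HH.2 ⟨F_PS hh, fun q φ hφ => Dc_of_F (F_mono le_rfl (by omega)
    (Ct_F hs hd hb hT (ρ := ∅) (by simp) (F_mono (Set.empty_subset _) le_rfl hh) hφ))⟩

theorem X_mul_HH {b T : Finset U} (hd : Disjoint b T) {p : ℤ} {h : P U} (hh : h ∈ D.HH θ b T p)
    {v : U} (hv : v ∈ b ∪ T) : X v * h ∈ D.HH θ b T (p + 2) := by
  obtain ⟨h1, h2⟩ := mem_HH.1 hh
  refine mem_HH.2 ⟨v3_mul (v3_X hv) h1, fun q φ hφ => ?_⟩
  rcases mem_union.1 hv with hv | hv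
  · rw [Ct_left φ (v3_compl hd (v3_X hv))]
    exact Dc_eq (X_mul_D (h2 q φ hφ) hv) (by ring)
  · rw [Ct_right φ (v3_X hv)]
    exact Dc_eq (h2 (q - 2) _ fun f hf => hφ (X v * f)
      (F_mono le_rfl (by omega) (X_mul_F hf hv))) (by ring)

theorem dd_HH {b T : Finset U} (hd : Disjoint b T) {p : ℤ} {h : P U} (hh : h ∈ D.HH θ b T p) :
    dd b h ∈ D.HH θ b T (p - 2) := by
  obtain ⟨h1, h2⟩ := mem_HH.1 hh
  refine mem_HH.2 ⟨v3_dd_mem _ h1, fun q φ hφ => ?_⟩
  rw [Ct_dd φ hd.symm]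
  exact Dc_eq (dd_D (h2 q φ hφ)) (by ring)

theorem XX_mul_HH {b T : Finset U} (hd : Disjoint b T) {p : ℤ} {h : P U} (hh : h ∈ D.HH θ b T p)
    {u v : U} (hu : u ∈ b ∪ T) (hv : v ∈ b ∪ T) : (X u - X v) * h ∈ D.HH θ b T (p + 2) := by
  rw [sub_mul]; exact sub_mem (X_mul_HH hd hh hu) (X_mul_HH hd hh hv)

theorem kap_KR (A B : Finset U) : D.kap A B = ∑ x ∈ A ×ˢ B, D.W x.1 x.2 :=
  (sum_product' A B fun p q => D.W p q).symm

theorem KR_mul_HH {b T : Finset U} (hd : Disjoint b T) (R : Finset (U × U))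
    (hR : ∀ x ∈ R, x.1 ∈ b ∪ T ∧ x.2 ∈ b ∪ T) {p : ℤ} {h : P U} (hh : h ∈ D.HH θ b T p) :
    D.KR R * h ∈ D.HH θ b T (p + 2 * (∑ x ∈ R, D.W x.1 x.2 : ℕ)) := by
  induction R using Finset.induction_on with
  | empty => simpa [KR] using hh
  | insert x R hx ih =>
    have h1 := ih fun y hy => hR y (mem_insert_of_mem hy)
    have h2 := hR x (mem_insert_self _ _)
    have : ∀ n : ℕ, (X x.1 - X x.2) ^ n * (D.KR R * h) ∈
        D.HH θ b T (p + 2 * (∑ x ∈ R, D.W x.1 x.2 : ℕ) + 2 * n) := fun n => by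
      induction n with
      | zero => simpa using h1
      | succ n ihn =>
        rw [pow_succ', mul_assoc]
        exact HH_eq (XX_mul_HH hd ihn h2.1 h2.2) (by push_cast; ring)
    rw [KR, prod_insert hx, sum_insert hx, mul_assoc]
    exact HH_eq (this _) (by push_cast; ring)

theorem HH_cancel {b T : Finset U} (hd : Disjoint b T) {p : ℤ} {Y : P U}
    (h : D.Kk b T * Y ∈ D.HH θ b T p) : Y ∈ D.HH θ b T (p - 2 * D.kap b T) := by
  have one : ∀ u ∈ b, ∀ v ∈ T, ∀ (p : ℤ) (Y : P U), (X u - X v) * Y ∈ D.HH θ b T (p + 2) →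
      Y ∈ D.HH θ b T p := fun u hu v hv p Y hY =>
    NZ (fun p f => f ∈ D.HH θ b T p) (fun _ => zero_mem _) (fun _ _ _ => sub_mem)
      (fun _ c _ => Submodule.smul_mem _ c) b (X u - X v) 1 one_ne_zero
      (by rw [map_sub, v3_ddX, v3_ddX, if_pos hu, if_neg (disjoint_right.1 hd hv)]; simp)
      (fun _ _ => dd_HH hd)
      (fun _ _ hf => XX_mul_HH hd hf (mem_union_left _ hu) (mem_union_right _ hv)) p Y hY
  have pw : ∀ u ∈ b, ∀ v ∈ T, ∀ (n : ℕ) (p : ℤ) (Y : P U), (X u - X v) ^ n * Y ∈ D.HH θ b T p →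
      Y ∈ D.HH θ b T (p - 2 * n) := fun u hu v hv n => by
    induction n with
    | zero => intro p Y hY; simpa using hY
    | succ n ih =>
      intro p Y hY
      rw [pow_succ, mul_assoc] at hY
      exact one u hu v hv _ Y (HH_eq (ih p _ hY) (by push_cast; ring))
  rw [Kk_KR] at h
  rw [kap_KR]
  have hR : ∀ x ∈ b ×ˢ T, x.1 ∈ b ∧ x.2 ∈ T := fun x hx => mem_product.1 hx
  generalize b ×ˢ T = R at h hR
  induction R using Finset.induction_on generalizing p with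
  | empty => simpa [KR] using h
  | insert x R hx ih =>
    rw [KR, prod_insert hx, mul_assoc] at h
    have h2 := hR x (mem_insert_self _ _)
    rw [sum_insert hx]
    exact HH_eq (ih (pw _ h2.1 _ h2.2 _ _ _ h) fun y hy => hR y (mem_insert_of_mem hy))
      (by push_cast; ring)

theorem Kk_split {A B A' B' : Finset U} (hA : A' ⊆ A) (hB : B' ⊆ B) :
    D.Kk A B = D.Kk A' B' * D.KR (A ×ˢ B \ A' ×ˢ B') := by
  rw [Kk_KR, Kk_KR, KR, KR, KR, mul_comm, prod_sdiff (product_subset_product hA hB)]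

theorem Kk_JT {A B : Finset U} (hd : Disjoint A B) (h : D.et θ B < 0) :
    D.Kk A B ∈ D.JT θ (A ∪ B) :=
  Ideal.subset_span ⟨A, subset_union_left, by rwa [union_sdiff_cancel_left hd],
    by rw [union_sdiff_cancel_left hd]⟩

theorem HH_split (hs : D.Sym θ) {A B b : Finset U} (hd : Disjoint A B) (hA : D.et θ A = 0)
    (hB : D.et θ B = 0) (hb : b ⊆ A ∪ B) (hb0 : D.et θ b = 0) (h1 : (b ∩ A).Nonempty)
    (h2 : (b ∩ B).Nonempty) {p q : ℤ} {f g : P U} (hf : f ∈ D.F θ A ∅ p) (hg : g ∈ D.F θ B ∅ q) :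
    f * g * D.Kk A B ∈ D.HH θ b ((A ∪ B) \ b) (p + q) := by
  have eb : b ∩ A ∪ b ∩ B = b := by rw [← inter_union_distrib_left, inter_eq_left.2 hb]
  have eT : A \ b ∪ B \ b = (A ∪ B) \ b := (union_sdiff_distrib A B b).symm
  have eS : b ∪ (A ∪ B) \ b = A ∪ B := union_sdiff_of_subset hb
  have d1 : Disjoint (b ∩ A) (b ∩ B) := hd.mono inter_subset_right inter_subset_right
  have d2 : Disjoint (A \ b) (B \ b) := hd.mono sdiff_subset sdiff_subset
  have d3 : Disjoint b ((A ∪ B) \ b) := disjoint_sdiff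
  have t1 : D.et θ (b ∩ A) + D.et θ (b ∩ B) = 0 := by rw [← et_union d1, eb, hb0]
  have t2 : ∀ C : Finset U, D.et θ (b ∩ C) + D.et θ (C \ b) = D.et θ C := fun C => by
    rw [← et_union (disjoint_sdiff.mono_left inter_subset_left), inter_comm, union_comm,
      sdiff_union_inter]
  have t3 : D.et θ ((A ∪ B) \ b) = 0 := by
    have := t2 A; have := t2 B
    rw [← eT, et_union d2]; linarith
  have hm : f * g * D.Kk A B ∈ PS (b ∪ (A ∪ B) \ b) := by
    rw [eS]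
    exact v3_mul (v3_mul (v3_mono subset_union_left (F_PS hf))
      (v3_mono subset_union_right (F_PS hg))) (v3_Kk D subset_union_left subset_union_right)
  refine mem_HH.2 ⟨hm, fun r φ hφ => ?_⟩
  rcases lt_trichotomy (D.et θ (b ∩ B)) 0 with h0 | h0 | h0
  · refine Dc_of_F (F_of_JT _ _ (Ct_mem φ d3 hm) (Ct_JT φ d3 ?_))
    rw [Kk_split (inter_subset_right (s₁ := b)) (inter_subset_right (s₁ := b))]
    refine Ideal.mul_mem_left _ _ (Ideal.mul_mem_right _ _ ?_)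
    have := Kk_JT d1 h0
    rwa [eb] at this
  · have h0' : D.et θ (b ∩ A) = 0 := by linarith
    have k1 := split_F hs hd hA hB hb h0' h0 hf hg
    rw [Set.pair_comm] at k1
    have k1' : f * g * D.KR (A ×ˢ B \ (b ∩ A) ×ˢ (b ∩ B)) ∈ D.F θ (b ∪ (A ∪ B) \ b)
        (insert ((A ∪ B) \ b) {b ∩ A}) (p + q - 2 * D.kap (b ∩ A) (b ∩ B)) := by
      rw [eS]; exact k1
    have k2 := Ct_F hs d3 hb0 t3 (ρ := {b ∩ A})
      (by rintro _ rfl; exact d3.mono_left inter_subset_left) k1' hφ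
    have k3 := T2 hs d1 h0' h0 (by rw [eb]; exact k2)
    rw [Kk_split (inter_subset_right (s₁ := b)) (inter_subset_right (s₁ := b)), mul_left_comm,
      Ct_left φ (v3_compl d3 (v3_Kk D inter_subset_left inter_subset_left))]
    refine (Submodule.span_le (p := (D.Dc θ b _).comap
      (LinearMap.mulLeft ℚ (D.Kk (b ∩ A) (b ∩ B))))).2 ?_ k3
    rintro _ ⟨i, j, f', hf', g', hg', e, rfl⟩
    rw [SetLike.mem_coe, Submodule.mem_comap, LinearMap.mulLeft_apply]
    have := Dc_of_mul hf' hg' h1 h2 d1 h0' h0 e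
    rw [eb, mul_comm (f' * g')] at this
    exact Dc_eq this (by ring)
  · rw [Ct_JT0 (θ := θ) (D := D) le_rfl (fun y hy hJ => hφ y (F_of_JT _ _ hy hJ))]
    · exact zero_mem _
    rw [Kk_split (sdiff_subset (t := b)) (sdiff_subset (t := b))]
    refine Ideal.mul_mem_left _ _ (Ideal.mul_mem_right _ _ ?_)
    have := Kk_JT (D := D) (θ := θ) d2 (by have := t2 B; linarith)
    rwa [eT] at this

theorem HH_out (hs : D.Sym θ) {c b T : Finset U} (hcb : Disjoint c b) (hcT : Disjoint c T)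
    (hd : Disjoint b T) (hc : D.et θ c = 0) (hb : D.et θ b = 0) (hT : D.et θ T = 0) {i p : ℤ}
    {v h : P U} (hv : v ∈ D.F θ c ∅ i) (hh : h ∈ D.HH θ b T p) :
    v * h * D.Kk c (b ∪ T) ∈ D.HH θ b (c ∪ T) (p + i) := by
  obtain ⟨h1, h2⟩ := mem_HH.1 hh
  have d : Disjoint b (c ∪ T) := disjoint_union_right.2 ⟨hcb.symm, hd⟩
  have hy : v * D.Kk c T ∈ PS (c ∪ T) :=
    v3_mul (v3_mono subset_union_left (F_PS hv)) (v3_Kk D subset_union_left subset_union_right)
  have k1 : v * D.Kk c T * h ∈ D.HH θ b (c ∪ T) (p + i - 2 * D.kap c b) := by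
    refine mem_HH.2 ⟨v3_mul (v3_mono subset_union_right hy)
      (v3_mono (union_subset_union_right subset_union_right) h1), fun q φ hφ => ?_⟩
    rw [Ct_right φ hy, Ct_union _ d h1]
    refine Dc_eq (h2 (q - i) _ fun f hf => ?_) ?_
    · show φ (v * D.Kk c T * f) = 0
      rw [mul_right_comm]
      exact hφ _ (F_mono le_rfl (by omega) (mul_F hs hcT hc hT hv hf))
    · have : D.kap b (c ∪ T) = D.kap b c + D.kap b T := by
        simp only [kap, sum_union hcT, sum_add_distrib]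
      rw [this, hs b c hb hc]; push_cast; ring
  have k2 := KR_mul_HH d (c ×ˢ b) (fun x hx => ⟨mem_union_right _ (mem_union_left _
    (mem_product.1 hx).1), mem_union_left _ (mem_product.1 hx).2⟩) k1
  have e : D.Kk c (b ∪ T) = D.Kk c b * D.Kk c T := by
    simp only [Kk, prod_union hd, prod_mul_distrib]
  rw [← Kk_KR, ← kap_KR] at k2
  rw [e, show v * h * (D.Kk c b * D.Kk c T) = D.Kk c b * (v * D.Kk c T * h) by ring]
  exact HH_eq k2 (by ring)

theorem HH_read {Γ : Type} (G : D.Gens θ Γ) {b T : Finset U} (hd : Disjoint b T) {p : ℤ}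
    (s : Finset Γ) (Q : Γ → P U) (hs : ∀ γ ∈ s, D.ty b = G.e γ)
    (hQ : ∀ γ ∈ s, Q γ ∈ D.F θ T ∅ (p - G.p γ))
    (h : ∑ γ ∈ s, G.v γ b * Q γ ∈ D.HH θ b T (p - 2 * D.kap b T)) :
    ∀ γ ∈ s, Q γ ∈ D.F θ T ∅ (p - G.p γ - 1) := by
  classical
  intro γ0 h0
  refine v3_dual fun φ hφ => ?_
  have k := (mem_HH.1 h).2 (p - G.p γ0) φ hφ
  rw [map_sum, sum_congr rfl (g := fun γ => φ (Q γ) • G.v γ b) fun γ hγ => Ct_mul φ
    (v3_compl hd (F_PS (G.mem γ b))) (F_PS (hQ γ hγ)),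
    ← sum_filter_add_sum_filter_not s fun γ => G.p γ = G.p γ0] at k
  replace k := Dc_eq k (show _ = G.p γ0 by ring)
  rw [Submodule.add_mem_iff_left] at k
  · have := G.indep b (G.p γ0) (Finsupp.onFinset (s.filter fun γ => G.p γ = G.p γ0)
      (fun γ => if γ ∈ s.filter fun γ => G.p γ = G.p γ0 then φ (Q γ) else 0)
      fun γ hγ => by by_contra e; exact hγ (if_neg e)) (fun γ hγ => by
        have := mem_filter.1 (Finsupp.support_onFinset_subset hγ)
        exact ⟨hs γ this.1, this.2⟩) (by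
        rw [Finsupp.onFinset_sum _ (fun γ => zero_smul ℚ (G.v γ b)),
          sum_congr rfl fun γ hγ => by rw [if_pos hγ]]
        exact k)
    have e := DFunLike.congr_fun this γ0
    rwa [Finsupp.onFinset_apply, if_pos (by simpa using h0)] at e
  · refine Submodule.sum_mem _ fun γ hγ => ?_
    obtain ⟨g1, g2⟩ := mem_filter.1 hγ
    rcases lt_or_gt_of_ne g2 with g3 | g3
    · exact Submodule.smul_mem _ _ (Dc_of_F (F_mono le_rfl (by omega) (G.mem γ b)))
    · rw [hφ _ (F_mono le_rfl (by omega) (hQ γ g1)), zero_smul]; exact zero_mem _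

end Dat

end Pool.Agent.Lib.MP_33bfb2_co.Th.R
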