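import Pool.Agent.Lib.MP_33bfb2_co.Th.RTwo1
import Pool.Agent.Lib.MP_33bfb2_co.Th.RV3

namespace Pool.Agent.Lib.MP_33bfb2_co.Th.R

open MvPolynomial Finset Equiv
open scoped Pointwise

set_option linter.unusedSectionVars false

variable {U I : Type} [Fintype U] [LinearOrder U] [Fintype I] [DecidableEq I]

/-- Put the variables outside S to zero. -/
noncomputable def ret (S : Finset U) : P U →ₐ[ℚ] P U := aeval fun p => if p ∈ S then X p else 0

theorem ret_mem (S : Finset U) (f : P U) : ret S f ∈ PS S := by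
  induction f using MvPolynomial.induction_on with
  | C c => simpa [ret] using C_mem_PS S c
  | add f g a b => rw [map_add]; exact add_mem a b
  | mul_X f i a =>
    rw [map_mul]
    refine mul_mem_PS a ?_
    rw [ret, aeval_X]
    split_ifs with h
    exacts [X_mem_PS h, zero_mem _]

theorem ret_fix {S : Finset U} {f : P U} (hf : f ∈ PS S) : ret S f = f :=
  PS_induction (p := fun f => ret S f = f) (fun c => by simp [ret])
    (fun f g _ _ a b => by rw [map_add, a, b])
    (fun f i _ hi a => by rw [map_mul, a, ret, aeval_X, if_pos hi]) hf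

theorem two_dd_X (T : Finset U) (p : U) : dd T (X p) = if p ∈ T then 1 else 0 := by
  rw [dd, ← Derivation.coeFnAddMonoidHom_apply, map_sum, Finset.sum_apply]
  simp [pderiv_X, Pi.single_apply]

theorem two_stab {T : Finset U} {s : Set (P U)} (h : ∀ k ∈ s, dd T k = 0) {f : P U}
    (hf : f ∈ Ideal.span s) : dd T f ∈ Ideal.span s := by
  induction hf using Submodule.span_induction with
  | mem k hk => rw [h k hk]; exact zero_mem _
  | zero => simp
  | add x y _ _ a b => rw [map_add]; exact add_mem a b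
  | smul r x hx a =>
    rw [smul_eq_mul, Derivation.leibniz]
    exact add_mem (Ideal.mul_mem_left _ _ a) (Ideal.mul_mem_right _ _ hx)

namespace Dat

variable {D : Dat U I} {θ : I → ℚ}

theorem two_dd_Kk {T A B : Finset U} (h : ∀ p ∈ A, ∀ q ∈ B, (p ∈ T ↔ q ∈ T)) :
    dd T (D.Kk A B) = 0 := by
  have m : ∀ x y : P U, dd T x = 0 → dd T y = 0 → dd T (x * y) = 0 := fun x y a b => by
    simp [Derivation.leibniz, a, b]
  refine prod_induction _ (fun x => dd T x = 0) m (by simp) fun p hp =>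
    prod_induction _ (fun x => dd T x = 0) m (by simp) fun q hq => ?_
  rw [Derivation.leibniz_pow, map_sub, two_dd_X, two_dd_X, if_congr (h p hp q hq) rfl rfl]
  simp

theorem two_et_split (A B : Finset U) : D.et θ A = D.et θ (A ∩ B) + D.et θ (A \ B) :=
  (sum_inter_add_sum_sdiff A B _).symm

/-- The ideal of a splitting. -/
noncomputable def J2 (D : Dat U I) (θ : I → ℚ) (S E : Finset U) : Ideal (P U) :=
  D.JT θ E ⊔ D.JQ θ (S \ E)

theorem two_cancel {S E : Finset U} {Y : P U} (h : D.Kk E (S \ E) * Y ∈ D.J2 θ S E) :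
    Y ∈ D.J2 θ S E := by
  have st : ∀ f ∈ D.J2 θ S E, dd E f ∈ D.J2 θ S E := fun f hf => by
    obtain ⟨x, hx, y, hy, rfl⟩ := Submodule.mem_sup.1 hf
    rw [map_add]
    refine Submodule.add_mem_sup (two_stab ?_ hx) (two_stab ?_ hy)
    · rintro _ ⟨A, hA, -, rfl⟩
      exact two_dd_Kk fun p hp q hq => iff_of_true (hA hp) (mem_sdiff.1 hq).1
    · rintro _ ⟨A, hA, -, -, rfl⟩
      exact two_dd_Kk fun p hp q hq =>
        iff_of_false (mem_sdiff.1 (hA hp)).2 (mem_sdiff.1 (mem_sdiff.1 hq).1).2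
  have m : ∀ x y : P U, (∀ Y, x * Y ∈ D.J2 θ S E → Y ∈ D.J2 θ S E) →
      (∀ Y, y * Y ∈ D.J2 θ S E → Y ∈ D.J2 θ S E) →
      ∀ Y, x * y * Y ∈ D.J2 θ S E → Y ∈ D.J2 θ S E := fun x y a b Y c =>
    b Y (a _ (by rwa [← mul_assoc]))
  refine prod_induction _ (fun x => ∀ Y, x * Y ∈ D.J2 θ S E → Y ∈ D.J2 θ S E) m (by simp)
    (fun p hp => prod_induction _ (fun x => ∀ Y, x * Y ∈ D.J2 θ S E → Y ∈ D.J2 θ S E) m (by simp)
      fun q hq => ?_) Y h
  induction D.W p q with
  | zero => simp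
  | succ n ih =>
    rw [pow_succ]
    refine m _ _ ih fun Y hY => NZ (fun _ f => f ∈ D.J2 θ S E) (fun _ => zero_mem _)
      (fun _ _ _ => sub_mem) (fun _ c f hf => ((D.J2 θ S E).restrictScalars ℚ).smul_mem c hf) E
      (X p - X q) 1 one_ne_zero ?_ (fun _ => st) (fun _ _ => Ideal.mul_mem_left _ _) 0 Y hY
    rw [map_sub, two_dd_X, two_dd_X, if_pos hp, if_neg (mem_sdiff.1 hq).2]
    simp

/-- The order used for splittings. -/
def key (D : Dat U I) (θ : I → ℚ) (b : Finset U) : ℚ ×ₗ ℕ := toLex (D.et θ b, #b)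

theorem two_surv {S E b : Finset U} (hE : E ⊆ S) (hb : b ⊆ S) (ne : b ≠ E)
    (hk : D.key θ E ≤ D.key θ b) : D.Kk b (S \ b) ∈ D.J2 θ S E := by
  have e1 := two_et_split (D := D) (θ := θ) b E
  have e2 := two_et_split (D := D) (θ := θ) E b
  rw [inter_comm] at e2
  by_cases h1 : D.et θ (E \ b) < 0
  · refine Ideal.mem_sup_left (Ideal.mem_of_dvd _ (D.Kk_dvd (A := b ∩ E) (B := E \ (b ∩ E))
      inter_subset_left ?_) (Ideal.subset_span ⟨b ∩ E, inter_subset_right, ?_, rfl⟩))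
    · rw [sdiff_inter_self_right]; exact sdiff_subset_sdiff hE Subset.rfl
    · rwa [sdiff_inter_self_right]
  by_cases h2 : (b \ E).Nonempty ∧ 0 ≤ D.et θ (b \ E)
  · refine Ideal.mem_sup_right (Ideal.mem_of_dvd _ (D.Kk_dvd (A := b \ E) (B := (S \ E) \ (b \ E))
      sdiff_subset fun x => ?_) (Ideal.subset_span
        ⟨b \ E, sdiff_subset_sdiff hb Subset.rfl, h2.1, h2.2, rfl⟩))
    simp only [mem_sdiff]; tauto
  exfalso
  rw [key, key, Prod.Lex.toLex_le_toLex] at hk
  dsimp only at hk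
  by_cases h3 : (b \ E).Nonempty
  · have := not_le.1 fun a => h2 ⟨h3, a⟩
    rcases hk with a | ⟨a, -⟩ <;> linarith
  · rw [not_nonempty_iff_eq_empty] at h3
    have := card_lt_card (ssubset_of_subset_of_ne (sdiff_eq_empty_iff_subset.1 h3) ne)
    rw [h3, show D.et θ ∅ = 0 from sum_empty] at e1
    rcases hk with a | ⟨-, a⟩
    · linarith
    · omega

theorem two_Ct {S E : Finset U} {φ : P U →ₗ[ℚ] ℚ} (hφ : ∀ f ∈ D.JQ θ (S \ E), φ f = 0) {f : P U}
    (hf : f ∈ D.J2 θ S E) : Ct φ (S \ E) f ∈ D.JT θ E := by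
  have gen : ∀ (s : Set (P U)), (∀ k ∈ s, ∀ y, Ct φ (S \ E) (k * y) ∈ D.JT θ E) →
      ∀ x ∈ Ideal.span s, Ct φ (S \ E) x ∈ D.JT θ E := fun s hs x hx => by
    have : ∀ y, Ct φ (S \ E) (x * y) ∈ D.JT θ E := by
      induction hx using Submodule.span_induction with
      | mem k hk => exact hs k hk
      | zero => simp
      | add x y _ _ a b => intro z; rw [add_mul, map_add]; exact add_mem (a z) (b z)
      | smul r x _ a => intro z; rw [smul_eq_mul, mul_comm r, mul_assoc]; exact a _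
    simpa using this 1
  obtain ⟨x, hx, y, hy, rfl⟩ := Submodule.mem_sup.1 hf
  rw [map_add]
  refine add_mem (gen _ ?_ x hx) (gen _ ?_ y hy)
  · rintro _ ⟨A, hA, h, rfl⟩ y
    rw [Ct_left φ (PS_mono (fun p hp => ?_) (D.Kk_mem A (E \ A)))]
    · exact Ideal.mul_mem_right _ _ (Ideal.subset_span ⟨A, hA, h, rfl⟩)
    · rw [union_sdiff_of_subset hA] at hp
      simp [hp]
  · rintro _ ⟨A, hA, n, h, rfl⟩ y
    have z : φ ∘ₗ LinearMap.mulLeft ℚ (D.Kk A ((S \ E) \ A)) = 0 := LinearMap.ext fun y =>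
      hφ _ (Ideal.mul_mem_right _ _ (Ideal.subset_span ⟨A, hA, n, h, rfl⟩))
    rw [Ct_right φ (PS_mono (union_subset hA sdiff_subset) (D.Kk_mem A _)), z]
    rw [show Ct (0 : P U →ₗ[ℚ] ℚ) (S \ E) = 0 from (basisMonomials U ℚ).ext fun _ => by
      rw [Ct, Module.Basis.constr_basis]; simp]
    exact zero_mem _

variable {h h' : (I → ℕ) → ℕ → ℕ} {u : Ix h → Finset U → P U} {u' : Ix h' → Finset U → P U}

theorem two_span (B : D.Bas (D.JT θ) u) (B' : D.Bas (D.JQ θ) u') (S b : Finset U) (hb : b ⊆ S)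
    (y : P U) : D.Av S (ret S (y * D.Kk b (S \ b))) ∈ Submodule.span ℚ (Set.range
      fun x : {x : Ix h × Ix h' // x.1.1.1 + x.2.1.1 = D.ty S} => D.sh (u x.1.1) (u' x.1.2) S) := by
  set M := Submodule.span ℚ (Set.range
    fun x : {x : Ix h × Ix h' // x.1.1.1 + x.2.1.1 = D.ty S} => D.sh (u x.1.1) (u' x.1.2) S)
  have wf : WellFounded fun c b : Finset U => D.key θ b < D.key θ c :=
    @Finite.wellFounded_of_trans_of_irrefl _ _ _ ⟨fun _ _ _ a b => b.trans a⟩ ⟨fun _ => lt_irrefl _⟩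
  induction b using wf.induction generalizing y with
  | _ b ih =>
  have gen : ∀ (s : Set (P U)), (∀ k ∈ s, ∃ c ⊆ S, D.key θ b < D.key θ c ∧
      D.Kk c (S \ c) ∣ k * D.Kk b (S \ b)) → ∀ x ∈ Ideal.span s, ∀ y,
        D.Av S (ret S (y * x * D.Kt b (S \ b))) ∈ M := fun s hs x hx => by
    induction hx using Submodule.span_induction with
    | mem k hk =>
      intro y
      obtain ⟨c, hc, l, z, e⟩ := hs k hk
      rw [Kt, mul_smul_comm, map_smul, map_smul, mul_assoc, e, mul_comm _ z, ← mul_assoc]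
      exact M.smul_mem _ (ih c l hc _)
    | zero => simp
    | add x y _ _ a b => intro z; rw [mul_add, add_mul, map_add, map_add]; exact add_mem (a z) (b z)
    | smul r x _ a => intro z; rw [smul_eq_mul, ← mul_assoc]; exact a _
  have gT := gen {k | ∃ A ⊆ b, D.et θ (b \ A) < 0 ∧ k = D.Kk A (b \ A)} <| by
    rintro _ ⟨A, hA, l, rfl⟩
    refine ⟨A, hA.trans hb, ?_, ?_⟩
    · have := two_et_split (D := D) (θ := θ) b A
      rw [inter_eq_right.2 hA] at this
      exact Prod.Lex.toLex_lt_toLex.2 (Or.inl (by dsimp only; linarith))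
    · have : S \ A = (b \ A) ∪ (S \ b) := by
        ext x; have := @hA x; have := @hb x; simp only [mem_sdiff, mem_union]; tauto
      rw [this, Kk_union_right _ _ (disjoint_of_subset_left sdiff_subset disjoint_sdiff)]
      exact mul_dvd_mul_left _ (D.Kk_dvd hA Subset.rfl)
  have gQ := gen {k | ∃ A ⊆ S \ b, A.Nonempty ∧ 0 ≤ D.et θ A ∧
      k = D.Kk A ((S \ b) \ A)} <| by
    rintro _ ⟨A, hA, n, l, rfl⟩
    have d : Disjoint b A := disjoint_of_subset_right hA disjoint_sdiff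
    refine ⟨b ∪ A, union_subset hb (hA.trans sdiff_subset), ?_, ?_⟩
    · have e : D.et θ (b ∪ A) = D.et θ b + D.et θ A := sum_union d
      have := card_pos.2 n
      rw [key, key, Prod.Lex.toLex_lt_toLex, e, card_union_of_disjoint d]
      rcases l.lt_or_eq with a | a
      · exact Or.inl (by dsimp only; linarith)
      · exact Or.inr ⟨by dsimp only; linarith, by dsimp only; omega⟩
    · rw [show S \ (b ∪ A) = (S \ b) \ A from (sdiff_sdiff _ _ _).symm, Kk_union_left _ d, mul_comm (D.Kk b _)]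
      exact mul_dvd_mul_left _ (D.Kk_dvd Subset.rfl sdiff_subset)
  have mK : D.Kt b (S \ b) ∈ PS S := PS_mono (union_subset hb sdiff_subset) (D.Kt_mem _ _)
  have core : ∀ y ∈ Submodule.span ℚ (Set.range fun a => u a b),
      ∀ y' ∈ Submodule.span ℚ (Set.range fun a => u' a (S \ b)),
        D.Av S (ret S (y * D.Kt b (S \ b) * y')) ∈ M := fun y hy y' hy' => by
    induction hy, hy' using Submodule.span_induction₂ with
    | mem_mem x y hx hy =>
      obtain ⟨a, rfl⟩ := hx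
      obtain ⟨a', rfl⟩ := hy
      by_cases n : D.ty b = a.1.1
      swap
      · simp [B.off a b n]
      by_cases n' : D.ty (S \ b) = a'.1.1
      swap
      · simp [B'.off a' _ n']
      obtain ⟨x, -, e⟩ := Av_term (B.eqv a) (B'.eqv a') hb fun c hc => B.off a c (n ▸ hc)
      rw [ret_fix (term_mem (B.eqv a) (B'.eqv a') hb), e]
      exact M.smul_mem _ (Submodule.subset_span ⟨⟨(a, a'), by rw [← n, ← n', ty_sdiff hb]⟩, rfl⟩)
    | zero_left => simp
    | zero_right => simp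
    | add_left x y z _ _ _ a b => simpa only [add_mul, map_add] using add_mem a b
    | add_right x y z _ _ _ a b => simpa only [mul_add, map_add] using add_mem a b
    | smul_left r x y _ _ a => simpa only [smul_mul_assoc, map_smul] using M.smul_mem r a
    | smul_right r x y _ _ a => simpa only [mul_smul_comm, map_smul] using M.smul_mem r a
  have inv : ∀ f ∈ D.H b, ∀ f' ∈ D.H (S \ b), D.Av S (f * D.Kt b (S \ b) * f') ∈ M :=
    fun f hf f' hf' => by
    obtain ⟨j, hj, y, hy, e⟩ := Submodule.mem_sup.1 (B.span b hf)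
    obtain ⟨j', hj', y', hy', e'⟩ := Submodule.mem_sup.1 (B'.span _ hf')
    rw [← ret_fix (mul_mem_PS (mul_mem_PS (PS_mono hb hf.1) mK) (PS_mono sdiff_subset hf'.1)),
      show f * D.Kt b (S \ b) * f' = f' * j * D.Kt b (S \ b) + y * j' * D.Kt b (S \ b) +
        y * D.Kt b (S \ b) * y' by rw [← e, ← e']; ring,
      map_add, map_add, map_add, map_add]
    exact add_mem (add_mem (gT j hj _) (gQ j' hj' _)) (core y hy y' hy')
  rw [map_mul, Kk_eq, map_smul, ret_fix mK, mul_smul_comm, map_smul]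
  refine M.smul_mem _ ?_
  have hy : ret S y ∈ PS (b ∪ S \ b) := by rw [union_sdiff_of_subset hb]; exact ret_mem S y
  refine Submodule.span_induction (p := fun y _ => D.Av S (y * D.Kt b (S \ b)) ∈ M) ?_ ?_ ?_ ?_
    (PS_split hy)
  · rintro _ ⟨f, hf, f', hf', rfl⟩
    have := inv _ (Av_mem_H hf) _ (Av_mem_H hf')
    rw [Av_left hb _ (Av_mem_PS hf'), Av_right hb hf, M.smul_mem_iff (card_WS_ne _),
      M.smul_mem_iff (card_WS_ne _)] at this
    rwa [mul_right_comm]
  · simp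
  · intro x y _ _ a b; rw [add_mul, map_add]; exact add_mem a b
  · intro r x _ a; rw [smul_mul_assoc, map_smul]; exact M.smul_mem r a

theorem two_indep (B : D.Bas (D.JT θ) u) (B' : D.Bas (D.JQ θ) u') (S : Finset U)
    (c : {x : Ix h × Ix h' // x.1.1.1 + x.2.1.1 = D.ty S} →₀ ℚ)
    (hc : (c.sum fun x r => r • D.sh (u x.1.1) (u' x.1.2) S) = 0) : c = 0 := by
  classical
  by_contra n
  obtain ⟨x1, hx1⟩ := Finsupp.support_nonempty_iff.2 n
  obtain ⟨E, hE, hm⟩ := exists_min_image {b ∈ S.powerset | ∃ x ∈ c.support, D.ty b = x.1.1.1.1}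
    (D.key θ) (by
      obtain ⟨E, a, b⟩ := D.exists_sub_ty (S := S) (d := x1.1.1.1.1) (le_self_add.trans x1.2.le)
      exact ⟨E, mem_filter.2 ⟨mem_powerset.2 a, x1, hx1, b⟩⟩)
  obtain ⟨hE, x0, hx0, e0⟩ := mem_filter.1 hE
  rw [mem_powerset] at hE
  have e0' : D.ty (S \ E) = x0.1.2.1.1 :=
    add_left_cancel (a := D.ty E) (by rw [ty_sdiff hE, e0, x0.2])
  have a1 : ∀ x ∈ c.support, D.sh (u x.1.1) (u' x.1.2) S -
      u x.1.1 E * D.Kt E (S \ E) * u' x.1.2 (S \ E) ∈ D.J2 θ S E := fun x hx => by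
    rw [sh, ← add_sum_erase _ _ (mem_powerset.2 hE), add_sub_cancel_left]
    refine sum_mem fun b hb => ?_
    by_cases t : D.ty b = x.1.1.1.1
    · have hb' := mem_of_mem_erase hb
      refine Ideal.mul_mem_right _ _ (Ideal.mul_mem_left _ _ ?_)
      exact ((D.J2 θ S E).restrictScalars ℚ).smul_mem _ (two_surv hE (mem_powerset.1 hb')
        (ne_of_mem_erase hb) (hm b (mem_filter.2 ⟨hb', x, hx, t⟩)))
    · simp [B.off _ b t]
  have a2 : D.Kk E (S \ E) * ∑ x ∈ c.support, c x • (u x.1.1 E * u' x.1.2 (S \ E)) ∈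
      D.J2 θ S E := by
    have := ((D.J2 θ S E).restrictScalars ℚ).smul_mem (- D.etaS E (S \ E))
      (sum_mem (t := c.support) fun x hx =>
        ((D.J2 θ S E).restrictScalars ℚ).smul_mem (c x) (a1 x hx))
    simp only [smul_sub, sum_sub_distrib] at this
    rw [show ∑ x ∈ c.support, c x • D.sh (u x.1.1) (u' x.1.2) S = 0 from hc, smul_zero, zero_sub,
      neg_smul, neg_neg] at this
    rw [Kk_eq, smul_mul_assoc, mul_sum, sum_congr rfl fun x _ => show _ = c x •
      (u x.1.1 E * D.Kt E (S \ E) * u' x.1.2 (S \ E)) by rw [mul_smul_comm]; congr 1; ring]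
    exact this
  obtain ⟨φ, p1, p2⟩ := B'.dual (S \ E) x0.1.2 e0'
  obtain ⟨ψ, q1, q2⟩ := B.dual E x0.1.1 e0
  have a3 := q1 _ (two_Ct p1 (two_cancel a2))
  rw [map_sum, map_sum, sum_eq_single x0] at a3
  · rw [map_smul, Ct_mul φ (PS_mono (fun p hp => by simp [hp]) ((B.eqv _).mem E))
      ((B'.eqv _).mem _), p2, if_pos rfl, one_smul, map_smul, q2, if_pos rfl] at a3
    exact Finsupp.mem_support_iff.1 hx0 (by simpa using a3)
  · intro x _ ne
    rw [map_smul, Ct_mul φ (PS_mono (fun p hp => by simp [hp]) ((B.eqv _).mem E))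
      ((B'.eqv _).mem _), p2, map_smul, map_smul, q2]
    split_ifs with a b
    · exact absurd (Subtype.ext (Prod.ext b a)) ne
    all_goals simp
  · exact fun a => absurd hx0 a

theorem two_GB (B : D.Bas (D.JT θ) u) (B' : D.Bas (D.JQ θ) u') (S : Finset U) :
    GB (D.H S) ⊥ (fun x : {x : Ix h × Ix h' // x.1.1.1 + x.2.1.1 = D.ty S} =>
      D.sh (u x.1.1) (u' x.1.2) S)
      fun x => x.1.1.1.2.1 + x.1.2.1.2.1 + D.kv x.1.1.1.1 x.1.2.1.1 := by
  refine ⟨fun x => ((B.eqv _).sh (B'.eqv _)).mem_H S, fun x => ?_, fun f hf => ?_,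
    fun c hc => two_indep B B' S c hc⟩
  · refine (homogeneousSubmodule U ℚ _).sum_mem fun b hb => ?_
    by_cases t : D.ty b = x.1.1.1.1
    · have t' : D.ty (S \ b) = x.1.2.1.1 :=
        add_left_cancel (a := D.ty b) (by rw [ty_sdiff (mem_powerset.1 hb), t, x.2])
      have := ((B.hom x.1.1 b).mul (D.Kt_hom b (S \ b))).mul (B'.hom x.1.2 (S \ b))
      rwa [kap_eq_kv, t, t', add_right_comm] at this
    · simp [B.off _ b t]
  · have := two_span B B' S ∅ (empty_subset S) f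
    rw [Kk_empty_left, mul_one, ret_fix hf.1, Av_of_mem_H hf,
      Submodule.smul_mem_iff _ (card_WS_ne S)] at this
    exact Submodule.mem_sup_right this

variable (D θ)

theorem two_count (S : Finset U) (m : ℕ) : hf (D.H S) ⊥ m =
    ∑ e ∈ Iic (D.ty S), ∑ q ∈ range (m + 1) ×ˢ range (m + 1),
      if q.1 + q.2 + D.kv e (D.ty S - e) = m then D.hT θ e q.1 * D.hQ θ (D.ty S - e) q.2 else 0 := by
  obtain ⟨u, B⟩ := D.exists_BasT θ
  obtain ⟨u', B'⟩ := D.exists_BasQ θ
  rw [← (two_GB B B' S).card graded_bot, card_pairs]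

end Dat

end Pool.Agent.Lib.MP_33bfb2_co.Th.R
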