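import Mathlib

namespace Pool.Agent.Lib.MP_33bfb2_co.Th.R

open MvPolynomial Finset

variable {U : Type}

/-- A subspace that contains the homogeneous components of its elements. -/
def Graded (N : Submodule ℚ (MvPolynomial U ℚ)) : Prop :=
  ∀ f ∈ N, ∀ m, homogeneousComponent m f ∈ N

/-- A homogeneous family in X that spans X modulo N and is independent modulo N. -/
structure GB (X N : Submodule ℚ (MvPolynomial U ℚ)) {ι : Type} (v : ι → MvPolynomial U ℚ)
    (dg : ι → ℕ) : Prop where
  mem : ∀ i, v i ∈ X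
  hom : ∀ i, (v i).IsHomogeneous (dg i)
  span : X ≤ N ⊔ Submodule.span ℚ (Set.range v)
  indep : ∀ c : ι →₀ ℚ, (c.sum fun i x => x • v i) ∈ N → c = 0

/-- The graded dimension of X modulo N. -/
noncomputable def hf (X N : Submodule ℚ (MvPolynomial U ℚ)) (m : ℕ) : ℕ :=
  Module.finrank ℚ ((X ⊓ homogeneousSubmodule U ℚ m).map N.mkQ)

/-- Multisets of pairs (generator, power) of total type d without repeated odd pair. -/
def Ok {Γ I : Type} (odd : Γ → Bool) (e : Γ → I → ℕ) (d : I → ℕ) (μ : Multiset (Γ × ℕ)) : Prop :=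
  (μ.map fun x => e x.1).sum = d ∧ ∀ x, odd x.1 = true → ¬ {x, x} ≤ μ

theorem graded_bot : Graded (⊥ : Submodule ℚ (MvPolynomial U ℚ)) := fun f hf m => by
  rw [Submodule.mem_bot] at hf ⊢
  simp [hf]

theorem Graded.inf {X Y : Submodule ℚ (MvPolynomial U ℚ)} (hX : Graded X) (hY : Graded Y) :
    Graded (X ⊓ Y) := fun f hf m => ⟨hX f hf.1 m, hY f hf.2 m⟩

theorem Graded.sup {X Y : Submodule ℚ (MvPolynomial U ℚ)} (hX : Graded X) (hY : Graded Y) :
    Graded (X ⊔ Y) := fun f hf m => by
  obtain ⟨x, hx, y, hy, rfl⟩ := Submodule.mem_sup.1 hf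
  rw [map_add]
  exact Submodule.add_mem_sup (hX x hx m) (hY y hy m)

theorem hc_of_hom {f : MvPolynomial U ℚ} {n : ℕ} (h : f.IsHomogeneous n) (m : ℕ) :
    homogeneousComponent m f = if m = n then f else 0 :=
  homogeneousComponent_of_mem h

theorem graded_span {s : Set (MvPolynomial U ℚ)} (h : ∀ f ∈ s, ∃ n, f.IsHomogeneous n) :
    Graded (Submodule.span ℚ s) := fun f hf m => by
  induction hf using Submodule.span_induction with
  | mem x hx =>
    obtain ⟨n, hn⟩ := h x hx
    rw [hc_of_hom hn]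
    split_ifs
    · exact Submodule.subset_span hx
    · exact zero_mem _
  | zero => simp
  | add x y _ _ hx hy => rw [map_add]; exact add_mem hx hy
  | smul a x _ hx => rw [map_smul]; exact Submodule.smul_mem _ a hx

/-- An ideal with homogeneous generators is graded. -/
theorem graded_ideal_span {s : Set (MvPolynomial U ℚ)} (h : ∀ f ∈ s, ∃ n, f.IsHomogeneous n) :
    Graded ((Ideal.span s).restrictScalars ℚ) := fun f hf m => by
  let _ := @MvPolynomial.gradedAlgebra U ℚ _
  have hh : (Ideal.span s).IsHomogeneous (homogeneousSubmodule U ℚ) :=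
    Ideal.homogeneous_span _ _ fun x hx => by
      obtain ⟨n, hn⟩ := h x hx
      exact ⟨n, hn⟩
  exact MvPolynomial.homogeneousComponent_mem_of_mem hh hf m

theorem GB.linearIndependent {X N : Submodule ℚ (MvPolynomial U ℚ)} {ι : Type}
    {v : ι → MvPolynomial U ℚ} {dg : ι → ℕ} (h : GB X N v dg) :
    LinearIndependent ℚ fun i => N.mkQ (v i) := by
  rw [linearIndependent_iff]
  intro c hc
  refine h.indep c ?_
  rw [← Submodule.Quotient.mk_eq_zero, ← Submodule.mkQ_apply, map_finsuppSum]
  simpa [Finsupp.linearCombination_apply] using hc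

theorem indep_of_linearIndependent {N : Submodule ℚ (MvPolynomial U ℚ)} {ι : Type}
    {v : ι → MvPolynomial U ℚ} (h : LinearIndependent ℚ fun i => N.mkQ (v i)) (c : ι →₀ ℚ)
    (hc : (c.sum fun i x => x • v i) ∈ N) : c = 0 := by
  rw [linearIndependent_iff] at h
  refine h c ?_
  rw [← Submodule.Quotient.mk_eq_zero, ← Submodule.mkQ_apply, map_finsuppSum] at hc
  simpa [Finsupp.linearCombination_apply] using hc

/-- Change of the index type. -/
theorem GB.comp {X N : Submodule ℚ (MvPolynomial U ℚ)} {ι κ : Type}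
    {v : ι → MvPolynomial U ℚ} {dg : ι → ℕ} (h : GB X N v dg) (e : κ ≃ ι) :
    GB X N (v ∘ e) (dg ∘ e) where
  mem _ := h.mem _
  hom _ := h.hom _
  span := by rw [e.surjective.range_comp]; exact h.span
  indep := indep_of_linearIndependent (h.linearIndependent.comp e e.injective)

theorem GB.isEmpty {X : Submodule ℚ (MvPolynomial U ℚ)} {ι : Type}
    {v : ι → MvPolynomial U ℚ} {dg : ι → ℕ} (h : GB X ⊤ v dg) : IsEmpty ι :=
  ⟨fun i => by simpa using h.indep (Finsupp.single i 1) trivial⟩

instance [Finite U] (m : ℕ) : Module.Finite ℚ (homogeneousSubmodule U ℚ m) :=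
  Submodule.finiteDimensional_of_le (S₂ := restrictTotalDegree U ℚ m) fun _ hf =>
    (mem_restrictTotalDegree _ _ _).2 (IsHomogeneous.totalDegree_le hf)

instance [Finite U] (X N : Submodule ℚ (MvPolynomial U ℚ)) (m : ℕ) :
    Module.Finite ℚ ((X ⊓ homogeneousSubmodule U ℚ m).map N.mkQ) := by
  have : Module.Finite ℚ (X ⊓ homogeneousSubmodule U ℚ m : Submodule ℚ _) :=
    Submodule.finiteDimensional_of_le inf_le_right
  infer_instance

theorem GB.hom' {X N : Submodule ℚ (MvPolynomial U ℚ)} {ι : Type}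
    {v : ι → MvPolynomial U ℚ} {dg : ι → ℕ} (h : GB X N v dg) {m : ℕ} (i : {i // dg i = m}) :
    v i.1 ∈ homogeneousSubmodule U ℚ m := by
  obtain ⟨i, rfl⟩ := i
  exact h.hom i

theorem GB.map_eq {X N : Submodule ℚ (MvPolynomial U ℚ)} {ι : Type}
    {v : ι → MvPolynomial U ℚ} {dg : ι → ℕ} (h : GB X N v dg) (hN : Graded N) (m : ℕ) :
    (X ⊓ homogeneousSubmodule U ℚ m).map N.mkQ =
      Submodule.span ℚ (Set.range fun i : {i // dg i = m} => N.mkQ (v i.1)) := by
  refine le_antisymm ?_ (Submodule.span_le.2 ?_)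
  · rintro _ ⟨x, ⟨hx, hm⟩, rfl⟩
    obtain ⟨n, hn, y, hy, e⟩ := Submodule.mem_sup.1 (h.span hx)
    have e1 : x = homogeneousComponent m n + homogeneousComponent m y := by
      rw [← map_add, e, hc_of_hom hm, if_pos rfl]
    have e2 : N.mkQ (homogeneousComponent m n) = 0 := by simpa using hN n hn m
    rw [e1, map_add, e2, zero_add]
    clear e e1
    induction hy using Submodule.span_induction with
    | mem y hy =>
      obtain ⟨i, rfl⟩ := hy
      rw [hc_of_hom (h.hom i)]
      split_ifs with a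
      · exact Submodule.subset_span ⟨⟨i, a.symm⟩, rfl⟩
      · simp
    | zero => simp
    | add x y _ _ hx hy => rw [map_add, map_add]; exact add_mem hx hy
    | smul a x _ hx => rw [map_smul, map_smul]; exact Submodule.smul_mem _ a hx
  · rintro _ ⟨i, rfl⟩
    exact ⟨v i.1, ⟨h.mem _, h.hom' i⟩, rfl⟩

/-- A graded basis has finitely many members in each degree. -/
theorem GB.finite [Finite U] {X N : Submodule ℚ (MvPolynomial U ℚ)} {ι : Type}
    {v : ι → MvPolynomial U ℚ} {dg : ι → ℕ} (h : GB X N v dg) (m : ℕ) :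
    Finite {i // dg i = m} := by
  have li : LinearIndependent ℚ fun i : {i // dg i = m} =>
      (⟨N.mkQ (v i.1), v i.1, ⟨h.mem _, h.hom' i⟩, rfl⟩ :
        (X ⊓ homogeneousSubmodule U ℚ m).map N.mkQ) :=
    LinearIndependent.of_comp (Submodule.subtype _)
      (h.linearIndependent.comp Subtype.val Subtype.val_injective)
  exact li.finite

/-- The number of members of degree m is the graded dimension. -/
theorem GB.card [Finite U] {X N : Submodule ℚ (MvPolynomial U ℚ)} {ι : Type}
    {v : ι → MvPolynomial U ℚ} {dg : ι → ℕ} (h : GB X N v dg) (hN : Graded N) (m : ℕ) :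
    Nat.card {i // dg i = m} = hf X N m := by
  have := h.finite m
  have := Fintype.ofFinite {i // dg i = m}
  rw [hf, h.map_eq hN, Nat.card_eq_fintype_card]
  exact (finrank_span_eq_card (h.linearIndependent.comp Subtype.val Subtype.val_injective)).symm

/-- Graded bases exist. -/
theorem exists_GB [Finite U] {X N : Submodule ℚ (MvPolynomial U ℚ)} (hX : Graded X)
    (hN : Graded N) : ∃ v : (Σ m, Fin (hf X N m)) → MvPolynomial U ℚ, GB X N v Sigma.fst := by
  classical
  have b := fun m => Module.finBasis ℚ ((X ⊓ homogeneousSubmodule U ℚ m).map N.mkQ)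
  choose v hv hb using fun m (j : Fin (hf X N m)) => (b m j).2
  refine ⟨fun i => v i.1 i.2, fun i => (hv _ _).1, fun i => (hv _ _).2, fun x hx => ?_,
    fun c hc => ?_⟩
  · rw [← sum_homogeneousComponent x]
    refine sum_mem fun m _ => ?_
    have h1 : N.mkQ (homogeneousComponent m x) ∈ (X ⊓ homogeneousSubmodule U ℚ m).map N.mkQ :=
      ⟨_, ⟨hX x hx m, homogeneousComponent_mem m x⟩, rfl⟩
    have h2 := congrArg Subtype.val ((b m).sum_repr ⟨_, h1⟩)
    simp only [Submodule.coe_sum, Submodule.coe_smul, ← hb] at h2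
    refine Submodule.mem_sup.2 ⟨homogeneousComponent m x - ∑ j, (b m).repr ⟨_, h1⟩ j • v m j, ?_,
      ∑ j, (b m).repr ⟨_, h1⟩ j • v m j, sum_mem fun j _ => Submodule.smul_mem _ _
        (Submodule.subset_span ⟨⟨m, j⟩, rfl⟩), sub_add_cancel _ _⟩
    rw [← Submodule.Quotient.mk_eq_zero, ← Submodule.mkQ_apply, map_sub, map_sum, sub_eq_zero]
    simp only [map_smul]
    exact h2.symm
  · ext ⟨m, j⟩
    have h1 := hN _ hc m
    rw [Finsupp.sum, map_sum] at h1
    have h2 : ∑ i ∈ c.support, homogeneousComponent m (c i • v i.1 i.2) =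
        ∑ j, c ⟨m, j⟩ • v m j := by
      rw [← sum_subset (s₁ := c.support.filter fun i => i.1 = m) (filter_subset _ _)
        (fun i hi hi' => by
          rw [map_smul, hc_of_hom (hv _ _).2, if_neg fun e => hi' (mem_filter.2 ⟨hi, e.symm⟩),
            smul_zero])]
      symm
      refine sum_bij_ne_zero (fun j _ _ => ⟨m, j⟩) (fun j _ h => ?_) (fun a _ _ b _ _ e => ?_)
        (fun i hi h => ?_) (fun j _ _ => ?_)
      · exact mem_filter.2 ⟨Finsupp.mem_support_iff.2 fun e => h (by simp [e]), rfl⟩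
      · simpa using e
      · obtain ⟨m', j'⟩ := i
        obtain rfl : m' = m := (mem_filter.1 hi).2
        rw [map_smul, hc_of_hom (hv _ _).2, if_pos rfl] at h
        exact ⟨j', mem_univ _, h, rfl⟩
      · rw [map_smul, hc_of_hom (hv _ _).2, if_pos rfl]
    rw [h2, ← Submodule.Quotient.mk_eq_zero, ← Submodule.mkQ_apply, map_sum] at h1
    refine Fintype.linearIndependent_iff.1 (b m).linearIndependent (fun j => c ⟨m, j⟩) ?_ j
    ext1
    simp only [Submodule.coe_sum, Submodule.coe_smul, ← hb]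
    simp only [map_smul] at h1
    exact h1

end Pool.Agent.Lib.MP_33bfb2_co.Th.R
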