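import Pool.Agent.Lib.MP_33bfb2_co.Th.RDefs
import Pool.Agent.Lib.MP_33bfb2_co.Th.RGB

namespace Pool.Agent.Lib.MP_33bfb2_co.Th.R

open MvPolynomial Finset Equiv
open scoped Pointwise

set_option linter.unusedSectionVars false

variable {U I : Type} [Fintype U] [LinearOrder U] [Fintype I] [DecidableEq I]

namespace Dat

variable (D : Dat U I) (θ : I → ℚ)

open Classical in
/-- A standard set of variables of type e. -/
noncomputable def sb (e : I → ℕ) : Finset U := if h : ∃ b, D.ty b = e then h.choose else ∅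

open Classical in
/-- Graded dimension of the first block. -/
noncomputable def hT (e : I → ℕ) (m : ℕ) : ℕ :=
  if ∃ b, D.ty b = e then hf (D.H (D.sb e)) ((D.JT θ (D.sb e)).restrictScalars ℚ) m else 0

open Classical in
/-- Graded dimension of the second block. -/
noncomputable def hQ (e : I → ℕ) (m : ℕ) : ℕ :=
  if ∃ b, D.ty b = e then hf (D.H (D.sb e)) ((D.JQ θ (D.sb e)).restrictScalars ℚ) m else 0

theorem ty_sb (b : Finset U) : D.ty (D.sb (D.ty b)) = D.ty b := by
  have h : ∃ c, D.ty c = D.ty b := ⟨b, rfl⟩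
  rw [sb, dif_pos h]
  exact h.choose_spec

theorem sum_lab {M : Type} [AddCommMonoid M] (S : Finset U) (f : I → M) :
    ∑ p ∈ S, f (D.lab p) = ∑ i, D.ty S i • f i := by
  rw [← sum_fiberwise S D.lab]
  exact sum_congr rfl fun i _ => by
    rw [sum_congr rfl fun p hp => by rw [(mem_filter.1 hp).2], sum_const, ty]

theorem kap_eq_kv (A B : Finset U) : D.kap A B = D.kv (D.ty A) (D.ty B) := by
  simp only [kap, W, kv]
  rw [D.sum_lab A fun i => ∑ q ∈ B, D.a i (D.lab q)]
  refine sum_congr rfl fun i _ => ?_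
  rw [D.sum_lab B fun j => D.a i j, smul_eq_mul, mul_sum]
  exact sum_congr rfl fun j _ => by rw [smul_eq_mul, mul_assoc]

theorem et_eq (S : Finset U) : D.et θ S = ∑ i, θ i * D.ty S i := by
  rw [et, D.sum_lab S θ]
  exact sum_congr rfl fun i _ => by rw [nsmul_eq_mul, mul_comm]

theorem graded_PS (S : Finset U) : Graded (PS S) := fun f hf m => by
  rw [mem_PS, supported_eq_range_rename] at hf ⊢
  obtain ⟨g, rfl⟩ := hf
  exact ⟨homogeneousComponent m g, rename_homogeneousComponent m g⟩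

theorem comp_T (S : Finset U) (g : Perm U) (f : P U) (m : ℕ) :
    homogeneousComponent m (D.T S g f) = D.T S g (homogeneousComponent m f) := by
  rw [T_apply, T_apply, map_smul, rename_homogeneousComponent]

theorem graded_H (S : Finset U) : Graded (D.H S) := fun f hf m =>
  ⟨graded_PS S f hf.1 m, fun g hg => by rw [← comp_T, hf.2 g hg]⟩

theorem graded_JT (S : Finset U) : Graded ((D.JT θ S).restrictScalars ℚ) :=
  graded_ideal_span fun _ ⟨_, _, _, e⟩ => ⟨_, e ▸ D.Kk_hom _ _⟩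

theorem graded_JQ (S : Finset U) : Graded ((D.JQ θ S).restrictScalars ℚ) :=
  graded_ideal_span fun _ ⟨_, _, _, _, e⟩ => ⟨_, e ▸ D.Kk_hom _ _⟩

theorem hf_empty (m : ℕ) : hf (D.H ∅) ⊥ m = if m = 0 then 1 else 0 := by
  have g : GB (D.H ∅) ⊥ (fun _ : Unit => (1 : P U)) fun _ => 0 := by
    refine ⟨fun _ => by simpa [one] using (Eqv_one (D := D)).mem_H ∅,
      fun _ => isHomogeneous_one U ℚ, fun f hf => ?_, fun c hc => ?_⟩
    · have := hf.1
      rw [mem_PS, coe_empty, supported_empty, Algebra.mem_bot] at this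
      obtain ⟨c, rfl⟩ := this
      rw [Algebra.algebraMap_eq_smul_one]
      exact Submodule.mem_sup_right (Submodule.smul_mem _ _ (Submodule.subset_span ⟨(), rfl⟩))
    · rw [Finsupp.sum_fintype _ _ (by simp)] at hc
      ext
      simpa using hc
  rw [← g.card graded_bot]
  split_ifs with h
  · simp [h]
  · simp [Ne.symm h]

theorem sb_zero : D.sb 0 = ∅ := ty_eq_zero.1 (by simpa using D.ty_sb ∅)

theorem hT_zero (m : ℕ) : D.hT θ 0 m = if m = 0 then 1 else 0 := by
  have e : D.JT θ ∅ = ⊥ := Ideal.span_eq_bot.2 fun k ⟨A, _, h, _⟩ => by simp [et] at h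
  rw [hT, if_pos ⟨∅, ty_empty⟩, sb_zero, e, Submodule.restrictScalars_bot, hf_empty]

theorem hQ_zero (m : ℕ) : D.hQ θ 0 m = if m = 0 then 1 else 0 := by
  have e : D.JQ θ ∅ = ⊥ := Ideal.span_eq_bot.2 fun k ⟨A, hA, h, _⟩ => by
    simp [subset_empty.1 hA] at h
  rw [hQ, if_pos ⟨∅, ty_empty⟩, sb_zero, e, Submodule.restrictScalars_bot, hf_empty]

theorem hf_top (X : Submodule ℚ (P U)) (m : ℕ) : hf X ⊤ m = 0 := by
  have : Subsingleton (P U ⧸ (⊤ : Submodule ℚ (P U))) := Submodule.Quotient.subsingleton_iff.2 rfl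
  exact Module.finrank_zero_of_subsingleton

theorem JT_top {S : Finset U} (h : D.et θ S < 0) : D.JT θ S = ⊤ :=
  (Ideal.eq_top_iff_one _).2 (Ideal.subset_span ⟨∅, empty_subset _, by simpa using h, by simp⟩)

theorem JQ_top {S : Finset U} (h0 : S.Nonempty) (h : 0 ≤ D.et θ S) : D.JQ θ S = ⊤ :=
  (Ideal.eq_top_iff_one _).2 (Ideal.subset_span ⟨S, Subset.rfl, h0, h, by simp⟩)

theorem hT_neg {d : I → ℕ} (h : ∑ i, θ i * d i < 0) (m : ℕ) : D.hT θ d m = 0 := by
  rw [hT]
  split_ifs with e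
  · obtain ⟨b, rfl⟩ := e
    rw [JT_top _ _ (by rwa [et_eq, ty_sb]), Submodule.restrictScalars_top, hf_top]
  · rfl

theorem hQ_nonneg {d : I → ℕ} (h0 : d ≠ 0) (h : 0 ≤ ∑ i, θ i * d i) (m : ℕ) :
    D.hQ θ d m = 0 := by
  rw [hQ]
  split_ifs with e
  · obtain ⟨b, rfl⟩ := e
    rw [JQ_top _ _ (nonempty_iff_ne_empty.2 fun a => h0 (by rw [← ty_sb, a, ty_empty]))
      (by rwa [et_eq, ty_sb]), Submodule.restrictScalars_top, hf_top]
  · rfl

end Dat

end Pool.Agent.Lib.MP_33bfb2_co.Th.R
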