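import Pool.Agent.Lib.MP_33bfb2_co.Th.RV3
import Pool.Agent.Lib.MP_33bfb2_co.Th.RTwo0

namespace Pool.Agent.Lib.MP_33bfb2_co.Th.R

open MvPolynomial Finset Equiv
open scoped Pointwise

set_option linter.unusedSectionVars false

variable {U I : Type} [Fintype U] [LinearOrder U] [Fintype I] [DecidableEq I]

section Abs

variable {Γ : Type} (s : P U) (F D : ℤ → Submodule ℚ (P U)) (A : Γ → Prop) (pp : Γ → ℤ)
  (w : Γ → P U)

theorem v5_pow (hF : ∀ p, ∀ f ∈ F p, s * f ∈ F (p + 2)) {p : ℤ} {f : P U} (hf : f ∈ F p) (k : ℕ) :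
    s ^ k * f ∈ F (p + 2 * k) := by
  induction k with
  | zero => simpa using hf
  | succ k ih =>
    have := hF _ _ ih
    rw [← mul_assoc, ← pow_succ'] at this
    rwa [show p + 2 * ((k + 1 : ℕ) : ℤ) = p + 2 * k + 2 by push_cast; ring]

theorem v5_span (hD : ∀ p, ∀ f ∈ D p, s * f ∈ D (p + 2)) (h0 : ∀ p ≤ 0, F p ≤ D p)
    (hs : ∀ p, F p ≤ D p ⊔ (F (p - 2)).map (LinearMap.mulLeft ℚ s) ⊔
      Submodule.span ℚ {y | ∃ γ, A γ ∧ pp γ = p ∧ y = w γ}) (q : ℤ) :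
    F q ≤ D q ⊔ Submodule.span ℚ
      {y | ∃ x : Γ × ℕ, A x.1 ∧ pp x.1 + 2 * x.2 = q ∧ y = s ^ x.2 * w x.1} := by
  obtain ⟨n, hn⟩ : ∃ n : ℕ, q ≤ n := ⟨q.toNat, Int.self_le_toNat q⟩
  induction n generalizing q with
  | zero => exact (h0 q (by simpa using hn)).trans le_sup_left
  | succ n ih =>
    refine (hs q).trans (sup_le (sup_le le_sup_left ?_) ?_)
    · rintro _ ⟨f, hf, rfl⟩
      obtain ⟨d, hd, y, hy, rfl⟩ := Submodule.mem_sup.1 (ih (q - 2) (by push_cast at hn; omega) hf)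
      rw [LinearMap.mulLeft_apply, mul_add]
      refine Submodule.add_mem_sup (by simpa using hD _ _ hd) ?_
      clear hf
      induction hy using Submodule.span_induction with
      | mem y hy =>
        obtain ⟨x, h1, h2, rfl⟩ := hy
        exact Submodule.subset_span ⟨(x.1, x.2 + 1), h1, by push_cast; omega,
          by rw [← mul_assoc, ← pow_succ']⟩
      | zero => simp
      | add x y _ _ hx hy => rw [mul_add]; exact add_mem hx hy
      | smul a x _ hx => rw [mul_smul_comm]; exact Submodule.smul_mem _ a hx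
    · refine le_trans (Submodule.span_mono ?_) le_sup_right
      rintro _ ⟨γ, h1, h2, rfl⟩
      exact ⟨(γ, 0), h1, by simpa using h2, by simp⟩

theorem v5_indep (hF : ∀ p, ∀ f ∈ F p, s * f ∈ F (p + 2))
    (hN : ∀ p, ∀ f, s * f ∈ D (p + 2) → f ∈ D p) (hw : ∀ γ, A γ → w γ ∈ F (pp γ))
    (hi : ∀ (p : ℤ) (t : Finset Γ) (g : Γ → ℚ), (∀ γ ∈ t, A γ ∧ pp γ = p) →
      ∑ γ ∈ t, g γ • w γ ∈ D p ⊔ (F (p - 2)).map (LinearMap.mulLeft ℚ s) → ∀ γ ∈ t, g γ = 0)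
    (g : Γ × ℕ → ℚ) (n : ℕ) : ∀ (j : ℕ) (q : ℤ) (t : Finset (Γ × ℕ)),
      (∀ x ∈ t, A x.1 ∧ j ≤ x.2 ∧ x.2 < j + n ∧ pp x.1 + 2 * (x.2 - j) = q) →
      ∑ x ∈ t, g x • (s ^ (x.2 - j) * w x.1) ∈ D q → ∀ x ∈ t, g x = 0 := by
  classical
  induction n with
  | zero => intro j q t h _ x hx; have := h x hx; omega
  | succ n ih =>
    intro j q t h hm
    rw [← sum_filter_add_sum_filter_not t fun x => x.2 = j] at hm
    obtain ⟨Y, hY⟩ : ∃ Y, Y = ∑ x ∈ t.filter fun x => ¬ x.2 = j,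
      g x • (s ^ (x.2 - (j + 1)) * w x.1) := ⟨_, rfl⟩
    have e1 : ∑ x ∈ t.filter fun x => ¬ x.2 = j, g x • (s ^ (x.2 - j) * w x.1) = s * Y := by
      rw [hY, mul_sum]
      refine sum_congr rfl fun x hx => ?_
      obtain ⟨h1, h2⟩ := mem_filter.1 hx
      have := h x h1
      rw [mul_smul_comm, ← mul_assoc, ← pow_succ', show x.2 - (j + 1) + 1 = x.2 - j by omega]
    have e2 : Y ∈ F (q - 2) := by
      rw [hY]
      refine sum_mem fun x hx => Submodule.smul_mem _ _ ?_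
      obtain ⟨h1, h2⟩ := mem_filter.1 hx
      have := h x h1
      have k := v5_pow s F hF (hw _ this.1) (x.2 - (j + 1))
      rwa [show pp x.1 + 2 * ((x.2 - (j + 1) : ℕ) : ℤ) = q - 2 by omega] at k
    have e3 : ∑ x ∈ t.filter fun x => x.2 = j, g x • (s ^ (x.2 - j) * w x.1) =
        ∑ γ ∈ (t.filter fun x => x.2 = j).image Prod.fst, g (γ, j) • w γ := by
      rw [sum_image]
      · refine sum_congr rfl fun x hx => ?_
        obtain ⟨γ, k⟩ := x
        obtain rfl : k = j := (mem_filter.1 hx).2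
        simp
      · intro x hx y hy e
        exact Prod.ext e ((mem_filter.1 hx).2.trans (mem_filter.1 hy).2.symm)
    rw [e1, e3] at hm
    have z0 : ∀ γ ∈ (t.filter fun x => x.2 = j).image Prod.fst, g (γ, j) = 0 := by
      refine hi q _ (fun γ => g (γ, j)) (fun γ hγ => ?_) ?_
      · obtain ⟨x, hx, rfl⟩ := mem_image.1 hγ
        obtain ⟨h1, h2⟩ := mem_filter.1 hx
        have := h x h1
        exact ⟨this.1, by omega⟩
      · have := sub_mem (Submodule.mem_sup_left hm)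
          (Submodule.mem_sup_right (S := D q) (Submodule.mem_map_of_mem
            (f := LinearMap.mulLeft ℚ s) e2))
        simpa using this
    rw [sum_eq_zero fun γ hγ => by rw [z0 γ hγ, zero_smul], zero_add] at hm
    have z1 := ih (j + 1) (q - 2) (t.filter fun x => ¬ x.2 = j) (fun x hx => by
      obtain ⟨h1, h2⟩ := mem_filter.1 hx
      have := h x h1
      refine ⟨this.1, by omega, by omega, by push_cast; omega⟩)
      (hY ▸ hN _ _ (by simpa using hm))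
    intro x hx
    by_cases e : x.2 = j
    · have := z0 x.1 (mem_image_of_mem _ (mem_filter.2 ⟨hx, e⟩))
      rwa [← e] at this
    · exact z1 x (mem_filter.2 ⟨hx, e⟩)

end Abs

namespace Dat

variable {D : Dat U I} {θ : I → ℚ}

/-- The sum of the variables of a set. -/
noncomputable def v5s (B : Finset U) : P U := ∑ u ∈ B, X u

theorem v5s_hom (B : Finset U) : (v5s B).IsHomogeneous 1 :=
  IsHomogeneous.sum _ _ _ fun u _ => isHomogeneous_X ℚ u

theorem v5_dd (B : Finset U) : dd B (v5s B) = C (#B : ℚ) := by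
  have e : ∀ u ∈ B, dd B (X u : P U) = 1 := fun u hu => by
    have e0 : ∀ T : Finset U, (∑ v ∈ T, pderiv v : Derivation ℚ (P U) (P U)) (X u) =
        ∑ v ∈ T, pderiv v (X u : P U) := fun T => by
      induction T using Finset.induction_on with
      | empty => simp
      | insert a T ha ih => rw [sum_insert ha, sum_insert ha, Derivation.add_apply, ih]
    rw [dd, e0, sum_eq_single u]
    · simp
    · intro v _ hv
      exact pderiv_X_of_ne hv.symm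
    · exact fun h => absurd hu h
  rw [v5s, map_sum, sum_congr rfl e]
  simp

theorem v5_sg (g : Perm U) (f : P U) : sg 1 g f = rename g f := by
  rw [sg, rename_eq_aeval]
  simp [Function.comp_def]

theorem v5_T_F {g : Perm U} (hg : D.LP g) {S S' : Finset U} {p : ℤ} {f : P U}
    (hf : f ∈ D.F θ S ∅ p) : D.T S' g f ∈ D.F θ (g • S) ∅ p :=
  Submodule.smul_mem _ _ (v5_sg g f ▸ sg_F one_ne_zero hg hf)

theorem v5_T_D {g : Perm U} (hg : D.LP g) {S S' : Finset U} {p : ℤ} {f : P U}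
    (hf : f ∈ D.Dc θ S p) : D.T S' g f ∈ D.Dc θ (g • S) p :=
  Submodule.smul_mem _ _ (v5_sg g f ▸ sg_D one_ne_zero hg hf)

theorem v5_s_F {B : Finset U} {p : ℤ} {f : P U} (hf : f ∈ D.F θ B ∅ p) :
    v5s B * f ∈ D.F θ B ∅ (p + 2) := by
  rw [v5s, sum_mul]
  exact sum_mem fun u hu => X_mul_F hf hu

theorem v5_s_D {B : Finset U} {p : ℤ} {f : P U} (hf : f ∈ D.Dc θ B p) :
    v5s B * f ∈ D.Dc θ B (p + 2) := by
  rw [v5s, sum_mul]
  exact sum_mem fun u hu => X_mul_D hf hu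

theorem v5_s_H {B : Finset U} {f : P U} (hf : f ∈ D.H B) : v5s B * f ∈ D.H B := by
  refine ⟨mul_mem_PS (sum_mem fun u hu => X_mem_PS hu) hf.1, fun g hg => ?_⟩
  have e : rename g (v5s B) = v5s B := by
    rw [v5s, map_sum]
    simp only [rename_X]
    rw [← sum_smul' g B fun u => (X u : P U), WS_smul hg]
  rw [T_apply, map_mul, e, ← mul_smul_comm, ← T_apply, hf.2 g hg]

theorem v5_nz_D {B : Finset U} (hB : B.Nonempty) (p : ℤ) (f : P U)
    (h : v5s B * f ∈ D.Dc θ B (p + 2)) : f ∈ D.Dc θ B p :=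
  NZ (fun p f => f ∈ D.Dc θ B p) (fun _ => zero_mem _) (fun _ _ _ => sub_mem)
    (fun _ c _ => Submodule.smul_mem _ c) B (v5s B) #B
    (Nat.cast_ne_zero.2 (card_pos.2 hB).ne') (v5_dd B) (fun _ _ => dd_D) (fun _ _ => v5_s_D) p f h

theorem v5_nz_F {B : Finset U} (hB : B.Nonempty) (p : ℤ) (f : P U)
    (h : v5s B * f ∈ D.F θ B ∅ (p + 2)) : f ∈ D.F θ B ∅ p :=
  NZ (fun p f => f ∈ D.F θ B ∅ p) (fun _ => zero_mem _) (fun _ _ _ => sub_mem)
    (fun _ c _ => Submodule.smul_mem _ c) B (v5s B) #B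
    (Nat.cast_ne_zero.2 (card_pos.2 hB).ne') (v5_dd B) (fun _ _ => dd_F) (fun _ _ => v5_s_F) p f h

theorem v5_low {B : Finset U} (hB : B.Nonempty) (h0 : D.et θ B = 0) {p : ℤ} (hp : p ≤ 0) :
    D.F θ B ∅ p ≤ D.Dc θ B p := fun _ hf =>
  Submodule.mem_sup_left (F_of_JT ∅ _ hf.1 (JT_of_F hB h0 hp hf))

theorem v5_sb {b : Finset U} (hb : b.Nonempty) (h0 : D.et θ b = 0) :
    (D.sb (D.ty b)).Nonempty ∧ D.et θ (D.sb (D.ty b)) = 0 := by
  refine ⟨nonempty_iff_ne_empty.2 fun e => hb.ne_empty ((ty_eq_zero (D := D)).1 ?_), ?_⟩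
  · rw [← D.ty_sb b, e, ty_empty]
  · rw [et_eq, ty_sb, ← et_eq, h0]

theorem v5_gens {Γ : Type} (e : Γ → I → ℕ) (pp : Γ → ℤ) (dg : Γ → ℕ) (w : Γ → P U)
    (ex : ∀ γ, ∃ b : Finset U, b.Nonempty ∧ D.et θ b = 0 ∧ D.ty b = e γ)
    (hw : ∀ γ, w γ ∈ D.F θ (D.sb (e γ)) ∅ (pp γ) ⊓ D.H (D.sb (e γ)))
    (hom : ∀ γ, (w γ).IsHomogeneous (dg γ))
    (span : ∀ B : Finset U, B.Nonempty → D.et θ B = 0 → D.sb (D.ty B) = B → ∀ p,
      D.F θ B ∅ p ⊓ D.H B ≤ D.Dc θ B p ⊔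
        (D.F θ B ∅ (p - 2) ⊓ D.H B).map (LinearMap.mulLeft ℚ (v5s B)) ⊔
        Submodule.span ℚ {y | ∃ γ, e γ = D.ty B ∧ pp γ = p ∧ y = w γ})
    (indep : ∀ B : Finset U, B.Nonempty → D.et θ B = 0 → D.sb (D.ty B) = B →
      ∀ (p : ℤ) (t : Finset Γ) (g : Γ → ℚ), (∀ γ ∈ t, e γ = D.ty B ∧ pp γ = p) →
      ∑ γ ∈ t, g γ • w γ ∈ D.Dc θ B p ⊔
        (D.F θ B ∅ (p - 2) ⊓ D.H B).map (LinearMap.mulLeft ℚ (v5s B)) → ∀ γ ∈ t, g γ = 0) :
    ∃ G : D.Gens θ (Γ × ℕ), ∀ γ k, G.e (γ, k) = e γ ∧ G.dg (γ, k) = dg γ + k := by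
  have hs : ∀ (B : Finset U) (p : ℤ), ∀ f ∈ D.F θ B ∅ p ⊓ D.H B,
      v5s B * f ∈ D.F θ B ∅ (p + 2) ⊓ D.H B := fun B p f hf => ⟨v5_s_F hf.1, v5_s_H hf.2⟩
  have hv : ∀ x : Γ × ℕ, v5s (D.sb (e x.1)) ^ x.2 * w x.1 ∈
      D.F θ (D.sb (e x.1)) ∅ (pp x.1 + 2 * x.2) ⊓ D.H (D.sb (e x.1)) := fun x =>
    v5_pow _ (fun p => D.F θ (D.sb (e x.1)) ∅ p ⊓ D.H (D.sb (e x.1))) (hs _) (hw x.1) x.2
  have hty : ∀ γ, D.ty (D.sb (e γ)) = e γ := fun γ => by
    obtain ⟨b, -, -, h⟩ := ex γ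
    rw [← h, ty_sb]
  refine ⟨⟨fun x => e x.1, fun x => D.fam (D.sb (e x.1)) (v5s (D.sb (e x.1)) ^ x.2 * w x.1),
    fun x => pp x.1 + 2 * x.2, fun x => dg x.1 + x.2, fun x => ex x.1, fun x => Eqv_fam (hv x).2,
    fun x b h => fam_of_ne _ (by rwa [hty]), fun x b => ?_, fun x b => ?_,
    fun b q hb h0 f hf hH => ?_, fun b q c hc hm => ?_⟩, fun _ _ => ⟨rfl, rfl⟩⟩
  · by_cases h : D.ty b = D.ty (D.sb (e x.1))
    · obtain ⟨g, hg, rfl⟩ := exists_LP h.symm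
      rw [fam_smul (hv x).2 hg]
      exact v5_T_F hg (hv x).1
    · rw [fam_of_ne _ h]; exact zero_mem _
  · by_cases h : D.ty b = D.ty (D.sb (e x.1))
    · obtain ⟨g, hg, rfl⟩ := exists_LP h.symm
      rw [fam_smul (hv x).2 hg]
      refine T_hom _ _ ?_
      have := ((v5s_hom (D.sb (e x.1))).pow x.2).mul (hom x.1)
      rwa [one_mul, add_comm] at this
    · rw [fam_of_ne _ h]; exact isHomogeneous_zero _ _ _
  · obtain ⟨hB, hB0⟩ := v5_sb hb h0
    obtain ⟨B, eB⟩ : ∃ B, B = D.sb (D.ty b) := ⟨_, rfl⟩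
    rw [← eB] at hB hB0
    have tB : D.ty B = D.ty b := by rw [eB, ty_sb]
    have sB : D.sb (D.ty B) = B := by rw [tB, eB]
    obtain ⟨g, hg, rfl⟩ := exists_LP tB
    have h1 : D.T (g • B) g⁻¹ f ∈ D.F θ B ∅ q ⊓ D.H B := by
      have a := v5_T_F (S' := g • B) hg.inv hf
      have a' := T_H hg.inv hH
      rw [inv_smul_smul] at a a'
      exact ⟨a, a'⟩
    have h2 := v5_span (v5s B) (fun p => D.F θ B ∅ p ⊓ D.H B) (D.Dc θ B)
      (fun γ => e γ = D.ty B) pp w (fun _ _ => v5_s_D)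
      (fun p hp => inf_le_left.trans (v5_low hB hB0 hp)) (span B hB hB0 sB) q h1
    obtain ⟨d, hd, y, hy, ed⟩ := Submodule.mem_sup.1 h2
    have h3 : f = D.T B g d + D.T B g y := by
      have := T_T hg hg.inv (g • B) f
      rw [inv_smul_smul, mul_inv_cancel, T_one] at this
      rw [← map_add, ed, this]
    rw [h3]
    refine Submodule.add_mem_sup (v5_T_D hg hd) ?_
    clear ed h3
    induction hy using Submodule.span_induction with
    | mem y hy =>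
      obtain ⟨x, k1, k2, rfl⟩ := hy
      have k3 : D.sb (e x.1) = B := by rw [k1, sB]
      refine Submodule.subset_span ⟨x, k2, ?_⟩
      have k4 := (hv x).2
      simp only [k3] at k4 ⊢
      exact (fam_smul k4 hg).symm
    | zero => simp
    | add x y _ _ hx hy => rw [map_add]; exact add_mem hx hy
    | smul a x _ hx => rw [map_smul]; exact Submodule.smul_mem _ a hx
  · by_contra hne
    obtain ⟨x0, hx0⟩ := Finsupp.support_nonempty_iff.2 hne
    obtain ⟨b', hb, h0, hb'⟩ := ex x0.1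
    obtain ⟨hB, hB0⟩ := v5_sb hb h0
    obtain ⟨B, eB⟩ : ∃ B, B = D.sb (D.ty b') := ⟨_, rfl⟩
    rw [← eB] at hB hB0
    have tB : D.ty B = D.ty b := by rw [eB, ty_sb, hb', (hc x0 hx0).1]
    have sB : D.sb (D.ty B) = B := by rw [eB, ty_sb]
    obtain ⟨g, hg, rfl⟩ := exists_LP tB
    have h1 := v5_T_D (S' := g • B) hg.inv hm
    rw [inv_smul_smul, Finsupp.sum, map_sum] at h1
    have h2 : ∀ x ∈ c.support, D.T (g • B) g⁻¹ (c x • D.fam (D.sb (e x.1))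
        (v5s (D.sb (e x.1)) ^ x.2 * w x.1) (g • B)) = c x • (v5s B ^ (x.2 - 0) * w x.1) := by
      intro x hx
      have k3 : D.sb (e x.1) = B := by rw [← (hc x hx).1, ← tB, sB]
      have k4 := (hv x).2
      simp only [k3] at k4 ⊢
      rw [map_smul, fam_smul k4 hg, T_T hg.inv hg, inv_mul_cancel, T_one, Nat.sub_zero]
    rw [sum_congr rfl h2] at h1
    refine Finsupp.mem_support_iff.1 hx0 (v5_indep (v5s B) (fun p => D.F θ B ∅ p ⊓ D.H B)
      (D.Dc θ B) (fun γ => e γ = D.ty B) pp w (hs B) (v5_nz_D hB) (fun γ h => ?_)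
      (indep B hB hB0 sB) c (c.support.sup Prod.snd + 1) 0 q c.support (fun x hx => ?_) h1 x0 hx0)
    · have := hw γ
      rwa [h, sB] at this
    · have a := hc x hx
      have a' : x.2 ≤ c.support.sup Prod.snd := le_sup (f := Prod.snd) hx
      exact ⟨by rw [tB, a.1], Nat.zero_le _, by omega, by simpa using a.2⟩

theorem v5_graded_F (B : Finset U) (p : ℤ) : Graded (D.F θ B ∅ p) := fun _ hf m =>
  comp_mem _ (fun f hf => by simpa using sg_F (c := 2) two_ne_zero D.LP_one hf) hf m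

theorem v5_graded_D (B : Finset U) (p : ℤ) : Graded (D.Dc θ B p) := fun _ hf m =>
  comp_mem _ (fun f hf => by simpa using sg_D (c := 2) two_ne_zero D.LP_one hf) hf m

theorem v5_graded_map {N : Submodule ℚ (P U)} (hN : Graded N) {s : P U} {n : ℕ}
    (hs : s.IsHomogeneous n) : Graded (N.map (LinearMap.mulLeft ℚ s)) := by
  have e : N.map (LinearMap.mulLeft ℚ s) =
      Submodule.span ℚ {y | ∃ f ∈ N, (∃ m, f.IsHomogeneous m) ∧ y = s * f} := by
    refine le_antisymm ?_ (Submodule.span_le.2 ?_)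
    · rintro _ ⟨f, hf, rfl⟩
      rw [LinearMap.mulLeft_apply, ← sum_homogeneousComponent f, mul_sum]
      exact sum_mem fun m _ => Submodule.subset_span
        ⟨_, hN f hf m, ⟨m, homogeneousComponent_isHomogeneous m f⟩, rfl⟩
    · rintro _ ⟨f, hf, -, rfl⟩
      exact ⟨f, hf, rfl⟩
  rw [e]
  exact graded_span fun _ ⟨f, _, ⟨m, hm⟩, h⟩ => ⟨n + m, h ▸ hs.mul hm⟩

theorem exists_gens (D : Dat U I) (θ : I → ℚ) : ∃ (Γ : Type) (G : D.Gens θ (Γ × ℕ)),
    ∀ γ k, G.e (γ, k) = G.e (γ, 0) ∧ G.dg (γ, k) = G.dg (γ, 0) + k := by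
  classical
  obtain ⟨E, hE⟩ : ∃ E : Set (I → ℕ), ∀ e, e ∈ E ↔
    ∃ b : Finset U, b.Nonempty ∧ D.et θ b = 0 ∧ D.ty b = e := ⟨_, fun _ => Iff.rfl⟩
  have h : ∀ x : E × ℤ, ∃ (ι : Type) (v : ι → P U) (dg : ι → ℕ),
      GB (D.F θ (D.sb x.1) ∅ x.2 ⊓ D.H (D.sb x.1))
      (D.Dc θ (D.sb x.1) x.2 ⊔ (D.F θ (D.sb x.1) ∅ (x.2 - 2) ⊓ D.H (D.sb x.1)).map
        (LinearMap.mulLeft ℚ (v5s (D.sb x.1)))) v dg := fun x =>
    let ⟨v, hv⟩ := exists_GB ((v5_graded_F _ _).inf (D.graded_H _)) ((v5_graded_D _ _).sup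
      (v5_graded_map ((v5_graded_F _ _).inf (D.graded_H _)) (v5s_hom _)))
    ⟨_, v, _, hv⟩
  choose ι v dg hv using h
  obtain ⟨G, hG⟩ := v5_gens (D := D) (θ := θ) (Γ := Σ x : E × ℤ, ι x) (fun γ => γ.1.1.1)
    (fun γ => γ.1.2) (fun γ => dg γ.1 γ.2) (fun γ => v γ.1 γ.2)
    (fun γ => (hE _).1 γ.1.1.2) (fun γ => (hv γ.1).mem γ.2)
    (fun γ => (hv γ.1).hom γ.2) (fun B hB h0 sB p => by
      have hm : D.ty B ∈ E := (hE _).2 ⟨B, hB, h0, rfl⟩
      have := (hv (⟨_, hm⟩, p)).span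
      simp only [sB] at this
      refine this.trans (sup_le_sup_left (Submodule.span_mono ?_) _)
      rintro _ ⟨i, rfl⟩
      exact ⟨⟨(⟨_, hm⟩, p), i⟩, rfl, rfl, rfl⟩) (fun B hB h0 sB p t g ht hsum => by
      have hm : D.ty B ∈ E := (hE _).2 ⟨B, hB, h0, rfl⟩
      have hr : ∀ γ ∈ t, γ ∈ Set.range (Sigma.mk (β := ι) ((⟨_, hm⟩, p) : E × ℤ)) := by
        rintro ⟨x, i⟩ hγ
        obtain rfl : x = (⟨_, hm⟩, p) := Prod.ext (Subtype.ext (ht _ hγ).1) (ht _ hγ).2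
        exact ⟨i, rfl⟩
      rw [← sum_preimage (Sigma.mk (β := ι) ((⟨_, hm⟩, p) : E × ℤ)) t sigma_mk_injective.injOn _
        fun γ hγ h => absurd (hr γ hγ) h] at hsum
      have li := linearIndependent_iff'.1 (hv (⟨_, hm⟩, p)).linearIndependent
        (t.preimage (Sigma.mk (β := ι) ((⟨_, hm⟩, p) : E × ℤ)) sigma_mk_injective.injOn)
        (fun i => g ⟨_, i⟩) (by
          simp only [← map_smul, ← map_sum]
          rw [Submodule.mkQ_apply, Submodule.Quotient.mk_eq_zero]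
          simp only [sB]
          exact hsum)
      intro γ hγ
      obtain ⟨i, rfl⟩ := hr γ hγ
      exact li i (mem_preimage.2 hγ))
  exact ⟨_, G, fun γ k => ⟨by rw [(hG γ k).1, (hG γ 0).1], by rw [(hG γ k).2, (hG γ 0).2]; rfl⟩⟩

end Dat

end Pool.Agent.Lib.MP_33bfb2_co.Th.R
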