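import Pool.Agent.Lib.MP_33bfb2_co.Th.RV5

namespace Pool.Agent.Lib.MP_33bfb2_co.Th.R

open MvPolynomial Finset Equiv
open scoped Pointwise

set_option linter.unusedSectionVars false

variable {U I : Type} [Fintype U] [LinearOrder U] [Fintype I] [DecidableEq I]

namespace Dat

variable {D : Dat U I} {θ : I → ℚ}

theorem v5t_ty (u : U) : D.ty {u} = Pi.single (D.lab u) 1 := by
  funext i
  by_cases h : D.lab u = i
  · subst h
    simp [ty, filter_singleton]
  · simp [ty, filter_singleton, h]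

theorem v5t_et (S : Finset U) : D.et 0 S = 0 := by simp [et]

theorem v5t_JT (S : Finset U) : D.JT 0 S = ⊥ :=
  Ideal.span_eq_bot.2 fun k ⟨A, _, h, _⟩ => by simp [et] at h

theorem v5t_one_F (u : U) : (1 : P U) ∈ D.F θ {u} ∅ 1 := by
  refine ⟨one_mem_PS _, ?_⟩
  simp only [Submodule.mem_iInf, SetLike.mem_coe]
  intro be _ _
  have h := OO_deg be (D.JJ θ {u} be) 1
  refine OO_mono (stab_JJ _ _) le_rfl ?_ h
  simp

theorem v5t_one_H (u : U) : (1 : P U) ∈ D.H {u} :=
  ⟨one_mem_PS _, fun g hg => T_fix (fun p hp => by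
    have := WS_smul hg
    rw [mem_singleton.1 hp, ← mem_singleton, ← this]
    simp) (one_mem_PS _)⟩

theorem v5t_all_H (u : U) {f : P U} (hf : f ∈ PS {u}) : f ∈ D.H {u} :=
  ⟨hf, fun g hg => T_fix (fun p hp => by
    have := WS_smul hg
    rw [mem_singleton.1 hp, ← mem_singleton, ← this]
    simp) hf⟩

theorem v5t_div (u : U) {f : P U} (hf : f ∈ PS {u}) :
    ∃ c : ℚ, ∃ f' ∈ PS {u}, f = c • (1 : P U) + X u * f' := by
  refine PS_induction (p := fun f => ∃ c : ℚ, ∃ f' ∈ PS {u}, f = c • (1 : P U) + X u * f')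
    (fun c => ⟨c, 0, zero_mem _, by simp [C_eq_smul_one]⟩) ?_ ?_ hf
  · rintro f g - - ⟨c, f', h1, rfl⟩ ⟨c', g', h2, rfl⟩
    exact ⟨c + c', f' + g', add_mem h1 h2, by rw [add_smul, mul_add]; abel⟩
  · intro f i h1 hi _
    rw [mem_singleton.1 hi]
    exact ⟨0, f, h1, by simp⟩

theorem v5t_big (ha : ∀ i j, D.a i j = 0) {B : Finset U} (hB : 1 < #B) (p : ℤ) :
    D.F 0 B ∅ p ≤ D.Dc 0 B p := by
  obtain ⟨u, hu⟩ := card_pos.1 (zero_lt_one.trans hB)
  have hk : ∀ A A' : Finset U, D.kap A A' = 0 := fun A A' => by simp [kap, W, ha]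
  have hK : ∀ A A' : Finset U, D.Kk A A' = 1 := fun A A' => by simp [Kk, W, ha]
  have hU : {u} ∪ B.erase u = B := by rw [← insert_eq, insert_erase hu]
  have hd : Disjoint {u} (B.erase u) := disjoint_singleton_left.2 (notMem_erase u B)
  have hne : (B.erase u).Nonempty := card_pos.1 (by rw [card_erase_of_mem hu]; omega)
  intro f hf
  have h1 : f ∈ D.F 0 ({u} ∪ B.erase u) {{u}} p := by
    rw [hU]
    exact F_mono (Set.empty_subset _) le_rfl hf
  have h2 := T2 (fun A A' _ _ => by rw [hk, hk]) hd (v5t_et _) (v5t_et _) h1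
  refine Submodule.mem_sup_right (Submodule.span_mono ?_ h2)
  rintro _ ⟨i, j, f, hf, g, hg, hij, rfl⟩
  exact ⟨{u}, B.erase u, i, j, f, hf, g, hg, singleton_nonempty u, hne, hd, hU, v5t_et _,
    v5t_et _, by simpa [hk] using hij, by rw [hK, mul_one]⟩

theorem exists_gens_triv (ha : ∀ i j, D.a i j = 0) (hl : Function.Surjective D.lab) :
    ∃ G : D.Gens 0 (I × ℕ), ∀ i k, G.e (i, k) = Pi.single i 1 ∧ G.dg (i, k) = k := by
  have hs : ∀ (i : I) (B : Finset U), D.ty B = Pi.single i 1 → ∃ u, B = {u} ∧ D.lab u = i := by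
    intro i B h
    obtain ⟨u0, rfl⟩ := hl i
    rw [← v5t_ty] at h
    obtain ⟨u, rfl⟩ := card_eq_one.1 ((card_eq_of_ty h).trans (card_singleton u0))
    refine ⟨u, rfl, ?_⟩
    rw [v5t_ty, v5t_ty] at h
    by_contra hne
    have := congrFun h (D.lab u)
    rw [Pi.single_eq_same, Pi.single_eq_of_ne hne] at this
    exact one_ne_zero this
  have hsb : ∀ i : I, D.ty (D.sb (Pi.single i 1)) = Pi.single i 1 := fun i => by
    obtain ⟨u, rfl⟩ := hl i
    rw [← v5t_ty, ty_sb]
  obtain ⟨G, hG⟩ := v5_gens (D := D) (θ := 0) (Γ := I) (fun i => Pi.single i 1) (fun _ => 1)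
    (fun _ => 0) (fun _ => 1)
    (fun i => by
      obtain ⟨u, rfl⟩ := hl i
      exact ⟨{u}, singleton_nonempty u, v5t_et _, v5t_ty u⟩)
    (fun i => by
      obtain ⟨u, h, -⟩ := hs i _ (hsb i)
      rw [h]
      exact ⟨v5t_one_F u, v5t_one_H u⟩)
    (fun _ => isHomogeneous_one U ℚ)
    (fun B hB h0 _ p f hf => by
      rcases (Nat.succ_le_of_lt (card_pos.2 hB)).eq_or_lt with h | h
      swap
      · exact Submodule.mem_sup_left (Submodule.mem_sup_left (v5t_big ha h p hf.1))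
      obtain ⟨u, rfl⟩ := card_eq_one.1 h.symm
      rcases le_or_gt p 0 with hp | hp
      · exact Submodule.mem_sup_left (Submodule.mem_sup_left (v5_low hB h0 hp hf.1))
      obtain ⟨c, f', h1, e⟩ := v5t_div u hf.1.1
      have es : v5s {u} = X u := by simp [v5s]
      have h2 : c • (1 : P U) ∈ D.F 0 {u} ∅ p :=
        Submodule.smul_mem _ _ (F_mono subset_rfl (by omega) (v5t_one_F u))
      have h3 : f' ∈ D.F 0 {u} ∅ (p - 2) := v5_nz_F hB _ _ (by
        have := sub_mem hf.1 h2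
        rw [e, add_sub_cancel_left] at this
        rwa [es, sub_add_cancel])
      rw [e]
      refine add_mem ?_ (Submodule.mem_sup_left (Submodule.mem_sup_right
        ⟨f', ⟨h3, v5t_all_H u h1⟩, by rw [LinearMap.mulLeft_apply, es]⟩))
      rcases (Int.add_one_le_of_lt hp).eq_or_lt with h4 | h4
      · exact Submodule.mem_sup_right (Submodule.smul_mem _ _ (Submodule.subset_span
          ⟨D.lab u, (v5t_ty u).symm, by omega, rfl⟩))
      · exact Submodule.mem_sup_left (Submodule.mem_sup_left (Submodule.mem_sup_left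
          (Submodule.smul_mem _ _ (F_mono subset_rfl (by omega) (v5t_one_F u))))))
    (fun B hB h0 _ p t g ht hm i hi => by
      obtain ⟨u, rfl, hu⟩ := hs i B (ht i hi).1.symm
      obtain rfl : (1 : ℤ) = p := (ht i hi).2
      have ht' : t = {i} := eq_singleton_iff_unique_mem.2 ⟨hi, fun j hj => by
        obtain ⟨u', h1, h2⟩ := hs j _ (ht j hj).1.symm
        rw [← h2, ← hu, singleton_injective h1]⟩
      have hz : ∀ q ≤ (0 : ℤ), D.F 0 {u} ∅ q ≤ ⊥ := fun q hq f hf => by
        have := JT_of_F hB h0 hq hf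
        rwa [v5t_JT] at this
      have hb : D.Dc 0 {u} 1 ⊔ (D.F 0 {u} ∅ (1 - 2) ⊓ D.H {u}).map
          (LinearMap.mulLeft ℚ (v5s {u})) ≤ ⊥ := by
        refine sup_le (sup_le (hz _ (by omega)) (Submodule.span_le.2 ?_)) ?_
        · rintro _ ⟨A, A', _, _, _, _, _, _, ⟨a, h1⟩, ⟨a', h2⟩, hd, hU, -⟩
          have k1 : a ∈ ({u} : Finset U) := hU ▸ mem_union_left _ h1
          have k2 : a' ∈ ({u} : Finset U) := hU ▸ mem_union_right _ h2
          rw [mem_singleton.1 k1] at h1
          rw [mem_singleton.1 k2] at h2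
          exact absurd h2 (disjoint_left.1 hd h1)
        · rintro _ ⟨f, hf, rfl⟩
          rw [(Submodule.mem_bot _).1 (hz _ (by omega) hf.1), map_zero]
          exact zero_mem _
      have := (Submodule.mem_bot _).1 (hb hm)
      rw [ht', sum_singleton] at this
      simpa using this)
  exact ⟨G, fun i k => ⟨(hG i k).1, by rw [(hG i k).2, zero_add]⟩⟩

end Dat

end Pool.Agent.Lib.MP_33bfb2_co.Th.R
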