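import Pool.Agent.Lib.MP_33bfb2_co.Th.RV2
import Pool.Agent.Lib.MP_33bfb2_co.Th.RTwo0

namespace Pool.Agent.Lib.MP_33bfb2_co.Th.R

open MvPolynomial Finset Equiv
open scoped Pointwise

set_option linter.unusedSectionVars false

variable {U I : Type} [Fintype U] [LinearOrder U] [Fintype I] [DecidableEq I]

namespace Dat

variable {D : Dat U I} {θ : I → ℚ}

variable (D θ) in
/-- Families that live on sets of stability zero and have weight at most p. -/
def Lv (v : Finset U → P U) (p : ℤ) : Prop :=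
  ∀ b, v b ∈ D.F θ b ∅ p ∧ (v b ≠ 0 → D.et θ b = 0)

theorem v6_et_sdiff {S b : Finset U} (hb : b ⊆ S) :
    D.et θ S = D.et θ b + D.et θ (S \ b) := by
  rw [et, et, et, ← sum_sdiff hb, add_comm]

theorem v6_term (hs : D.Sym θ) {S b : Finset U} (hb : b ⊆ S) (h1 : D.et θ b = 0)
    (h2 : D.et θ (S \ b) = 0) {p q : ℤ} {f g : P U} (hf : f ∈ D.F θ b ∅ p)
    (hg : g ∈ D.F θ (S \ b) ∅ q) : f * D.Kt b (S \ b) * g ∈ D.F θ S ∅ (p + q) := by
  have := mul_F hs disjoint_sdiff h1 h2 hf hg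
  rw [union_sdiff_of_subset hb] at this
  rw [Kt, mul_smul_comm, smul_mul_assoc, mul_right_comm]
  exact Submodule.smul_mem _ _ this

theorem Lv.sh (hs : D.Sym θ) {v w : Finset U → P U} {p q : ℤ} (hv : D.Lv θ v p)
    (hw : D.Lv θ w q) : D.Lv θ (D.sh v w) (p + q) := fun S => by
  refine ⟨sum_mem fun b hb => ?_, fun h => ?_⟩
  · by_cases e : v b = 0
    · simp [e]
    by_cases e' : w (S \ b) = 0
    · simp [e']
    exact v6_term hs (mem_powerset.1 hb) ((hv b).2 e) ((hw _).2 e') (hv b).1 (hw _).1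
  · obtain ⟨b, hb, e⟩ := exists_ne_zero_of_sum_ne_zero h
    rw [v6_et_sdiff (mem_powerset.1 hb), (hv b).2 fun a => e (by simp [a]),
      (hw _).2 fun a => e (by simp [a]), add_zero]

theorem Lv.sub_smul {v w : Finset U → P U} {p p' q : ℤ} (hv : D.Lv θ v p) (hw : D.Lv θ w p')
    (s : ℚ) (h : ∀ S, v S - s • w S ∈ D.F θ S ∅ q) : D.Lv θ (fun S => v S - s • w S) q :=
  fun S => ⟨h S, fun e => by_contra fun a => e (by
    simp [not_not.1 (mt (hv S).2 a), not_not.1 (mt (hw S).2 a)])⟩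

theorem v6_sh_left (v v' w : Finset U → P U) (s : ℚ) (S : Finset U) :
    D.sh v w S - s • D.sh v' w S = D.sh (fun S => v S - s • v' S) w S := by
  simp only [sh, smul_sum, ← sum_sub_distrib, sub_mul, smul_mul_assoc]

theorem v6_sh_right (v w w' : Finset U → P U) (s : ℚ) (S : Finset U) :
    D.sh v w S - s • D.sh v w' S = D.sh v (fun S => w S - s • w' S) S := by
  simp only [sh, smul_sum, ← sum_sub_distrib, mul_sub, mul_smul_comm]

variable (D) in
/-- The parity of exchanging two types. -/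
def pr (e e' : I → ℕ) : ℕ := D.kv e e' + ∑ i ∈ univ.filter fun i => D.fer i = true, e i * e' i

theorem sw_eq {A B : Finset U} (h : Disjoint A B) :
    D.sw A B = (-1) ^ D.pr (D.ty A) (D.ty B) := by
  rw [sw, pr, pow_add, kap_eq_kv]
  congr 1
  have e : ∀ p ∈ A, ∀ q ∈ B, D.eta p q * D.eta q p =
      (-1) ^ (if D.lab p = D.lab q ∧ D.fer (D.lab p) = true then 1 else 0) := fun p hp q hq => by
    rw [D.eta_mul_swap (disjoint_iff_ne.1 h p hp q hq)]
    split_ifs <;> simp
  rw [etaS, etaS, prod_comm (s := B), ← prod_mul_distrib]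
  simp only [← prod_mul_distrib]
  rw [prod_congr rfl fun p hp => prod_congr rfl (e p hp)]
  simp only [prod_pow_eq_pow_sum]
  congr 1
  rw [D.sum_lab A fun i => ∑ q ∈ B, if i = D.lab q ∧ D.fer i = true then 1 else 0, sum_filter]
  refine sum_congr rfl fun i _ => ?_
  split_ifs with hi
  · simp only [hi, and_true, smul_eq_mul, ty, card_filter, eq_comm]
  · simp [hi]

theorem v6_swap (hs : D.Sym θ) {v w : Finset U → P U} {p q : ℤ} {e e' : I → ℕ} (hv : D.Lv θ v p)
    (hw : D.Lv θ w q) (ov : ∀ b, D.ty b ≠ e → v b = 0) (ow : ∀ b, D.ty b ≠ e' → w b = 0)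
    (S : Finset U) :
    D.sh v w S - ((-1 : ℚ) ^ D.pr e e') • D.sh w v S ∈ D.F θ S ∅ (p + q - 1) := by
  have r : D.sh w v S = ∑ b ∈ S.powerset, w (S \ b) * D.Kt (S \ b) b * v b := by
    refine sum_nbij' (S \ ·) (S \ ·) (by simp) (by simp) (fun b hb => ?_) (fun b hb => ?_)
      fun b hb => ?_
    · exact Finset.sdiff_sdiff_eq_self (mem_powerset.1 hb)
    · exact Finset.sdiff_sdiff_eq_self (mem_powerset.1 hb)
    · rw [Finset.sdiff_sdiff_eq_self (mem_powerset.1 hb)]
  rw [r, sh, smul_sum, ← sum_sub_distrib]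
  refine sum_mem fun b hb => ?_
  by_cases a : v b = 0
  · simp [a]
  by_cases a' : w (S \ b) = 0
  · simp [a']
  have := comm_F hs disjoint_sdiff ((hv b).2 a) ((hw _).2 a') (hv b).1 (hw _).1
  rw [union_sdiff_of_subset (mem_powerset.1 hb)] at this
  have k := D.Kt_sub b (S \ b)
  rw [sw_eq disjoint_sdiff, not_not.1 (mt (ov b) a), not_not.1 (mt (ow _) a')] at k
  convert Submodule.smul_mem _ (D.etaS b (S \ b)) this using 1
  simp only [smul_eq_C_mul] at k ⊢
  linear_combination (v b * w (S \ b)) * k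

variable {Γ : Type}

theorem Gens.lv (G : D.Gens θ Γ) (γ : Γ) : D.Lv θ (G.v γ) (G.p γ) := fun b =>
  ⟨G.mem γ b, fun h => by
    obtain ⟨c, -, h1, h2⟩ := G.ex γ
    rw [et_eq, not_not.1 (mt (G.off γ b) h), ← h2, ← et_eq, h1]⟩

theorem Gens.wd_cons (G : D.Gens θ Γ) (γ : Γ) (L : List Γ) :
    G.wd (γ :: L) = D.sh (G.v γ) (G.wd L) := rfl

theorem Gens.wd_append (G : D.Gens θ Γ) (L L' : List Γ) :
    G.wd (L ++ L') = D.sh (G.wd L) (G.wd L') := by
  rw [Gens.wd, List.map_append, word_append]; rfl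

theorem Gens.wd_eqv (G : D.Gens θ Γ) (L : List Γ) : D.Eqv (G.wd L) :=
  Eqv_word fun v hv => by
    obtain ⟨γ, -, rfl⟩ := List.mem_map.1 hv
    exact G.eqv γ

theorem wd_lv (hs : D.Sym θ) (G : D.Gens θ Γ) (L : List Γ) :
    D.Lv θ (G.wd L) (L.map G.p).sum := by
  induction L with
  | nil =>
    intro S
    show one S ∈ _ ∧ (one S ≠ 0 → _)
    unfold one
    split_ifs with h
    · subst h
      exact ⟨one_mem_F, fun _ => by simp [et]⟩
    · simp
  | cons γ L ih => exact (G.lv γ).sh hs ih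

theorem wd_F (hs : D.Sym θ) {Γ : Type} (G : D.Gens θ Γ) (L : List Γ) (S : Finset U) :
    G.wd L S ∈ D.F θ S ∅ (L.map G.p).sum := (wd_lv hs G L S).1

theorem wd_off {Γ : Type} (G : D.Gens θ Γ) (L : List Γ) {S : Finset U}
    (h : D.ty S ≠ (L.map G.e).sum) : G.wd L S = 0 := by
  induction L generalizing S with
  | nil => exact if_neg fun e => h (by simp [e])
  | cons γ L ih =>
    refine sum_eq_zero fun b hb => ?_
    by_cases e : D.ty b = G.e γ
    · have := ih (S := S \ b) fun e' => h (by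
        rw [← ty_sdiff (mem_powerset.1 hb), e, e', List.map_cons, List.sum_cons])
      rw [Gens.wd] at this
      rw [this, mul_zero]
    · simp [G.off γ b e]

theorem wd_perm (hs : D.Sym θ) {Γ : Type} (G : D.Gens θ Γ) {L L' : List Γ} (h : L.Perm L') :
    ∃ s : ℚ, (s = 1 ∨ s = -1) ∧
      ∀ S, G.wd L S - s • G.wd L' S ∈ D.F θ S ∅ ((L.map G.p).sum - 1) := by
  induction h with
  | nil => exact ⟨1, Or.inl rfl, fun S => by simp⟩
  | @cons γ L L' _ ih =>
    obtain ⟨s, h1, h2⟩ := ih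
    refine ⟨s, h1, fun S => ?_⟩
    rw [G.wd_cons, G.wd_cons, v6_sh_right, List.map_cons, List.sum_cons, add_sub_assoc]
    exact ((G.lv γ).sh hs ((wd_lv hs G L).sub_smul (wd_lv hs G L') s h2) S).1
  | swap x y L =>
    refine ⟨(-1) ^ D.pr (G.e y) (G.e x), neg_one_pow_eq_or _ _, fun S => ?_⟩
    simp only [G.wd_cons, ← sh_assoc, List.map_cons, List.sum_cons]
    rw [v6_sh_left, show G.p y + (G.p x + (L.map G.p).sum) - 1 =
      G.p y + G.p x - 1 + (L.map G.p).sum by ring]
    exact ((((G.lv y).sh hs (G.lv x)).sub_smul ((G.lv x).sh hs (G.lv y)) _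
      (v6_swap hs (G.lv y) (G.lv x) (G.off y) (G.off x))).sh hs (wd_lv hs G L) S).1
  | @trans L L' L'' h _ ih ih' =>
    obtain ⟨s, h1, h2⟩ := ih
    obtain ⟨s', h1', h2'⟩ := ih'
    refine ⟨s * s', by rcases h1 with rfl | rfl <;> rcases h1' with rfl | rfl <;> simp, fun S => ?_⟩
    rw [← (h.map G.p).sum_eq] at h2'
    convert add_mem (h2 S) (Submodule.smul_mem _ s (h2' S)) using 1
    rw [smul_sub, smul_smul, sub_add_sub_cancel]

/-- A repeated odd generator gives a lower term. -/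
theorem wd_odd (hs : D.Sym θ) (G : D.Gens θ Γ) {L : List Γ} (h : ¬ G.Adm L) (S : Finset U) :
    G.wd L S ∈ D.F θ S ∅ ((L.map G.p).sum - 1) := by
  classical
  obtain ⟨γ, ho, hγ⟩ : ∃ γ, D.OddT (G.e γ) ∧ {γ, γ} ≤ (L : Multiset Γ) := by
    simpa [Gens.Adm] using h
  obtain ⟨μ, hμ⟩ := Multiset.le_iff_exists_add.1 hγ
  have hp : L.Perm (γ :: γ :: μ.toList) := Multiset.coe_eq_coe.1 (by
    rw [hμ, ← Multiset.cons_coe, ← Multiset.cons_coe, Multiset.coe_toList]; simp)
  obtain ⟨s, -, h2⟩ := wd_perm hs G hp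
  have ho' : Odd (D.pr (G.e γ) (G.e γ)) := by
    have : (∑ i ∈ univ.filter fun i => D.fer i = true, G.e γ i * G.e γ i) ≡
        ∑ i ∈ univ.filter fun i => D.fer i = true, G.e γ i [MOD 2] :=
      Nat.ModEq.sum fun i _ => by
        rcases Nat.mod_two_eq_zero_or_one (G.e γ i) with e | e <;> simp [Nat.ModEq, Nat.mul_mod, e]
    rw [OddT, Nat.odd_iff] at ho
    rw [Nat.odd_iff, pr, ← ho]
    exact this.add_left _
  have h3 : D.Lv θ (D.sh (G.v γ) (G.v γ)) (G.p γ + G.p γ - 1) := fun b =>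
    ⟨by
      have := v6_swap hs (G.lv γ) (G.lv γ) (G.off γ) (G.off γ) b
      rw [ho'.neg_one_pow, neg_smul, one_smul, sub_neg_eq_add,
        ← two_smul ℚ (D.sh (G.v γ) (G.v γ) b)] at this
      exact (Submodule.smul_mem_iff _ (two_ne_zero (α := ℚ))).1 this, (((G.lv γ).sh hs (G.lv γ)) b).2⟩
  have h4 := (h3.sh hs (wd_lv hs G μ.toList) S).1
  rw [sh_assoc, show G.p γ + G.p γ - 1 + (μ.toList.map G.p).sum = (L.map G.p).sum - 1 by
    rw [(hp.map G.p).sum_eq]; simp only [List.map_cons, List.sum_cons]; ring] at h4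
  simpa [G.wd_cons] using add_mem (h2 S) (Submodule.smul_mem _ s h4)

theorem v6_kv_left (a b c : I → ℕ) : D.kv (a + b) c = D.kv a c + D.kv b c := by
  simp only [kv, Pi.add_apply, add_mul, sum_add_distrib]

theorem v6_kv_right (a b c : I → ℕ) : D.kv a (b + c) = D.kv a b + D.kv a c := by
  simp only [kv, Pi.add_apply, add_mul, mul_add, sum_add_distrib]

theorem wd_hom (hs : D.Sym θ) (G : D.Gens θ Γ) (L : List Γ) :
    ∃ m : ℕ, (∀ S, (G.wd L S).IsHomogeneous m) ∧
      2 * (L.map G.dg).sum + D.kv (L.map G.e).sum (L.map G.e).sum =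
        2 * m + (L.map fun γ => D.kv (G.e γ) (G.e γ)).sum := by
  induction L with
  | nil =>
    refine ⟨0, fun S => ?_, by simp [kv]⟩
    show (one S).IsHomogeneous 0
    unfold one
    split_ifs
    exacts [isHomogeneous_one _ _, isHomogeneous_zero _ _ _]
  | cons γ L ih =>
    obtain ⟨m, h1, h2⟩ := ih
    have sy : ∀ L : List Γ, D.kv (L.map G.e).sum (G.e γ) = D.kv (G.e γ) (L.map G.e).sum :=
      fun L => by
        induction L with
        | nil => simp [kv]
        | cons δ L ih =>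
          obtain ⟨b, -, b1, b2⟩ := G.ex γ
          obtain ⟨c, -, c1, c2⟩ := G.ex δ
          have := hs b c b1 c1
          rw [kap_eq_kv, kap_eq_kv, b2, c2] at this
          rw [List.map_cons, List.sum_cons, v6_kv_left, v6_kv_right, ih, this]
    refine ⟨G.dg γ + D.kv (G.e γ) (L.map G.e).sum + m, fun S => ?_, ?_⟩
    · refine IsHomogeneous.sum _ _ _ fun b _ => ?_
      by_cases e : D.ty b = G.e γ
      · by_cases e' : D.ty (S \ b) = (L.map G.e).sum
        · rw [← e', ← e, ← kap_eq_kv]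
          exact ((G.hom γ b).mul (D.Kt_hom _ _)).mul (h1 _)
        · have := wd_off G L e'
          rw [Gens.wd] at this
          rw [this, mul_zero]
          exact isHomogeneous_zero _ _ _
      · rw [G.off γ b e, zero_mul, zero_mul]
        exact isHomogeneous_zero _ _ _
    · simp only [List.map_cons, List.sum_cons, v6_kv_left, v6_kv_right, sy]
      omega

theorem Psi_hom (hs : D.Sym θ) {Γ : Type} (G : D.Gens θ Γ) {S : Finset U} {μ : Multiset Γ}
    (h : G.Ok (D.ty S) μ) : ∃ m : ℕ, (G.Psi μ S).IsHomogeneous m ∧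
      2 * (μ.map G.dg).sum + D.kv (D.ty S) (D.ty S) =
        2 * m + (μ.map fun γ => D.kv (G.e γ) (G.e γ)).sum := by
  obtain ⟨m, h1, h2⟩ := wd_hom hs G μ.toList
  refine ⟨m, h1 S, ?_⟩
  rw [← h.1]
  simpa only [← Multiset.sum_coe, ← Multiset.map_coe, Multiset.coe_toList] using h2

theorem v6_Av_F {S : Finset U} {p : ℤ} {f : P U} (hf : f ∈ D.F θ S ∅ p) :
    D.Av S f ∈ D.F θ S ∅ p := Av_mem fun g hg => by
  have := sg_F one_ne_zero (mem_WS.1 hg).1 hf
  rw [WS_smul hg] at this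
  convert this using 1
  simp only [sg, one_smul]
  exact congrArg (fun φ : P U →ₐ[ℚ] P U => φ f) (algHom_ext fun i => by simp)

/-- Words of weight p span modulo lower terms. -/
theorem wd_span (hs : D.Sym θ) (G : D.Gens θ Γ) (S : Finset U) (hS : D.et θ S = 0) (p : ℤ)
    {f : P U} (hf : f ∈ D.H S) (hp : f ∈ D.F θ S ∅ p) : f ∈ D.F θ S ∅ (p - 1) ⊔
      Submodule.span ℚ {y | ∃ L : List Γ, (L.map G.p).sum = p ∧ y = G.wd L S} := by
  induction S using Finset.strongInduction generalizing p f with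
  | H S ih =>
  rcases S.eq_empty_or_nonempty with rfl | hne
  · obtain ⟨c, rfl⟩ : ∃ c : ℚ, f = c • 1 := by
      refine PS_induction (p := fun f => ∃ c : ℚ, f = c • 1) (fun c => ⟨c, by
        rw [smul_eq_C_mul, mul_one]⟩) ?_ (by simp) hf.1
      rintro _ _ - - ⟨a, rfl⟩ ⟨b, rfl⟩
      exact ⟨a + b, (add_smul _ _ _).symm⟩
    rcases lt_trichotomy p 0 with a | rfl | a
    · rw [F_empty a hp]; exact zero_mem _
    · exact Submodule.mem_sup_right (Submodule.smul_mem _ _ (Submodule.subset_span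
        ⟨[], rfl, by simp [Gens.wd, word, one]⟩))
    · exact Submodule.mem_sup_left (Submodule.smul_mem _ _
        (F_mono subset_rfl (by omega) one_mem_F))
  set M := D.F θ S ∅ (p - 1) ⊔
    Submodule.span ℚ {y | ∃ L : List Γ, (L.map G.p).sum = p ∧ y = G.wd L S} with hM
  suffices D.Dc θ S p ⊔ Submodule.span ℚ {y | ∃ γ, G.p γ = p ∧ y = G.v γ S} ≤
      M.comap (D.Av S) by
    have := this (G.span S p hne hS f hp hf)
    rw [Submodule.mem_comap, Av_of_mem_H hf] at this
    exact (Submodule.smul_mem_iff _ (card_WS_ne S)).1 this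
  refine sup_le (sup_le (fun y hy => Submodule.mem_sup_left (v6_Av_F hy))
    (Submodule.span_le.2 ?_)) (Submodule.span_le.2 ?_)
  swap
  · rintro _ ⟨γ, e, rfl⟩
    show D.Av S _ ∈ M
    rw [Av_of_mem_H ((G.eqv γ).mem_H S)]
    exact Submodule.smul_mem _ _ (Submodule.mem_sup_right (Submodule.subset_span
      ⟨[γ], by simpa using e, (congrFun (sh_one (G.v γ)) S).symm⟩))
  rintro _ ⟨A, B, i, j, f, hf, g, hg, nA, nB, hd, hu, hA, hB, rfl, rfl⟩
  have sA : A ⊆ S := hu ▸ subset_union_left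
  obtain rfl : B = S \ A := by rw [← hu, union_sdiff_cancel_left hd]
  have h1 := ih A (Finset.ssubset_iff_subset_ne.2 ⟨sA, fun e => by simp [e] at nB⟩) hA i
    (Av_mem_H hf.1) (v6_Av_F hf)
  have h2 := ih (S \ A) (sdiff_ssubset sA nA) hB j (Av_mem_H hg.1) (v6_Av_F hg)
  have key : D.Av S (D.Av A f * D.Kt A (S \ A) * D.Av (S \ A) g) ∈ M := by
    obtain ⟨f0, hf0, f1, hf1, e1⟩ := Submodule.mem_sup.1 h1
    obtain ⟨g0, hg0, g1, hg1, e2⟩ := Submodule.mem_sup.1 h2
    have a1 : f1 ∈ D.F θ A ∅ i := Submodule.span_le.2 (by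
      rintro _ ⟨L, rfl, rfl⟩
      exact wd_F hs G L A) hf1
    have t1 := v6_term hs sA hA hB hf0 (v6_Av_F hg)
    have t2 := v6_term hs sA hA hB a1 hg0
    rw [← e1, add_mul, add_mul, map_add]
    refine add_mem (Submodule.mem_sup_left (v6_Av_F (by convert t1 using 2; ring))) ?_
    rw [← e2, mul_add, map_add]
    refine add_mem (Submodule.mem_sup_left (v6_Av_F (by convert t2 using 2; ring))) ?_
    clear a1 t2 e1 e2
    induction hf1 using Submodule.span_induction with
    | zero => simp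
    | add x y _ _ a b => rw [add_mul, add_mul, map_add]; exact add_mem a b
    | smul c x _ a => rw [smul_mul_assoc, smul_mul_assoc, map_smul]; exact M.smul_mem c a
    | mem x hx =>
    induction hg1 using Submodule.span_induction with
    | zero => simp
    | add x y _ _ a b => rw [mul_add, map_add]; exact add_mem a b
    | smul c x _ a => rw [mul_smul_comm, map_smul]; exact M.smul_mem c a
    | mem y hy =>
    obtain ⟨L, e1, rfl⟩ := hx
    obtain ⟨L', e2, rfl⟩ := hy
    by_cases e : D.ty A = (L.map G.e).sum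
    · obtain ⟨x, -, ex⟩ := Av_term (G.wd_eqv L) (G.wd_eqv L') sA fun c hc => wd_off G L (e ▸ hc)
      rw [ex, ← G.wd_append]
      exact M.smul_mem _ (Submodule.mem_sup_right (Submodule.subset_span
        ⟨L ++ L', by rw [List.map_append, List.sum_append, e1, e2], rfl⟩))
    · simp [wd_off G L e]
  rw [Av_left sA f (Av_mem_PS hg.1), Av_right sA hf.1, smul_smul,
    Submodule.smul_mem_iff _ (mul_ne_zero (card_WS_ne _) (card_WS_ne _))] at key
  show D.Av S _ ∈ M
  rw [Kk_eq, mul_smul_comm, map_smul, mul_right_comm]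
  exact M.smul_mem _ key

theorem pbw_span (hs : D.Sym θ) {Γ : Type} (G : D.Gens θ Γ) {S : Finset U} (hS : D.et θ S = 0)
    {f : P U} (hf : f ∈ D.H S) : f ∈ (D.JT θ S).restrictScalars ℚ ⊔
      Submodule.span ℚ {y | ∃ μ, G.Ok (D.ty S) μ ∧ y = G.Psi μ S} := by
  obtain ⟨p, hp⟩ := F_exh (D := D) (θ := θ) ∅ hf.1
  set N := Submodule.span ℚ {y | ∃ μ, G.Ok (D.ty S) μ ∧ y = G.Psi μ S} with hN
  have NH : N ≤ D.H S := Submodule.span_le.2 (by
    rintro _ ⟨μ, -, rfl⟩
    exact (G.wd_eqv _).mem_H S)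
  induction' e : (p + 1).toNat with n ih generalizing p f
  · rcases S.eq_empty_or_nonempty with rfl | hne
    · rw [F_empty (by omega) hp]; exact zero_mem _
    · exact Submodule.mem_sup_left (JT_of_F hne hS (by omega) hp)
  have h1 : f ∈ D.F θ S ∅ (p - 1) ⊔ N := by
    refine (sup_le le_sup_left (Submodule.span_le.2 ?_) : _ ≤ D.F θ S ∅ (p - 1) ⊔ N)
      (wd_span hs G S hS p hf hp)
    rintro _ ⟨L, rfl, rfl⟩
    by_cases a : D.ty S = (L.map G.e).sum
    swap
    · rw [wd_off G L a]; exact zero_mem _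
    by_cases b : G.Adm L
    swap
    · exact Submodule.mem_sup_left (wd_odd hs G b S)
    obtain ⟨s, -, h2⟩ := wd_perm hs G
      (Multiset.coe_eq_coe.1 (Multiset.coe_toList (L : Multiset Γ))).symm
    rw [← sub_add_cancel (G.wd L S) (s • G.Psi L S)]
    exact Submodule.add_mem_sup (h2 S) (N.smul_mem _ (Submodule.subset_span
      ⟨L, ⟨by rw [Multiset.map_coe, Multiset.sum_coe, a], b⟩, rfl⟩))
  obtain ⟨f0, h0, y, hy, rfl⟩ := Submodule.mem_sup.1 h1
  exact add_mem (ih (by simpa using sub_mem hf (NH hy)) (p - 1) h0 (by omega))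
    (Submodule.mem_sup_right hy)

end Dat

end Pool.Agent.Lib.MP_33bfb2_co.Th.R
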