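import Pool.Agent.Lib.MP_33bfb2_co.Th.RV3
import Pool.Agent.Lib.MP_33bfb2_co.Th.RV6

/-! File RV7: independence. -/

namespace Pool.Agent.Lib.MP_33bfb2_co.Th.R

open MvPolynomial Finset Equiv
open scoped Pointwise

set_option linter.unusedSectionVars false

variable {U I : Type} [Fintype U] [LinearOrder U] [Fintype I] [DecidableEq I]

namespace Dat

variable {D : Dat U I} {θ : I → ℚ} {Γ : Type}

theorem RV7_sum_ty {M : Type} [AddCommMonoid M] (S : Finset U) (f : I → M) :
    ∑ p ∈ S, f (D.lab p) = ∑ i, D.ty S i • f i := by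
  rw [← sum_fiberwise_of_maps_to (t := univ) (g := D.lab) fun _ _ => mem_univ _]
  refine sum_congr rfl fun i _ => ?_
  rw [sum_congr rfl (g := fun _ => f i) fun p hp => by rw [(mem_filter.1 hp).2], sum_const, ty]

theorem RV7_et {A B : Finset U} (h : D.ty A = D.ty B) : D.et θ A = D.et θ B := by
  rw [et, et, RV7_sum_ty, RV7_sum_ty, h]

theorem RV7_et_sdiff {A S : Finset U} (h : A ⊆ S) (hA : D.et θ A = 0) (hS : D.et θ S = 0) :
    D.et θ (S \ A) = 0 := by
  have := sum_sdiff (f := fun v => θ (D.lab v)) h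
  unfold et at *
  linarith

theorem RV7_et_union {A B : Finset U} (h : Disjoint A B) (hA : D.et θ A = 0) (hB : D.et θ B = 0) :
    D.et θ (A ∪ B) = 0 := by
  unfold et at *
  rw [sum_union h, hA, hB, add_zero]

theorem RV7_kap (A B : Finset U) : D.kap A B = D.kv (D.ty A) (D.ty B) := by
  have e : ∀ i, ∑ q ∈ B, D.a i (D.lab q) = ∑ j, D.ty B j • D.a i j := fun i => RV7_sum_ty B _
  simp only [kap, W, e]
  rw [RV7_sum_ty A fun i => ∑ j, D.ty B j • D.a i j]
  simp only [kv, smul_eq_mul, mul_sum, mul_assoc]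

theorem RV7_sw {A B : Finset U} (hd : Disjoint A B) (h : D.ty A = D.ty B)
    (ho : ¬ D.OddT (D.ty B)) : D.sw A B = 1 := by
  have e1 : D.etaS A B * D.etaS B A = (-1) ^ ∑ p ∈ A, ∑ q ∈ B,
      if D.lab p = D.lab q ∧ D.fer (D.lab p) = true then 1 else 0 := by
    rw [etaS, etaS, prod_comm (s := B), ← prod_mul_distrib, ← prod_pow_eq_pow_sum]
    refine prod_congr rfl fun p hp => ?_
    rw [← prod_mul_distrib, ← prod_pow_eq_pow_sum]
    refine prod_congr rfl fun q hq => ?_
    rw [D.eta_mul_swap fun e : p = q => disjoint_left.1 hd hp (e ▸ hq)]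
    split_ifs <;> simp
  have e2 : ∀ i, (∑ q ∈ B, if i = D.lab q ∧ D.fer i = true then 1 else 0) =
      if D.fer i = true then D.ty B i else 0 := fun i => by
    rw [RV7_sum_ty B fun j => if i = j ∧ D.fer i = true then 1 else 0]
    by_cases f : D.fer i = true <;> simp [f]
  simp only [e2] at e1
  rw [RV7_sum_ty A fun i => if D.fer i = true then D.ty B i else 0, h] at e1
  rw [sw, e1, ← pow_add, RV7_kap, h]
  refine Even.neg_one_pow ?_
  rw [OddT, Nat.not_odd_iff_even, sum_filter] at ho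
  have e3 : Even (∑ i, (D.ty B i • (if D.fer i = true then D.ty B i else 0) +
      if D.fer i = true then D.ty B i else 0)) := even_sum _ fun i _ => by
    split_ifs
    · rw [smul_eq_mul, ← mul_add_one]
      exact Nat.even_mul_succ_self _
    · simp
  rw [sum_add_distrib] at e3
  rw [Nat.even_add] at ho e3 ⊢
  exact ho.trans e3.symm

theorem RV7_sub {S : Finset U} {d : I → ℕ} (h : d ≤ D.ty S) : ∃ b ⊆ S, D.ty b = d := by
  choose t h1 h2 using fun i => exists_subset_card_eq (s := {p ∈ S | D.lab p = i}) (h i)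
  refine ⟨univ.biUnion t, biUnion_subset.2 fun i _ => (h1 i).trans (filter_subset _ _), ?_⟩
  funext i
  rw [ty, ← h2 i]
  congr 1
  ext p
  simp only [mem_filter, mem_biUnion, mem_univ, true_and]
  constructor
  · rintro ⟨⟨j, hj⟩, e⟩
    rwa [← e, (mem_filter.1 (h1 j hj)).2]
  · exact fun hp => ⟨⟨i, hp⟩, (mem_filter.1 (h1 i hp)).2⟩

theorem Gens.RV7_et (G : D.Gens θ Γ) {γ : Γ} {c : Finset U} (h : D.ty c = G.e γ) :
    D.et θ c = 0 ∧ c.Nonempty := by
  obtain ⟨b, h1, h2, h3⟩ := G.ex γ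
  refine ⟨(Dat.RV7_et (h.trans h3.symm)).trans h2, card_pos.1 ?_⟩
  rw [card_eq_of_ty (h.trans h3.symm)]
  exact card_pos.2 h1

theorem Gens.RV7_cons (G : D.Gens θ Γ) (γ : Γ) (L : List Γ) (S : Finset U) :
    G.wd (γ :: L) S = ∑ c ∈ S.powerset, G.v γ c * D.Kt c (S \ c) * G.wd L (S \ c) := rfl

theorem RV7_mul (hs : D.Sym θ) {A B : Finset U} (hd : Disjoint A B) (hA : D.et θ A = 0)
    (hB : D.et θ B = 0) {p q : ℤ} {f g : P U} (hf : f ∈ D.F θ A ∅ p) (hg : g ∈ D.F θ B ∅ q) :
    f * D.Kt A B * g ∈ D.F θ (A ∪ B) ∅ (p + q) := by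
  have := Submodule.smul_mem _ (D.etaS A B) (mul_F hs hd hA hB hf hg)
  rwa [← mul_smul_comm, mul_right_comm] at this

open Classical in
/-- The coefficient of the generator γ at the block b in a word. -/
noncomputable def Gens.RV7Q (G : D.Gens θ Γ) (b : Finset U) (γ : Γ) : List Γ → Finset U → P U
  | [], _ => 0
  | δ :: L, T => (if γ = δ then G.wd L T else 0) +
      ∑ c ∈ T.powerset, D.sw c b • (G.v δ c * D.Kt c (T \ c) * Gens.RV7Q G b γ L (T \ c))

theorem Gens.RV7Q_zero (G : D.Gens θ Γ) (b : Finset U) {γ : Γ} {L : List Γ} (h : γ ∉ L)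
    (T : Finset U) : G.RV7Q b γ L T = 0 := by
  induction L generalizing T with
  | nil => rfl
  | cons δ L ih =>
    rw [List.mem_cons, not_or] at h
    simp [Gens.RV7Q, h.1, ih h.2]

theorem Gens.RV7Q_F (hs : D.Sym θ) (G : D.Gens θ Γ) (b : Finset U) (γ : Γ) (L : List Γ)
    {T : Finset U} (hT : D.et θ T = 0) :
    G.RV7Q b γ L T ∈ D.F θ T ∅ ((L.map G.p).sum - G.p γ) := by
  induction L generalizing T with
  | nil => exact zero_mem _
  | cons δ L ih =>
    rw [Gens.RV7Q, List.map_cons, List.sum_cons]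
    refine add_mem ?_ (sum_mem fun c hc => Submodule.smul_mem _ _ ?_)
    · split_ifs with e
      · rw [e, add_sub_cancel_left]
        exact wd_F hs G L T
      · exact zero_mem _
    · by_cases e : D.ty c = G.e δ
      · have c1 := mem_powerset.1 hc
        have c2 := RV7_et_sdiff c1 (G.RV7_et e).1 hT
        have := RV7_mul hs disjoint_sdiff (G.RV7_et e).1 c2 (G.mem δ c) (ih c2)
        rwa [union_sdiff_of_subset c1, ← add_sub_assoc] at this
      · rw [G.off δ c e, zero_mul, zero_mul]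
        exact zero_mem _

theorem Gens.RV7Q_rep (G : D.Gens θ Γ) {b : Finset U} {γ : Γ} (hb : D.ty b = G.e γ) {L : List Γ}
    (h : γ ∉ L) (r : ℕ) (hr : r = 0 ∨ ¬ D.OddT (G.e γ)) {T : Finset U} (hT : Disjoint b T) :
    G.RV7Q b γ (γ :: (List.replicate r γ ++ L)) T =
      ((r : ℚ) + 1) • G.wd (List.replicate r γ ++ L) T := by
  induction r generalizing T with
  | zero => simp [Gens.RV7Q, G.RV7Q_zero b h]
  | succ r ih =>
    have ho := hr.resolve_left (Nat.succ_ne_zero r)
    rw [Gens.RV7Q, if_pos rfl, List.replicate_succ, List.cons_append, Nat.cast_succ,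
      add_smul ((r : ℚ) + 1), one_smul, add_comm]
    congr 1
    rw [G.RV7_cons, smul_sum]
    refine sum_congr rfl fun c hc => ?_
    by_cases e : D.ty c = G.e γ
    · rw [RV7_sw (hT.symm.mono_left (mem_powerset.1 hc)) (e.trans hb.symm) (by rwa [hb]), one_smul,
        ih (Or.inr ho) (hT.mono_right sdiff_subset), mul_smul_comm]
    · simp [G.off γ c e]

theorem Gens.RV7_key (hs : D.Sym θ) (G : D.Gens θ Γ) {b : Finset U} (hb : D.et θ b = 0)
    (hne : b.Nonempty) (A : Finset Γ) (L : List Γ) (hA : ∀ γ ∈ L, γ ∈ A)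
    (hL : ∀ γ ∈ L, ∀ c, D.ty c = G.e γ → #c ≤ #b) {T : Finset U} (hd : Disjoint b T)
    (hT : D.et θ T = 0) :
    G.wd L (b ∪ T) - D.Kt b T * ∑ γ ∈ A, G.v γ b * G.RV7Q b γ L T ∈
      D.HH θ b T (L.map G.p).sum := by
  classical
  induction L generalizing T with
  | nil =>
    have : G.wd [] (b ∪ T) = 0 := if_neg (hne.mono subset_union_left).ne_empty
    simp [this, Gens.RV7Q]
  | cons δ L ih =>
    have ih' := fun {T : Finset U} => ih (T := T) (fun γ h => hA γ (List.mem_cons_of_mem _ h))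
      fun γ h => hL γ (List.mem_cons_of_mem _ h)
    have hS := RV7_et_union hd hb hT
    have sub : insert b T.powerset ⊆ (b ∪ T).powerset := by
      refine insert_subset (mem_powerset.2 subset_union_left) fun c hc => ?_
      exact mem_powerset.2 ((mem_powerset.1 hc).trans subset_union_right)
    have nb : b ∉ T.powerset := fun h => by
      obtain ⟨p, hp⟩ := hne
      exact disjoint_left.1 hd hp (mem_powerset.1 h hp)
    have e1 : ∑ γ ∈ A, G.v γ b * G.RV7Q b γ (δ :: L) T = G.v δ b * G.wd L T +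
        ∑ c ∈ T.powerset, D.sw c b • (G.v δ c * D.Kt c (T \ c) *
          ∑ γ ∈ A, G.v γ b * G.RV7Q b γ L (T \ c)) := by
      simp only [Gens.RV7Q, mul_add, sum_add_distrib, mul_ite, mul_zero, sum_ite_eq',
        if_pos (hA δ List.mem_cons_self), mul_sum, smul_sum]
      congr 1
      rw [sum_comm]
      refine sum_congr rfl fun c _ => sum_congr rfl fun γ _ => ?_
      rw [mul_smul_comm, mul_left_comm]
    rw [G.RV7_cons, ← sum_sdiff sub, sum_insert nb, e1, union_sdiff_cancel_left hd, mul_add,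
      mul_sum, List.map_cons, List.sum_cons]
    have e2 : ∀ x y y' z z' : P U, y = y' → x + (y + z) - (y' + z') = x + (z - z') := by
      rintro x y _ z z' rfl; ring
    rw [e2 _ _ _ _ _ (by ring), ← sum_sub_distrib]
    refine add_mem (sum_mem fun c hc => ?_) (sum_mem fun c hc => ?_)
    · by_cases e : D.ty c = G.e δ
      swap
      · rw [G.off δ c e, zero_mul, zero_mul]
        exact zero_mem _
      obtain ⟨c1, c2⟩ := mem_sdiff.1 hc
      rw [mem_insert, mem_powerset, not_or] at c2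
      have c3 := mem_powerset.1 c1
      have n1 : (b ∩ c).Nonempty := by
        obtain ⟨p, p1, p2⟩ := not_subset.1 c2.2
        exact ⟨p, mem_inter.2 ⟨(mem_union.1 (c3 p1)).resolve_right p2, p1⟩⟩
      have n2 : (b ∩ ((b ∪ T) \ c)).Nonempty := by
        have : ¬ b ⊆ c := fun h =>
          c2.1 (eq_of_subset_of_card_le h (hL δ List.mem_cons_self c e)).symm
        obtain ⟨p, p1, p2⟩ := not_subset.1 this
        exact ⟨p, mem_inter.2 ⟨p1, mem_sdiff.2 ⟨mem_union_left _ p1, p2⟩⟩⟩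
      have := Submodule.smul_mem _ (D.etaS c ((b ∪ T) \ c)) (HH_split hs disjoint_sdiff
        (G.RV7_et e).1 (RV7_et_sdiff c3 (G.RV7_et e).1 hS)
        (by rw [union_sdiff_of_subset c3]; exact subset_union_left) hb n1 n2 (G.mem δ c)
        (wd_F hs G L _))
      rwa [union_sdiff_of_subset c3, union_sdiff_cancel_left hd, ← mul_smul_comm,
        mul_right_comm] at this
    · by_cases e : D.ty c = G.e δ
      swap
      · simp [G.off δ c e]
      have c1 := mem_powerset.1 hc
      have c0 := (G.RV7_et e).1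
      have c2 := RV7_et_sdiff c1 c0 hT
      have d1 : Disjoint c b := hd.symm.mono_left c1
      have d2 : Disjoint b (T \ c) := hd.mono_right sdiff_subset
      have u1 : (b ∪ T) \ c = b ∪ T \ c := by
        rw [union_sdiff_distrib, sdiff_eq_self_of_disjoint d1.symm]
      have u2 : D.Kt b T = D.Kt b c * D.Kt b (T \ c) := by
        rw [← D.Kt_union_right b disjoint_sdiff, union_sdiff_of_subset c1]
      have k1 := Submodule.smul_mem _ (D.etaS c (b ∪ T \ c))
        (HH_out hs d1 disjoint_sdiff d2 c0 hb c2 (G.mem δ c) (ih' d2 c2))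
      rw [union_sdiff_of_subset c1, ← mul_smul_comm, add_comm (L.map G.p).sum] at k1
      have k2 : ∑ γ ∈ A, (G.v δ c * G.v γ b * (D.Kt c b - D.sw c b • D.Kt b c)) *
          D.Kt (c ∪ b) (T \ c) * G.RV7Q b γ L (T \ c) ∈
          D.HH θ b T (G.p δ + (L.map G.p).sum) := sum_mem fun γ _ => by
        refine HH_of_F hs hd hb hT ?_
        have m1 := Submodule.smul_mem _ (D.etaS c b) (comm_F hs d1 c0 hb (G.mem δ c) (G.mem γ b))
        have m2 : G.v δ c * G.v γ b * (D.Kt c b - D.sw c b • D.Kt b c) = D.etaS c b •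
            (G.v δ c * G.v γ b * D.Kk c b - (-1 : ℚ) ^ D.kap c b •
              (G.v γ b * G.v δ c * D.Kk b c)) := by
          rw [Kt_sub, mul_smul_comm, mul_sub, mul_smul_comm, mul_comm (G.v γ b)]
        rw [← m2] at m1
        have m3 := RV7_mul hs (disjoint_union_left.2 ⟨disjoint_sdiff, d2⟩)
          (RV7_et_union d1 c0 hb) c2 m1 (G.RV7Q_F hs b γ L c2)
        rw [union_comm c, union_assoc, union_sdiff_of_subset c1] at m3
        rw [union_comm c]
        convert m3 using 2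
        ring
      convert add_mem k1 k2 using 1
      change _ = G.v δ c * _ * D.Kt c (b ∪ T \ c) + _
      rw [u1, u2, D.Kt_union_right c d2, D.Kt_union_left d1]
      simp only [smul_eq_C_mul, mul_sum, mul_sub, sub_mul, sum_sub_distrib, sum_mul]
      have e3 : ∀ x y z z' y' : P U, y = y' → z = z' → x - z = x - y + (y' - z') := by
        rintro x y z _ _ rfl rfl; ring
      rw [mul_right_comm (G.v δ c) (G.wd L _)]
      exact e3 _ _ _ _ _ (sum_congr rfl fun _ _ => by ring) (sum_congr rfl fun _ _ => by ring)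

theorem Gens.RV7_ind (hs : D.Sym θ) (G : D.Gens θ Γ) {κ : Type} (n : ℕ) : ∀ (S : Finset U),
    #S = n → D.et θ S = 0 → ∀ (s : Finset κ) (L : κ → List Γ) (x : κ → ℚ) (p : ℤ),
      Set.InjOn (fun k => (L k : Multiset Γ)) s →
      (∀ k ∈ s, ((L k).map G.e).sum = D.ty S ∧ G.Adm (L k) ∧ ((L k).map G.p).sum = p ∧ x k ≠ 0) →
      ∑ k ∈ s, x k • G.wd (L k) S ∈ D.F θ S ∅ (p - 1) → s = ∅ := by
  classical
  induction n using Nat.strong_induction_on with
  | _ n ih =>
  intro S hn hS s L x p inj h1 h2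
  by_contra hne
  obtain ⟨k₁, hk₁⟩ := nonempty_iff_ne_empty.2 hne
  obtain ⟨A, hA⟩ : ∃ A : Finset Γ, ∀ γ, γ ∈ A ↔ ∃ k ∈ s, γ ∈ L k :=
    ⟨s.biUnion fun k => (L k).toFinset, fun γ => by simp⟩
  rcases A.eq_empty_or_nonempty with rfl | hAne
  · have l0 : ∀ k ∈ s, L k = [] := fun k hk => List.eq_nil_iff_forall_not_mem.2 fun γ h =>
      notMem_empty γ ((hA γ).2 ⟨k, hk, h⟩)
    have s1 : s = {k₁} := eq_singleton_iff_unique_mem.2 ⟨hk₁, fun k hk => inj hk hk₁ (by
      simp only [l0 k hk, l0 k₁ hk₁])⟩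
    obtain ⟨a1, -, a3, a4⟩ := h1 k₁ hk₁
    rw [l0 k₁ hk₁] at a1 a3
    have S0 : S = ∅ := ty_eq_zero.1 a1.symm
    rw [s1, sum_singleton, l0 k₁ hk₁, S0, ← a3] at h2
    have := F_empty (by simp) h2
    have e : G.wd [] (∅ : Finset U) = 1 := by simp [Gens.wd, word, one]
    rw [e, smul_eq_zero] at this
    exact this.elim a4 one_ne_zero
  obtain ⟨γ, hγ, hmax⟩ := exists_max_image A (fun γ => ∑ i, G.e γ i) hAne
  obtain ⟨k₀, hk₀, hγ₀⟩ := (hA γ).1 hγ
  obtain ⟨b, hbS, hb⟩ := RV7_sub (D := D) (S := S) (d := G.e γ) (by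
    rw [← (h1 k₀ hk₀).1]
    exact List.single_le_sum (fun _ _ => zero_le) _ (List.mem_map_of_mem hγ₀))
  obtain ⟨b0, b1⟩ := G.RV7_et hb
  have cardty : ∀ c : Finset U, #c = ∑ i, D.ty c i := fun c => by
    simpa using RV7_sum_ty (D := D) c fun _ => (1 : ℕ)
  have hT := RV7_et_sdiff hbS b0 hS
  have hd : Disjoint b (S \ b) := disjoint_sdiff
  obtain ⟨L', hL'⟩ : ∃ L' : κ → List Γ, ∀ k, L' k = (L k).filter fun δ => !decide (δ = γ) :=
    ⟨_, fun _ => rfl⟩
  have nL : ∀ k, γ ∉ L' k := fun k => by simp [hL']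
  have pm : ∀ k, (L k).Perm (List.replicate ((L k).count γ) γ ++ L' k) := fun k => by
    rw [hL', ← List.filter_eq]
    exact (List.filter_append_perm _ _).symm
  choose σ σ1 σ2 using fun k => wd_perm hs G (pm k)
  have σ0 : ∀ k, σ k ≠ 0 := fun k => by rcases σ1 k with e | e <;> simp [e]
  have a1 : ∑ k ∈ s, (x k * σ k) • G.wd (List.replicate ((L k).count γ) γ ++ L' k) S ∈
      D.F θ S ∅ (p - 1) := by
    have := sub_mem h2 (sum_mem fun k hk => Submodule.smul_mem _ (x k)
      ((h1 k hk).2.2.1 ▸ σ2 k S : _ ∈ D.F θ S ∅ (p - 1)))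
    simpa only [smul_sub, sum_sub_distrib, sub_sub_cancel, smul_smul] using this
  have a2 := HH_of_F hs hd b0 hT (by rw [union_sdiff_of_subset hbS]; exact a1)
  have a3 : ∑ k ∈ s, (x k * σ k) • (G.wd (List.replicate ((L k).count γ) γ ++ L' k) S -
      D.Kt b (S \ b) * ∑ δ ∈ A, G.v δ b *
        G.RV7Q b δ (List.replicate ((L k).count γ) γ ++ L' k) (S \ b)) ∈ D.HH θ b (S \ b) p :=
    sum_mem fun k hk => Submodule.smul_mem _ _ (by
      have m : ∀ δ ∈ List.replicate ((L k).count γ) γ ++ L' k, δ ∈ A := fun δ h =>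
        (hA δ).2 ⟨k, hk, (pm k).mem_iff.2 h⟩
      have := G.RV7_key hs b0 b1 A _ m (fun δ h c e => by
        rw [cardty, cardty, e, hb]
        exact hmax δ (m δ h)) hd hT
      rwa [union_sdiff_of_subset hbS, ← ((pm k).map G.p).sum_eq, (h1 k hk).2.2.1] at this)
  have a4 : D.Kk b (S \ b) * ∑ δ ∈ A.filter fun δ => D.ty b = G.e δ, G.v δ b *
      ∑ k ∈ s, (x k * σ k) • G.RV7Q b δ (List.replicate ((L k).count γ) γ ++ L' k) (S \ b) ∈
      D.HH θ b (S \ b) p := by
    have := Submodule.smul_mem _ (D.etaS b (S \ b)) (sub_mem a2 a3)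
    convert this using 1
    rw [sum_filter_of_ne fun δ _ h => by_contra fun e => h (by rw [G.off δ b e, zero_mul]), Kk_eq]
    simp only [smul_sub, sum_sub_distrib, sub_sub_cancel, mul_sum, smul_sum, mul_smul_comm,
      smul_mul_assoc]
    rw [sum_comm]
    exact sum_congr rfl fun _ _ => sum_congr rfl fun _ _ => smul_comm _ _ _
  have a5 := HH_read G hd _ _ (fun δ h => (mem_filter.1 h).2) (fun δ _ => sum_mem fun k hk =>
    Submodule.smul_mem _ _ (by
      have := G.RV7Q_F hs b δ (List.replicate ((L k).count γ) γ ++ L' k) hT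
      rwa [← ((pm k).map G.p).sum_eq, (h1 k hk).2.2.1] at this)) (HH_cancel hd a4) γ
    (mem_filter.2 ⟨hγ, hb⟩)
  have pm2 : ∀ k, γ ∈ L k →
      (L k).Perm (γ :: (List.replicate ((L k).count γ - 1) γ ++ L' k)) := fun k h => by
    have := pm k
    rwa [← Nat.sub_add_cancel (List.count_pos_iff.2 h), List.replicate_succ,
      List.cons_append] at this
  have a6 := ih #(S \ b) (hn ▸ card_lt_card (sdiff_ssubset hbS b1)) (S \ b) rfl hT
    (s.filter fun k => γ ∈ L k) (fun k => List.replicate ((L k).count γ - 1) γ ++ L' k)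
    (fun k => x k * σ k * ((((L k).count γ - 1 : ℕ) : ℚ) + 1)) (p - G.p γ)
    (fun k hk k' hk' e => by
      obtain ⟨q1, q2⟩ := mem_filter.1 (mem_coe.1 hk)
      obtain ⟨q3, q4⟩ := mem_filter.1 (mem_coe.1 hk')
      exact inj q1 q3 (Multiset.coe_eq_coe.2 ((pm2 k q2).trans
        (((Multiset.coe_eq_coe.1 e).cons γ).trans (pm2 k' q4).symm))))
    (fun k hk => by
      obtain ⟨q1, q2⟩ := mem_filter.1 hk
      obtain ⟨r1, r2, r3, r4⟩ := h1 k q1
      rw [((pm2 k q2).map G.e).sum_eq, List.map_cons, List.sum_cons, ← ty_sdiff hbS, hb] at r1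
      rw [((pm2 k q2).map G.p).sum_eq, List.map_cons, List.sum_cons] at r3
      refine ⟨add_left_cancel r1, fun δ o le => r2 δ o (le.trans ?_), by omega,
        mul_ne_zero (mul_ne_zero r4 (σ0 k)) (by positivity)⟩
      rw [Multiset.coe_eq_coe.2 (pm2 k q2), ← Multiset.cons_coe]
      exact Multiset.le_cons_self _ _)
    (by
      convert a5 using 1
      rw [sum_filter]
      refine sum_congr rfl fun k hk => ?_
      split_ifs with q
      · have c0 := List.count_pos_iff.2 q
        have := G.RV7Q_rep hb (nL k) ((L k).count γ - 1) (by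
          by_contra r
          rw [not_or, not_not] at r
          refine (h1 k hk).2.1 γ r.2 ?_
          have : 2 ≤ Multiset.count γ (L k : Multiset Γ) := by
            rw [Multiset.coe_count]
            omega
          exact Multiset.le_count_iff_replicate_le.1 this) hd
        rw [← List.cons_append, ← List.replicate_succ, Nat.sub_add_cancel c0] at this
        rw [this, smul_smul]
      · rw [G.RV7Q_zero b fun h => q ((pm k).mem_iff.2 h), smul_zero])
  exact notMem_empty k₀ (a6 ▸ mem_filter.2 ⟨hk₀, hγ₀⟩)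

theorem pbw_indep (hs : D.Sym θ) {Γ : Type} (G : D.Gens θ Γ) {S : Finset U} (hS : D.et θ S = 0)
    (c : Multiset Γ →₀ ℚ) (hc : ∀ μ ∈ c.support, G.Ok (D.ty S) μ)
    (h : (c.sum fun μ x => x • G.Psi μ S) ∈ D.JT θ S) : c = 0 := by
  classical
  by_contra hne
  obtain ⟨μ₀, h0, hmax⟩ := exists_max_image c.support (fun μ => (μ.toList.map G.p).sum)
    (Finsupp.support_nonempty_iff.2 hne)
  have a1 := F_of_JT (D := D) (θ := θ) ∅ ((μ₀.toList.map G.p).sum - 1)
    (sum_mem fun μ _ => Submodule.smul_mem _ _ (wd_F hs G μ.toList S).1) h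
  rw [← sum_filter_add_sum_filter_not _
    fun μ : Multiset Γ => (μ.toList.map G.p).sum = (μ₀.toList.map G.p).sum] at a1
  have a2 := (Submodule.add_mem_iff_left _ (sum_mem fun μ hμ => Submodule.smul_mem _ (c μ)
    (F_mono subset_rfl (by
      have := hmax μ (mem_filter.1 hμ).1
      have := (mem_filter.1 hμ).2
      omega) (wd_F hs G μ.toList S)))).1 a1
  have a3 := G.RV7_ind hs _ S rfl hS _ Multiset.toList c _ (fun μ _ μ' _ e => by simpa using e)
    (fun μ hμ => by
      obtain ⟨m1, m2⟩ := mem_filter.1 hμ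
      refine ⟨?_, ?_, m2, Finsupp.mem_support_iff.1 m1⟩
      · rw [← (hc μ m1).1, ← Multiset.sum_coe, ← Multiset.map_coe, Multiset.coe_toList]
      · rw [Multiset.coe_toList]
        exact (hc μ m1).2) a2
  exact notMem_empty μ₀ (a3 ▸ mem_filter.2 ⟨h0, rfl⟩)

end Dat

end Pool.Agent.Lib.MP_33bfb2_co.Th.R
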