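import Pool.Agent.Lib.MP_33bfb2_co.Th.ADefs2
import Pool.Agent.Lib.MP_33bfb2_co.Th.RTwo
import Pool.Agent.Lib.MP_33bfb2_co.Th.RV5
import Pool.Agent.Lib.MP_33bfb2_co.Th.RV5t
import Pool.Agent.Lib.MP_33bfb2_co.Th.RV7

namespace Pool.Agent.Lib.MP_33bfb2_co.Th

open Finset

namespace R

variable {U I : Type} [Fintype U] [LinearOrder U] [Fintype I] [DecidableEq I]

namespace Dat

variable {D : Dat U I} {θ : I → ℚ} {Γ : Type}

/-- The multisets that index the basis in type d and degree m. -/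
def Gens.RCset (G : D.Gens θ Γ) (d : I → ℕ) (m : ℕ) : Set (Multiset Γ) :=
  {μ | G.Ok d μ ∧
    2 * (μ.map G.dg).sum + D.kv d d = 2 * m + (μ.map fun γ => D.kv (G.e γ) (G.e γ)).sum}

theorem Gens.RC_count (hs : D.Sym θ) (G : D.Gens θ Γ) {S : Finset U} (hS : D.et θ S = 0) (m : ℕ) :
    (G.RCset (D.ty S) m).Finite ∧
      hf (D.H S) ((D.JT θ S).restrictScalars ℚ) m = (G.RCset (D.ty S) m).ncard := by
  classical
  choose dg h1 h2 using fun μ : {μ // G.Ok (D.ty S) μ} => Psi_hom hs G μ.2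
  have gb : GB (D.H S) ((D.JT θ S).restrictScalars ℚ)
      (fun μ : {μ // G.Ok (D.ty S) μ} => G.Psi μ.1 S) dg := by
    refine ⟨fun μ => (Eqv_word fun v hv => ?_).mem_H S, h1, fun f hf => ?_, fun c hc => ?_⟩
    · obtain ⟨γ, -, rfl⟩ := List.mem_map.1 hv
      exact G.eqv γ
    · refine SetLike.le_def.1 (sup_le_sup_left (Submodule.span_mono ?_) _) (pbw_span hs G hS hf)
      rintro _ ⟨μ, hμ, rfl⟩
      exact ⟨⟨μ, hμ⟩, rfl⟩
    · refine Finsupp.embDomain_eq_zero.1 (pbw_indep hs G hS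
        (c.embDomain (Function.Embedding.subtype _)) (fun μ hμ => ?_) ?_)
      · rw [Finsupp.support_embDomain, mem_map] at hμ
        obtain ⟨ν, -, rfl⟩ := hμ
        exact ν.2
      · rw [Finsupp.sum_embDomain]
        exact hc
  have e : {μ : {μ // G.Ok (D.ty S) μ} // dg μ = m} ≃ G.RCset (D.ty S) m :=
    ⟨fun μ => ⟨μ.1.1, μ.1.2, by rw [h2, μ.2]⟩, fun μ => ⟨⟨μ.1, μ.2.1⟩, by
      have a := h2 ⟨μ.1, μ.2.1⟩
      have b := μ.2.2
      dsimp only at a
      omega⟩, fun _ => rfl, fun _ => rfl⟩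
  have := gb.finite m
  refine ⟨Set.finite_coe_iff.1 (Finite.of_equiv _ e), ?_⟩
  rw [← gb.card (D.graded_JT θ S) m, Nat.card_congr e, Nat.card_coe_set_eq]

end Dat

theorem RC_two {α : Type} [DecidableEq α] (x : α) (μ : Multiset α) :
    ¬ {x, x} ≤ μ ↔ μ.count x ≤ 1 := by
  rw [show ({x, x} : Multiset α) = Multiset.replicate 2 x from rfl,
    ← Multiset.le_count_iff_replicate_le]
  omega

theorem RC_idx {Γ T : Type} (f : Γ → T) (h : ∀ t, Finite {γ // f γ = t}) : ∃ idx : Γ → ℕ,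
    (∀ γ, idx γ < Nat.card {δ // f δ = f γ}) ∧ (∀ γ δ, f γ = f δ → idx γ = idx δ → γ = δ) ∧
    ∀ t j, j < Nat.card {δ // f δ = t} → ∃ γ, f γ = t ∧ idx γ = j := by
  have e := fun t => Finite.equivFin {γ // f γ = t}
  have k : ∀ t γ (p : f γ = t), (e (f γ) ⟨γ, rfl⟩ : ℕ) = e t ⟨γ, p⟩ := by
    rintro _ γ rfl; rfl
  refine ⟨fun γ => e (f γ) ⟨γ, rfl⟩, fun γ => Fin.is_lt _, fun γ δ p q => ?_, fun t j hj => ?_⟩
  · beta_reduce at q
    rw [k _ γ p] at q
    exact congrArg Subtype.val ((e _).injective (Fin.ext q))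
  · refine ⟨((e t).symm ⟨j, hj⟩).1, ((e t).symm ⟨j, hj⟩).2, ?_⟩
    beta_reduce
    rw [k t _ ((e t).symm ⟨j, hj⟩).2, Subtype.coe_eta, Equiv.apply_symm_apply]

/-- Labelled exponents of a family of multisets. -/
def RCphi (s : I → Multiset ℕ) : Multiset (I × ℕ) := ∑ i, (s i).map (Prod.mk i)

theorem RCphi_count (s : I → Multiset ℕ) (i : I) (k : ℕ) :
    (RCphi s).count (i, k) = (s i).count k := by
  rw [RCphi, Multiset.count_sum', sum_eq_single i, Multiset.count_map_eq_count' _ _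
    (Prod.mk_right_injective i)]
  · intro j _ h
    rw [Multiset.count_eq_zero, Multiset.mem_map]
    rintro ⟨x, -, e⟩
    exact h (congrArg Prod.fst e)
  · exact fun h => absurd (mem_univ i) h

theorem RCphi_inj : Function.Injective (RCphi (I := I)) := fun s t h => by
  funext i
  ext k
  rw [← RCphi_count, h, RCphi_count]

theorem RCphi_surj : Function.Surjective (RCphi (I := I)) := fun μ => by
  refine ⟨fun i => (μ.filter fun x => x.1 = i).map Prod.snd, ?_⟩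
  ext ⟨i, k⟩
  rw [RCphi_count, Multiset.count_map, Multiset.filter_filter, Multiset.count_eq_card_filter_eq]
  congr 1
  refine Multiset.filter_congr fun x _ => ?_
  rw [Prod.ext_iff]
  exact ⟨fun h => ⟨h.2.symm, h.1⟩, fun h => ⟨h.2, h.1.symm⟩⟩

omit [DecidableEq I] in
theorem RCphi_sum {M : Type} [AddCommMonoid M] (s : I → Multiset ℕ) (f : I × ℕ → M) :
    ((RCphi s).map f).sum = ∑ i, ((s i).map fun k => f (i, k)).sum := by
  rw [RCphi, ← Multiset.coe_mapAddMonoidHom, map_sum, Multiset.sum_sum]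
  simp only [Multiset.coe_mapAddMonoidHom, Multiset.map_map, Function.comp_def]

theorem RC_orb {r : ℕ} (D : Dat U (Fin r)) (ha : ∀ i j, D.a i j = 0)
    (hl : Function.Surjective D.lab) (S : Finset U) (m : ℕ) :
    hf (D.H S) ⊥ m = (Orb D.fer (D.ty S) m).ncard := by
  obtain ⟨G, hG⟩ := Dat.exists_gens_triv ha hl
  have kv : ∀ d d', D.kv d d' = 0 := fun d d' => by simp [Dat.kv, ha]
  have hs : D.Sym 0 := fun A B _ _ => by rw [D.kap_eq_kv, D.kap_eq_kv, kv, kv]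
  have hJ : (D.JT 0 S).restrictScalars ℚ = ⊥ := by
    have : D.JT 0 S = ⊥ := Ideal.span_eq_bot.2 (by
      rintro _ ⟨A, -, h, -⟩
      simp [Dat.et] at h)
    rw [this, Submodule.restrictScalars_bot]
  have h := (G.RC_count hs (S := S) (by simp [Dat.et]) m).2
  rw [hJ] at h
  rw [h, ← Set.ncard_image_of_injective (Orb D.fer (D.ty S) m) RCphi_inj]
  congr 1
  ext μ
  obtain ⟨s, rfl⟩ := RCphi_surj μ
  rw [RCphi_inj.mem_set_image]
  have e1 : ((RCphi s).map G.e).sum = fun i => (s i).card := by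
    rw [RCphi_sum]
    funext j
    simp [fun i k => (hG i k).1, Pi.single_apply]
  have e2 : ((RCphi s).map G.dg).sum = ∑ i, (s i).sum := by
    rw [RCphi_sum]
    simp [fun i k => (hG i k).2]
  have e3 : ∀ i, D.OddT (Pi.single i 1) ↔ D.fer i = true := fun i => by
    rw [Dat.OddT, kv, zero_add, sum_pi_single']
    by_cases f : D.fer i = true <;> simp [f]
  have e4 : G.Adm (RCphi s) ↔ ∀ i, D.fer i = true → (s i).Nodup := by
    simp only [Dat.Gens.Adm, Prod.forall, fun i k => (hG i k).1, e3, RC_two, RCphi_count,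
      Multiset.nodup_iff_count_le_one]
    exact forall_congr' fun i => forall_comm
  simp only [Dat.Gens.RCset, Dat.Gens.Ok, Orb, Set.mem_ofPred_eq, e1, e2, e4, kv, forall_and,
    funext_iff, Multiset.map_const', Multiset.sum_replicate, smul_zero, add_zero]
  exact and_congr_right fun _ => by omega

theorem RC_pb {r : ℕ} (w : Fin r → Fin r → ℕ) (η : Fin r → ℚ) (D : Dat U (Fin r))
    (kv : ∀ d d', D.kv d d' = kap w d d') (hs : D.Sym η) : ∃ ν : (Fin r → ℕ) → ℕ → ℕ,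
      ∀ (S : Finset U) (m : ℕ), D.et η S = 0 → (PB w D.fer η ν (D.ty S) m).Finite ∧
        hf (D.H S) ((D.JT η S).restrictScalars ℚ) m = (PB w D.fer η ν (D.ty S) m).ncard := by
  classical
  obtain ⟨Γ, G, hG⟩ := D.exists_gens η
  have fin : ∀ t : (Fin r → ℕ) × ℕ, Finite {γ : Γ // (G.e (γ, 0), G.dg (γ, 0)) = t} := by
    rintro ⟨e, m⟩
    rcases isEmpty_or_nonempty {γ : Γ // (G.e (γ, 0), G.dg (γ, 0)) = (e, m)} with h | ⟨⟨γ₀, h₀⟩⟩
    · infer_instance
    obtain ⟨b, -, b2, b3⟩ := G.ex (γ₀, 0)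
    have := (G.RC_count hs b2 m).1.to_subtype
    refine Finite.of_injective (β := G.RCset (D.ty b) m) (fun γ => ⟨{(γ.1, 0)}, ?_⟩)
      fun γ δ h => Subtype.ext ?_
    · have p1 : G.e (γ.1, 0) = D.ty b :=
        (congrArg Prod.fst γ.2).trans ((congrArg Prod.fst h₀).symm.trans b3.symm)
      have p2 : G.dg (γ.1, 0) = m := congrArg Prod.snd γ.2
      refine ⟨⟨by simpa using p1, fun δ _ le => ?_⟩, by simp [p1, p2]⟩
      simpa using Multiset.card_le_card le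
    · simpa using congrArg Subtype.val h
  obtain ⟨idx, i1, i2, i3⟩ := RC_idx _ fin
  obtain ⟨ψ, hψ⟩ : ∃ ψ : Γ × ℕ → (Fin r → ℕ) × ℕ × ℕ × ℕ,
    ∀ x, ψ x = (G.e (x.1, 0), G.dg (x.1, 0), idx x.1, x.2) := ⟨_, fun _ => rfl⟩
  have inj : Function.Injective ψ := by
    rintro ⟨γ, k⟩ ⟨δ, l⟩ h
    simp only [hψ, Prod.mk.injEq] at h
    rw [i2 γ δ (Prod.ext h.1 h.2.1) h.2.2.1, h.2.2.2]
  have p1 : ∀ x, (ψ x).1 = G.e x := fun x => by rw [hψ]; exact (hG x.1 x.2).1.symm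
  have p2 : ∀ x, (ψ x).2.1 + (ψ x).2.2.2 = G.dg x := fun x => by
    rw [hψ]; exact (hG x.1 x.2).2.symm
  have p3 : ∀ e, Odd (par w D.fer e) ↔ D.OddT e := fun e => by
    rw [Dat.OddT, kv, sum_filter, par]
  refine ⟨fun e m => Nat.card {γ : Γ // (G.e (γ, 0), G.dg (γ, 0)) = (e, m)}, fun S m hS => ?_⟩
  have key : PB w D.fer η (fun e m => Nat.card {γ : Γ // (G.e (γ, 0), G.dg (γ, 0)) = (e, m)})
      (D.ty S) m = Multiset.map ψ '' G.RCset (D.ty S) m := by
    have main : ∀ μ : Multiset (Γ × ℕ), μ.map ψ ∈ PB w D.fer η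
        (fun e m => Nat.card {γ : Γ // (G.e (γ, 0), G.dg (γ, 0)) = (e, m)}) (D.ty S) m ↔
        μ ∈ G.RCset (D.ty S) m := fun μ => by
      simp only [PB, Dat.Gens.RCset, Dat.Gens.Ok, Dat.Gens.Adm, Set.mem_ofPred_eq,
        Multiset.forall_mem_map_iff, Multiset.map_map, Function.comp_def, p1, p2, p3, kv, RC_two,
        Multiset.count_map_eq_count' _ _ inj]
      constructor
      · rintro ⟨h1, h2, h3⟩
        refine ⟨⟨h2, fun x o => ?_⟩, h3.symm⟩
        by_cases q : x ∈ μ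
        · exact (h1 x q).2.2.2 o
        · rw [Multiset.count_eq_zero.2 q]
          exact zero_le_one
      · rintro ⟨⟨h1, h2⟩, h3⟩
        refine ⟨fun x _ => ?_, h1, h3.symm⟩
        obtain ⟨b, b1, b2, b3⟩ := G.ex x
        refine ⟨fun z => b1.ne_empty (Dat.ty_eq_zero.1 (b3.trans z)), by rw [← b3, ← D.et_eq, b2],
          ?_, h2 x⟩
        rw [← p1, hψ]
        exact i1 x.1
    ext s
    constructor
    · intro h
      have : ∀ x ∈ s, ∃ y, ψ y = x := by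
        rintro ⟨e, n, j, k⟩ hx
        obtain ⟨γ, g1, g2⟩ := i3 (e, n) j (h.1 _ hx).2.2.1
        rw [Prod.mk.injEq] at g1
        exact ⟨(γ, k), by rw [hψ, g1.1, g1.2, g2]⟩
      have : ∃ μ : Multiset (Γ × ℕ), μ.map ψ = s := by
        choose f hf using this
        exact ⟨s.attach.map fun x => f x.1 x.2, by simp [hf]⟩
      obtain ⟨μ, rfl⟩ := this
      exact ⟨μ, (main μ).1 h, rfl⟩
    · rintro ⟨μ, h, rfl⟩
      exact (main μ).2 h
  obtain ⟨c1, c2⟩ := G.RC_count hs hS m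
  rw [key, Set.ncard_image_of_injective _ (Multiset.map_injective inj)]
  exact ⟨c1.image _, c2⟩

end R

variable {L : Type} [AddCommGroup L] {ω : Skew L} {C C' : Cone L}

/-! ## Block R, combinatorial output (60, 32, 9) -/

theorem pbw_count {r : ℕ} (w : Fin r → Fin r → ℕ) (ε : Fin r → Bool) (η : Fin r → ℚ)
    (hsym : ∀ d d' : Fin r → ℕ, ∑ i, η i * d i = 0 → ∑ i, η i * d' i = 0 → kap w d d' = kap w d' d)
    (D : ℕ) : ∃ hT hQ ν : (Fin r → ℕ) → ℕ → ℕ,
      (∀ m, hT 0 m = if m = 0 then 1 else 0) ∧ (∀ m, hQ 0 m = if m = 0 then 1 else 0) ∧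
      (∀ d m, ∑ i, η i * d i < 0 → hT d m = 0) ∧
      (∀ d m, d ≠ 0 → 0 ≤ ∑ i, η i * d i → hQ d m = 0) ∧
      (∀ d m, (∀ i, d i ≤ D) → (Orb ε d m).ncard =
        ∑ e ∈ Iic d, ∑ q ∈ range (m + 1) ×ˢ range (m + 1),
          if q.1 + q.2 + kap w e (d - e) = m then hT e q.1 * hQ (d - e) q.2 else 0) ∧
      ∀ d m, (∀ i, d i ≤ D) → d ≠ 0 → ∑ i, η i * d i = 0 →
        (PB w ε η ν d m).Finite ∧ hT d m = (PB w ε η ν d m).ncard := by
  let X : R.Dat (Fin r ×ₗ Fin (D + 1)) (Fin r) :=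
    ⟨fun p => (ofLex p).1, ε, fun i j => if j < i then w j i else 0⟩
  let X₀ : R.Dat (Fin r ×ₗ Fin (D + 1)) (Fin r) := ⟨fun p => (ofLex p).1, ε, fun _ _ => 0⟩
  have kv : ∀ d d', X.kv d d' = kap w d d' := fun d d' => by
    refine sum_congr rfl fun i _ => ?_
    rw [← filter_gt_eq_Iio, sum_filter]
    refine sum_congr rfl fun j _ => ?_
    show d i * d' j * (if j < i then w j i else 0) = _
    split_ifs <;> ring
  have hs : X.Sym η := fun A B hA hB => by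
    rw [X.et_eq] at hA hB
    rw [X.kap_eq_kv, X.kap_eq_kv, kv, kv, hsym _ _ hA hB]
  have ex : ∀ d : Fin r → ℕ, (∀ i, d i ≤ D) → ∃ b, X.ty b = d := fun d hd => by
    obtain ⟨b, -, hb⟩ := R.Dat.RV7_sub (D := X) (S := univ) (d := d) fun i => (hd i).trans (by
      refine le_trans (by simp) (card_le_card_of_injOn (s := (univ : Finset (Fin (D + 1))))
        (fun k => toLex (i, k)) (fun k _ => mem_coe.2 (mem_filter.2 ⟨mem_univ _, rfl⟩))
        fun k _ l _ e => congrArg (fun p => (ofLex p).2) e))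
    exact ⟨b, hb⟩
  obtain ⟨ν, hν⟩ := R.RC_pb w η X kv hs
  refine ⟨X.hT η, X.hQ η, ν, X.hT_zero η, X.hQ_zero η, fun d m h => X.hT_neg η h m,
    fun d m h h' => X.hQ_nonneg η h h' m, fun d m hd => ?_, fun d m hd _ h => ?_⟩
  · obtain ⟨b, rfl⟩ := ex d hd
    have h1 := X.two_count η b m
    simp only [kv] at h1
    rw [← h1]
    exact (R.RC_orb X₀ (fun _ _ => rfl) (fun i => ⟨toLex (i, 0), rfl⟩) b m).symm
  · obtain ⟨b, rfl⟩ := ex d hd
    have h1 := hν (X.sb (X.ty b)) m (by rw [X.et_eq, X.ty_sb, h])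
    rw [X.ty_sb] at h1
    rw [R.Dat.hT, if_pos ⟨b, rfl⟩]
    exact h1

end Pool.Agent.Lib.MP_33bfb2_co.Th
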