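import Pool.Agent.Lib.MP_33bfb2_co.Th.RLd
import Pool.Agent.Lib.MP_33bfb2_co.Th.RCount

namespace Pool.Agent.Lib.MP_33bfb2_co.Th

open Finset

variable {L : Type} [AddCommGroup L] {ω : Skew L} {C C' : Cone L}

/-! ## File RL: Lemma R -/

namespace RL

theorem lemR0 {r : ℕ} (ω : Skew (Fin r → ℤ)) (w : Fin r → Fin r → ℕ) (ε : Fin r → Bool)
    (hw : ∀ j i, j < i → ω.w (Pi.single j 1) (Pi.single i 1) = w j i) (θ : (Fin r → ℤ) →+ ℚ)
    (h0 : ∀ d d', θ (io d) = 0 → θ (io d') = 0 → ω.w (io d) (io d') = 0) (D : ℕ) :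
    ∃ l' : List (Gn (Fin r → ℤ)), (∀ x ∈ l', x.2.2 ∈ (orth r).car ∧ x.2.2 ≠ 0 ∧ θ x.2.2 = 0) ∧
      A.Cong {n | (orth r).deg n ≤ D} (z0 θ (gens ω (orth r) (bas ε))).1
        (gens ω (orth r) l').1 := by
  have h1 : ∀ d d' : Fin r → ℕ, ∑ i, θ (Pi.single i 1) * d i = 0 →
      ∑ i, θ (Pi.single i 1) * d' i = 0 → ω.w (io d) (io d') = 0 := fun d d' a b =>
    h0 d d' ((eta_io θ d).trans a) ((eta_io θ d').trans b)
  have hsym : ∀ d d' : Fin r → ℕ, ∑ i, θ (Pi.single i 1) * d i = 0 →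
      ∑ i, θ (Pi.single i 1) * d' i = 0 → kap w d d' = kap w d' d := fun d d' a b => by
    have := (w_io hw d d').symm.trans (h1 d d' a b)
    omega
  obtain ⟨hT, hQ, ν, t0, q0, tn, qn, two, pb⟩ :=
    pbw_count w ε (fun i => θ (Pi.single i 1)) hsym D
  have le : ∀ d : Fin r → ℕ, ∑ i, d i ≤ D → ∀ i, d i ≤ D := fun d h i =>
    (single_le_sum (fun j _ => Nat.zero_le (d j)) (mem_univ i)).trans h
  have low : (orth r).Lower {n | (orth r).deg n ≤ D} := fun a _ b hb h => by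
    have := (orth r).deg_nonneg hb
    simp only [Set.mem_ofPred_eq, map_add] at h ⊢
    omega
  have fc := (fac_cong low θ (g := gens ω (orth r) (bas ε)) (a := el ω w hT t0)
    (c := el ω w hQ q0) (fun n hn => by
      by_cases c : n ∈ (orth r).car
      swap
      · rw [A.eq_zero c, A.eq_zero c]
      obtain ⟨d, rfl⟩ := exists_io c
      have : (orth r).deg (io d) ≤ D := hn
      rw [deg_io] at this
      rw [bas_val hw, funext fun m => two d m (le d (by exact_mod_cast this))]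
      exact el_mul_val hw t0 q0 d) (fun n _ h => by
      obtain ⟨p, hp, rfl⟩ := (ca_el t0).exists h
      rw [eta_io]
      exact not_lt.1 fun a => (Nat.ne_zero_of_lt hp) (tn _ _ a)) fun n _ h => by
      obtain ⟨p, hp, rfl⟩ := (ca_el q0).exists h
      rw [eta_io]
      by_cases c : p.1 = 0
      · exact Or.inl (c ▸ io_zero)
      · exact Or.inr (not_le.1 fun a => (Nat.ne_zero_of_lt hp) (qn _ _ c a))).1
  obtain ⟨hB, hc⟩ := lemR_core (w := w) (ε := ε) (ν := ν) θ (eta_io θ) hsym h1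
    (z0 θ (gens ω (orth r) (bas ε))) (z0_in θ _) (ell_z0_O (ell_gens_O _) θ) D
    (fun d d0 hd hs => by
      rw [← funext fun m => (pb d m (le d hs) d0 hd).2, ← el_val (ω := ω) t0,
        ← fc (io d) (by simpa only [Set.mem_ofPred_eq, deg_io, Nat.cast_le] using hs)]
      exact Set.indicator_of_mem (s := {n | θ n = 0}) ((eta_io θ d).trans hd) _) (D + 1) le_rfl
  refine ⟨_, fun x hx => ?_, fun n hn => hc n ?_⟩
  · obtain ⟨t, ht, rfl⟩ := List.mem_map.1 hx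
    have ht' : t ∈ TB (fun i => θ (Pi.single i 1)) ν (D + 1) := by simpa using ht
    exact ⟨io_mem _, io_ne ht'.1, (eta_io θ _).trans ht'.2.1⟩
  · have : (orth r).deg n ≤ D := hn
    show (orth r).deg n < ((D + 1 : ℕ) : ℤ)
    omega

/-- The linear map with prescribed values on the basis. -/
def lin {M : Type} [AddCommGroup M] {r : ℕ} (v : Fin r → M) : (Fin r → ℤ) →+ M where
  toFun d := ∑ i, d i • v i
  map_zero' := by simp
  map_add' a b := by simp [add_smul, sum_add_distrib]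

theorem lin_apply {M : Type} [AddCommGroup M] {r : ℕ} (v : Fin r → M) (d : Fin r → ℤ) :
    lin v d = ∑ i, d i • v i := rfl

theorem lin_single {M : Type} [AddCommGroup M] {r : ℕ} (v : Fin r → M) (i : Fin r) :
    lin v (Pi.single i 1) = v i := by
  simp [lin_apply, Pi.single_apply]

theorem lin_mem {r : ℕ} {v : Fin r → L} (S : AddSubmonoid L) (h : ∀ i, v i ∈ S) {d : Fin r → ℤ}
    (hd : d ∈ (orth r).car) : lin v d ∈ S := by
  obtain ⟨d, rfl⟩ := exists_io hd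
  rw [lin_apply]
  exact sum_mem fun i _ => by simpa [io] using S.nsmul_mem (h i) (d i)

theorem deg_lin {r : ℕ} {v : Fin r → L} (h : ∀ i, v i ∈ C.car ∧ v i ≠ 0) {d : Fin r → ℤ}
    (hd : d ∈ (orth r).car) : (orth r).deg d ≤ C.deg (lin v d) := by
  rw [lin_apply, map_sum, orth_deg]
  refine sum_le_sum fun i _ => ?_
  have := C.pos _ (h i).1 (h i).2
  rw [map_zsmul, smul_eq_mul]
  nlinarith [hd i]

theorem map_gens {L₁ : Type} [AddCommGroup L₁] {ω₁ : Skew L₁} {C₁ : Cone L₁} {φ : L₁ →+ L}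
    (h : PushOK ω₁ C₁ ω C φ) {α : L₁ →+ ℤ} {Ψ : G ω₁ C₁ →* G ω C}
    (hΨ : ∀ g n, (Ψ g).1.f n = ∑ᶠ d ∈ {d | φ d = n}, tp (α d) * g.1.f d) (l : List (Gn L₁))
    (hl : ∀ x ∈ l, x.2.2 ∈ C₁.car ∧ x.2.2 ≠ 0) :
    Ψ (gens ω₁ C₁ l) = gens ω C (l.map fun x => (x.1, x.2.1 + α x.2.2, φ x.2.2)) := by
  rw [gens, gens, map_list_prod, List.map_map, List.map_map]
  exact congrArg List.prod (List.map_congr_left fun x hx => gen_push h hΨ (hl x hx).1 (hl x hx).2)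

end RL

open RL in
theorem lemR (l : List (Gn L)) (hl : ∀ x ∈ l, x.2.2 ∈ C.car ∧ x.2.2 ≠ 0)
    (hord : l.Pairwise fun x y => 0 ≤ ω.w x.2.2 y.2.2) (η : L →+ ℚ)
    (hη : ∀ a ∈ AddSubmonoid.closure {n | ∃ x ∈ l, x.2.2 = n},
      ∀ b ∈ AddSubmonoid.closure {n | ∃ x ∈ l, x.2.2 = n}, η a = 0 → η b = 0 → ω.w a b = 0)
    (D : ℤ) : ∃ l' : List (Gn L),
      (∀ x ∈ l', x.2.2 ∈ AddSubmonoid.closure {n | ∃ x ∈ l, x.2.2 = n} ∧ x.2.2 ≠ 0 ∧ η x.2.2 = 0) ∧
      A.Cong {n | C.deg n ≤ D} (z0 η (gens ω C l)).1 (gens ω C l').1 := by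
  obtain ⟨r, x, rfl⟩ : ∃ (r : ℕ) (x : Fin r → Gn L), l = List.ofFn x :=
    ⟨_, l.get, (List.ofFn_get l).symm⟩
  have hx : ∀ i, (x i).2.2 ∈ C.car ∧ (x i).2.2 ≠ 0 := fun i => hl _ (List.mem_ofFn.2 ⟨i, rfl⟩)
  rw [List.pairwise_ofFn] at hord
  let φ : (Fin r → ℤ) →+ L := lin fun i => (x i).2.2
  let ω₁ : Skew (Fin r → ℤ) := ⟨(ω.w.comp φ).compl₂ φ, fun a => ω.alt _⟩
  have cl : ∀ d ∈ (orth r).car,
      φ d ∈ AddSubmonoid.closure {n | ∃ y ∈ List.ofFn x, y.2.2 = n} := fun d hd =>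
    lin_mem _ (fun i => AddSubmonoid.subset_closure
      (by exact ⟨x i, List.mem_ofFn.2 ⟨i, rfl⟩, rfl⟩)) hd
  have ok : PushOK ω₁ (orth r) ω C φ := ⟨fun _ _ => rfl,
    fun d hd => lin_mem _ (fun i => (hx i).1) hd, fun d hd d0 e => by
      have h1 := deg_lin hx hd
      have h2 := (orth r).pos d hd d0
      rw [show lin (fun i => (x i).2.2) d = 0 from e, map_zero] at h1
      omega, fun n => ((orth r).fin (C.deg n)).subset fun d hd => ⟨hd.1, hd.2 ▸ deg_lin hx hd.1⟩⟩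
  obtain ⟨Φ, Ψ, h1, h2⟩ := exists_push ok (lin fun i => (x i).2.1)
  have hΨ : ∀ g n, (Ψ g).1.f n = ∑ᶠ d ∈ {d | φ d = n}, tp (lin (fun i => (x i).2.1) d) * g.1.f d :=
    fun g n => by rw [h1, h2]
  obtain ⟨l', hl', hc⟩ := lemR0 ω₁ (fun j i => (ω.w (x j).2.2 (x i).2.2).toNat) (fun i => (x i).1)
    (fun j i h => by
      rw [Int.toNat_of_nonneg (hord h), ← ok.w, lin_single, lin_single]) (η.comp φ)
    (fun d d' a b => hη _ (cl _ (io_mem d)) _ (cl _ (io_mem d')) a b) D.toNat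
  have e1 : gens ω C (List.ofFn x) = Ψ (gens ω₁ (orth r) (bas fun i => (x i).1)) := by
    rw [map_gens ok hΨ _ fun y hy => by
      obtain ⟨i, rfl⟩ := List.mem_ofFn.1 hy
      exact single_mem i, bas, List.map_ofFn]
    congr 2
    ext1 i
    simp only [Function.comp, φ, lin_single, zero_add]
  refine ⟨l'.map fun y => (y.1, y.2.1 + lin (fun i => (x i).2.1) y.2.2, φ y.2.2), fun y hy => ?_,
    fun n hn => ?_⟩
  · obtain ⟨z, hz, rfl⟩ := List.mem_map.1 hy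
    exact ⟨cl _ (hl' z hz).1, ok.ne _ (hl' z hz).1 (hl' z hz).2.1, (hl' z hz).2.2⟩
  · rw [e1, (fac_push ok hΨ η _).1,
      ← map_gens ok hΨ l' fun z hz => ⟨(hl' z hz).1, (hl' z hz).2.1⟩, hΨ, hΨ]
    refine finsum_mem_congr rfl fun d hd => ?_
    by_cases c : d ∈ (orth r).car
    · have a1 := deg_lin hx c
      have a2 : C.deg n ≤ D := hn
      rw [show lin (fun i => (x i).2.2) d = n from hd] at a1
      rw [hc d (show (orth r).deg d ≤ (D.toNat : ℤ) by omega)]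
    · rw [A.eq_zero c, A.eq_zero c]

end Pool.Agent.Lib.MP_33bfb2_co.Th
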