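import Pool.Agent.Lib.MP_33bfb2_co.Th.A3
import Pool.Agent.Lib.MP_33bfb2_co.Th.RL
import Pool.Agent.Lib.MP_33bfb2_co.Th.PGeo

namespace Pool.Agent.Lib.MP_33bfb2_co.Th

open Finset

variable {L : Type} [AddCommGroup L] {ω : Skew L} {C C' : Cone L}

/-! ## File P1 (imports A3, lemR): positivity of walls -/

/-- On Λ the middle factor is a product of generators at vectors of Λ killed by θ. -/
def PGood (g : G ω C) (Λ : Set L) (θ : L →+ ℚ) : Prop :=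
  ∃ l : List (Gn L), (∀ x ∈ l, x.2.2 ∈ Λ ∧ x.2.2 ∈ C.car ∧ x.2.2 ≠ 0 ∧ θ x.2.2 = 0) ∧
    A.Cong Λ (z0 θ g).1 (gens ω C l).1

/-- The submonoid of vectors that are zero or negative. -/
def PNeg (θ : L →+ ℚ) : AddSubmonoid L where
  carrier := {n | n = 0 ∨ θ n < 0}
  zero_mem' := Or.inl rfl
  add_mem' := by
    rintro a b (rfl | ha) (rfl | hb)
    · simp
    · simpa using Or.inr hb
    · simpa using Or.inr ha
    · exact Or.inr (by rw [map_add]; linarith)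

theorem P_gens_cons (x : Gn L) (l : List (Gn L)) :
    gens ω C (x :: l) = gen ω C x * gens ω C l := by simp [gens]

theorem P_gens_append (l l' : List (Gn L)) :
    gens ω C (l ++ l') = gens ω C l * gens ω C l' := by simp [gens]

theorem P_same (Λ : Set L) (θ : L →+ ℚ) : SameSign Λ θ θ := fun _ _ => ⟨Iff.rfl, Iff.rfl⟩

theorem P_drop {Λ : Set L} (hΛ : C.Lower Λ) (l : List (Gn L)) : ∃ l' : List (Gn L),
    (∀ x ∈ l', x ∈ l ∧ x.2.2 ∈ Λ) ∧ A.Cong Λ (gens ω C l).1 (gens ω C l').1 := by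
  induction l with
  | nil => exact ⟨[], by simp, fun _ _ => rfl⟩
  | cons x l ih =>
    obtain ⟨l', h1, h2⟩ := ih
    by_cases h : x.2.2 ∈ Λ
    · refine ⟨x :: l', fun y hy => ?_, ?_⟩
      · rcases List.mem_cons.1 hy with rfl | hy
        · exact ⟨List.mem_cons_self, h⟩
        · exact ⟨List.mem_cons_of_mem _ (h1 y hy).1, (h1 y hy).2⟩
      · rw [P_gens_cons, P_gens_cons]
        exact A.Cong.mul hΛ (fun _ _ => rfl) h2
    · refine ⟨l', fun y hy => ⟨List.mem_cons_of_mem _ (h1 y hy).1, (h1 y hy).2⟩, ?_⟩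
      rw [P_gens_cons]
      have := A.Cong.mul hΛ (gen_cong_one (ω := ω) hΛ h) h2
      rwa [one_mul] at this

theorem PGood.of {Λ : Set L} (hΛ : C.Lower Λ) {g : G ω C} {θ : L →+ ℚ} (l : List (Gn L))
    (h1 : ∀ x ∈ l, x.2.2 ∈ C.car ∧ x.2.2 ≠ 0 ∧ θ x.2.2 = 0)
    (h2 : A.Cong Λ (z0 θ g).1 (gens ω C l).1) : PGood g Λ θ := by
  obtain ⟨l', k1, k2⟩ := P_drop (ω := ω) hΛ l
  exact ⟨l', fun x hx => ⟨(k1 x hx).2, h1 x (k1 x hx).1⟩, fun n hn => (h2 n hn).trans (k2 n hn)⟩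

theorem P_in_zero {S : Set L} {a : A ω C} (h : a.In S) {n : L} (hn : n ∉ S) : a.f n = 0 :=
  not_not.1 (mt (h n) hn)

theorem P_off {Λ : Set L} {g : G ω C} {θ : L →+ ℚ} {n : L} (h : PGood g (Λ \ {n}) θ)
    (hn : θ n ≠ 0) : PGood g Λ θ := by
  obtain ⟨l, h1, h2⟩ := h
  refine ⟨l, fun x hx => ⟨(h1 x hx).1.1, (h1 x hx).2⟩, fun m hm => ?_⟩
  by_cases e : m = n
  · rw [e, P_in_zero (z0_in θ g) hn,
      P_in_zero (gens_in (AddMonoidHom.mker θ) fun x hx => (h1 x hx).2.2.2) hn]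
  · exact h2 m ⟨hm, e⟩

theorem P_ell_zero (δ : L →+ ℤ) (k : G ω C) : (ell δ k).f 0 = 0 := by
  rw [ell, A.mul_zero_apply]
  simp [der]

theorem Psl_sub (n : L) (σ τ : ℚ) (x : L) :
    Psl ω C n σ x = Psl ω C n τ x + (τ - σ) * C.deg x := by
  rw [Psl_apply, Psl_apply]; ring

/-- Peeling off the rays in the order of decreasing slope. -/
theorem P_peel {Λ : Set L} (hΛ : C.Lower Λ) (n : L) (Z : Set L)
    (hw : ∀ a ∈ Z, ∀ b ∈ Z, ∀ σ τ, τ ≤ σ → Psl ω C n σ a = 0 → Psl ω C n τ b = 0 → 0 ≤ ω.w a b)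
    (T : Finset ℚ) : ∀ (k : G ω C) (P : AddSubmonoid L), k.1.In P →
      (∀ m ∈ Λ, m ∈ C.car → m ≠ 0 → m ∈ P → ∃ σ ∈ T, Psl ω C n σ m = 0) →
      (∀ σ ∈ T, ∃ l : List (Gn L), (∀ x ∈ l, x.2.2 ∈ Z ∧ Psl ω C n σ x.2.2 = 0) ∧
        A.Cong Λ (z0 (Psl ω C n σ) k).1 (gens ω C l).1) →
      ∃ l : List (Gn L), (∀ x ∈ l, x.2.2 ∈ Z ∧ ∃ σ ∈ T, Psl ω C n σ x.2.2 = 0) ∧
        (l.Pairwise fun x y => 0 ≤ ω.w x.2.2 y.2.2) ∧ A.Cong Λ k.1 (gens ω C l).1 := by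
  induction T using Finset.induction_on_max with
  | empty =>
    intro k P hk h1 _
    refine ⟨[], by simp, List.Pairwise.nil, fun m hm => ?_⟩
    by_cases e : m = 0
    · rw [e, G.f_zero, G.f_zero]
    · have : k.1.f m = 0 := by
        by_contra ne
        simpa using h1 m hm (k.1.supp m ne) e (hk m ne)
      rw [this]
      exact ((A.one_f m).trans (if_neg e)).symm
  | insert σ T hT ih =>
    intro k P hk h1 h2
    obtain ⟨f1, -, f3⟩ := fac_in P (Psl ω C n σ) hk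
    have e1 : A.Cong Λ (fa (Psl ω C n σ) k).1 (z0 (Psl ω C n σ) k).1 := by
      intro m hm
      by_cases z : Psl ω C n σ m = 0
      · exact (Set.indicator_of_mem (s := {x | Psl ω C n σ x = 0}) z _).symm
      · rw [P_in_zero (z0_in _ k) z]
        by_contra ne
        have m1 := (fa (Psl ω C n σ) k).1.supp m ne
        have m0 : m ≠ 0 := fun e => z (by rw [e, map_zero])
        obtain ⟨τ, t1, t2⟩ := h1 m hm m1 m0 (f1 m ne)
        rcases mem_insert.1 t1 with rfl | t1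
        · exact z t2
        · have p1 : (0 : ℚ) ≤ Psl ω C n σ m := fa_in _ k m ne
          have p2 : (0 : ℚ) < C.deg m := by exact_mod_cast C.pos m m1 m0
          rw [Psl_sub n σ τ, t2] at p1
          nlinarith [hT τ t1]
    have e2 : A.Cong Λ k.1 (z0 (Psl ω C n σ) k * fc (Psl ω C n σ) k).1 := by
      have := A.Cong.mul hΛ e1 (fun _ _ => rfl : A.Cong Λ (fc (Psl ω C n σ) k).1 _)
      exact fun m hm =>
        (congrArg (fun x : G ω C => x.1.f m) (fa_mul_fc _ k).symm).trans (this m hm)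
    obtain ⟨l2, a1, a2, a3⟩ := ih (fc (Psl ω C n σ) k) (P ⊓ PNeg (Psl ω C n σ))
      (fun m hm => ⟨f3 m hm, fc_in _ k m hm⟩) (fun m hm m1 m0 hP => by
        obtain ⟨τ, t1, t2⟩ := h1 m hm m1 m0 hP.1
        rcases mem_insert.1 t1 with rfl | t1
        · exact absurd t2 (hP.2.resolve_left m0).ne
        · exact ⟨τ, t1, t2⟩) (fun τ t1 => by
        obtain ⟨l, b1, b2⟩ := h2 τ (mem_insert_of_mem t1)
        refine ⟨l, b1, fun m hm => ?_⟩
        have c1 : (z0 (Psl ω C n σ) k).1.In0 {x | 0 < Psl ω C n τ x} := fun x hx => by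
          by_cases x0 : x = 0
          · exact Or.inl x0
          · have p1 : Psl ω C n σ x = 0 := z0_in _ k x hx
            have p2 : (0 : ℚ) < C.deg x := by
              exact_mod_cast C.pos x ((z0 (Psl ω C n σ) k).1.supp x hx) x0
            refine Or.inr (show 0 < Psl ω C n τ x from ?_)
            rw [Psl_sub n τ σ, p1, zero_add]
            exact mul_pos (sub_pos.2 (hT τ t1)) p2
        have c2 := (z0_absorb (Psl ω C n τ) (fc (Psl ω C n σ) k) c1 (d := 1) (fun x hx => by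
          by_contra ne
          exact hx ((A.one_f x).trans (if_neg fun e => ne (Or.inl e))))).1
        rw [mul_one] at c2
        rw [← c2, ← b2 m hm]
        exact ((z0_cong hΛ (P_same _ _) e2).1 m hm).symm)
    obtain ⟨l1, b1, b2⟩ := h2 σ (mem_insert_self _ _)
    refine ⟨l1 ++ l2, fun x hx => ?_, ?_, ?_⟩
    · rcases List.mem_append.1 hx with hx | hx
      · exact ⟨(b1 x hx).1, σ, mem_insert_self _ _, (b1 x hx).2⟩
      · obtain ⟨c1, τ, c2, c3⟩ := a1 x hx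
        exact ⟨c1, τ, mem_insert_of_mem c2, c3⟩
    · refine List.pairwise_append.2 ⟨?_, a2, fun x hx y hy => ?_⟩
      · exact List.pairwise_of_forall_mem_list fun x hx y hy =>
          hw _ (b1 x hx).1 _ (b1 y hy).1 σ σ le_rfl (b1 x hx).2 (b1 y hy).2
      · obtain ⟨c1, τ, c2, c3⟩ := a1 y hy
        exact hw _ (b1 x hx).1 _ c1 σ τ (hT τ c2).le (b1 x hx).2 c3
    · rw [P_gens_append]
      exact fun m hm => (e2 m hm).trans (A.Cong.mul hΛ b2 a3 m hm)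

theorem P_lex {Λ : Set L} {θ' θ ξ : L →+ ℚ}
    (h : ∀ a ∈ Λ, a ∈ C.car → a ≠ 0 →
      (0 < θ' a ↔ 0 < θ a ∨ (θ a = 0 ∧ 0 < ξ a)) ∧ (θ' a = 0 ↔ θ a = 0 ∧ ξ a = 0)) :
    LexSign (Λ ∩ C.car) θ' θ ξ := fun a ha => by
  by_cases e : a = 0
  · simp [e]
  · exact h a ha.1 ha.2 e

/-- The end of the flow. -/
theorem P_base {Λ : Set L} (hΛ : C.Lower Λ) {g : G ω C} {n : L} (hn : 0 < C.deg n)
    {l : List (Gn L)} (h1 : ∀ x ∈ l, x.2.2 ∈ C.car ∧ x.2.2 ≠ 0 ∧ C.Par x.2.2 n)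
    (h2 : ∀ m ∈ Λ, m ∈ C.car → C.Par m n →
      (ell C.deg (z0 (th ω n) g)).f m = (ell C.deg (gens ω C l)).f m)
    {θ : L →+ ℚ} (h0 : θ n = 0) (g1 : ∀ a ∈ Λ, a ∈ C.car → a ≠ 0 → θ a = 0 → C.Par a n)
    (hT : ∀ a ∈ Λ, a ∈ C.car → a ≠ 0 → 0 ≤ θ a * th ω n a) : PGood g Λ θ := by
  have lex : LexSign (Λ ∩ C.car) θ (th ω n) θ := P_lex fun a a1 a2 a3 => by
    have p1 := hT a a1 a2 a3
    have p2 : θ a = 0 → th ω n a = 0 := fun e => (g1 a a1 a2 a3 e).kill hn (P_th_self n)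
    refine ⟨⟨fun p => ?_, ?_⟩, ⟨fun p => ⟨p2 p, p⟩, fun p => p.2⟩⟩
    · rcases (nonneg_of_mul_nonneg_right p1 p).lt_or_eq with q | q
      · exact Or.inl q
      · exact Or.inr ⟨q.symm, p⟩
    · rintro (p | p)
      · exact (nonneg_of_mul_nonneg_left p1 p).lt_of_ne fun e => p.ne' (p2 e.symm)
      · exact p.2
  have e1 := ell_cong hΛ C.deg (z0_nest hΛ lex g)
  refine PGood.of hΛ l (fun x hx => ⟨(h1 x hx).1, (h1 x hx).2.1, (h1 x hx).2.2.kill hn h0⟩)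
    (cong_of_ell hΛ fun m hm => ?_)
  by_cases m1 : m ∈ C.car
  swap
  · rw [A.eq_zero m1, A.eq_zero m1]
  by_cases m0 : m = 0
  · rw [m0, P_ell_zero, P_ell_zero]
  by_cases p : C.Par m n
  · rw [e1 m hm, ← h2 m hm m1 p]
    refine ell_z0 C.deg (fun x hx => ?_) θ (p.kill hn h0) m0
    have q1 : th ω n x = 0 := z0_in _ g x hx
    rw [P_th, neg_eq_zero] at q1
    have q2 : ω.w n x = 0 := by exact_mod_cast q1
    have q3 := congrArg (fun y => ω.w y x) (show C.deg n • m = C.deg m • n from p)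
    simp only [map_zsmul, AddMonoidHom.smul_apply, smul_eq_mul, q2, mul_zero] at q3
    exact (mul_eq_zero.1 q3).resolve_left hn.ne'
  · rw [P_in_zero (ell_in (AddMonoidHom.mker θ) C.deg (z0_in θ g)) fun e => p (g1 m hm m1 m0 e),
      P_in_zero (ell_in (PRay C n).toAddSubmonoid C.deg
        (gens_in (PRay C n).toAddSubmonoid fun x hx => (h1 x hx).2.2)) p]

/-- The flow in the direction of the attractor functional of n. -/
theorem P_flow (hs : PSep L) {Λ : Set L} (hΛ : C.Lower Λ) (M : Finset L)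
    (hM : ∀ a, a ∈ M ↔ a ∈ Λ ∧ a ∈ C.car ∧ a ≠ 0) {g : G ω C} {n : L} (hn : 0 < C.deg n)
    {l₀ : List (Gn L)} (h1 : ∀ x ∈ l₀, x.2.2 ∈ C.car ∧ x.2.2 ≠ 0 ∧ C.Par x.2.2 n)
    (h2 : ∀ m ∈ Λ, m ∈ C.car → C.Par m n →
      (ell C.deg (z0 (th ω n) g)).f m = (ell C.deg (gens ω C l₀)).f m)
    (IH : ∀ θ : L →+ ℚ, (∀ a ∈ M, ∀ b ∈ M, θ a = 0 → θ b = 0 → C.Par a b) → θ n ≠ 0 →
      PGood g Λ θ) (N : ℕ) : ∀ θ : L →+ ℚ, #(M.filter fun a => θ a * th ω n a < 0) = N →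
      θ n = 0 → (∀ a ∈ M, θ a = 0 → C.Par a n) →
      (∀ a ∈ M, ∀ b ∈ M, θ (Pyy ω n a b) = 0 → C.Par (Pyy ω n a b) n) → PGood g Λ θ := by
  classical
  induction N using Nat.strong_induction_on with
  | _ N ih =>
  intro θ hN h0 g1 g2
  rcases (M.filter fun a => θ a * th ω n a < 0).eq_empty_or_nonempty with hT | hT
  · exact P_base hΛ hn h1 h2 h0 (fun a a1 a2 a3 => g1 a ((hM a).2 ⟨a1, a2, a3⟩))
      fun a a1 a2 a3 => not_lt.1 (filter_eq_empty_iff.1 hT ((hM a).2 ⟨a1, a2, a3⟩))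
  have fin : (Λ ∩ C.car).Finite := (insert 0 M).finite_toSet.subset fun a ha => by
    by_cases e : a = 0
    · simp [e]
    · exact mem_coe.2 (mem_insert_of_mem ((hM a).2 ⟨ha.1, ha.2, e⟩))
  have dpos : ∀ a ∈ M, 0 < C.deg a := fun a ha => C.pos a ((hM a).1 ha).2.1 ((hM a).1 ha).2.2
  obtain ⟨a₀, ha₀, hmin⟩ := exists_min_image _ (fun a => - θ a / th ω n a) hT
  obtain ⟨a₀M, a₀T⟩ := mem_filter.1 ha₀
  obtain ⟨s, hsd⟩ : ∃ s, s = - θ a₀ / th ω n a₀ := ⟨_, rfl⟩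
  rw [← hsd] at hmin
  have η₀ : th ω n a₀ ≠ 0 := fun e => by simp [e] at a₀T
  have s1 : θ a₀ + s * th ω n a₀ = 0 := by rw [hsd, div_mul_cancel₀ _ η₀, add_neg_cancel]
  have η₂ : 0 < th ω n a₀ * th ω n a₀ := mul_self_pos.2 η₀
  have s0 : 0 < s := by
    have : θ a₀ * th ω n a₀ + s * (th ω n a₀ * th ω n a₀) = 0 := by
      rw [← mul_assoc, ← add_mul, s1, zero_mul]
    by_contra q
    nlinarith [not_lt.1 q]
  obtain ⟨θ₁, hθ₁⟩ : ∃ θ₁ : L →+ ℚ, ∀ a, θ₁ a = θ a + s * th ω n a :=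
    ⟨θ + s • th ω n, fun _ => rfl⟩
  have k0 : ∀ a ∈ M, θ a = 0 → th ω n a = 0 := fun a ha e => (g1 a ha e).kill hn (P_th_self n)
  have k1 : ∀ a ∈ M, (0 < θ a → 0 ≤ θ₁ a) ∧ (θ a < 0 → θ₁ a ≤ 0) := fun a ha => by
    rw [hθ₁]
    constructor
    · intro p
      rcases lt_or_ge (th ω n a) 0 with q | q
      · have := hmin a (mem_filter.2 ⟨ha, mul_neg_of_pos_of_neg p q⟩)
        rw [le_div_iff_of_neg q] at this
        linarith
      · nlinarith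
    · intro p
      rcases lt_or_ge 0 (th ω n a) with q | q
      · have := hmin a (mem_filter.2 ⟨ha, mul_neg_of_neg_of_pos p q⟩)
        rw [le_div_iff₀ q] at this
        linarith
      · nlinarith
  have lex : LexSign (Λ ∩ C.car) θ θ₁ (- th ω n) := P_lex fun a a1 a2 a3 => by
    have ha := (hM a).2 ⟨a1, a2, a3⟩
    have p0 := k0 a ha
    obtain ⟨p1, p2⟩ := k1 a ha
    have p3 := hθ₁ a
    rw [AddMonoidHom.neg_apply]
    refine ⟨⟨fun p => ?_, ?_⟩, ⟨fun p => ?_, fun p => ?_⟩⟩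
    · rcases (p1 p).lt_or_eq with q | q
      · exact Or.inl q
      · refine Or.inr ⟨q.symm, ?_⟩
        by_contra r
        nlinarith [not_lt.1 r]
    · rintro (p | p)
      · rcases lt_trichotomy (θ a) 0 with q | q | q
        · exact absurd (p2 q) p.not_ge
        · rw [p3, q, p0 q] at p
          simp at p
        · exact q
      · nlinarith [p.1, p.2]
    · rw [p3, p, p0 p]
      simp
    · have := neg_eq_zero.1 p.2
      rw [p.1, this] at p3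
      linarith
  obtain ⟨Z, hZ⟩ : ∃ Z : Finset L, ∀ a, a ∈ Z ↔ a ∈ M ∧ θ₁ a = 0 :=
    ⟨M.filter fun a => θ₁ a = 0, fun _ => mem_filter⟩
  have back : ∀ a, θ₁ a = 0 → th ω n a = 0 → θ a = 0 := fun a p q => by
    rw [hθ₁, q, mul_zero, add_zero] at p
    exact p
  have id : ∀ a ∈ (Z : Set L), ∀ b ∈ (Z : Set L), Pyy ω n a b = ω.w a b • n := by
    intro a ha b hb
    obtain ⟨a1, a2⟩ := (hZ a).1 ha
    obtain ⟨b1, b2⟩ := (hZ b).1 hb
    refine P_id hs hn (g2 a a1 b b1 (back _ ?_ (Pyy_th n a b))) fun e => g1 a a1 (back a a2 ?_)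
    · rw [Pyy_map, a2, b2]; ring
    · rw [P_th, e]; simp
  obtain ⟨l, l1, l2, l3⟩ := P_peel hΛ n (Z : Set L) (fun a ha b hb σ τ le p q => by
      have e := P_id_slope (id a ha b hb) p q
      have p1 : (0 : ℚ) < C.deg a := by exact_mod_cast dpos a ((hZ a).1 ha).1
      have p2 : (0 : ℚ) < C.deg b := by exact_mod_cast dpos b ((hZ b).1 hb).1
      have p3 : (0 : ℚ) < C.deg n := by exact_mod_cast hn
      have p4 : (0 : ℚ) ≤ ω.w a b := by
        refine nonneg_of_mul_nonneg_left ?_ p3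
        rw [e]
        exact mul_nonneg (mul_pos p1 p2).le (sub_nonneg.2 le)
      exact_mod_cast p4)
    (Z.image fun a => th ω n a / C.deg a) (z0 θ₁ g) (AddMonoidHom.mker θ₁) (z0_in θ₁ g)
    (fun m m1 m2 m3 m4 => by
      have hm := (hM m).2 ⟨m1, m2, m3⟩
      refine ⟨_, mem_image_of_mem _ ((hZ m).2 ⟨hm, m4⟩), ?_⟩
      have : (C.deg m : ℚ) ≠ 0 := by exact_mod_cast (dpos m hm).ne'
      rw [Psl_apply, div_mul_cancel₀ _ this, sub_self])
    (fun σ _ => by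
      obtain ⟨ε, e0, e1⟩ := exists_eps fin θ₁ (Psl ω C n σ)
      have lx := e1 ε e0 le_rfl
      have kill : ∀ a ∈ M, (θ₁ + ε • Psl ω C n σ) a = 0 → θ₁ a = 0 ∧ Psl ω C n σ a = 0 :=
        fun a ha => (lx a ⟨((hM a).1 ha).1, ((hM a).1 ha).2.1⟩).2.1
      have t1 : θ₁ n = 0 := by rw [hθ₁, h0, P_th_self, mul_zero, add_zero]
      have good : PGood g Λ (θ₁ + ε • Psl ω C n σ) := by
        by_cases z : σ = 0
        · have ev : ∀ a, (θ₁ + ε • Psl ω C n σ) a = θ a + (s + ε) * th ω n a := fun a => by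
            show θ₁ a + ε * Psl ω C n σ a = _
            rw [hθ₁, Psl_apply, z]; ring
          refine ih _ ?_ _ rfl (by rw [ev, h0, P_th_self]; ring) (fun a ha e => ?_)
            fun a ha b hb e => g2 a ha b hb ?_
          · rw [← hN]
            refine card_lt_card ⟨fun a ha => ?_, fun sub => ?_⟩
            · obtain ⟨q1, q2⟩ := mem_filter.1 ha
              rw [ev] at q2
              refine mem_filter.2 ⟨q1, ?_⟩
              nlinarith [mul_nonneg (add_pos s0 e0).le (mul_self_nonneg (th ω n a))]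
            · have q2 := (mem_filter.1 (sub ha₀)).2
              rw [ev, add_mul s, ← add_assoc, s1, zero_add, mul_assoc] at q2
              exact q2.not_gt (mul_pos e0 η₂)
          · obtain ⟨q1, q2⟩ := kill a ha e
            rw [Psl_apply, z, zero_mul, sub_zero] at q2
            exact g1 a ha (back a q1 q2)
          · rwa [ev, Pyy_th, mul_zero, add_zero] at e
        · refine IH _ (fun a ha b hb p q => ?_) fun e => ?_
          · obtain ⟨p1, p2⟩ := kill a ha p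
            obtain ⟨q1, q2⟩ := kill b hb q
            exact P_id_par hs hn (id a ((hZ a).2 ⟨ha, p1⟩) b ((hZ b).2 ⟨hb, q1⟩)) p2 q2
              (dpos b hb) z
          · have e' : θ₁ n + ε * Psl ω C n σ n = 0 := e
            rw [t1, Psl_apply, P_th_self, zero_add, zero_sub] at e'
            exact mul_ne_zero e0.ne' (neg_ne_zero.2 (mul_ne_zero z (by exact_mod_cast hn.ne'))) e'
      obtain ⟨l, q1, q2⟩ := good
      refine ⟨l, fun x hx => ?_, fun m hm => ((z0_nest hΛ lx g) m hm).symm.trans (q2 m hm)⟩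
      obtain ⟨x1, x2, x3, x4⟩ := q1 x hx
      have xM := (hM _).2 ⟨x1, x2, x3⟩
      exact ⟨(hZ _).2 ⟨xM, (kill _ xM x4).1⟩, (kill _ xM x4).2⟩)
  have sub : AddSubmonoid.closure {m | ∃ x ∈ l, x.2.2 = m} ≤ AddSubmonoid.closure (Z : Set L) :=
    AddSubmonoid.closure_mono (by rintro _ ⟨x, hx, rfl⟩; exact (l1 x hx).1)
  have sub2 : AddSubmonoid.closure (Z : Set L) ≤ C.car ⊓ AddMonoidHom.mker θ₁ :=
    AddSubmonoid.closure_le.2 fun a ha => ⟨((hM a).1 ((hZ a).1 ha).1).2.1, ((hZ a).1 ha).2⟩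
  obtain ⟨D, hD⟩ := (M.image C.deg).bddAbove
  obtain ⟨l', r1, r2⟩ := lemR (ω := ω) (C := C) l
    (fun x hx => ((hM _).1 ((hZ _).1 (l1 x hx).1).1).2) l2 (- th ω n) (fun a ha b hb p q => by
      have e := congrArg C.deg (P_id_closure id (sub ha) (sub hb))
      rw [AddMonoidHom.neg_apply, P_th, neg_neg] at p q
      have p' : ω.w n a = 0 := by exact_mod_cast p
      have q' : ω.w n b = 0 := by exact_mod_cast q
      simp only [Pyy, p', q', zero_smul, sub_self, map_zero, map_zsmul, smul_eq_mul] at e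
      exact (mul_eq_zero.1 e.symm).resolve_right hn.ne') D
  refine PGood.of hΛ l' (fun x hx => ?_) fun m hm => ?_
  · obtain ⟨x1, x2, x3⟩ := r1 x hx
    have x4 := sub2 (sub x1)
    exact ⟨x4.1, x2, back _ x4.2 (neg_eq_zero.1 x3)⟩
  · by_cases m1 : m ∈ C.car
    swap
    · rw [A.eq_zero m1, A.eq_zero m1]
    by_cases m0 : m = 0
    · rw [m0, G.f_zero, G.f_zero]
    rw [z0_nest hΛ lex g m hm, (z0_cong hΛ (P_same _ _) l3).1 m hm]
    exact r2 m (hD (mem_coe.2 (mem_image_of_mem _ ((hM m).2 ⟨hm, m1, m0⟩))))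

theorem P_main (hs : PSep L) (g : G ω C) (N : ℕ) : ∀ (Λ : Set L) (M : Finset L), #M = N →
    C.Lower Λ → (∀ a, a ∈ M ↔ a ∈ Λ ∧ a ∈ C.car ∧ a ≠ 0) →
    (∀ n ∈ Λ, n ∈ C.car → n ≠ 0 → ∃ l : List (Gn L),
      (∀ x ∈ l, x.2.2 ∈ C.car ∧ x.2.2 ≠ 0 ∧ C.Par x.2.2 n) ∧ ∀ m ∈ Λ, m ∈ C.car → C.Par m n →
        (ell C.deg (z0 (th ω n) g)).f m = (ell C.deg (gens ω C l)).f m) →
    ∀ θ : L →+ ℚ, (∀ a ∈ M, ∀ b ∈ M, θ a = 0 → θ b = 0 → C.Par a b) → PGood g Λ θ := by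
  classical
  induction N with
  | zero =>
    intro Λ M hN _ hM _ θ _
    refine ⟨[], by simp, fun m hm => ?_⟩
    by_cases m1 : m ∈ C.car
    swap
    · rw [A.eq_zero m1, A.eq_zero m1]
    by_cases m0 : m = 0
    · rw [m0, G.f_zero, G.f_zero]
    exact absurd ((hM m).2 ⟨hm, m1, m0⟩) (by simp [card_eq_zero.1 hN])
  | succ N ih =>
    intro Λ M hN hΛ hM hyp θ hθ
    obtain ⟨n, hn, hmax⟩ := exists_max_image M C.deg (card_pos.1 (by omega))
    obtain ⟨n1, n2, n3⟩ := (hM n).1 hn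
    have n0 := C.pos n n2 n3
    have low : C.Lower (Λ \ {n}) := fun a ha b hb h => ⟨hΛ a ha b hb h.1, fun e => by
      have e' : a = n := e
      subst e'
      have b0 : b ≠ 0 := fun z => h.2 (by simp [z])
      have p := C.pos b hb b0
      have q := hmax (a + b) ((hM _).2 ⟨h.1, C.car.add_mem ha hb, fun z => by
        have := congrArg C.deg z
        rw [map_add, map_zero] at this
        omega⟩)
      rw [map_add] at q
      omega⟩
    have IH : ∀ θ : L →+ ℚ, (∀ a ∈ M, ∀ b ∈ M, θ a = 0 → θ b = 0 → C.Par a b) → θ n ≠ 0 →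
        PGood g Λ θ := fun θ hθ h => P_off (ih (Λ \ {n}) (M.erase n)
      (by rw [card_erase_of_mem hn]; omega) low (fun a => by
        rw [mem_erase, hM]
        exact ⟨fun p => ⟨⟨p.2.1, p.1⟩, p.2.2⟩, fun p => ⟨p.1.2, p.1.1, p.2⟩⟩)
      (fun m m1 m2 m3 => by
        obtain ⟨l, p1, p2⟩ := hyp m m1.1 m2 m3
        exact ⟨l, p1, fun x hx => p2 x hx.1⟩) θ
      fun a ha b hb => hθ a (mem_of_mem_erase ha) b (mem_of_mem_erase hb)) h
    by_cases h0 : θ n = 0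
    swap
    · exact IH θ hθ h0
    obtain ⟨l₀, h1, h2⟩ := hyp n n1 n2 n3
    obtain ⟨θ₁, t1, t2, t3⟩ := P_perturb (C := C) hs M n θ (fun a ha => ha.kill n0 h0)
      ((M ×ˢ M).image fun p => Pyy ω n p.1 p.2)
    have sg : ∀ a ∈ M, (0 < θ a ↔ 0 < θ₁ a) ∧ (θ a = 0 ↔ θ₁ a = 0) := fun a ha => by
      obtain ⟨p1, p2⟩ := t2 a ha
      rcases lt_trichotomy (θ a) 0 with q | q | q
      · have := p2 q
        exact ⟨iff_of_false q.not_gt this.not_gt, iff_of_false q.ne this.ne⟩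
      · have := t1 a (hθ a ha n hn q h0)
        exact ⟨iff_of_false q.not_gt this.not_gt, iff_of_true q this⟩
      · have := p1 q
        exact ⟨iff_of_true q this, iff_of_false q.ne' this.ne'⟩
    obtain ⟨l, q1, q2⟩ := P_flow hs hΛ M hM n0 h1 h2 IH _ θ₁ rfl (t1 n rfl)
      (fun a ha e => hθ a ha n hn ((sg a ha).2.2 e) h0)
      fun a ha b hb => t3 _ (mem_image.2 ⟨(a, b), mem_product.2 ⟨ha, hb⟩, rfl⟩)
    refine ⟨l, fun x hx => ?_, fun m hm => Eq.trans ((z0_cong hΛ (fun a ha => ?_)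
      (fun _ _ => rfl : A.Cong Λ g.1 g.1)).1 m hm) (q2 m hm)⟩
    · obtain ⟨x1, x2, x3, x4⟩ := q1 x hx
      exact ⟨x1, x2, x3, (sg _ ((hM _).2 ⟨x1, x2, x3⟩)).2.2 x4⟩
    · by_cases e : a = 0
      · simp [e]
      · exact sg a ((hM a).2 ⟨ha.1, ha.2, e⟩)

theorem PSep.pi (ι : Type) : PSep (ι → ℤ) := fun x hx => by
  obtain ⟨i, hi⟩ := Function.ne_iff.1 hx
  exact ⟨(Int.castAddHom ℚ).comp (Pi.evalAddMonoidHom (fun _ => ℤ) i), by simpa using hi⟩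

theorem wall_pos {ι : Type} [Fintype ι] {ω : Skew (ι → ℤ)} {C : Cone (ι → ℤ)} (g : G ω C)
    {Λ : Set (ι → ℤ)} (hΛ : C.Lower Λ) (hfin : (Λ ∩ C.car).Finite)
    (hyp : ∀ n ∈ Λ, n ∈ C.car → n ≠ 0 → ∃ l : List (Gn (ι → ℤ)),
      (∀ x ∈ l, x.2.2 ∈ C.car ∧ x.2.2 ≠ 0 ∧ C.Par x.2.2 n) ∧ ∀ m ∈ Λ, m ∈ C.car → C.Par m n →
        (ell C.deg (z0 (th ω n) g)).f m = (ell C.deg (gens ω C l)).f m)
    (θ : (ι → ℤ) →+ ℚ) {n₀ : ι → ℤ} (h₀ : n₀ ∈ C.car) (h₀' : n₀ ≠ 0)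
    (hθ : ∀ a ∈ Λ, a ∈ C.car → a ≠ 0 → θ a = 0 → C.Par a n₀) :
    ∃ l : List (Gn (ι → ℤ)), (∀ x ∈ l, x.2.2 ∈ C.car ∧ x.2.2 ≠ 0 ∧ C.Par x.2.2 n₀) ∧
      A.Cong Λ (z0 θ g).1 (gens ω C l).1 := by
  classical
  have hM : ∀ a, a ∈ hfin.toFinset.erase 0 ↔ a ∈ Λ ∧ a ∈ C.car ∧ a ≠ 0 := fun a => by
    rw [mem_erase, Set.Finite.mem_toFinset]
    exact ⟨fun p => ⟨p.2.1, p.2.2, p.1⟩, fun p => ⟨p.2.2, p.1, p.2.1⟩⟩
  obtain ⟨l, h1, h2⟩ := P_main (PSep.pi ι) g _ Λ _ rfl hΛ hM hyp θ fun a ha b hb p q => by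
    obtain ⟨a1, a2, a3⟩ := (hM a).1 ha
    obtain ⟨b1, b2, b3⟩ := (hM b).1 hb
    exact (hθ a a1 a2 a3 p).trans (PSep.pi ι) (hθ b b1 b2 b3 q).symm (C.pos _ h₀ h₀')
  refine ⟨l, fun x hx => ?_, h2⟩
  obtain ⟨x1, x2, x3, x4⟩ := h1 x hx
  exact ⟨x2, x3, hθ _ x1 x2 x3 x4⟩

end Pool.Agent.Lib.MP_33bfb2_co.Th
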