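import Mathlib

namespace Pool.Agent.Lib.MP_33bfb2_co.Th.Q

variable {A V : Type} [Ring A] [Algebra ℚ A] [AddCommGroup V] [Module ℚ V]

/-- The relations inside the algebra. -/
structure Rel (e y : ℤ → A) : Prop where
  r1 : ∀ a b, a + 2 ≤ b → ⁅e a, e b⁆ = 0
  r2 : ∀ a b, b = a + 1 ∨ a = b + 1 → ⁅e a, ⁅e a, e b⁆⁆ = 0
  r3 : ∀ a j, a ≠ j → ⁅e a, y j⁆ = 0
  r4 : ∀ j, ⁅e j, ⁅e j, y j⁆⁆ = 0
  r8 : ∀ j k z, y j * z * y k = 0

/-- A subspace closed under commutators. -/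
def Clo (K : Submodule ℚ A) : Prop := ∀ x ∈ K, ∀ x' ∈ K, ⁅x, x'⁆ ∈ K

/-- The segment a, a + 1, ..., a + k. -/
def sg (e : ℤ → A) (a : ℤ) : ℕ → A
  | 0 => e a
  | k + 1 => ⁅sg e a k, e (a + k + 1)⁆

/-- A particle moves from s to t. -/
def mv (S : Set ℤ) (s t : ℤ) : Set ℤ := insert t (S \ {s})

/-- The nested commutators of y j, with their degree and their diagram. -/
inductive Rep (e y : ℤ → A) (j : ℤ) : ℕ → Set ℤ → A → Prop
  | vac : Rep e y j 0 (Set.Iic j) (y j)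
  | add {d : ℕ} {S : Set ℤ} {v : A} (a : ℤ) : Rep e y j d S v → a ∈ S → a + 1 ∉ S →
      Rep e y j (d + 1) (mv S a (a + 1)) ⁅e a, v⁆

open Classical in
/-- The sign of a move. -/
noncomputable def sn (S : Set ℤ) (s t : ℤ) : ℚ := ∏ i ∈ Finset.Ioo s t, if i ∈ S then 1 else -1

/-- The mirror diagram; c = 0 at the front, c = 1 at the back. -/
def mir (c : ℤ) (S : Set ℤ) : Set ℤ := {i | 1 - c - i ∉ S}

/-- The front annihilator. -/
def K0 (φ : A →ₗ[ℚ] V) : Submodule ℚ A where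
  carrier := {x | ∀ z, φ (x * z) = 0}
  add_mem' := fun ha hb z => by rw [add_mul, map_add, ha z, hb z, add_zero]
  zero_mem' := fun z => by simp
  smul_mem' := fun c x hx z => by rw [smul_mul_assoc, map_smul, hx z, smul_zero]

/-- The back annihilator. -/
def K1 (φ : A →ₗ[ℚ] V) : Submodule ℚ A where
  carrier := {x | ∀ z, φ (z * x) = 0}
  add_mem' := fun ha hb z => by rw [mul_add, map_add, ha z, hb z, add_zero]
  zero_mem' := fun z => by simp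
  smul_mem' := fun c x hx z => by rw [mul_smul_comm, map_smul, hx z, smul_zero]

theorem clo_K0 (φ : A →ₗ[ℚ] V) : Clo (K0 φ) := fun x hx x' hx' z => by
  rw [Ring.lie_def, sub_mul, map_sub, mul_assoc, mul_assoc, hx, hx', sub_zero]

theorem clo_K1 (φ : A →ₗ[ℚ] V) : Clo (K1 φ) := fun x hx x' hx' z => by
  rw [Ring.lie_def, mul_sub, map_sub, ← mul_assoc, ← mul_assoc, hx, hx', sub_zero]

/-- The whole system: relations, boundary conditions, and the zeros far out. -/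
structure Sys (e y : ℤ → A) (φ : A →ₗ[ℚ] V) : Prop extends Rel e y where
  r5 : ∀ a, e a - e (-a) ∈ K0 φ
  r5y : ∀ j, y j - y (-j) ∈ K0 φ
  r6 : ⁅e 0, e 1⁆ - ⁅e (-1), e 0⁆ ∈ K0 φ
  r7 : ∀ a, e a - e (-a - 1) ∈ K1 φ
  r7y : ∀ j, y j - y (-j - 1) ∈ K1 φ
  far : ∀ x ∈ Algebra.adjoin ℚ ((e '' Set.Iio 0) ∪ (y '' Set.Iio 0)), φ x = 0

end Pool.Agent.Lib.MP_33bfb2_co.Th.Q
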