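import Pool.Agent.Lib.MP_33bfb2_co.Th.RFinL

/-! The logarithmic derivative of a generator. -/

namespace Pool.Agent.Lib.MP_33bfb2_co.Th

open Finset RF PowerSeries

variable {L : Type} [AddCommGroup L] {ω : Skew L} {C : Cone L}

/-- Coefficients of the logarithmic derivative of a generator. -/
noncomputable def lam (ε : Bool) (a : ℤ) (j : ℕ) : K :=
  if j = 0 then 0 else (if ε then (-1) ^ (j + 1) else 1) * (tp ((a + 1) * j) / (1 - tp (2 * j)))

namespace RF

theorem cc_succ (ε : Bool) (j : ℕ) :
    cc ε (j + 1) * (1 - tp 2 ^ (j + 1)) = (if ε then tp 2 ^ j else 1) * tp 1 * cc ε j := by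
  have n1 : (1 : K) - tp (2 * (j + 1)) ≠ 0 := one_sub_tp_ne (by omega)
  rw [cc, cc, prod_range_succ, tp_pow, tp_pow, Nat.cast_succ, ← div_div, div_mul_cancel₀ _ n1,
    ← mul_div_assoc]
  congr 1
  cases ε
  · simp [tp_add, mul_comm]
  · simp only [if_true, ← tp_add]
    congr 1
    ring

theorem log_der (ε : Bool) (a : ℤ) (j : ℕ) :
    ∑ p ∈ antidiagonal j, tp (a * p.1) * cc ε p.1 * lam ε a p.2 = j * (tp (a * j) * cc ε j) := by
  set q : K := tp 2 with hq
  set u : K := tp (a + 1) with hu
  set F : K⟦X⟧ := mk fun j => tp (a * j) * cc ε j with hF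
  set TF : K⟦X⟧ := mk fun j => j * (tp (a * j) * cc ε j) with hTF
  set Λ : K⟦X⟧ := mk (lam ε a) with hΛ
  have nq : ∀ j : ℕ, 1 - q ^ (j + 1) ≠ 0 := fun j => by
    rw [hq, tp_pow]; exact one_sub_tp_ne (by omega)
  have hc : ∀ j : ℕ, tp (a * (j + 1 : ℕ)) * cc ε (j + 1) * (1 - q ^ (j + 1))
      = (if ε then q ^ j else 1) * u * (tp (a * j) * cc ε j) := by
    intro j
    rw [mul_assoc, cc_succ, hu, tp_add, Nat.cast_succ, mul_add, mul_one, tp_add]
    ring
  have hl : ∀ j : ℕ, lam ε a (j + 1) * (1 - q ^ (j + 1))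
      = (if ε then (-1) ^ j else 1) * u ^ (j + 1) := by
    intro j
    have n1 := nq j
    rw [hq, tp_pow] at n1
    rw [lam, if_neg (Nat.succ_ne_zero j), hq, hu, tp_pow, tp_pow, mul_assoc, div_mul_cancel₀ _ n1]
    congr 1
    split_ifs
    · ring
    · rfl
  have hl0 : lam ε a 0 = 0 := if_pos rfl
  have r0 : ∀ H : K⟦X⟧, constantCoeff (rescale q H) = constantCoeff H := fun H => by
    rw [← coeff_zero_eq_constantCoeff_apply, coeff_rescale, pow_zero, one_mul,
      coeff_zero_eq_constantCoeff_apply]
  have key : ∀ j, coeff j (TF - F * Λ) = 0 := by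
    cases ε
    · simp only [Bool.false_eq_true, if_false, one_mul] at hc hl
      have a1 : F - C u * (X * F) = rescale q F := by
        ext j : 1
        cases j with
        | zero => simp [r0]
        | succ j =>
          rw [map_sub, coeff_C_mul, coeff_succ_X_mul, coeff_rescale, hF, coeff_mk, coeff_mk]
          linear_combination hc j
      have a2 : TF - C u * (X * TF) - C u * (X * F) = rescale q TF := by
        ext j : 1
        cases j with
        | zero => simp [r0]
        | succ j =>
          rw [map_sub, map_sub, coeff_C_mul, coeff_C_mul, coeff_succ_X_mul, coeff_succ_X_mul,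
            coeff_rescale, hF, hTF, coeff_mk, coeff_mk, coeff_mk, Nat.cast_succ (R := K)]
          linear_combination ((j : K) + 1) * hc j
      have a3 : (Λ - rescale q Λ) - C u * (X * (Λ - rescale q Λ)) = C u * X := by
        ext j : 1
        cases j with
        | zero => simp [r0]
        | succ j =>
          rw [map_sub, coeff_C_mul, coeff_C_mul, coeff_succ_X_mul, map_sub, map_sub, coeff_rescale,
            coeff_rescale, hΛ, coeff_mk, coeff_mk, coeff_X]
          cases j with
          | zero => rw [hl0, if_pos rfl]; linear_combination hl 0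
          | succ j =>
            rw [if_neg (by omega)]
            linear_combination hl (j + 1) - u * hl j
      have a4 : (TF - F * Λ) - C u * (X * (TF - F * Λ)) = rescale q (TF - F * Λ) := by
        rw [map_sub, map_mul, ← a1, ← a2]
        linear_combination (-F) * a3
      intro j
      induction j with
      | zero => simp [hTF, hΛ, hl0]
      | succ j ih =>
        have := congrArg (coeff (j + 1)) a4
        rw [map_sub, coeff_C_mul, coeff_succ_X_mul, ih, coeff_rescale] at this
        exact (mul_eq_zero.1 (by linear_combination this)).resolve_left (nq j)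
    · simp only [if_true] at hc hl
      have a1 : F = rescale q F + C u * (X * rescale q F) := by
        ext j : 1
        cases j with
        | zero => simp [r0]
        | succ j =>
          rw [map_add, coeff_C_mul, coeff_succ_X_mul, coeff_rescale, coeff_rescale, hF, coeff_mk,
            coeff_mk]
          linear_combination hc j
      have a2 : TF = rescale q TF + C u * (X * rescale q TF) + C u * (X * rescale q F) := by
        ext j : 1
        cases j with
        | zero => simp [r0]
        | succ j =>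
          rw [map_add, map_add, coeff_C_mul, coeff_C_mul, coeff_succ_X_mul, coeff_succ_X_mul,
            coeff_rescale, coeff_rescale, coeff_rescale, hF, hTF, coeff_mk, coeff_mk, coeff_mk,
            Nat.cast_succ (R := K)]
          linear_combination ((j : K) + 1) * hc j
      have a3 : (Λ - rescale q Λ) + C u * (X * (Λ - rescale q Λ)) = C u * X := by
        ext j : 1
        cases j with
        | zero => simp [r0]
        | succ j =>
          rw [map_add, coeff_C_mul, coeff_C_mul, coeff_succ_X_mul, map_sub, map_sub, coeff_rescale,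
            coeff_rescale, hΛ, coeff_mk, coeff_mk, coeff_X]
          cases j with
          | zero => rw [hl0, if_pos rfl]; linear_combination hl 0
          | succ j =>
            rw [if_neg (by omega)]
            linear_combination hl (j + 1) + u * hl j
      have a4 : TF - F * Λ = rescale q (TF - F * Λ) + C u * (X * rescale q (TF - F * Λ)) := by
        rw [map_sub, map_mul]
        linear_combination a2 - Λ * a1 - rescale q F * a3
      intro j
      induction j with
      | zero => simp [hTF, hΛ, hl0]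
      | succ j ih =>
        have := congrArg (coeff (j + 1)) a4
        rw [map_add, coeff_C_mul, coeff_succ_X_mul, coeff_rescale, coeff_rescale, ih] at this
        exact (mul_eq_zero.1 (by linear_combination this)).resolve_left (nq j)
  have := key j
  rw [map_sub, sub_eq_zero, coeff_mul, hTF, coeff_mk] at this
  simp only [hF, hΛ, coeff_mk] at this
  exact this.symm

theorem ray_inj {n : L} (h : n ∈ C.car) (h0 : n ≠ 0) : Function.Injective fun j : ℕ => j • n :=
  fun i j e => by
    have := congrArg C.deg e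
    simp only [map_nsmul, nsmul_eq_mul] at this
    exact_mod_cast mul_right_cancel₀ (C.pos _ h h0).ne' this

/-- The element with given coefficients along a ray. -/
noncomputable def ray (ω : Skew L) {n : L} (h : n ∈ C.car) (c : ℕ → K) : A ω C :=
  ⟨Function.extend (fun j : ℕ => j • n) c 0, fun m hm => by
    by_cases e : ∃ j : ℕ, j • n = m
    · obtain ⟨j, rfl⟩ := e
      exact C.car.nsmul_mem h j
    · exact absurd (Function.extend_apply' _ _ _ e) hm⟩

theorem ray_on {n : L} (h : n ∈ C.car) (h0 : n ≠ 0) (c : ℕ → K) (j : ℕ) :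
    (ray ω h c).f (j • n) = c j := (ray_inj h h0).extend_apply c 0 j

theorem ray_off {n : L} (h : n ∈ C.car) (c : ℕ → K) {m : L} (e : ¬ ∃ j : ℕ, j • n = m) :
    (ray ω h c).f m = 0 := Function.extend_apply' _ _ _ e

theorem ray_mul {n : L} (h : n ∈ C.car) (h0 : n ≠ 0) (c c' : ℕ → K) :
    ray ω h c * ray ω h c' = ray ω h fun j => ∑ p ∈ antidiagonal j, c p.1 * c' p.2 := by
  classical
  ext m : 2
  have hs : ∀ k, (ray ω h c).f k * (ray ω h c').f (m - k) ≠ 0 →
      ∃ i i' : ℕ, k = i • n ∧ (i + i') • n = m := by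
    intro k hk
    obtain ⟨i, rfl⟩ := not_not.1 (mt (ray_off h c) (left_ne_zero_of_mul hk))
    obtain ⟨i', e⟩ := not_not.1 (mt (ray_off h c') (right_ne_zero_of_mul hk))
    exact ⟨i, i', rfl, by rw [add_nsmul, e]; abel⟩
  rw [A.mul_apply]
  by_cases e : ∃ j : ℕ, j • n = m
  · obtain ⟨j, rfl⟩ := e
    rw [ray_on h h0]
    symm
    refine sum_of_injOn (fun p => p.1 • n) (fun p hp p' hp' e => ?_) (fun p hp => ?_)
      (fun k _ hk => ?_) fun p hp => ?_
    · have e1 : p.1 = p'.1 := ray_inj h h0 e
      have a1 := mem_antidiagonal.1 hp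
      have a2 := mem_antidiagonal.1 hp'
      exact Prod.ext e1 (by omega)
    · refine Cone.mem_box.2 ⟨C.car.nsmul_mem h _, ?_⟩
      rw [← mem_antidiagonal.1 hp, add_nsmul, add_sub_cancel_left]
      exact C.car.nsmul_mem h _
    · by_contra hne
      rw [mul_assoc] at hne
      obtain ⟨i, i', rfl, e⟩ := hs k (right_ne_zero_of_mul hne)
      exact hk ⟨(i, i'), mem_coe.2 (mem_antidiagonal.2 (ray_inj h h0 e)), rfl⟩
    · have e1 : j • n - p.1 • n = p.2 • n := by
        rw [← mem_antidiagonal.1 hp, add_nsmul, add_sub_cancel_left]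
      rw [e1, ray_on h h0, ray_on h h0]
      simp [ω.alt, tp_zero]
  · rw [ray_off h _ e]
    refine sum_eq_zero fun k _ => ?_
    by_contra hne
    rw [mul_assoc] at hne
    obtain ⟨i, i', -, e'⟩ := hs k (right_ne_zero_of_mul hne)
    exact e ⟨_, e'⟩

theorem gen_val {x : Gn L} (h : x.2.2 ∈ C.car) (h0 : x.2.2 ≠ 0) :
    (gen ω C x).1 = ray ω h fun j => tp (x.2.1 * j) * cc x.1 j := by
  rw [gen, dif_pos ⟨h, h0⟩]
  rfl

theorem ell_gen (δ : L →+ ℤ) {x : Gn L} (h : x.2.2 ∈ C.car) (h0 : x.2.2 ≠ 0) :
    ell δ (gen ω C x) = ray ω h fun j => (δ x.2.2 : K) * lam x.1 x.2.1 j := by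
  have e : der δ (gen ω C x).1
      = (gen ω C x).1 * ray ω h fun j => (δ x.2.2 : K) * lam x.1 x.2.1 j := by
    rw [gen_val h h0, ray_mul h h0]
    ext m : 2
    rw [der_f]
    by_cases e : ∃ j : ℕ, j • x.2.2 = m
    · obtain ⟨j, rfl⟩ := e
      rw [ray_on h h0, ray_on h h0, map_nsmul, nsmul_eq_mul]
      simp only [mul_left_comm _ (δ x.2.2 : K)]
      rw [← mul_sum, log_der]
      push_cast
      ring
    · rw [ray_off h _ e, ray_off h _ e, mul_zero]
  rw [ell, e, ← mul_assoc, inv_mul_val, one_mul]

end RF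

theorem ell_gen_on (δ : L →+ ℤ) {x : Gn L} (h : x.2.2 ∈ C.car) (h0 : x.2.2 ≠ 0) (j : ℕ) :
    (ell δ (gen ω C x)).f (j • x.2.2) = (δ x.2.2 : K) * lam x.1 x.2.1 j := by
  rw [ell_gen δ h h0, ray_on h h0]

theorem ell_gen_off (δ : L →+ ℤ) (x : Gn L) {m : L} (e : ¬ ∃ j : ℕ, j • x.2.2 = m) :
    (ell δ (gen ω C x)).f m = 0 := by
  by_cases h : x.2.2 ∈ C.car ∧ x.2.2 ≠ 0
  · rw [ell_gen δ h.1 h.2, ray_off h.1 _ e]
  · rw [gen, dif_neg h, ell]
    exact congrArg (fun a : A ω C => a.f m) ((congrArg _ (der_one δ)).trans (mul_zero _))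

theorem O1.lam (ε : Bool) (a : ℤ) (j : ℕ) : O1 (lam ε a j) := by
  unfold Th.lam
  split_ifs with h1 h2
  · exact O1.zero
  · refine O1.mul_left (by exact_mod_cast OO.int ((-1) ^ (j + 1))) ?_
    exact_mod_cast O1.geo ((a + 1) * j) (j := 2 * j) (by omega)
  · rw [one_mul]
    exact_mod_cast O1.geo ((a + 1) * j) (j := 2 * j) (by omega)

theorem Fin6.gen (x : Gn L) : Fin6 (gen ω C x) := by
  by_cases h : x.2.2 ∈ C.car ∧ x.2.2 ≠ 0
  · intro m
    by_cases e : ∃ j : ℕ, j • x.2.2 = m
    · obtain ⟨j, rfl⟩ := e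
      rw [ell_gen_on _ h.1 h.2]
      exact O1.mul_left (OO.int _) (O1.lam _ _ _)
    · rw [ell_gen_off _ _ e]; exact O1.zero
  · rw [Th.gen, dif_neg h]; exact Fin6.one

theorem Fin6.gens (l : List (Gn L)) : Fin6 (gens ω C l) := by
  induction l with
  | nil => exact Fin6.one
  | cons x l ih => exact (Fin6.gen x).mul ih

end Pool.Agent.Lib.MP_33bfb2_co.Th
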