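import Pool.Agent.Lib.MP_33bfb2_co.Th.ADefs2
import Pool.Agent.Lib.MP_33bfb2_co.Th.RFin

namespace Pool.Agent.Lib.MP_33bfb2_co.Th

open Finset

variable {L : Type} [AddCommGroup L] {ω : Skew L} {C C' : Cone L}

/-! ## File R6: no pole -/

theorem InO.pos {f : K} (h : InO f) (hc : ∀ a, ∃ m : ℕ, f.coeff a = m) : Pos f :=
  OO.pos h hc
theorem InO.sub {f g : K} (hf : InO f) (hg : InO g) : InO (f - g) := OO.sub hf hg
theorem InO.mul {f g : K} (hf : InO f) (hg : InO g) : InO (f * g) := OO.mul hf hg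
theorem ell_gens_O (l : List (Gn L)) (n : L) :
    InO ((1 - tp 1) * (ell C.deg (gens ω C l)).f n) := Fin6.gens l n
theorem ell_z0_O {k : G ω C} (h : ∀ n, InO ((1 - tp 1) * (ell C.deg k).f n)) (θ : L →+ ℚ) (n : L) :
    InO ((1 - tp 1) * (ell C.deg (z0 θ k)).f n) := Fin6.z0 (k := k) h θ n

theorem InO.add {f g : K} (hf : InO f) (hg : InO g) : InO (f + g) := OO.add hf hg
theorem InO.neg {f : K} (hf : InO f) : InO (-f) := OO.neg hf
theorem InO.of_pos {f : K} (h : Pos f) : InO f := OO.of_pos h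
theorem InO.int (n : ℤ) : InO (n : K) := OO.int n
theorem InO.tp (a : ℤ) : InO (tp a) := OO.tp a
theorem InO.sum {ι : Type*} (s : Finset ι) (f : ι → K) (h : ∀ i ∈ s, InO (f i)) :
    InO (∑ i ∈ s, f i) := OO.sum s f h
theorem InO.cancel {P f : K} (hP : Pos P) (h0 : P ≠ 0) (h : InO (P * f)) : InO f :=
  OO.cancel hP h0 h
theorem InO.cancel_int {n : ℤ} (h0 : n ≠ 0) {f : K} (h : InO ((n : K) * f)) : InO f :=
  OO.cancel_int h0 h
theorem InO.of_cc {ε : Bool} {f : K} (h : InO ((1 - Th.tp 1) * (cc ε 1 * f))) : InO f :=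
  OO.of_cc h

end Pool.Agent.Lib.MP_33bfb2_co.Th
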