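import Pool.Agent.Lib.MP_33bfb2_co.Th.RSign

namespace Pool.Agent.Lib.MP_33bfb2_co.Th.R

open MvPolynomial Finset Equiv
open scoped Pointwise

variable {U I : Type} [Fintype U] [LinearOrder U] [Fintype I] [DecidableEq I]

/-- Translation of the variables of T. -/
noncomputable def dd (T : Finset U) : Derivation ℚ (P U) (P U) := ∑ v ∈ T, pderiv v

/-- Translation of one fibre of be. -/
noncomputable def db (be : U → ℕ) (c : ℕ) : Derivation ℚ (P U) (P U) :=
  dd (univ.filter fun v => be v = c)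

/-- Every word of l fibre translations sends the element into J. -/
noncomputable def NN (be : U → ℕ) (J : Ideal (P U)) : ℕ → Submodule ℚ (P U)
  | 0 => J.restrictScalars ℚ
  | l + 1 => ⨅ c : ℕ, (NN be J l).comap (db be c).toLinearMap

/-- Twice the order modulo J is at most x. -/
noncomputable def OO (be : U → ℕ) (J : Ideal (P U)) (x : ℤ) : Submodule ℚ (P U) :=
  NN be J (x / 2 + 1).toNat

/-- J is stable under the fibre translations. -/
def Stab (be : U → ℕ) (J : Ideal (P U)) : Prop := ∀ c, ∀ f ∈ J, db be c f ∈ J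

/-- Contraction of the variables of T with a functional. -/
noncomputable def Ct (φ : P U →ₗ[ℚ] ℚ) (T : Finset U) : P U →ₗ[ℚ] P U :=
  (basisMonomials U ℚ).constr ℚ fun α =>
    φ (monomial (α.filter (· ∈ T)) 1) • monomial (α.filter (· ∉ T)) 1

/-- A fibre of be inside S. -/
def fib (S : Finset U) (be : U → ℕ) (c : ℕ) : Finset U := S.filter fun v => be v = c

/-- The fibres of be in S are not cut by the members of ρ. -/
def Resp (S : Finset U) (ρ : Set (Finset U)) (be : U → ℕ) : Prop :=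
  ∀ T ∈ ρ, ∀ i ∈ S, ∀ j ∈ S, be i = be j → i ∈ T → j ∈ T

/-- Permutation and scaling of the variables. -/
noncomputable def sg (c : ℚ) (g : Perm U) : P U →ₐ[ℚ] P U := aeval fun v => c • X (g v)

namespace Dat

variable (D : Dat U I) (θ : I → ℚ)

/-- The kernel of a set of pairs. -/
noncomputable def KR (R : Finset (U × U)) : P U := ∏ x ∈ R, (X x.1 - X x.2) ^ D.W x.1 x.2

/-- The stability of a set. -/
def et (S : Finset U) : ℚ := ∑ v ∈ S, θ (D.lab v)

/-- Symmetry on sets of stability zero. -/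
def Sym : Prop := ∀ A B : Finset U, D.et θ A = 0 → D.et θ B = 0 → D.kap A B = D.kap B A

/-- The form kap on dimension vectors. -/
def kv (d d' : I → ℕ) : ℕ := ∑ i, ∑ j, d i * d' j * D.a i j

/-- Odd dimension vectors. -/
def OddT (e : I → ℕ) : Prop := Odd (D.kv e e + ∑ i ∈ univ.filter fun i => D.fer i = true, e i)

/-- The ideal of the first block. -/
noncomputable def JT (S : Finset U) : Ideal (P U) :=
  Ideal.span {k | ∃ A ⊆ S, D.et θ (S \ A) < 0 ∧ k = D.Kk A (S \ A)}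

/-- The ideal of the second block. -/
noncomputable def JQ (S : Finset U) : Ideal (P U) :=
  Ideal.span {k | ∃ A ⊆ S, A.Nonempty ∧ 0 ≤ D.et θ A ∧ k = D.Kk A (S \ A)}

/-- The sum of the ideals of the fibres. -/
noncomputable def JJ (S : Finset U) (be : U → ℕ) : Ideal (P U) := ⨆ c : ℕ, D.JT θ (fib S be c)

/-- All fibres have stability zero. -/
def Adm (S : Finset U) (be : U → ℕ) : Prop := ∀ c, D.et θ (fib S be c) = 0

/-- Arrows between different fibres, both directions. -/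
def c2 (S : Finset U) (be : U → ℕ) : ℕ :=
  ∑ x ∈ (S ×ˢ S).filter fun x => be x.1 ≠ be x.2, D.W x.1 x.2

/-- The filtration, tested on labellings that respect the cuts ρ. -/
noncomputable def F (S : Finset U) (ρ : Set (Finset U)) (p : ℤ) : Submodule ℚ (P U) :=
  PS S ⊓ ⨅ be : U → ℕ, ⨅ (_ : D.Adm θ S be), ⨅ (_ : Resp S ρ be),
    OO be (D.JJ θ S be) (p + D.c2 S be - (S.image be).card)

/-- Lower terms and products. -/
noncomputable def Dc (S : Finset U) (p : ℤ) : Submodule ℚ (P U) :=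
  D.F θ S ∅ (p - 1) ⊔ Submodule.span ℚ {h | ∃ A B : Finset U, ∃ i j : ℤ, ∃ f ∈ D.F θ A ∅ i,
    ∃ g ∈ D.F θ B ∅ j, A.Nonempty ∧ B.Nonempty ∧ Disjoint A B ∧ A ∪ B = S ∧ D.et θ A = 0 ∧
      D.et θ B = 0 ∧ i + j = p ∧ h = f * g * D.Kk A B}

/-- Elements all of whose contractions over T lie in Dc. -/
noncomputable def HH (b T : Finset U) (p : ℤ) : Submodule ℚ (P U) :=
  PS (b ∪ T) ⊓ ⨅ q : ℤ, ⨅ φ : P U →ₗ[ℚ] ℚ, ⨅ (_ : ∀ f ∈ D.F θ T ∅ (q - 1), φ f = 0),
    (D.Dc θ b (p + 2 * D.kap b T - q)).comap (Ct φ T)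

/-- A system of generators. -/
structure Gens (Γ : Type) where
  e : Γ → I → ℕ
  v : Γ → Finset U → P U
  p : Γ → ℤ
  dg : Γ → ℕ
  ex : ∀ γ, ∃ b : Finset U, b.Nonempty ∧ D.et θ b = 0 ∧ D.ty b = e γ
  eqv : ∀ γ, D.Eqv (v γ)
  off : ∀ γ b, D.ty b ≠ e γ → v γ b = 0
  mem : ∀ γ b, v γ b ∈ D.F θ b ∅ (p γ)
  hom : ∀ γ b, (v γ b).IsHomogeneous (dg γ)
  span : ∀ (b : Finset U) (q : ℤ), b.Nonempty → D.et θ b = 0 → ∀ f ∈ D.F θ b ∅ q, f ∈ D.H b →
    f ∈ D.Dc θ b q ⊔ Submodule.span ℚ {y | ∃ γ, p γ = q ∧ y = v γ b}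
  indep : ∀ (b : Finset U) (q : ℤ) (c : Γ →₀ ℚ), (∀ γ ∈ c.support, D.ty b = e γ ∧ p γ = q) →
    (c.sum fun γ x => x • v γ b) ∈ D.Dc θ b q → c = 0

variable {D θ}

/-- The word of a list of generators. -/
noncomputable def Gens.wd {Γ : Type} (G : D.Gens θ Γ) (L : List Γ) : Finset U → P U :=
  D.word (L.map G.v)

/-- The basis element of a multiset of generators. -/
noncomputable def Gens.Psi {Γ : Type} (G : D.Gens θ Γ) (μ : Multiset Γ) : Finset U → P U :=
  G.wd μ.toList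

/-- No odd generator is repeated. -/
def Gens.Adm {Γ : Type} (G : D.Gens θ Γ) (μ : Multiset Γ) : Prop :=
  ∀ γ, D.OddT (G.e γ) → ¬ {γ, γ} ≤ μ

/-- The multisets that index the basis in type d. -/
def Gens.Ok {Γ : Type} (G : D.Gens θ Γ) (d : I → ℕ) (μ : Multiset Γ) : Prop :=
  (μ.map G.e).sum = d ∧ G.Adm μ

end Dat

end Pool.Agent.Lib.MP_33bfb2_co.Th.R
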