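import Pool.Agent.Lib.MP_33bfb2_co.Th.RFinO

/-! Elements whose logarithmic derivative has at most simple poles at t = 1. -/

namespace Pool.Agent.Lib.MP_33bfb2_co.Th

open Finset RF

variable {L : Type} [AddCommGroup L] {ω : Skew L} {C : Cone L}

namespace RF

theorem inv_mul_val (g : G ω C) : (g⁻¹).1 * g.1 = 1 := congrArg Subtype.val (inv_mul_cancel g)

theorem mul_inv_val (g : G ω C) : g.1 * (g⁻¹).1 = 1 := congrArg Subtype.val (mul_inv_cancel g)

theorem der_f (δ : L →+ ℤ) (a : A ω C) (n : L) : (der δ a).f n = (δ n : K) * a.f n := by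
  show δ n • a.f n = _
  rw [zsmul_eq_mul]

theorem der_mul (δ : L →+ ℤ) (a b : A ω C) : der δ (a * b) = der δ a * b + a * der δ b := by
  ext n : 2
  simp only [A.add_f, Pi.add_apply, der_f, A.mul_apply, mul_sum, ← sum_add_distrib]
  refine sum_congr rfl fun m _ => ?_
  rw [map_sub]
  push_cast
  ring

theorem der_one (δ : L →+ ℤ) : der δ (1 : A ω C) = 0 := by
  ext n : 2
  rw [der_f, A.one_f]
  split_ifs with h
  · simp [h]
  · simp

theorem der_inv (δ : L →+ ℤ) (k : G ω C) : der δ (k⁻¹).1 = - (ell δ k * (k⁻¹).1) := by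
  have h := der_mul δ (k⁻¹).1 k.1
  rw [inv_mul_val, der_one] at h
  have h2 : der δ (k⁻¹).1 * k.1 = - ell δ k := eq_neg_of_add_eq_zero_left h.symm
  rw [← neg_mul, ← h2, mul_assoc, mul_inv_val, mul_one]

theorem der_eq (δ : L →+ ℤ) (k : G ω C) : der δ k.1 = k.1 * ell δ k := by
  rw [ell, ← mul_assoc, mul_inv_val, one_mul]

theorem ell_mul (δ : L →+ ℤ) (a b : G ω C) :
    ell δ (a * b) = (b⁻¹).1 * ell δ a * b.1 + ell δ b := by
  show ((a * b)⁻¹).1 * der δ (a.1 * b.1) = _
  rw [mul_inv_rev, der_mul, der_eq δ a, der_eq δ b]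
  show (b⁻¹).1 * (a⁻¹).1 * _ = _
  have h1 := inv_mul_val a
  have h2 := inv_mul_val b
  calc _ = (b⁻¹).1 * ((a⁻¹).1 * a.1) * ell δ a * b.1
        + (b⁻¹).1 * ((a⁻¹).1 * a.1) * b.1 * ell δ b := by noncomm_ring
    _ = _ := by rw [h1, mul_one, h2, one_mul]

theorem ell_inv (δ : L →+ ℤ) (k : G ω C) : ell δ k⁻¹ = - (k.1 * ell δ k * (k⁻¹).1) := by
  rw [ell, inv_inv, der_inv, mul_neg, mul_assoc]

theorem mul_ne {a b : A ω C} {n : L} (h : (a * b).f n ≠ 0) :
    ∃ m, a.f m ≠ 0 ∧ b.f (n - m) ≠ 0 := by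
  rw [A.mul_apply] at h
  obtain ⟨m, -, hm⟩ := exists_ne_zero_of_sum_ne_zero h
  exact ⟨m, fun e => hm (by simp [e]), fun e => hm (by simp [e])⟩

theorem in_mul {a b : A ω C} {S T U : Set L} (ha : a.In S) (hb : b.In T)
    (h : ∀ s ∈ S, ∀ t ∈ T, s + t ∈ U) : (a * b).In U := fun n hn => by
  obtain ⟨m, h1, h2⟩ := mul_ne hn
  simpa using h m (ha m h1) _ (hb _ h2)

theorem cone_ind {P : L → Prop}
    (h : ∀ n ∈ C.car, (∀ m ∈ C.car, C.deg m < C.deg n → P m) → P n) : ∀ n ∈ C.car, P n := by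
  intro n hn
  induction' e : (C.deg n).toNat using Nat.strong_induction_on with d ih generalizing n
  refine h n hn fun m hm lt => ih (C.deg m).toNat ?_ m hm rfl
  have := C.deg_nonneg hm
  omega

theorem inv_in (S : AddSubmonoid L) {g : G ω C} (h : g.1.In S) : (g⁻¹).1.In S := by
  classical
  suffices ∀ n ∈ C.car, (g⁻¹).1.f n ≠ 0 → n ∈ S from fun n hn => this n ((g⁻¹).1.supp n hn) hn
  refine cone_ind fun n hn ih hne => ?_
  by_contra hS
  have e : n ≠ 0 := fun e => hS (e ▸ S.zero_mem)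
  have h1 := congrArg (fun a : A ω C => a.f n) (inv_mul_val g)
  simp only [A.mul_apply, A.one_f, if_neg e] at h1
  rw [← add_sum_erase _ _ (a := n) (by simp [Cone.mem_box, hn]), sum_eq_zero] at h1
  · simp [ω.alt, tp_zero, G.f_zero, hne] at h1
  · intro m hm
    have a1 := mem_of_mem_erase hm
    by_contra h0
    have a2 : (g⁻¹).1.f m ≠ 0 := fun e => h0 (by simp [e])
    have a3 : g.1.f (n - m) ≠ 0 := fun e => h0 (by simp [e])
    exact hS (by simpa using S.add_mem (ih m (Cone.mem_box.1 a1).1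
      (Cone.deg_lt a1 (ne_of_mem_erase hm)) a2) (h _ a3))

theorem ell_in (δ : L →+ ℤ) (S : AddSubmonoid L) {g : G ω C} (h : g.1.In S) : (ell δ g).In S :=
  in_mul (T := S) (inv_in S h) (fun n hn => h n fun e => hn (by rw [der_f, e, mul_zero]))
    fun _ hs _ ht => S.add_mem hs ht

theorem ell_zero (δ : L →+ ℤ) (g : G ω C) : (ell δ g).f 0 = 0 := by
  rw [ell, A.mul_zero_apply, der_f]; simp

theorem br_apply (a b : A ω C) (n : L) : (a * b - b * a).f n
    = ∑ m ∈ C.box n, (tp (- ω.w m n) - tp (ω.w m n)) * a.f m * b.f (n - m) := by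
  have e : (b * a).f n = ∑ m ∈ C.box n, tp (ω.w m n) * a.f m * b.f (n - m) := by
    rw [A.mul_apply]
    refine sum_nbij' (fun m => n - m) (fun m => n - m) ?_ ?_ ?_ ?_ ?_
    · intro m hm
      rw [Cone.mem_box] at hm ⊢
      exact ⟨hm.2, by simpa using hm.1⟩
    · intro m hm
      rw [Cone.mem_box] at hm ⊢
      exact ⟨hm.2, by simpa using hm.1⟩
    · intro m _; simp
    · intro m _; simp
    · intro m _
      simp only [map_sub, AddMonoidHom.sub_apply, ω.alt, zero_sub, sub_sub_cancel]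
      ring
  rw [A.sub_f, Pi.sub_apply, e, A.mul_apply, ← sum_sub_distrib]
  exact sum_congr rfl fun m _ => by ring

theorem o1_br {a b : A ω C} {n : L} (ha : ∀ m ∈ C.car, C.deg m < C.deg n → O1 (a.f m))
    (hb : ∀ m ∈ C.car, C.deg m < C.deg n → O1 (b.f m)) : O1 ((a * b - b * a).f n) := by
  rw [br_apply]
  refine O1.sum _ _ fun m hm => ?_
  by_cases e : m = n
  · subst e; simpa [ω.alt] using O1.zero
  by_cases e0 : m = 0
  · subst e0; simpa using O1.zero
  exact O1.br _ _ (ha m (Cone.mem_box.1 hm).1 (Cone.deg_lt hm e))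
    (hb _ (Cone.mem_box.1 hm).2 (Cone.deg_sub_lt hm e0))

theorem top_left (a : G ω C) {y : A ω C} {n : L} (hn : n ∈ C.car)
    (hy : y.In {m | C.deg n ≤ C.deg m}) : (a.1 * y).f n = y.f n := by
  rw [A.mul_apply, sum_eq_single_of_mem 0 (by simp [Cone.mem_box, hn])]
  · simp [tp_zero, G.f_zero]
  · intro m hm e
    have : y.f (n - m) = 0 := by
      by_contra h
      exact absurd (hy _ h) (not_le.2 (Cone.deg_sub_lt hm e))
    rw [this, mul_zero]

theorem top_right (a : G ω C) {y : A ω C} {n : L} (hn : n ∈ C.car)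
    (hy : y.In {m | C.deg n ≤ C.deg m}) : (y * a.1).f n = y.f n := by
  rw [A.mul_apply, sum_eq_single_of_mem n (by simp [Cone.mem_box, hn])]
  · simp [ω.alt, tp_zero, G.f_zero]
  · intro m hm e
    have : y.f m = 0 := by
      by_contra h
      exact absurd (hy _ h) (not_le.2 (Cone.deg_lt hm e))
    rw [this, mul_zero, zero_mul]

theorem deg_left (a : A ω C) {y : A ω C} {d : ℤ} (hy : y.In {m | d ≤ C.deg m}) :
    (a * y).In {m | d ≤ C.deg m} :=
  in_mul (S := (C.car : Set L)) (fun n hn => a.supp n hn) hy fun s hs t ht => by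
    have := C.deg_nonneg hs
    simp only [Set.mem_ofPred_eq, map_add] at ht ⊢
    omega

theorem deg_right (a : A ω C) {y : A ω C} {d : ℤ} (hy : y.In {m | d ≤ C.deg m}) :
    (y * a).In {m | d ≤ C.deg m} :=
  in_mul (T := (C.car : Set L)) hy (fun n hn => a.supp n hn) fun s hs t ht => by
    have := C.deg_nonneg ht
    simp only [Set.mem_ofPred_eq, map_add] at hs ⊢
    omega

/-- conjugation preserves simple poles, up to a degree -/
theorem o1_conj (k : G ω C) (D : ℤ)
    (hk : ∀ m ∈ C.car, C.deg m < D → O1 ((ell C.deg k).f m)) (j : ℕ) :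
    ∀ (d : ℤ) (y : A ω C), (∀ m ∈ C.car, C.deg m ≤ D → O1 (y.f m)) → y.In {m | d ≤ C.deg m} →
      ∀ n ∈ C.car, C.deg n ≤ D → C.deg n < d + j → O1 (((k⁻¹).1 * y * k.1).f n) := by
  induction j with
  | zero =>
    intro d y _ hy n _ _ hn
    have : ((k⁻¹).1 * y * k.1).f n = 0 := by
      by_contra h
      exact absurd (deg_right _ (deg_left _ hy) n h) (not_le.2 (by simpa using hn))
    rw [this]; exact O1.zero
  | succ j ih =>
    intro d y h1 hy n hn hD hj
    by_cases e : C.deg n = d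
    · subst e
      rw [top_right k hn (deg_left _ hy), top_left k⁻¹ hn hy]
      exact h1 n hn hD
    have e1 : der C.deg ((k⁻¹).1 * y * k.1) - (d : K) • ((k⁻¹).1 * y * k.1)
        = (((k⁻¹).1 * y * k.1) * ell C.deg k - ell C.deg k * ((k⁻¹).1 * y * k.1))
          + (k⁻¹).1 * (der C.deg y - (d : K) • y) * k.1 := by
      rw [der_mul, der_mul, der_inv, der_eq C.deg k, mul_sub, sub_mul, mul_smul_comm,
        smul_mul_assoc]
      noncomm_ring
    have e2 := congrArg (fun a : A ω C => a.f n) e1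
    simp only [A.add_f, Pi.add_apply] at e2
    rw [A.sub_f, Pi.sub_apply, der_f, A.smul_f, Pi.smul_apply, smul_eq_mul, ← sub_mul,
      ← Int.cast_sub] at e2
    refine O1.cancel_int (sub_ne_zero.2 e) ?_
    rw [e2]
    have e3 : ∀ m, (der C.deg y - (d : K) • y).f m = ((C.deg m - d : ℤ) : K) * y.f m := by
      intro m
      rw [A.sub_f, Pi.sub_apply, der_f, A.smul_f, Pi.smul_apply, smul_eq_mul, ← sub_mul,
        ← Int.cast_sub]
    push_cast at hj
    refine O1.add (o1_br (fun m hm lt => ih d y h1 hy m hm (by omega) (by omega))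
      fun m hm lt => hk m hm (by omega)) (ih (d + 1) _ (fun m hm le => ?_) (fun m hm => ?_) n hn hD
        (by omega))
    · rw [e3]; exact O1.mul_left (OO.int _) (h1 m hm le)
    · rw [e3] at hm
      have a1 : d ≤ C.deg m := hy m (right_ne_zero_of_mul hm)
      have a2 : C.deg m ≠ d := fun h => left_ne_zero_of_mul hm (by simp [h])
      show d + 1 ≤ C.deg m
      omega

theorem o1_conj' (k : G ω C) {y : A ω C} (hy : ∀ m, O1 (y.f m)) {n : L} (hn : n ∈ C.car)
    (hk : ∀ m ∈ C.car, C.deg m < C.deg n → O1 ((ell C.deg k).f m)) :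
    O1 (((k⁻¹).1 * y * k.1).f n) :=
  o1_conj k (C.deg n) hk ((C.deg n).toNat + 1) 0 y (fun m _ _ => hy m)
    (fun m hm => C.deg_nonneg (y.supp m hm)) n hn le_rfl (by omega)

theorem o1_of_car {y : A ω C} (h : ∀ n ∈ C.car, O1 (y.f n)) (n : L) : O1 (y.f n) := by
  by_cases e : n ∈ C.car
  · exact h n e
  · rw [A.eq_zero e]; exact O1.zero

theorem res_mul (f : L →+ ℚ) {a b : A ω C} (ha : a.In {n | 0 ≤ f n}) (hb : b.In {n | 0 ≤ f n}) :
    (a * b).res {n | f n = 0} = a.res {n | f n = 0} * b.res {n | f n = 0} := by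
  ext n : 2
  have r1 : ∀ (x : A ω C) m, f m = 0 → (x.res {n | f n = 0}).f m = x.f m :=
    fun x m h => Set.indicator_of_mem (s := {n | f n = 0}) h _
  have r2 : ∀ (x : A ω C) m, f m ≠ 0 → (x.res {n | f n = 0}).f m = 0 :=
    fun x m h => Set.indicator_of_notMem (s := {n | f n = 0}) h _
  by_cases e : f n = 0
  · rw [r1 _ _ e, A.mul_apply, A.mul_apply]
    refine sum_congr rfl fun m _ => ?_
    by_cases h : f m = 0
    · rw [r1 _ _ h, r1 _ _ (by rw [map_sub, e, h, sub_zero])]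
    · rw [r2 _ _ h, mul_zero, zero_mul]
      by_contra h0
      have a1 : 0 ≤ f m := ha m (right_ne_zero_of_mul (left_ne_zero_of_mul h0))
      have a2 : 0 ≤ f (n - m) := hb _ (right_ne_zero_of_mul h0)
      rw [map_sub, e] at a2
      exact h (by linarith)
  · rw [r2 _ _ e, A.mul_apply, sum_eq_zero]
    intro m _
    by_cases h : f m = 0
    · rw [r2 b (n - m) (by rwa [map_sub, h, sub_zero]), mul_zero]
    · rw [r2 _ _ h, mul_zero, zero_mul]

theorem ell_z0 (δ : L →+ ℤ) (θ : L →+ ℚ) (g : G ω C) :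
    ell δ (z0 θ g) = (ell δ (fa θ g)).res {n | θ n = 0} := by
  let S : AddSubmonoid L :=
    { carrier := {n | 0 ≤ θ n}
      zero_mem' := by simp
      add_mem' := fun {a b} ha hb => by
        simp only [Set.mem_ofPred_eq, map_add] at ha hb ⊢
        linarith }
  have h1 : (ell δ (fa θ g)).In {n | 0 ≤ θ n} := ell_in δ S (fa_in θ g)
  have h2 : der δ (z0 θ g).1 = (der δ (fa θ g).1).res {n | θ n = 0} := by
    ext n : 2
    rw [der_f]
    show _ * Set.indicator _ _ _ = Set.indicator _ _ _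
    by_cases e : n ∈ {n | θ n = 0}
    · rw [Set.indicator_of_mem e, Set.indicator_of_mem e, der_f]
    · rw [Set.indicator_of_notMem e, Set.indicator_of_notMem e, mul_zero]
  rw [ell, h2, der_eq δ (fa θ g), res_mul θ (fa_in θ g) h1, ← mul_assoc]
  show ((z0 θ g)⁻¹).1 * (z0 θ g).1 * _ = _
  rw [inv_mul_val, one_mul]

end RF

/-- the logarithmic derivative has at most simple poles at t = 1 -/
def Fin6 (k : G ω C) : Prop := ∀ n, O1 ((ell C.deg k).f n)

theorem Fin6.conj {k : G ω C} (hk : Fin6 k) {y : A ω C} (hy : ∀ m, O1 (y.f m)) (n : L) :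
    O1 (((k⁻¹).1 * y * k.1).f n) :=
  o1_of_car (fun _ hn => o1_conj' k hy hn fun m _ _ => hk m) n

theorem Fin6.one : Fin6 (1 : G ω C) := fun n => by
  have : ell C.deg (1 : G ω C) = 0 := by
    rw [ell]; exact (congrArg _ (der_one C.deg)).trans (mul_zero _)
  rw [this]; exact O1.zero

theorem Fin6.mul {a b : G ω C} (ha : Fin6 a) (hb : Fin6 b) : Fin6 (a * b) := fun n => by
  rw [ell_mul]; exact (hb.conj ha n).add (hb n)

theorem Fin6.inv {k : G ω C} (hk : Fin6 k) : Fin6 k⁻¹ := by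
  refine o1_of_car (cone_ind fun n hn ih => ?_)
  have := o1_conj' k⁻¹ hk hn ih
  rw [inv_inv] at this
  rw [ell_inv]
  exact this.neg

theorem Fin6.fc {k : G ω C} (hk : Fin6 k) (θ : L →+ ℚ) : Fin6 (fc θ k) := by
  let S : AddSubmonoid L :=
    { carrier := {n | 0 ≤ θ n}
      zero_mem' := by simp
      add_mem' := fun {a b} ha hb => by
        simp only [Set.mem_ofPred_eq, map_add] at ha hb ⊢
        linarith }
  let T : AddSubmonoid L :=
    { carrier := {n | n = 0 ∨ θ n < 0}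
      zero_mem' := Or.inl rfl
      add_mem' := by
        rintro a b (rfl | ha) (rfl | hb)
        · simp
        · simpa using Or.inr hb
        · simpa using Or.inr ha
        · exact Or.inr (by rw [map_add]; linarith) }
  have h1 : (ell C.deg (fa θ k)).In S := ell_in _ S (fa_in θ k)
  have h2 : (ell C.deg (Th.fc θ k)⁻¹).In T := ell_in _ T (inv_in T (fc_in θ k))
  have e : ell C.deg (fa θ k)
      = (Th.fc θ k).1 * ell C.deg k * ((Th.fc θ k)⁻¹).1 + ell C.deg (Th.fc θ k)⁻¹ := by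
    have := ell_mul C.deg k (Th.fc θ k)⁻¹
    rwa [inv_inv, mul_inv_eq_of_eq_mul (fa_mul_fc θ k).symm] at this
  suffices h : Fin6 (Th.fc θ k)⁻¹ by simpa using h.inv
  refine o1_of_car (cone_ind fun n hn ih => ?_)
  by_cases h0 : (ell C.deg (Th.fc θ k)⁻¹).f n = 0
  · rw [h0]; exact O1.zero
  rcases h2 n h0 with rfl | hneg
  · exact absurd (ell_zero _ _) h0
  have a1 : (ell C.deg (fa θ k)).f n = 0 := by
    by_contra h
    exact absurd (h1 n h) (not_le.2 hneg)
  have a2 := o1_conj' (Th.fc θ k)⁻¹ hk hn ih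
  rw [inv_inv] at a2
  rw [e, A.add_f, Pi.add_apply] at a1
  rw [eq_neg_of_add_eq_zero_right a1]
  exact a2.neg

theorem Fin6.fa {k : G ω C} (hk : Fin6 k) (θ : L →+ ℚ) : Fin6 (fa θ k) := by
  rw [eq_mul_inv_of_mul_eq (fa_mul_fc θ k)]
  exact hk.mul (hk.fc θ).inv

theorem Fin6.z0 {k : G ω C} (hk : Fin6 k) (θ : L →+ ℚ) : Fin6 (z0 θ k) := fun n => by
  rw [ell_z0]
  show O1 (Set.indicator _ _ _)
  by_cases e : n ∈ {n | θ n = 0}
  · rw [Set.indicator_of_mem e]; exact hk.fa θ n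
  · rw [Set.indicator_of_notMem e]; exact O1.zero

end Pool.Agent.Lib.MP_33bfb2_co.Th
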