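import Pool.Agent.Lib.MP_33bfb2_co.Th.ADefs

/-! Series whose denominators have non-negative coefficients. -/

namespace Pool.Agent.Lib.MP_33bfb2_co.Th

open Finset

namespace RF

theorem pos_zero : Pos 0 := ⟨0, by simp⟩

theorem pos_tp (a : ℤ) : Pos (tp a) := ⟨{a}, by simp⟩

theorem pos_one : Pos 1 := pos_tp 0

theorem pos_add {f g : K} (hf : Pos f) (hg : Pos g) : Pos (f + g) := by
  obtain ⟨s, rfl⟩ := hf
  obtain ⟨s', rfl⟩ := hg
  exact ⟨s + s', by simp⟩

theorem pos_ind {P : K → Prop} (h0 : P 0) (h1 : ∀ a f, Pos f → P f → P (tp a + f)) {f : K}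
    (hf : Pos f) : P f := by
  obtain ⟨s, rfl⟩ := hf
  induction s using Multiset.induction_on with
  | empty => simpa using h0
  | cons a s ih => simpa using h1 a _ ⟨s, rfl⟩ ih

theorem pos_mul {f g : K} (hf : Pos f) (hg : Pos g) : Pos (f * g) := by
  refine pos_ind (P := fun f => Pos (f * g)) (by simpa using pos_zero) (fun a f _ h => ?_) hf
  rw [add_mul]
  refine pos_add ?_ h
  refine pos_ind (P := fun g => Pos (tp a * g)) (by simpa using pos_zero) (fun b g _ h => ?_) hg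
  rw [mul_add, ← tp_add]
  exact pos_add (pos_tp _) h

theorem pos_sum {ι : Type*} (s : Finset ι) (f : ι → K) (h : ∀ i ∈ s, Pos (f i)) :
    Pos (∑ i ∈ s, f i) :=
  sum_induction f Pos (fun _ _ => pos_add) pos_zero h

theorem pos_nat (n : ℕ) : Pos (n : K) := by
  induction n with
  | zero => simpa using pos_zero
  | succ n ih => push_cast; exact pos_add ih pos_one

theorem fs_add {f g : K} (hf : f.support.Finite) (hg : g.support.Finite) :
    (f + g).support.Finite := (hf.union hg).subset (HahnSeries.support_add_subset _ _)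

theorem fs_mul {f g : K} (hf : f.support.Finite) (hg : g.support.Finite) :
    (f * g).support.Finite := (hf.add hg).subset HahnSeries.support_mul_subset

theorem fs_neg {f : K} (hf : f.support.Finite) : (-f).support.Finite := by
  rwa [HahnSeries.support_neg]

theorem fs_tp (a : ℤ) : (tp a).support.Finite :=
  (Set.finite_singleton a).subset HahnSeries.support_single_subset

theorem fs_pos {f : K} (hf : Pos f) : f.support.Finite :=
  pos_ind (P := fun f => f.support.Finite) (by simp) (fun a _ _ h => fs_add (fs_tp a) h) hf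

theorem tp_ne (a : ℤ) : tp a ≠ 0 := HahnSeries.single_ne_zero one_ne_zero

theorem nat_ne {m : ℕ} (h : m ≠ 0) : (m : K) ≠ 0 :=
  haveI : CharZero K := algebraRat.charZero K
  Nat.cast_ne_zero.2 h

theorem tp_pow (a : ℤ) (j : ℕ) : tp a ^ j = tp (a * j) := by
  induction j with
  | zero => simp [tp_zero]
  | succ j ih => rw [pow_succ, ih, ← tp_add]; congr 1; push_cast; ring

theorem one_sub_tp_ne {a : ℤ} (h : a ≠ 0) : 1 - tp a ≠ 0 := by
  intro e
  have := congrArg (fun f : K => f.coeff 0) e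
  simp [tp, HahnSeries.coeff_single_of_ne h.symm] at this

theorem geo (a : ℤ) (j : ℕ) : tp a - tp (a + j) = (1 - tp 1) * ∑ i ∈ range j, tp (a + i) := by
  induction j with
  | zero => simp
  | succ j ih =>
    rw [sum_range_succ, mul_add, ← ih]
    have e : tp (a + (j + 1 : ℕ)) = tp 1 * tp (a + j) := by
      rw [← tp_add]; congr 1; push_cast; ring
    rw [e]; ring

theorem geo' (a b : ℤ) : ∃ h : K, h.support.Finite ∧ tp a - tp b = (1 - tp 1) * h := by
  rcases le_total a b with e | e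
  · obtain ⟨j, rfl⟩ := Int.le.dest e
    exact ⟨_, fs_pos (pos_sum _ _ fun i _ => pos_tp _), geo a j⟩
  · obtain ⟨j, rfl⟩ := Int.le.dest e
    exact ⟨_, fs_neg (fs_pos (pos_sum _ _ fun i _ => pos_tp _)), by
      rw [mul_neg, ← geo b j]; ring⟩

theorem pos_of_fs {f : K} (hf : f.support.Finite) (hc : ∀ a, ∃ k : ℕ, f.coeff a = k) : Pos f := by
  choose k hk using hc
  have e : f = ∑ a ∈ hf.toFinset, (k a : K) * tp a := by
    ext n
    rw [HahnSeries.coeff_sum]
    have e1 : ∀ a, ((k a : K) * tp a).coeff n = if a = n then f.coeff n else 0 := by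
      intro a
      rw [← nsmul_eq_mul, HahnSeries.coeff_nsmul]
      by_cases h : a = n
      · subst h; simp [tp, hk]
      · simp [tp, h, HahnSeries.coeff_single_of_ne (Ne.symm h)]
    simp only [e1, sum_ite_eq', Set.Finite.mem_toFinset, HahnSeries.mem_support]
    split_ifs with h
    · rfl
    · exact not_not.1 h
  rw [e]
  exact pos_sum _ _ fun a _ => pos_mul (pos_nat _) (pos_tp _)

end RF

open RF

/-- Some non-zero finite sum of powers of t makes f a Laurent polynomial. -/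
def OO (f : K) : Prop := ∃ Q : K, Pos Q ∧ Q ≠ 0 ∧ (Q * f).support.Finite

theorem OO.of_fs {f : K} (h : f.support.Finite) : OO f := ⟨1, pos_one, one_ne_zero, by simpa⟩

theorem OO.of_pos {f : K} (h : Pos f) : OO f := OO.of_fs (fs_pos h)

theorem OO.zero : OO 0 := OO.of_pos pos_zero

theorem OO.tp (a : ℤ) : OO (tp a) := OO.of_pos (pos_tp a)

theorem OO.add {f g : K} (hf : OO f) (hg : OO g) : OO (f + g) := by
  obtain ⟨Q, h1, h2, h3⟩ := hf
  obtain ⟨R, k1, k2, k3⟩ := hg
  refine ⟨Q * R, pos_mul h1 k1, mul_ne_zero h2 k2, ?_⟩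
  rw [show Q * R * (f + g) = R * (Q * f) + Q * (R * g) by ring]
  exact fs_add (fs_mul (fs_pos k1) h3) (fs_mul (fs_pos h1) k3)

theorem OO.mul {f g : K} (hf : OO f) (hg : OO g) : OO (f * g) := by
  obtain ⟨Q, h1, h2, h3⟩ := hf
  obtain ⟨R, k1, k2, k3⟩ := hg
  refine ⟨Q * R, pos_mul h1 k1, mul_ne_zero h2 k2, ?_⟩
  rw [show Q * R * (f * g) = (Q * f) * (R * g) by ring]
  exact fs_mul h3 k3

theorem OO.neg {f : K} (hf : OO f) : OO (-f) := by
  obtain ⟨Q, h1, h2, h3⟩ := hf
  exact ⟨Q, h1, h2, by rw [mul_neg]; exact fs_neg h3⟩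

theorem OO.sub {f g : K} (hf : OO f) (hg : OO g) : OO (f - g) := by
  rw [sub_eq_add_neg]; exact hf.add hg.neg

theorem OO.sum {ι : Type*} (s : Finset ι) (f : ι → K) (h : ∀ i ∈ s, OO (f i)) :
    OO (∑ i ∈ s, f i) :=
  sum_induction f OO (fun _ _ => OO.add) OO.zero h

theorem OO.int (n : ℤ) : OO (n : K) := by
  obtain ⟨m, rfl | rfl⟩ := Int.eq_nat_or_neg n
  · simpa using OO.of_pos (pos_nat m)
  · simpa using (OO.of_pos (pos_nat m)).neg

/-- division by a non-zero positive element -/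
theorem OO.cancel {P f : K} (hP : Pos P) (h0 : P ≠ 0) (h : OO (P * f)) : OO f := by
  obtain ⟨Q, h1, h2, h3⟩ := h
  exact ⟨Q * P, pos_mul h1 hP, mul_ne_zero h2 h0, by rwa [mul_assoc]⟩

theorem OO.cancel_int {n : ℤ} (h0 : n ≠ 0) {f : K} (h : OO ((n : K) * f)) : OO f := by
  obtain ⟨m, rfl | rfl⟩ := Int.eq_nat_or_neg n
  · exact OO.cancel (pos_nat m) (nat_ne (by exact_mod_cast h0)) (by simpa using h)
  · exact OO.cancel (pos_nat m) (nat_ne (by simpa using h0)) (by simpa using h.neg)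

/-- an element of the ring with natural coefficients is a finite sum of powers -/
theorem OO.pos {f : K} (h : OO f) (hc : ∀ a, ∃ k : ℕ, f.coeff a = k) : Pos f := by
  obtain ⟨Q, ⟨s, rfl⟩, h2, h3⟩ := h
  have hc0 : ∀ a, 0 ≤ f.coeff a := fun a => by
    obtain ⟨k, hk⟩ := hc a
    rw [hk]; exact Nat.cast_nonneg k
  have e1 : ∀ a n, (Th.tp a * f).coeff n = f.coeff (n - a) := fun a n => by
    simp [Th.tp, HahnSeries.coeff_single_mul]
  have nn : ∀ {R : K}, Pos R → ∀ n, 0 ≤ (R * f).coeff n := fun hR =>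
    pos_ind (P := fun R => ∀ n, 0 ≤ (R * f).coeff n) (by simp) (fun a R _ h n => by
      rw [add_mul, HahnSeries.coeff_add, e1]
      exact add_nonneg (hc0 _) (h n)) hR
  obtain ⟨a, ha⟩ := Multiset.exists_mem_of_ne_zero (s := s) (fun e => h2 (by simp [e]))
  obtain ⟨s', rfl⟩ := Multiset.exists_cons_of_mem ha
  refine pos_of_fs ((h3.image fun n => n - a).subset fun n hn => ⟨n + a, ?_, by simp⟩) hc
  rw [HahnSeries.mem_support] at hn ⊢
  rw [Multiset.map_cons, Multiset.sum_cons, add_mul, HahnSeries.coeff_add, e1, add_sub_cancel_right]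
  exact (add_pos_of_pos_of_nonneg (lt_of_le_of_ne (hc0 n) hn.symm) (nn ⟨s', rfl⟩ _)).ne'

theorem OO.of_cc {ε : Bool} {f : K} (h : OO ((1 - Th.tp 1) * (cc ε 1 * f))) : OO f := by
  have e1 : cc ε 1 = Th.tp 1 / (1 - Th.tp 2) := by
    cases ε <;> simp [cc]
  have e2 : (1 : K) - Th.tp 2 = (1 - Th.tp 1) * (1 + Th.tp 1) := by
    rw [show (2 : ℤ) = 1 + 1 from rfl, tp_add]; ring
  have n2 : (1 : K) - Th.tp 2 ≠ 0 := one_sub_tp_ne (by norm_num)
  have n1 : (1 : K) - Th.tp 1 ≠ 0 := one_sub_tp_ne (by norm_num)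
  have n3 : (1 : K) + Th.tp 1 ≠ 0 := fun e => n2 (by rw [e2, e, mul_zero])
  refine OO.cancel (pos_tp 1) (tp_ne 1) ?_
  have := (OO.of_pos (pos_add pos_one (pos_tp 1))).mul h
  convert this using 1
  rw [e1, e2]
  field_simp

/-- at most a simple pole at t = 1 -/
def O1 (f : K) : Prop := OO ((1 - tp 1) * f)

theorem O1.zero : O1 0 := by simpa [O1] using OO.zero

theorem O1.add {f g : K} (hf : O1 f) (hg : O1 g) : O1 (f + g) := by
  unfold O1; rw [mul_add]; exact OO.add hf hg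

theorem O1.neg {f : K} (hf : O1 f) : O1 (-f) := by
  unfold O1; rw [mul_neg]; exact OO.neg hf

theorem O1.sub {f g : K} (hf : O1 f) (hg : O1 g) : O1 (f - g) := by
  rw [sub_eq_add_neg]; exact hf.add hg.neg

theorem O1.sum {ι : Type*} (s : Finset ι) (f : ι → K) (h : ∀ i ∈ s, O1 (f i)) :
    O1 (∑ i ∈ s, f i) :=
  sum_induction f O1 (fun _ _ => O1.add) O1.zero h

theorem O1.mul_left {f g : K} (hf : OO f) (hg : O1 g) : O1 (f * g) := by
  unfold O1; rw [mul_left_comm]; exact hf.mul hg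

theorem O1.cancel_int {n : ℤ} (h0 : n ≠ 0) {f : K} (h : O1 ((n : K) * f)) : O1 f := by
  unfold O1 at h ⊢; rw [mul_left_comm] at h; exact h.cancel_int h0

theorem O1.br (a b : ℤ) {f g : K} (hf : O1 f) (hg : O1 g) : O1 ((tp a - tp b) * f * g) := by
  obtain ⟨h, h1, h2⟩ := geo' a b
  unfold O1
  rw [h2, show (1 - tp 1) * ((1 - tp 1) * h * f * g) = h * (((1 - tp 1) * f) * ((1 - tp 1) * g)) by
    ring]
  exact (OO.of_fs h1).mul (OO.mul hf hg)

theorem O1.geo (a : ℤ) {j : ℕ} (hj : j ≠ 0) : O1 (tp a / (1 - tp j)) := by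
  have e := RF.geo 0 j
  rw [tp_zero, zero_add] at e
  have n1 : (1 : K) - tp j ≠ 0 := one_sub_tp_ne (by exact_mod_cast hj)
  have n2 : ∑ i ∈ range j, tp (0 + i) ≠ 0 := fun h => n1 (by rw [e, h, mul_zero])
  have n3 : (1 : K) - tp 1 ≠ 0 := one_sub_tp_ne (by norm_num)
  refine OO.cancel (pos_sum _ _ fun i _ => pos_tp _) n2 ?_
  convert OO.tp a using 1
  rw [e]
  field_simp

end Pool.Agent.Lib.MP_33bfb2_co.Th
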