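import Pool.Agent.Lib.MP_33bfb2_co.Th.ADefs2

namespace Pool.Agent.Lib.MP_33bfb2_co.Th.RL

open Finset

variable {L : Type} [AddCommGroup L] {ω : Skew L} {C : Cone L} {α β : Type}

/-- The coefficients of f count the points of s by weight. -/
def CK (f : K) (s : Set α) (wt : α → ℤ) : Prop :=
  ∀ N, {x | x ∈ s ∧ wt x = N}.Finite ∧ f.coeff N = ({x | x ∈ s ∧ wt x = N}.ncard : ℚ)

/-- The coefficients of a count the points of s by type and weight. -/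
def CA (a : A ω C) (s : Set α) (ty : α → L) (wt : α → ℤ) : Prop :=
  ∀ n, CK (a.f n) {x | x ∈ s ∧ ty x = n} wt

theorem ncard_fiber (B : Finset β) (u : Set α) (π : α → β) (h : ∀ x ∈ u, π x ∈ B)
    (hf : ∀ b ∈ B, {x | x ∈ u ∧ π x = b}.Finite) :
    u.Finite ∧ u.ncard = ∑ b ∈ B, {x | x ∈ u ∧ π x = b}.ncard := by
  classical
  have hu : u.Finite := (Set.Finite.biUnion B.finite_toSet hf).subset fun x hx =>
    Set.mem_biUnion (h x hx) ⟨hx, rfl⟩
  refine ⟨hu, ?_⟩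
  rw [Set.ncard_eq_toFinset_card u hu,
    card_eq_sum_card_fiberwise (f := π) (t := B) fun x hx => h x (by simpa using hx)]
  refine sum_congr rfl fun b _ => ?_
  rw [← Set.ncard_coe_finset]
  congr 1
  ext x
  simp

theorem CK.ne_zero {f : K} {s : Set α} {wt : α → ℤ} (h : CK f s wt) {x : α} (hx : x ∈ s) :
    f.coeff (wt x) ≠ 0 := by
  rw [(h _).2]
  exact_mod_cast ((Set.ncard_pos (h _).1).2 ⟨x, hx, rfl⟩).ne'

theorem CK.nonempty {f : K} {s : Set α} {wt : α → ℤ} (h : CK f s wt) (hf : f ≠ 0) :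
    s.Nonempty := by
  by_contra e
  rw [Set.not_nonempty_iff_eq_empty] at e
  refine hf (HahnSeries.ext (funext fun N => ?_))
  rw [(h N).2, e]
  simp

theorem CK.unique {f g : K} {s : Set α} {wt : α → ℤ} (h : CK f s wt) (h' : CK g s wt) : f = g :=
  HahnSeries.ext (funext fun N => by rw [(h N).2, (h' N).2])

theorem CK.bij {f : K} {s : Set α} {t : Set β} {wt : α → ℤ} {wt' : β → ℤ} (h : CK f s wt)
    {e : α → β} (he : Set.BijOn e s t) (hw : ∀ x ∈ s, wt' (e x) = wt x) : CK f t wt' := fun N => by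
  have : {y | y ∈ t ∧ wt' y = N} = e '' {x | x ∈ s ∧ wt x = N} := by
    ext y
    constructor
    · rintro ⟨hy, rfl⟩
      obtain ⟨x, hx, rfl⟩ := he.surjOn hy
      exact ⟨x, ⟨hx, (hw x hx).symm⟩, rfl⟩
    · rintro ⟨x, ⟨hx, rfl⟩, rfl⟩
      exact ⟨he.mapsTo hx, hw x hx⟩
  rw [this, Set.InjOn.ncard_image (he.injOn.mono fun _ hx => hx.1)]
  exact ⟨(h N).1.image _, (h N).2⟩

theorem CK.congr {f : K} {s t : Set α} {wt wt' : α → ℤ} (h : CK f s wt) (e : ∀ x, x ∈ s ↔ x ∈ t)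
    (hw : ∀ x ∈ s, wt' x = wt x) : CK f t wt' := by
  obtain rfl : s = t := Set.ext e
  exact h.bij (Set.bijOn_id s) hw

theorem coeff_tp_mul (a : ℤ) (f : K) (N : ℤ) : (tp a * f).coeff N = f.coeff (N - a) := by
  simp [tp, HahnSeries.coeff_single_mul]

theorem CK.shift {f : K} {s : Set α} {wt : α → ℤ} (h : CK f s wt) (a : ℤ) :
    CK (tp a * f) s fun x => wt x + a := fun N => by
  rw [coeff_tp_mul]
  simpa only [eq_sub_iff_add_eq] using h (N - a)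

theorem CK.sum (B : Finset β) {f : β → K} {s : Set α} {wt : α → ℤ} (π : α → β)
    (h : ∀ x ∈ s, π x ∈ B) (hf : ∀ b ∈ B, CK (f b) {x | x ∈ s ∧ π x = b} wt) :
    CK (∑ b ∈ B, f b) s wt := fun N => by
  have e : ∀ b, {x | x ∈ {x | x ∈ s ∧ wt x = N} ∧ π x = b} =
      {x | x ∈ {x | x ∈ s ∧ π x = b} ∧ wt x = N} := fun b => by
    ext x
    simp only [Set.mem_ofPred_eq]
    tauto
  obtain ⟨h1, h2⟩ := ncard_fiber B {x | x ∈ s ∧ wt x = N} π (fun x hx => h x hx.1)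
    fun b hb => by rw [e]; exact (hf b hb N).1
  refine ⟨h1, ?_⟩
  rw [h2, HahnSeries.coeff_sum, Nat.cast_sum]
  exact sum_congr rfl fun b hb => by rw [e, (hf b hb N).2]

theorem CK.add {f g : K} {s t : Set α} {wt : α → ℤ} (h : CK f s wt) (h' : CK g t wt)
    (d : Disjoint s t) : CK (f + g) (s ∪ t) wt := fun N => by
  have e : {x | x ∈ s ∪ t ∧ wt x = N} = {x | x ∈ s ∧ wt x = N} ∪ {x | x ∈ t ∧ wt x = N} := by
    ext x
    simp only [Set.mem_ofPred_eq, Set.mem_union]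
    tauto
  rw [e, Set.ncard_union_eq (d.mono (fun _ hx => hx.1) fun _ hx => hx.1) (h N).1 (h' N).1,
    HahnSeries.coeff_add, (h N).2, (h' N).2, Nat.cast_add]
  exact ⟨(h N).1.union (h' N).1, rfl⟩

theorem CK.mul {f g : K} {s : Set α} {t : Set β} {wt : α → ℤ} {wt' : β → ℤ} (h : CK f s wt)
    (h' : CK g t wt') : CK (f * g) (s ×ˢ t) fun p => wt p.1 + wt' p.2 := fun N => by
  have e : ∀ b ∈ addAntidiagonal f.isPWO_support g.isPWO_support N,
      {p | p ∈ {p : α × β | p ∈ s ×ˢ t ∧ wt p.1 + wt' p.2 = N} ∧ (wt p.1, wt' p.2) = b} =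
      {x | x ∈ s ∧ wt x = b.1} ×ˢ {x | x ∈ t ∧ wt' x = b.2} := fun b hb => by
    have := (mem_addAntidiagonal.1 hb).2.2
    ext p
    simp only [Set.mem_ofPred_eq, Set.mem_prod, Prod.ext_iff]
    constructor
    · tauto
    · rintro ⟨⟨a1, a2⟩, a3, a4⟩
      exact ⟨⟨⟨a1, a3⟩, by rw [a2, a4, this]⟩, a2, a4⟩
  obtain ⟨h1, h2⟩ := ncard_fiber (addAntidiagonal f.isPWO_support g.isPWO_support N)
    {p : α × β | p ∈ s ×ˢ t ∧ wt p.1 + wt' p.2 = N} (fun p => (wt p.1, wt' p.2))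
    (fun p hp => mem_addAntidiagonal.2 ⟨h.ne_zero hp.1.1, h'.ne_zero hp.1.2, hp.2⟩)
    fun b hb => by rw [e b hb]; exact (h _).1.prod (h' _).1
  refine ⟨h1, ?_⟩
  rw [h2, HahnSeries.coeff_mul, Nat.cast_sum]
  exact sum_congr rfl fun b hb => by rw [e b hb, Set.ncard_prod, Nat.cast_mul, (h _).2, (h' _).2]

theorem CK.zero (wt : α → ℤ) : CK 0 (∅ : Set α) wt := fun N => by simp

theorem CK.one {x : α} {wt : α → ℤ} (h : wt x = 0) : CK 1 {x} wt := fun N => by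
  by_cases e : N = 0
  · have : {y | y ∈ ({x} : Set α) ∧ wt y = N} = {x} := by
      ext y
      simp only [Set.mem_ofPred_eq, Set.mem_singleton_iff]
      exact ⟨fun a => a.1, fun a => ⟨a, by rw [a, h, e]⟩⟩
    rw [this, e]
    simp
  · have : {y | y ∈ ({x} : Set α) ∧ wt y = N} = ∅ := by
      ext y
      simp only [Set.mem_ofPred_eq, Set.mem_singleton_iff, Set.mem_empty_iff_false, iff_false]
      rintro ⟨rfl, a⟩
      exact e (a.symm.trans h)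
    rw [this]
    simp [HahnSeries.coeff_one, e]

open Classical in
/-- The series with coefficient h m at 2 m + c. -/
noncomputable def ser (c : ℤ) (h : ℕ → ℕ) : K :=
  HahnSeries.ofSuppBddBelow
    (fun N => if ∃ m : ℕ, N = 2 * m + c then (h ((N - c) / 2).toNat : ℚ) else 0)
    ⟨c, fun N hN => by
      by_contra e
      refine hN (if_neg ?_)
      rintro ⟨m, rfl⟩
      omega⟩

theorem coeff_ser (c : ℤ) (h : ℕ → ℕ) (m : ℕ) : (ser c h).coeff (2 * m + c) = h m := by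
  have : ((2 * (m : ℤ) + c - c) / 2).toNat = m := by omega
  simp only [ser, HahnSeries.coeff_ofSuppBddBelow]
  rw [if_pos ⟨m, rfl⟩, this]

theorem coeff_ser_ne (c : ℤ) (h : ℕ → ℕ) {N : ℤ} (e : ¬ ∃ m : ℕ, N = 2 * m + c) :
    (ser c h).coeff N = 0 := by
  simp only [ser, HahnSeries.coeff_ofSuppBddBelow]
  rw [if_neg e]

theorem coeff_ser_nat (c : ℤ) (h : ℕ → ℕ) (N : ℤ) : ∃ k : ℕ, (ser c h).coeff N = k := by
  by_cases e : ∃ m : ℕ, N = 2 * m + c
  · obtain ⟨m, rfl⟩ := e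
    exact ⟨_, coeff_ser c h m⟩
  · exact ⟨0, by simpa using coeff_ser_ne c h e⟩

theorem CK.eq_ser {f : K} {s : Set α} {wt : α → ℤ} (hf : CK f s wt) (c : ℤ) (h : ℕ → ℕ)
    (h1 : ∀ x ∈ s, ∃ m : ℕ, wt x = 2 * m + c)
    (h2 : ∀ m : ℕ, {x | x ∈ s ∧ wt x = 2 * m + c}.ncard = h m) : f = ser c h := by
  refine HahnSeries.ext (funext fun N => ?_)
  by_cases e : ∃ m : ℕ, N = 2 * m + c
  · obtain ⟨m, rfl⟩ := e
    rw [coeff_ser, (hf _).2, h2]
  · rw [coeff_ser_ne c h e, (hf _).2]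
    have : {x | x ∈ s ∧ wt x = N} = ∅ :=
      Set.eq_empty_of_forall_notMem fun x hx => e (hx.2 ▸ h1 x hx.1)
    simp [this]

theorem ck_ser (c : ℤ) (h : ℕ → ℕ) :
    CK (ser c h) {p : ℕ × ℕ | p.2 < h p.1} fun p => 2 * p.1 + c := fun N => by
  by_cases e : ∃ m : ℕ, N = 2 * m + c
  · obtain ⟨m, rfl⟩ := e
    have : {x : ℕ × ℕ | x ∈ {p : ℕ × ℕ | p.2 < h p.1} ∧ 2 * (x.1 : ℤ) + c = 2 * m + c} =
        (({m} ×ˢ range (h m) : Finset (ℕ × ℕ)) : Set (ℕ × ℕ)) := by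
      ext ⟨a, b⟩
      simp only [Set.mem_ofPred_eq, coe_product, coe_singleton, coe_range, Set.mem_prod,
        Set.mem_singleton_iff, Set.mem_Iio]
      constructor
      · rintro ⟨h1, h2⟩
        obtain rfl : a = m := by omega
        exact ⟨rfl, h1⟩
      · rintro ⟨rfl, h1⟩
        exact ⟨h1, rfl⟩
    rw [this, coeff_ser, Set.ncard_coe_finset]
    exact ⟨finite_toSet _, by simp⟩
  · have : {x : ℕ × ℕ | x ∈ {p : ℕ × ℕ | p.2 < h p.1} ∧ 2 * (x.1 : ℤ) + c = N} = ∅ :=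
      Set.eq_empty_of_forall_notMem fun x hx => e ⟨x.1, hx.2.symm⟩
    rw [this, coeff_ser_ne c h e]
    simp

theorem CA.mem {a : A ω C} {s : Set α} {ty : α → L} {wt : α → ℤ} (h : CA a s ty wt) {x : α}
    (hx : x ∈ s) : ty x ∈ C.car :=
  a.supp _ fun e => (h (ty x)).ne_zero (x := x) ⟨hx, rfl⟩ (by simp [e])

theorem CA.exists {a : A ω C} {s : Set α} {ty : α → L} {wt : α → ℤ} (h : CA a s ty wt) {n : L}
    (hn : a.f n ≠ 0) : ∃ x ∈ s, ty x = n := (h n).nonempty hn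

theorem CA.bij {a : A ω C} {s : Set α} {t : Set β} {ty : α → L} {ty' : β → L} {wt : α → ℤ}
    {wt' : β → ℤ} (h : CA a s ty wt) {e : α → β} (he : Set.BijOn e s t)
    (ht : ∀ x ∈ s, ty' (e x) = ty x) (hw : ∀ x ∈ s, wt' (e x) = wt x) : CA a t ty' wt' :=
  fun n => (h n).bij (e := e) ⟨fun x hx => ⟨he.mapsTo hx.1, (ht x hx.1).trans hx.2⟩,
    he.injOn.mono fun _ hx => hx.1, fun y hy => by
      obtain ⟨x, hx, rfl⟩ := he.surjOn hy.1
      exact ⟨x, ⟨hx, (ht x hx).symm.trans hy.2⟩, rfl⟩⟩ fun x hx => hw x hx.1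

theorem CA.one {x : α} {ty : α → L} {wt : α → ℤ} (ht : ty x = 0) (h : wt x = 0) :
    CA (1 : A ω C) {x} ty wt := fun n => by
  rw [A.one_f]
  split_ifs with e
  · exact (CK.one h).congr (fun y => ⟨fun a => ⟨a, by rw [a, ht, e]⟩, fun a => a.1⟩) fun _ _ => rfl
  · exact (CK.zero wt).congr (fun y => ⟨fun a => a.elim, fun a => e (by rw [← a.2, a.1, ht])⟩)
      fun _ _ => rfl

theorem CA.mul {a b : A ω C} {s : Set α} {t : Set β} {ty : α → L} {ty' : β → L} {wt : α → ℤ}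
    {wt' : β → ℤ} (h : CA a s ty wt) (h' : CA b t ty' wt') :
    CA (a * b) (s ×ˢ t) (fun p => ty p.1 + ty' p.2)
      fun p => wt p.1 + wt' p.2 - ω.w (ty p.1) (ty' p.2) := fun n => by
  rw [A.mul_apply]
  refine CK.sum _ (fun p => ty p.1) (fun p hp => Cone.mem_box.2 ⟨h.mem hp.1.1, ?_⟩) fun m _ => ?_
  · rw [← hp.2, add_sub_cancel_left]
    exact h'.mem hp.1.2
  · rw [mul_assoc]
    refine (((h m).mul (h' (n - m))).shift _).congr (fun p => ?_) fun p hp => ?_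
    · simp only [Set.mem_ofPred_eq, Set.mem_prod]
      constructor
      · rintro ⟨⟨a1, a2⟩, a3, a4⟩
        exact ⟨⟨⟨a1, a3⟩, by rw [a2, a4, add_sub_cancel]⟩, a2⟩
      · rintro ⟨⟨⟨a1, a3⟩, a2⟩, a4⟩
        exact ⟨⟨a1, a4⟩, a3, by rw [← a2, a4, add_sub_cancel_left]⟩
    · rw [hp.1.2, hp.2.2, map_sub, ω.alt, sub_zero, sub_eq_add_neg]

end Pool.Agent.Lib.MP_33bfb2_co.Th.RL
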