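import Pool.Agent.Lib.MP_33bfb2_co.Th.RLa
import Pool.Agent.Lib.MP_33bfb2_co.Th.G1

namespace Pool.Agent.Lib.MP_33bfb2_co.Th.RL

open Finset

variable {L : Type} [AddCommGroup L] {ω : Skew L} {C : Cone L} {α β : Type}

theorem finite_multiset (j m : ℕ) : {s : Multiset ℕ | s.card = j ∧ s.sum ≤ m}.Finite := by
  refine (Set.finite_Iic (j • Multiset.range (m + 1))).subset fun s hs => ?_
  rw [Set.mem_Iic, Multiset.le_iff_count]
  intro a
  by_cases h : a ∈ s
  · have := Multiset.single_le_sum (fun x _ => Nat.zero_le x) a h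
    rw [Multiset.count_nsmul, Multiset.count_eq_one_of_mem (Multiset.nodup_range _)
      (Multiset.mem_range.2 (by have := hs.2; omega)), mul_one, ← hs.1]
    exact Multiset.count_le_card a s
  · simp [Multiset.count_eq_zero_of_notMem h]

theorem ck_cc (ε : Bool) (j : ℕ) : CK (cc ε j) {s : Multiset ℕ | s.card = j ∧ (ε = true → s.Nodup)}
    fun s => 2 * (s.sum : ℤ) + s.card := fun N => by
  refine ⟨(finite_multiset j N.toNat).subset fun s hs => ⟨hs.1.1, ?_⟩, ?_⟩
  · have : 2 * (s.sum : ℤ) + s.card = N := hs.2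
    omega
  · rw [coeff_cc]
    congr 2
    ext s
    simp only [Set.mem_ofPred_eq]
    constructor
    · rintro ⟨rfl, a, b⟩
      exact ⟨⟨rfl, a⟩, b⟩
    · rintro ⟨⟨rfl, a⟩, b⟩
      exact ⟨rfl, a, b⟩

theorem nsmul_inj {n : L} (h : n ∈ C.car) (h0 : n ≠ 0) {i j : ℕ} (e : i • n = j • n) :
    i = j := by
  have := congrArg C.deg e
  simp only [map_nsmul, nsmul_eq_mul] at this
  exact_mod_cast mul_right_cancel₀ (C.pos _ h h0).ne' this

theorem ca_gen {x : Gn L} (h : x.2.2 ∈ C.car) (h0 : x.2.2 ≠ 0) :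
    CA (gen ω C x).1 {s : Multiset ℕ | x.1 = true → s.Nodup} (fun s => s.card • x.2.2)
      fun s => 2 * (s.sum : ℤ) + s.card + x.2.1 * s.card := fun n => by
  by_cases e : ∃ j : ℕ, n = j • x.2.2
  · obtain ⟨j, rfl⟩ := e
    rw [gen_apply h h0]
    refine ((ck_cc x.1 j).shift _).congr (fun s => ⟨fun a => ⟨a.2, congrArg (· • x.2.2) a.1⟩,
      fun a => ⟨nsmul_inj h h0 a.2, a.1⟩⟩) fun s hs => by rw [hs.1]
  · have : (gen ω C x).1.f n = 0 := by
      by_contra a
      obtain ⟨j, hj⟩ := gen_in x n a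
      exact e ⟨j, hj.symm⟩
    rw [this]
    exact (CK.zero fun _ => 0).congr (fun s => ⟨fun a => a.elim, fun a => e ⟨_, a.2.symm⟩⟩)
      fun _ a => a.elim

theorem gens_cons (x : Gn L) (l : List (Gn L)) :
    (gens ω C (x :: l)).1 = (gen ω C x).1 * (gens ω C l).1 := by
  simp [gens]

/-- An ordered product of generators counts families of multisets. -/
theorem ca_ofFn : ∀ (r : ℕ) (x : Fin r → Gn L), (∀ i, (x i).2.2 ∈ C.car ∧ (x i).2.2 ≠ 0) →
    CA (gens ω C (List.ofFn x)).1 {s : Fin r → Multiset ℕ | ∀ i, (x i).1 = true → (s i).Nodup}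
      (fun s => ∑ i, (s i).card • (x i).2.2)
      fun s => ∑ i, (2 * ((s i).sum : ℤ) + (s i).card + (x i).2.1 * (s i).card) -
        ∑ i, ∑ j, if j < i then ω.w (x j).2.2 (x i).2.2 * (s i).card * (s j).card else 0
  | 0, x, _ => by
    have : {s : Fin 0 → Multiset ℕ | ∀ i, (x i).1 = true → (s i).Nodup} = {default} := by
      ext s
      simp [Subsingleton.elim s default]
    rw [this]
    exact CA.one (by simp) (by simp)
  | r + 1, x, h => by
    rw [List.ofFn_succ, gens_cons]
    refine ((ca_gen (h 0).1 (h 0).2).mul (ca_ofFn r (fun i => x i.succ) fun i => h _)).bij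
      (e := fun p => Fin.cons p.1 p.2) ⟨fun p hp i => ?_, fun p _ q _ e => ?_, fun s hs => ?_⟩
      (fun p _ => ?_) fun p _ => ?_
    · exact Fin.cases (by simpa using hp.1) (fun i => by simpa using hp.2 i) i
    · exact Prod.ext (Fin.cons_injective2 e).1 (Fin.cons_injective2 e).2
    · exact ⟨(s 0, Fin.tail s), ⟨hs 0, fun i => hs i.succ⟩, Fin.cons_self_tail s⟩
    · simp [Fin.sum_univ_succ]
    · simp only [Fin.sum_univ_succ, Fin.cons_zero, Fin.cons_succ, Fin.not_lt_zero, if_false,
        Fin.succ_pos, if_true, Fin.succ_lt_succ_iff, sum_const_zero, sum_add_distrib, map_sum,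
        map_nsmul, AddMonoidHom.nsmul_apply, nsmul_eq_mul]
      rw [sum_congr rfl fun i _ => show ω.w (x 0).2.2 (x i.succ).2.2 * (p.2 i).card * p.1.card =
        (p.2 i).card * (p.1.card * ω.w (x 0).2.2 (x i.succ).2.2) by ring]
      ring

/-- A product of commuting generators counts multisets. -/
theorem ca_list [DecidableEq β] {τ : Type} (mk : τ → ℕ → β) (g : β → τ) (pw : β → ℕ)
    (h1 : ∀ t k, g (mk t k) = t) (h2 : ∀ t k, pw (mk t k) = k) (h3 : ∀ b, mk (g b) (pw b) = b)
    (x : τ → Gn L) : ∀ T : List τ, T.Nodup → (∀ t ∈ T, (x t).2.2 ∈ C.car ∧ (x t).2.2 ≠ 0) →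
      (∀ t ∈ T, ∀ t' ∈ T, ω.w (x t).2.2 (x t').2.2 = 0) →
      CA (gens ω C (T.map x)).1
        {μ : Multiset β | ∀ b ∈ μ, g b ∈ T ∧ ((x (g b)).1 = true → μ.count b ≤ 1)}
        (fun μ => (μ.map fun b => (x (g b)).2.2).sum)
        fun μ => (μ.map fun b => 2 * (pw b : ℤ) + 1 + (x (g b)).2.1).sum
  | [], _, _, _ => by
    have : {μ : Multiset β | ∀ b ∈ μ, g b ∈ ([] : List τ) ∧
        ((x (g b)).1 = true → μ.count b ≤ 1)} = {0} := by
      ext s
      simp [Multiset.eq_zero_iff_forall_notMem]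
    rw [this]
    exact CA.one (by simp) (by simp)
  | t :: T, hn, h, hw => by
    classical
    rw [List.nodup_cons] at hn
    have inj : Function.Injective (mk t) := fun a b e => by rw [← h2 t a, e, h2]
    have f1 : ∀ u : Multiset ℕ, (u.map (mk t)).filter (fun b => g b = t) = u.map (mk t) :=
      fun u => Multiset.filter_eq_self.2 fun b hb => by
        obtain ⟨k, -, rfl⟩ := Multiset.mem_map.1 hb
        exact h1 t k
    have f2 : ∀ μ : Multiset β, (∀ b ∈ μ, g b ∈ T) → μ.filter (fun b => g b = t) = 0 :=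
      fun μ hμ => Multiset.filter_eq_nil.2 fun b hb e => hn.1 (e ▸ hμ b hb)
    rw [List.map_cons, gens_cons]
    refine ((ca_gen (h t (by simp)).1 (h t (by simp)).2).mul (ca_list mk g pw h1 h2 h3 x T hn.2
      (fun a ha => h a (by simp [ha])) fun a ha b hb => hw a (by simp [ha]) b (by simp [hb]))).bij
      (e := fun p => p.1.map (mk t) + p.2) ⟨fun p hp b hb => ?_, fun p hp q hq e => ?_,
        fun μ hμ => ?_⟩ (fun p _ => ?_) fun p hp => ?_
    · rw [Multiset.count_add]
      rcases Multiset.mem_add.1 hb with a | a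
      · obtain ⟨k, -, rfl⟩ := Multiset.mem_map.1 a
        rw [h1, Multiset.count_map_eq_count' _ _ inj, Multiset.count_eq_zero_of_notMem
          (s := p.2) fun c => hn.1 (h1 t k ▸ (hp.2 _ c).1)]
        exact ⟨by simp, fun c => Multiset.nodup_iff_count_le_one.1 (hp.1 c) k⟩
      · rw [Multiset.count_eq_zero_of_notMem (s := p.1.map (mk t)) fun c => by
          obtain ⟨k, -, rfl⟩ := Multiset.mem_map.1 c
          exact hn.1 (h1 t k ▸ (hp.2 _ a).1), zero_add]
        exact ⟨by simp [(hp.2 b a).1], (hp.2 b a).2⟩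
    · have e1 := congrArg (Multiset.filter fun b => g b = t) e
      simp only [Multiset.filter_add, f1, f2 _ fun b hb => (hp.2 b hb).1,
        f2 _ fun b hb => (hq.2 b hb).1, add_zero] at e1
      simp only [e1, add_right_inj] at e
      exact Prod.ext (Multiset.map_injective inj e1) e
    · have e1 : ((μ.filter fun b => g b = t).map pw).map (mk t) = μ.filter fun b => g b = t := by
        rw [Multiset.map_map]
        conv_rhs => rw [← Multiset.map_id (μ.filter fun b => g b = t)]
        exact Multiset.map_congr rfl fun b hb => by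
          rw [Function.comp, ← (Multiset.mem_filter.1 hb).2, h3, id]
      refine ⟨((μ.filter fun b => g b = t).map pw, μ.filter fun b => ¬ g b = t),
        ⟨fun c => ?_, fun b hb => ?_⟩, ?_⟩
      · refine Multiset.Nodup.of_map (mk t) ?_
        rw [e1, Multiset.nodup_iff_count_le_one]
        intro b
        by_cases hb : b ∈ μ.filter fun b => g b = t
        · rw [Multiset.mem_filter] at hb
          exact (Multiset.count_le_of_le b (Multiset.filter_le _ _)).trans
            ((hμ b hb.1).2 (by rw [hb.2]; exact c))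
        · simp [Multiset.count_eq_zero_of_notMem hb]
      · rw [Multiset.mem_filter] at hb
        exact ⟨(List.mem_cons.1 (hμ b hb.1).1).resolve_left hb.2, fun c =>
          (Multiset.count_le_of_le b (Multiset.filter_le _ _)).trans ((hμ b hb.1).2 c)⟩
      · show _ + _ = μ
        rw [e1, Multiset.filter_add_not]
    · simp [Multiset.map_map, h1]
    · have e0 : ω.w (x t).2.2 (p.2.map fun b => (x (g b)).2.2).sum = 0 := by
        rw [map_multiset_sum, Multiset.map_map]
        exact Multiset.sum_eq_zero fun y hy => by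
          obtain ⟨b, hb, rfl⟩ := Multiset.mem_map.1 hy
          exact hw t (by simp) _ (by simp [(hp.2 b hb).1])
      simp only [map_nsmul, AddMonoidHom.nsmul_apply, e0, Multiset.map_add, Multiset.sum_add,
        Multiset.map_map, Function.comp, h1, h2, Multiset.sum_map_add, Multiset.map_const',
        Multiset.sum_replicate, Multiset.sum_map_mul_left, nsmul_eq_mul, Nat.cast_multiset_sum]
      ring

end Pool.Agent.Lib.MP_33bfb2_co.Th.RL
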