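import Pool.Agent.Lib.MP_33bfb2_co.Th.RLb

namespace Pool.Agent.Lib.MP_33bfb2_co.Th.RL

open Finset

variable {r : ℕ}

/-- A dimension vector as a lattice point. -/
def io (d : Fin r → ℕ) : Fin r → ℤ := fun i => d i

/-- The positive orthant. -/
def orth (r : ℕ) : Cone (Fin r → ℤ) where
  car := { carrier := {n | ∀ i, 0 ≤ n i}
           add_mem' := fun ha hb i => add_nonneg (ha i) (hb i)
           zero_mem' := fun _ => le_rfl }
  deg := { toFun := fun n => ∑ i, n i
           map_zero' := by simp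
           map_add' := fun a b => by simp [sum_add_distrib] }
  pos n hn h0 := by
    obtain ⟨i, hi⟩ := Function.ne_iff.1 h0
    exact sum_pos' (fun j _ => hn j) ⟨i, mem_univ _, lt_of_le_of_ne (hn i) (Ne.symm hi)⟩
  fin D := (Set.finite_Icc 0 fun _ => D).subset fun n hn =>
    ⟨hn.1, fun i => (single_le_sum (fun j _ => hn.1 j) (mem_univ i)).trans hn.2⟩

theorem mem_orth {n : Fin r → ℤ} : n ∈ (orth r).car ↔ ∀ i, 0 ≤ n i := Iff.rfl

theorem orth_deg (n : Fin r → ℤ) : (orth r).deg n = ∑ i, n i := rfl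

theorem io_mem (d : Fin r → ℕ) : io d ∈ (orth r).car := fun _ => Int.natCast_nonneg _

theorem io_inj : Function.Injective (io : (Fin r → ℕ) → _) := fun _ _ h =>
  funext fun i => Int.natCast_inj.1 (congrFun h i)

theorem io_zero : io (0 : Fin r → ℕ) = 0 := rfl

theorem io_add (d e : Fin r → ℕ) : io (d + e) = io d + io e := funext fun _ => Nat.cast_add _ _

theorem io_ne {d : Fin r → ℕ} (h : d ≠ 0) : io d ≠ 0 := fun e => h (io_inj e)

theorem exists_io {n : Fin r → ℤ} (h : n ∈ (orth r).car) : ∃ d, n = io d :=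
  ⟨fun i => (n i).toNat, funext fun i => (Int.toNat_of_nonneg (h i)).symm⟩

theorem io_eq (d : Fin r → ℕ) : io d = ∑ i, d i • (Pi.single i 1 : Fin r → ℤ) := by
  ext j
  simp [io, Pi.single_apply]

theorem io_sum (μ : Multiset (Fin r → ℕ)) : io μ.sum = (μ.map io).sum := by
  induction μ using Multiset.induction_on with
  | empty => rfl
  | cons a μ ih => simp [io_add, ih]

theorem deg_io (d : Fin r → ℕ) : (orth r).deg (io d) = ((∑ i, d i : ℕ) : ℤ) := by
  simp [orth_deg, io]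

theorem eta_io (η : (Fin r → ℤ) →+ ℚ) (d : Fin r → ℕ) :
    η (io d) = ∑ i, η (Pi.single i 1) * d i := by
  simp only [io_eq, map_sum, map_nsmul]
  simp [mul_comm]

theorem kap_eq (w : Fin r → Fin r → ℕ) (d d' : Fin r → ℕ) :
    kap w d d' = ∑ i, ∑ j, if j < i then w j i * d i * d' j else 0 := by
  refine sum_congr rfl fun i _ => ?_
  rw [← sum_filter]
  exact sum_congr (by ext; simp) fun _ _ => rfl

theorem kap_add_left (w : Fin r → Fin r → ℕ) (a b c : Fin r → ℕ) :
    kap w (a + b) c = kap w a c + kap w b c := by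
  simp [kap, mul_add, add_mul, sum_add_distrib]

theorem kap_add_right (w : Fin r → Fin r → ℕ) (a b c : Fin r → ℕ) :
    kap w a (b + c) = kap w a b + kap w a c := by
  simp [kap, mul_add, sum_add_distrib]

theorem kap_zero (w : Fin r → Fin r → ℕ) : kap w 0 0 = 0 := by simp [kap]

variable {ω : Skew (Fin r → ℤ)} {w : Fin r → Fin r → ℕ}

theorem w_io (hw : ∀ j i, j < i → ω.w (Pi.single j 1) (Pi.single i 1) = w j i) (d d' : Fin r → ℕ) :
    ω.w (io d) (io d') = kap w d' d - kap w d d' := by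
  rw [kap_eq, kap_eq, sum_comm]
  simp only [io_eq, map_sum, map_nsmul, AddMonoidHom.finsetSum_apply, AddMonoidHom.nsmul_apply]
  simp only [nsmul_eq_mul, mul_sum, Nat.cast_sum, ← sum_sub_distrib]
  rw [sum_comm]
  refine sum_congr rfl fun i _ => sum_congr rfl fun j _ => ?_
  rcases lt_trichotomy i j with a | rfl | a
  · rw [hw i j a, if_pos a, if_neg a.not_gt]
    push_cast
    ring
  · simp [ω.alt]
  · rw [ω.skew, hw j i a, if_pos a, if_neg a.not_gt]
    push_cast
    ring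

/-- The exponent shift of a dimension vector. -/
def sft (w : Fin r → Fin r → ℕ) (d : Fin r → ℕ) : ℤ := (∑ i, d i : ℕ) - kap w d d

/-- The generators at the basis vectors. -/
def bas (ε : Fin r → Bool) : List (Gn (Fin r → ℤ)) :=
  List.ofFn fun i => (ε i, 0, Pi.single i 1)

theorem single_mem (i : Fin r) : (Pi.single i 1 : Fin r → ℤ) ∈ (orth r).car ∧
    (Pi.single i 1 : Fin r → ℤ) ≠ 0 :=
  ⟨fun j => by by_cases h : j = i <;> simp [h], by simp⟩

theorem bas_val (hw : ∀ j i, j < i → ω.w (Pi.single j 1) (Pi.single i 1) = w j i)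
    (ε : Fin r → Bool) (d : Fin r → ℕ) :
    (gens ω (orth r) (bas ε)).1.f (io d) = ser (sft w d) fun m => (Orb ε d m).ncard := by
  have h := ca_ofFn (ω := ω) r (fun i => (ε i, 0, Pi.single i 1)) single_mem (io d)
  have e : ∀ s : Fin r → Multiset ℕ, (∀ i, (s i).card = d i) →
      (∑ i, (2 * ((s i).sum : ℤ) + (s i).card + 0 * (s i).card) - ∑ i, ∑ j, if j < i then
        ω.w (Pi.single j 1) (Pi.single i 1) * (s i).card * (s j).card else 0) =
      2 * (∑ i, (s i).sum : ℕ) + sft w d := fun s hs => by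
    rw [sum_congr rfl fun i _ => sum_congr rfl fun j _ => if_ctx_congr Iff.rfl
      (fun a => by rw [hw j i a]) fun _ => rfl]
    simp only [hs, sft, kap_eq, sum_add_distrib, ← mul_sum]
    push_cast
    ring
  have e2 : ∀ s : Fin r → Multiset ℕ, ∑ i, (s i).card • (Pi.single i 1 : Fin r → ℤ) = io d ↔
      ∀ i, (s i).card = d i := fun s => by
    rw [← io_eq, io_inj.eq_iff, funext_iff]
  refine h.eq_ser _ _ (fun s hs => ⟨_, e s ((e2 s).1 hs.2)⟩) fun m => ?_
  congr 1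
  ext s
  constructor
  · rintro ⟨⟨a, b⟩, c⟩
    have b' := (e2 s).1 b
    have c' := (e s b').symm.trans c
    exact ⟨fun i => ⟨b' i, a i⟩, by omega⟩
  · rintro ⟨a, b⟩
    exact ⟨⟨fun i => (a i).2, (e2 s).2 fun i => (a i).1⟩, by rw [← b]; exact e s fun i => (a i).1⟩

theorem ser_delta {h : ℕ → ℕ} (h0 : ∀ m, h m = if m = 0 then 1 else 0) : ser 0 h = 1 :=
  ((CK.one (x := (0 : ℕ)) (wt := fun m => 2 * (m : ℤ) + 0) (by simp)).eq_ser 0 h
    (fun m _ => ⟨m, rfl⟩) fun m => by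
      rw [h0]
      split_ifs with e
      · rw [Set.ncard_eq_one]
        exact ⟨0, Set.ext fun x => by simp [e]⟩
      · rw [Set.ncard_eq_zero (Set.toFinite _)]
        exact Set.eq_empty_of_forall_notMem fun x hx => by
          have a : x = 0 := hx.1
          have b : 2 * (x : ℤ) + 0 = 2 * m + 0 := hx.2
          omega).symm

/-- The element with prescribed graded dimensions. -/
noncomputable def el (ω : Skew (Fin r → ℤ)) (w : Fin r → Fin r → ℕ) (h : (Fin r → ℕ) → ℕ → ℕ)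
    (h0 : ∀ m, h 0 m = if m = 0 then 1 else 0) : G ω (orth r) :=
  ⟨A.mk' ω (orth r) (Function.extend io (fun d => ser (sft w d) (h d)) 0), by
    show Set.indicator _ _ _ = _
    rw [Set.indicator_of_mem (orth r).car.zero_mem, ← io_zero, io_inj.extend_apply]
    simpa [sft, kap_zero] using ser_delta h0⟩

theorem el_val {h : (Fin r → ℕ) → ℕ → ℕ} (h0 : ∀ m, h 0 m = if m = 0 then 1 else 0)
    (d : Fin r → ℕ) : (el ω w h h0).1.f (io d) = ser (sft w d) (h d) := by
  show Set.indicator _ _ _ = _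
  rw [Set.indicator_of_mem (io_mem d), io_inj.extend_apply]

theorem ca_el {h : (Fin r → ℕ) → ℕ → ℕ} (h0 : ∀ m, h 0 m = if m = 0 then 1 else 0) :
    CA (el ω w h h0).1 {p : (Fin r → ℕ) × ℕ × ℕ | p.2.2 < h p.1 p.2.1} (fun p => io p.1)
      fun p => 2 * p.2.1 + sft w p.1 := fun n => by
  by_cases hn : n ∈ (orth r).car
  · obtain ⟨d, rfl⟩ := exists_io hn
    rw [el_val]
    refine (ck_ser _ _).bij (e := fun p => (d, p)) ⟨fun p hp => ⟨hp, rfl⟩,
      fun p _ q _ e => (Prod.ext_iff.1 e).2, fun p hp => ?_⟩ fun _ _ => rfl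
    obtain ⟨e, q⟩ := p
    obtain rfl : e = d := io_inj hp.2
    exact ⟨q, hp.1, rfl⟩
  · rw [A.eq_zero hn]
    exact (CK.zero fun _ => 0).congr (fun p => ⟨fun a => a.elim, fun a => hn (a.2 ▸ io_mem _)⟩)
      fun _ a => a.elim

theorem el_mul_val (hw : ∀ j i, j < i → ω.w (Pi.single j 1) (Pi.single i 1) = w j i)
    {hT hQ : (Fin r → ℕ) → ℕ → ℕ} (h0 : ∀ m, hT 0 m = if m = 0 then 1 else 0)
    (h0' : ∀ m, hQ 0 m = if m = 0 then 1 else 0) (d : Fin r → ℕ) :
    ((el ω w hT h0).1 * (el ω w hQ h0').1).f (io d) = ser (sft w d) fun m =>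
      ∑ e ∈ Iic d, ∑ q ∈ range (m + 1) ×ˢ range (m + 1),
        if q.1 + q.2 + kap w e (d - e) = m then hT e q.1 * hQ (d - e) q.2 else 0 := by
  have h := ((ca_el (ω := ω) (w := w) h0).mul (ca_el (w := w) h0')) (io d)
  have e : ∀ (a b : Fin r → ℕ) (i j : ℕ), 2 * (i : ℤ) + sft w a + (2 * j + sft w b) -
      ω.w (io a) (io b) = 2 * (i + j + kap w a b : ℕ) + sft w (a + b) := fun a b i j => by
    simp only [w_io hw, sft, kap_add_left, kap_add_right, Pi.add_apply, sum_add_distrib]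
    push_cast
    ring
  have e2 : ∀ a b : Fin r → ℕ, io a + io b = io d ↔ a + b = d := fun a b => by
    rw [← io_add, io_inj.eq_iff]
  refine h.eq_ser _ _ (fun p hp => ⟨_, by rw [← (e2 _ _).1 hp.2]; exact e _ _ _ _⟩) fun m => ?_
  have key : ∀ b ∈ Iic d ×ˢ range (m + 1) ×ˢ range (m + 1),
      {p | p ∈ {p | p ∈ {p | p ∈ {p : (Fin r → ℕ) × ℕ × ℕ | p.2.2 < hT p.1 p.2.1} ×ˢ
        {p : (Fin r → ℕ) × ℕ × ℕ | p.2.2 < hQ p.1 p.2.1} ∧ io p.1.1 + io p.2.1 = io d} ∧
        2 * (p.1.2.1 : ℤ) + sft w p.1.1 + (2 * p.2.2.1 + sft w p.2.1) -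
          ω.w (io p.1.1) (io p.2.1) = 2 * m + sft w d} ∧ (p.1.1, p.1.2.1, p.2.2.1) = b} =
      (fun y : ℕ × ℕ => ((b.1, b.2.1, y.1), (d - b.1, b.2.2, y.2))) ''
        ((if b.2.1 + b.2.2 + kap w b.1 (d - b.1) = m then
          range (hT b.1 b.2.1) ×ˢ range (hQ (d - b.1) b.2.2) else ∅ : Finset (ℕ × ℕ)) : Set _) := by
    rintro ⟨a, i, j⟩ hb
    have ha : a ≤ d := mem_Iic.1 (mem_product.1 hb).1
    ext ⟨⟨a', i', x⟩, b', j', y⟩
    simp only [Set.mem_ofPred_eq, Set.mem_prod, e, e2, Prod.mk.injEq, Set.mem_image, mem_coe,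
      Prod.exists]
    constructor
    · rintro ⟨⟨⟨⟨h1, h2⟩, rfl⟩, h3⟩, rfl, rfl, rfl⟩
      rw [add_tsub_cancel_left, if_pos (by omega)]
      exact ⟨x, y, by simp [h1, h2], ⟨rfl, rfl, rfl⟩, rfl, rfl, rfl⟩
    · rintro ⟨x', y', h1, ⟨rfl, rfl, rfl⟩, rfl, rfl, rfl⟩
      split_ifs at h1 with c
      · rw [mem_product, mem_range, mem_range] at h1
        rw [add_tsub_cancel_of_le ha, c]
        exact ⟨⟨⟨h1, rfl⟩, rfl⟩, rfl, rfl, rfl⟩
      · simp at h1
  rw [(ncard_fiber (Iic d ×ˢ range (m + 1) ×ˢ range (m + 1)) _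
    (fun p => (p.1.1, p.1.2.1, p.2.2.1)) (fun p hp => ?_) fun b hb => ?_).2, sum_product]
  · refine sum_congr rfl fun a ha => sum_congr rfl fun q hq => ?_
    refine (congrArg Set.ncard (key (a, q) (mem_product.2 ⟨ha, hq⟩))).trans ?_
    rw [Set.ncard_image_of_injective _ fun x y c => by
      simp only [Prod.mk.injEq, true_and] at c
      exact Prod.ext c.1 c.2, Set.ncard_coe_finset]
    split_ifs <;> simp
  · have a := (e2 _ _).1 hp.1.2
    have b := (e _ _ _ _).symm.trans hp.2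
    rw [a] at b
    simp only [mem_product, mem_Iic, mem_range]
    exact ⟨a ▸ le_self_add, by omega, by omega⟩
  · exact (key b hb).symm ▸ (finite_toSet _).image _

end Pool.Agent.Lib.MP_33bfb2_co.Th.RL
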