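import Pool.Agent.Lib.MP_33bfb2_co.Th.RLc
import Pool.Agent.Lib.MP_33bfb2_co.Th.A3
import Pool.Agent.Lib.MP_33bfb2_co.Th.R6

namespace Pool.Agent.Lib.MP_33bfb2_co.Th.RL

open Finset

variable {r : ℕ} {ω : Skew (Fin r → ℤ)} {w : Fin r → Fin r → ℕ} {ε : Fin r → Bool}
  {η : Fin r → ℚ} {ν : (Fin r → ℕ) → ℕ → ℕ}

/-- The index multisets of type d, all degrees. -/
def PA (w : Fin r → Fin r → ℕ) (ε : Fin r → Bool) (η : Fin r → ℚ) (ν : (Fin r → ℕ) → ℕ → ℕ)
    (d : Fin r → ℕ) : Set (Multiset ((Fin r → ℕ) × ℕ × ℕ × ℕ)) :=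
  {s | (∀ x ∈ s, x.1 ≠ 0 ∧ ∑ i, η i * x.1 i = 0 ∧ x.2.2.1 < ν x.1 x.2.1 ∧
      (Odd (par w ε x.1) → s.count x ≤ 1)) ∧ (s.map (·.1)).sum = d}

/-- The generator of a triple. -/
def gx (w : Fin r → Fin r → ℕ) (ε : Fin r → Bool) (t : (Fin r → ℕ) × ℕ × ℕ) : Gn (Fin r → ℤ) :=
  (decide (Odd (par w ε t.1)), 2 * t.2.1 + sft w t.1 - 1, io t.1)

/-- The weight of an index multiset. -/
def pw (w : Fin r → Fin r → ℕ) (s : Multiset ((Fin r → ℕ) × ℕ × ℕ × ℕ)) : ℤ :=
  (s.map fun b => 2 * (b.2.2.2 : ℤ) + 1 + (2 * b.2.1 + sft w b.1 - 1)).sum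

/-- The triples of size less than B. -/
def TB (η : Fin r → ℚ) (ν : (Fin r → ℕ) → ℕ → ℕ) (B : ℕ) : Set ((Fin r → ℕ) × ℕ × ℕ) :=
  {t | t.1 ≠ 0 ∧ ∑ i, η i * t.1 i = 0 ∧ t.2.2 < ν t.1 t.2.1 ∧ ∑ i, t.1 i < B}

theorem kap_sum (hsym : ∀ d d' : Fin r → ℕ, ∑ i, η i * d i = 0 → ∑ i, η i * d' i = 0 →
    kap w d d' = kap w d' d) (s : Multiset (Fin r → ℕ)) (h : ∀ x ∈ s, ∑ i, η i * x i = 0) :
    ∑ i, η i * s.sum i = 0 ∧ ∃ P : ℕ, kap w s.sum s.sum = (s.map fun x => kap w x x).sum + 2 * P := by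
  induction s using Multiset.induction_on with
  | empty => exact ⟨by simp, 0, by simp [kap_zero]⟩
  | cons a s ih =>
    obtain ⟨h1, P, h2⟩ := ih fun x hx => h x (by simp [hx])
    have ha := h a (by simp)
    refine ⟨?_, P + kap w a s.sum, ?_⟩
    · simp only [Multiset.sum_cons, Pi.add_apply, Nat.cast_add, mul_add, sum_add_distrib, ha, h1,
        add_zero]
    · simp only [Multiset.sum_cons, Multiset.map_cons, kap_add_left, kap_add_right, h2,
        hsym _ _ h1 ha]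
      ring

theorem pw_eq (s : Multiset ((Fin r → ℕ) × ℕ × ℕ × ℕ)) :
    pw w s = 2 * ((s.map fun x => x.2.1 + x.2.2.2).sum : ℕ) + (∑ i, (s.map (·.1)).sum i : ℕ) -
      ((s.map fun x => kap w x.1 x.1).sum : ℕ) := by
  induction s using Multiset.induction_on with
  | empty => simp [pw]
  | cons a s ih =>
    simp only [pw, Multiset.map_cons, Multiset.sum_cons, Pi.add_apply, sum_add_distrib] at ih ⊢
    rw [ih, sft]
    push_cast
    ring

theorem pa_eq (hsym : ∀ d d' : Fin r → ℕ, ∑ i, η i * d i = 0 → ∑ i, η i * d' i = 0 →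
    kap w d d' = kap w d' d) {d : Fin r → ℕ} {f : K} (h : CK f (PA w ε η ν d) (pw w)) :
    f = ser (sft w d) fun m => (PB w ε η ν d m).ncard := by
  refine h.eq_ser _ _ (fun s hs => ?_) fun m => ?_
  · obtain ⟨-, P, h2⟩ := kap_sum hsym (s.map (·.1)) fun x hx => by
      obtain ⟨y, hy, rfl⟩ := Multiset.mem_map.1 hx
      exact (hs.1 y hy).2.1
    rw [hs.2, Multiset.map_map] at h2
    refine ⟨(s.map fun x => x.2.1 + x.2.2.2).sum + P, ?_⟩
    rw [pw_eq, hs.2, sft, h2]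
    push_cast
    simp only [Function.comp_def]
    ring
  · congr 1
    ext s
    simp only [PA, PB, Set.mem_ofPred_eq, and_assoc]
    refine and_congr_right fun _ => and_congr_right fun e => ?_
    rw [pw_eq, e, sft]
    omega

theorem size_le {s : Multiset ((Fin r → ℕ) × ℕ × ℕ × ℕ)} {x} (hx : x ∈ s) :
    ∑ i, (s.map (·.1)).sum i = ∑ i, x.1 i + ∑ i, ((s.erase x).map (·.1)).sum i := by
  conv_lhs => rw [← Multiset.cons_erase hx]
  simp [sum_add_distrib]

theorem eq_zero_of_size {d : Fin r → ℕ} (h : ∑ i, d i = 0) : d = 0 :=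
  funext fun i => sum_eq_zero_iff.1 h i (mem_univ i)

theorem ck_gens (hw : ∀ d d' : Fin r → ℕ, ∑ i, η i * d i = 0 → ∑ i, η i * d' i = 0 →
    ω.w (io d) (io d') = 0) {B : ℕ} (hB : (TB η ν B).Finite) (d : Fin r → ℕ) :
    CK ((gens ω (orth r) (hB.toFinset.toList.map (gx w ε))).1.f (io d))
      {s | s ∈ PA w ε η ν d ∧ ∀ x ∈ s, ∑ i, x.1 i < B} (pw w) := by
  have m : ∀ t, t ∈ hB.toFinset.toList ↔ t ∈ TB η ν B := fun t => by simp
  refine (ca_list (ω := ω) (C := orth r) (β := (Fin r → ℕ) × ℕ × ℕ × ℕ)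
    (fun t k => (t.1, t.2.1, t.2.2, k)) (fun b => (b.1, b.2.1, b.2.2.1)) (fun b => b.2.2.2)
    (fun _ _ => rfl) (fun _ _ => rfl) (fun _ => rfl) (gx w ε) _ (nodup_toList _)
    (fun t ht => ⟨io_mem _, io_ne ((m t).1 ht).1⟩)
    (fun t ht t' ht' => hw _ _ ((m t).1 ht).2.1 ((m t').1 ht').2.1) (io d)).congr
    (fun s => ?_) fun _ _ => rfl
  have e : (s.map fun b => (gx w ε (b.1, b.2.1, b.2.2.1)).2.2).sum = io (s.map (·.1)).sum := by
    rw [io_sum, Multiset.map_map]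
    rfl
  simp only [Set.mem_ofPred_eq, m, e, io_inj.eq_iff]
  simp only [Set.mem_ofPred_eq, PA, TB, gx, decide_eq_true_eq]
  exact ⟨fun h => ⟨⟨fun x hx => ⟨(h.1 x hx).1.1, (h.1 x hx).1.2.1, (h.1 x hx).1.2.2.1,
    (h.1 x hx).2⟩, h.2⟩, fun x hx => (h.1 x hx).1.2.2.2⟩, fun h => ⟨fun x hx =>
    ⟨⟨(h.1.1 x hx).1, (h.1.1 x hx).2.1, (h.1.1 x hx).2.2.1, h.2 x hx⟩, (h.1.1 x hx).2.2.2⟩, h.1.2⟩⟩

theorem ck_top {d : Fin r → ℕ} (h0 : d ≠ 0) (hd : ∑ i, η i * d i = 0) :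
    CK (cc false 1 * ser (sft w d - 1) (ν d))
      {s | s ∈ PA w ε η ν d ∧ ¬ ∀ x ∈ s, ∑ i, x.1 i < ∑ i, d i} (pw w) := by
  refine ((ck_cc false 1).mul (ck_ser (sft w d - 1) (ν d))).bij
    (e := fun p => {(d, p.2.1, p.2.2, p.1.sum)}) ⟨fun p hp => ⟨⟨fun x hx => ?_, by simp⟩, by simp⟩,
      fun p hp q hq e => ?_, fun s hs => ?_⟩ fun p hp => ?_
  · obtain rfl := Multiset.mem_singleton.1 hx
    exact ⟨h0, hd, hp.2, fun _ => by simp⟩
  · obtain ⟨a, ha⟩ := Multiset.card_eq_one.1 hp.1.1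
    obtain ⟨b, hb⟩ := Multiset.card_eq_one.1 hq.1.1
    simp only [ha, hb, Multiset.sum_singleton, Multiset.singleton_inj, Prod.mk.injEq] at e
    exact Prod.ext (by rw [ha, hb, e.2.2.2]) (Prod.ext e.2.1 e.2.2.1)
  · obtain ⟨⟨h1, h2⟩, h3⟩ := hs
    push Not at h3
    obtain ⟨x, hx, h3⟩ := h3
    have e := size_le hx
    rw [h2] at e
    have e0 : s.erase x = 0 := Multiset.eq_zero_of_forall_notMem fun y hy => by
      have := size_le hy
      exact (h1 y (Multiset.mem_of_mem_erase hy)).1 (eq_zero_of_size (by omega))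
    have e1 : s = {x} := by rw [← Multiset.cons_erase hx, e0]; rfl
    have e2 : x.1 = d := by simpa [e1] using h2
    exact ⟨({x.2.2.2}, x.2.1, x.2.2.1), ⟨⟨rfl, by simp⟩, e2 ▸ (h1 x hx).2.2.1⟩, by
      simp [e1, ← e2]⟩
  · have : (p.1.card : ℤ) = 1 := by exact_mod_cast hp.1.1
    simp only [pw, Multiset.map_singleton, Multiset.sum_singleton, this]
    ring

theorem lemR_core (θ : (Fin r → ℤ) →+ ℚ) (hθ : ∀ d, θ (io d) = ∑ i, η i * d i)
    (hsym : ∀ d d' : Fin r → ℕ, ∑ i, η i * d i = 0 → ∑ i, η i * d' i = 0 →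
      kap w d d' = kap w d' d)
    (hw : ∀ d d' : Fin r → ℕ, ∑ i, η i * d i = 0 → ∑ i, η i * d' i = 0 → ω.w (io d) (io d') = 0)
    (z : G ω (orth r)) (hz : z.1.In {n | θ n = 0})
    (hO : ∀ n, InO ((1 - tp 1) * (ell (orth r).deg z).f n)) (D : ℕ)
    (hv : ∀ d, d ≠ 0 → ∑ i, η i * d i = 0 → ∑ i, d i ≤ D →
      z.1.f (io d) = ser (sft w d) fun m => (PB w ε η ν d m).ncard) :
    ∀ B ≤ D + 1, ∃ hB : (TB η ν B).Finite, A.Cong {n | (orth r).deg n < B} z.1
      (gens ω (orth r) (hB.toFinset.toList.map (gx w ε))).1 := by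
  have cong : ∀ B ≤ D + 1, ∀ hB : (TB η ν B).Finite, A.Cong {n | (orth r).deg n < B} z.1
      (gens ω (orth r) (hB.toFinset.toList.map (gx w ε))).1 := fun B hD hB n hn => by
    by_cases c : n ∈ (orth r).car
    swap
    · rw [A.eq_zero c, A.eq_zero c]
    obtain ⟨d, rfl⟩ := exists_io c
    by_cases h0 : d = 0
    · rw [h0, io_zero, G.f_zero, G.f_zero]
    have hs : ∑ i, d i < B := by
      have : (orth r).deg (io d) < B := hn
      rw [deg_io] at this
      exact_mod_cast this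
    by_cases hd : ∑ i, η i * d i = 0
    · rw [hv d h0 hd (by omega)]
      refine (pa_eq hsym ((ck_gens hw hB d).congr (fun s => ⟨fun a => a.1, fun a => ⟨a, fun x hx =>
        ?_⟩⟩) fun _ _ => rfl)).symm
      have := size_le hx
      rw [a.2] at this
      omega
    · have a1 : z.1.f (io d) = 0 := by_contra fun a => hd ((hθ d).symm.trans (hz _ a))
      have a2 : (gens ω (orth r) (hB.toFinset.toList.map (gx w ε))).1.f (io d) = 0 :=
        by_contra fun a => hd ((hθ d).symm.trans (gens_in (AddMonoidHom.mker θ) (fun x hx => by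
          obtain ⟨t, ht, rfl⟩ := List.mem_map.1 hx
          have ht' : t ∈ TB η ν B := by simpa using ht
          exact (hθ _).trans ht'.2.1) _ a))
      rw [a1, a2]
  intro B
  induction B with
  | zero =>
    have : (TB η ν 0).Finite := Set.Finite.subset Set.finite_empty fun t ht => by simp [TB] at ht
    exact fun h => ⟨this, cong 0 h this⟩
  | succ B ih =>
    intro hD
    obtain ⟨hB, hc⟩ := ih (by omega)
    have fin : ∀ d : Fin r → ℕ, d ≠ 0 → ∑ i, η i * d i = 0 → ∑ i, d i = B →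
        {m | ν d m ≠ 0}.Finite := fun d h0 hd hs => by
      have e1 := pa_eq hsym (((ck_gens (ω := ω) (w := w) (ε := ε) hw hB d).add
        (ck_top (w := w) (ε := ε) (ν := ν) h0 hd)
        (Set.disjoint_left.2 fun s a b => b.2 (hs ▸ a.2))).congr (t := PA w ε η ν d)
        (fun s => ⟨fun a => a.elim (·.1) (·.1), fun a => by
          by_cases c : ∀ x ∈ s, ∑ i, x.1 i < B
          · exact Or.inl ⟨a, c⟩
          · exact Or.inr ⟨a, hs ▸ c⟩⟩) fun _ _ => rfl)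
      rw [← hv d h0 hd (by omega)] at e1
      have e2 := ell_top (Λ := {n | (orth r).deg n ≤ B}) (fun a _ b hb h => by
        have := (orth r).deg_nonneg hb
        simp only [Set.mem_ofPred_eq, map_add] at h ⊢
        omega) ⊤ (orth r).deg (h := z)
        (h' := gens ω (orth r) (hB.toFinset.toList.map (gx w ε))) (fun _ _ => trivial)
        (fun _ _ => trivial) (T := {n | (orth r).deg n = B}) (fun n hn m hm _ m0 => by
          have := (orth r).pos m hm m0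
          simp only [Set.mem_ofPred_eq, map_add] at hn ⊢
          omega) (fun n hn hn' => hc n (lt_of_le_of_ne hn hn')) (io d) (by
          simp only [Set.mem_ofPred_eq, deg_io, hs, le_refl])
      have e3 := (hO (io d)).sub (ell_gens_O (ω := ω) (C := orth r)
        (hB.toFinset.toList.map (gx w ε)) (io d))
      rw [← mul_sub, e2, ← e1, add_sub_cancel_left, zsmul_eq_mul, mul_left_comm] at e3
      have e4 := ((e3.cancel_int ((orth r).pos _ (io_mem d) (io_ne h0)).ne').of_cc.pos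
        (coeff_ser_nat _ _)).finite
      refine (e4.preimage (f := fun m : ℕ => 2 * (m : ℤ) + (sft w d - 1))
        fun a _ b _ h => by simp only at h; omega).subset fun m hm => ?_
      show (ser _ _).coeff _ ≠ 0
      rw [coeff_ser]
      exact_mod_cast hm
    have : (TB η ν (B + 1)).Finite := by
      refine (hB.union (Set.Finite.biUnion (s := {d : Fin r → ℕ | d ≠ 0 ∧ ∑ i, η i * d i = 0 ∧
        ∑ i, d i = B}) ((Set.finite_Iic fun _ => B).subset fun d hd i =>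
          (single_le_sum (fun j _ => Nat.zero_le (d j)) (mem_univ i)).trans hd.2.2.le)
        fun d hd => Set.Finite.biUnion (fin d hd.1 hd.2.1 hd.2.2) fun m _ =>
          (Set.finite_Iio (ν d m)).image fun j => (d, m, j))).subset fun t ht => ?_
      rcases (Nat.lt_succ_iff.1 ht.2.2.2).lt_or_eq with a | a
      · exact Or.inl ⟨ht.1, ht.2.1, ht.2.2.1, a⟩
      · exact Or.inr (Set.mem_biUnion (x := t.1) ⟨ht.1, ht.2.1, a⟩ (Set.mem_biUnion (x := t.2.1)
          (Nat.ne_zero_of_lt ht.2.2.1) ⟨t.2.2, ht.2.2.1, rfl⟩))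
    exact ⟨this, cong _ hD this⟩

end Pool.Agent.Lib.MP_33bfb2_co.Th.RL
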