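import Mathlib

namespace Pool.Agent.Lib.MP_33bfb2_co.Th.R

open MvPolynomial Finset Equiv
open scoped Pointwise

set_option linter.unusedSectionVars false

/-- The polynomial ring in the variables U. -/
abbrev P (U : Type) : Type := MvPolynomial U ℚ

/-- Labels, types and arrow numbers. -/
structure Dat (U I : Type) where
  lab : U → I
  fer : I → Bool
  a : I → I → ℕ

variable {U I : Type} [Fintype U] [LinearOrder U] [DecidableEq I] (D : Dat U I)

/-- Polynomials in the variables of S. -/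
noncomputable def PS (S : Finset U) : Submodule ℚ (P U) :=
  Subalgebra.toSubmodule (supported ℚ (S : Set U))

section PS
omit [Fintype U]

theorem mem_PS {S : Finset U} {f : P U} : f ∈ PS S ↔ f ∈ supported ℚ (S : Set U) := Iff.rfl

theorem PS_mono {S T : Finset U} (h : S ⊆ T) : PS S ≤ PS T :=
  fun _ hf => supported_mono (coe_subset.2 h) hf

theorem mul_mem_PS {S : Finset U} {f g : P U} (hf : f ∈ PS S) (hg : g ∈ PS S) : f * g ∈ PS S :=
  Subalgebra.mul_mem _ hf hg

theorem one_mem_PS (S : Finset U) : (1 : P U) ∈ PS S := Subalgebra.one_mem _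

theorem C_mem_PS (S : Finset U) (c : ℚ) : (C c : P U) ∈ PS S := Subalgebra.algebraMap_mem _ c

theorem X_mem_PS {S : Finset U} {p : U} (h : p ∈ S) : (X p : P U) ∈ PS S :=
  X_mem_supported.2 (mem_coe.2 h)

theorem pow_mem_PS {S : Finset U} {f : P U} (hf : f ∈ PS S) (k : ℕ) : f ^ k ∈ PS S :=
  Subalgebra.pow_mem _ hf k

theorem prod_mem_PS {S : Finset U} {κ : Type} {t : Finset κ} {f : κ → P U}
    (hf : ∀ x ∈ t, f x ∈ PS S) : ∏ x ∈ t, f x ∈ PS S := Subalgebra.prod_mem _ hf

theorem mul_mem_PS_union {S T : Finset U} {f g : P U} (hf : f ∈ PS S) (hg : g ∈ PS T) :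
    f * g ∈ PS (S ∪ T) :=
  mul_mem_PS (PS_mono subset_union_left hf) (PS_mono subset_union_right hg)

theorem PS_induction {S : Finset U} {p : P U → Prop} (hC : ∀ c : ℚ, p (C c))
    (hadd : ∀ f g, f ∈ PS S → g ∈ PS S → p f → p g → p (f + g))
    (hX : ∀ f i, f ∈ PS S → i ∈ S → p f → p (X i * f)) {f : P U} (hf : f ∈ PS S) : p f := by
  have m : ∀ g : MvPolynomial (S : Set U) ℚ, rename Subtype.val g ∈ PS S := fun g => by
    rw [mem_PS, supported_eq_range_rename]; exact ⟨g, rfl⟩
  have k : ∀ g : MvPolynomial (S : Set U) ℚ, p (rename Subtype.val g) := fun g => by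
    induction g using MvPolynomial.induction_on with
    | C c => rw [rename_C]; exact hC c
    | add f g a b => rw [map_add]; exact hadd _ _ (m f) (m g) a b
    | mul_X f i a => rw [map_mul, rename_X, mul_comm]; exact hX _ _ (m f) i.2 a
  rw [mem_PS, supported_eq_range_rename] at hf
  obtain ⟨g, rfl⟩ := hf
  exact k g

theorem prod_smul {M : Type} [CommMonoid M] (g : Perm U) (S : Finset U) (f : U → M) :
    ∏ p ∈ g • S, f p = ∏ p ∈ S, f (g p) := prod_image fun _ _ _ _ h => g.injective h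

theorem sum_smul' {M : Type} [AddCommMonoid M] (g : Perm U) (S : Finset U) (f : U → M) :
    ∑ p ∈ g • S, f p = ∑ p ∈ S, f (g p) := sum_image fun _ _ _ _ h => g.injective h

theorem mem_smul {g : Perm U} {S : Finset U} {p : U} : g p ∈ g • S ↔ p ∈ S :=
  smul_mem_smul_finset_iff g

theorem rename_congr {S : Finset U} {g h : U → U} (e : ∀ p ∈ S, g p = h p) {f : P U}
    (hf : f ∈ PS S) : rename g f = rename h f := by
  refine Algebra.adjoin_induction (p := fun f _ => rename g f = rename h f) ?_ ?_ ?_ ?_ hf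
  · rintro _ ⟨p, hp, rfl⟩; simp [e p hp]
  · intro r; simp
  · intro x y _ _ a b; simp [a, b]
  · intro x y _ _ a b; simp [a, b]

theorem rename_mem (g : Perm U) {S : Finset U} {f : P U} (hf : f ∈ PS S) :
    rename g f ∈ PS (g • S) := by
  refine Algebra.adjoin_induction (p := fun f _ => rename g f ∈ PS (g • S)) ?_ ?_ ?_ ?_ hf
  · rintro _ ⟨p, hp, rfl⟩; rw [rename_X]; exact X_mem_PS (mem_smul.2 hp)
  · intro r; simpa using C_mem_PS _ r
  · intro x y _ _ a b; rw [map_add]; exact add_mem a b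
  · intro x y _ _ a b; rw [map_mul]; exact mul_mem_PS a b

end PS

namespace Dat

/-- The exponent of a pair of variables. -/
def W (p q : U) : ℕ := D.a (D.lab p) (D.lab q)

/-- The degree of the kernel. -/
def kap (A B : Finset U) : ℕ := ∑ p ∈ A, ∑ q ∈ B, D.W p q

/-- The kernel. -/
noncomputable def Kk (A B : Finset U) : P U := ∏ p ∈ A, ∏ q ∈ B, (X p - X q) ^ D.W p q

/-- The sign of a pair of variables. -/
def eta (p q : U) : ℚ := if D.lab p = D.lab q ∧ D.fer (D.lab p) = true ∧ q < p then -1 else 1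

/-- The sign of a pair of sets. -/
def etaS (A B : Finset U) : ℚ := ∏ p ∈ A, ∏ q ∈ B, D.eta p q

/-- The signed kernel. -/
noncomputable def Kt (A B : Finset U) : P U := D.etaS A B • D.Kk A B

/-- The sign of exchanging two blocks. -/
def sw (A B : Finset U) : ℚ := (-1) ^ D.kap A B * (D.etaS A B * D.etaS B A)

/-- Label preserving permutations. -/
def LP (g : Perm U) : Prop := ∀ p, D.lab (g p) = D.lab p

/-- The type of a set of variables. -/
def ty (S : Finset U) : I → ℕ := fun i => #{p ∈ S | D.lab p = i}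

/-- The sign of g on a pair. -/
def xi (g : Perm U) (p q : U) : ℚ := D.eta (g p) (g q) * D.eta p q

/-- The sign of g on S. -/
def eps (S : Finset U) (g : Perm U) : ℚ := ∏ p ∈ S, ∏ q ∈ S, if p < q then D.xi g p q else 1

/-- The twisted action. -/
noncomputable def T (S : Finset U) (g : Perm U) : P U →ₗ[ℚ] P U :=
  D.eps S g • (rename g : P U →ₐ[ℚ] P U).toLinearMap

open Classical in
/-- Label preserving permutations that fix the complement of S. -/
noncomputable def WS (S : Finset U) : Finset (Perm U) := {g | D.LP g ∧ ∀ p, p ∉ S → g p = p}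

/-- The twisted sum over the group of S. -/
noncomputable def Av (S : Finset U) : P U →ₗ[ℚ] P U := ∑ g ∈ D.WS S, D.T S g

/-- Twisted invariants in the variables of S. -/
noncomputable def H (S : Finset U) : Submodule ℚ (P U) where
  carrier := {f | f ∈ PS S ∧ ∀ g ∈ D.WS S, D.T S g f = f}
  zero_mem' := ⟨zero_mem _, fun _ _ => map_zero _⟩
  add_mem' ha hb := ⟨add_mem ha.1 hb.1, fun g hg => by rw [map_add, ha.2 g hg, hb.2 g hg]⟩
  smul_mem' c _ ha := ⟨Submodule.smul_mem _ c ha.1, fun g hg => by rw [map_smul, ha.2 g hg]⟩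

/-- Equivariant families. -/
structure Eqv (v : Finset U → P U) : Prop where
  mem : ∀ S, v S ∈ PS S
  eqv : ∀ g, D.LP g → ∀ S, D.T S g (v S) = v (g • S)

/-- The shuffle product of two families. -/
noncomputable def sh (v w : Finset U → P U) (S : Finset U) : P U :=
  ∑ b ∈ S.powerset, v b * D.Kt b (S \ b) * w (S \ b)

/-- The unit family. -/
noncomputable def one (S : Finset U) : P U := if S = ∅ then 1 else 0

/-- The word of a list of families. -/
noncomputable def word : List (Finset U → P U) → Finset U → P U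
  | [] => one
  | v :: l => D.sh v (word l)

section Ker
omit [Fintype U]
variable {D}

theorem LP.mul {g h : Perm U} (hg : D.LP g) (hh : D.LP h) : D.LP (g * h) :=
  fun p => by rw [Perm.mul_apply, hg, hh]
theorem LP.inv {g : Perm U} (hg : D.LP g) : D.LP g⁻¹ :=
  fun p => by rw [← hg (g⁻¹ p)]; simp
theorem LP.W {g : Perm U} (hg : D.LP g) (p q : U) : D.W (g p) (g q) = D.W p q := by
  rw [Dat.W, Dat.W, hg, hg]

variable (D)

theorem LP_one : D.LP 1 := fun _ => rfl

theorem kap_union_left {A A' : Finset U} (h : Disjoint A A') (B : Finset U) :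
    D.kap (A ∪ A') B = D.kap A B + D.kap A' B := sum_union h
theorem kap_union_right (A : Finset U) {B B' : Finset U} (h : Disjoint B B') :
    D.kap A (B ∪ B') = D.kap A B + D.kap A B' := by
  simp only [kap, sum_union h, sum_add_distrib]
theorem Kk_union_left {A A' : Finset U} (h : Disjoint A A') (B : Finset U) :
    D.Kk (A ∪ A') B = D.Kk A B * D.Kk A' B := prod_union h
theorem Kk_union_right (A : Finset U) {B B' : Finset U} (h : Disjoint B B') :
    D.Kk A (B ∪ B') = D.Kk A B * D.Kk A B' := by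
  simp only [Kk, prod_union h, prod_mul_distrib]
theorem etaS_union_left {A A' : Finset U} (h : Disjoint A A') (B : Finset U) :
    D.etaS (A ∪ A') B = D.etaS A B * D.etaS A' B := prod_union h
theorem etaS_union_right (A : Finset U) {B B' : Finset U} (h : Disjoint B B') :
    D.etaS A (B ∪ B') = D.etaS A B * D.etaS A B' := by
  simp only [etaS, prod_union h, prod_mul_distrib]
theorem Kt_union_left {A A' : Finset U} (h : Disjoint A A') (B : Finset U) :
    D.Kt (A ∪ A') B = D.Kt A B * D.Kt A' B := by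
  rw [Kt, Kt, Kt, etaS_union_left _ h, Kk_union_left _ h, smul_mul_smul_comm]
theorem Kt_union_right (A : Finset U) {B B' : Finset U} (h : Disjoint B B') :
    D.Kt A (B ∪ B') = D.Kt A B * D.Kt A B' := by
  rw [Kt, Kt, Kt, etaS_union_right _ _ h, Kk_union_right _ _ h, smul_mul_smul_comm]
@[simp] theorem kap_empty_left (B : Finset U) : D.kap ∅ B = 0 := by simp [kap]
@[simp] theorem kap_empty_right (A : Finset U) : D.kap A ∅ = 0 := by simp [kap]
@[simp] theorem Kk_empty_left (B : Finset U) : D.Kk ∅ B = 1 := by simp [Kk]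
@[simp] theorem Kk_empty_right (A : Finset U) : D.Kk A ∅ = 1 := by simp [Kk]
@[simp] theorem Kt_empty_left (B : Finset U) : D.Kt ∅ B = 1 := by simp [Kt, etaS]
@[simp] theorem Kt_empty_right (A : Finset U) : D.Kt A ∅ = 1 := by simp [Kt, etaS]

theorem Kk_mem (A B : Finset U) : D.Kk A B ∈ PS (A ∪ B) :=
  prod_mem_PS fun _ hp => prod_mem_PS fun _ hq => pow_mem_PS (sub_mem
    (X_mem_PS (mem_union_left _ hp)) (X_mem_PS (mem_union_right _ hq))) _
theorem Kt_mem (A B : Finset U) : D.Kt A B ∈ PS (A ∪ B) := Submodule.smul_mem _ _ (D.Kk_mem A B)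

theorem Kk_hom (A B : Finset U) : (D.Kk A B).IsHomogeneous (D.kap A B) :=
  IsHomogeneous.prod _ _ _ fun p _ => IsHomogeneous.prod _ _ _ fun q _ => by
    simpa using ((isHomogeneous_X ℚ p).sub (isHomogeneous_X ℚ q)).pow (D.W p q)
theorem Kt_hom (A B : Finset U) : (D.Kt A B).IsHomogeneous (D.kap A B) :=
  (homogeneousSubmodule U ℚ _).smul_mem _ (D.Kk_hom A B)

theorem Kk_dvd {A B A' B' : Finset U} (hA : A ⊆ A') (hB : B ⊆ B') : D.Kk A B ∣ D.Kk A' B' :=
  (prod_dvd_prod_of_dvd _ _ fun _ _ => prod_dvd_prod_of_subset _ _ _ hB).trans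
    (prod_dvd_prod_of_subset _ _ _ hA)

theorem eta_sq (p q : U) : D.eta p q * D.eta p q = 1 := by
  unfold eta; split_ifs <;> norm_num
theorem etaS_sq (A B : Finset U) : D.etaS A B * D.etaS A B = 1 := by
  simp only [etaS, ← prod_mul_distrib, eta_sq, prod_const_one]
theorem etaS_ne (A B : Finset U) : D.etaS A B ≠ 0 := left_ne_zero_of_mul_eq_one (D.etaS_sq A B)
theorem sw_sq (A B : Finset U) : D.sw A B * D.sw A B = 1 := by
  have a := D.etaS_sq A B
  have b := D.etaS_sq B A
  have c : ((-1 : ℚ) ^ D.kap A B) * (-1) ^ D.kap A B = 1 := by rw [← mul_pow]; simp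
  unfold sw
  linear_combination (D.etaS A B * D.etaS A B * (D.etaS B A * D.etaS B A)) * c +
    (D.etaS B A * D.etaS B A) * a + b
theorem Kk_eq (A B : Finset U) : D.Kk A B = D.etaS A B • D.Kt A B := by
  rw [Kt, smul_smul, etaS_sq, one_smul]

theorem Kt_sub (A B : Finset U) : D.Kt A B - D.sw A B • D.Kt B A =
    D.etaS A B • (D.Kk A B - ((-1 : ℚ) ^ D.kap A B) • D.Kk B A) := by
  rw [Kt, Kt, smul_sub, smul_smul, smul_smul, sw]
  congr 2
  linear_combination ((-1 : ℚ) ^ D.kap A B * D.etaS A B) * D.etaS_sq B A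

theorem xi_sq (g : Perm U) (p q : U) : D.xi g p q * D.xi g p q = 1 := by
  unfold xi
  linear_combination (D.eta p q * D.eta p q) * D.eta_sq (g p) (g q) + D.eta_sq p q

theorem eta_mul_swap {p q : U} (h : p ≠ q) :
    D.eta p q * D.eta q p = if D.lab p = D.lab q ∧ D.fer (D.lab p) = true then -1 else 1 := by
  unfold eta
  by_cases e : D.lab p = D.lab q
  · rcases lt_or_gt_of_ne h with a | a <;> by_cases f : D.fer (D.lab q) = true <;>
      simp [e, f, a, a.not_gt]
  · simp [e, Ne.symm e]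

variable {D}

theorem xi_symm {g : Perm U} (hg : D.LP g) {p q : U} (h : p ≠ q) : D.xi g p q = D.xi g q p := by
  have a := D.eta_mul_swap h
  have b := D.eta_mul_swap (g.injective.ne h)
  rw [hg, hg, ← a] at b
  unfold xi
  linear_combination (D.eta (g q) (g p) * D.eta p q) * b -
    (D.eta (g p) (g q) * D.eta p q) * D.eta_sq (g q) (g p) +
    (D.eta (g q) (g p) * D.eta q p) * D.eta_sq p q

theorem eps_union {g : Perm U} (hg : D.LP g) {A B : Finset U} (h : Disjoint A B) :
    D.eps (A ∪ B) g = D.eps A g * D.eps B g * (D.etaS (g • A) (g • B) * D.etaS A B) := by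
  have e : (∏ p ∈ A, ∏ q ∈ B, if p < q then D.xi g p q else 1) *
      (∏ p ∈ B, ∏ q ∈ A, if p < q then D.xi g p q else 1) =
      D.etaS (g • A) (g • B) * D.etaS A B := by
    rw [prod_comm (s := B)]
    simp only [etaS, prod_smul, ← prod_mul_distrib]
    refine prod_congr rfl fun p hp => prod_congr rfl fun q hq => ?_
    have ne : p ≠ q := fun e => disjoint_left.1 h hp (e ▸ hq)
    rcases lt_or_gt_of_ne ne with a | a
    · rw [if_pos a, if_neg a.not_gt, mul_one]; rfl
    · rw [if_neg a.not_gt, if_pos a, one_mul, ← xi_symm hg ne]; rfl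
  simp only [eps, prod_union h, prod_mul_distrib]
  rw [← e]; ring

theorem eps_congr {S : Finset U} {g h : Perm U} (e : ∀ p ∈ S, g p = h p) :
    D.eps S g = D.eps S h :=
  prod_congr rfl fun p hp => prod_congr rfl fun q hq => by rw [xi, xi, e p hp, e q hq]

theorem eps_fix {S : Finset U} {g : Perm U} (e : ∀ p ∈ S, g p = p) : D.eps S g = 1 :=
  prod_eq_one fun p hp => prod_eq_one fun q hq => by rw [xi, e p hp, e q hq, eta_sq, ite_self]

theorem eps_sq (S : Finset U) (g : Perm U) : D.eps S g * D.eps S g = 1 := by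
  simp only [eps, ← prod_mul_distrib]
  refine prod_eq_one fun p _ => prod_eq_one fun q _ => ?_
  split_ifs
  · exact D.xi_sq g p q
  · simp

theorem eps_mul {g h : Perm U} (hg : D.LP g) (hh : D.LP h) (S : Finset U) :
    D.eps S (g * h) = D.eps (h • S) g * D.eps S h := by
  induction S using Finset.induction_on with
  | empty => simp [eps]
  | insert p S hp ih =>
    have d : Disjoint {p} S := disjoint_singleton_left.2 hp
    have d' : Disjoint (h • ({p} : Finset U)) (h • S) := by
      rw [smul_finset_singleton]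
      exact disjoint_singleton_left.2 fun e => hp (mem_smul.1 e)
    have s : ∀ (x : U) (k : Perm U), D.eps {x} k = 1 := fun x k => by simp [eps]
    rw [insert_eq, smul_finset_union, eps_union (hg.mul hh) d, eps_union hh d, eps_union hg d', ih,
      mul_smul, mul_smul, smul_finset_singleton, s, s, s]
    linear_combination (- D.eps (h • S) g * D.eps S h * D.etaS (g • {h • p}) (g • h • S) *
      D.etaS {p} S) * D.etaS_sq {h • p} (h • S)

theorem kap_smul {g : Perm U} (hg : D.LP g) (A B : Finset U) :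
    D.kap (g • A) (g • B) = D.kap A B := by simp only [kap, sum_smul', hg.W]

theorem rename_Kk {g : Perm U} (hg : D.LP g) (A B : Finset U) :
    rename g (D.Kk A B) = D.Kk (g • A) (g • B) := by simp [Kk, prod_smul, hg.W]

theorem T_apply (S : Finset U) (g : Perm U) (f : P U) : D.T S g f = D.eps S g • rename g f := rfl

theorem T_mem (g : Perm U) {S S' : Finset U} {f : P U} (hf : f ∈ PS S) :
    D.T S' g f ∈ PS (g • S) := Submodule.smul_mem _ _ (rename_mem g hf)

theorem T_congr {S : Finset U} {g h : Perm U} (e : ∀ p ∈ S, g p = h p) {f : P U}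
    (hf : f ∈ PS S) : D.T S g f = D.T S h f := by
  rw [T_apply, T_apply, eps_congr e, rename_congr e hf]

theorem T_one (S : Finset U) (f : P U) : D.T S 1 f = f := by
  rw [T_apply, eps_fix fun _ _ => rfl]; simp

theorem T_fix {S : Finset U} {g : Perm U} (e : ∀ p ∈ S, g p = p) {f : P U}
    (hf : f ∈ PS S) : D.T S g f = f := (T_congr (h := 1) e hf).trans (T_one S f)

theorem T_T {g h : Perm U} (hg : D.LP g) (hh : D.LP h) (S : Finset U) (f : P U) :
    D.T (h • S) g (D.T S h f) = D.T S (g * h) f := by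
  rw [T_apply, T_apply, T_apply, map_smul, smul_smul, rename_rename, eps_mul hg hh]; rfl

theorem T_mul {g : Perm U} (hg : D.LP g) {A B : Finset U} (h : Disjoint A B) (f f' : P U) :
    D.T (A ∪ B) g (f * D.Kt A B * f') = D.T A g f * D.Kt (g • A) (g • B) * D.T B g f' := by
  simp only [T_apply, Kt, map_mul, map_smul, rename_Kk hg, eps_union hg h, smul_mul_assoc,
    mul_smul_comm, smul_smul]
  congr 1
  linear_combination (D.eps A g * D.eps B g * D.etaS (g • A) (g • B)) * D.etaS_sq A B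

theorem T_hom (S : Finset U) (g : Perm U) {f : P U} {m : ℕ} (hf : f.IsHomogeneous m) :
    (D.T S g f).IsHomogeneous m :=
  (homogeneousSubmodule U ℚ _).smul_mem _ hf.rename_isHomogeneous

theorem ty_smul {g : Perm U} (hg : D.LP g) (S : Finset U) : D.ty (g • S) = D.ty S := by
  funext i
  simp only [ty, card_filter, sum_smul', hg _]

theorem ty_union {A B : Finset U} (h : Disjoint A B) : D.ty (A ∪ B) = D.ty A + D.ty B := by
  funext i
  simp only [ty, card_filter, sum_union h, Pi.add_apply]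

theorem ty_sdiff {A S : Finset U} (h : A ⊆ S) : D.ty A + D.ty (S \ A) = D.ty S := by
  rw [← ty_union disjoint_sdiff, union_sdiff_of_subset h]

@[simp] theorem ty_empty : D.ty ∅ = 0 := by funext i; simp [ty]

theorem ty_eq_zero {S : Finset U} : D.ty S = 0 ↔ S = ∅ := by
  refine ⟨fun h => eq_empty_of_forall_notMem fun p hp => ?_, fun h => h ▸ ty_empty⟩
  have := congrFun h (D.lab p)
  simp only [ty, Pi.zero_apply, card_eq_zero, filter_eq_empty_iff] at this
  exact this hp rfl

end Ker

section Grp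
variable {D}

theorem mem_WS {S : Finset U} {g : Perm U} : g ∈ D.WS S ↔ D.LP g ∧ ∀ p, p ∉ S → g p = p := by
  simp [WS]

theorem one_mem_WS (S : Finset U) : (1 : Perm U) ∈ D.WS S := mem_WS.2 ⟨D.LP_one, fun _ _ => rfl⟩

theorem mul_mem_WS {S : Finset U} {g h : Perm U} (hg : g ∈ D.WS S) (hh : h ∈ D.WS S) :
    g * h ∈ D.WS S := by
  rw [mem_WS] at *
  exact ⟨hg.1.mul hh.1, fun p hp => by rw [Perm.mul_apply, hh.2 p hp, hg.2 p hp]⟩

theorem inv_mem_WS {S : Finset U} {g : Perm U} (hg : g ∈ D.WS S) : g⁻¹ ∈ D.WS S := by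
  rw [mem_WS] at *
  exact ⟨hg.1.inv, fun p hp => by rw [Perm.inv_eq_iff_eq, hg.2 p hp]⟩

theorem WS_mono {S S' : Finset U} (h : S ⊆ S') : D.WS S ⊆ D.WS S' := fun _ hg =>
  mem_WS.2 ⟨(mem_WS.1 hg).1, fun p hp => (mem_WS.1 hg).2 p fun e => hp (h e)⟩

theorem smul_of_fix {S : Finset U} {g : Perm U} (e : ∀ p ∈ S, g p = p) : g • S = S := by
  rw [smul_finset_def, image_congr (f := fun x => g • x) (g := id) fun p hp => e p hp, image_id]

theorem WS_smul {S : Finset U} {g : Perm U} (hg : g ∈ D.WS S) : g • S = S := by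
  have := smul_of_fix (S := univ \ S) (g := g) fun p hp => (mem_WS.1 hg).2 p (mem_sdiff.1 hp).2
  rw [smul_finset_sdiff, smul_finset_univ] at this
  simpa using congrArg (univ \ ·) this

theorem card_WS_ne (S : Finset U) : (#(D.WS S) : ℚ) ≠ 0 :=
  Nat.cast_ne_zero.2 (card_pos.2 ⟨1, one_mem_WS S⟩).ne'

theorem Av_apply (S : Finset U) (f : P U) : D.Av S f = ∑ g ∈ D.WS S, D.T S g f := by
  simp [Av, LinearMap.sum_apply]

theorem Av_T {S : Finset U} {h : Perm U} (hh : h ∈ D.WS S) (f : P U) :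
    D.Av S (D.T S h f) = D.Av S f := by
  rw [Av_apply, Av_apply]
  refine sum_nbij' (· * h) (· * h⁻¹) (fun g hg => mul_mem_WS hg hh)
    (fun g hg => mul_mem_WS hg (inv_mem_WS hh)) (by simp) (by simp) fun g hg => ?_
  rw [← T_T (mem_WS.1 hg).1 (mem_WS.1 hh).1, WS_smul hh]

theorem T_Av {S : Finset U} {h : Perm U} (hh : h ∈ D.WS S) (f : P U) :
    D.T S h (D.Av S f) = D.Av S f := by
  rw [Av_apply, map_sum]
  refine sum_nbij' (h * ·) (h⁻¹ * ·) (fun g hg => mul_mem_WS hh hg)
    (fun g hg => mul_mem_WS (inv_mem_WS hh) hg) (by simp) (by simp) fun g hg => ?_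
  rw [← T_T (mem_WS.1 hh).1 (mem_WS.1 hg).1, WS_smul hg]

theorem mem_H {S : Finset U} {f : P U} :
    f ∈ D.H S ↔ f ∈ PS S ∧ ∀ g ∈ D.WS S, D.T S g f = f := Iff.rfl

theorem H_le_PS (S : Finset U) : D.H S ≤ PS S := fun _ h => h.1

theorem Av_mem {S : Finset U} {N : Submodule ℚ (P U)} {f : P U}
    (h : ∀ g ∈ D.WS S, rename g f ∈ N) : D.Av S f ∈ N := by
  rw [Av_apply]
  exact sum_mem fun g hg => N.smul_mem _ (h g hg)

theorem Av_mem_PS {S : Finset U} {f : P U} (hf : f ∈ PS S) : D.Av S f ∈ PS S :=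
  Av_mem fun g hg => WS_smul hg ▸ rename_mem g hf

theorem Av_mem_H {S : Finset U} {f : P U} (hf : f ∈ PS S) : D.Av S f ∈ D.H S :=
  ⟨Av_mem_PS hf, fun _ hg => T_Av hg f⟩

theorem Av_of_mem_H {S : Finset U} {f : P U} (hf : f ∈ D.H S) :
    D.Av S f = (#(D.WS S) : ℚ) • f := by
  rw [Av_apply, sum_congr rfl hf.2, sum_const, Nat.cast_smul_eq_nsmul]

theorem Av_hom (S : Finset U) {f : P U} {m : ℕ} (hf : f.IsHomogeneous m) :
    (D.Av S f).IsHomogeneous m :=
  Av_mem (N := homogeneousSubmodule U ℚ m) fun _ _ => hf.rename_isHomogeneous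

/-- Averaging the left factor. -/
theorem Av_left {S b : Finset U} (hb : b ⊆ S) (f : P U) {f' : P U} (hf' : f' ∈ PS (S \ b)) :
    D.Av S (D.Av b f * D.Kt b (S \ b) * f') = (#(D.WS b) : ℚ) • D.Av S (f * D.Kt b (S \ b) * f') := by
  rw [Av_apply b, sum_mul, sum_mul, map_sum, Nat.cast_smul_eq_nsmul, ← sum_const]
  refine sum_congr rfl fun g hg => ?_
  have e : ∀ p ∈ S \ b, g p = p := fun p hp => (mem_WS.1 hg).2 p (mem_sdiff.1 hp).2
  have := T_mul (mem_WS.1 hg).1 (disjoint_sdiff (s := b) (t := S)) f f'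
  rw [union_sdiff_of_subset hb, WS_smul hg, smul_of_fix e, T_fix e hf'] at this
  rw [← this, Av_T (WS_mono hb hg)]

/-- Averaging the right factor. -/
theorem Av_right {S b : Finset U} (hb : b ⊆ S) {f : P U} (hf : f ∈ PS b) (f' : P U) :
    D.Av S (f * D.Kt b (S \ b) * D.Av (S \ b) f') =
      (#(D.WS (S \ b)) : ℚ) • D.Av S (f * D.Kt b (S \ b) * f') := by
  rw [Av_apply (S \ b), mul_sum, map_sum, Nat.cast_smul_eq_nsmul, ← sum_const]
  refine sum_congr rfl fun g hg => ?_
  have e : ∀ p ∈ b, g p = p := fun p hp => (mem_WS.1 hg).2 p fun a => (mem_sdiff.1 a).2 hp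
  have := T_mul (mem_WS.1 hg).1 (disjoint_sdiff (s := b) (t := S)) f f'
  rw [union_sdiff_of_subset hb, WS_smul hg, smul_of_fix e, T_fix e hf] at this
  rw [← this, Av_T (WS_mono sdiff_subset hg)]

theorem exists_equiv {α β γ : Type} [DecidableEq γ] (s : Finset α) (t : Finset β) (f : α → γ)
    (g : β → γ) (h : ∀ c, #{x ∈ s | f x = c} = #{y ∈ t | g y = c}) :
    ∃ e : s ≃ t, ∀ x, g (e x) = f x := by
  classical
  have : ∀ c, Nonempty ({x : s // f x = c} ≃ {y : t // g y = c}) := fun c => by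
    refine Fintype.card_eq.1 ?_
    rw [Fintype.card_subtype, Fintype.card_subtype]
    have a := congrArg card (filter_attach (fun x => f x = c) s)
    have b := congrArg card (filter_attach (fun x => g x = c) t)
    rw [card_map, card_attach] at a b
    exact a.trans ((h c).trans b.symm)
  exact ⟨Equiv.ofFiberEquiv (f := fun x : s => f x) (g := fun y : t => g y)
    fun c => (this c).some, fun x => Equiv.ofFiberEquiv_map (f := fun x : s => f x)
      (g := fun y : t => g y) _ x⟩

theorem exists_WS {S A B : Finset U} (hA : A ⊆ S) (hB : B ⊆ S) (h : D.ty A = D.ty B) :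
    ∃ g ∈ D.WS S, g • A = B := by
  classical
  have h' : D.ty (S \ A) = D.ty (S \ B) :=
    add_left_cancel (a := D.ty A) (by rw [ty_sdiff hA, h, ty_sdiff hB])
  obtain ⟨e, he⟩ := exists_equiv S S (fun p => (D.lab p, decide (p ∈ A)))
    (fun p => (D.lab p, decide (p ∈ B))) fun ⟨i, c⟩ => by
      have k : ∀ A ⊆ S, #{x ∈ S | (D.lab x, decide (x ∈ A)) = (i, c)} =
          if c then D.ty A i else D.ty (S \ A) i := fun A hA => by
        cases c
        · exact congrArg card (by ext p; simp; tauto)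
        · exact congrArg card (by ext p; have := @hA p; simp; tauto)
      rw [k A hA, k B hB, h, h']
  have l : ∀ p (hp : p ∈ S), Perm.ofSubtype e p = e ⟨p, hp⟩ := fun p hp =>
    Perm.ofSubtype_apply_of_mem e hp
  refine ⟨Perm.ofSubtype e, mem_WS.2 ⟨fun p => ?_, fun p hp =>
    Perm.ofSubtype_apply_of_not_mem e hp⟩, ?_⟩
  · by_cases hp : p ∈ S
    · rw [l p hp]; exact congrArg Prod.fst (he ⟨p, hp⟩)
    · rw [Perm.ofSubtype_apply_of_not_mem e hp]
  · refine eq_of_subset_of_card_le (fun q hq => ?_) ?_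
    · obtain ⟨p, hp, rfl⟩ := mem_smul_finset.1 hq
      have := congrArg Prod.snd (he ⟨p, hA hp⟩)
      simp only [hp, decide_true, decide_eq_true_eq] at this
      rwa [Perm.smul_def, l p (hA hp)]
    · rw [card_smul_finset, card_eq_sum_card_fiberwise (f := D.lab) (t := image D.lab S)
        fun p hp => mem_image_of_mem _ (hA hp), card_eq_sum_card_fiberwise (f := D.lab)
        (t := image D.lab S) fun p hp => mem_image_of_mem _ (hB hp)]
      exact (sum_congr rfl fun i _ => (congrFun h i).symm).le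

theorem exists_LP {A B : Finset U} (h : D.ty A = D.ty B) : ∃ g, D.LP g ∧ g • A = B :=
  let ⟨g, hg, e⟩ := exists_WS (subset_univ A) (subset_univ B) h
  ⟨g, (mem_WS.1 hg).1, e⟩

theorem card_eq_of_ty {A B : Finset U} (h : D.ty A = D.ty B) : #A = #B := by
  obtain ⟨g, -, rfl⟩ := exists_LP h
  rw [card_smul_finset]

theorem T_H {g : Perm U} (hg : D.LP g) {S : Finset U} {f : P U} (hf : f ∈ D.H S) :
    D.T S g f ∈ D.H (g • S) := by
  refine ⟨T_mem g hf.1, fun k hk => ?_⟩
  have m : g⁻¹ * k * g ∈ D.WS S := mem_WS.2 ⟨(hg.inv.mul (mem_WS.1 hk).1).mul hg, fun p hp => by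
    rw [Perm.mul_apply, Perm.mul_apply, (mem_WS.1 hk).2 _ fun e => hp (mem_smul.1 e)]; simp⟩
  have := T_T hg (mem_WS.1 m).1 S f
  rw [WS_smul m, hf.2 _ m] at this
  rw [T_T (mem_WS.1 hk).1 hg, this]
  congr 2
  group

theorem T_canon {g h : Perm U} (hg : D.LP g) (hh : D.LP h) {S : Finset U} (e : g • S = h • S)
    {f : P U} (hf : f ∈ D.H S) : D.T S g f = D.T S h f := by
  classical
  have e' : ∀ p, (h⁻¹ * g) p ∈ S ↔ p ∈ S := fun p => by
    rw [← mem_smul (g := h), ← e]; simp [mem_smul]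
  have m : Perm.ofSubtype ((h⁻¹ * g).subtypePerm e') ∈ D.WS S := mem_WS.2 ⟨fun p => by
    by_cases hp : p ∈ S
    · rw [Perm.ofSubtype_subtypePerm_of_mem _ hp]; exact (hh.inv.mul hg) p
    · rw [Perm.ofSubtype_apply_of_not_mem _ hp], fun p hp => Perm.ofSubtype_apply_of_not_mem _ hp⟩
  have := T_T hh (mem_WS.1 m).1 S f
  rw [WS_smul m, hf.2 _ m] at this
  rw [this]
  refine T_congr (fun p hp => ?_) hf.1
  rw [Perm.mul_apply, Perm.ofSubtype_subtypePerm_of_mem _ hp]; simp

end Grp

section Fam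
variable {D}

theorem Eqv.mem_H {v : Finset U → P U} (hv : D.Eqv v) (S : Finset U) : v S ∈ D.H S :=
  ⟨hv.mem S, fun g hg => by rw [hv.eqv g (mem_WS.1 hg).1, WS_smul hg]⟩

theorem term_mem {v w : Finset U → P U} (hv : D.Eqv v) (hw : D.Eqv w) {S b : Finset U}
    (hb : b ⊆ S) : v b * D.Kt b (S \ b) * w (S \ b) ∈ PS S :=
  mul_mem_PS (mul_mem_PS (PS_mono hb (hv.mem b))
    (PS_mono (union_subset hb sdiff_subset) (D.Kt_mem b (S \ b))))
    (PS_mono sdiff_subset (hw.mem _))

theorem T_term {v w : Finset U → P U} (hv : D.Eqv v) (hw : D.Eqv w) {g : Perm U} (hg : D.LP g)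
    {S b : Finset U} (hb : b ⊆ S) : D.T S g (v b * D.Kt b (S \ b) * w (S \ b)) =
      v (g • b) * D.Kt (g • b) (g • S \ g • b) * w (g • S \ g • b) := by
  have := T_mul hg (disjoint_sdiff (s := b) (t := S)) (v b) (w (S \ b))
  rwa [union_sdiff_of_subset hb, hv.eqv g hg, hw.eqv g hg, smul_finset_sdiff] at this

theorem Eqv.sh {v w : Finset U → P U} (hv : D.Eqv v) (hw : D.Eqv w) : D.Eqv (D.sh v w) := by
  refine ⟨fun S => sum_mem fun b hb => term_mem hv hw (mem_powerset.1 hb), fun g hg S => ?_⟩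
  rw [Dat.sh, Dat.sh, map_sum]
  refine sum_nbij' (g • ·) (g⁻¹ • ·) (fun b hb => ?_) (fun b hb => ?_) (by simp) (by simp)
    fun b hb => T_term hv hw hg (mem_powerset.1 hb)
  · exact mem_powerset.2 (smul_finset_subset_smul_finset (mem_powerset.1 hb))
  · exact mem_powerset.2 (smul_finset_subset_iff.2 (by simpa using hb))

theorem Eqv_one : D.Eqv one := by
  refine ⟨fun S => ?_, fun g _ S => ?_⟩
  · unfold one; split_ifs; exacts [one_mem_PS S, zero_mem _]
  · by_cases e : S = ∅
    · subst e; simp [one, T_apply, eps]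
    · simp [one, e]

theorem Eqv_word {l : List (Finset U → P U)} (h : ∀ v ∈ l, D.Eqv v) : D.Eqv (D.word l) := by
  induction l with
  | nil => exact Eqv_one
  | cons v l ih => exact (h v List.mem_cons_self).sh (ih fun w hw => h w (List.mem_cons_of_mem _ hw))

theorem one_sh (w : Finset U → P U) : D.sh one w = w := by
  funext S
  rw [sh, sum_eq_single ∅ (fun b _ e => by simp [one, e]) (by simp)]
  simp [one]

theorem sh_one (v : Finset U → P U) : D.sh v one = v := by
  funext S
  rw [sh, sum_eq_single S (fun b hb e => by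
    rw [one, if_neg fun a => e (subset_antisymm (mem_powerset.1 hb) (sdiff_eq_empty_iff_subset.1 a)),
      mul_zero]) (by simp)]
  simp [one]

theorem sh_assoc (u v w : Finset U → P U) : D.sh (D.sh u v) w = D.sh u (D.sh v w) := by
  funext S
  simp only [sh, sum_mul, mul_sum]
  rw [sum_sigma', sum_sigma']
  refine sum_nbij' (fun x => ⟨x.2, x.1 \ x.2⟩) (fun x => ⟨x.1 ∪ x.2, x.1⟩) ?_ ?_ ?_ ?_ ?_
  · rintro ⟨b, c⟩ h
    simp only [mem_sigma, mem_powerset] at h ⊢
    exact ⟨h.2.trans h.1, sdiff_subset_sdiff h.1 Subset.rfl⟩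
  · rintro ⟨b, c⟩ h
    simp only [mem_sigma, mem_powerset] at h ⊢
    exact ⟨union_subset h.1 (h.2.trans sdiff_subset), subset_union_left⟩
  · rintro ⟨b, c⟩ h
    simp only [mem_sigma, mem_powerset] at h
    simp [union_sdiff_of_subset h.2]
  · rintro ⟨b, c⟩ h
    simp only [mem_sigma, mem_powerset] at h
    simp [union_sdiff_cancel_left (disjoint_of_subset_right h.2 disjoint_sdiff)]
  · rintro ⟨b, c⟩ h
    simp only [mem_sigma, mem_powerset] at h
    have e1 : (S \ c) \ (b \ c) = S \ b := by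
      ext x; have := @h.2 x; simp only [mem_sdiff]; tauto
    have e2 : S \ c = (b \ c) ∪ (S \ b) := by
      ext x; have := @h.2 x; have := @h.1 x; simp only [mem_sdiff, mem_union]; tauto
    have e3 : D.Kt b (S \ b) = D.Kt c (S \ b) * D.Kt (b \ c) (S \ b) := by
      rw [← Kt_union_left _ disjoint_sdiff, union_sdiff_of_subset h.2]
    have e4 : D.Kt c (S \ c) = D.Kt c (b \ c) * D.Kt c (S \ b) := by
      rw [e2, Kt_union_right _ _ (disjoint_of_subset_left sdiff_subset disjoint_sdiff)]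
    simp only [e1, e3, e4]
    ring

theorem word_append (l l' : List (Finset U → P U)) :
    D.word (l ++ l') = D.sh (D.word l) (D.word l') := by
  induction l with
  | nil => exact (one_sh _).symm
  | cons v l ih => rw [List.cons_append, word, word, ih, sh_assoc]

/-- The average of one term is a multiple of the shuffle product. -/
theorem Av_term {v w : Finset U → P U} (hv : D.Eqv v) (hw : D.Eqv w) {S b : Finset U} (hb : b ⊆ S)
    (h0 : ∀ c, D.ty c ≠ D.ty b → v c = 0) :
    ∃ x : ℚ, x ≠ 0 ∧ D.Av S (v b * D.Kt b (S \ b) * w (S \ b)) = x • D.sh v w S := by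
  classical
  have a := Av_of_mem_H ((hv.sh hw).mem_H S)
  have n : (#{c ∈ S.powerset | D.ty c = D.ty b} : ℚ) ≠ 0 :=
    Nat.cast_ne_zero.2 (card_pos.2 ⟨b, by simpa using hb⟩).ne'
  have e : D.Av S (D.sh v w S) = (#{c ∈ S.powerset | D.ty c = D.ty b} : ℚ) •
      D.Av S (v b * D.Kt b (S \ b) * w (S \ b)) := by
    rw [sh, map_sum, Nat.cast_smul_eq_nsmul, ← sum_const, sum_filter]
    refine sum_congr rfl fun c hc => ?_
    split_ifs with h
    · obtain ⟨g, hg, rfl⟩ := exists_WS hb (mem_powerset.1 hc) h.symm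
      have := T_term hv hw (mem_WS.1 hg).1 hb
      rw [WS_smul hg] at this
      rw [← this, Av_T hg]
    · simp [h0 c h]
  refine ⟨(#{c ∈ S.powerset | D.ty c = D.ty b} : ℚ)⁻¹ * #(D.WS S),
    mul_ne_zero (inv_ne_zero n) (card_WS_ne S), ?_⟩
  rw [mul_smul, ← a, e, inv_smul_smul₀ n]

variable (D) in
open Classical in
/-- The family generated by an element. -/
noncomputable def fam (b : Finset U) (f : P U) (c : Finset U) : P U :=
  if h : D.ty b = D.ty c then D.T b (exists_LP h).choose f else 0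

theorem fam_of_ne {b c : Finset U} (f : P U) (h : D.ty c ≠ D.ty b) : D.fam b f c = 0 :=
  dif_neg h.symm

theorem fam_smul {b : Finset U} {f : P U} (hf : f ∈ D.H b) {g : Perm U} (hg : D.LP g) :
    D.fam b f (g • b) = D.T b g f := by
  rw [fam, dif_pos (ty_smul hg b).symm]
  have := (exists_LP (ty_smul hg b).symm).choose_spec
  exact T_canon this.1 hg this.2 hf

theorem fam_self {b : Finset U} {f : P U} (hf : f ∈ D.H b) : D.fam b f b = f := by
  simpa [T_one] using fam_smul hf D.LP_one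

theorem Eqv_fam {b : Finset U} {f : P U} (hf : f ∈ D.H b) : D.Eqv (D.fam b f) := by
  refine ⟨fun c => ?_, fun g hg c => ?_⟩ <;> by_cases h : D.ty c = D.ty b
  · obtain ⟨k, hk, rfl⟩ := exists_LP h.symm
    rw [fam_smul hf hk]; exact T_mem k hf.1
  · rw [fam_of_ne f h]; exact zero_mem _
  · obtain ⟨k, hk, rfl⟩ := exists_LP h.symm
    rw [← mul_smul, fam_smul hf hk, fam_smul hf (hg.mul hk), T_T hg hk]
  · rw [fam_of_ne f h, fam_of_ne f (by rwa [ty_smul hg]), map_zero]

end Fam

end Dat

end Pool.Agent.Lib.MP_33bfb2_co.Th.R
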