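import Pool.Agent.Lib.MP_33bfb2_co.Th.RTwo0

namespace Pool.Agent.Lib.MP_33bfb2_co.Th.R

open MvPolynomial Finset Equiv
open scoped Pointwise

set_option linter.unusedSectionVars false

variable {U I : Type} [Fintype U] [LinearOrder U] [Fintype I] [DecidableEq I]

theorem GB.dual {X N : Submodule ℚ (P U)} {ι : Type} [DecidableEq ι] {v : ι → P U} {dg : ι → ℕ}
    (h : GB X N v dg) (i0 : ι) :
    ∃ φ : P U →ₗ[ℚ] ℚ, (∀ f ∈ N, φ f = 0) ∧ ∀ i, φ (v i) = if i = i0 then 1 else 0 := by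
  obtain ⟨g, hg⟩ := LinearMap.exists_leftInverse_of_injective
    (Finsupp.linearCombination ℚ fun i => N.mkQ (v i)) (LinearMap.ker_eq_bot.2 h.linearIndependent)
  refine ⟨Finsupp.lapply i0 ∘ₗ g ∘ₗ N.mkQ, fun f hf => ?_, fun i => ?_⟩
  · simp [(Submodule.Quotient.mk_eq_zero N).2 hf]
  · have := LinearMap.congr_fun hg (Finsupp.single i 1)
    simp only [LinearMap.comp_apply, Finsupp.linearCombination_single, one_smul,
      LinearMap.id_apply] at this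
    simp only [LinearMap.comp_apply, this, Finsupp.lapply_apply, Finsupp.single_apply]

/-- Index sets with h e m members of type e and degree m. -/
abbrev Ix (h : (I → ℕ) → ℕ → ℕ) : Type := {t : (I → ℕ) × ℕ × ℕ // t.2.2 < h t.1 t.2.1}

namespace Dat

variable (D : Dat U I) (θ : I → ℚ)

/-- Equivariant graded bases modulo a family of ideals. -/
structure Bas (J : Finset U → Ideal (P U)) {h : (I → ℕ) → ℕ → ℕ} (u : Ix h → Finset U → P U) :
    Prop where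
  eqv : ∀ a, D.Eqv (u a)
  off : ∀ a b, D.ty b ≠ a.1.1 → u a b = 0
  hom : ∀ a b, (u a b).IsHomogeneous a.1.2.1
  span : ∀ b, D.H b ≤ (J b).restrictScalars ℚ ⊔ Submodule.span ℚ (Set.range fun a => u a b)
  dual : ∀ b a0, D.ty b = a0.1.1 → ∃ φ : P U →ₗ[ℚ] ℚ, (∀ f ∈ J b, φ f = 0) ∧
    ∀ a, φ (u a b) = if a = a0 then 1 else 0

open Classical in
theorem exists_Bas (J : Finset U → Ideal (P U)) (hJ : ∀ b, Graded ((J b).restrictScalars ℚ))
    (hg : ∀ g, D.LP g → ∀ b, ∀ f ∈ J b, rename g f ∈ J (g • b)) :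
    ∃ u : Ix (fun e m => if ∃ b, D.ty b = e then
      hf (D.H (D.sb e)) ((J (D.sb e)).restrictScalars ℚ) m else 0) → Finset U → P U, D.Bas J u := by
  set h : (I → ℕ) → ℕ → ℕ := fun e m => if ∃ b, D.ty b = e then
      hf (D.H (D.sb e)) ((J (D.sb e)).restrictScalars ℚ) m else 0 with hh
  have : ∀ e, ∃ v : (Σ m, Fin (h e m)) → P U, (∃ b, D.ty b = e) →
      GB (D.H (D.sb e)) ((J (D.sb e)).restrictScalars ℚ) v Sigma.fst := fun e => by
    by_cases a : ∃ b, D.ty b = e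
    · have e' : h e = hf (D.H (D.sb e)) ((J (D.sb e)).restrictScalars ℚ) := funext fun m => if_pos a
      rw [e']
      obtain ⟨v, hv⟩ := exists_GB (D.graded_H (D.sb e)) (hJ (D.sb e))
      exact ⟨v, fun _ => hv⟩
    · exact ⟨0, fun b => absurd b a⟩
  choose v hv using this
  have re : ∀ a : Ix h, ∃ b, D.ty b = a.1.1 := fun a => by_contra fun n => by
    have := a.2
    simp only [hh, if_neg n] at this
    omega
  have tT : ∀ {g}, D.LP g → ∀ b, ∀ f ∈ J b, D.T b g f ∈ J (g • b) := fun l b f hf =>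
    ((J _).restrictScalars ℚ).smul_mem _ (hg _ l b f hf)
  have mem : ∀ a : Ix h, v a.1.1 ⟨a.1.2.1, a.1.2.2, a.2⟩ ∈ D.H (D.sb a.1.1) :=
    fun a => (hv _ (re a)).mem _
  have ty' : ∀ a : Ix h, D.ty (D.sb a.1.1) = a.1.1 := fun a => by
    obtain ⟨b, e⟩ := re a
    rw [← e, ty_sb]
  refine ⟨fun a => D.fam (D.sb a.1.1) (v a.1.1 ⟨a.1.2.1, a.1.2.2, a.2⟩), fun a => Eqv_fam (mem a),
    fun a b n => fam_of_ne _ (by rwa [ty']), fun a b => ?_, fun b f hf => ?_, fun b a0 e => ?_⟩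
  · unfold fam
    split_ifs
    · exact T_hom _ _ ((hv _ (re a)).hom _)
    · exact isHomogeneous_zero _ _ _
  · obtain ⟨g, l, e⟩ := exists_LP (D.ty_sb b)
    have e' : g⁻¹ • b = D.sb (D.ty b) := by rw [inv_smul_eq_iff, e]
    have a := T_H l.inv hf
    rw [e'] at a
    obtain ⟨j, hj, y, hy, k⟩ := Submodule.mem_sup.1 ((hv _ ⟨b, rfl⟩).span a)
    have k' := congrArg (D.T (D.sb (D.ty b)) g) k
    rw [← e', T_T l l.inv, mul_inv_cancel, T_one, map_add, e'] at k'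
    rw [← k']
    refine Submodule.add_mem_sup (by have := tT l _ j hj; rwa [e] at this) ?_
    refine Submodule.span_induction (p := fun y _ => D.T (D.sb (D.ty b)) g y ∈ _) ?_ ?_ ?_ ?_ hy
    · rintro _ ⟨⟨m, j⟩, rfl⟩
      refine Submodule.subset_span ⟨⟨(D.ty b, m, j.1), j.2⟩, ?_⟩
      have := fam_smul ((hv _ ⟨b, rfl⟩).mem ⟨m, j⟩) l
      rwa [e] at this
    · simp
    · intro x y _ _ a b; rw [map_add]; exact add_mem a b
    · intro c x _ a; rw [map_smul]; exact Submodule.smul_mem _ _ a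
  · obtain ⟨⟨e0, m0, j0⟩, h0⟩ := a0
    obtain rfl : D.ty b = e0 := e
    obtain ⟨g, l, e⟩ := exists_LP (D.ty_sb b).symm
    obtain ⟨φ, p1, p2⟩ := (hv _ ⟨b, rfl⟩).dual ⟨m0, j0, h0⟩
    refine ⟨φ ∘ₗ D.T b g, fun f hf => p1 _ (by have := tT l b f hf; rwa [e] at this), ?_⟩
    rintro ⟨⟨e1, m, j⟩, h1⟩
    by_cases n : D.ty b = e1
    · subst n
      rw [LinearMap.comp_apply, (Eqv_fam (mem ⟨_, h1⟩)).eqv g l, e, fam_self (mem ⟨_, h1⟩), p2]
      refine if_congr ⟨fun a => ?_, fun a => ?_⟩ rfl rfl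
      · cases a; rfl
      · cases a; rfl
    · rw [fam_of_ne _ (by rwa [ty' ⟨_, h1⟩]), map_zero, if_neg fun a => n (by cases a; rfl)]

variable {D}

theorem et_smul {g : Perm U} (hg : D.LP g) (S : Finset U) : D.et θ (g • S) = D.et θ S := by
  rw [et_eq, et_eq, ty_smul hg]

theorem rename_JT {g : Perm U} (hg : D.LP g) (b : Finset U) (f : P U) (hf : f ∈ D.JT θ b) :
    rename g f ∈ D.JT θ (g • b) := by
  refine Ideal.span_le (I := (D.JT θ (g • b)).comap (rename g : P U →ₐ[ℚ] P U)) |>.2 ?_ hf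
  rintro _ ⟨A, hA, h, rfl⟩
  refine Ideal.subset_span ⟨g • A, smul_finset_subset_smul_finset hA, ?_, ?_⟩
  · rwa [← smul_finset_sdiff, et_smul θ hg]
  · rw [rename_Kk hg, smul_finset_sdiff]

theorem rename_JQ {g : Perm U} (hg : D.LP g) (b : Finset U) (f : P U) (hf : f ∈ D.JQ θ b) :
    rename g f ∈ D.JQ θ (g • b) := by
  refine Ideal.span_le (I := (D.JQ θ (g • b)).comap (rename g : P U →ₐ[ℚ] P U)) |>.2 ?_ hf
  rintro _ ⟨A, hA, n, h, rfl⟩
  refine Ideal.subset_span ⟨g • A, smul_finset_subset_smul_finset hA, n.smul_finset, ?_, ?_⟩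
  · rwa [et_smul θ hg]
  · rw [rename_Kk hg, smul_finset_sdiff]

variable (D)

theorem exists_BasT : ∃ u : Ix (D.hT θ) → Finset U → P U, D.Bas (D.JT θ) u :=
  D.exists_Bas (D.JT θ) (D.graded_JT θ) fun _ hg => rename_JT θ hg

theorem exists_BasQ : ∃ u : Ix (D.hQ θ) → Finset U → P U, D.Bas (D.JQ θ) u :=
  D.exists_Bas (D.JQ θ) (D.graded_JQ θ) fun _ hg => rename_JQ θ hg

theorem exists_sub_ty {S : Finset U} {d : I → ℕ} (h : d ≤ D.ty S) : ∃ E ⊆ S, D.ty E = d := by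
  choose t ht hc using fun i => exists_subset_card_eq (s := {p ∈ S | D.lab p = i}) (h i)
  refine ⟨univ.biUnion t, biUnion_subset.2 fun i _ => (ht i).trans (filter_subset _ _),
    funext fun i => ?_⟩
  rw [ty, ← hc i]
  congr 1
  ext p
  simp only [mem_filter, mem_biUnion, mem_univ, true_and]
  exact ⟨fun ⟨⟨j, hj⟩, e⟩ => by rwa [← e, (mem_filter.1 (ht j hj)).2],
    fun a => ⟨⟨i, a⟩, (mem_filter.1 (ht i a)).2⟩⟩

end Dat

/-- The number of pairs of given total type and degree. -/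
theorem card_pairs (h h' : (I → ℕ) → ℕ → ℕ) (k : (I → ℕ) → (I → ℕ) → ℕ) (d : I → ℕ) (m : ℕ) :
    Nat.card {x : {x : Ix h × Ix h' // x.1.1.1 + x.2.1.1 = d} //
      x.1.1.1.2.1 + x.1.2.1.2.1 + k x.1.1.1.1 x.1.2.1.1 = m} =
    ∑ e ∈ Iic d, ∑ q ∈ range (m + 1) ×ˢ range (m + 1),
      if q.1 + q.2 + k e (d - e) = m then h e q.1 * h' (d - e) q.2 else 0 := by
  set s : Finset (Σ _ : (I → ℕ) × ℕ × ℕ, ℕ × ℕ) :=
    ((Iic d ×ˢ range (m + 1) ×ˢ range (m + 1)).filter fun y =>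
      y.2.1 + y.2.2 + k y.1 (d - y.1) = m).sigma fun y =>
        range (h y.1 y.2.1) ×ˢ range (h' (d - y.1) y.2.2) with hs
  have c : #s = ∑ e ∈ Iic d, ∑ q ∈ range (m + 1) ×ˢ range (m + 1),
      if q.1 + q.2 + k e (d - e) = m then h e q.1 * h' (d - e) q.2 else 0 := by
    rw [hs, card_sigma, sum_filter, sum_product]
    simp only [card_product, card_range]
  rw [← c, ← Nat.card_eq_finsetCard]
  refine Nat.card_eq_of_bijective (fun x => ⟨⟨(x.1.1.1.1.1, x.1.1.1.1.2.1, x.1.1.2.1.2.1),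
    x.1.1.1.1.2.2, x.1.1.2.1.2.2⟩, ?_⟩) ⟨?_, ?_⟩
  · obtain ⟨⟨⟨⟨⟨e, a, j⟩, h1⟩, ⟨⟨e', a', j'⟩, h2⟩⟩, h3⟩, h4⟩ := x
    dsimp only at h1 h2 h3 h4
    subst h3
    simp only [hs, mem_sigma, mem_filter, mem_product, mem_Iic, mem_range, add_tsub_cancel_left]
    exact ⟨⟨⟨le_self_add, by omega, by omega⟩, h4⟩, h1, h2⟩
  · rintro ⟨⟨⟨⟨⟨e, a, j⟩, h1⟩, ⟨⟨e', a', j'⟩, h2⟩⟩, h3⟩, h4⟩
      ⟨⟨⟨⟨⟨f, b, i⟩, g1⟩, ⟨⟨f', b', i'⟩, g2⟩⟩, g3⟩, g4⟩ e0
    simp only [Subtype.mk.injEq, Sigma.mk.injEq, Prod.mk.injEq, heq_eq_eq] at e0 ⊢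
    obtain ⟨⟨rfl, rfl, rfl⟩, rfl, rfl⟩ := e0
    exact ⟨⟨rfl, rfl, rfl⟩, add_left_cancel (h3.trans g3.symm), rfl, rfl⟩
  · rintro ⟨⟨⟨e, a, a'⟩, j, j'⟩, hy⟩
    simp only [hs, mem_sigma, mem_filter, mem_product, mem_Iic, mem_range] at hy
    exact ⟨⟨⟨(⟨(e, a, j), hy.2.1⟩, ⟨(d - e, a', j'), hy.2.2⟩), add_tsub_cancel_of_le hy.1.1.1⟩,
      hy.1.2⟩, rfl⟩

end Pool.Agent.Lib.MP_33bfb2_co.Th.R
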