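import Pool.Agent.Lib.MP_33bfb2_co.Th.RDefs

namespace Pool.Agent.Lib.MP_33bfb2_co.Th.R

open MvPolynomial Finset Equiv
open scoped Pointwise

set_option linter.unusedSectionVars false

variable {U I : Type} [Fintype U] [LinearOrder U] [Fintype I] [DecidableEq I]

/-! File RV0: orders, non zero divisors, components, symmetries. -/

theorem v0_dd_X (T : Finset U) (v : U) : dd T (X v : P U) = if v ∈ T then 1 else 0 := by
  have e : dd T (X v : P U) = ∑ w ∈ T, pderiv w (X v : P U) := by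
    unfold dd
    induction T using Finset.induction_on with
    | empty => simp
    | insert a s ha ih => rw [sum_insert ha, sum_insert ha, Derivation.add_apply, ih]
  rw [e]
  simp only [pderiv_X, Pi.single_apply]
  exact sum_ite_eq T v fun _ => 1

theorem v0_dd_C (T : Finset U) (a : ℚ) : dd T (C a : P U) = 0 := (dd T).map_algebraMap a

theorem v0_dd_mul (T : Finset U) (f g : P U) : dd T (f * g) = f * dd T g + g * dd T f := by
  rw [Derivation.leibniz, smul_eq_mul, smul_eq_mul]

theorem v0_db_X (be : U → ℕ) (c : ℕ) (v : U) : db be c (X v : P U) = if be v = c then 1 else 0 := by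
  simp [db, v0_dd_X]

theorem v0_db_C (be : U → ℕ) (c : ℕ) (a : ℚ) : db be c (C a : P U) = 0 := v0_dd_C _ a

theorem v0_db_mul (be : U → ℕ) (c : ℕ) (f g : P U) :
    db be c (f * g) = f * db be c g + g * db be c f := v0_dd_mul _ f g

theorem v0_NN_zero {be : U → ℕ} {J : Ideal (P U)} {f : P U} : f ∈ NN be J 0 ↔ f ∈ J := Iff.rfl

theorem v0_NN_succ {be : U → ℕ} {J : Ideal (P U)} {l : ℕ} {f : P U} :
    f ∈ NN be J (l + 1) ↔ ∀ c, db be c f ∈ NN be J l := by
  rw [NN, Submodule.mem_iInf]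
  rfl

theorem v0_NN_le {be : U → ℕ} {J J' : Ideal (P U)} (h : J ≤ J') (l : ℕ) :
    NN be J l ≤ NN be J' l := by
  induction l with
  | zero => exact h
  | succ l ih => exact fun f hf => v0_NN_succ.2 fun c => ih (v0_NN_succ.1 hf c)

theorem v0_NN_step {be : U → ℕ} {J : Ideal (P U)} (hJ : Stab be J) (l : ℕ) :
    NN be J l ≤ NN be J (l + 1) := by
  induction l with
  | zero => exact fun f hf => v0_NN_succ.2 fun c => hJ c f hf
  | succ l ih => exact fun f hf => v0_NN_succ.2 fun c => ih (v0_NN_succ.1 hf c)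

theorem v0_NN_mono {be : U → ℕ} {J : Ideal (P U)} (hJ : Stab be J) : Monotone (NN be J) :=
  monotone_nat_of_le_succ (v0_NN_step hJ)

theorem v0_NN_mul {be : U → ℕ} {J : Ideal (P U)} (hJ : Stab be J) (n : ℕ) :
    ∀ (i j : ℕ) (f g : P U), i + j = n → f ∈ NN be J i → g ∈ NN be J j →
      f * g ∈ NN be J (i + j - 1) := by
  induction n with
  | zero =>
    intro i j f g h hf _
    obtain rfl : i = 0 := by omega
    exact v0_NN_mono hJ (Nat.zero_le _) (J.mul_mem_right g hf)
  | succ n ih =>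
    intro i j f g h hf hg
    rcases i with _ | i
    · exact v0_NN_mono hJ (Nat.zero_le _) (J.mul_mem_right g hf)
    rcases j with _ | j
    · exact v0_NN_mono hJ (Nat.zero_le _) (J.mul_mem_left f hg)
    rw [show i + 1 + (j + 1) - 1 = i + j + 1 by omega, v0_NN_succ]
    intro c
    have a := ih (i + 1) j f _ (by omega) hf (v0_NN_succ.1 hg c)
    have b := ih (j + 1) i g _ (by omega) hg (v0_NN_succ.1 hf c)
    rw [show i + 1 + j - 1 = i + j by omega] at a
    rw [show j + 1 + i - 1 = i + j by omega] at b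
    rw [v0_db_mul]
    exact add_mem a b

theorem OO_neg {be : U → ℕ} {J : Ideal (P U)} {x : ℤ} (hx : x < 0) {f : P U} :
    f ∈ OO be J x ↔ f ∈ J := by
  rw [OO, show (x / 2 + 1).toNat = 0 by omega, v0_NN_zero]

theorem OO_nonneg {be : U → ℕ} {J : Ideal (P U)} {x : ℤ} (hx : 0 ≤ x) {f : P U} :
    f ∈ OO be J x ↔ ∀ c, db be c f ∈ OO be J (x - 2) := by
  rw [OO, OO, show (x / 2 + 1).toNat = ((x - 2) / 2 + 1).toNat + 1 by omega, v0_NN_succ]

theorem OO_mono {be : U → ℕ} {J J' : Ideal (P U)} (hJ : Stab be J') (h : J ≤ J') {x y : ℤ}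
    (hxy : x ≤ y) : OO be J x ≤ OO be J' y :=
  (v0_NN_le h _).trans (v0_NN_mono hJ (by omega))

theorem OO_of_mem {be : U → ℕ} {J : Ideal (P U)} (hJ : Stab be J) (x : ℤ) {f : P U} (hf : f ∈ J) :
    f ∈ OO be J x := v0_NN_mono hJ (Nat.zero_le _) hf

theorem OO_db {be : U → ℕ} {J : Ideal (P U)} (hJ : Stab be J) {x : ℤ} {f : P U}
    (hf : f ∈ OO be J x) (c : ℕ) : db be c f ∈ OO be J (x - 2) := by
  rcases lt_or_ge x 0 with h | h
  · exact OO_of_mem hJ _ (hJ c f ((OO_neg h).1 hf))
  · exact (OO_nonneg h).1 hf c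

theorem OO_mul {be : U → ℕ} {J : Ideal (P U)} (hJ : Stab be J) {x y : ℤ} {f g : P U}
    (hf : f ∈ OO be J x) (hg : g ∈ OO be J y) : f * g ∈ OO be J (x + y) := by
  rcases lt_or_ge x 0 with h | h
  · exact OO_of_mem hJ _ (J.mul_mem_right g ((OO_neg h).1 hf))
  rcases lt_or_ge y 0 with h' | h'
  · exact OO_of_mem hJ _ (J.mul_mem_left f ((OO_neg h').1 hg))
  exact v0_NN_mono hJ (by omega) (v0_NN_mul hJ _ _ _ f g rfl hf hg)

theorem OO_kill {be : U → ℕ} {J J' : Ideal (P U)} {k : P U} (hk : ∀ c, db be c k = 0)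
    (h : ∀ f ∈ J', f * k ∈ J) {x : ℤ} {f : P U} (hf : f ∈ OO be J' x) : f * k ∈ OO be J x := by
  unfold OO at hf ⊢
  generalize (x / 2 + 1).toNat = l at hf
  induction l generalizing f with
  | zero => exact h f hf
  | succ l ih =>
    refine v0_NN_succ.2 fun c => ?_
    rw [v0_db_mul, hk, mul_zero, zero_add, mul_comm]
    exact ih (v0_NN_succ.1 hf c)

theorem v0_OO_C (be : U → ℕ) (J : Ideal (P U)) (a : ℚ) : C a ∈ OO be J 0 :=
  (OO_nonneg le_rfl).2 fun c => by
    rw [v0_db_C]
    exact zero_mem _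

theorem OO_X (be : U → ℕ) (J : Ideal (P U)) (v : U) : X v ∈ OO be J 2 := by
  refine (OO_nonneg (by norm_num)).2 fun c => ?_
  rw [v0_db_X]
  split_ifs
  · exact v0_OO_C be J 1
  · exact zero_mem _

theorem v0_stab_bot (be : U → ℕ) : Stab be (⊥ : Ideal (P U)) := fun c f hf => by
  rw [Ideal.mem_bot.1 hf, map_zero]
  exact zero_mem _

theorem v0_OO_pow {be : U → ℕ} {J : Ideal (P U)} (hJ : Stab be J) {x : ℤ} {f : P U}
    (hf : f ∈ OO be J x) (k : ℕ) : f ^ k ∈ OO be J (k * x) := by
  induction k with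
  | zero => simpa using v0_OO_C be J 1
  | succ k ih =>
    rw [pow_succ, Nat.cast_succ, add_mul, one_mul]
    exact OO_mul hJ ih hf

theorem v0_OO_prod {be : U → ℕ} {J : Ideal (P U)} (hJ : Stab be J) {κ : Type} (s : Finset κ)
    {x : κ → ℤ} {f : κ → P U} (hf : ∀ a ∈ s, f a ∈ OO be J (x a)) :
    ∏ a ∈ s, f a ∈ OO be J (∑ a ∈ s, x a) := by
  classical
  induction s using Finset.induction_on with
  | empty => simpa using v0_OO_C be J 1
  | insert a s ha ih =>
    rw [prod_insert ha, sum_insert ha]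
    exact OO_mul hJ (hf a (mem_insert_self a s)) (ih fun b hb => hf b (mem_insert_of_mem hb))

theorem OO_deg (be : U → ℕ) (J : Ideal (P U)) (f : P U) :
    f ∈ OO be J (2 * f.totalDegree) := by
  refine v0_NN_le (J := ⊥) bot_le _ (?_ : f ∈ OO be ⊥ _)
  have key : ∀ α ∈ f.support, monomial α (coeff α f) ∈ OO be ⊥ (2 * f.totalDegree) := by
    intro α hα
    have h1 := OO_mul (v0_stab_bot be) (v0_OO_C be ⊥ (coeff α f)) (v0_OO_prod (v0_stab_bot be) α.support
      fun v _ => v0_OO_pow (v0_stab_bot be) (OO_X be ⊥ v) (α v))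
    rw [monomial_eq]
    refine OO_mono (v0_stab_bot be) le_rfl ?_ h1
    have h2 : ∑ v ∈ α.support, α v ≤ f.totalDegree := le_totalDegree hα
    have h3 : ((∑ v ∈ α.support, α v : ℕ) : ℤ) ≤ f.totalDegree := by exact_mod_cast h2
    rw [← sum_mul, ← Nat.cast_sum]
    omega
  have := sum_mem key
  rwa [← f.as_sum] at this

theorem dd_nilp (T : Finset U) (f : P U) : ∃ m : ℕ, (dd T)^[m] f = 0 := by
  have e : db (fun v => if v ∈ T then 0 else 1) 0 = dd T := by
    unfold db
    congr 1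
    ext v
    simp
  have key : ∀ (l : ℕ) (f : P U), f ∈ NN (fun v => if v ∈ T then 0 else 1) ⊥ l →
      (dd T)^[l] f = 0 := by
    intro l
    induction l with
    | zero => exact fun f hf => Ideal.mem_bot.1 hf
    | succ l ih =>
      intro f hf
      rw [Function.iterate_succ_apply]
      exact ih _ (e ▸ v0_NN_succ.1 hf 0)
  exact ⟨_, key _ f (OO_deg _ ⊥ f)⟩

theorem NZ (H : ℤ → P U → Prop) (H0 : ∀ p, H p 0) (Hs : ∀ p f g, H p f → H p g → H p (f - g))
    (Hc : ∀ p (c : ℚ) f, H p f → H p (c • f)) (T : Finset U) (x : P U) (c : ℚ) (hc : c ≠ 0)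
    (hx : dd T x = C c) (Hd : ∀ p f, H p f → H (p - 2) (dd T f))
    (Hx : ∀ p f, H p f → H (p + 2) (x * f)) (p : ℤ) (Y : P U) (h : H (p + 2) (x * Y)) :
    H p Y := by
  have e1 : ∀ m : ℕ, (dd T)^[m + 1] (x * Y)
      = x * (dd T)^[m + 1] Y + ((m + 1 : ℚ) * c) • (dd T)^[m] Y := by
    intro m
    induction m with
    | zero => simp [hx, smul_eq_C_mul, mul_comm]
    | succ m ih =>
      rw [Function.iterate_succ_apply', ih, map_add, v0_dd_mul, hx, Derivation.map_smul,
        ← Function.iterate_succ_apply' (dd T) (m + 1), ← Function.iterate_succ_apply' (dd T) m,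
        smul_eq_C_mul, smul_eq_C_mul]
      simp only [Nat.succ_eq_add_one, Nat.cast_add, Nat.cast_one, map_mul, map_add, map_one]
      ring
  have e2 : ∀ m : ℕ, H (p + 2 - 2 * m) ((dd T)^[m] (x * Y)) := by
    intro m
    induction m with
    | zero => simpa using h
    | succ m ih =>
      rw [Function.iterate_succ_apply', show p + 2 - 2 * ((m + 1 : ℕ) : ℤ) = p + 2 - 2 * m - 2 by
        push_cast; ring]
      exact Hd _ _ ih
  have e3 : ∀ j m : ℕ, (dd T)^[m + j] Y = 0 → H (p - 2 * m) ((dd T)^[m] Y) := by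
    intro j
    induction j with
    | zero => exact fun m hm => by rw [show (dd T)^[m] Y = 0 from hm]; exact H0 _
    | succ j ih =>
      intro m hm
      have a := Hx _ _ (ih (m + 1) (by rwa [add_right_comm, add_assoc]))
      have b := e2 (m + 1)
      rw [show p - 2 * ((m + 1 : ℕ) : ℤ) + 2 = p - 2 * m by push_cast; ring] at a
      rw [show p + 2 - 2 * ((m + 1 : ℕ) : ℤ) = p - 2 * m by push_cast; ring, e1] at b
      have d := Hc _ ((m + 1 : ℚ) * c)⁻¹ _ (Hs _ _ _ b a)
      rwa [add_sub_cancel_left, smul_smul, inv_mul_cancel₀ (mul_ne_zero (by positivity) hc),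
        one_smul] at d
  obtain ⟨m, hm⟩ := dd_nilp T Y
  simpa using e3 m 0 (by rwa [zero_add])

theorem v0_sg_X (c : ℚ) (g : Perm U) (v : U) : sg c g (X v) = c • X (g v) := aeval_X _ v

theorem v0_sg_C (c : ℚ) (g : Perm U) (a : ℚ) : sg c g (C a) = C a := aeval_C _ a

theorem v0_sg_monomial (c : ℚ) (α : U →₀ ℕ) (a : ℚ) :
    sg c 1 (monomial α a) = c ^ α.degree • monomial α a := by
  rw [monomial_eq, map_mul, v0_sg_C, Finsupp.prod, map_prod, Finsupp.degree_apply, ← mul_smul_comm]
  congr 1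
  simp only [map_pow, v0_sg_X, smul_pow, Perm.one_apply]
  simp only [smul_eq_C_mul, prod_mul_distrib, ← map_prod, prod_pow_eq_pow_sum]

theorem v0_coeff_sg (c : ℚ) (α : U →₀ ℕ) (f : P U) :
    coeff α (sg c 1 f) = c ^ α.degree * coeff α f := by
  induction f using MvPolynomial.induction_on' with
  | monomial β a =>
    rw [v0_sg_monomial, coeff_smul, coeff_monomial, smul_eq_mul]
    split_ifs with e
    · rw [e]
    · rw [mul_zero, mul_zero]
  | add f g hf hg => rw [map_add, coeff_add, coeff_add, hf, hg, mul_add]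

theorem v0_db_sg (c : ℚ) (g : Perm U) (be : U → ℕ) (k : ℕ) (f : P U) :
    db be k (sg c g f) = c • sg c g (db (be ∘ g) k f) := by
  induction f using MvPolynomial.induction_on with
  | C a => rw [v0_sg_C, v0_db_C, v0_db_C, map_zero, smul_zero]
  | add f f' hf hf' => simp only [map_add, hf, hf', smul_add]
  | mul_X f v hf =>
    rw [map_mul, v0_db_mul, v0_db_mul, hf, v0_sg_X, Derivation.map_smul, v0_db_X, v0_db_X, map_add, map_mul,
      map_mul, v0_sg_X, smul_add, Function.comp_apply]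
    split_ifs <;> simp

theorem v0_NN_sg (c : ℚ) (g : Perm U) (be : U → ℕ) {J J' : Ideal (P U)}
    (h : ∀ f ∈ J, sg c g f ∈ J') (l : ℕ) {f : P U} (hf : f ∈ NN (be ∘ g) J l) :
    sg c g f ∈ NN be J' l := by
  induction l generalizing f with
  | zero => exact h f hf
  | succ l ih =>
    refine v0_NN_succ.2 fun k => ?_
    rw [v0_db_sg]
    exact Submodule.smul_mem _ _ (ih (v0_NN_succ.1 hf k))

theorem v0_fib_smul (g : Perm U) (S : Finset U) (be : U → ℕ) (k : ℕ) :
    fib (g • S) be k = g • fib S (be ∘ g) k := by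
  ext v
  obtain ⟨w, rfl⟩ := g.surjective v
  rw [mem_smul, fib, fib, mem_filter, mem_filter, mem_smul, Function.comp_apply]

namespace Dat

variable {D : Dat U I} {θ : I → ℚ}

theorem comp_mem (M : Submodule ℚ (P U)) (hM : ∀ f ∈ M, sg 2 1 f ∈ M) {f : P U} (hf : f ∈ M)
    (m : ℕ) : homogeneousComponent m f ∈ M := by
  have key : ∀ s : Finset ℕ, m ∉ s → ∀ f ∈ M,
      (∀ α : U →₀ ℕ, coeff α f ≠ 0 → α.degree = m ∨ α.degree ∈ s) →
        homogeneousComponent m f ∈ M := by
    intro s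
    induction s using Finset.induction_on with
    | empty =>
      intro _ f hf h
      have e : homogeneousComponent m f = f := by
        ext α
        rw [coeff_homogeneousComponent]
        split_ifs with e
        · rfl
        · exact Eq.symm (not_not.1 fun t => e (by simpa using h α t))
      rwa [e]
    | insert n s _ ih =>
      intro hm f hf h
      have hne : (2 : ℚ) ^ m - 2 ^ n ≠ 0 := sub_ne_zero.2 fun e =>
        hm (by rw [pow_right_injective₀ (by norm_num) (by norm_num) e]; exact mem_insert_self n s)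
      have a := ih (fun t => hm (mem_insert_of_mem t)) (sg 2 1 f - (2 : ℚ) ^ n • f)
        (sub_mem (hM f hf) (M.smul_mem _ hf)) fun α hα => by
          rw [coeff_sub, v0_coeff_sg, coeff_smul, smul_eq_mul, ← sub_mul] at hα
          rcases h α (right_ne_zero_of_mul hα) with t | t
          · exact Or.inl t
          · rcases mem_insert.1 t with t | t
            · exact absurd (by rw [t, sub_self]) (left_ne_zero_of_mul hα)
            · exact Or.inr t
      have e : homogeneousComponent m (sg 2 1 f - (2 : ℚ) ^ n • f)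
          = ((2 : ℚ) ^ m - 2 ^ n) • homogeneousComponent m f := by
        ext α
        rw [coeff_smul, coeff_homogeneousComponent, coeff_homogeneousComponent]
        split_ifs with e
        · rw [coeff_sub, v0_coeff_sg, coeff_smul, smul_eq_mul, ← sub_mul, e, smul_eq_mul]
        · rw [smul_zero]
      rw [e] at a
      exact (M.smul_mem_iff hne).1 a
  refine key ((f.support.image Finsupp.degree).erase m) (notMem_erase _ _) f hf fun α hα => ?_
  by_cases e : α.degree = m
  · exact Or.inl e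
  · exact Or.inr (mem_erase.2 ⟨e, mem_image_of_mem _ (mem_support_iff.2 hα)⟩)

theorem sg_Kk (c : ℚ) {g : Perm U} (hg : D.LP g) (T T' : Finset U) :
    sg c g (D.Kk T T') = c ^ D.kap T T' • D.Kk (g • T) (g • T') := by
  simp only [Kk, kap, prod_smul, hg.W, map_prod, map_pow, map_sub, v0_sg_X, ← smul_sub, smul_pow]
  simp only [smul_eq_C_mul, prod_mul_distrib, ← map_prod, prod_pow_eq_pow_sum]

theorem sg_PS (c : ℚ) (g : Perm U) {S : Finset U} {f : P U} (hf : f ∈ PS S) :
    sg c g f ∈ PS (g • S) := by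
  refine PS_induction (p := fun f => sg c g f ∈ PS (g • S)) (fun a => ?_)
    (fun f f' _ _ h h' => ?_) (fun f i _ hi h => ?_) hf
  · rw [v0_sg_C]
    exact C_mem_PS _ a
  · rw [map_add]
    exact add_mem h h'
  · rw [map_mul, v0_sg_X]
    exact mul_mem_PS (Submodule.smul_mem _ _ (X_mem_PS (mem_smul.2 hi))) h

theorem v0_et_smul {g : Perm U} (hg : D.LP g) (S : Finset U) : D.et θ (g • S) = D.et θ S := by
  simp only [et, sum_smul', hg _]

theorem sg_JT (c : ℚ) {g : Perm U} (hg : D.LP g) {S : Finset U} {f : P U} (hf : f ∈ D.JT θ S) :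
    sg c g f ∈ D.JT θ (g • S) := by
  have : D.JT θ S ≤ (D.JT θ (g • S)).comap (sg c g) := by
    refine Ideal.span_le.2 ?_
    rintro _ ⟨A, hA, h0, rfl⟩
    show sg c g _ ∈ D.JT θ (g • S)
    rw [sg_Kk c hg, smul_eq_C_mul]
    refine Ideal.mul_mem_left _ _ (Ideal.subset_span ⟨g • A, smul_finset_subset_smul_finset hA,
      ?_, ?_⟩)
    · rwa [← smul_finset_sdiff, v0_et_smul hg]
    · rw [smul_finset_sdiff]
  exact this hf

theorem v0_sg_JJ (c : ℚ) {g : Perm U} (hg : D.LP g) {S : Finset U} (be : U → ℕ) {f : P U}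
    (hf : f ∈ D.JJ θ S (be ∘ g)) : sg c g f ∈ D.JJ θ (g • S) be := by
  have : D.JJ θ S (be ∘ g) ≤ (D.JJ θ (g • S) be).comap (sg c g) :=
    iSup_le fun k f hf => by
      have := sg_JT c hg hf
      rw [← v0_fib_smul] at this
      exact le_iSup (fun k => D.JT θ (fib (g • S) be k)) k this
  exact this hf

theorem v0_mem_F {S : Finset U} {ρ : Set (Finset U)} {p : ℤ} {f : P U} :
    f ∈ D.F θ S ρ p ↔ f ∈ PS S ∧ ∀ be, D.Adm θ S be → Resp S ρ be →
      f ∈ OO be (D.JJ θ S be) (p + D.c2 S be - (S.image be).card) := by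
  simp only [F, Submodule.mem_inf, Submodule.mem_iInf]

theorem v0_c2_smul {g : Perm U} (hg : D.LP g) (S : Finset U) (be : U → ℕ) :
    D.c2 (g • S) be = D.c2 S (be ∘ g) := by
  simp only [c2, sum_filter, sum_product, sum_smul', hg.W, Function.comp_apply]

theorem sg_F {c : ℚ} (hc : c ≠ 0) {g : Perm U} (hg : D.LP g) {S : Finset U} {p : ℤ} {f : P U}
    (hf : f ∈ D.F θ S ∅ p) : sg c g f ∈ D.F θ (g • S) ∅ p := by
  have _ := hc
  rw [v0_mem_F] at hf ⊢
  refine ⟨sg_PS c g hf.1, fun be hb _ => ?_⟩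
  have h := hf.2 (be ∘ g) (fun k => by rw [← v0_et_smul hg, ← v0_fib_smul]; exact hb k)
    fun _ t => t.elim
  rw [v0_c2_smul hg, show (g • S).image be = S.image (be ∘ g) from image_image]
  exact v0_NN_sg c g be (fun f hf => v0_sg_JJ c hg be hf) _ h

theorem sg_D {c : ℚ} (hc : c ≠ 0) {g : Perm U} (hg : D.LP g) {S : Finset U} {p : ℤ} {f : P U}
    (hf : f ∈ D.Dc θ S p) : sg c g f ∈ D.Dc θ (g • S) p := by
  have : D.Dc θ S p ≤ (D.Dc θ (g • S) p).comap (sg c g).toLinearMap := by
    refine sup_le (fun f hf => Submodule.mem_sup_left (sg_F hc hg hf)) (Submodule.span_le.2 ?_)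
    rintro _ ⟨A, B, i, j, f, hf, f', hf', hA, hB, hd, hu, eA, eB, hp, rfl⟩
    show sg c g _ ∈ D.Dc θ (g • S) p
    rw [map_mul, map_mul, sg_Kk c hg, mul_smul_comm]
    refine Submodule.smul_mem _ _ (Submodule.mem_sup_right (Submodule.subset_span
      ⟨g • A, g • B, i, j, _, sg_F hc hg hf, _, sg_F hc hg hf', hA.smul_finset, hB.smul_finset,
        ?_, ?_, ?_, ?_, hp, rfl⟩))
    · exact disjoint_image g.injective |>.2 hd
    · rw [← hu, smul_finset_union]
    · rwa [v0_et_smul hg]
    · rwa [v0_et_smul hg]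
  exact this hf

end Dat

end Pool.Agent.Lib.MP_33bfb2_co.Th.R
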