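import Pool.Agent.Lib.MP_33bfb2_co.Th.RV0

namespace Pool.Agent.Lib.MP_33bfb2_co.Th.R

open MvPolynomial Finset Equiv
open scoped Pointwise

variable {U I : Type} [Fintype U] [LinearOrder U] [Fintype I] [DecidableEq I]

theorem PS_X {S : Finset U} {v : U} (h : v ∈ S) : (X v : P U) ∈ PS S :=
  X_mem_supported.2 (mem_coe.2 h)

theorem PS_mul {S : Finset U} {f g : P U} (hf : f ∈ PS S) (hg : g ∈ PS S) : f * g ∈ PS S :=
  Subalgebra.mul_mem (supported ℚ (S : Set U)) hf hg

theorem PS_one (S : Finset U) : (1 : P U) ∈ PS S := Subalgebra.one_mem (supported ℚ (S : Set U))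

theorem PS_ind {S : Finset U} {p : P U → Prop} (h1 : ∀ c : ℚ, p (C c))
    (hX : ∀ v ∈ S, p (X v)) (ha : ∀ f g, f ∈ PS S → g ∈ PS S → p f → p g → p (f + g))
    (hm : ∀ f g, f ∈ PS S → g ∈ PS S → p f → p g → p (f * g)) {f : P U} (hf : f ∈ PS S) :
    p f := by
  have hf' : f ∈ Algebra.adjoin ℚ (X '' (S : Set U)) := hf
  induction hf' using Algebra.adjoin_induction with
  | mem x hx => obtain ⟨v, hv, rfl⟩ := hx; exact hX v hv
  | algebraMap r => exact h1 r
  | add x y hx hy a b => exact ha x y hx hy (a hx) (b hy)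
  | mul x y hx hy a b => exact hm x y hx hy (a hx) (b hy)

theorem der_sum {ι : Type} (s : Finset ι) (d : ι → Derivation ℚ (P U) (P U)) (f : P U) :
    (∑ c ∈ s, d c) f = ∑ c ∈ s, d c f := by
  classical
  induction s using Finset.induction_on with
  | empty => simp
  | insert a s ha ih => rw [sum_insert ha, sum_insert ha, Derivation.add_apply, ih]

theorem dd_X (T : Finset U) (v : U) : dd T (X v) = if v ∈ T then 1 else 0 := by
  simp [dd, der_sum, pderiv_X, Pi.single_apply]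

theorem db_X (be : U → ℕ) (c : ℕ) (v : U) : db be c (X v) = if be v = c then 1 else 0 := by
  simp [db, dd_X]

theorem der_PS {S : Finset U} (d : Derivation ℚ (P U) (P U)) (hd : ∀ v ∈ S, d (X v) ∈ PS S)
    {f : P U} (hf : f ∈ PS S) : d f ∈ PS S := by
  refine PS_ind (p := fun f => d f ∈ PS S) (fun c => ?_) hd (fun f g _ _ a b => ?_)
    (fun f g hf hg a b => ?_) hf
  · rw [show (C c : P U) = algebraMap ℚ _ c from rfl, d.map_algebraMap]; exact zero_mem _
  · rw [map_add]; exact add_mem a b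
  · rw [d.leibniz]; exact add_mem (PS_mul hf b) (PS_mul hg a)

theorem dd_PS (T : Finset U) {S : Finset U} {f : P U} (hf : f ∈ PS S) : dd T f ∈ PS S :=
  der_PS _ (fun v _ => by rw [dd_X]; split_ifs; exacts [PS_one _, zero_mem _]) hf

theorem der_congr {S : Finset U} (d d' : Derivation ℚ (P U) (P U))
    (h : ∀ v ∈ S, d (X v) = d' (X v)) {f : P U} (hf : f ∈ PS S) : d f = d' f := by
  refine PS_ind (p := fun f => d f = d' f) (fun c => ?_) h (fun f g _ _ a b => ?_)
    (fun f g _ _ a b => ?_) hf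
  · rw [show (C c : P U) = algebraMap ℚ _ c from rfl, d.map_algebraMap, d'.map_algebraMap]
  · rw [map_add, map_add, a, b]
  · rw [d.leibniz, d'.leibniz, a, b]

theorem stab_bot (be : U → ℕ) : Stab be ⊥ := fun c f hf => by
  rw [Ideal.mem_bot.1 hf, map_zero]; exact zero_mem _

theorem stab_span {be : U → ℕ} {s : Set (P U)} (h : ∀ k ∈ s, ∀ c, db be c k = 0) :
    Stab be (Ideal.span s) := fun c f hf => by
  induction hf using Submodule.span_induction with
  | mem x hx => rw [h x hx]; exact zero_mem _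
  | zero => rw [map_zero]; exact zero_mem _
  | add x y _ _ a b => rw [map_add]; exact add_mem a b
  | smul a x hx b =>
    rw [smul_eq_mul, Derivation.leibniz]
    exact add_mem (Ideal.mul_mem_left _ _ b) (Ideal.mul_mem_right _ _ hx)

theorem stab_sup {be : U → ℕ} {J J' : Ideal (P U)} (h : Stab be J) (h' : Stab be J') :
    Stab be (J ⊔ J') := fun c f hf => by
  obtain ⟨a, ha, b, hb, rfl⟩ := Submodule.mem_sup.1 hf
  rw [map_add]
  exact Submodule.add_mem_sup (h c a ha) (h' c b hb)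

theorem OO_const {be : U → ℕ} (J : Ideal (P U)) {k : P U} (hk : ∀ c, db be c k = 0) :
    k ∈ OO be J 0 := (OO_nonneg le_rfl).2 fun c => by rw [hk]; exact zero_mem _

/-- Same leading term in order m. -/
def Cg (be : U → ℕ) (m : ℕ) (u u' : P U) : Prop :=
  u ∈ OO be ⊥ (2 * m) ∧ u - u' ∈ OO be ⊥ (2 * m - 2)

theorem Cg.one (be : U → ℕ) : Cg be 0 1 1 :=
  ⟨OO_const _ fun c => Derivation.map_one_eq_zero _, by rw [sub_self]; exact zero_mem _⟩

theorem Cg.mul {be : U → ℕ} {m n : ℕ} {u u' v v' : P U} (h : Cg be m u u') (k : Cg be n v v') :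
    Cg be (m + n) (u * v) (u' * v') := by
  have s := stab_bot be
  have h3 : u' ∈ OO be ⊥ (2 * m) := by
    simpa using sub_mem h.1 (OO_mono s le_rfl (by omega) h.2)
  refine ⟨by have := OO_mul s h.1 k.1; push_cast; rwa [mul_add], ?_⟩
  rw [show u * v - u' * v' = (u - u') * v + u' * (v - v') by ring]
  exact add_mem (OO_mono s le_rfl (by push_cast; omega) (OO_mul s h.2 k.1))
    (OO_mono s le_rfl (by push_cast; omega) (OO_mul s h3 k.2))

theorem Cg.pow {be : U → ℕ} {u u' : P U} (h : Cg be 1 u u') (n : ℕ) :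
    Cg be n (u ^ n) (u' ^ n) := by
  induction n with
  | zero => simpa using Cg.one be
  | succ n ih => rw [pow_succ, pow_succ]; exact ih.mul h

theorem Cg.prod {be : U → ℕ} {ι : Type} (s : Finset ι) {m : ι → ℕ} {u u' : ι → P U}
    (h : ∀ x ∈ s, Cg be (m x) (u x) (u' x)) :
    Cg be (∑ x ∈ s, m x) (∏ x ∈ s, u x) (∏ x ∈ s, u' x) := by
  classical
  induction s using Finset.induction_on with
  | empty => simpa using Cg.one be
  | insert a s ha ih =>
    rw [sum_insert ha, prod_insert ha, prod_insert ha]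
    exact (h a (mem_insert_self _ _)).mul (ih fun x hx => h x (mem_insert_of_mem hx))

theorem mem_fib {S : Finset U} {be : U → ℕ} {c : ℕ} {v : U} :
    v ∈ fib S be c ↔ v ∈ S ∧ be v = c := mem_filter

theorem fib_union (A B : Finset U) (be : U → ℕ) (c : ℕ) :
    fib (A ∪ B) be c = fib A be c ∪ fib B be c := filter_union _ _ _

theorem fib_disj {A B : Finset U} (hd : Disjoint A B) (be : U → ℕ) (c c' : ℕ) :
    Disjoint (fib A be c) (fib B be c') := hd.mono (filter_subset _ _) (filter_subset _ _)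

namespace Dat

variable {D : Dat U I} {θ : I → ℚ}

theorem Kk_KR (A B : Finset U) : D.Kk A B = D.KR (A ×ˢ B) := by
  rw [Kk, KR, prod_product]

theorem kap_eq (A B : Finset U) : D.kap A B = ∑ x ∈ A ×ˢ B, D.W x.1 x.2 := by
  rw [kap, sum_product]

theorem KR_dvd {R R' : Finset (U × U)} (h : R ⊆ R') : D.KR R ∣ D.KR R' :=
  prod_dvd_prod_of_subset _ _ _ h

theorem KR_union {R R' : Finset (U × U)} (h : Disjoint R R') :
    D.KR (R ∪ R') = D.KR R * D.KR R' := prod_union h

theorem KR_PS {S : Finset U} {R : Finset (U × U)} (h : ∀ x ∈ R, x.1 ∈ S ∧ x.2 ∈ S) :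
    D.KR R ∈ PS S :=
  Subalgebra.prod_mem (supported ℚ (S : Set U)) fun x hx => Subalgebra.pow_mem _
    (Subalgebra.sub_mem _ (PS_X (h x hx).1) (PS_X (h x hx).2)) _

theorem Kk_PS (A B : Finset U) : D.Kk A B ∈ PS (A ∪ B) := by
  rw [Kk_KR]
  exact KR_PS fun x hx => by simp only [mem_product, mem_union] at hx ⊢; tauto

theorem der_KR (d : Derivation ℚ (P U) (P U)) {R : Finset (U × U)}
    (h : ∀ x ∈ R, d (X x.1) = d (X x.2)) : d (D.KR R) = 0 := by
  refine prod_induction _ (fun u => d u = 0) (fun a b ha hb => ?_) d.map_one_eq_zero fun x hx => ?_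
  · rw [d.leibniz, ha, hb]; simp
  · rw [d.leibniz_pow, map_sub, h x hx]; simp

theorem db_KR {be : U → ℕ} {R : Finset (U × U)} (h : ∀ x ∈ R, be x.1 = be x.2) (c : ℕ) :
    db be c (D.KR R) = 0 := der_KR _ fun x hx => by rw [db_X, db_X, h x hx]

theorem KR_OO (be : U → ℕ) (R : Finset (U × U)) :
    D.KR R ∈ OO be ⊥ (2 * (∑ x ∈ R, D.W x.1 x.2 : ℕ)) :=
  (Cg.prod R fun x _ => Cg.pow (u' := X x.1 - X x.2) ⟨sub_mem (OO_X _ _ _) (OO_X _ _ _), by
    rw [sub_self]; exact zero_mem _⟩ _).1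

theorem et_union {A B : Finset U} (hd : Disjoint A B) :
    D.et θ (A ∪ B) = D.et θ A + D.et θ B := sum_union hd

theorem et_sdiff {A S : Finset U} (h : A ⊆ S) : D.et θ (S \ A) = D.et θ S - D.et θ A := by
  rw [et, et, et, ← sum_sdiff h]; ring

theorem et_fib (S : Finset U) (be : U → ℕ) :
    D.et θ S = ∑ c ∈ univ.image be, D.et θ (fib S be c) :=
  (sum_fiberwise_of_maps_to (fun v _ => mem_image_of_mem be (mem_univ v)) _).symm

theorem JT_le_JJ (S : Finset U) (be : U → ℕ) (c : ℕ) : D.JT θ (fib S be c) ≤ D.JJ θ S be :=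
  le_iSup (fun c => D.JT θ (fib S be c)) c

theorem Kk_mem_JT {A S : Finset U} (h : A ⊆ S) (h' : D.et θ (S \ A) < 0) :
    D.Kk A (S \ A) ∈ D.JT θ S := Ideal.subset_span ⟨A, h, h', rfl⟩

theorem JT_empty : D.JT θ ∅ = ⊥ := by
  rw [JT, Ideal.span_eq_bot]
  rintro _ ⟨A, -, h, -⟩
  simp [et] at h

theorem stab_JJ (S : Finset U) (be : U → ℕ) : Stab be (D.JJ θ S be) := fun c f hf => by
  refine Submodule.iSup_induction (motive := fun f => db be c f ∈ D.JJ θ S be) _ hf
    (fun c' x hx => JT_le_JJ S be c' (stab_span ?_ c x hx)) (by simp) fun x y a b => ?_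
  · rintro _ ⟨A, hA, -, rfl⟩ c''
    rw [Kk_KR]
    refine db_KR (fun x hx => ?_) _
    rw [mem_product, mem_sdiff] at hx
    rw [(mem_fib.1 (hA hx.1)).2, (mem_fib.1 hx.2.1).2]
  · rw [map_add]; exact add_mem a b

theorem mem_F {S : Finset U} {ρ : Set (Finset U)} {p : ℤ} {f : P U} :
    f ∈ D.F θ S ρ p ↔ f ∈ PS S ∧ ∀ be, D.Adm θ S be → Resp S ρ be →
      f ∈ OO be (D.JJ θ S be) (p + D.c2 S be - (S.image be).card) := by
  simp [F, Submodule.mem_iInf]

theorem resp_empty (S : Finset U) (be : U → ℕ) : Resp S ∅ be := fun _ h => h.elim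

theorem F_mono {S : Finset U} {ρ ρ' : Set (Finset U)} (h : ρ ⊆ ρ') {p q : ℤ} (hp : p ≤ q) :
    D.F θ S ρ p ≤ D.F θ S ρ' q := fun _ hf => mem_F.2 ⟨(mem_F.1 hf).1, fun be h1 h2 =>
  OO_mono (stab_JJ S be) le_rfl (by omega) ((mem_F.1 hf).2 be h1 fun T hT => h2 T (h hT))⟩

theorem F_exh {S : Finset U} (ρ : Set (Finset U)) {f : P U} (hf : f ∈ PS S) :
    ∃ p, f ∈ D.F θ S ρ p := ⟨2 * f.totalDegree + S.card, mem_F.2 ⟨hf, fun be _ _ =>
  OO_mono (stab_JJ S be) le_rfl (by have := card_image_le (s := S) (f := be); omega)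
    (OO_deg be _ f)⟩⟩

theorem KR_mem_JJ {A B : Finset U} (hd : Disjoint A B) {be : U → ℕ} {c : ℕ}
    (h : D.et θ (fib B be c) < 0) {R : Finset (U × U)}
    (hR : ∀ x ∈ A ×ˢ B, be x.1 = be x.2 → x ∈ R) : D.KR R ∈ D.JJ θ (A ∪ B) be := by
  have e : fib (A ∪ B) be c \ fib A be c = fib B be c := by
    rw [fib_union, union_sdiff_cancel_left (fib_disj hd be c c)]
  have := Kk_mem_JT (D := D) (θ := θ) (A := fib A be c) (S := fib (A ∪ B) be c)
    (by rw [fib_union]; exact subset_union_left) (by rwa [e])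
  rw [e, Kk_KR] at this
  refine Ideal.mem_of_dvd _ (KR_dvd fun x hx => ?_) (JT_le_JJ _ be c this)
  simp only [mem_product, mem_fib] at hx
  exact hR x (mem_product.2 ⟨hx.1.1, hx.2.1⟩) (hx.1.2.trans hx.2.2.symm)

theorem exists_fib_neg {B : Finset U} (be : U → ℕ) (h : D.et θ B < 0) :
    ∃ c, D.et θ (fib B be c) < 0 := by
  by_contra k
  rw [et_fib B be] at h
  exact h.not_ge (sum_nonneg fun c _ => not_lt.1 fun e => k ⟨c, e⟩)

theorem JT_le_JJ' (S : Finset U) (be : U → ℕ) : D.JT θ S ≤ D.JJ θ S be := by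
  rw [JT, Ideal.span_le]
  rintro _ ⟨A, hA, h, rfl⟩
  obtain ⟨c, hc⟩ := exists_fib_neg be h
  have := KR_mem_JJ (A := A) disjoint_sdiff hc (R := A ×ˢ (S \ A)) fun x hx _ => hx
  rwa [union_sdiff_of_subset hA, ← Kk_KR] at this

theorem F_of_JT {S : Finset U} (ρ : Set (Finset U)) (p : ℤ) {f : P U}
    (hf : f ∈ PS S) (hJ : f ∈ D.JT θ S) : f ∈ D.F θ S ρ p :=
  mem_F.2 ⟨hf, fun be _ _ => OO_of_mem (stab_JJ S be) _ (JT_le_JJ' S be hJ)⟩

theorem fib_zero (S : Finset U) (c : ℕ) : fib S (fun _ => 0) c = if c = 0 then S else ∅ := by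
  ext v; split_ifs with h <;> simp [mem_fib, h, Ne.symm]

theorem JJ_zero (S : Finset U) : D.JJ θ S (fun _ => 0) ≤ D.JT θ S := iSup_le fun c => by
  rw [fib_zero]; split_ifs
  · exact le_rfl
  · rw [JT_empty]; exact bot_le

theorem adm_zero {S : Finset U} (h0 : D.et θ S = 0) : D.Adm θ S fun _ => 0 := fun c => by
  rw [fib_zero]; split_ifs
  · exact h0
  · rfl

theorem JT_of_F {S : Finset U} (hS : S.Nonempty) (h0 : D.et θ S = 0) {p : ℤ} (hp : p ≤ 0) {f : P U}
    (hf : f ∈ D.F θ S ∅ p) : f ∈ D.JT θ S := by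
  have := (mem_F.1 hf).2 _ (adm_zero h0) (resp_empty _ _)
  rw [OO_neg (by rw [image_const hS]; simp [c2]; omega)] at this
  exact JJ_zero S this

theorem F_empty {p : ℤ} (hp : p < 0) {f : P U} (hf : f ∈ D.F θ ∅ ∅ p) : f = 0 := by
  have := (mem_F.1 hf).2 _ (adm_zero rfl) (resp_empty _ _)
  rw [OO_neg (by simpa [c2] using hp)] at this
  simpa [JT_empty] using JJ_zero ∅ this

theorem one_mem_F : (1 : P U) ∈ D.F θ ∅ ∅ 0 := mem_F.2 ⟨PS_one _, fun be _ _ => by
  simpa [c2] using OO_const (D.JJ θ ∅ be) fun c => Derivation.map_one_eq_zero (db be c)⟩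

theorem dd_F {S : Finset U} {p : ℤ} {f : P U} (hf : f ∈ D.F θ S ∅ p) :
    dd S f ∈ D.F θ S ∅ (p - 2) := by
  obtain ⟨h1, h2⟩ := mem_F.1 hf
  refine mem_F.2 ⟨dd_PS _ h1, fun be a b => ?_⟩
  rw [der_congr (dd S) (∑ c ∈ univ.image be, db be c) (fun v hv => by
    simp [dd_X, hv, der_sum, db_X]) h1, der_sum]
  exact sum_mem fun c _ => OO_mono (stab_JJ S be) le_rfl (by omega)
    (OO_db (stab_JJ S be) (h2 be a b) c)

theorem X_mul_F {S : Finset U} {ρ : Set (Finset U)} {p : ℤ} {f : P U} (hf : f ∈ D.F θ S ρ p) {v : U}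
    (hv : v ∈ S) : X v * f ∈ D.F θ S ρ (p + 2) := by
  obtain ⟨h1, h2⟩ := mem_F.1 hf
  exact mem_F.2 ⟨PS_mul (PS_X hv) h1, fun be a b => OO_mono (stab_JJ S be) le_rfl (by omega)
    (OO_mul (stab_JJ S be) (OO_X be _ v) (h2 be a b))⟩

theorem kap_fib (A B : Finset U) (be : U → ℕ) :
    D.kap A B = ∑ c ∈ univ.image be, ∑ c' ∈ univ.image be, D.kap (fib A be c) (fib B be c') := by
  have h := fun (S : Finset U) (g : U → ℕ) => (sum_fiberwise_of_maps_to (s := S)
    (fun v _ => mem_image_of_mem be (mem_univ v)) g).symm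
  rw [kap, h A]
  refine sum_congr rfl fun c _ => ?_
  simp only [kap]
  rw [sum_comm (s := univ.image be)]
  exact sum_congr rfl fun p _ => h B _

theorem same_fib (A B : Finset U) (be : U → ℕ) :
    ∑ x ∈ (A ×ˢ B).filter (fun x => be x.1 = be x.2), D.W x.1 x.2 =
      ∑ c ∈ univ.image be, D.kap (fib A be c) (fib B be c) := by
  rw [← sum_fiberwise_of_maps_to (g := fun x : U × U => be x.1) (t := univ.image be)
    fun v _ => mem_image_of_mem be (mem_univ _)]
  refine sum_congr rfl fun c _ => ?_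
  rw [kap_eq]
  refine sum_congr ?_ fun _ _ => rfl
  ext x
  simp only [mem_filter, mem_product, mem_fib]
  constructor
  · rintro ⟨⟨⟨a, b⟩, e⟩, e'⟩; exact ⟨⟨a, e'⟩, b, e ▸ e'⟩
  · rintro ⟨⟨a, e⟩, b, e'⟩; exact ⟨⟨⟨a, b⟩, e.trans e'.symm⟩, e⟩

/-- Arrows between different fibres from A to B. -/
def cx (D : Dat U I) (A B : Finset U) (be : U → ℕ) : ℕ :=
  ∑ x ∈ (A ×ˢ B).filter fun x => be x.1 ≠ be x.2, D.W x.1 x.2

theorem cx_symm (hs : D.Sym θ) {A B : Finset U} {be : U → ℕ} (a : D.Adm θ A be)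
    (b : D.Adm θ B be) : D.cx A B be = D.cx B A be := by
  have h : ∀ A B : Finset U, ∑ c ∈ univ.image be, D.kap (fib A be c) (fib B be c) + D.cx A B be =
      D.kap A B := fun A B => by
    rw [← same_fib, kap_eq, cx, sum_filter_add_sum_filter_not]
  have h1 := h A B
  have h2 := h B A
  rw [kap_fib A B be] at h1
  rw [kap_fib B A be, sum_comm (s := univ.image be) (t := univ.image be),
    sum_congr rfl fun c _ => hs _ _ (b c) (a c),
    sum_congr rfl fun c _ => sum_congr rfl fun c' _ => hs _ _ (b c') (a c)] at h2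
  omega

theorem c2_union {A B : Finset U} (hd : Disjoint A B) (be : U → ℕ) :
    D.c2 (A ∪ B) be = D.c2 A be + D.c2 B be + D.cx A B be + D.cx B A be := by
  simp only [c2, cx, sum_filter, sum_product, sum_union hd, sum_add_distrib]
  omega

theorem adm_or {A B : Finset U} (hd : Disjoint A B) (hA : D.et θ A = 0) {be : U → ℕ}
    (h : D.Adm θ (A ∪ B) be) :
    (D.Adm θ A be ∧ D.Adm θ B be) ∨
      ((∃ c, D.et θ (fib B be c) < 0) ∧ ∃ c, D.et θ (fib A be c) < 0) := by
  have e : ∀ c, D.et θ (fib A be c) + D.et θ (fib B be c) = 0 := fun c => by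
    rw [← et_union (fib_disj hd be c c), ← fib_union]; exact h c
  by_cases a : D.Adm θ A be
  · exact Or.inl ⟨a, fun c => by have := e c; rwa [a c, zero_add] at this⟩
  rw [et_fib A be] at hA
  have z : ∀ c, c ∉ univ.image be → D.et θ (fib A be c) = 0 := fun c hc => by
    rw [show fib A be c = ∅ from eq_empty_of_forall_notMem fun v hv =>
      hc (mem_image.2 ⟨v, mem_univ _, (mem_fib.1 hv).2⟩)]; rfl
  refine Or.inr ⟨by_contra fun k => a fun c => ?_, by_contra fun k => a fun c => ?_⟩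
  · by_cases hc : c ∈ univ.image be
    · refine (sum_eq_zero_iff_of_nonpos fun c _ => ?_).1 hA c hc
      have := e c
      have := not_lt.1 fun e => k ⟨c, e⟩
      linarith
    · exact z c hc
  · by_cases hc : c ∈ univ.image be
    · exact (sum_eq_zero_iff_of_nonneg fun c _ => not_lt.1 fun e => k ⟨c, e⟩).1 hA c hc
    · exact z c hc

theorem JJ_mul_mem {S : Finset U} {be : U → ℕ} {k : P U} {J : Ideal (P U)}
    (h : ∀ c, ∀ T ⊆ fib S be c, D.et θ (fib S be c \ T) < 0 →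
      D.Kk T (fib S be c \ T) * k ∈ J) {f : P U} (hf : f ∈ D.JJ θ S be) : f * k ∈ J := by
  have : D.JJ θ S be ≤ Submodule.comap (LinearMap.toSpanSingleton (P U) (P U) k) J :=
      iSup_le fun c => by
    rw [JT, Ideal.span, Submodule.span_le]
    rintro _ ⟨T, hT, h', rfl⟩
    exact h c T hT h'
  exact this hf

theorem JJ_same {A B : Finset U} (hd : Disjoint A B) {be : U → ℕ} (b : D.Adm θ B be) {f : P U}
    (hf : f ∈ D.JJ θ A be ⊔ D.JJ θ B be) :
    f * D.KR ((A ×ˢ B).filter fun x => be x.1 = be x.2) ∈ D.JJ θ (A ∪ B) be := by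
  obtain ⟨f1, h1, f2, h2, rfl⟩ := Submodule.mem_sup.1 hf
  have dA := disjoint_left.1 hd
  rw [add_mul]
  refine add_mem (JJ_mul_mem (fun c T hT h => ?_) h1) (JJ_mul_mem (fun c T hT h => ?_) h2)
  · have hT' : T ⊆ fib (A ∪ B) be c := by rw [fib_union]; exact hT.trans subset_union_left
    have := Kk_mem_JT (D := D) (θ := θ) hT' (by
      rw [et_sdiff hT', fib_union, et_union (fib_disj hd be c c), b c, add_zero, ← et_sdiff hT]
      exact h)
    rw [Kk_KR] at this
    rw [Kk_KR, ← KR_union]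
    · refine Ideal.mem_of_dvd _ (KR_dvd fun x hx => ?_) (JT_le_JJ _ be c this)
      have := @hT x.1
      simp only [mem_product, mem_fib, mem_union, mem_sdiff, mem_filter] at hx this ⊢
      grind
    · refine disjoint_left.2 fun x hx hy => ?_
      simp only [mem_product, mem_fib, mem_sdiff, mem_filter] at hx hy
      exact dA hx.2.1.1 hy.1.2
  · have hT' : fib A be c ∪ T ⊆ fib (A ∪ B) be c := by
      rw [fib_union]; exact union_subset_union_right hT
    have e : fib (A ∪ B) be c \ (fib A be c ∪ T) = fib B be c \ T := by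
      ext v
      have := @dA v
      simp only [mem_fib, mem_union, mem_sdiff]
      grind
    have := Kk_mem_JT (D := D) (θ := θ) hT' (by rwa [e])
    rw [e, Kk_KR] at this
    rw [Kk_KR, ← KR_union]
    · refine Ideal.mem_of_dvd _ (KR_dvd fun x hx => ?_) (JT_le_JJ _ be c this)
      simp only [mem_product, mem_fib, mem_union, mem_sdiff, mem_filter] at hx ⊢
      grind
    · refine disjoint_left.2 fun x hx hy => ?_
      simp only [mem_product, mem_sdiff, mem_filter] at hx hy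
      exact dA hy.1.1 (mem_fib.1 (hT hx.1)).1

theorem mul_OO {A B : Finset U} {be : U → ℕ} (a : D.Adm θ A be) (b : D.Adm θ B be) {p q : ℤ}
    {f g : P U} (hf : f ∈ D.F θ A ∅ p) (hg : g ∈ D.F θ B ∅ q) :
    f * g ∈ OO be (D.JJ θ A be ⊔ D.JJ θ B be)
      (p + D.c2 A be - (A.image be).card + (q + D.c2 B be - (B.image be).card)) := by
  have s := stab_sup (stab_JJ (D := D) (θ := θ) A be) (stab_JJ (D := D) (θ := θ) B be)
  exact OO_mul s (OO_mono s le_sup_left le_rfl ((mem_F.1 hf).2 be a (resp_empty _ _)))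
    (OO_mono s le_sup_right le_rfl ((mem_F.1 hg).2 be b (resp_empty _ _)))

theorem prod_OO (hs : D.Sym θ) {A B : Finset U} (hd : Disjoint A B) {be : U → ℕ}
    (a : D.Adm θ A be) (b : D.Adm θ B be) {p q : ℤ} {f g : P U} (hf : f ∈ D.F θ A ∅ p)
    (hg : g ∈ D.F θ B ∅ q) {R : Finset (U × U)} (h1 : R ⊆ A ×ˢ B)
    (h2 : ∀ x ∈ R, be x.1 ≠ be x.2) :
    f * g * D.KR (A ×ˢ B \ R) ∈ OO be (D.JJ θ (A ∪ B) be) (p + q + D.c2 (A ∪ B) be -
      2 * (∑ x ∈ R, D.W x.1 x.2 : ℕ) - (A.image be).card - (B.image be).card) := by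
  have s := stab_JJ (D := D) (θ := θ) (A ∪ B) be
  have hR : R ⊆ (A ×ˢ B).filter fun x => be x.1 ≠ be x.2 := fun x hx =>
    mem_filter.2 ⟨h1 hx, h2 x hx⟩
  have e : A ×ˢ B \ R = ((A ×ˢ B).filter fun x => be x.1 = be x.2) ∪
      (((A ×ˢ B).filter fun x => be x.1 ≠ be x.2) \ R) := by
    ext x
    have := h2 x
    simp only [mem_sdiff, mem_union, mem_filter]
    tauto
  rw [e, KR_union (disjoint_left.2 fun x hx hy => by
    simp only [mem_sdiff, mem_filter] at hx hy; exact hy.1.2 hx.2), ← mul_assoc]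
  have k1 := OO_kill (db_KR fun x hx => (mem_filter.1 hx).2) (fun f hf => JJ_same hd b hf)
    (mul_OO a b hf hg)
  refine OO_mono s le_rfl ?_ (OO_mul s k1 (OO_mono s bot_le le_rfl (KR_OO be _)))
  have := sum_sdiff (f := fun x => D.W x.1 x.2) hR
  rw [c2_union hd, ← cx_symm hs a b, cx, ← this]
  push_cast
  omega

theorem card_image_union (A B : Finset U) (be : U → ℕ) :
    ((A ∪ B).image be).card ≤ (A.image be).card + (B.image be).card := by
  rw [image_union]; exact card_union_le _ _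

theorem prod_F (hs : D.Sym θ) {A B : Finset U} (hd : Disjoint A B) (hA : D.et θ A = 0)
    {p q : ℤ} {f g : P U} (hf : f ∈ D.F θ A ∅ p) (hg : g ∈ D.F θ B ∅ q)
    {R : Finset (U × U)} (h1 : R ⊆ A ×ˢ B) {ρ : Set (Finset U)}
    (h2 : ∀ be, Resp (A ∪ B) ρ be → ∀ x ∈ R, be x.1 ≠ be x.2) :
    f * g * D.KR (A ×ˢ B \ R) ∈ D.F θ (A ∪ B) ρ (p + q - 2 * (∑ x ∈ R, D.W x.1 x.2 : ℕ)) := by
  have s := stab_JJ (D := D) (θ := θ) (A ∪ B)
  refine mem_F.2 ⟨PS_mul (PS_mul (PS_mono subset_union_left (mem_F.1 hf).1)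
    (PS_mono subset_union_right (mem_F.1 hg).1)) (KR_PS fun x hx => ?_), fun be ad rs => ?_⟩
  · simp only [mem_sdiff, mem_product, mem_union] at hx ⊢; tauto
  rcases adm_or hd hA ad with ⟨a, b⟩ | ⟨⟨c, hc⟩, -⟩
  · exact OO_mono (s be) le_rfl (by have := card_image_union A B be; omega)
      (prod_OO hs hd a b hf hg h1 (h2 be rs))
  · exact OO_of_mem (s be) _ (Ideal.mul_mem_left _ _ (KR_mem_JJ hd hc fun x hx e =>
      mem_sdiff.2 ⟨hx, fun k => h2 be rs x k e⟩))

theorem mul_F (hs : D.Sym θ) {A B : Finset U} (hd : Disjoint A B) (hA : D.et θ A = 0)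
    (hB : D.et θ B = 0) {p q : ℤ} {f g : P U} (hf : f ∈ D.F θ A ∅ p) (hg : g ∈ D.F θ B ∅ q) :
    f * g * D.Kk A B ∈ D.F θ (A ∪ B) ∅ (p + q) := by
  simpa [Kk_KR] using prod_F hs hd hA hf hg (empty_subset _) (ρ := ∅) fun _ _ _ h => by simp at h

theorem split_F (hs : D.Sym θ) {A B b : Finset U} (hd : Disjoint A B) (hA : D.et θ A = 0)
    (hB : D.et θ B = 0) (hb : b ⊆ A ∪ B) (h1 : D.et θ (b ∩ A) = 0) (h2 : D.et θ (b ∩ B) = 0) {p q : ℤ}
    {f g : P U} (hf : f ∈ D.F θ A ∅ p) (hg : g ∈ D.F θ B ∅ q) :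
    f * g * D.KR (A ×ˢ B \ (b ∩ A) ×ˢ (b ∩ B)) ∈
      D.F θ (A ∪ B) {b ∩ A, (A ∪ B) \ b} (p + q - 2 * D.kap (b ∩ A) (b ∩ B)) := by
  rw [kap_eq]
  refine prod_F hs hd hA hf hg (product_subset_product inter_subset_right inter_subset_right)
    fun be rs x hx e => ?_
  rw [mem_product] at hx
  have := rs (b ∩ A) (by simp) x.1 (mem_union_left _ (mem_inter.1 hx.1).2) x.2
    (mem_union_right _ (mem_inter.1 hx.2).2) e hx.1
  exact disjoint_left.1 hd (mem_inter.1 this).2 (mem_inter.1 hx.2).2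

theorem mul_F_cut (hs : D.Sym θ) {A B : Finset U} (hd : Disjoint A B) (hA : D.et θ A = 0)
    {p q : ℤ} {f g : P U} (hf : f ∈ D.F θ A ∅ p) (hg : g ∈ D.F θ B ∅ q) :
    f * g ∈ D.F θ (A ∪ B) {A} (p + q - 2 * D.kap A B) := by
  have := prod_F hs hd hA hf hg Subset.rfl (ρ := {A}) fun be rs x hx e => by
    rw [mem_product] at hx
    exact disjoint_left.1 hd (rs A rfl x.1 (mem_union_left _ hx.1) x.2 (mem_union_right _ hx.2) e
      hx.1) hx.2
  simpa [KR, kap_eq] using this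

theorem prod_fib (A B : Finset U) (be : U → ℕ) (y : ℕ → P U) :
    ∏ x ∈ A ×ˢ B, (y (be x.1) - y (be x.2)) ^ D.W x.1 x.2 =
      ∏ c ∈ univ.image be, ∏ c' ∈ univ.image be,
        (y c - y c') ^ D.kap (fib A be c) (fib B be c') := by
  have h := fun (S : Finset U) (g : U → P U) => (prod_fiberwise_of_maps_to (s := S)
    (fun v _ => mem_image_of_mem be (mem_univ v)) g).symm
  rw [prod_product, h A]
  refine prod_congr rfl fun c _ => ?_
  simp only [kap, ← prod_pow_eq_pow_sum]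
  rw [prod_comm (s := univ.image be)]
  refine prod_congr rfl fun p hp => ?_
  rw [h B]
  exact prod_congr rfl fun c' _ => prod_congr rfl fun q hq => by
    rw [(mem_filter.1 hp).2, (mem_filter.1 hq).2]

theorem Kk_comm_OO (hs : D.Sym θ) {A B : Finset U} {be : U → ℕ} (a : D.Adm θ A be)
    (b : D.Adm θ B be) :
    D.Kk A B - (-1 : ℚ) ^ D.kap A B • D.Kk B A ∈ OO be ⊥ (2 * D.kap A B - 2) := by
  let y : ℕ → P U := fun c => if h : ∃ v, be v = c then X h.choose else 0
  have hy : ∀ v, X v - y (be v) ∈ OO be ⊥ 0 := fun v => OO_const _ fun c => by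
    have h : ∃ w, be w = be v := ⟨v, rfl⟩
    simp only [y, dif_pos h, map_sub, db_X, h.choose_spec, sub_self]
  have key : ∀ A B : Finset U, D.Kk A B - ∏ c ∈ univ.image be, ∏ c' ∈ univ.image be,
      (y c - y c') ^ D.kap (fib A be c) (fib B be c') ∈ OO be ⊥ (2 * D.kap A B - 2) := fun A B => by
    rw [← prod_fib, Kk_KR, kap_eq]
    refine (Cg.prod _ fun x _ => Cg.pow ⟨sub_mem (OO_X _ _ _) (OO_X _ _ _), ?_⟩ _).2
    have := sub_mem (hy x.1) (hy x.2)
    rwa [sub_sub_sub_comm] at this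
  have e : D.kap B A = D.kap A B := by
    rw [kap_fib A B be, kap_fib B A be, sum_comm]
    exact sum_congr rfl fun c _ => sum_congr rfl fun c' _ => hs _ _ (b c') (a c)
  have k2 := Submodule.smul_mem _ ((-1 : ℚ) ^ D.kap A B) (key B A)
  have e2 : ∏ c ∈ univ.image be, ∏ c' ∈ univ.image be,
      (y c - y c') ^ D.kap (fib A be c) (fib B be c') = (-1 : ℚ) ^ D.kap A B •
      ∏ c ∈ univ.image be, ∏ c' ∈ univ.image be,
        (y c - y c') ^ D.kap (fib B be c) (fib A be c') := by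
    rw [prod_comm (s := univ.image be) (f := fun c c' =>
      (y c - y c') ^ D.kap (fib B be c) (fib A be c')), kap_fib A B be, smul_eq_C_mul]
    simp only [← prod_pow_eq_pow_sum, map_prod, ← prod_mul_distrib]
    refine prod_congr rfl fun c _ => prod_congr rfl fun c' _ => ?_
    rw [hs _ _ (b c') (a c), map_pow, ← mul_pow]
    simp
  have := sub_mem (key A B) (e ▸ k2)
  rwa [e2, smul_sub, sub_sub_sub_cancel_right] at this

theorem JJ_le_of_disj {A B : Finset U} {be : U → ℕ} (h : Disjoint (A.image be) (B.image be)) :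
    D.JJ θ A be ≤ D.JJ θ (A ∪ B) be := iSup_le fun c => by
  by_cases e : c ∈ A.image be
  · have : fib A be c = fib (A ∪ B) be c := by
      rw [fib_union, show fib B be c = ∅ from eq_empty_of_forall_notMem fun v hv =>
        disjoint_left.1 h e (mem_image.2 ⟨v, mem_fib.1 hv⟩), union_empty]
    rw [this]; exact JT_le_JJ _ be c
  · rw [show fib A be c = ∅ from eq_empty_of_forall_notMem fun v hv =>
      e (mem_image.2 ⟨v, mem_fib.1 hv⟩), JT_empty]
    exact bot_le

theorem comm_F (hs : D.Sym θ) {A B : Finset U} (hd : Disjoint A B) (hA : D.et θ A = 0)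
    (hB : D.et θ B = 0) {p q : ℤ} {f g : P U} (hf : f ∈ D.F θ A ∅ p) (hg : g ∈ D.F θ B ∅ q) :
    f * g * D.Kk A B - (-1 : ℚ) ^ D.kap A B • (g * f * D.Kk B A) ∈
      D.F θ (A ∪ B) ∅ (p + q - 1) := by
  have s := stab_JJ (D := D) (θ := θ) (A ∪ B)
  have m1 := mul_F hs hd hA hB hf hg
  have m2 := mul_F hs hd.symm hB hA hg hf
  rw [union_comm] at m2
  refine mem_F.2 ⟨sub_mem (mem_F.1 m1).1 (Submodule.smul_mem _ _ (mem_F.1 m2).1),
    fun be ad _ => ?_⟩
  rcases adm_or hd hA ad with ⟨a, b⟩ | ⟨⟨c, hc⟩, c', hc'⟩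
  · by_cases k : Disjoint (A.image be) (B.image be)
    · have k1 := OO_mono (s be) (sup_le (JJ_le_of_disj k)
        (by rw [union_comm]; exact JJ_le_of_disj k.symm)) le_rfl (mul_OO a b hf hg)
      have k2 := OO_mul (s be) k1 (OO_mono (s be) bot_le le_rfl (Kk_comm_OO hs a b))
      have e : D.cx A B be = D.kap A B := by
        rw [cx, kap_eq, filter_true_of_mem]
        exact fun x hx e => disjoint_left.1 k (mem_image_of_mem be (mem_product.1 hx).1)
          (e ▸ mem_image_of_mem be (mem_product.1 hx).2)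
      rw [mul_comm g f, ← mul_smul_comm, ← mul_sub]
      refine OO_mono (s be) le_rfl ?_ k2
      rw [c2_union hd, ← cx_symm hs a b, e, image_union, card_union_of_disjoint k]
      push_cast
      omega
    · have k1 := prod_OO hs hd a b hf hg (empty_subset _) (by simp)
      have k2 := prod_OO hs hd.symm b a hg hf (empty_subset _) (by simp)
      have lt : ((A ∪ B).image be).card < (A.image be).card + (B.image be).card := by
        rw [image_union]
        exact (card_union_le _ _).lt_of_ne fun e => k (card_union_eq_card_add_card.1 e)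
      rw [sdiff_empty, ← Kk_KR, sum_empty] at k1 k2
      rw [union_comm] at k2
      exact sub_mem (OO_mono (s be) le_rfl (by omega) k1)
        (Submodule.smul_mem _ _ (OO_mono (s be) le_rfl (by omega) k2))
  · have k1 := KR_mem_JJ hd hc (R := A ×ˢ B) fun x hx _ => hx
    have k2 := KR_mem_JJ hd.symm hc' (R := B ×ˢ A) fun x hx _ => hx
    rw [union_comm] at k2
    rw [← Kk_KR] at k1 k2
    exact sub_mem (OO_of_mem (s be) _ (Ideal.mul_mem_left _ _ k1))
      (Submodule.smul_mem _ _ (OO_of_mem (s be) _ (Ideal.mul_mem_left _ _ k2)))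

end Dat

end Pool.Agent.Lib.MP_33bfb2_co.Th.R
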