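import Pool.Agent.Lib.MP_33bfb2_co.Th.RV2

namespace Pool.Agent.Lib.MP_33bfb2_co.Th.R

open MvPolynomial Finset Equiv
open scoped Pointwise

variable {U I : Type} [Fintype U] [LinearOrder U] [Fintype I] [DecidableEq I]

theorem v3_dual {M : Submodule ℚ (P U)} {v : P U}
    (h : ∀ ψ : P U →ₗ[ℚ] ℚ, (∀ f ∈ M, ψ f = 0) → ψ v = 0) : v ∈ M := by
  by_contra hv
  obtain ⟨f, h1, h2⟩ := Submodule.exists_le_ker_of_notMem hv
  exact h1 (h f fun g hg => h2 hg)

theorem v3_mul {S : Finset U} {f g : P U} (hf : f ∈ PS S) (hg : g ∈ PS S) : f * g ∈ PS S :=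
  (supported ℚ (S : Set U)).mul_mem hf hg

theorem v3_one (S : Finset U) : (1 : P U) ∈ PS S := (supported ℚ (S : Set U)).one_mem

theorem v3_X {S : Finset U} {v : U} (hv : v ∈ S) : (X v : P U) ∈ PS S :=
  X_mem_supported.2 hv

theorem v3_mono {S T : Finset U} (h : S ⊆ T) : PS S ≤ PS T := fun _ hf =>
  supported_mono (R := ℚ) (coe_subset.2 h) hf

theorem v3_univ (f : P U) : f ∈ PS (univ : Finset U) := by
  show f ∈ supported ℚ ((univ : Finset U) : Set U)
  rw [coe_univ, supported_univ]; trivial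

theorem v3_compl {S T : Finset U} (h : Disjoint S T) : PS S ≤ PS Tᶜ :=
  v3_mono fun _ hv => mem_compl.2 (disjoint_left.1 h hv)

theorem v3_monomial {S : Finset U} {α : U →₀ ℕ} (h : ∀ v, v ∉ S → α v = 0) :
    (monomial α 1 : P U) ∈ PS S := by
  show _ ∈ supported ℚ (S : Set U)
  rw [mem_supported, vars_monomial one_ne_zero]
  intro v hv
  by_contra e
  exact Finsupp.mem_support_iff.1 hv (h v e)

theorem v3_ind {S : Finset U} {f : P U} (hf : f ∈ PS S) (M : Submodule ℚ (P U))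
    (h : ∀ α : U →₀ ℕ, (∀ v, v ∉ S → α v = 0) → (monomial α 1 : P U) ∈ M) : f ∈ M := by
  have hf' : (f.vars : Set U) ⊆ S := mem_supported.1 hf
  rw [f.as_sum]
  refine Submodule.sum_mem _ fun α hα => ?_
  have : (monomial α (coeff α f) : P U) = coeff α f • monomial α 1 := by
    rw [smul_monomial, smul_eq_mul, mul_one]
  rw [this]
  refine M.smul_mem _ (h α fun v hv => ?_)
  by_contra e
  exact hv (hf' ((mem_vars_iff_mem_support v).2 ⟨α, hα, Finsupp.mem_support_iff.2 e⟩))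

theorem v3_Kk (D : Dat U I) {A B S : Finset U} (hA : A ⊆ S) (hB : B ⊆ S) : D.Kk A B ∈ PS S :=
  (supported ℚ (S : Set U)).prod_mem fun _ hp => (supported ℚ (S : Set U)).prod_mem fun _ hq =>
    pow_mem (sub_mem (X_mem_supported.2 (hA hp)) (X_mem_supported.2 (hB hq))) _

theorem Ct_monomial (φ : P U →ₗ[ℚ] ℚ) (T : Finset U) (α : U →₀ ℕ) :
    Ct φ T (monomial α 1) =
      φ (monomial (α.filter (· ∈ T)) 1) • monomial (α.filter (· ∉ T)) 1 := by
  have := (basisMonomials U ℚ).constr_basis ℚ (fun α : U →₀ ℕ =>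
    φ (monomial (α.filter (· ∈ T)) 1) • (monomial (α.filter (· ∉ T)) 1 : P U)) α
  rw [coe_basisMonomials] at this
  exact this

theorem v3_ddX (T : Finset U) (v : U) : dd T (X v : P U) = if v ∈ T then 1 else 0 := by
  have : dd T (X v : P U) = ∑ u ∈ T, pderiv u (X v : P U) := by
    unfold dd
    induction T using Finset.induction_on with
    | empty => simp
    | insert a s ha ih => rw [sum_insert ha, sum_insert ha, Derivation.add_apply, ih]
  rw [this]
  simp [pderiv_X, Pi.single_apply]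

theorem v3_dd_eq {S A B : Finset U} (h : ∀ v ∈ S, v ∈ A ↔ v ∈ B) {f : P U} (hf : f ∈ PS S) :
    dd A f = dd B f := by
  refine Derivation.eqOn_adjoin (s := X '' (S : Set U)) ?_ hf
  rintro _ ⟨v, hv, rfl⟩
  simp only [v3_ddX, h v hv]

theorem v3_dd_zero {S A : Finset U} (h : Disjoint S A) {f : P U} (hf : f ∈ PS S) :
    dd A f = 0 := by
  rw [v3_dd_eq (B := ∅) (fun v hv => by simpa using disjoint_left.1 h hv) hf]
  simp [dd]

theorem v3_dd_mem (A : Finset U) {S : Finset U} {f : P U} (hf : f ∈ PS S) : dd A f ∈ PS S := by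
  have hf' : f ∈ Algebra.adjoin ℚ (X '' (S : Set U)) := hf
  induction hf' using Algebra.adjoin_induction with
  | mem x hx =>
    obtain ⟨v, -, rfl⟩ := hx
    rw [v3_ddX]; split_ifs
    exacts [v3_one S, zero_mem _]
  | algebraMap r => rw [Derivation.map_algebraMap]; exact zero_mem _
  | add x y hx hy ihx ihy => rw [map_add]; exact add_mem (ihx hx) (ihy hy)
  | mul x y hx hy ihx ihy =>
    rw [Derivation.leibniz, smul_eq_mul, smul_eq_mul]
    exact add_mem (v3_mul hx (ihy hy)) (v3_mul hy (ihx hx))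

theorem v3_dd_mul (A : Finset U) (f g : P U) : dd A (f * g) = dd A f * g + f * dd A g := by
  rw [Derivation.leibniz, smul_eq_mul, smul_eq_mul]; ring

theorem v3_dd_Kk (D : Dat U I) {A B S : Finset U} (hA : A ⊆ S) (hB : B ⊆ S) :
    dd S (D.Kk A B) = 0 := by
  have hm : ∀ f g : P U, dd S f = 0 → dd S g = 0 → dd S (f * g) = 0 := fun f g hf hg => by
    rw [v3_dd_mul, hf, hg]; simp
  refine prod_induction _ (fun f => dd S f = 0) hm (by simp) fun p hp =>
    prod_induction _ (fun f => dd S f = 0) hm (by simp) fun q hq => ?_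
  rw [Derivation.leibniz_pow, map_sub, v3_ddX, v3_ddX, if_pos (hA hp), if_pos (hB hq)]
  simp

theorem v3_OO_ind {be : U → ℕ} {J : Ideal (P U)} (Q : ℤ → P U → Prop) (L : P U → P U)
    (h0 : ∀ x f, x < 0 → Q x f → L f ∈ J)
    (h1 : ∀ x f c, 0 ≤ x → Q x f → ∃ g, Q (x - 2) g ∧ db be c (L f) = L g) (x : ℤ) (f : P U)
    (hf : Q x f) : L f ∈ OO be J x := by
  obtain ⟨n, hn⟩ : ∃ n : ℕ, x < n := ⟨x.toNat + 1, by omega⟩
  induction n generalizing x f with
  | zero => exact (OO_neg (by omega)).2 (h0 x f (by omega) hf)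
  | succ n ih =>
    rcases lt_or_ge x 0 with hx | hx
    · exact (OO_neg hx).2 (h0 x f hx hf)
    · refine (OO_nonneg hx).2 fun c => ?_
      obtain ⟨g, hg, e⟩ := h1 x f c hx hf
      rw [e]; exact ih _ g hg (by omega)

namespace Dat

variable {D : Dat U I} {θ : I → ℚ}

theorem Ct_mul (φ : P U →ₗ[ℚ] ℚ) {T : Finset U} {f g : P U} (hf : f ∈ PS Tᶜ) (hg : g ∈ PS T) :
    Ct φ T (f * g) = φ g • f := by
  have key : ∀ α β : U →₀ ℕ, (∀ v, v ∉ Tᶜ → α v = 0) → (∀ v, v ∉ T → β v = 0) →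
      Ct φ T (monomial α 1 * monomial β 1) = φ (monomial β 1) • monomial α 1 := by
    intro α β hα hβ
    have e1 : (α + β).filter (· ∈ T) = β := by
      ext v
      by_cases hv : v ∈ T
      · simp [hv, hα v (by simpa using hv)]
      · simp [hv, hβ v hv]
    have e2 : (α + β).filter (· ∉ T) = α := by
      ext v
      by_cases hv : v ∈ T
      · simp [hv, hα v (by simpa using hv)]
      · simp [hv, hβ v hv]
    rw [monomial_mul, mul_one, Ct_monomial, e1, e2]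
  have k2 : ∀ α : U →₀ ℕ, (∀ v, v ∉ Tᶜ → α v = 0) →
      Ct φ T (monomial α 1 * g) = φ g • monomial α 1 := by
    intro α hα
    have := v3_ind hg (LinearMap.eqLocus (Ct φ T ∘ₗ LinearMap.mulLeft ℚ (monomial α 1))
      (φ.smulRight (monomial α 1))) fun β hβ => by
        rw [LinearMap.mem_eqLocus, LinearMap.comp_apply, LinearMap.mulLeft_apply,
          LinearMap.smulRight_apply]
        exact key α β hα hβ
    rwa [LinearMap.mem_eqLocus, LinearMap.comp_apply, LinearMap.mulLeft_apply,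
      LinearMap.smulRight_apply] at this
  have := v3_ind hf (LinearMap.eqLocus (Ct φ T ∘ₗ LinearMap.mulRight ℚ g) (φ g • LinearMap.id))
    fun α hα => by
      rw [LinearMap.mem_eqLocus, LinearMap.comp_apply, LinearMap.mulRight_apply,
        LinearMap.smul_apply, LinearMap.id_apply]
      exact k2 α hα
  rwa [LinearMap.mem_eqLocus, LinearMap.comp_apply, LinearMap.mulRight_apply,
    LinearMap.smul_apply, LinearMap.id_apply] at this

theorem PS_split {A B : Finset U} {h : P U} (hh : h ∈ PS (A ∪ B)) :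
    h ∈ Submodule.span ℚ {y | ∃ f ∈ PS A, ∃ g ∈ PS B, y = f * g} := by
  refine v3_ind hh _ fun α hα => Submodule.subset_span
    ⟨monomial (α.filter (· ∈ A)) 1, v3_monomial fun v hv => by simp [hv],
      monomial (α.filter (· ∉ A)) 1, v3_monomial fun v hv => ?_, ?_⟩
  · by_cases e : v ∈ A
    · simp [e]
    · simp [e, hα v (by simp [e, hv])]
  · rw [monomial_mul, mul_one, Finsupp.filter_add_filter_not]

theorem v3_ext {V : Type} [AddCommGroup V] [Module ℚ V] {A B : Finset U} (L L' : P U →ₗ[ℚ] V)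
    (e : ∀ f ∈ PS A, ∀ g ∈ PS B, L (f * g) = L' (f * g)) {h : P U} (hh : h ∈ PS (A ∪ B)) :
    L h = L' h := by
  refine (Submodule.span_le (p := LinearMap.eqLocus L L')).2 ?_ (PS_split hh)
  rintro _ ⟨f, hf, g, hg, rfl⟩
  exact e f hf g hg

theorem v3_all (T : Finset U) (h : P U) : h ∈ PS (Tᶜ ∪ T) := by
  rw [show Tᶜ ∪ T = univ by ext; simp [em']]; exact v3_univ h

theorem Ct_left (φ : P U →ₗ[ℚ] ℚ) {T : Finset U} {f : P U} (hf : f ∈ PS Tᶜ) (h : P U) :
    Ct φ T (f * h) = f * Ct φ T h := by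
  refine v3_ext (Ct φ T ∘ₗ LinearMap.mulLeft ℚ f) (LinearMap.mulLeft ℚ f ∘ₗ Ct φ T)
    (fun a ha b hb => ?_) (v3_all T h)
  show Ct φ T (f * (a * b)) = f * Ct φ T (a * b)
  rw [← mul_assoc, Ct_mul φ (v3_mul hf ha) hb, Ct_mul φ ha hb, mul_smul_comm]

theorem Ct_right (φ : P U →ₗ[ℚ] ℚ) {T : Finset U} {g : P U} (hg : g ∈ PS T) (h : P U) :
    Ct φ T (g * h) = Ct (φ ∘ₗ LinearMap.mulLeft ℚ g) T h := by
  refine v3_ext (Ct φ T ∘ₗ LinearMap.mulLeft ℚ g) _ (fun a ha b hb => ?_) (v3_all T h)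
  show Ct φ T (g * (a * b)) = _
  rw [mul_left_comm, Ct_mul φ ha (v3_mul hg hb), Ct_mul _ ha hb]
  rfl

theorem Ct_mem (φ : P U →ₗ[ℚ] ℚ) {S T : Finset U} (hd : Disjoint S T) {h : P U}
    (hh : h ∈ PS (S ∪ T)) : Ct φ T h ∈ PS S := by
  refine (Submodule.span_le (p := (PS S).comap (Ct φ T))).2 ?_ (PS_split hh)
  rintro _ ⟨f, hf, g, hg, rfl⟩
  show Ct φ T (f * g) ∈ PS S
  rw [Ct_mul φ (v3_compl hd hf) hg]
  exact Submodule.smul_mem _ _ hf

theorem Ct_mem' (φ : P U →ₗ[ℚ] ℚ) (T : Finset U) (h : P U) : Ct φ T h ∈ PS Tᶜ :=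
  Ct_mem φ disjoint_compl_left (v3_all T h)

theorem Ct_zero {φ : P U →ₗ[ℚ] ℚ} {T : Finset U} (hφ : ∀ g ∈ PS T, φ g = 0) (h : P U) :
    Ct φ T h = 0 :=
  v3_ext (Ct φ T) 0 (fun a ha b hb => by rw [Ct_mul φ ha hb, hφ b hb]; simp) (v3_all T h)

theorem Ct_dd (φ : P U →ₗ[ℚ] ℚ) {b T : Finset U} (hd : Disjoint T b) (h : P U) :
    Ct φ T (dd b h) = dd b (Ct φ T h) := by
  refine v3_ext (Ct φ T ∘ₗ (dd b).toLinearMap) ((dd b).toLinearMap ∘ₗ Ct φ T)
    (fun f hf g hg => ?_) (v3_all T h)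
  show Ct φ T (dd b (f * g)) = dd b (Ct φ T (f * g))
  rw [v3_dd_mul, v3_dd_zero hd hg, mul_zero, add_zero, Ct_mul φ (v3_dd_mem b hf) hg,
    Ct_mul φ hf hg, Derivation.map_smul]

theorem Ct_swap (φ ψ : P U →ₗ[ℚ] ℚ) {S T : Finset U} (hd : Disjoint S T) {h : P U}
    (hh : h ∈ PS (S ∪ T)) : ψ (Ct φ T h) = φ (Ct ψ S h) := by
  refine v3_ext (ψ ∘ₗ Ct φ T) (φ ∘ₗ Ct ψ S) (fun f hf g hg => ?_) hh
  show ψ (Ct φ T (f * g)) = φ (Ct ψ S (f * g))
  rw [Ct_mul φ (v3_compl hd hf) hg, mul_comm f g, Ct_mul ψ (v3_compl hd.symm hg) hf, map_smul,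
    map_smul, smul_eq_mul, smul_eq_mul, mul_comm]

theorem Ct_union (φ : P U →ₗ[ℚ] ℚ) {b c T : Finset U} (hd : Disjoint b (c ∪ T)) {h : P U}
    (hh : h ∈ PS (b ∪ T)) : Ct φ (c ∪ T) h = Ct φ T h := by
  refine v3_ext _ _ (fun f hf g hg => ?_) hh
  rw [Ct_mul φ (v3_compl hd hf) (v3_mono subset_union_right hg),
    Ct_mul φ (v3_compl (hd.mono_right subset_union_right) hf) hg]

/-- Two labellings side by side. -/
def cb (T : Finset U) (be be' : U → ℕ) (v : U) : ℕ := if v ∈ T then 2 * be' v + 1 else 2 * be v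

theorem cb_pos {T : Finset U} (be be' : U → ℕ) {v : U} (h : v ∈ T) :
    cb T be be' v = 2 * be' v + 1 := if_pos h

theorem cb_neg {T : Finset U} (be be' : U → ℕ) {v : U} (h : v ∉ T) :
    cb T be be' v = 2 * be v := if_neg h

theorem v3_fib {S : Finset U} {be : U → ℕ} {c : ℕ} {v : U} :
    v ∈ fib S be c ↔ v ∈ S ∧ be v = c := mem_filter

theorem v3_fb {be : U → ℕ} {c : ℕ} {v : U} :
    v ∈ (univ.filter fun v => be v = c) ↔ be v = c := by simp

theorem fib_cb0 {S T : Finset U} (hd : Disjoint S T) (be be' : U → ℕ) (c : ℕ) :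
    fib (S ∪ T) (cb T be be') (2 * c) = fib S be c := by
  ext v
  rw [v3_fib, v3_fib, mem_union]
  by_cases hv : v ∈ T
  · rw [cb_pos _ _ hv]
    exact ⟨fun h => by omega, fun h => absurd hv (disjoint_left.1 hd h.1)⟩
  · rw [cb_neg _ _ hv]
    exact ⟨fun h => ⟨h.1.resolve_right hv, by omega⟩, fun h => ⟨Or.inl h.1, by omega⟩⟩

theorem fib_cb1 {S T : Finset U} (be be' : U → ℕ) (c : ℕ) :
    fib (S ∪ T) (cb T be be') (2 * c + 1) = fib T be' c := by
  ext v
  rw [v3_fib, v3_fib, mem_union]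
  by_cases hv : v ∈ T
  · rw [cb_pos _ _ hv]
    exact ⟨fun h => ⟨hv, by omega⟩, fun h => ⟨Or.inr h.1, by omega⟩⟩
  · rw [cb_neg _ _ hv]
    exact ⟨fun h => by omega, fun h => absurd h.1 hv⟩

theorem c2_eq (S : Finset U) (be : U → ℕ) :
    D.c2 S be = ∑ x ∈ S, ∑ y ∈ S, if be x ≠ be y then D.W x y else 0 := by
  rw [c2, sum_filter, sum_product' (f := fun x y => if be x ≠ be y then D.W x y else 0)]

theorem c2_cb {S T : Finset U} (hd : Disjoint S T) (be be' : U → ℕ) :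
    D.c2 (S ∪ T) (cb T be be') = D.c2 S be + D.c2 T be' + D.kap S T + D.kap T S := by
  have hS : ∀ v ∈ S, cb T be be' v = 2 * be v := fun v hv => if_neg (disjoint_left.1 hd hv)
  have hT : ∀ v ∈ T, cb T be be' v = 2 * be' v + 1 := fun v hv => if_pos hv
  simp only [c2_eq, sum_union hd, sum_add_distrib, kap]
  have e1 : ∑ x ∈ S, ∑ y ∈ S, (if cb T be be' x ≠ cb T be be' y then D.W x y else 0) =
      ∑ x ∈ S, ∑ y ∈ S, if be x ≠ be y then D.W x y else 0 :=
    sum_congr rfl fun x hx => sum_congr rfl fun y hy => by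
      rw [hS x hx, hS y hy]; exact if_congr (by omega) rfl rfl
  have e2 : ∑ x ∈ T, ∑ y ∈ T, (if cb T be be' x ≠ cb T be be' y then D.W x y else 0) =
      ∑ x ∈ T, ∑ y ∈ T, if be' x ≠ be' y then D.W x y else 0 :=
    sum_congr rfl fun x hx => sum_congr rfl fun y hy => by
      rw [hT x hx, hT y hy]; exact if_congr (by omega) rfl rfl
  have e3 : ∑ x ∈ S, ∑ y ∈ T, (if cb T be be' x ≠ cb T be be' y then D.W x y else 0) =
      ∑ x ∈ S, ∑ y ∈ T, D.W x y :=
    sum_congr rfl fun x hx => sum_congr rfl fun y hy => by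
      rw [hS x hx, hT y hy]; exact if_pos (by omega)
  have e4 : ∑ x ∈ T, ∑ y ∈ S, (if cb T be be' x ≠ cb T be be' y then D.W x y else 0) =
      ∑ x ∈ T, ∑ y ∈ S, D.W x y :=
    sum_congr rfl fun x hx => sum_congr rfl fun y hy => by
      rw [hT x hx, hS y hy]; exact if_pos (by omega)
  rw [e1, e2, e3, e4]; ring

theorem card_cb {S T : Finset U} (hd : Disjoint S T) (be be' : U → ℕ) :
    ((S ∪ T).image (cb T be be')).card = (S.image be).card + (T.image be').card := by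
  have e1 : S.image (cb T be be') = (S.image be).image fun c => 2 * c := by
    rw [image_image]
    exact image_congr fun v hv => if_neg (disjoint_left.1 hd hv)
  have e2 : T.image (cb T be be') = (T.image be').image fun c => 2 * c + 1 := by
    rw [image_image]
    exact image_congr fun v hv => if_pos hv
  rw [image_union, e1, e2, card_union_of_disjoint,
    card_image_of_injective _ (fun a b (e : 2 * a = 2 * b) => by omega),
    card_image_of_injective _ (fun a b (e : 2 * a + 1 = 2 * b + 1) => by omega)]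
  rw [disjoint_left]
  intro c h1 h2
  obtain ⟨a, -, rfl⟩ := mem_image.1 h1
  obtain ⟨b, -, e⟩ := mem_image.1 h2
  omega

theorem db_cb0 (φ : P U →ₗ[ℚ] ℚ) (T : Finset U) (be be' : U → ℕ) (c : ℕ) (h : P U) :
    db be c (Ct φ T h) = Ct φ T (db (cb T be be') (2 * c) h) := by
  rw [db, db, Ct_dd]
  · refine v3_dd_eq (fun v hv => ?_) (Ct_mem' φ T h)
    rw [v3_fb, v3_fb, cb_neg _ _ (mem_compl.1 hv)]
    omega
  · rw [disjoint_left]
    intro v hv
    rw [v3_fb, cb_pos _ _ hv]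
    omega

theorem db_cb1 (ψ : P U →ₗ[ℚ] ℚ) {S T : Finset U} (hd : Disjoint S T) (be be' : U → ℕ) (c : ℕ)
    {h : P U} (hh : h ∈ PS (S ∪ T)) :
    db be' c (Ct ψ S h) = Ct ψ S (db (cb T be be') (2 * c + 1) h) := by
  rw [db, db, Ct_dd]
  · refine v3_dd_eq (fun v hv => ?_) (Ct_mem ψ hd.symm (by rwa [union_comm]))
    rw [v3_fb, v3_fb, cb_pos _ _ hv]
    omega
  · rw [disjoint_left]
    intro v hv
    rw [v3_fb, cb_neg _ _ (disjoint_left.1 hd hv)]
    omega

theorem Ct_JT (ψ : P U →ₗ[ℚ] ℚ) {S b : Finset U} (hd : Disjoint b S) {h : P U}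
    (hh : h ∈ D.JT θ b) : Ct ψ S h ∈ D.JT θ b := by
  suffices H : ∀ y, Ct ψ S (h * y) ∈ D.JT θ b by simpa using H 1
  induction hh using Submodule.span_induction with
  | mem k hk =>
    intro y
    have hk' := hk
    obtain ⟨A, hA, -, e⟩ := hk
    rw [Ct_left ψ (v3_compl hd (e ▸ v3_Kk D hA sdiff_subset))]
    exact Ideal.mul_mem_right _ _ (Ideal.subset_span hk')
  | zero => intro y; simp
  | add a b _ _ iha ihb => intro y; rw [add_mul, map_add]; exact add_mem (iha y) (ihb y)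
  | smul r a _ ih => intro y; rw [smul_eq_mul, mul_comm r, mul_assoc]; exact ih _

theorem Ct_JT0 {ψ : P U →ₗ[ℚ] ℚ} {S b : Finset U} (hb : b ⊆ S)
    (hψ : ∀ f ∈ PS S, f ∈ D.JT θ b → ψ f = 0) {h : P U} (hh : h ∈ D.JT θ b) : Ct ψ S h = 0 := by
  suffices H : ∀ y, Ct ψ S (h * y) = 0 by simpa using H 1
  induction hh using Submodule.span_induction with
  | mem k hk =>
    intro y
    have hk' := hk
    obtain ⟨A, hA, -, e⟩ := hk
    have hm : k ∈ PS S := e ▸ v3_Kk D (hA.trans hb) (sdiff_subset.trans hb)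
    rw [Ct_right ψ hm]
    exact Ct_zero (fun g hg => hψ (k * g) (v3_mul hm hg)
      (Ideal.mul_mem_right _ _ (Ideal.subset_span hk'))) y
  | zero => intro y; simp
  | add a b _ _ iha ihb => intro y; rw [add_mul, map_add, iha, ihb, add_zero]
  | smul r a _ ih => intro y; rw [smul_eq_mul, mul_comm r, mul_assoc]; exact ih _

theorem Ct_JJ {ψ : P U →ₗ[ℚ] ℚ} {S T : Finset U} (hd : Disjoint S T) {be be' : U → ℕ}
    (hψ : ∀ f ∈ D.JJ θ S be, ψ f = 0) {h : P U} (hh : h ∈ D.JJ θ (S ∪ T) (cb T be be')) :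
    Ct ψ S h ∈ D.JJ θ T be' := by
  refine Submodule.iSup_induction _ (motive := fun h => Ct ψ S h ∈ D.JJ θ T be') hh
    (fun c x hx => ?_) (by simp) fun x y hx hy => by rw [map_add]; exact add_mem hx hy
  obtain ⟨c, rfl | rfl⟩ := Nat.even_or_odd' c
  · rw [fib_cb0 hd] at hx
    rw [Ct_JT0 (filter_subset _ _) (fun f _ hf => hψ f (le_iSup
      (fun c => D.JT θ (fib S be c)) c hf)) hx]
    exact zero_mem _
  · rw [fib_cb1] at hx
    exact le_iSup (fun c => D.JT θ (fib T be' c)) c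
      (Ct_JT ψ (hd.symm.mono_left (filter_subset _ _)) hx)

theorem Ct_F (hs : D.Sym θ) {S T : Finset U} (hd : Disjoint S T) (hS : D.et θ S = 0) (hT : D.et θ T = 0)
    {ρ : Set (Finset U)} (hρ : ∀ A ∈ ρ, Disjoint A T) {p q : ℤ} {h : P U}
    (hh : h ∈ D.F θ (S ∪ T) (insert T ρ) p) {φ : P U →ₗ[ℚ] ℚ}
    (hφ : ∀ f ∈ D.F θ T ∅ (q - 1), φ f = 0) :
    Ct φ T h ∈ D.F θ S ρ (p + 2 * D.kap S T - q) := by
  obtain ⟨h1, h2⟩ := mem_F.1 hh
  refine mem_F.2 ⟨Ct_mem φ hd h1, fun be ha hr => ?_⟩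
  refine v3_OO_ind (fun x f => f ∈ PS (S ∪ T) ∧ ∀ be', D.Adm θ T be' →
    f ∈ OO (cb T be be') (D.JJ θ (S ∪ T) (cb T be be'))
      (x + (q - 1 + D.c2 T be' - (T.image be').card) + 1)) (Ct φ T) ?_ ?_ _ h ⟨h1, ?_⟩
  · rintro x f hx ⟨f1, f2⟩
    refine v3_dual (M := (D.JJ θ S be).restrictScalars ℚ) fun ψ hψ => ?_
    rw [Ct_swap φ ψ hd f1]
    refine hφ _ (mem_F.2 ⟨Ct_mem ψ hd.symm (by rwa [union_comm]), fun be' ha' _ => ?_⟩)
    refine v3_OO_ind (fun z g => g ∈ PS (S ∪ T) ∧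
      g ∈ OO (cb T be be') (D.JJ θ (S ∪ T) (cb T be be')) z) (Ct ψ S) ?_ ?_ _ f
      ⟨f1, OO_mono (stab_JJ _ _) le_rfl (by omega) (f2 be' ha')⟩
    · rintro z g hz ⟨-, g2⟩
      exact Ct_JJ hd hψ ((OO_neg hz).1 g2)
    · rintro z g c - ⟨g1, g2⟩
      exact ⟨_, ⟨v3_dd_mem _ g1, OO_db (stab_JJ _ _) g2 _⟩, db_cb1 ψ hd be be' c g1⟩
  · rintro x f c - ⟨f1, f2⟩
    have e : ∀ be', db (cb T be be') (2 * c) f = db (cb T be be) (2 * c) f := fun be' =>
      v3_dd_eq (fun v _ => by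
        rw [v3_fb, v3_fb]
        by_cases hv : v ∈ T
        · rw [cb_pos _ _ hv, cb_pos _ _ hv]; omega
        · rw [cb_neg _ _ hv, cb_neg _ _ hv]) f1
    refine ⟨db (cb T be be) (2 * c) f, ⟨v3_dd_mem _ f1, fun be' ha' => ?_⟩, db_cb0 φ T be be c f⟩
    rw [← e be']
    exact OO_mono (stab_JJ _ _) le_rfl (by omega) (OO_db (stab_JJ _ _) (f2 be' ha') _)
  · intro be' ha'
    refine OO_mono (stab_JJ _ _) le_rfl ?_ (h2 (cb T be be') (fun c => ?_) ?_)
    · rw [c2_cb hd, card_cb hd, hs T S hT hS]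
      push_cast
      omega
    · obtain ⟨c, rfl | rfl⟩ := Nat.even_or_odd' c
      · rw [fib_cb0 hd]; exact ha c
      · rw [fib_cb1]; exact ha' c
    · rintro A hA i hi j hj e hiA
      rcases hA with rfl | hA
      · by_contra hj'
        rw [cb_pos _ _ hiA, cb_neg _ _ hj'] at e
        omega
      · have hi' : i ∉ T := disjoint_left.1 (hρ A hA) hiA
        by_cases hj' : j ∈ T
        · rw [cb_neg _ _ hi', cb_pos _ _ hj'] at e
          omega
        · rw [cb_neg _ _ hi', cb_neg _ _ hj'] at e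
          exact hr A hA i ((mem_union.1 hi).resolve_right hi') j
            ((mem_union.1 hj).resolve_right hj') (by omega) hiA

end Dat

end Pool.Agent.Lib.MP_33bfb2_co.Th.R
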