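import Pool.Agent.Lib.MP_33bfb2_co.Th.TDefs

namespace Pool.Agent.Lib.MP_33bfb2_co.Th

open Finset MvPolynomial

/-! ## File TCau (imports TDefs) -/

section general
variable {σ τ : Type} [Fintype σ] [Fintype τ] [DecidableEq σ] [DecidableEq τ]

omit [DecidableEq τ] in
theorem cau_esymm (u : τ → K) (k : ℕ) :
    aeval (fun c => C (u c) * X c) (esymm τ K k) =
      ∑ t ∈ powersetCard k univ, monomial (∑ c ∈ t, Finsupp.single c 1) (∏ c ∈ t, u c) := by
  rw [esymm, map_sum]
  refine sum_congr rfl fun t _ => ?_
  rw [map_prod, monomial_sum_index, map_prod, ← prod_mul_distrib]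
  exact prod_congr rfl fun c _ => by rw [aeval_X]; rfl

/-- Weighted count of zero-one matrices with given row and column sums. -/
noncomputable def cauF (w : σ → τ → K) (ν : σ → ℕ) (d : τ → ℕ) : K :=
  ∑ R ∈ (univ : Finset (σ → Finset τ)).filter
    (fun R => (∀ l, #(R l) = ν l) ∧ ∀ c, #(univ.filter fun l => c ∈ R l) = d c),
    ∏ l, ∏ c, if c ∈ R l then w l c else 1

theorem cauF_swap (w : σ → τ → K) (ν : σ → ℕ) (d : τ → ℕ) :
    cauF w ν d = cauF (fun c l => w l c) d ν := by
  refine sum_nbij' (fun R c => univ.filter fun l => c ∈ R l)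
    (fun R l => univ.filter fun c => l ∈ R c) ?_ ?_ ?_ ?_ ?_
  · intro R hR
    simp only [mem_univ, true_and, mem_filter, filter_univ_mem] at hR ⊢
    exact hR.symm
  · intro R hR
    simp only [mem_univ, true_and, mem_filter, filter_univ_mem] at hR ⊢
    exact hR.symm
  · intro R _
    funext l
    simp
  · intro R _
    funext l
    simp
  · intro R _
    rw [prod_comm]
    simp

theorem cau_coeff (w : σ → τ → K) (ν : σ → ℕ) (d : τ →₀ ℕ) :
    coeff d (∏ l, aeval (fun c => C (w l c) * X c) (esymm τ K (ν l))) = cauF w ν d := by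
  simp only [cau_esymm]
  rw [prod_univ_sum, coeff_sum, cauF, ← filter_filter, sum_filter (s := filter _ _)]
  refine sum_congr ?_ fun R _ => ?_
  · ext R
    simp [mem_powersetCard]
  · rw [← monomial_sum_prod, coeff_monomial]
    refine if_congr ?_ (prod_congr rfl fun l _ => ?_) rfl
    · have : ∀ c, (∑ l, ∑ c ∈ R l, Finsupp.single c 1 : τ →₀ ℕ) c =
          #(univ.filter fun l => c ∈ R l) := fun c => by
        simp only [Finsupp.coe_finsetSum, Finset.sum_apply, Finsupp.single_apply, sum_ite_eq',
          card_filter]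
      rw [Finsupp.ext_iff]
      simp only [this]
    · rw [prod_ite_mem, univ_inter]

end general

theorem cau_split {M : Type} [CommMonoid M] {s : ℕ} (a : ℕ) (f g : Fin s → M) :
    (((List.finRange s).reverse.filter fun c : Fin s => a ≤ (c : ℕ)).map f).prod *
      (((List.finRange s).reverse.filter fun c : Fin s => (c : ℕ) < a).map g).prod =
      ∏ c : Fin s, if (c : ℕ) < a then g c else f c := by
  rw [Fin.prod_univ_def, ← List.prod_reverse (List.map _ (List.finRange s)), ← List.map_reverse]
  induction (List.finRange s).reverse with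
  | nil => simp
  | cons c l ih =>
    rw [List.map_cons, List.prod_cons, ← ih]
    by_cases h : (c : ℕ) < a
    · rw [List.filter_cons_of_neg (by simpa using h), List.filter_cons_of_pos (by simpa using h),
        if_pos h, List.map_cons, List.prod_cons, mul_left_comm]
    · rw [List.filter_cons_of_pos (by simpa using h), List.filter_cons_of_neg (by simpa using h),
        if_neg h, List.map_cons, List.prod_cons, mul_assoc]

theorem cau_ite (s : ℕ) (P : Prop) [Decidable P] (Q : ℕ → Prop) [DecidablePred Q] (k : ℕ) :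
    (if P then eq s Q k else esymm (Fin s) K k) =
      aeval (fun c : Fin s => C (if P ∧ Q c then tp 2 else 1) * X c) (esymm (Fin s) K k) := by
  split_ifs with h
  · unfold eq
    congr 2
    funext c
    by_cases hc : Q c <;> simp [h, hc]
  · simp [h]

theorem cauchy (N i0 s a : ℕ) (d : Fin s →₀ ℕ) (ν : Fin N →₀ ℕ) :
    coeff ν (bar N i0 (alOf a d) (beOf a d)) =
      coeff d (∏ l : Fin N, if i0 ≤ (l : ℕ) then eq s (· < a) (ν l) else esymm (Fin s) K (ν l)) := by
  rw [bar, alOf, beOf, List.map_map, List.map_map, cau_split]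
  simp only [Function.comp, cau_ite]
  rw [cau_coeff (fun (c : Fin s) (l : Fin N) => if (c : ℕ) < a ∧ i0 ≤ (l : ℕ) then tp 2 else 1),
    cau_coeff (fun (l : Fin N) (c : Fin s) => if i0 ≤ (l : ℕ) ∧ (c : ℕ) < a then tp 2 else 1),
    cauF_swap]
  simp only [and_comm]

theorem sum_alOf_beOf {s : ℕ} (a : ℕ) (d : Fin s → ℕ) :
    (alOf a d).sum + (beOf a d).sum = ∑ c, d c := by
  rw [alOf, beOf, Fin.sum_univ_def, ← List.sum_reverse (List.map d (List.finRange s)), ← List.map_reverse]
  induction (List.finRange s).reverse with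
  | nil => simp
  | cons c l ih =>
    rw [List.map_cons, List.sum_cons, ← ih]
    by_cases h : (c : ℕ) < a
    · rw [List.filter_cons_of_neg (by simpa using h), List.filter_cons_of_pos (by simpa using h),
        List.map_cons, List.sum_cons, add_left_comm]
    · rw [List.filter_cons_of_pos (by simpa using h), List.filter_cons_of_neg (by simpa using h),
        List.map_cons, List.sum_cons, add_assoc]

theorem eq_hom (s : ℕ) (Q : ℕ → Prop) (k : ℕ) : (eq s Q k).IsHomogeneous k := by
  classical
  have := cau_ite s True Q k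
  rw [if_pos trivial, cau_esymm] at this
  rw [this]
  refine IsHomogeneous.sum _ _ _ fun t ht => isHomogeneous_monomial _ ?_
  rw [map_sum, ← (mem_powersetCard.1 ht).2]
  simp

theorem Phi_hom {ι : Type} [Fintype ι] (p : ι → ℕ) (ad : ι → ι → Prop) (U : ι → Prop) (s a : ℕ) :
    (Phi p ad U s a).IsHomogeneous (Fintype.card ι) := by
  classical
  unfold Phi
  refine IsHomogeneous.sum _ _ _ fun κ _ => IsHomogeneous.C_mul ?_ _
  have := IsHomogeneous.prod (univ : Finset ι) (fun i => (X (κ i) : MvPolynomial (Fin s) K))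
    (fun _ => 1) fun i _ => isHomogeneous_X K (κ i)
  simpa using this

end Pool.Agent.Lib.MP_33bfb2_co.Th
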