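import Pool.Agent.Lib.MP_33bfb2_co.Th.ADefs2

namespace Pool.Agent.Lib.MP_33bfb2_co.Th

open Finset MvPolynomial

/-- The sum of the monomials of the stable sets of size k. -/
noncomputable def est {L : Type} [AddCommGroup L] (ω : Skew L) (C : Cone L) {Vx : Type}
    [Fintype Vx] (x : Vx → L) (k : ℕ) : A ω C :=
  open Classical in
  ∑ S ∈ (powersetCard k univ).filter fun S => ∀ a ∈ S, ∀ b ∈ S, ω.w (x a) (x b) = 0,
    A.mon ω C (∑ a ∈ S, x a)

/-- The word e_al x^Y e_be. -/
noncomputable def word {L : Type} [AddCommGroup L] {ω : Skew L} {C : Cone L} {Vx : Type}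
    [Fintype Vx] (x : Vx → L) (Ξ : A ω C) (al be : List ℕ) : A ω C :=
  (al.map (est ω C x)).prod * Ξ * (be.map (est ω C x)).prod

/-- Elementary symmetric polynomial, the variables in Q being multiplied by t ^ 2. -/
noncomputable def eq (s : ℕ) (Q : ℕ → Prop) (k : ℕ) : MvPolynomial (Fin s) K :=
  open Classical in
  aeval (fun c : Fin s => if Q c then C (tp 2) * X c else X c) (esymm (Fin s) K k)

/-- The commutative shadow of a word; the variables from i0 on are to the right of the cut. -/
noncomputable def bar (N i0 : ℕ) (al be : List ℕ) : MvPolynomial (Fin N) K :=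
  (al.map (esymm (Fin N) K)).prod * (be.map (eq N (i0 ≤ ·))).prod

/-- The weight of a colouring. -/
noncomputable def cwt {ι : Type} [Fintype ι] (p : ι → ℕ) (ad : ι → ι → Prop) (U : ι → Prop)
    {s : ℕ} (a : ℕ) (κ : ι → Fin s) : K :=
  open Classical in
  (∏ i, ∏ j, if p i < p j ∧ ad i j then (if κ i = κ j then 0 else if κ j < κ i then tp 2 else 1)
    else 1) * ∏ i, if U i ∧ (κ i : ℕ) < a then tp 2 else 1

/-- The chromatic polynomial of a graph with positions p and a cut U, colours below a being
dressed on U. -/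
noncomputable def Phi {ι : Type} [Fintype ι] (p : ι → ℕ) (ad : ι → ι → Prop) (U : ι → Prop)
    (s a : ℕ) : MvPolynomial (Fin s) K :=
  open Classical in
  ∑ κ : ι → Fin s, C (cwt p ad U a κ) * ∏ i, X (κ i)

/-- Multiplicities of the colours from a on, in decreasing order. -/
def alOf {s : ℕ} (a : ℕ) (d : Fin s → ℕ) : List ℕ :=
  ((List.finRange s).reverse.filter fun c : Fin s => a ≤ (c : ℕ)).map d

/-- Multiplicities of the colours below a, in decreasing order. -/
def beOf {s : ℕ} (a : ℕ) (d : Fin s → ℕ) : List ℕ :=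
  ((List.finRange s).reverse.filter fun c : Fin s => (c : ℕ) < a).map d

/-- Functionals that are positive on the products of elementary symmetric polynomials. -/
def PosFn (n s a : ℕ) (φ : MvPolynomial (Fin s) K →ₗ[K] K) : Prop :=
  ∀ lam mu : Multiset ℕ, lam.sum + mu.sum = n →
    Pos (φ ((lam.map (esymm (Fin s) K)).prod * (mu.map (eq s (· < a))).prod))

/-- The pairing of two lights of a configuration; the index is the rank. -/
def wuu {l : ℕ} (gap : Fin l → ℕ) (j j' : Fin l) : ℤ :=
  (if (gap j = gap j' ∧ j < j') ∨ (gap j' = gap j + 1 ∧ j' < j) then 1 else 0) -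
    if (gap j' = gap j ∧ j' < j) ∨ (gap j = gap j' + 1 ∧ j < j') then 1 else 0

end Pool.Agent.Lib.MP_33bfb2_co.Th
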