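import Pool.Agent.Lib.MP_33bfb2_co.Th.TDefs

namespace Pool.Agent.Lib.MP_33bfb2_co.Th

open Finset MvPolynomial

/-! ## File TEmb (imports TDefs) -/

/-- Real positions of a unit interval graph, in reversed order. -/
theorem emb_pos {ι : Type} (p : ι → ℕ) (hp : Function.Injective p) (ad : ι → ι → Prop)
    (had : ∀ i j k, p i < p j → p j < p k → ad i k → ad i j ∧ ad j k) (S : Finset ι) :
    ∃ x : ι → ℝ, ∀ i ∈ S, ∀ j ∈ S, p i < p j →
      x j < x i ∧ (ad i j ↔ x i - x j < 1) ∧ ∀ z : ℤ, x j ≠ x i + z := by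
  classical
  induction S using Finset.induction_on_max_value p with
  | empty => exact ⟨0, fun i hi => absurd hi (notMem_empty i)⟩
  | insert a S ha hmax ih =>
    obtain ⟨x, hx⟩ := ih
    have hlt : ∀ i ∈ S, p i < p a := fun i hi =>
      lt_of_le_of_ne (hmax i hi) fun e => ha (hp e ▸ hi)
    have hsep : ∀ u ∈ (fun i => x i - 1) '' {i | i ∈ S ∧ ad i a},
        ∀ v ∈ x '' S ∪ (fun i => x i - 1) '' {i | i ∈ S ∧ ¬ ad i a}, u < v := by
      rintro _ ⟨i, ⟨hi, h1⟩, rfl⟩ _ (⟨k, hk, rfl⟩ | ⟨k, ⟨hk, h2⟩, rfl⟩)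
      · rcases lt_trichotomy (p i) (p k) with h | h | h
        · have := (hx i hi k hk h).2.1.1 (had i k a h (hlt k hk) h1).1
          dsimp only
          linarith
        · rw [hp h]
          exact sub_one_lt _
        · have := (hx k hk i hi h).1
          dsimp only
          linarith
      · rcases lt_trichotomy (p i) (p k) with h | h | h
        · exact absurd (had i k a h (hlt k hk) h1).2 h2
        · exact absurd (hp h ▸ h1) h2
        · have := (hx k hk i hi h).1
          dsimp only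
          linarith
    have f1 : ((fun i => x i - 1) '' {i | i ∈ S ∧ ad i a}).Finite :=
      (S.finite_toSet.subset fun _ h => h.1).image _
    have f2 : (x '' S ∪ (fun i => x i - 1) '' {i | i ∈ S ∧ ¬ ad i a}).Finite :=
      (S.finite_toSet.image _).union ((S.finite_toSet.subset fun _ h => h.1).image _)
    obtain ⟨b, hb1, hb2⟩ := Set.Finite.exists_between' f1 f2 hsep
    obtain ⟨b', hb1', hb2'⟩ := Set.Finite.exists_between' (Set.finite_singleton b) f2
      fun u hu v hv => by rw [hu]; exact hb2 v hv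
    have hc : (⋃ i ∈ (S : Set ι), Set.range fun z : ℤ => x i + z).Countable :=
      S.countable_toSet.biUnion fun _ _ => Set.countable_range _
    obtain ⟨t, ht, ht1, ht2⟩ := (hc.dense_compl ℝ).exists_between (hb1' b rfl)
    refine ⟨Function.update x a t, fun i hi j hj h => ?_⟩
    have hi' : i ∈ S := by
      rcases mem_insert.1 hi with rfl | hi'
      · rcases mem_insert.1 hj with rfl | hj'
        · exact absurd h (lt_irrefl _)
        · exact absurd h (hlt j hj').not_gt
      · exact hi'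
    rw [Function.update_of_ne (ne_of_mem_of_not_mem hi' ha)]
    rcases mem_insert.1 hj with rfl | hj'
    · rw [Function.update_self]
      refine ⟨ht2.trans (hb2' _ (Or.inl ⟨i, hi', rfl⟩)), ⟨fun e => ?_, fun e => by_contra fun e' => ?_⟩,
        fun z e => ht (Set.mem_biUnion hi' ⟨z, e.symm⟩)⟩
      · have := hb1 _ ⟨i, ⟨hi', e⟩, rfl⟩
        dsimp only at this
        linarith
      · have := hb2' _ (Or.inr ⟨i, ⟨hi', e'⟩, rfl⟩)
        dsimp only at this
        linarith
    · rw [Function.update_of_ne (ne_of_mem_of_not_mem hj' ha)]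
      exact hx i hi' j hj' h

theorem emb_floor {u v : ℝ} (h : u < v) :
    (((⌊u⌋ = ⌊v⌋ ∧ Int.fract u < Int.fract v) ∨ (⌊v⌋ = ⌊u⌋ + 1 ∧ Int.fract v < Int.fract u)) ↔
      v - u < 1) ∧
    ¬ ((⌊v⌋ = ⌊u⌋ ∧ Int.fract v < Int.fract u) ∨ (⌊u⌋ = ⌊v⌋ + 1 ∧ Int.fract u < Int.fract v)) := by
  have a1 := Int.floor_add_fract u
  have a2 := Int.floor_add_fract v
  have b1 := Int.fract_nonneg u
  have b2 := Int.fract_lt_one v
  have c1 := Int.floor_mono h.le
  refine ⟨⟨?_, fun e => ?_⟩, ?_⟩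
  · rintro (⟨e, -⟩ | ⟨e, e'⟩)
    · rw [e] at a1
      linarith
    · rw [e] at a2
      push_cast at a2
      linarith
  · have c2 : ⌊v⌋ ≤ ⌊u⌋ + 1 := by
      rw [← Int.floor_add_one]
      exact Int.floor_mono (by linarith)
    rcases c1.eq_or_lt with e' | e'
    · refine Or.inl ⟨e', ?_⟩
      rw [e'] at a1
      linarith
    · have e2 : ⌊v⌋ = ⌊u⌋ + 1 := by omega
      refine Or.inr ⟨e2, ?_⟩
      rw [e2] at a2
      push_cast at a2
      linarith
  · rintro (⟨e, e'⟩ | ⟨e, -⟩)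
    · rw [e] at a2
      linarith
    · omega

theorem exists_emb {ι : Type} [Fintype ι] (p : ι → ℕ) (hp : Function.Injective p)
    (ad : ι → ι → Prop)
    (had : ∀ i j k, p i < p j → p j < p k → ad i k → ad i j ∧ ad j k)
    (U : ι → Prop) (hU : ∀ i j, p i < p j → U j → U i) :
    ∃ (N i0 l : ℕ) (gap : Fin l → ℕ) (e : ι ↪ Fin l), 1 ≤ i0 ∧ i0 < N ∧
      (∀ j, 1 ≤ gap j ∧ gap j < N) ∧ (∀ i, 1 ≤ i → i < N → ∃ j, gap j = i) ∧
      (∀ i j, p i < p j → (ad i j → wuu gap (e j) (e i) = 1) ∧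
        (¬ ad i j → wuu gap (e j) (e i) = 0)) ∧ ∀ i, U i ↔ i0 ≤ gap (e i) := by
  classical
  obtain ⟨x, hx⟩ := emb_pos p hp ad had univ
  replace hx := fun i j => hx i (mem_univ i) j (mem_univ j)
  obtain ⟨c, hc1, hc2⟩ := Set.Finite.exists_between' ((Set.toFinite {j | ¬ U j}).image x)
    ((Set.toFinite {i | U i}).image x) (by
      rintro _ ⟨j, hj, rfl⟩ _ ⟨i, hi, rfl⟩
      rcases lt_trichotomy (p i) (p j) with h | h | h
      · exact (hx i j h).1
      · exact absurd (hp h ▸ hi) hj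
      · exact absurd (hU j i h hi) hj)
  let y : ι → ℝ := fun i => x i - c
  have hne : ∀ i j, p i < p j → Int.fract (y j) ≠ Int.fract (y i) := fun i j h e => by
    obtain ⟨z, hz⟩ := Int.fract_eq_fract.1 e
    exact (hx i j h).2.2 z (by simp only [y] at hz; linarith)
  have hinj : Function.Injective fun i => Int.fract (y i) := fun i j e => by
    rcases lt_trichotomy (p i) (p j) with h | h | h
    · exact absurd e.symm (hne i j h)
    · exact hp h
    · exact absurd e (hne j i h)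
  obtain ⟨M, hM⟩ : ∃ M : ℕ, ∀ i, ⌊y i⌋.natAbs ≤ M :=
    ⟨univ.sup fun i => ⌊y i⌋.natAbs, fun i => le_sup (f := fun i => ⌊y i⌋.natAbs) (mem_univ i)⟩
  let _ : LinearOrder ι := LinearOrder.lift' _ hinj
  let o : Fin (Fintype.card ι) ≃o ι := monoEquivOfFin ι rfl
  let g : ι → ℕ := fun i => (⌊y i⌋ + M + 1).toNat
  have hg : ∀ i, (g i : ℤ) = ⌊y i⌋ + M + 1 := fun i =>
    Int.toNat_of_nonneg (by have := hM i; omega)
  let e : ι ↪ Fin (Fintype.card ι + (2 * M + 2)) :=
    ⟨fun i => Fin.castAdd _ (o.symm i), (Fin.castAdd_injective _ _).comp o.symm.injective⟩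
  let gap : Fin (Fintype.card ι + (2 * M + 2)) → ℕ :=
    Fin.addCases (fun a => g (o a)) fun d => max 1 d
  have hge : ∀ i, gap (e i) = g i := fun i => by
    simp only [gap, e, Function.Embedding.coeFn_mk, Fin.addCases_left, OrderIso.apply_symm_apply]
  have hlt : ∀ i j, e i < e j ↔ Int.fract (y i) < Int.fract (y j) := fun i j =>
    (show e i < e j ↔ o.symm i < o.symm j from Iff.rfl).trans o.symm.lt_iff_lt
  refine ⟨2 * M + 2, M + 1, _, gap, e, by omega, by omega, fun j => ?_, fun i h1 h2 => ?_,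
    fun i j h => ?_, fun i => ?_⟩
  · refine Fin.addCases (fun a => ?_) (fun d => ?_) j
    · simp only [gap, Fin.addCases_left]
      have := hg (o a)
      have := hM (o a)
      omega
    · simp only [gap, Fin.addCases_right]
      have := d.2
      omega
  · exact ⟨Fin.natAdd _ ⟨i, h2⟩, by simp only [gap, Fin.addCases_right]; omega⟩
  · obtain ⟨h1, h2, -⟩ := hx i j h
    obtain ⟨h3, h4⟩ := emb_floor (u := y j) (v := y i) (by simp only [y]; linarith)
    have a1 : g j = g i ↔ ⌊y j⌋ = ⌊y i⌋ := by have := hg i; have := hg j; omega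
    have a2 : g i = g j ↔ ⌊y i⌋ = ⌊y j⌋ := by have := hg i; have := hg j; omega
    have a3 : g j = g i + 1 ↔ ⌊y j⌋ = ⌊y i⌋ + 1 := by have := hg i; have := hg j; omega
    have a4 : g i = g j + 1 ↔ ⌊y i⌋ = ⌊y j⌋ + 1 := by have := hg i; have := hg j; omega
    have a5 : y i - y j = x i - x j := by simp only [y]; ring
    rw [a5, ← h2] at h3
    simp only [wuu, hge, hlt, a1, a2, a3, a4]
    rw [if_neg h4]
    exact ⟨fun t => by rw [if_pos (h3.2 t)]; rfl, fun t => by rw [if_neg (mt h3.1 t)]; rfl⟩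
  · rw [hge]
    have a1 := hg i
    constructor
    · intro t
      have : 0 ≤ ⌊y i⌋ := Int.floor_nonneg.2 (sub_nonneg.2 (hc2 _ ⟨i, t, rfl⟩).le)
      omega
    · intro t
      by_contra t'
      have : ⌊y i⌋ < 0 := Int.floor_lt.2 (by simpa [y] using hc1 _ ⟨i, t', rfl⟩)
      omega

end Pool.Agent.Lib.MP_33bfb2_co.Th
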