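import Pool.Agent.Lib.MP_33bfb2_co.Th.TDefs
import Pool.Agent.Lib.MP_33bfb2_co.Th.A1

namespace Pool.Agent.Lib.MP_33bfb2_co.Th

open Finset MvPolynomial

/-! ## File TWord (imports TDefs, A1) -/

theorem tw_prod_sum {R γ β : Type} [Ring R] [Algebra K R] [Fintype γ] [DecidableEq γ]
    {l : List γ} (hl : l.Nodup) (ha : ∀ c, c ∈ l) (T : γ → Finset β) (g : γ → β → R) :
    (l.map fun c => ∑ b ∈ T c, g c b).prod =
      ∑ F ∈ Fintype.piFinset T, (l.map fun c => g c (F c)).prod := by
  have e : ∀ m : γ → R, (MultilinearMap.mkPiAlgebraFin K l.length R).domDomCongr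
      (hl.getEquivOfForallMemList l ha) m = (l.map m).prod := fun m => by
    rw [MultilinearMap.domDomCongr_apply, MultilinearMap.mkPiAlgebraFin_apply]
    congr 1
    exact List.ofFn_getElem_eq_map l m
  rw [← e, MultilinearMap.map_sum_finset]
  exact sum_congr rfl fun F _ => e _

theorem tw_tp_sum {α : Type} (S : Finset α) (f : α → ℤ) : tp (∑ a ∈ S, f a) = ∏ a ∈ S, tp (f a) := by
  classical
  induction S using Finset.induction_on with
  | empty => simp [tp_zero]
  | insert a S h ih => rw [sum_insert h, prod_insert h, tp_add, ih]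

theorem tw_mon_list {L γ : Type} [AddCommGroup L] {ω : Skew L} {C : Cone L} [DecidableEq γ]
    (r : γ → ℕ) {n : γ → L} (hn : ∀ c, n c ∈ C.car) {l : List γ}
    (hl : l.Pairwise fun c c' => r c' < r c) :
    (l.map fun c => A.mon ω C (n c)).prod =
      tp (- ∑ c ∈ l.toFinset, ∑ c' ∈ l.toFinset, if r c' < r c then ω.w (n c) (n c') else 0) •
        A.mon ω C (∑ c ∈ l.toFinset, n c) := by
  induction l with
  | nil =>
    classical
    ext m : 2
    simp [tp_zero, A.one_f, A.mon_f C.car.zero_mem]
  | cons b l ih =>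
    obtain ⟨h1, h2⟩ := List.pairwise_cons.1 hl
    have hb : b ∉ l.toFinset := fun e => lt_irrefl _ (h1 b (List.mem_toFinset.1 e))
    rw [List.map_cons, List.prod_cons, ih h2, mul_smul_comm,
      A.mon_mul_mon (hn b) (sum_mem fun c _ => hn c), smul_smul, ← tp_add, List.toFinset_cons,
      sum_insert hb, sum_insert hb, sum_insert hb, if_neg (lt_irrefl _), map_sum]
    congr 2
    rw [sum_congr rfl (s₁ := l.toFinset) (f := fun c' => if r c' < r b then ω.w (n b) (n c') else 0)
      fun c hc => if_pos (h1 c (List.mem_toFinset.1 hc)),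
      sum_congr rfl (s₁ := l.toFinset) (f := fun c => ∑ c' ∈ insert b l.toFinset,
        if r c' < r c then ω.w (n c) (n c') else 0) fun c hc => by
        rw [sum_insert hb, if_neg (h1 c (List.mem_toFinset.1 hc)).not_gt, zero_add]]
    ring

/-- The order of the letters of a word. -/
def tw_lst (s a : ℕ) : List (Option (Fin s)) :=
  ((List.finRange s).reverse.filter fun c : Fin s => a ≤ (c : ℕ)).map some ++
    none :: ((List.finRange s).reverse.filter fun c : Fin s => (c : ℕ) < a).map some

/-- The rank of a letter. -/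
def tw_rk {s : ℕ} (a : ℕ) : Option (Fin s) → ℕ
  | none => 2 * a
  | some c => 2 * c + 1

theorem tw_mem (s a : ℕ) (o : Option (Fin s)) : o ∈ tw_lst s a := by
  rcases o with _ | c
  · simp [tw_lst]
  · simpa [tw_lst] using le_or_gt a c

theorem tw_sorted (s a : ℕ) : (tw_lst s a).Pairwise fun c c' => tw_rk a c' < tw_rk a c := by
  have h : ∀ q : Fin s → Bool, (((List.finRange s).reverse.filter q).map some).Pairwise
      fun c c' => tw_rk a c' < tw_rk a c := fun q => by
    rw [List.pairwise_map]
    refine List.Pairwise.filter q (List.pairwise_reverse.2 ?_)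
    refine (List.pairwise_lt_finRange s).imp fun {c c'} h => ?_
    have : (c : ℕ) < c' := h
    simp only [tw_rk]
    omega
  refine List.pairwise_append.2 ⟨h _, List.pairwise_cons.2 ⟨?_, h _⟩, ?_⟩
  · simp only [List.mem_map, List.mem_filter, decide_eq_true_eq]
    rintro _ ⟨c, ⟨-, hc⟩, rfl⟩
    simp only [tw_rk]
    omega
  · simp only [List.mem_map, List.mem_filter, decide_eq_true_eq, List.mem_cons]
    rintro _ ⟨c, ⟨-, hc⟩, rfl⟩ _ (rfl | ⟨c', ⟨-, hc'⟩, rfl⟩) <;> simp only [tw_rk] <;> omega

open Classical in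
theorem tw_word {L : Type} [AddCommGroup L] {ω : Skew L} {C : Cone L} {Vx : Type} [Fintype Vx]
    {x : Vx → L} (hx : ∀ v, x v ∈ C.car) {Y : L} (hY : Y ∈ C.car) {s : ℕ} (a : ℕ)
    (d : Fin s → ℕ) (q : L) :
    (word x (A.mon ω C Y) (alOf a d) (beOf a d)).f q =
      ∑ F ∈ Fintype.piFinset fun o : Option (Fin s) => (powersetCard (o.elim 0 d) univ).filter
          fun S => ∀ a ∈ S, ∀ b ∈ S, ω.w (x a) (x b) = 0,
        if q = ∑ o, (o.elim Y (fun _ => 0) + ∑ v ∈ F o, x v) then
          tp (- ∑ o, ∑ o', if tw_rk a o' < tw_rk a o then ω.w (o.elim Y (fun _ => 0) +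
            ∑ v ∈ F o, x v) (o'.elim Y (fun _ => 0) + ∑ v ∈ F o', x v) else 0) else 0 := by
  have hs := tw_sorted s a
  have hn : (tw_lst s a).Nodup := hs.imp (S := (· ≠ ·)) fun h e => by
    subst e
    exact lt_irrefl _ h
  have hu : (tw_lst s a).toFinset = univ := eq_univ_of_forall fun o =>
    List.mem_toFinset.2 (tw_mem s a o)
  have hm : ∀ (o : Option (Fin s)) (S : Finset Vx),
      o.elim Y (fun _ => 0) + ∑ v ∈ S, x v ∈ C.car := fun o S =>
    C.car.add_mem (by rcases o with _ | c; exacts [hY, C.car.zero_mem]) (sum_mem fun v _ => hx v)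
  have e : word x (A.mon ω C Y) (alOf a d) (beOf a d) = ((tw_lst s a).map fun o =>
      ∑ S ∈ (powersetCard (o.elim 0 d) univ).filter
          fun S => ∀ a ∈ S, ∀ b ∈ S, ω.w (x a) (x b) = 0,
        A.mon ω C (o.elim Y (fun _ => 0) + ∑ v ∈ S, x v)).prod := by
    have he : ∀ k, est ω C x k = ∑ S ∈ (powersetCard k univ).filter
        fun S => ∀ a ∈ S, ∀ b ∈ S, ω.w (x a) (x b) = 0, A.mon ω C (∑ v ∈ S, x v) := fun k => by
      unfold est
      convert rfl
    simp only [word, alOf, beOf, tw_lst, List.map_append, List.map_cons, List.map_map,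
      List.prod_append, List.prod_cons, mul_assoc, Function.comp_def, Option.elim, zero_add, he]
    congr 2
    rw [powersetCard_zero, filter_singleton, if_pos (by simp)]
    simp
  rw [e, tw_prod_sum hn (tw_mem s a)]
  show A.fHom _ q = _
  rw [map_sum, Finset.sum_apply]
  refine sum_congr rfl fun F _ => ?_
  rw [tw_mon_list (tw_rk a) (fun o => hm o (F o)) hs, hu]
  show tp _ * (A.mon ω C _).f q = _
  rw [A.mon_f (sum_mem fun o _ => hm o (F o))]
  split_ifs <;> simp

theorem word_coeff {L : Type} [AddCommGroup L] {ω : Skew L} {C : Cone L} {Vx ι : Type}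
    [Fintype Vx] [Fintype ι] {x : Vx → L} (hx : ∀ v, x v ∈ C.car) (hli : LinearIndependent ℤ x)
    {Y : L} (hY : Y ∈ C.car) (e : ι ↪ Vx) (p : ι → ℕ) (hp : Function.Injective p)
    (ad : ι → ι → Prop) (U : ι → Prop)
    (hw : ∀ i j, p i < p j → (ad i j → ω.w (x (e j)) (x (e i)) = 1) ∧
      (¬ ad i j → ω.w (x (e j)) (x (e i)) = 0))
    (hU : ∀ i, (U i → ω.w Y (x (e i)) = -1) ∧ (¬ U i → ω.w Y (x (e i)) = 0)) :
    ∃ z : ℤ, ∀ (s a : ℕ) (d : Fin s →₀ ℕ),
      tp z * (word x (A.mon ω C Y) (alOf a d) (beOf a d)).f (Y + ∑ i, x (e i)) =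
        coeff d (Phi p ad U s a) := by
  classical
  refine ⟨(∑ i, ∑ j, if p i < p j ∧ ad i j then 1 else 0) + ∑ i, if U i then 1 else 0,
    fun s a d => ?_⟩
  have hW : ∀ i j, ω.w (x (e i)) (x (e j)) =
      (if p j < p i ∧ ad j i then 1 else 0) - if p i < p j ∧ ad i j then 1 else 0 := fun i j => by
    rcases lt_trichotomy (p i) (p j) with h | h | h
    · rw [ω.skew]
      by_cases h' : ad i j
      · simp [(hw i j h).1 h', h, h', h.not_gt]
      · simp [(hw i j h).2 h', h', h.not_gt]
    · obtain rfl := hp h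
      simp [ω.alt]
    · by_cases h' : ad j i
      · simp [(hw j i h).1 h', h, h', h.not_gt]
      · simp [(hw j i h).2 h', h', h.not_gt]
  have hY' : ∀ i, ω.w Y (x (e i)) = - if U i then 1 else 0 := fun i => by
    by_cases h : U i
    · simp [(hU i).1 h, h]
    · simp [(hU i).2 h, h]
  have hc : ∀ κ : ι → Fin s, coeff d (MvPolynomial.C (cwt p ad U a κ) * ∏ i, X (κ i)) =
      if ∀ c, #{i | κ i = c} = d c then cwt p ad U a κ else 0 := fun κ => by
    have : (∏ i, X (κ i) : MvPolynomial (Fin s) K) =
        monomial (∑ i, Finsupp.single (κ i) 1) 1 := by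
      rw [monomial_sum_one]
      rfl
    rw [this, coeff_C_mul, coeff_monomial, mul_ite, mul_one, mul_zero]
    refine if_congr ?_ rfl rfl
    simp only [Finsupp.ext_iff, Finsupp.finsetSum_apply, Finsupp.single_apply, card_filter]
  set Fk : (ι → Fin s) → Option (Fin s) → Finset Vx := fun κ o =>
    (univ.filter fun i => some (κ i) = o).map e with hFk
  have hmem : ∀ κ i o, e i ∈ Fk κ o ↔ some (κ i) = o := fun κ i o => by simp [hFk]
  have hT : ∀ κ, (Fk κ ∈ Fintype.piFinset fun o : Option (Fin s) =>
      (powersetCard (o.elim 0 d) univ).filter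
        fun S => ∀ a ∈ S, ∀ b ∈ S, ω.w (x a) (x b) = 0) ↔
      (∀ c, #{i | κ i = c} = d c) ∧ ∀ i j, p i < p j → ad i j → κ i ≠ κ j := fun κ => by
    simp only [Fintype.mem_piFinset, mem_filter, mem_powersetCard, subset_univ, true_and,
      forall_and]
    refine and_congr ?_ ⟨fun h i j h1 h2 h3 => ?_, fun h o u hu v hv => ?_⟩
    · simp [Option.forall, hFk]
    · have := h _ _ ((hmem κ j _).2 rfl) _ ((hmem κ i _).2 (congrArg some h3))
      rw [(hw i j h1).1 h2] at this
      exact one_ne_zero this
    · obtain ⟨i, -, rfl⟩ := mem_map.1 hu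
      obtain ⟨j, -, rfl⟩ := mem_map.1 hv
      have h3 : κ i = κ j := Option.some.inj (((hmem κ i o).1 hu).trans ((hmem κ j o).1 hv).symm)
      rw [hW, if_neg fun t => h j i t.1 t.2 h3.symm, if_neg fun t => h i j t.1 t.2 h3, sub_zero]
  have hn : ∀ κ (o : Option (Fin s)), o.elim Y (fun _ => 0) + ∑ v ∈ Fk κ o, x v =
      ∑ u : Option ι with u.map κ = o, u.elim Y fun i => x (e i) := fun κ o => by
    rw [hFk, sum_map, sum_filter, sum_filter, Fintype.sum_option]
    rcases o with _ | c <;> simp
  rw [tw_word hx hY, mul_sum, Phi, coeff_sum, sum_congr rfl fun κ _ => hc κ, eq_comm,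
    ← sum_filter_add_sum_filter_not univ fun κ : ι → Fin s =>
      (∀ c, #{i | κ i = c} = d c) ∧ ∀ i j, p i < p j → ad i j → κ i ≠ κ j,
    sum_eq_zero (s := filter (fun _ => ¬ _) _) fun κ hκ => ?_, add_zero]
  · refine sum_of_injOn Fk (fun κ _ κ' _ h => funext fun i => ?_)
      (fun κ hκ => mem_coe.2 ((hT κ).2 (mem_filter.1 (mem_coe.1 hκ)).2)) (fun F hF hF' => ?_)
      fun κ hκ => ?_
    · exact Option.some.inj ((hmem κ' i _).1 (h ▸ (hmem κ i _).2 rfl)).symm
    · rw [if_neg, mul_zero]
      intro h
      rw [sum_add_distrib, Fintype.sum_option, Option.elim] at h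
      simp only [Option.elim, sum_const_zero, add_zero, add_right_inj] at h
      have h1 : ∀ v, (∑ o, if v ∈ F o then (1 : ℤ) else 0) = if v ∈ univ.map e then 1 else 0 := by
        have := Fintype.linearIndependent_iff.1 hli (fun v =>
          (∑ o, if v ∈ F o then (1 : ℤ) else 0) - if v ∈ univ.map e then 1 else 0) (by
            simp only [sub_smul, sum_sub_distrib, sum_smul, ite_smul, one_smul, zero_smul]
            rw [sum_comm]
            simp only [sum_ite_mem, univ_inter]
            rw [← h, sum_map, sub_self])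
        exact fun v => sub_eq_zero.1 (this v)
      have h0 : F none = ∅ := by
        have := Fintype.mem_piFinset.1 hF none
        simp only [mem_filter, mem_powersetCard, Option.elim] at this
        exact card_eq_zero.1 this.1.2
      have h2 : ∀ i, ∃ c, ∀ o, e i ∈ F o ↔ some c = o := fun i => by
        have := h1 (e i)
        rw [if_pos (mem_map_of_mem e (mem_univ i)), sum_boole] at this
        obtain ⟨o, ho⟩ := card_eq_one.1 (Nat.cast_eq_one.1 this)
        have ho' : ∀ o', e i ∈ F o' ↔ o = o' := fun o' => by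
          simpa [eq_comm] using Finset.ext_iff.1 ho o'
        rcases o with _ | c
        · exact absurd ((ho' none).2 rfl) (by simp [h0])
        · exact ⟨c, ho'⟩
      choose κ hκ using h2
      have h3 : Fk κ = F := funext fun o => Finset.ext fun v => by
        by_cases hv : v ∈ univ.map e
        · obtain ⟨i, -, rfl⟩ := mem_map.1 hv
          rw [hmem, hκ]
        · have := h1 v
          rw [if_neg hv, sum_boole, Nat.cast_eq_zero, card_eq_zero, filter_eq_empty_iff] at this
          exact iff_of_false (fun t => hv (map_subset_map.2 (subset_univ _) t)) (this (mem_univ o))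
      exact hF' ⟨κ, mem_coe.2 (mem_filter.2 ⟨mem_univ _, (hT κ).1 (h3 ▸ hF)⟩), h3⟩
    · obtain ⟨h1, h2⟩ := (mem_filter.1 hκ).2
      simp only [hn]
      rw [if_pos h1, if_pos (by rw [sum_fiberwise, Fintype.sum_option]; rfl), ← tp_add]
      have e1 : (∑ o, ∑ o', if tw_rk a o' < tw_rk a o then
          ω.w (∑ u : Option ι with u.map κ = o, u.elim Y fun i => x (e i))
            (∑ u : Option ι with u.map κ = o', u.elim Y fun i => x (e i)) else 0) =
          ∑ u : Option ι, ∑ u' : Option ι, if tw_rk a (u'.map κ) < tw_rk a (u.map κ) then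
            ω.w (u.elim Y fun i => x (e i)) (u'.elim Y fun i => x (e i)) else 0 := by
        rw [← sum_fiberwise univ (Option.map κ)]
        refine sum_congr rfl fun o _ => ?_
        rw [sum_comm, ← sum_fiberwise univ (Option.map κ)]
        refine sum_congr rfl fun o' _ => ?_
        rw [map_sum, sum_congr rfl (g := fun u' => ∑ u : Option ι with u.map κ = o,
          if tw_rk a o' < tw_rk a o then
            ω.w (u.elim Y fun i => x (e i)) (u'.elim Y fun i => x (e i)) else 0) fun u' hu' =>
          sum_congr rfl fun u hu => by rw [(mem_filter.1 hu').2, (mem_filter.1 hu).2]]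
        split_ifs
        · simp only [map_sum, AddMonoidHom.finsetSum_apply]
        · simp
      have e2 : cwt p ad U a κ = tp ((∑ i, ∑ j, if (p i < p j ∧ ad i j) ∧ κ j < κ i then 2 else 0)
          + ∑ i, if U i ∧ (κ i : ℕ) < a then 2 else 0) := by
        rw [tp_add, tw_tp_sum, tw_tp_sum, cwt]
        congr 1
        · refine prod_congr rfl fun i _ => ?_
          rw [tw_tp_sum]
          refine prod_congr rfl fun j _ => ?_
          by_cases h : p i < p j ∧ ad i j
          · by_cases h' : κ j < κ i <;> simp [h, h', h2 i j h.1 h.2, tp_zero]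
          · simp [h, tp_zero]
        · refine prod_congr rfl fun i _ => ?_
          by_cases h : U i ∧ (κ i : ℕ) < a <;> simp [h, tp_zero]
      have e3 : (∑ i, ∑ j, if tw_rk a (some (κ j)) < tw_rk a (some (κ i)) then
          ω.w (x (e i)) (x (e j)) else 0) = (∑ i, ∑ j, if p i < p j ∧ ad i j then 1 else 0) -
          ∑ i, ∑ j, if (p i < p j ∧ ad i j) ∧ κ j < κ i then 2 else 0 := by
        have : ∀ i j, (if tw_rk a (some (κ j)) < tw_rk a (some (κ i)) then
            ω.w (x (e i)) (x (e j)) else 0) =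
            (if (p j < p i ∧ ad j i) ∧ κ j < κ i then 1 else 0) -
              if (p i < p j ∧ ad i j) ∧ κ j < κ i then 1 else 0 := fun i j => by
          have : tw_rk a (some (κ j)) < tw_rk a (some (κ i)) ↔ κ j < κ i := by
            simp only [tw_rk, Fin.lt_def]
            omega
          rw [hW]
          by_cases h : κ j < κ i <;> simp [this, h]
        simp only [this, sum_sub_distrib]
        rw [sum_comm]
        simp only [← sum_sub_distrib]
        refine sum_congr rfl fun i _ => sum_congr rfl fun j _ => ?_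
        by_cases h : p i < p j ∧ ad i j
        · rcases lt_or_gt_of_ne (h2 i j h.1 h.2) with h' | h' <;> simp [h, h', h'.not_gt]
        · simp [h]
      have e4 : ∀ i, (if tw_rk a (some (κ i)) < tw_rk a (none : Option (Fin s)) then
          ω.w Y (x (e i)) else 0) + (if tw_rk a (none : Option (Fin s)) < tw_rk a (some (κ i)) then
          ω.w (x (e i)) Y else 0) =
          (if U i then 1 else 0) - if U i ∧ (κ i : ℕ) < a then 2 else 0 := fun i => by
        rw [ω.skew _ Y, hY']
        have a1 : tw_rk a (some (κ i)) < tw_rk a (none : Option (Fin s)) ↔ (κ i : ℕ) < a := by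
          simp only [tw_rk]
          omega
        have a2 : tw_rk a (none : Option (Fin s)) < tw_rk a (some (κ i)) ↔ ¬ (κ i : ℕ) < a := by
          simp only [tw_rk]
          omega
        by_cases h : U i <;> by_cases h' : (κ i : ℕ) < a <;> simp [a1, a2, h, h']
      rw [e1, e2]
      congr 1
      simp only [Fintype.sum_option, Option.map, Option.elim, lt_irrefl, if_false, zero_add,
        sum_add_distrib]
      have e5 := sum_congr rfl fun i (_ : i ∈ univ) => e4 i
      rw [sum_add_distrib, sum_sub_distrib] at e5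
      rw [e3]
      linarith
  · rw [ite_eq_right_iff]
    intro h1
    have h2 := (mem_filter.1 hκ).2
    simp only [not_and, not_forall, not_not] at h2
    obtain ⟨i, j, h3, h4, h5⟩ := h2 h1
    rw [cwt, prod_eq_zero (mem_univ i) (prod_eq_zero (mem_univ j) (by simp [h3, h4, h5])), zero_mul]

end Pool.Agent.Lib.MP_33bfb2_co.Th
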