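import Pool.Agent.Lib.MP_33bfb2_co.Th.TEmb
import Pool.Agent.Lib.MP_33bfb2_co.Th.TCau
import Pool.Agent.Lib.MP_33bfb2_co.Th.TWord
import Pool.Agent.Lib.MP_33bfb2_co.Th.DMain

namespace Pool.Agent.Lib.MP_33bfb2_co.Th

open Finset MvPolynomial

theorem fn_hom {s n : ℕ} (φ : MvPolynomial (Fin s) K →ₗ[K] K) {f : MvPolynomial (Fin s) K}
    (hf : f.IsHomogeneous n) :
    ∑ d ∈ (univ : Finset (Fin s)).finsuppAntidiag n, φ (monomial d 1) * coeff d f = φ f := by
  have hs : f.support ⊆ (univ : Finset (Fin s)).finsuppAntidiag n := fun d hd => by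
    have := hf (mem_support_iff.1 hd)
    rw [mem_finsuppAntidiag]
    refine ⟨?_, subset_univ _⟩
    rw [← this, Finsupp.weight_apply, Finsupp.sum_fintype _ _ (by simp)]
    simp
  conv_rhs => rw [f.as_sum, map_sum]
  rw [← sum_subset hs fun d _ hd => by rw [notMem_support_iff.1 hd, mul_zero]]
  refine sum_congr rfl fun d _ => ?_
  rw [mul_comm, ← smul_eq_mul, ← map_smul, smul_monomial, smul_eq_mul, mul_one]

theorem esymm_hom (s k : ℕ) : (esymm (Fin s) K k).IsHomogeneous k := by
  have := eq_hom s (fun _ => False) k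
  simpa [eq] using this

theorem Phi_pos {ι : Type} [Fintype ι] (p : ι → ℕ) (hp : Function.Injective p)
    (ad : ι → ι → Prop)
    (had : ∀ i j k, p i < p j → p j < p k → ad i k → ad i j ∧ ad j k)
    (U : ι → Prop) (hU : ∀ i j, p i < p j → U j → U i) (s a : ℕ)
    {φ : MvPolynomial (Fin s) K →ₗ[K] K} (hφ : PosFn (Fintype.card ι) s a φ) :
    Pos (φ (Phi p ad U s a)) := by
  classical
  obtain ⟨N, i0, l, gap, e, h1, h2, hgap, honto, hw, hcut⟩ := exists_emb p hp ad had U hU
  obtain ⟨L, _, ω, C, x, Y, hx, hli, hY, hwu, hwY, hth⟩ := theta N i0 l gap h1 h2 hgap honto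
  obtain ⟨z, hz⟩ := word_coeff (ω := ω) hx hli hY (e.trans Function.Embedding.inr) p hp ad U
    (fun i j h => by simpa [hwu] using hw i j h)
    (fun i => by simp +contextual [hwY, hcut i])
  have key := hth (Fintype.card ι) (Fin s →₀ ℕ) (univ.finsuppAntidiag (Fintype.card ι))
    (fun d => φ (monomial d 1)) (fun d => alOf a d) (fun d => beOf a d)
    (fun d hd => by rw [sum_alOf_beOf]; exact (mem_finsuppAntidiag.1 hd).1) (fun ν => by
      simp only [coeff_sum, coeff_smul, smul_eq_mul, cauchy]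
      have hh : (∏ l : Fin N, if i0 ≤ (l : ℕ) then eq s (· < a) (ν l)
          else esymm (Fin s) K (ν l)).IsHomogeneous (∑ l, ν l) :=
        IsHomogeneous.prod _ _ _ fun l _ => by
          split_ifs
          exacts [eq_hom _ _ _, esymm_hom _ _]
      by_cases hn : ∑ l, ν l = Fintype.card ι
      · rw [fn_hom φ (hn ▸ hh), prod_ite, mul_comm]
        have := hφ ((univ.filter fun l : Fin N => ¬ i0 ≤ (l : ℕ)).val.map ν)
          ((univ.filter fun l : Fin N => i0 ≤ (l : ℕ)).val.map ν) (by
            rw [← hn, ← sum_filter_add_sum_filter_not univ (fun l : Fin N => i0 ≤ (l : ℕ)),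
              add_comm]
            rfl)
        rw [Multiset.map_map, Multiset.map_map] at this
        exact this
      · rw [sum_eq_zero fun d hd => ?_]
        · exact Pos.zero
        · rw [hh.coeff_eq_zero, mul_zero]
          rw [Finsupp.degree_eq_sum, (mem_finsuppAntidiag.1 hd).1]
          exact Ne.symm hn)
    (Y + ∑ i, x (e.trans Function.Embedding.inr i))
  rw [← fn_hom φ (Phi_hom p ad U s a)]
  simp only [← hz]
  have e2 : ∀ (S : Finset (Fin s →₀ ℕ)) (g : (Fin s →₀ ℕ) → A ω C) (n : L),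
      (∑ i ∈ S, g i).f n = ∑ i ∈ S, (g i).f n := fun S g n => by
    rw [← Finset.sum_apply]
    exact congrFun (map_sum A.fHom g S) n
  rw [e2] at key
  have := (Pos.tp z).mul key
  rw [mul_sum] at this
  convert this using 2 with d
  simp only [A.smul_f, Pi.smul_apply, smul_eq_mul]
  ring

end Pool.Agent.Lib.MP_33bfb2_co.Th
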