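import Pool.Agent.Lib.MP_33bfb2_co.Th.WDefs

namespace Pool.Agent.Lib.MP_33bfb2_co.Th

open Finset

variable {n : ℕ}

/-- Two configurations compare all pairs in the same way. -/
def Cfg.Same (s s' : Cfg n) : Prop :=
  (∀ i j : Fin n, i ≠ j →
    (s.d (some i) (some j) < s.d (some j) (some i) ↔
      s'.d (some i) (some j) < s'.d (some j) (some i)) ∧
    (s.d (some i) (some j) < s.d (some j) (some i) + 8 ↔
      s'.d (some i) (some j) < s'.d (some j) (some i) + 8) ∧
    (s.d (some i) (some j) + s.d (some j) (some i) < 8 ↔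
      s'.d (some i) (some j) + s'.d (some j) (some i) < 8)) ∧
  ∀ i : Fin n, s.d (some i) none < s.d none (some i) ↔ s'.d (some i) none < s'.d none (some i)

theorem Cfg.Same.E {s s' : Cfg n} (h : s.Same s') : s.E = s'.E := by
  ext γ
  simp only [Cfg.E, mem_filter, mem_univ, true_and]
  refine or_congr (and_congr_right fun a => ?_) (and_congr_right fun _ => h.2 _)
  rw [(h.1 _ _ a.ne).2.1, (h.1 _ _ a.ne).2.2]

theorem w1_rp {w' : Wd} {s s' : Cfg n} (h : s.Same s')
    (ho : ∀ i j, i < j → s.d (some j) (some i) < s.d (some i) (some j))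
    (h1 : ∀ x, w'[s'.ps x]? = some (s'.lv x, x.isNone)) (h2 : Function.Injective s'.ps)
    (h3 : w'.length = n + 1) : Rp w' s.E :=
  ⟨s', h1, h2, h3, fun i j a => (h.1 j i a.ne').1.1 (ho i j a), h.E⟩

theorem w1_lt {w : Wd} {s : Cfg n} (h1 : ∀ x, w[s.ps x]? = some (s.lv x, x.isNone)) (x) :
    s.ps x < w.length := (List.getElem?_eq_some_iff.1 (h1 x)).1

theorem w1_surj {w : Wd} {s : Cfg n} (h1 : ∀ x, w[s.ps x]? = some (s.lv x, x.isNone))
    (h2 : Function.Injective s.ps) (h3 : w.length = n + 1) {p : ℕ} (hp : p < w.length) :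
    ∃ x, s.ps x = p := by
  let f : Option (Fin n) → Fin w.length := fun x => ⟨s.ps x, w1_lt h1 x⟩
  have hf : Function.Injective f := fun x y e => h2 (congrArg Fin.val e)
  obtain ⟨x, hx⟩ := ((Fintype.bijective_iff_injective_and_card f).2 ⟨hf, by simp [h3]⟩).2 ⟨p, hp⟩
  exact ⟨x, congrArg Fin.val hx⟩

theorem Rp.uniq {w : Wd} {E E' : Finset (Rt n)} (h : Rp w E) (h' : Rp w E') : E = E' := by
  obtain ⟨s, a1, a2, a3, a4, rfl⟩ := h
  obtain ⟨s', b1, b2, -, b4, rfl⟩ := h'
  have key : ∀ x y, s.ps x = s'.ps y → s.lv x = s'.lv y ∧ x.isNone = y.isNone := fun x y e => by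
    have := (a1 x).symm.trans (e ▸ b1 y)
    simpa using this
  have ex : ∀ i : Fin n, ∃ k : Fin n, s.ps (some k) = s'.ps (some i) := fun i => by
    obtain ⟨x, hx⟩ := w1_surj a1 a2 a3 (w1_lt b1 (some i))
    rcases x with _ | k
    · simpa using (key _ _ hx).2
    · exact ⟨k, hx⟩
  choose π hπ using ex
  have hm : StrictMono π := fun i j hij => by
    have e := b4 i j hij
    have e1 : s'.d (some j) (some i) = s.d (some (π j)) (some (π i)) := by
      simp only [Cfg.d, hπ, (key _ _ (hπ j)).1]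
    have e2 : s'.d (some i) (some j) = s.d (some (π i)) (some (π j)) := by
      simp only [Cfg.d, hπ, (key _ _ (hπ i)).1]
    rw [e1, e2] at e
    rcases lt_trichotomy (π i) (π j) with a | a | a
    · exact a
    · rw [a] at e; exact absurd e (lt_irrefl _)
    · exact absurd (a4 _ _ a) e.not_gt
  have hp : s.ps = s'.ps := by
    funext x
    rcases x with _ | i
    · obtain ⟨x, hx⟩ := w1_surj a1 a2 a3 (w1_lt b1 none)
      rcases x with _ | k
      · exact hx
      · simpa using (key _ _ hx).2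
    · have := hπ i
      rwa [le_antisymm (hm.apply_le (x := i)) hm.le_apply] at this
  have hl : s.lv = s'.lv := funext fun x => (key x x (congrFun hp x)).1
  obtain ⟨l, p⟩ := s
  obtain ⟨l', p'⟩ := s'
  dsimp only at hp hl
  rw [hp, hl]

theorem wv_eq {T : Type} [Zero T] (G : Finset (Rt n) → T) {w : Wd} {E : Finset (Rt n)}
    (h : Rp w E) : wv G w = G E := by
  have h' : ∃ E : Finset (Rt n), Rp w E := ⟨E, h⟩
  rw [wv, dif_pos h', h'.choose_spec.uniq h]

theorem wv_fin {T : Type} [Zero T] (G : Finset (Rt n) → T) : (Set.range (wv G)).Finite := by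
  refine ((Set.finite_range G).insert 0).subset ?_
  rintro _ ⟨w, rfl⟩
  unfold wv
  split_ifs
  · exact Or.inr ⟨_, rfl⟩
  · exact Or.inl rfl

theorem w1_swap (u v : Wd) {p r : ℤ × Bool}
    (h : p.1 + 2 ≤ r.1 ∨ r.1 + 2 ≤ p.1 ∨ (p.2 ≠ r.2 ∧ p.1 ≠ r.1)) {E : Finset (Rt n)}
    (hE : Rp (u ++ p :: r :: v) E) : Rp (u ++ r :: p :: v) E := by
  obtain ⟨s, a1, a2, a3, a4, rfl⟩ := hE
  have g0 : ∀ x, s.ps x = u.length → (s.lv x, x.isNone) = p := fun x e => by
    have := a1 x
    rw [e] at this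
    simpa using this.symm
  have g1 : ∀ x, s.ps x = u.length + 1 → (s.lv x, x.isNone) = r := fun x e => by
    have := a1 x
    rw [e] at this
    simpa using this.symm
  have dd : ∀ x y, x ≠ y → ((s.ps x < s.ps y ↔ Equiv.swap u.length (u.length + 1) (s.ps x) <
      Equiv.swap u.length (u.length + 1) (s.ps y)) ∧ (s.ps y < s.ps x ↔
      Equiv.swap u.length (u.length + 1) (s.ps y) < Equiv.swap u.length (u.length + 1) (s.ps x))) ∨
      (s.ps x ≠ s.ps y ∧ Equiv.swap u.length (u.length + 1) (s.ps x) ≠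
        Equiv.swap u.length (u.length + 1) (s.ps y) ∧ (s.lv x + 2 ≤ s.lv y ∨ s.lv y + 2 ≤ s.lv x ∨
        (x.isNone ≠ y.isNone ∧ s.lv x ≠ s.lv y))) := fun x y hxy => by
    have hne : s.ps x ≠ s.ps y := fun e => hxy (a2 e)
    by_cases c1 : s.ps x = u.length ∧ s.ps y = u.length + 1
    · refine Or.inr ⟨hne, fun e => hne (Equiv.injective _ e), ?_⟩
      rw [← g0 x c1.1, ← g1 y c1.2] at h
      exact h
    by_cases c2 : s.ps y = u.length ∧ s.ps x = u.length + 1
    · refine Or.inr ⟨hne, fun e => hne (Equiv.injective _ e), ?_⟩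
      rw [← g0 y c2.1, ← g1 x c2.2] at h
      exact h.elim (fun a => Or.inr (Or.inl a)) fun a => a.elim Or.inl
        fun a => Or.inr (Or.inr ⟨a.1.symm, a.2.symm⟩)
    left
    simp only [Equiv.swap_apply_def]
    split_ifs <;> omega
  refine w1_rp (s' := ⟨s.lv, fun x => Equiv.swap u.length (u.length + 1) (s.ps x)⟩)
    ⟨fun i j hij => ?_, fun i => ?_⟩ a4 (fun x => ?_) ((Equiv.injective _).comp a2)
    (by simpa using a3)
  · rcases dd (some i) (some j) (by simpa using hij) with ⟨e1, e2⟩ | ⟨e1, e2, e3⟩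
    · simp only [Cfg.d, e1, e2, and_self]
    · simp only [Option.isNone_some, ne_eq, not_true_eq_false, false_and, or_false] at e3
      simp only [Cfg.d]
      split_ifs <;> omega
  · rcases dd (some i) none (by simp) with ⟨e1, e2⟩ | ⟨e1, e2, e3⟩
    · simp only [Cfg.d, e1, e2]
    · have e4 : s.lv (some i) ≠ s.lv none := by omega
      simp only [Cfg.d]
      split_ifs <;> omega
  · dsimp only
    by_cases c0 : s.ps x = u.length
    · rw [c0, g0 x c0]; simp
    by_cases c1 : s.ps x = u.length + 1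
    · rw [c1, g1 x c1]; simp
    rw [Equiv.swap_apply_of_ne_of_ne c0 c1, ← a1 x]
    rcases lt_or_gt_of_ne c0 with c | c
    · rw [List.getElem?_append_left c, List.getElem?_append_left c]
    · obtain ⟨k, hk⟩ : ∃ k, s.ps x = u.length + (k + 2) := ⟨s.ps x - u.length - 2, by omega⟩
      rw [hk, List.getElem?_append_right (by omega), List.getElem?_append_right (by omega),
        Nat.add_sub_cancel_left]
      rfl

theorem rp_comm (u v : Wd) {a b : ℤ} (h : a + 2 ≤ b) (E : Finset (Rt n)) :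
    Rp (u ++ lx a :: lx b :: v) E ↔ Rp (u ++ lx b :: lx a :: v) E :=
  ⟨w1_swap u v (Or.inl h), w1_swap u v (Or.inr (Or.inl h))⟩

theorem rp_commY (u v : Wd) {a c : ℤ} (h : a ≠ c) (E : Finset (Rt n)) :
    Rp (u ++ lx a :: ly c :: v) E ↔ Rp (u ++ ly c :: lx a :: v) E :=
  ⟨w1_swap u v (Or.inr (Or.inr ⟨by simp, h⟩)), w1_swap u v (Or.inr (Or.inr ⟨by simp, h.symm⟩))⟩

theorem w1_front (w : Wd) (a : ℤ) (b : Bool) {E : Finset (Rt n)} (hE : Rp ((a, b) :: w) E) :
    Rp ((-a, b) :: w) E := by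
  obtain ⟨s, a1, a2, a3, a4, rfl⟩ := hE
  refine w1_rp (s' := ⟨fun x => if s.ps x = 0 then -s.lv x else s.lv x, s.ps⟩)
    ⟨fun i j hij => ?_, fun i => ?_⟩ a4 (fun x => ?_) a2 a3
  · have : s.ps (some i) ≠ s.ps (some j) := fun e => hij (by simpa using a2 e)
    simp only [Cfg.d]
    split_ifs <;> omega
  · have : s.ps (some i) ≠ s.ps none := fun e => by simpa using a2 e
    simp only [Cfg.d]
    split_ifs <;> omega
  · have := a1 x
    dsimp only
    rcases e : s.ps x with _ | k <;> rw [e] at this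
    · simp only [List.getElem?_cons_zero, Option.some.injEq, Prod.mk.injEq] at this
      simp [this.1, this.2]
    · simpa using this

theorem rp_front (w : Wd) (a : ℤ) (s : Bool) (E : Finset (Rt n)) :
    Rp ((a, s) :: w) E ↔ Rp ((-a, s) :: w) E :=
  ⟨w1_front w a s, fun h => by simpa using w1_front w (-a) s h⟩

theorem w1_back (w : Wd) (a : ℤ) (b : Bool) {E : Finset (Rt n)} (hE : Rp (w ++ [(a, b)]) E) :
    Rp (w ++ [(-a - 1, b)]) E := by
  obtain ⟨s, a1, a2, a3, a4, rfl⟩ := hE
  have hl : ∀ x, s.ps x ≤ w.length := fun x => by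
    have := w1_lt a1 x
    simp only [List.length_append, List.length_singleton] at this
    omega
  refine w1_rp (s' := ⟨fun x => if s.ps x = w.length then -s.lv x - 1 else s.lv x, s.ps⟩)
    ⟨fun i j hij => ?_, fun i => ?_⟩ a4 (fun x => ?_) a2 (by simpa using a3)
  · have : s.ps (some i) ≠ s.ps (some j) := fun e => hij (by simpa using a2 e)
    have := hl (some i)
    have := hl (some j)
    simp only [Cfg.d]
    split_ifs <;> omega
  · have : s.ps (some i) ≠ s.ps none := fun e => by simpa using a2 e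
    have := hl (some i)
    have := hl none
    simp only [Cfg.d]
    split_ifs <;> omega
  · have := a1 x
    dsimp only
    rcases (hl x).eq_or_lt with e | e
    · rw [e] at this ⊢
      simp only [List.getElem?_concat_length, Option.some.injEq, Prod.mk.injEq] at this
      simp [this.1, this.2]
    · rw [if_neg e.ne, ← this, List.getElem?_append_left e, List.getElem?_append_left e]

theorem rp_back (w : Wd) (a : ℤ) (s : Bool) (E : Finset (Rt n)) :
    Rp (w ++ [(a, s)]) E ↔ Rp (w ++ [(-a - 1, s)]) E :=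
  ⟨w1_back w a s, fun h => by simpa using w1_back w (-a - 1) s h⟩

end Pool.Agent.Lib.MP_33bfb2_co.Th
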