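import Pool.Agent.Lib.MP_33bfb2_co.Th.WDefs

namespace Pool.Agent.Lib.MP_33bfb2_co.Th

open Finset

variable {n : ℕ}

/-- The three words represent a triple as soon as one of them represents something. -/
def Tr3 (n : ℕ) (lo : Prop) (wt wm wb : Wd) : Prop :=
  (∃ E : Finset (Rt n), Rp wt E ∨ Rp wm E ∨ Rp wb E) → ∃ (E : Finset (Rt n)) (α β β' : Rt n)
    (σ : Rt n → Rt n), Trip E α β β' σ ∧ (isLoop β ↔ lo) ∧ Rp wb E ∧ Rp wm (insert β E) ∧
      Rp wt (insert β' (insert β E))

theorem w2_memP (s : Cfg n) (i j : Fin n) : (i, (j, 1)) ∈ s.E ↔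
    i < j ∧ s.d (some i) (some j) < s.d (some j) (some i) + 8 := by
  simp [Cfg.E]

theorem w2_memM (s : Cfg n) (i j : Fin n) : (i, (j, -1)) ∈ s.E ↔
    (i < j ∧ s.d (some i) (some j) + s.d (some j) (some i) < 8) ∨
      (j = i ∧ s.d (some i) none < s.d none (some i)) := by
  simp [Cfg.E]

theorem w2_can (s : Cfg n) {γ : Rt n} (h : γ ∈ s.E) : can γ := by
  simp only [Cfg.E, mem_filter] at h
  exact h.2.imp And.left And.left

theorem w2_surj {w : Wd} {s : Cfg n} (h1 : ∀ x, w[s.ps x]? = some (s.lv x, x.isNone))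
    (h2 : Function.Injective s.ps) (h3 : w.length = n + 1) {p : ℕ} (hp : p < n + 1) :
    ∃ x, s.ps x = p := by
  have hl : ∀ x, s.ps x < n + 1 := fun x => h3 ▸ (List.getElem?_eq_some_iff.1 (h1 x)).1
  have hb : Function.Bijective fun x => (⟨s.ps x, hl x⟩ : Fin (n + 1)) :=
    (Fintype.bijective_iff_injective_and_card _).2
      ⟨fun x y e => h2 (congrArg Fin.val e), by simp⟩
  obtain ⟨x, hx⟩ := hb.2 ⟨p, hp⟩
  exact ⟨x, congrArg Fin.val hx⟩

/-- The vertices are listed by decreasing distance. -/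
def w2_Srt (s : Cfg n) : Prop := ∀ i j, i < j → s.d (some j) (some i) < s.d (some i) (some j)

/-- Put z at position P + k and the twins f, g at the two other positions of P, P + 1, P + 2. -/
def w2_place (s : Cfg n) (f g : Fin n) (z : Option (Fin n)) (P k : ℕ) : Cfg n :=
  ⟨s.lv, fun x => if x = z then P + k else if x = some f then (if k = 0 then P + 1 else P)
    else if x = some g then (if k = 2 then P + 1 else P + 2) else s.ps x⟩

/-- The three words. -/
def w2_wd (u v : Wd) (a : ℤ) (zb : ℤ × Bool) : ℕ → Wd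
  | 0 => u ++ zb :: lx a :: lx a :: v
  | 1 => u ++ lx a :: zb :: lx a :: v
  | _ => u ++ lx a :: lx a :: zb :: v

/-- The data of three consecutive letters. -/
structure w2_D (s : Cfg n) (f g : Fin n) (z : Option (Fin n)) (P : ℕ) (a b : ℤ) : Prop where
  fg : f ≠ g
  zf : z ≠ some f
  zg : z ≠ some g
  lf : s.lv (some f) = a
  lg : s.lv (some g) = a
  lz : s.lv z = b
  out : ∀ x, x ≠ z → x ≠ some f → x ≠ some g → s.ps x < P ∨ P + 2 < s.ps x
  inj : Function.Injective s.ps

section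

variable {s : Cfg n} {f g : Fin n} {z : Option (Fin n)} {P : ℕ} {a b : ℤ}

theorem w2_D.off (D : w2_D s f g z P a b) {k k' : ℕ} (hk : k ≤ 2) (hk' : k' ≤ 2)
    (x y : Option (Fin n)) (h1 : x = z → (y = some f → (k = 0 ↔ k' = 0)) ∧
      (y = some g → (k = 2 ↔ k' = 2)))
    (h2 : y = z → (x = some f → (k = 0 ↔ k' = 0)) ∧ (x = some g → (k = 2 ↔ k' = 2))) :
    (w2_place s f g z P k).d x y = (w2_place s f g z P k').d x y := by
  have e : (w2_place s f g z P k).ps x < (w2_place s f g z P k).ps y ↔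
      (w2_place s f g z P k').ps x < (w2_place s f g z P k').ps y := by
    have := D.out x
    have := D.out y
    have := D.fg
    have := D.zf
    have := D.zg
    simp only [w2_place]
    grind
  simp only [Cfg.d, e]
  rfl

theorem w2_D.twin (D : w2_D s f g z P a b) {k : ℕ} (hk : k = 0 ∨ k = 2) (x : Option (Fin n))
    (h1 : x ≠ some f) (h2 : x ≠ some g) :
    (w2_place s f g z P k).d (some f) x = (w2_place s f g z P k).d (some g) x ∧
      (w2_place s f g z P k).d x (some f) = (w2_place s f g z P k).d x (some g) := by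
  have := D.out x
  have := D.fg
  have := D.zf
  have := D.zg
  have e1 : (w2_place s f g z P k).ps (some f) < (w2_place s f g z P k).ps x ↔
      (w2_place s f g z P k).ps (some g) < (w2_place s f g z P k).ps x := by
    simp only [w2_place]
    grind
  have e2 : (w2_place s f g z P k).ps x < (w2_place s f g z P k).ps (some f) ↔
      (w2_place s f g z P k).ps x < (w2_place s f g z P k).ps (some g) := by
    simp only [w2_place]
    grind
  simp only [Cfg.d, e1, e2, and_true]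
  simp only [w2_place, D.lf, D.lg]

theorem w2_D.val (D : w2_D s f g z P a b) {k : ℕ} (hk : k ≤ 2) :
    (w2_place s f g z P k).d (some f) (some g) = (8 * a + 1).natAbs ∧
    (w2_place s f g z P k).d (some g) (some f) = (8 * a + 3).natAbs ∧
    (w2_place s f g z P k).d z (some f) = (8 * b + if k = 0 then 1 else 3).natAbs ∧
    (w2_place s f g z P k).d (some f) z = (8 * a + if k = 0 then 3 else 1).natAbs ∧
    (w2_place s f g z P k).d z (some g) = (8 * b + if k = 2 then 3 else 1).natAbs ∧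
    (w2_place s f g z P k).d (some g) z = (8 * a + if k = 2 then 1 else 3).natAbs := by
  have h1 := D.fg
  have h2 := D.zf
  have h3 := D.zg
  obtain rfl | rfl | rfl : k = 0 ∨ k = 1 ∨ k = 2 := by omega
  all_goals
    simp [Cfg.d, w2_place, D.lf, D.lg, D.lz, h1.symm, h2.symm, h3.symm]

theorem w2_D.pinj (D : w2_D s f g z P a b) {k : ℕ} (hk : k ≤ 2) :
    Function.Injective (w2_place s f g z P k).ps := by
  intro x y
  have := D.out x
  have := D.out y
  have := @D.inj x y
  simp only [w2_place]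
  grind

theorem w2_D.srt (D : w2_D s f g z P a b) (hab : z = none ∨ b = a + 1 ∨ b + 1 = a) {k k' : ℕ}
    (hk : k ≤ 2) (hk' : k' ≤ 2) (h : w2_Srt (w2_place s f g z P k)) :
    w2_Srt (w2_place s f g z P k') := by
  intro i j hij
  have h0 := h i j hij
  have v := D.val hk
  have v' := D.val hk'
  by_cases c1 : some i = z ∧ (j = f ∨ j = g)
  · obtain ⟨rfl, rfl | rfl⟩ := c1 <;> simp only [v, v', reduceCtorEq, false_or] at h0 hab ⊢ <;>
      split_ifs at h0 ⊢ <;> omega
  by_cases c2 : some j = z ∧ (i = f ∨ i = g)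
  · obtain ⟨rfl, rfl | rfl⟩ := c2 <;> simp only [v, v', reduceCtorEq, false_or] at h0 hab ⊢ <;>
      split_ifs at h0 ⊢ <;> omega
  rw [D.off hk' hk (some j) (some i) (by grind) (by grind),
    D.off hk' hk (some i) (some j) (by grind) (by grind)]
  exact h0

end

theorem w2_get (u v : Wd) (x y z x' y' z' : ℤ × Bool) {p : ℕ} (h : p < u.length ∨ u.length + 2 < p) :
    (u ++ x :: y :: z :: v)[p]? = (u ++ x' :: y' :: z' :: v)[p]? := by
  rcases h with h | h
  · rw [List.getElem?_append_left h, List.getElem?_append_left h]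
  · rw [List.getElem?_append_right (by omega), List.getElem?_append_right (by omega)]
    obtain ⟨m, e⟩ : ∃ m, p - u.length = m + 3 := ⟨p - u.length - 3, by omega⟩
    rw [e]
    rfl

theorem w2_wd_get (u v : Wd) (a : ℤ) (zb : ℤ × Bool) {k : ℕ} (hk : k ≤ 2) :
    (w2_wd u v a zb k)[u.length + k]? = some zb ∧
    (w2_wd u v a zb k)[if k = 0 then u.length + 1 else u.length]? = some (lx a) ∧
    (w2_wd u v a zb k)[if k = 2 then u.length + 1 else u.length + 2]? = some (lx a) ∧
    (w2_wd u v a zb k).length = u.length + 3 + v.length ∧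
    ∀ p, p < u.length ∨ u.length + 2 < p →
      (w2_wd u v a zb k)[p]? = (u ++ zb :: zb :: zb :: v)[p]? := by
  obtain rfl | rfl | rfl : k = 0 ∨ k = 1 ∨ k = 2 := by omega
  all_goals
    refine ⟨by simp [w2_wd], by simp [w2_wd], by simp [w2_wd], by simp [w2_wd]; omega,
      fun p hp => w2_get _ _ _ _ _ _ _ _ hp⟩

theorem w2_engine (u v : Wd) {a b : ℤ} {fl : Bool} (hab : fl = true ∨ b = a + 1 ∨ b + 1 = a)
    {k : ℕ} (hk : k ≤ 2) {E : Finset (Rt n)} (h : Rp (w2_wd u v a (b, fl) k) E) :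
    ∃ (s : Cfg n) (f g : Fin n) (z : Option (Fin n)) (P : ℕ), w2_D s f g z P a b ∧
      z.isNone = fl ∧ ∀ k' ≤ 2, w2_Srt (w2_place s f g z P k') ∧
        Rp (w2_wd u v a (b, fl) k') (w2_place s f g z P k').E := by
  obtain ⟨s, h1, h2, h3, h4, -⟩ := h
  obtain ⟨g1, g2, g3, g4, g5⟩ := w2_wd_get u v a (b, fl) hk
  obtain ⟨z, hz⟩ := w2_surj h1 h2 h3 (p := u.length + k) (by omega)
  obtain ⟨f, hf⟩ := w2_surj h1 h2 h3 (p := if k = 0 then u.length + 1 else u.length)
    (by split_ifs <;> omega)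
  obtain ⟨g, hg⟩ := w2_surj h1 h2 h3 (p := if k = 2 then u.length + 1 else u.length + 2)
    (by split_ifs <;> omega)
  have ez := h1 z
  have ef := h1 f
  have eg := h1 g
  rw [hz, g1] at ez
  rw [hf, g2] at ef
  rw [hg, g3] at eg
  simp only [Option.some.injEq, Prod.mk.injEq] at ez ef eg
  obtain _ | f := f
  · simp at ef
  obtain _ | g := g
  · simp at eg
  have D : w2_D s f g z u.length a b := by
    refine ⟨?_, ?_, ?_, ef.1.symm, eg.1.symm, ez.1.symm, fun x x1 x2 x3 => ?_, h2⟩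
    · rintro rfl; grind
    · rintro rfl; grind
    · rintro rfl; grind
    · have := @h2 x z
      have := @h2 x (some f)
      have := @h2 x (some g)
      grind
  have e : w2_place s f g z u.length k = s := by
    obtain ⟨lv, ps⟩ := s
    simp only [w2_place, Cfg.mk.injEq, true_and] at hz hf hg ⊢
    funext x
    grind
  have hz' : z = none ∨ b = a + 1 ∨ b + 1 = a := by
    refine hab.imp_left fun e => ?_
    rw [← Option.isNone_iff_eq_none, ← ez.2, e]
  refine ⟨s, f, g, z, u.length, D, ez.2.symm, fun k' hk' => ?_⟩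
  have hs : w2_Srt (w2_place s f g z u.length k') := D.srt hz' hk hk' (by rw [e]; exact h4)
  obtain ⟨g1', g2', g3', g4', g5'⟩ := w2_wd_get u v a (b, fl) hk'
  refine ⟨hs, _, fun x => ?_, D.pinj hk', by omega, hs, rfl⟩
  simp only [w2_place]
  by_cases x1 : x = z
  · rw [if_pos x1, g1', x1, ← ez.1, ← ez.2]
  by_cases x2 : x = some f
  · rw [if_neg x1, if_pos x2, g2', x2, ← ef.1]; rfl
  by_cases x3 : x = some g
  · rw [if_neg x1, if_neg x2, if_pos x3, g3', x3, ← eg.1]; rfl
  rw [if_neg x1, if_neg x2, if_neg x3, g5' _ (D.out x x1 x2 x3), ← g5 _ (D.out x x1 x2 x3), h1]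

theorem w2_inv {s : Cfg n} (hs : w2_Srt s) {i j : Fin n}
    (h : ∀ x, x ≠ some i → x ≠ some j → s.d (some i) x = s.d (some j) x ∧
      s.d x (some i) = s.d x (some j)) (γ : Rt n) (hγ : γ ∈ s.E) : sgA i j γ ∈ s.E := by
  obtain ⟨x, y, u⟩ := γ
  unfold sgA
  split_ifs with hc
  · exact hγ
  have o : ∀ x, x ≠ i → x ≠ j → ((x < i ↔ x < j) ∧ (i < x ↔ j < x)) ∧
      s.d (some i) (some x) = s.d (some j) (some x) ∧
      s.d (some x) (some i) = s.d (some x) (some j) := by
    intro x x1 x2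
    have := h (some x) (by simpa using x1) (by simpa using x2)
    have := hs x i
    have := hs x j
    have := hs i x
    have := hs j x
    omega
  have h0 := h none (by simp) (by simp)
  dsimp only at hc
  have e : ∀ x y : Fin n, ¬ ((x = i ∧ y = j) ∨ (x = j ∧ y = i)) → x ≠ y →
      (Equiv.swap i j x < Equiv.swap i j y ↔ x < y) ∧
      s.d (some (Equiv.swap i j x)) (some (Equiv.swap i j y)) = s.d (some x) (some y) := by
    intro x y hc hne
    by_cases x1 : x = i
    · have y1 : y ≠ i := fun e => hne (x1.trans e.symm)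
      have y2 : y ≠ j := fun e => hc (Or.inl ⟨x1, e⟩)
      rw [x1, Equiv.swap_apply_left, Equiv.swap_apply_of_ne_of_ne y1 y2]
      exact ⟨(o y y1 y2).1.2.symm, (o y y1 y2).2.1.symm⟩
    by_cases x2 : x = j
    · have y1 : y ≠ j := fun e => hne (x2.trans e.symm)
      have y2 : y ≠ i := fun e => hc (Or.inr ⟨x2, e⟩)
      rw [x2, Equiv.swap_apply_right, Equiv.swap_apply_of_ne_of_ne y2 y1]
      exact ⟨(o y y2 y1).1.2, (o y y2 y1).2.1⟩
    rw [Equiv.swap_apply_of_ne_of_ne x1 x2]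
    by_cases y1 : y = i
    · rw [y1, Equiv.swap_apply_left]
      exact ⟨(o x x1 x2).1.1.symm, (o x x1 x2).2.2.symm⟩
    by_cases y2 : y = j
    · rw [y2, Equiv.swap_apply_right]
      exact ⟨(o x x1 x2).1.1, (o x x1 x2).2.2⟩
    rw [Equiv.swap_apply_of_ne_of_ne y1 y2]
    exact ⟨Iff.rfl, rfl⟩
  by_cases hne : x = y
  · subst hne
    rcases Int.units_eq_one_or u with rfl | rfl
    · exact absurd ((w2_memP _ _ _).1 hγ).1 (lt_irrefl _)
    · simp only [w2_memM, lt_irrefl, false_and, false_or, true_and] at hγ ⊢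
      simp only [Equiv.swap_apply_def]
      split_ifs <;> subst_vars <;> omega
  have e1 := e x y hc hne
  have e2 := e y x (by tauto) (Ne.symm hne)
  rcases Int.units_eq_one_or u with rfl | rfl
  · rwa [w2_memP, e1.1, e1.2, e2.2, ← w2_memP]
  · rw [w2_memM] at hγ ⊢
    rw [e1.1, e1.2, e2.2]
    exact Or.inl (hγ.resolve_right fun c => hne c.1.symm)

theorem w2_trip {E : Finset (Rt n)} {i j : Fin n} (hij : i < j) (hE : ∀ γ ∈ E, can γ)
    (hα : (i, (j, 1)) ∈ E) (hm : ∀ γ ∈ E, sgA i j γ ∈ E) {β β' : Rt n} (hβ : β ∉ E) (hβ' : β' ∉ E)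
    (h : (∃ r < i, β = (r, (i, 1)) ∧ β' = (r, (j, 1))) ∨
      (∃ r u, j < r ∧ β = (j, (r, u)) ∧ β' = (i, (r, u))) ∨
      (∃ r < i, β = (r, (j, -1)) ∧ β' = (r, (i, -1))) ∨ (β = (j, (j, -1)) ∧ β' = (i, (i, -1)))) :
    Trip E (i, (j, 1)) β β' (sgA i j) := by
  have n0 := hij.ne
  have n1 := hij.ne'
  suffices H : β ≠ β' ∧ can β ∧ can β' ∧ sgA i j β = β' ∧
      ((¬ isLoop β ∧ ∀ (A : Type) [AddCommGroup A] (y : V n → A), (∀ v, y (ng v) = - y v) →
        vl y β' = vl y β + vl y (i, (j, 1))) ∨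
      (isLoop β ∧ ∀ (A : Type) [AddCommGroup A] (y : V n → A), (∀ v, y (ng v) = - y v) →
        vl y β' = vl y β + vl y (i, (j, 1)) + vl y (i, (j, 1)))) from
    ⟨hE, hα, hβ, hβ', H.1, H.2.1, H.2.2.1, sgA_inv i j, hm, by simp [sgA], H.2.2.2.1,
      sgA_par hij, sgA_loop i j, H.2.2.2.2⟩
  rcases h with ⟨r, hr, rfl, rfl⟩ | ⟨r, u, hr, rfl, rfl⟩ | ⟨r, hr, rfl, rfl⟩ | ⟨rfl, rfl⟩
  · have r0 := hr.ne
    have r1 := (hr.trans hij).ne
    refine ⟨by simp [n0], Or.inl hr, Or.inl (hr.trans hij), ?_, Or.inl ⟨by simp [isLoop], ?_⟩⟩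
    · simp [sgA, r0, r1, Equiv.swap_apply_of_ne_of_ne]
    · intro A _ y _
      simp only [vl]; abel
  · have r0 := hr.ne'
    have r1 := (hij.trans hr).ne'
    refine ⟨by simp [n1], Or.inl hr, Or.inl (hij.trans hr), ?_,
      Or.inl ⟨by simp [isLoop, r0], ?_⟩⟩
    · simp [sgA, r0, r1, n1, Equiv.swap_apply_of_ne_of_ne]
    · intro A _ y _
      simp only [vl]; abel
  · have r0 := hr.ne
    have r1 := (hr.trans hij).ne
    refine ⟨by simp [n1], Or.inl (hr.trans hij), Or.inl hr, ?_,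
      Or.inl ⟨by simp [isLoop, r1.symm], ?_⟩⟩
    · simp [sgA, r0, r1, Equiv.swap_apply_of_ne_of_ne]
    · intro A _ y hy
      simp only [vl, ← ng_mk, hy]; abel
  · refine ⟨by simp [n1], Or.inr rfl, Or.inr rfl, by simp [sgA, n1], Or.inr ⟨rfl, ?_⟩⟩
    intro A _ y hy
    simp only [vl, ← ng_mk, hy]; abel

theorem w2_ins {s s' : Cfg n} {t : Fin n} {z : Option (Fin n)}
    (hd : ∀ x y, ¬ (x = z ∧ y = some t) → ¬ (x = some t ∧ y = z) → s'.d x y = s.d x y)
    {β : Rt n} (hβ : β ∈ s'.E)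
    (h : ∀ r u, z = some r → ((r, (t, u)) ≠ β → ((r, (t, u)) ∈ s'.E ↔ (r, (t, u)) ∈ s.E)) ∧
      ((t, (r, u)) ≠ β → ((t, (r, u)) ∈ s'.E ↔ (t, (r, u)) ∈ s.E)))
    (h' : z = none → β = (t, (t, -1))) : s'.E = insert β s.E := by
  ext γ
  rw [mem_insert]
  by_cases e : γ = β
  · simp [e, hβ]
  simp only [e, false_or]
  obtain ⟨x, y, u⟩ := γ
  by_cases c1 : z = some x ∧ y = t
  · obtain ⟨c, rfl⟩ := c1
    exact (h x u c).1 e
  by_cases c2 : z = some y ∧ x = t
  · obtain ⟨c, rfl⟩ := c2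
    exact (h y u c).2 e
  have e1 := hd (some x) (some y) (by grind) (by grind)
  have e2 := hd (some y) (some x) (by grind) (by grind)
  rcases Int.units_eq_one_or u with rfl | rfl
  · rw [w2_memP, w2_memP, e1, e2]
  · rw [w2_memM, w2_memM, e1, e2]
    by_cases c3 : y = x
    · subst c3
      rw [hd (some y) none (by grind) (by grind), hd none (some y) (by grind) (by grind)]
    · simp only [c3, false_and]

theorem w2_fin {u v : Wd} {a b : ℤ} {fl : Bool} {kt kb : ℕ} {s : Cfg n} {f g : Fin n}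
    {z : Option (Fin n)} {P : ℕ} (D : w2_D s f g z P a b)
    (H : ∀ k' ≤ 2, w2_Srt (w2_place s f g z P k') ∧
      Rp (w2_wd u v a (b, fl) k') (w2_place s f g z P k').E)
    (i j t t' : Fin n) (β β' : Rt n) (hij : i < j) (c1 : (i = f ∧ j = g) ∨ (i = g ∧ j = f))
    (c2 : (kb = 0 ∧ kt = 2 ∧ t = f ∧ t' = g) ∨ (kb = 2 ∧ kt = 0 ∧ t = g ∧ t' = f))
    (c3 : (∃ r < i, β = (r, (i, 1)) ∧ β' = (r, (j, 1))) ∨
      (∃ r u, j < r ∧ β = (j, (r, u)) ∧ β' = (i, (r, u))) ∨
      (∃ r < i, β = (r, (j, -1)) ∧ β' = (r, (i, -1))) ∨ (β = (j, (j, -1)) ∧ β' = (i, (i, -1))))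
    (c4 : isLoop β ↔ fl = true)
    (m : β ∉ (w2_place s f g z P kb).E ∧ β' ∉ (w2_place s f g z P 1).E ∧
      β ∈ (w2_place s f g z P 1).E ∧ β' ∈ (w2_place s f g z P kt).E)
    (r1 : ∀ r u, z = some r → ((r, (t, u)) ≠ β → ((r, (t, u)) ∈ (w2_place s f g z P 1).E ↔
      (r, (t, u)) ∈ (w2_place s f g z P kb).E)) ∧ ((t, (r, u)) ≠ β →
        ((t, (r, u)) ∈ (w2_place s f g z P 1).E ↔ (t, (r, u)) ∈ (w2_place s f g z P kb).E)))
    (r2 : ∀ r u, z = some r → ((r, (t', u)) ≠ β' → ((r, (t', u)) ∈ (w2_place s f g z P kt).E ↔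
      (r, (t', u)) ∈ (w2_place s f g z P 1).E)) ∧ ((t', (r, u)) ≠ β' →
        ((t', (r, u)) ∈ (w2_place s f g z P kt).E ↔ (t', (r, u)) ∈ (w2_place s f g z P 1).E)))
    (r3 : z = none → β = (t, (t, -1)) ∧ β' = (t', (t', -1))) :
    ∃ (E : Finset (Rt n)) (α β β' : Rt n) (σ : Rt n → Rt n), Trip E α β β' σ ∧
      (isLoop β ↔ fl = true) ∧ Rp (w2_wd u v a (b, fl) kb) E ∧
      Rp (w2_wd u v a (b, fl) 1) (insert β E) ∧
      Rp (w2_wd u v a (b, fl) kt) (insert β' (insert β E)) := by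
  obtain ⟨m1, m2, m3, m4⟩ := m
  have ht : kt ≤ 2 := by omega
  have hb : kb ≤ 2 := by omega
  have d10 : ∀ x y, ¬ (x = z ∧ y = some f) → ¬ (x = some f ∧ y = z) →
      (w2_place s f g z P 1).d x y = (w2_place s f g z P 0).d x y := fun x y h1 h2 =>
    D.off (by omega) (by omega) x y (by grind) (by grind)
  have d12 : ∀ x y, ¬ (x = z ∧ y = some g) → ¬ (x = some g ∧ y = z) →
      (w2_place s f g z P 1).d x y = (w2_place s f g z P 2).d x y := fun x y h1 h2 =>
    D.off (by omega) (by omega) x y (by grind) (by grind)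
  have e1 : (w2_place s f g z P 1).E = insert β (w2_place s f g z P kb).E := by
    refine w2_ins (t := t) (z := z) ?_ m3 r1 fun e => (r3 e).1
    rcases c2 with ⟨rfl, -, rfl, -⟩ | ⟨rfl, -, rfl, -⟩
    exacts [d10, d12]
  have e2 : (w2_place s f g z P kt).E = insert β' (w2_place s f g z P 1).E := by
    refine w2_ins (t := t') (z := z) ?_ m4 r2 fun e => (r3 e).2
    rcases c2 with ⟨-, rfl, -, rfl⟩ | ⟨-, rfl, -, rfl⟩
    exacts [fun x y p q => (d12 x y p q).symm, fun x y p q => (d10 x y p q).symm]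
  have tw := D.twin (k := kb) (by omega)
  have vb := D.val hb
  refine ⟨_, _, β, β', _, w2_trip hij (fun _ => w2_can _) ?_ (w2_inv (H kb hb).1 ?_) m1
    (fun m => m2 (e1 ▸ mem_insert_of_mem m)) c3, c4, (H kb hb).2, e1 ▸ (H 1 (by omega)).2,
    e1 ▸ e2 ▸ (H kt ht).2⟩
  · rw [w2_memP]
    rcases c1 with ⟨rfl, rfl⟩ | ⟨rfl, rfl⟩ <;> refine ⟨hij, ?_⟩ <;> rw [vb.1, vb.2.1] <;>
      clear * - <;> omega
  · rcases c1 with ⟨rfl, rfl⟩ | ⟨rfl, rfl⟩
    · exact tw
    · exact fun x p q => ⟨(tw x q p).1.symm, (tw x q p).2.symm⟩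

theorem w2_ord {s : Cfg n} (S : w2_Srt s) {i j : Fin n} (h : i ≠ j)
    (h' : s.d (some j) (some i) ≤ s.d (some i) (some j)) : i < j := by
  have := S j i
  omega

theorem w2_main (u v : Wd) {a b : ℤ} {fl : Bool} {kt kb : ℕ}
    (h : (fl = false ∧ ((b = a + 1 ∧ kt = 0 ∧ kb = 2) ∨ (a = b + 1 ∧ kt = 2 ∧ kb = 0))) ∨
      (fl = true ∧ b = a ∧ ((a < 0 ∧ kt = 0 ∧ kb = 2) ∨ (0 ≤ a ∧ kt = 2 ∧ kb = 0)))) :
    Tr3 n (fl = true) (w2_wd u v a (b, fl) kt) (w2_wd u v a (b, fl) 1) (w2_wd u v a (b, fl) kb) := by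
  rintro ⟨E, hE⟩
  have hab : fl = true ∨ b = a + 1 ∨ b + 1 = a := by grind
  have ht : kt ≤ 2 := by omega
  have hb : kb ≤ 2 := by omega
  obtain ⟨s, f, g, z, P, D, hz, H⟩ : ∃ (s : Cfg n) (f g : Fin n) (z : Option (Fin n)) (P : ℕ),
      w2_D s f g z P a b ∧ z.isNone = fl ∧ ∀ k' ≤ 2, w2_Srt (w2_place s f g z P k') ∧
        Rp (w2_wd u v a (b, fl) k') (w2_place s f g z P k').E := by
    rcases hE with hE | hE | hE
    exacts [w2_engine u v hab ht hE, w2_engine u v hab (by omega) hE, w2_engine u v hab hb hE]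
  clear hE hab ht hb
  have v0 := D.val (k := 0) (by omega)
  have v1 := D.val (k := 1) (by omega)
  have v2 := D.val (k := 2) (by omega)
  simp only [if_true, if_false, OfNat.ofNat_ne_zero, OfNat.zero_ne_ofNat, one_ne_zero,
    OfNat.one_ne_ofNat] at v0 v1 v2
  have S := (H 1 (by omega)).1
  have o1 : a < 0 → f < g := fun h => w2_ord S D.fg (by rw [v1.1, v1.2.1]; omega)
  have o2 : 0 ≤ a → g < f := fun h => w2_ord S D.fg.symm (by rw [v1.1, v1.2.1]; omega)
  rcases h with ⟨rfl, h⟩ | ⟨rfl, rfl, h⟩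
  · obtain _ | r := z
    · simp at hz
    have rf : r ≠ f := fun e => D.zf (congrArg some e)
    have rg : r ≠ g := fun e => D.zg (congrArg some e)
    have o3 : (0 ≤ a ∧ b = a + 1) ∨ (b < 0 ∧ a = b + 1) → r < f ∧ r < g := fun h =>
      ⟨w2_ord S rf (by simp only [v1]; omega), w2_ord S rg (by simp only [v1]; omega)⟩
    have o4 : (a < 0 ∧ b = a + 1) ∨ (0 ≤ b ∧ a = b + 1) → f < r ∧ g < r := fun h =>
      ⟨w2_ord S rf.symm (by simp only [v1]; omega), w2_ord S rg.symm (by simp only [v1]; omega)⟩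
    rcases h with ⟨rfl, rfl, rfl⟩ | ⟨rfl, rfl, rfl⟩
    · obtain h | h | h : 0 ≤ a ∨ a = -1 ∨ a ≤ -2 := by omega
      · have o := o3 (by omega)
        refine w2_fin D H g f g f (r, (g, 1)) (r, (f, 1)) (o2 h) (by simp) (by simp)
          (Or.inl ⟨r, o.2, rfl, rfl⟩) (by simp [isLoop]) ?_ ?_ ?_ (by simp)
        · simp only [w2_memP, w2_memM, v0, v1, v2, o, true_and, rf, rg, rf.symm, rg.symm,
            false_and, or_false]
          clear * - h
          omega
        all_goals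
          rintro r' w ⟨⟩
          rcases Int.units_eq_one_or w with rfl | rfl <;>
            simp [w2_memP, w2_memM, v0, v1, v2, o, o.1.not_gt, o.2.not_gt, rf, rg, rf.symm,
              rg.symm] <;> clear * - h <;> omega
      · have o := o4 (by omega)
        refine w2_fin D H f g g f (g, (r, -1)) (f, (r, -1)) (o1 (by omega)) (by simp) (by simp)
          (Or.inr (Or.inl ⟨r, -1, o.2, rfl, rfl⟩)) (by simp [isLoop, rg]) ?_ ?_ ?_ (by simp)
        · simp only [w2_memP, w2_memM, v0, v1, v2, o, true_and, rf, rg, rf.symm, rg.symm,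
            false_and, or_false]
          clear * - h
          omega
        all_goals
          rintro r' w ⟨⟩
          rcases Int.units_eq_one_or w with rfl | rfl <;>
            simp [w2_memP, w2_memM, v0, v1, v2, o, o.1.not_gt, o.2.not_gt, rf, rg, rf.symm,
              rg.symm] <;> clear * - h <;> omega
      · have o := o4 (by omega)
        refine w2_fin D H f g g f (g, (r, 1)) (f, (r, 1)) (o1 (by omega)) (by simp) (by simp)
          (Or.inr (Or.inl ⟨r, 1, o.2, rfl, rfl⟩)) (by simp [isLoop]) ?_ ?_ ?_ (by simp)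
        · simp only [w2_memP, w2_memM, v0, v1, v2, o, true_and, rf, rg, rf.symm, rg.symm,
            false_and, or_false]
          clear * - h
          omega
        all_goals
          rintro r' w ⟨⟩
          rcases Int.units_eq_one_or w with rfl | rfl <;>
            simp [w2_memP, w2_memM, v0, v1, v2, o, o.1.not_gt, o.2.not_gt, rf, rg, rf.symm,
              rg.symm] <;> clear * - h <;> omega
    · obtain h | h | h : 0 ≤ b ∨ b = -1 ∨ b ≤ -2 := by omega
      · have o := o4 (by omega)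
        refine w2_fin D H g f f g (f, (r, 1)) (g, (r, 1)) (o2 (by omega)) (by simp) (by simp)
          (Or.inr (Or.inl ⟨r, 1, o.1, rfl, rfl⟩)) (by simp [isLoop]) ?_ ?_ ?_ (by simp)
        · simp only [w2_memP, w2_memM, v0, v1, v2, o, true_and, rf, rg, rf.symm, rg.symm,
            false_and, or_false]
          clear * - h
          omega
        all_goals
          rintro r' w ⟨⟩
          rcases Int.units_eq_one_or w with rfl | rfl <;>
            simp [w2_memP, w2_memM, v0, v1, v2, o, o.1.not_gt, o.2.not_gt, rf, rg, rf.symm,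
              rg.symm] <;> clear * - h <;> omega
      · have o := o3 (by omega)
        refine w2_fin D H g f f g (r, (f, -1)) (r, (g, -1)) (o2 (by omega)) (by simp) (by simp)
          (Or.inr (Or.inr (Or.inl ⟨r, o.2, rfl, rfl⟩))) (by simp [isLoop, rf.symm]) ?_ ?_ ?_ (by simp)
        · simp only [w2_memP, w2_memM, v0, v1, v2, o, true_and, rf, rg, rf.symm, rg.symm,
            false_and, or_false]
          clear * - h
          omega
        all_goals
          rintro r' w ⟨⟩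
          rcases Int.units_eq_one_or w with rfl | rfl <;>
            simp [w2_memP, w2_memM, v0, v1, v2, o, o.1.not_gt, o.2.not_gt, rf, rg, rf.symm,
              rg.symm] <;> clear * - h <;> omega
      · have o := o3 (by omega)
        refine w2_fin D H f g f g (r, (f, 1)) (r, (g, 1)) (o1 (by omega)) (by simp) (by simp)
          (Or.inl ⟨r, o.1, rfl, rfl⟩) (by simp [isLoop]) ?_ ?_ ?_ (by simp)
        · simp only [w2_memP, w2_memM, v0, v1, v2, o, true_and, rf, rg, rf.symm, rg.symm,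
            false_and, or_false]
          clear * - h
          omega
        all_goals
          rintro r' w ⟨⟩
          rcases Int.units_eq_one_or w with rfl | rfl <;>
            simp [w2_memP, w2_memM, v0, v1, v2, o, o.1.not_gt, o.2.not_gt, rf, rg, rf.symm,
              rg.symm] <;> clear * - h <;> omega
  · obtain _ | r := z
    swap
    · simp at hz
    rcases h with ⟨h, rfl, rfl⟩ | ⟨h, rfl, rfl⟩
    · refine w2_fin D H f g g f (g, (g, -1)) (f, (f, -1)) (o1 h) (by simp) (by simp) (by simp)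
        (by simp [isLoop]) ?_ (by simp) (by simp) (by simp)
      simp only [w2_memM, v0, v1, v2, lt_irrefl, false_and, false_or, true_and]
      clear * - h
      omega
    · refine w2_fin D H g f f g (f, (f, -1)) (g, (g, -1)) (o2 h) (by simp) (by simp) (by simp)
        (by simp [isLoop]) ?_ (by simp) (by simp) (by simp)
      simp only [w2_memM, v0, v1, v2, lt_irrefl, false_and, false_or, true_and]
      clear * - h
      omega

theorem tr3_s1 (u v : Wd) (a : ℤ) : Tr3 n False (u ++ lx (a + 1) :: lx a :: lx a :: v)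
    (u ++ lx a :: lx (a + 1) :: lx a :: v) (u ++ lx a :: lx a :: lx (a + 1) :: v) := by
  simpa only [w2_wd, Bool.false_eq_true] using
    w2_main (n := n) u v (a := a) (b := a + 1) (fl := false) (kt := 0) (kb := 2) (by simp)

theorem tr3_s2 (u v : Wd) (a : ℤ) : Tr3 n False (u ++ lx (a + 1) :: lx (a + 1) :: lx a :: v)
    (u ++ lx (a + 1) :: lx a :: lx (a + 1) :: v) (u ++ lx a :: lx (a + 1) :: lx (a + 1) :: v) := by
  simpa only [w2_wd, Bool.false_eq_true] using
    w2_main (n := n) u v (a := a + 1) (b := a) (fl := false) (kt := 2) (kb := 0) (by simp)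

theorem tr3_lN (u v : Wd) {c : ℤ} (h : c < 0) : Tr3 n True (u ++ ly c :: lx c :: lx c :: v)
    (u ++ lx c :: ly c :: lx c :: v) (u ++ lx c :: lx c :: ly c :: v) := by
  simpa only [w2_wd] using
    w2_main (n := n) u v (a := c) (b := c) (fl := true) (kt := 0) (kb := 2) (by simp [h])

theorem tr3_lP (u v : Wd) {c : ℤ} (h : 0 ≤ c) : Tr3 n True (u ++ lx c :: lx c :: ly c :: v)
    (u ++ lx c :: ly c :: lx c :: v) (u ++ ly c :: lx c :: lx c :: v) := by
  simpa only [w2_wd] using
    w2_main (n := n) u v (a := c) (b := c) (fl := true) (kt := 2) (kb := 0) (by simp [h])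

end Pool.Agent.Lib.MP_33bfb2_co.Th
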