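import Pool.Agent.Lib.MP_33bfb2_co.Th.W2

namespace Pool.Agent.Lib.MP_33bfb2_co.Th

open Finset

variable {n : ℕ}

namespace W3r

/-- Two vertices are put at the front of the word. -/
def cf (s : Cfg n) (i j : Fin n) (l : ℤ) (p r : ℕ) : Cfg n where
  lv x := if x = some i then 0 else if x = some j then l else s.lv x
  ps x := if x = some i then p else if x = some j then r else s.ps x

/-- The data shared by the three words. -/
structure Hy (s : Cfg n) (i j : Fin n) (w : Wd) : Prop where
  lt : j < i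
  get : ∀ x, x ≠ some i → x ≠ some j → 2 ≤ s.ps x ∧ w[s.ps x - 2]? = some (s.lv x, x.isNone)
  inj : Function.Injective s.ps
  len : w.length + 2 = n + 1
  ord : ∀ a b, a < b → s.d (some b) (some a) < s.d (some a) (some b)
  last : ∀ a, a ≤ i
  mid : ∀ a, a ≠ i → a ≠ j → (a < j ↔ 8 < (8 * s.lv (some a) + 3).natAbs)

/-- The admissible fronts. -/
def Ok (l : ℤ) (p r : ℕ) : Prop :=
  (l = 1 ∧ p = 0 ∧ r = 1) ∨ (l = 1 ∧ p = 1 ∧ r = 0) ∨ (l = -1 ∧ p = 0 ∧ r = 1)

theorem d_eq {s : Cfg n} {i j : Fin n} {w : Wd} (h : Hy s i j w) {l : ℤ} {p r : ℕ} (o : Ok l p r)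
    (x y : Option (Fin n)) : (cf s i j l p r).d x y =
      if x = some i then (if y = some i then 3 else if y = some j then 2 * p + 1 else 1)
      else if x = some j then (if y = some i then (8 * l + 2 * r + 1).natAbs
        else if y = some j then (8 * l + 3).natAbs else (8 * l + 1).natAbs)
      else if y = some i ∨ y = some j then (8 * s.lv x + 3).natAbs else s.d x y := by
  have a1 := fun a b => (h.get x a b).1
  have a2 := fun a b => (h.get y a b).1
  unfold Ok at o
  by_cases x1 : x = some i <;> by_cases x2 : x = some j <;> by_cases y1 : y = some i <;>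
    by_cases y2 : y = some j <;>
    simp only [Cfg.d, cf, x1, x2, y1, y2, if_true, if_false, ne_eq, not_true, not_false_iff,
      forall_const, true_or, or_true, or_self, lt_self_iff_false] at a1 a2 ⊢ <;>
    (try split_ifs) <;> omega

theorem rp {s : Cfg n} {i j : Fin n} {w : Wd} (h : Hy s i j w) {l : ℤ} {p r : ℕ} (o : Ok l p r)
    {a b : ℤ × Bool} (h1 : (a :: b :: w)[p]? = some (lx 0)) (h2 : (a :: b :: w)[r]? = some (lx l)) :
    Rp (a :: b :: w) (cf s i j l p r).E := by
  refine ⟨_, fun x => ?_, fun x y e => ?_, h.len, fun x y e => ?_, rfl⟩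
  · simp only [cf]
    split_ifs with x1 x2
    · subst x1; exact h1
    · subst x2; exact h2
    · obtain ⟨c1, c2⟩ := h.get x x1 x2
      obtain ⟨k, hk⟩ : ∃ k, s.ps x = k + 2 := ⟨s.ps x - 2, by omega⟩
      rw [hk] at c2 ⊢
      exact c2
  · have a1 := fun a b => (h.get x a b).1
    have a2 := fun a b => (h.get y a b).1
    have a3 := @h.inj x y
    unfold Ok at o
    simp only [cf] at e
    grind
  · have a1 := h.mid x
    have a2 := h.mid y
    have a3 := h.ord x y e
    have a4 := h.last y
    have a5 := h.lt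
    rw [d_eq h o, d_eq h o]
    unfold Ok at o
    simp only [Option.some.injEq, ne_eq, Fin.ext_iff, Fin.lt_def, Fin.le_def] at *
    split_ifs <;> omega

theorem hyp {l : ℤ} {p r : ℕ} (o : Ok l p r) {a b : ℤ × Bool} {w : Wd}
    (h1 : (a :: b :: w)[p]? = some (lx 0)) (h2 : (a :: b :: w)[r]? = some (lx l))
    {E : Finset (Rt n)} (h : Rp (a :: b :: w) E) : ∃ (s : Cfg n) (i j : Fin n), Hy s i j w := by
  obtain ⟨s, g, inj, len, ord, -⟩ := h
  have sj : ∀ k < n + 1, ∃ x, s.ps x = k := by
    intro k hk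
    have : (univ.image s.ps) = range (n + 1) := by
      refine eq_of_subset_of_card_le (fun t ht => ?_) ?_
      · obtain ⟨x, -, rfl⟩ := mem_image.1 ht
        exact mem_range.2 (len ▸ (List.getElem?_eq_some_iff.1 (g x)).1)
      · rw [card_image_of_injective _ inj]; simp
    obtain ⟨x, -, e⟩ := mem_image.1 (this ▸ mem_range.2 hk)
    exact ⟨x, e⟩
  have vx : ∀ k z, k < 2 → (a :: b :: w)[k]? = some (lx z) →
      ∃ i, s.ps (some i) = k ∧ s.lv (some i) = z := by
    intro k z hk e
    obtain ⟨x, rfl⟩ := sj k (by simp at len; omega)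
    have := (g x).symm.trans e
    simp only [Option.some.injEq, Prod.mk.injEq] at this
    cases x with
    | none => simp at this
    | some i => exact ⟨i, rfl, this.1⟩
  unfold Ok at o
  obtain ⟨i, i1, i2⟩ := vx p 0 (by omega) h1
  obtain ⟨j, j1, j2⟩ := vx r l (by omega) h2
  have two : ∀ x, x ≠ some i → x ≠ some j → 2 ≤ s.ps x := fun x c1 c2 => by
    have := mt (@inj x (some i)) c1
    have := mt (@inj x (some j)) c2
    omega
  have ne : i ≠ j := by rintro rfl; omega
  have last : ∀ x, x ≤ i := fun x => by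
    by_contra c
    have c1 := ord i x (not_le.1 c)
    have c2 := two (some x) (by rintro ⟨⟩; exact c le_rfl)
    simp only [Cfg.d, i1, i2] at c1
    by_cases e : x = j
    · subst e
      rw [j1, j2] at c1
      split_ifs at c1 <;> omega
    · have := c2 (by simpa using e)
      split_ifs at c1 <;> omega
  refine ⟨s, i, j, lt_of_le_of_ne (last j) ne.symm, fun x c1 c2 => ⟨two x c1 c2, ?_⟩, inj,
    by simpa using len, ord, last, fun x c1 c2 => ?_⟩
  · have := g x
    obtain ⟨k, hk⟩ : ∃ k, s.ps x = k + 2 := ⟨s.ps x - 2, by have := two x c1 c2; omega⟩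
    rw [hk] at this ⊢
    exact this
  · have t := two (some x) (by simpa using c1) (by simpa using c2)
    have c3 := ord x j
    have c4 := ord j x
    simp only [Cfg.d, j1, j2] at c3 c4
    rw [if_pos (by omega), if_neg (by omega)] at c3
    rw [if_neg (by omega), if_pos (by omega)] at c4
    constructor
    · intro e
      have := c3 e
      omega
    · intro e
      by_contra e'
      have := c4 (lt_of_le_of_ne (not_lt.1 e') (Ne.symm c2))
      omega

theorem mem_E (s : Cfg n) (a b : Fin n) (u : ℤˣ) : (a, (b, u)) ∈ s.E ↔ (a < b ∧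
      ((u = 1 ∧ s.d (some a) (some b) < s.d (some b) (some a) + 8) ∨
        (u = -1 ∧ s.d (some a) (some b) + s.d (some b) (some a) < 8))) ∨
    ((b = a ∧ u = -1) ∧ s.d (some a) none < s.d none (some a)) := by
  simp [Cfg.E]

end W3r

open W3r in
theorem tr3_zero (w : Wd) :
    Tr3 n False (lx 0 :: lx (-1) :: w) (lx 1 :: lx 0 :: w) (lx 0 :: lx 1 :: w) := by
  have ob : Ok 1 0 1 := Or.inl ⟨rfl, rfl, rfl⟩
  have om : Ok 1 1 0 := Or.inr (Or.inl ⟨rfl, rfl, rfl⟩)
  have ot : Ok (-1) 0 1 := Or.inr (Or.inr ⟨rfl, rfl, rfl⟩)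
  rintro ⟨E, hE⟩
  obtain ⟨s, i, j, h⟩ : ∃ (s : Cfg n) (i j : Fin n), Hy s i j w := by
    rcases hE with e | e | e
    exacts [hyp ot rfl rfl e, hyp om rfl rfl e, hyp ob rfl rfl e]
  have e3 : ¬ ((-1 : ℤˣ) = 1) := by decide
  have e4 : ¬ ((1 : ℤˣ) = -1) := by decide
  have lt := h.lt
  have m1 : (cf s i j 1 1 0).E = insert (j, (i, 1)) (cf s i j 1 0 1).E := by
    ext ⟨a, b, u⟩
    have l2 := (h.last b).not_gt
    rcases Int.units_eq_one_or u with rfl | rfl <;> by_cases a1 : a = i <;> by_cases a2 : a = j <;>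
      by_cases b1 : b = i <;> by_cases b2 : b = j <;>
      simp_all [mem_E, d_eq h ob, d_eq h om, lt.ne, lt.ne', lt.not_gt]
  have m2 : (cf s i j (-1) 0 1).E = insert (j, (i, -1)) (cf s i j 1 1 0).E := by
    clear m1
    ext ⟨a, b, u⟩
    have l2 := (h.last b).not_gt
    rcases Int.units_eq_one_or u with rfl | rfl <;> by_cases a1 : a = i <;> by_cases a2 : a = j <;>
      by_cases b1 : b = i <;> by_cases b2 : b = j <;>
      simp_all [mem_E, d_eq h ot, d_eq h om, lt.ne, lt.ne', lt.not_gt] <;> omega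
  refine ⟨(cf s i j 1 0 1).E, (i, (i, -1)), (j, (i, 1)), (j, (i, -1)), sgB i,
    ⟨fun γ c => (mem_filter.1 c).2.imp And.left And.left, ?_, ?_, ?_, by simp, Or.inl lt, Or.inl lt,
      sgB_inv i, ?_, by simp [sgB], by simp [sgB, lt.ne, ng_mk],
      fun γ a b => Or.inl (sgB_par h.last γ a b), sgB_loop i, Or.inl ⟨by simp [isLoop], ?_⟩⟩,
    by simp [isLoop], rp h ob rfl rfl, m1 ▸ rp h om rfl rfl, m1 ▸ m2 ▸ rp h ot rfl rfl⟩
  · simp only [mem_E, d_eq h ob]
    simp
    omega
  · simp [mem_E, d_eq h ob, lt.ne]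
  · simp [mem_E, d_eq h ob, lt.ne, lt.ne']
  · rintro ⟨a, b, u⟩ c
    unfold sgB
    split_ifs with e
    swap
    · exact c
    obtain ⟨rfl, e⟩ : b = i ∧ a ≠ i := e
    rcases Int.units_eq_one_or u with rfl | rfl <;>
      simp only [ng_mk, neg_neg, mem_E, d_eq h ob, Option.some.injEq, e3, e4, ne_eq,
        reduceCtorEq, Fin.ext_iff, Fin.lt_def, true_and, false_and, and_true, and_false, or_false,
        false_or, or_self, if_true, true_or] at * <;>
      split_ifs at * <;> omega
  · intro A _ y hy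
    simp only [vl, ← ng_mk, hy]; abel

theorem rp_base {l : List ℤ} {c : ℤ} (hl : l.Pairwise (· ≤ ·)) (hn : ∀ a ∈ l, a < 0) (hc : c < 0)
    {E : Finset (Rt n)} (h : Rp (l.map lx ++ [ly c]) E) :
    ∃ (blk : Fin n → Fin n) (lp : Fin n → Prop), IsBase blk lp E := by
  obtain ⟨s, g, inj, -, ord, rfl⟩ := h
  cases isEmpty_or_nonempty (Fin n)
  · exact ⟨id, fun _ => True, fun γ => isEmptyElim γ.1⟩
  have g1 : ∀ i, ∃ e : s.ps (some i) < l.length, l[s.ps (some i)] = s.lv (some i) := fun i => by
    have := g (some i)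
    rcases lt_or_ge (s.ps (some i)) l.length with e | e
    · rw [List.getElem?_append_left (by simpa using e)] at this
      exact ⟨e, by simpa [e] using this⟩
    · rw [List.getElem?_append_right (by simpa using e)] at this
      have := List.mem_of_getElem? this
      simp at this
  have g2 : l.length ≤ s.ps none ∧ s.lv none = c := by
    have := g none
    rcases lt_or_ge (s.ps none) l.length with e | e
    · rw [List.getElem?_append_left (by simpa using e)] at this
      have := List.mem_of_getElem? this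
      simp at this
    · rw [List.getElem?_append_right (by simpa using e)] at this
      have := List.mem_of_getElem? this
      exact ⟨e, by simpa using this⟩
  have g3 : ∀ i, s.lv (some i) < 0 := fun i => by
    obtain ⟨e, e'⟩ := g1 i
    exact e' ▸ hn _ (List.getElem_mem e)
  have g4 : ∀ i j, s.ps (some i) < s.ps (some j) → s.lv (some i) ≤ s.lv (some j) := fun i j e => by
    obtain ⟨a, a'⟩ := g1 i
    obtain ⟨b, b'⟩ := g1 j
    exact a' ▸ b' ▸ List.pairwise_iff_getElem.1 hl _ _ a b e
  let f : Fin n → ℤ := fun i => s.lv (some i)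
  have g5 : ∀ i, f (Function.invFun f (f i)) = f i := fun i => Function.invFun_eq ⟨i, rfl⟩
  have g6 : ∀ i j, Function.invFun f (f i) = Function.invFun f (f j) ↔ f i = f j := fun i j =>
    ⟨fun e => by rw [← g5 i, e, g5], fun e => by rw [e]⟩
  refine ⟨fun i => Function.invFun f (f i), fun b => c < f b, ?_⟩
  rintro ⟨a, b, u⟩
  have e3 : ¬ ((-1 : ℤˣ) = 1) := by decide
  have e4 : ¬ ((1 : ℤˣ) = -1) := by decide
  have a1 := (g1 a).1
  have a2 := g3 a
  have a3 := g3 b
  have a4 := g4 a b
  have a5 := g4 b a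
  have a6 := ord a b
  have a7 := @inj (some a) (some b)
  rcases Int.units_eq_one_or u with rfl | rfl <;>
    simp only [W3r.mem_E, g5, g6, isLoop, Prod.mk.injEq, Option.some.injEq, e3, e4, Cfg.d, f, g2.2,
      Fin.ext_iff, Fin.lt_def, true_and, false_and, and_true, and_false, or_false,
      false_or] at * <;>
    split_ifs at * <;> omega

end Pool.Agent.Lib.MP_33bfb2_co.Th
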