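import Pool.Agent.Lib.MP_33bfb2_co.Th.W1
import Pool.Agent.Lib.MP_33bfb2_co.Th.W3

namespace Pool.Agent.Lib.MP_33bfb2_co.Th

open Finset

variable {n : ℕ}

/-! ## File W5 (imports W1, W3) -/

theorem w5_congr {T : Type} [Zero T] (G : Finset (Rt n) → T) {w w' : Wd}
    (h : ∀ E : Finset (Rt n), Rp w E ↔ Rp w' E) : wv G w = wv G w' := by
  by_cases e : ∃ E : Finset (Rt n), Rp w E
  · obtain ⟨E, hE⟩ := e
    rw [wv_eq G hE, wv_eq G ((h E).1 hE)]
  · rw [wv, dif_neg e, wv, dif_neg fun ⟨E, hE⟩ => e ⟨E, (h E).2 hE⟩]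

theorem w5_tr {T : Type} [Zero T] {R : T → T → T → Prop} (R0 : R 0 0 0) {G : Finset (Rt n) → T}
    {lo : Prop} (hR : ∀ E α β β' σ, Trip E α β β' σ → (isLoop β ↔ lo) →
      R (G (insert β' (insert β E))) (G (insert β E)) (G E)) {wt wm wb : Wd}
    (h : Tr3 n lo wt wm wb) : R (wv G wt) (wv G wm) (wv G wb) := by
  by_cases e : ∃ E : Finset (Rt n), Rp wt E ∨ Rp wm E ∨ Rp wb E
  · obtain ⟨E, α, β, β', σ, t, l, h1, h2, h3⟩ := h e
    rw [wv_eq G h1, wv_eq G h2, wv_eq G h3]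
    exact hR E α β β' σ t l
  · rw [wv, dif_neg fun ⟨E, hE⟩ => e ⟨E, Or.inl hE⟩, wv,
      dif_neg fun ⟨E, hE⟩ => e ⟨E, Or.inr (Or.inl hE)⟩, wv,
      dif_neg fun ⟨E, hE⟩ => e ⟨E, Or.inr (Or.inr hE)⟩]
    exact R0

theorem wl_wv {T : Type} [Zero T] {R S : T → T → T → Prop} (R0 : R 0 0 0) (S0 : S 0 0 0)
    {G : Finset (Rt n) → T}
    (hR : ∀ E α β β' σ, Trip E α β β' σ → ¬ isLoop β →
      R (G (insert β' (insert β E))) (G (insert β E)) (G E))
    (hS : ∀ E α β β' σ, Trip E α β β' σ → isLoop β →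
      S (G (insert β' (insert β E))) (G (insert β E)) (G E)) : WL R S (wv G) := by
  have r : ∀ {wt wm wb : Wd}, Tr3 n False wt wm wb → R (wv G wt) (wv G wm) (wv G wb) :=
    w5_tr R0 fun E α β β' σ t l => hR E α β β' σ t l.1
  have s : ∀ {wt wm wb : Wd}, Tr3 n True wt wm wb → S (wv G wt) (wv G wm) (wv G wb) :=
    w5_tr S0 fun E α β β' σ t l => hS E α β β' σ t (l.2 trivial)
  exact ⟨fun u v a b h => w5_congr G (rp_comm u v h), fun u v a c h => w5_congr G (rp_commY u v h),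
    fun w a s => w5_congr G (rp_front w a s), fun w a s => w5_congr G (rp_back w a s),
    fun u v a => r (tr3_s1 u v a), fun u v a => r (tr3_s2 u v a), fun w => r (tr3_zero w),
    fun u v c h => s (tr3_lN u v h), fun u v c h => s (tr3_lP u v h)⟩

theorem w5_lx {l : Wd} (h : ∀ x ∈ l, x.2 = false) : (l.map Prod.fst).map lx = l := by
  rw [List.map_map]
  conv_rhs => rw [← List.map_id l]
  exact List.map_congr_left fun x hx => Prod.ext rfl (h x hx).symm

theorem wv_shape {T : Type} [Zero T] (G : Finset (Rt n) → T) {w : Wd} (h : wv G w ≠ 0) :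
    ∃ (u v : List ℤ) (c : ℤ), w = u.map lx ++ ly c :: v.map lx ∧ u.length + v.length = n := by
  obtain ⟨E, s, h1, h2, h3, -⟩ : ∃ E : Finset (Rt n), Rp w E := by
    by_contra e
    exact h (dif_neg e)
  have lt : ∀ x, s.ps x < n + 1 := fun x => h3 ▸ (List.getElem?_eq_some_iff.1 (h1 x)).1
  have sj : Function.Surjective fun x => (⟨s.ps x, lt x⟩ : Fin (n + 1)) :=
    ((Fintype.bijective_iff_injective_and_card _).2
      ⟨fun x y e => h2 (congrArg Fin.val e), by simp⟩).2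
  have fl : ∀ k x, k ≠ s.ps none → w[k]? = some x → x.2 = false := fun k x hk e => by
    obtain ⟨y, hy⟩ := sj ⟨k, h3 ▸ (List.getElem?_eq_some_iff.1 e).1⟩
    have hy' : s.ps y = k := congrArg Fin.val hy
    have := h1 y
    rw [hy', e] at this
    rcases y with _ | i
    · exact absurd hy'.symm hk
    · rw [Option.some.inj this]; rfl
  obtain ⟨p, hp⟩ := List.getElem?_eq_some_iff.1 (h1 none)
  refine ⟨(w.take (s.ps none)).map Prod.fst, (w.drop (s.ps none + 1)).map Prod.fst, s.lv none,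
    ?_, by simp; omega⟩
  rw [w5_lx fun x hx => ?_, w5_lx fun x hx => ?_]
  · conv_lhs => rw [← List.take_append_drop (s.ps none) w, List.drop_eq_getElem_cons p, hp]
    rfl
  · obtain ⟨k, hk⟩ := List.mem_iff_getElem?.1 hx
    rw [List.getElem?_drop] at hk
    exact fl _ x (by omega) hk
  · obtain ⟨k, hk⟩ := List.mem_iff_getElem?.1 hx
    rw [List.getElem?_take] at hk
    split_ifs at hk with c
    exact fl _ x (by omega) hk

end Pool.Agent.Lib.MP_33bfb2_co.Th
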