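import Pool.Agent.Lib.MP_33bfb2_co.Th.LDet0

namespace Pool.Agent.Lib.MP_33bfb2_co.Th

open Finset

/-- Words: a letter is a level and a flag (true for the cut letter). -/
abbrev Wd : Type := List (ℤ × Bool)

/-- An ordinary letter. -/
abbrev lx (a : ℤ) : ℤ × Bool := (a, false)

/-- The cut letter. -/
abbrev ly (c : ℤ) : ℤ × Bool := (c, true)

/-- Levels and positions of the vertices and of the cut. -/
structure Cfg (n : ℕ) where
  lv : Option (Fin n) → ℤ
  ps : Option (Fin n) → ℕ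

variable {n : ℕ}

/-- Eight times the distance of x from the origin, when x is compared with y. -/
def Cfg.d (s : Cfg n) (x y : Option (Fin n)) : ℕ :=
  (8 * s.lv x + if s.ps x < s.ps y then 1 else 3).natAbs

/-- The signed graph of a configuration. -/
def Cfg.E (s : Cfg n) : Finset (Rt n) :=
  univ.filter fun γ => (γ.1 < γ.2.1 ∧
      ((γ.2.2 = 1 ∧ s.d (some γ.1) (some γ.2.1) < s.d (some γ.2.1) (some γ.1) + 8) ∨
        (γ.2.2 = -1 ∧ s.d (some γ.1) (some γ.2.1) + s.d (some γ.2.1) (some γ.1) < 8))) ∨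
    (γ.2 = (γ.1, -1) ∧ s.d (some γ.1) none < s.d none (some γ.1))

/-- The word w represents the signed graph E. -/
def Rp (w : Wd) (E : Finset (Rt n)) : Prop :=
  ∃ s : Cfg n, (∀ x, w[s.ps x]? = some (s.lv x, x.isNone)) ∧ Function.Injective s.ps ∧
    w.length = n + 1 ∧ (∀ i j, i < j → s.d (some j) (some i) < s.d (some i) (some j)) ∧ E = s.E

/-- The value of G at a word (zero if the word represents nothing). -/
noncomputable def wv {T : Type} [Zero T] (G : Finset (Rt n) → T) (w : Wd) : T :=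
  open Classical in if h : ∃ E : Finset (Rt n), Rp w E then G h.choose else 0

/-- The laws of words; R and S take (top, middle, bottom). -/
structure WL {T : Type} (R S : T → T → T → Prop) (Φ : Wd → T) : Prop where
  comm : ∀ u v a b, a + 2 ≤ b → Φ (u ++ lx a :: lx b :: v) = Φ (u ++ lx b :: lx a :: v)
  commY : ∀ u v a c, a ≠ c → Φ (u ++ lx a :: ly c :: v) = Φ (u ++ ly c :: lx a :: v)
  front : ∀ w a s, Φ ((a, s) :: w) = Φ ((-a, s) :: w)
  back : ∀ w a s, Φ (w ++ [(a, s)]) = Φ (w ++ [(-a - 1, s)])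
  s1 : ∀ u v a, R (Φ (u ++ lx (a + 1) :: lx a :: lx a :: v))
    (Φ (u ++ lx a :: lx (a + 1) :: lx a :: v)) (Φ (u ++ lx a :: lx a :: lx (a + 1) :: v))
  s2 : ∀ u v a, R (Φ (u ++ lx (a + 1) :: lx (a + 1) :: lx a :: v))
    (Φ (u ++ lx (a + 1) :: lx a :: lx (a + 1) :: v)) (Φ (u ++ lx a :: lx (a + 1) :: lx (a + 1) :: v))
  zero : ∀ w, R (Φ (lx 0 :: lx (-1) :: w)) (Φ (lx 1 :: lx 0 :: w)) (Φ (lx 0 :: lx 1 :: w))
  lN : ∀ u v c, c < 0 → S (Φ (u ++ ly c :: lx c :: lx c :: v))
    (Φ (u ++ lx c :: ly c :: lx c :: v)) (Φ (u ++ lx c :: lx c :: ly c :: v))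
  lP : ∀ u v c, 0 ≤ c → S (Φ (u ++ lx c :: lx c :: ly c :: v))
    (Φ (u ++ lx c :: ly c :: lx c :: v)) (Φ (u ++ ly c :: lx c :: lx c :: v))

/-- The modular law. -/
def Mod {T : Type} [CommRing T] (q : T) (t m b : T) : Prop := (1 + q) * m = t + q * b

/-- The modular law read from the other end. -/
def Rev {T : Type} [CommRing T] (q : T) (t m b : T) : Prop := (1 + q) * m = q * t + b

end Pool.Agent.Lib.MP_33bfb2_co.Th
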