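import Pool.Agent.Lib.MP_33bfb2_co.Th.WFar2
import Pool.Agent.Lib.MP_33bfb2_co.Th.WNak

namespace Pool.Agent.Lib.MP_33bfb2_co.Th

theorem far_shape {w : Wd} {c : ℤ} (h : w.filter (·.2) = [ly c]) :
    ∃ u v : List ℤ, w = u.map lx ++ ly c :: v.map lx := by
  obtain ⟨u, v, rfl, h1, -, h2⟩ := List.filter_eq_cons_iff.1 h
  have e : ∀ l : Wd, (∀ x ∈ l, ¬ x.2 = true) → l = (l.map (·.1)).map lx := fun l hl => by
    rw [List.map_map]
    refine (List.map_id l).symm.trans (List.map_congr_left fun x hx => ?_)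
    have := hl x hx
    obtain ⟨a, _ | _⟩ := x
    · rfl
    · simp at this
  exact ⟨u.map (·.1), v.map (·.1), by rw [← e u h1, ← e v (List.filter_eq_nil_iff.1 h2)]⟩

theorem far {T : Type} [CommRing T] [IsDomain T] {q : T}
    (hq : ∀ P : Polynomial ℤ, P.coeff 0 = 1 → Polynomial.aeval q P ≠ 0) {Φ : Wd → T}
    (h : WL (Mod q) (Mod q) Φ) (hf : (Set.range Φ).Finite)
    (hA : ∀ (u v : List ℤ) (c : ℤ), (∀ a ∈ u, a < 0) → (∀ a ∈ v, a < 0) → c < 0 →
      Φ (u.map lx ++ ly c :: v.map lx) = 0)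
    (u v : List ℤ) {c : ℤ} (hc : c + u.length + v.length + 2 ≤ 0) :
    Φ (u.map lx ++ ly c :: v.map lx) = 0 := by
  classical
  let N := u.length + v.length + 1
  let P : Wd → Prop := fun w => w.length = N ∧ w.filter (·.2) = [ly c]
  let g : Wd → T := fun w => if P w then Φ w else 0
  have g0 : ∀ w, P w → g w = Φ w := fun w hw => if_pos hw
  have g1 : ∀ w, ¬ P w → g w = 0 := fun w hw => if_neg hw
  have e2 : ∀ {x y : Wd}, (P x ↔ P y) → Φ x = Φ y → g x = g y := fun {x y} e e' => by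
    by_cases hx : P x
    · rw [g0 x hx, g0 y (e.1 hx), e']
    · rw [g1 x hx, g1 y (mt e.2 hx)]
  rw [← g0 _ ⟨by simp [N]; omega, by simp [List.filter_map, Function.comp_def]⟩]
  refine nak hq g ((hf.insert 0).subset ?_) (fun M m1 _ w => ?_) _
  · rintro _ ⟨w, rfl⟩
    by_cases hw : P w
    · exact Or.inr ⟨w, (g0 w hw).symm⟩
    · exact Or.inl (g1 w hw)
  by_cases hw : P w
  swap
  · rw [g1 w hw]; exact M.zero_mem
  have e3 : ∀ {x y z : Wd}, (P x ↔ P y) → (P z ↔ P y) → Mod q (Φ x) (Φ y) (Φ z) →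
      (g x : T ⧸ M) = (g y : T ⧸ M) := fun {x y z} e e' e'' => by
    by_cases hy : P y
    · rw [QuotientAddGroup.eq]
      have := M.sub_mem (m1 z) (m1 y)
      rw [g0 z (e'.2 hy), g0 y hy] at this
      rw [g0 x (e.2 hy), g0 y hy]
      unfold Mod at e''
      rwa [show -Φ x + Φ y = q * Φ z - q * Φ y by linear_combination e'']
    · rw [g1 y hy, g1 x (mt e.1 hy)]
  have L : WL0 fun w => (g w : T ⧸ M) :=
    ⟨fun u v a b e => congrArg _ (e2 (by simp [P]) (h.comm u v a b e)),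
      fun u v a b e => congrArg _ (e2 (by simp [P]) (h.commY u v a b e)),
      fun w a => congrArg _ (e2 (by simp [P]) (h.front w a false)),
      fun w a => congrArg _ (e2 (by simp [P]) (h.back w a false)),
      fun u v a => e3 (by simp [P]) (by simp [P]) (h.s1 u v a),
      fun u v a => e3 (by simp [P]) (by simp [P]) (h.s2 u v a),
      fun w => e3 (by simp [P]) (by simp [P]) (h.zero w)⟩
  rw [← QuotientAddGroup.eq_zero_iff]
  refine Far.far_mod L (fun x hx => ?_) N w hw.1 (fun d hd => ?_) fun e => ?_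
  · by_cases px : P x
    · obtain ⟨a, b, rfl⟩ := far_shape px.2
      rw [g0 _ px, hA a b c (fun s hs => hx (lx s) (by simp [hs]))
        (fun s hs => hx (lx s) (by simp [hs])) (by omega)]
      rfl
    · rw [g1 x px]; rfl
  · have : ly d ∈ w.filter (·.2) := List.mem_filter.2 ⟨hd, rfl⟩
    rw [hw.2] at this
    obtain rfl : d = c := by simpa using this
    simp only [N]; omega
  · have := hw.1
    rw [e] at this
    simp [N] at this

end Pool.Agent.Lib.MP_33bfb2_co.Th
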