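import Mathlib

namespace Pool.Agent.Lib.MP_33bfb2_co.Th.Far

open List

/-- The congruence generated by far commutation and the two Knuth moves. -/
inductive Kn : List ℤ → List ℤ → Prop
  | comm (u v : List ℤ) (a b : ℤ) (h : a + 2 ≤ b) : Kn (u ++ a :: b :: v) (u ++ b :: a :: v)
  | k1 (u v : List ℤ) (a : ℤ) :
      Kn (u ++ a :: (a + 1) :: a :: v) (u ++ (a + 1) :: a :: a :: v)
  | k2 (u v : List ℤ) (a : ℤ) :
      Kn (u ++ (a + 1) :: a :: (a + 1) :: v) (u ++ (a + 1) :: (a + 1) :: a :: v)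
  | refl (u : List ℤ) : Kn u u
  | symm {u v : List ℤ} : Kn u v → Kn v u
  | trans {u v w : List ℤ} : Kn u v → Kn v w → Kn u w

instance : Trans Kn Kn Kn := ⟨Kn.trans⟩

theorem Kn.perm {u v : List ℤ} (h : Kn u v) : u ~ v := by
  induction h with
  | comm u v a b _ => exact (Perm.swap _ _ _).append_left _
  | k1 u v a => exact (Perm.swap _ _ _).append_left _
  | k2 u v a => exact ((Perm.swap _ _ _).cons _).append_left _
  | refl u => exact Perm.refl _
  | symm _ h => exact h.symm
  | trans _ _ h h' => exact h.trans h'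

theorem Kn.app {u v : List ℤ} (h : Kn u v) (x y : List ℤ) : Kn (x ++ u ++ y) (x ++ v ++ y) := by
  induction h with
  | comm u v a b h => simpa using Kn.comm (x ++ u) (v ++ y) a b h
  | k1 u v a => simpa using Kn.k1 (x ++ u) (v ++ y) a
  | k2 u v a => simpa using Kn.k2 (x ++ u) (v ++ y) a
  | refl u => exact .refl _
  | symm _ h => exact h.symm
  | trans _ _ h h' => exact h.trans h'

theorem Kn.left {u v : List ℤ} (h : Kn u v) (x : List ℤ) : Kn (x ++ u) (x ++ v) := by
  simpa using h.app x []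

theorem Kn.right {u v : List ℤ} (h : Kn u v) (y : List ℤ) : Kn (u ++ y) (v ++ y) := by
  simpa using h.app [] y

theorem Kn.cons {u v : List ℤ} (h : Kn u v) (a : ℤ) : Kn (a :: u) (a :: v) := h.left [a]

theorem kn_eq {u v : List ℤ} (h : u = v) : Kn u v := h ▸ .refl u

theorem kn_far {a b : ℤ} (h : a + 2 ≤ b ∨ b + 2 ≤ a) (v : List ℤ) :
    Kn (a :: b :: v) (b :: a :: v) :=
  h.elim (fun h => Kn.comm [] v a b h) fun h => (Kn.comm [] v b a h).symm

theorem kn_pass {a : ℤ} {u : List ℤ} (h : ∀ b ∈ u, a + 2 ≤ b ∨ b + 2 ≤ a) (v : List ℤ) :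
    Kn (a :: (u ++ v)) (u ++ a :: v) := by
  induction u with
  | nil => exact .refl _
  | cons b u ih =>
    exact (kn_far (h b (by simp)) _).trans ((ih fun c hc => h c (by simp [hc])).cons b)

theorem kn_swap {z u : List ℤ} (h : ∀ a ∈ u, ∀ v, Kn (a :: (z ++ v)) (z ++ a :: v))
    (v : List ℤ) : Kn (u ++ (z ++ v)) (z ++ (u ++ v)) := by
  induction u with
  | nil => exact .refl _
  | cons a u ih => exact ((ih fun c hc => h c (by simp [hc])).cons a).trans (h a (by simp) _)

/-- The descending word s + k - 1, ..., s. -/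
def sg (s : ℤ) : ℕ → List ℤ
  | 0 => []
  | k + 1 => (s + k) :: sg s k

theorem mem_sg {s a : ℤ} {k : ℕ} : a ∈ sg s k ↔ s ≤ a ∧ a < s + k := by
  induction k with
  | zero => simp [sg]
  | succ k ih => simp only [sg, mem_cons, ih]; push_cast; omega

theorem len_sg (s : ℤ) (k : ℕ) : (sg s k).length = k := by
  induction k with
  | zero => rfl
  | succ k ih => simp [sg, ih]

theorem sg_add (s : ℤ) (k l : ℕ) : sg s (k + l) = sg (s + k) l ++ sg s k := by
  induction l with
  | zero => rfl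
  | succ l ih => rw [← add_assoc, sg, sg, ih]; simp [add_assoc]

theorem sg_snoc (s : ℤ) (k : ℕ) : sg s (k + 1) = sg (s + 1) k ++ [s] := by
  rw [add_comm k, sg_add]; simp [sg]

theorem sg_top (s : ℤ) (k : ℕ) (v : List ℤ) :
    Kn ((s + k) :: (sg s (k + 1) ++ v)) (sg s (k + 1) ++ (s + k) :: v) := by
  cases k with
  | zero => simpa [sg] using Kn.refl _
  | succ k =>
    have h1 := (Kn.k2 [] (sg s k ++ v) (s + k)).symm
    have h2 := ((kn_pass (a := s + k + 1) (u := sg s k) (fun b hb => by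
      have := mem_sg.1 hb; omega) v).cons (s + k)).cons (s + k + 1)
    simpa [sg, add_assoc] using h1.trans h2

theorem sg_comm {s j : ℤ} {k : ℕ} (h1 : j ≠ s - 1) (h2 : j ≠ s + k) (v : List ℤ) :
    Kn (j :: (sg s k ++ v)) (sg s k ++ j :: v) := by
  induction k with
  | zero => exact .refl _
  | succ k ih =>
    push_cast at h2
    by_cases e : j = s + k
    · exact e ▸ sg_top s k v
    by_cases e' : j + 1 = s + k
    · cases k with
      | zero => omega
      | succ k =>
        obtain rfl : j = s + k := by push_cast at e'; omega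
        have h3 := Kn.k1 [] (sg s k ++ v) (s + k)
        have h4 := (sg_top s k v).cons (s + k + 1)
        simpa [sg, add_assoc] using h3.trans h4
    · exact (kn_far (by omega) _).trans ((ih e).cons _)

theorem to_front {s : ℤ} (x : List ℤ) (hx : ∀ a ∈ x, s ≤ a) (y : List ℤ) :
    ∃ k z, Kn (x ++ s :: y) (sg s (k + 1) ++ z) := by
  induction x with
  | nil => exact ⟨0, y, by simpa [sg] using Kn.refl _⟩
  | cons a x ih =>
    obtain ⟨k, z, h⟩ := ih fun b hb => hx b (by simp [hb])
    have := hx a (by simp)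
    by_cases e : a = s + (k + 1 : ℕ)
    · exact ⟨k + 1, z, by rw [e]; exact h.cons _⟩
    · exact ⟨k, a :: z, (h.cons a).trans (sg_comm (by omega) e z)⟩

theorem to_back {t : ℤ} (y : List ℤ) (hy : ∀ a ∈ y, a ≤ t) :
    ∀ (s : ℤ) (k : ℕ) (x : List ℤ), s + k = t → ∃ (s' : ℤ) (k' : ℕ) (z : List ℤ), s' + k' = t ∧
      Kn (x ++ (sg s (k + 1) ++ y)) (z ++ sg s' (k' + 1)) := by
  induction y with
  | nil => exact fun s k x h => ⟨s, k, x, h, by simpa using Kn.refl _⟩
  | cons a y ih =>
    intro s k x h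
    have ih := ih fun b hb => hy b (by simp [hb])
    have := hy a (by simp)
    by_cases e : a = s - 1
    · obtain ⟨s', k', z, h1, h2⟩ := ih a (k + 1) x (by push_cast; omega)
      refine ⟨s', k', z, h1, (kn_eq ?_).trans h2⟩
      rw [sg_snoc a (k + 1), e]; simp
    · obtain ⟨s', k', z, h1, h2⟩ := ih s k (x ++ [a]) h
      refine ⟨s', k', z, h1, .trans ?_ h2⟩
      simpa using ((sg_comm (k := k + 1) e (by push_cast; omega) y).symm).left x

/-- Moves at the front of the word. -/
inductive Fr : List ℤ → List ℤ → Prop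
  | kn {u v : List ℤ} : Kn u v → Fr u v
  | flip (a : ℤ) (w : List ℤ) : Fr (a :: w) (-a :: w)
  | zero (w : List ℤ) : Fr (0 :: -1 :: w) (1 :: 0 :: w)
  | trans {u v w : List ℤ} : Fr u v → Fr v w → Fr u w

/-- Moves at the back of the word. -/
inductive Bk : List ℤ → List ℤ → Prop
  | kn {u v : List ℤ} : Kn u v → Bk u v
  | flip (a : ℤ) (w : List ℤ) : Bk (w ++ [a]) (w ++ [-a - 1])
  | trans {u v w : List ℤ} : Bk u v → Bk v w → Bk u w

/-- All letters flipped at the front. -/
def ff (u : List ℤ) : List ℤ := (u.map fun a => -a).reverse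

/-- All letters flipped at the back. -/
def fb (u : List ℤ) : List ℤ := (u.map fun a => -a - 1).reverse

theorem fr_all {u : List ℤ} (h : (∀ a ∈ u, 1 ≤ a) ∨ ∀ a ∈ u, a ≤ -1) (x : List ℤ) :
    Fr (u ++ x) (ff u ++ x) := by
  induction u generalizing x with
  | nil => exact .kn (.refl _)
  | cons a u ih =>
    have h1 := ih (h.imp (fun h b hb => h b (by simp [hb])) fun h b hb => h b (by simp [hb]))
      (-a :: x)
    refine (Fr.flip a _).trans ((Fr.kn (kn_pass (fun b hb => ?_) x)).trans (by simpa [ff] using h1))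
    rcases h with h | h <;> have := h a (by simp) <;> have := h b (by simp [hb]) <;> omega

theorem bk_all {u : List ℤ} (h : (∀ a ∈ u, 1 ≤ a) ∨ ∀ a ∈ u, a ≤ -2) (x : List ℤ) :
    Bk (x ++ u) (x ++ fb u) := by
  induction u using List.reverseRecOn generalizing x with
  | nil => exact .kn (.refl _)
  | append_singleton u a ih =>
    have h1 := ih (h.imp (fun h b hb => h b (by simp [hb])) fun h b hb => h b (by simp [hb]))
      (x ++ [-a - 1])
    have h2 := Bk.flip a (x ++ u)
    have h3 := ((kn_pass (a := -a - 1) (u := u) (fun b hb => ?_) []).symm).left x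
    · simp only [append_assoc, append_nil, cons_append, nil_append] at h1 h2 h3 ⊢
      exact h2.trans ((Bk.kn h3).trans (by simpa [fb] using h1))
    rcases h with h | h <;> have := h a (by simp) <;> have := h b (by simp [hb]) <;> omega

/-- The shell of a letter. -/
def dl (a : ℤ) : ℤ := if 0 ≤ a then 2 * a else -2 * a - 1

/-- The sum of the shells. -/
def ds (u : List ℤ) : ℤ := (u.map dl).sum

theorem ds_app (u v : List ℤ) : ds (u ++ v) = ds u + ds v := by simp [ds]
theorem ds_cons (a : ℤ) (v : List ℤ) : ds (a :: v) = dl a + ds v := by simp [ds]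
theorem ds_nil : ds [] = 0 := rfl

theorem ds_map {f : ℤ → ℤ} {c : ℤ} {u : List ℤ} (h : ∀ a ∈ u, dl (f a) = dl a + c) :
    ds (u.map f).reverse = ds u + c * u.length := by
  induction u with
  | nil => simp [ds]
  | cons a u ih =>
    rw [map_cons, reverse_cons, ds_app, ih fun b hb => h b (by simp [hb]), ds_cons, ds_cons,
      h a (by simp), ds_nil, length_cons]
    push_cast; ring

/-- The word v is further out than u, by at most one step for each letter. -/
def Out (i : ℤ) (u v : List ℤ) : Prop := ds u < ds v ∧ ∀ a ∈ v, -i - 1 ≤ a ∧ a ≤ i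

theorem mem_ff {u : List ℤ} {a : ℤ} : a ∈ ff u ↔ -a ∈ u := by
  simp only [ff, mem_reverse, mem_map]
  exact ⟨fun ⟨b, h, e⟩ => by rw [← e, neg_neg]; exact h, fun h => ⟨-a, h, neg_neg a⟩⟩

theorem mem_fb {u : List ℤ} {a : ℤ} : a ∈ fb u ↔ -a - 1 ∈ u := by
  simp only [fb, mem_reverse, mem_map]
  exact ⟨fun ⟨b, h, e⟩ => by rw [← e]; simpa using h, fun h => ⟨-a - 1, h, by ring⟩⟩

theorem refl_front {i s : ℤ} {k : ℕ} {z : List ℤ} (h : 2 * s + k < 0)
    (hr : ∀ a ∈ sg s (k + 1) ++ z, -i ≤ a ∧ a < i) :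
    ∃ v, Fr (sg s (k + 1) ++ z) v ∧ Out i (sg s (k + 1) ++ z) v := by
  have hz : ∀ a ∈ z, -i ≤ a ∧ a < i := fun a ha => hr a (by simp [ha])
  have hs : ∀ a, s ≤ a → a ≤ s + k → -i ≤ a ∧ a < i := fun a h1 h2 =>
    hr a (mem_append_left _ (mem_sg.2 ⟨h1, by push_cast; omega⟩))
  by_cases ht : s + k < 0
  · refine ⟨_, Fr.flip (s + k) (sg s k ++ z), ?_, fun a ha => ?_⟩
    · simp only [sg, cons_append, ds_cons, dl]; omega
    · rcases mem_cons.1 ha with rfl | ha
      · have := hs (s + k) (by omega) le_rfl; omega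
      · have := hr a (mem_cons_of_mem _ ha); omega
  obtain ⟨p, hp⟩ : ∃ p : ℕ, s = -1 - p := ⟨(-1 - s).toNat, by omega⟩
  obtain ⟨t, rfl⟩ : ∃ t : ℕ, k = p + 1 + t := ⟨k - p - 1, by omega⟩
  have e1 : sg s (p + 2) = 0 :: -1 :: sg s p := by
    simp only [sg]; push_cast; congr 1; · omega
    congr 1; omega
  have e : sg s (p + 1 + t + 1) = sg 1 t ++ sg s (p + 2) := by
    rw [show p + 1 + t + 1 = (p + 2) + t by ring, sg_add]; congr 2; push_cast; omega
  have m1 : ∀ a ∈ sg 1 t, 1 ≤ a := fun a ha => (mem_sg.1 ha).1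
  have m2 : ∀ a ∈ sg s p, a ≤ -2 := fun a ha => by have := mem_sg.1 ha; omega
  push_cast at h hs
  refine ⟨ff (sg s p) ++ (1 :: 0 :: (ff (sg 1 t) ++ z)), ?_, ?_, fun a ha => ?_⟩
  · rw [e, append_assoc]
    refine (fr_all (Or.inl m1) _).trans ((Fr.kn (kn_swap (fun a ha v => ?_) z)).trans ?_)
    · have := mem_sg.1 (mem_ff.1 ha)
      exact sg_comm (by omega) (by push_cast; omega) v
    rw [e1]
    refine (Fr.zero _).trans ((Fr.kn ?_).trans
      (fr_all (Or.inr fun a ha => by have := m2 a ha; omega) _))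
    exact ((kn_pass (fun b hb => by have := m2 b hb; omega) _).cons 1).trans
      (kn_pass (fun b hb => by have := m2 b hb; omega) _)
  · have a1 := ds_map (f := fun a => -a) (c := 1) (u := sg s p) fun a ha => by
      have := m2 a ha; simp only [dl]; omega
    have a2 := ds_map (f := fun a => -a) (c := -1) (u := sg 1 t) fun a ha => by
      have := m1 a ha; simp only [dl]; omega
    simp only [e, e1, ds_app, ds_cons, ff, a1, a2, len_sg]
    simp only [dl]; omega
  · have b1 := hs s le_rfl (by omega)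
    have b2 := hs (s + (p + 1 + t)) (by omega) le_rfl
    simp only [mem_append, mem_cons, mem_ff, mem_sg] at ha
    rcases ha with ha | ha | ha | ha | ha
    all_goals first | omega | (have := hz a ha; omega)

theorem refl_back {i s : ℤ} {k : ℕ} {z : List ℤ} (h : 0 ≤ 2 * s + k)
    (hr : ∀ a ∈ z ++ sg s (k + 1), -i ≤ a ∧ a < i) :
    ∃ v, Bk (z ++ sg s (k + 1)) v ∧ Out i (z ++ sg s (k + 1)) v := by
  have hz : ∀ a ∈ z, -i ≤ a ∧ a < i := fun a ha => hr a (by simp [ha])
  have hs : ∀ a, s ≤ a → a ≤ s + k → -i ≤ a ∧ a < i := fun a h1 h2 =>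
    hr a (mem_append_right _ (mem_sg.2 ⟨h1, by push_cast; omega⟩))
  by_cases ht : 0 ≤ s
  · rw [sg_snoc, ← append_assoc] at hr ⊢
    refine ⟨_, Bk.flip _ _, ?_, fun a ha => ?_⟩
    · simp only [ds_app, ds_cons, dl]; omega
    · rcases mem_append.1 ha with ha | ha
      · have := hr a (mem_append_left _ ha); omega
      · have := hs s le_rfl (by omega)
        rw [mem_singleton] at ha; omega
  obtain ⟨p, hp⟩ : ∃ p : ℕ, s = -1 - p := ⟨(-1 - s).toNat, by omega⟩
  obtain ⟨t, rfl⟩ : ∃ t : ℕ, k = p + 1 + t := ⟨k - p - 1, by omega⟩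
  have e1 : sg s (p + 1) = -1 :: sg s p := by
    simp only [sg]; congr 1; omega
  have e : sg s (p + 1 + t + 1) = sg 0 (t + 1) ++ sg s (p + 1) := by
    rw [add_assoc, sg_add]; congr 2; push_cast; omega
  have e2 : sg 0 (t + 1) = sg 1 t ++ [0] := by rw [sg_snoc, zero_add]
  have m1 : ∀ a ∈ sg 1 t, 1 ≤ a := fun a ha => (mem_sg.1 ha).1
  have m2 : ∀ a ∈ sg s p, a ≤ -2 := fun a ha => by have := mem_sg.1 ha; omega
  push_cast at h hs
  refine ⟨z ++ (fb (sg s p) ++ [0]) ++ [-1] ++ fb (sg 1 t), ?_, ?_, fun a ha => ?_⟩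
  · have s1 := bk_all (Or.inr m2) (z ++ sg 0 (t + 1) ++ [-1])
    have s2 := (kn_pass (a := -1) (u := fb (sg s p)) (fun b hb => by
      have := m2 _ (mem_fb.1 hb); omega) []).left (z ++ sg 0 (t + 1))
    have s3 := Bk.flip (-1) (z ++ sg 0 (t + 1) ++ fb (sg s p))
    have s4 := (kn_swap (z := sg 0 (t + 1)) (u := fb (sg s p) ++ [0]) (fun a ha v => by
      simp only [mem_append, mem_fb, mem_sg, mem_singleton] at ha
      exact sg_comm (by omega) (by push_cast; omega) v) []).symm.left z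
    have s5 := Bk.flip 0 (z ++ (fb (sg s p) ++ [0]) ++ sg 1 t)
    have s6 := (kn_pass (a := -1) (u := sg 1 t) (fun b hb => by
      have := m1 _ hb; omega) []).symm.left (z ++ (fb (sg s p) ++ [0]))
    have s7 := bk_all (Or.inl m1) (z ++ (fb (sg s p) ++ [0]) ++ [-1])
    rw [e, e1]
    simp only [e2, append_assoc, append_nil, cons_append, nil_append, neg_neg, sub_self, neg_zero,
      zero_sub] at s1 s2 s3 s4 s5 s6 s7 ⊢
    exact s1.trans ((Bk.kn s2).trans (s3.trans ((Bk.kn s4).trans (s5.trans ((Bk.kn s6).trans s7)))))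
  · have a1 := ds_map (f := fun a => -a - 1) (c := -1) (u := sg s p) fun a ha => by
      have := m2 a ha; simp only [dl]; omega
    have a2 := ds_map (f := fun a => -a - 1) (c := 1) (u := sg 1 t) fun a ha => by
      have := m1 a ha; simp only [dl]; omega
    simp only [e, e1, e2, ds_app, ds_cons, ds_nil, fb, a1, a2, len_sg]
    simp only [dl]; omega
  · have b1 := hs s le_rfl (by omega)
    have b2 := hs (s + (p + 1 + t)) (by omega) le_rfl
    simp only [mem_append, mem_singleton, mem_fb, mem_sg] at ha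
    rcases ha with ((ha | ha | ha) | ha) | ha
    all_goals first | omega | (have := hz a ha; omega)

theorem Out.of_kn {i : ℤ} {u u' v : List ℤ} (h : Kn u u') (o : Out i u' v) : Out i u v :=
  ⟨by rw [ds, (h.perm.map dl).sum_eq]; exact o.1, o.2⟩

theorem move {i : ℤ} {u : List ℤ} (hu : u ≠ []) (hr : ∀ a ∈ u, -i ≤ a ∧ a < i) :
    ∃ v, (Fr u v ∨ Bk u v) ∧ Out i u v := by
  obtain ⟨s, hs, hs'⟩ := (u.toFinset).exists_min_image id (by simpa using hu)
  obtain ⟨t, ht, ht'⟩ := (u.toFinset).exists_max_image id (by simpa using hu)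
  simp only [mem_toFinset, id] at hs hs' ht ht'
  by_cases c : s + t < 0
  · obtain ⟨x, y, rfl⟩ := append_of_mem hs
    obtain ⟨k, z, h⟩ := to_front x (fun a ha => hs' a (by simp [ha])) y
    have := ht' (s + k) (h.perm.mem_iff.2 (by simp [sg]))
    obtain ⟨v, h1, h2⟩ := refl_front (i := i) (s := s) (k := k) (z := z) (by omega)
      fun a ha => hr a (h.perm.mem_iff.2 ha)
    exact ⟨v, Or.inl ((Fr.kn h).trans h1), h2.of_kn h⟩
  · obtain ⟨x, y, rfl⟩ := append_of_mem ht
    obtain ⟨s', k, z, e, h⟩ := to_back y (fun a ha => ht' a (by simp [ha])) t 0 x (by simp)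
    have h : Kn (x ++ t :: y) (z ++ sg s' (k + 1)) := by simpa [sg] using h
    have := hs' s' (h.perm.mem_iff.2 (by simp [sg_snoc]))
    obtain ⟨v, h1, h2⟩ := refl_back (i := i) (s := s') (k := k) (z := z) (by omega)
      fun a ha => hr a (h.perm.mem_iff.2 ha)
    exact ⟨v, Or.inr ((Bk.kn h).trans h1), h2.of_kn h⟩

end Pool.Agent.Lib.MP_33bfb2_co.Th.Far
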