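import Pool.Agent.Lib.MP_33bfb2_co.Th.WDefs

namespace Pool.Agent.Lib.MP_33bfb2_co.Th

/-- The laws of words modulo q (top = middle) that do not move the level of the cut. -/
structure WL0 {T : Type} (Φ : Wd → T) : Prop where
  comm : ∀ u v a b, a + 2 ≤ b → Φ (u ++ lx a :: lx b :: v) = Φ (u ++ lx b :: lx a :: v)
  commY : ∀ u v a c, a ≠ c → Φ (u ++ lx a :: ly c :: v) = Φ (u ++ ly c :: lx a :: v)
  front : ∀ w a, Φ (lx a :: w) = Φ (lx (-a) :: w)
  back : ∀ w a, Φ (w ++ [lx a]) = Φ (w ++ [lx (-a - 1)])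
  s1 : ∀ u v a, Φ (u ++ lx (a + 1) :: lx a :: lx a :: v) = Φ (u ++ lx a :: lx (a + 1) :: lx a :: v)
  s2 : ∀ u v a, Φ (u ++ lx (a + 1) :: lx (a + 1) :: lx a :: v) =
    Φ (u ++ lx (a + 1) :: lx a :: lx (a + 1) :: v)
  zero : ∀ w, Φ (lx 0 :: lx (-1) :: w) = Φ (lx 1 :: lx 0 :: w)

namespace Far

/-- The decreasing word j, j - 1, ... of length l. -/
def ds (j : ℤ) : ℕ → Wd
  | 0 => []
  | l + 1 => lx j :: ds (j - 1) l

theorem ds_add (j : ℤ) (l m : ℕ) : ds j (l + m) = ds j l ++ ds (j - l) m := by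
  induction l generalizing j with
  | zero => simp [ds]
  | succ l ih =>
    rw [Nat.add_right_comm, ds, ds, ih, List.cons_append]
    congr 3; push_cast; ring

theorem ds_snoc (j : ℤ) (l : ℕ) : ds j (l + 1) = ds j l ++ [lx (j - l)] := ds_add j l 1

theorem mem_ds {j : ℤ} {l : ℕ} {z : ℤ × Bool} (h : z ∈ ds j l) :
    ∃ a, z = lx a ∧ j - l < a ∧ a ≤ j := by
  induction l generalizing j with
  | zero => simp [ds] at h
  | succ l ih =>
    rcases List.mem_cons.1 h with rfl | h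
    · exact ⟨j, rfl, by omega, le_rfl⟩
    · obtain ⟨a, h1, h2, h3⟩ := ih h
      exact ⟨a, h1, by omega, by omega⟩

theorem length_ds (j : ℤ) (l : ℕ) : (ds j l).length = l := by
  induction l generalizing j with
  | zero => rfl
  | succ l ih => simp [ds, ih]

/-- The two letters commute. -/
def fr (z y : ℤ × Bool) : Prop :=
  y.2 = false ∧ ((z.2 = true ∧ z.1 ≠ y.1) ∨ (z.2 = false ∧ (z.1 + 2 ≤ y.1 ∨ y.1 + 2 ≤ z.1)))

variable {T : Type} {Φ : Wd → T}

theorem c1 (h : WL0 Φ) {z y : ℤ × Bool} (f : fr z y) (u v : Wd) :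
    Φ (u ++ y :: z :: v) = Φ (u ++ z :: y :: v) := by
  obtain ⟨a, s⟩ := y
  obtain ⟨c, t⟩ := z
  obtain ⟨rfl, ⟨rfl, f⟩ | ⟨rfl, f | f⟩⟩ := f
  · exact h.commY u v a c (Ne.symm f)
  · exact (h.comm u v c a f).symm
  · exact h.comm u v a c f

theorem cL (h : WL0 Φ) {z : ℤ × Bool} {L : Wd} (f : ∀ y ∈ L, fr z y ∨ fr y z) (u v : Wd) :
    Φ (u ++ (L ++ z :: v)) = Φ (u ++ z :: (L ++ v)) := by
  induction L generalizing u with
  | nil => rfl
  | cons y L ih =>
    have e := ih (fun x hx => f x (List.mem_cons_of_mem _ hx)) (u ++ [y])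
    simp only [List.append_assoc, List.cons_append, List.nil_append] at e ⊢
    rw [e]
    rcases f y List.mem_cons_self with f | f
    · exact c1 h f _ _
    · exact (c1 h f _ _).symm

theorem cds (h : WL0 Φ) {j a : ℤ} {l : ℕ} (f : j + 2 ≤ a ∨ a + l + 1 ≤ j ∨ l = 0) (u v : Wd) :
    Φ (u ++ (ds j l ++ lx a :: v)) = Φ (u ++ lx a :: (ds j l ++ v)) :=
  cL h (fun y hy => by
    obtain ⟨b, rfl, h1, h2⟩ := mem_ds hy
    exact Or.inl ⟨rfl, Or.inr ⟨rfl, by dsimp only; omega⟩⟩) u v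

theorem cin (h : WL0 Φ) {j a : ℤ} {l : ℕ} (h1 : j - l < a) (h2 : a ≤ j) (u v : Wd) :
    Φ (u ++ (ds j l ++ lx a :: v)) = Φ (u ++ lx a :: (ds j l ++ v)) := by
  induction l generalizing j u with
  | zero => rfl
  | succ l ih =>
    rcases l with _ | l
    · obtain rfl : a = j := by omega
      rfl
    obtain ⟨i, rfl⟩ : ∃ i, j = i + 1 := ⟨j - 1, by ring⟩
    rcases h2.eq_or_lt with rfl | h2
    · have e := cds h (j := i - 1) (a := i + 1) (l := l) (by omega) (u ++ [lx (i + 1), lx i]) v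
      have e2 := h.s2 u (ds (i - 1) l ++ v) i
      simp only [ds, add_sub_cancel_right, List.append_assoc, List.cons_append,
        List.nil_append] at e e2 ⊢
      rw [e, e2]
    · have e := ih (j := i) (by omega) (by omega) (u ++ [lx (i + 1)])
      rw [ds, add_sub_cancel_right]
      simp only [List.append_assoc, List.cons_append, List.nil_append] at e ⊢
      rw [e]
      by_cases e3 : a = i
      · subst e3
        exact h.s1 u _ a
      · exact (h.comm u _ a (i + 1) (by omega)).symm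

theorem cnest (h : WL0 Φ) {j i : ℤ} {l m : ℕ} (h1 : j - l ≤ i - m) (h2 : i ≤ j) (u v : Wd) :
    Φ (u ++ (ds j l ++ (ds i m ++ v))) = Φ (u ++ (ds i m ++ (ds j l ++ v))) := by
  induction m generalizing i u with
  | zero => rfl
  | succ m ih =>
    have e := ih (i := i - 1) (by omega) (by omega) (u ++ [lx i])
    have e2 := cin h (j := j) (a := i) (l := l) (by omega) h2 u (ds (i - 1) m ++ v)
    simp only [ds, List.append_assoc, List.cons_append, List.nil_append] at e e2 ⊢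
    rw [e2, e]

theorem bk0 (h : WL0 Φ) {j : ℤ} {l : ℕ} (h1 : l ≤ j + 1) (w : Wd) :
    Φ (w ++ ds j l) = Φ (w ++ ds (l - j - 2) l) := by
  induction l generalizing j w with
  | zero => rfl
  | succ l ih =>
    have e := ih (j := j - 1) (by omega) (w ++ [lx j])
    have e2 := cds h (j := l - (j - 1) - 2) (a := j) (l := l) (by omega) w []
    have e3 := h.back (w ++ ds (l - (j - 1) - 2) l) j
    rw [ds, ds_snoc, show ((l + 1 : ℕ) : ℤ) - j - 2 = l - (j - 1) - 2 by push_cast; ring,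
      show (l : ℤ) - (j - 1) - 2 - l = -j - 1 by ring]
    simp only [List.append_assoc, List.cons_append, List.nil_append, List.append_nil] at e e2 e3 ⊢
    rw [e, ← e2, e3]

theorem ft0 (h : WL0 Φ) {j : ℤ} {l : ℕ} (h1 : j < 0) (w : Wd) :
    Φ (ds j l ++ w) = Φ (ds (l - j - 1) l ++ w) := by
  induction l generalizing j w with
  | zero => rfl
  | succ l ih =>
    have e := ih (j := j - 1) (by omega) (lx (-j) :: w)
    have e2 := cds h (j := j - 1) (a := -j) (l := l) (by omega) [] w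
    rw [ds, ds_snoc, show ((l + 1 : ℕ) : ℤ) - j - 1 = l - (j - 1) - 1 by push_cast; ring,
      show (l : ℤ) - (j - 1) - 1 - l = -j by ring]
    simp only [List.append_assoc, List.cons_append, List.nil_append] at e e2 ⊢
    rw [h.front, ← e2, e]

theorem bk (h : WL0 Φ) {j : ℤ} {l : ℕ} (h1 : l ≤ 2 * j + 1) (w : Wd) :
    Φ (w ++ ds j l) = Φ (w ++ ds (l - j - 2) l) := by
  by_cases e : (l : ℤ) ≤ j + 1
  · exact bk0 h e w
  obtain ⟨i, rfl⟩ : ∃ i : ℕ, j = i - 1 := ⟨(j + 1).toNat, by omega⟩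
  obtain ⟨k, rfl⟩ : ∃ k, l = i + k := ⟨l - i, by omega⟩
  have e1 := bk0 h (j := k - 1) (l := k) (by omega) (w ++ ds (i - 1) i)
  have e2 := cnest h (j := i - 1) (i := k - 1) (l := i) (m := k) (by omega) (by omega) w []
  have e3 := bk0 h (j := i - 1) (l := i) (by omega) (w ++ ds (k - 1) k)
  rw [ds_add, Nat.add_comm i k, ds_add,
    show ((k + i : ℕ) : ℤ) - (i - 1) - 2 = k - 1 by push_cast; ring]
  simp only [List.append_assoc, List.append_nil] at e1 e2 e3
  rw [show (k : ℤ) - (k - 1) - 2 = i - 1 - i by ring] at e1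
  rw [show (i : ℤ) - (i - 1) - 2 = k - 1 - k by ring] at e3
  rw [← e1, e2, e3]

theorem ft (h : WL0 Φ) {j : ℤ} {l : ℕ} (h1 : 2 * j + 1 < l) (w : Wd) :
    Φ (ds j l ++ w) = Φ (ds (l - j - 1) l ++ w) := by
  by_cases e : j < 0
  · exact ft0 h e w
  obtain ⟨i, rfl⟩ : ∃ i : ℕ, j = i := ⟨j.toNat, by omega⟩
  obtain ⟨k, rfl⟩ : ∃ k, l = i + (k + 2) := ⟨l - i - 2, by omega⟩
  have e1 := ft0 h (j := -1) (l := i) (by omega) (ds 0 (k + 2) ++ w)
  have e2 := cnest h (j := 0) (i := -1) (l := k + 2) (m := i) (by omega) (by omega) [] w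
  have e3 := h.zero (ds (-2) k ++ (ds (-1) i ++ w))
  have e4 := cds h (j := -2) (a := 0) (l := k) (by omega) [lx 1] (ds (-1) i ++ w)
  have e5 := cds h (j := -2) (a := 1) (l := k) (by omega) [] (lx 0 :: (ds (-1) i ++ w))
  have e6 := ft0 h (j := -2) (l := k) (by omega) (lx 1 :: lx 0 :: (ds (-1) i ++ w))
  rw [ds_add, Nat.add_comm i, ds_add _ (k + 2) i, sub_self,
    show ((k + 2 + i : ℕ) : ℤ) - i - 1 = k - -2 - 1 by push_cast; ring, ds_add (k - -2 - 1) k 2,
    show (k : ℤ) - -2 - 1 - k = 1 by ring,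
    show (k : ℤ) - -2 - 1 - (k + 2 : ℕ) = -1 by push_cast; ring]
  rw [show (i : ℤ) - -1 - 1 = i by ring] at e1
  simp only [ds, List.append_assoc, List.cons_append, List.nil_append, zero_sub, sub_self,
    show (-1 : ℤ) - 1 = -2 by norm_num] at e1 e2 e3 e4 e5 e6 ⊢
  rw [← e1, ← e2, e3, ← e4, ← e5, e6]

end Far

end Pool.Agent.Lib.MP_33bfb2_co.Th
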