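import Pool.Agent.Lib.MP_33bfb2_co.Th.WFar1

namespace Pool.Agent.Lib.MP_33bfb2_co.Th

namespace Far

variable {T : Type} {Φ : Wd → T}

theorem pushB (h : WL0 Φ) {lo j : ℤ} (v : Wd) (h1 : lx (j + 1) ∉ v) (h2 : lx (lo - 1) ∉ v)
    (h3 : ∀ c, ly c ∈ v → c < lo) (u : Wd) (l : ℕ) (h4 : lo + l ≤ j + 1) :
    ∃ u' l', l ≤ l' ∧ lo + l' ≤ j + 1 ∧ (u' ++ ds j l').Perm (u ++ (ds j l ++ v)) ∧
      Φ (u ++ (ds j l ++ v)) = Φ (u' ++ ds j l') := by
  induction v generalizing u l with
  | nil => exact ⟨u, l, le_rfl, h4, by simp, by simp⟩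
  | cons z v ih =>
    simp only [List.mem_cons, not_or] at h1 h2 h3
    have ih := ih h1.2 h2.2 fun c hc => h3 c (Or.inr hc)
    by_cases e : z = lx (j - l)
    · subst e
      obtain ⟨u', l', a1, a2, a3, a4⟩ := ih u (l + 1) (by
        have : lo - 1 ≠ j - l := fun e => h2.1 (by rw [e])
        omega)
      rw [ds_snoc, List.append_assoc, List.singleton_append] at a3 a4
      exact ⟨u', l', by omega, a2, a3, a4⟩
    · obtain ⟨u', l', a1, a2, a3, a4⟩ := ih (u ++ [z]) l h4
      rw [List.append_assoc, List.singleton_append] at a3 a4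
      refine ⟨u', l', a1, a2, a3.trans (List.Perm.append_left _ List.perm_middle.symm), ?_⟩
      rw [← a4]
      obtain ⟨a, _ | _⟩ := z
      · have b1 : a ≠ j - l := fun e' => e (by rw [e'])
        have b2 : j + 1 ≠ a := fun e' => h1.1 (by rw [e'])
        by_cases b3 : j - l < a ∧ a ≤ j
        · exact cin h b3.1 b3.2 u v
        · exact cds h (by omega) u v
      · refine cL h (fun y hy => ?_) u v
        obtain ⟨b, rfl, c1, c2⟩ := mem_ds hy
        have := h3 a (Or.inl rfl)
        exact Or.inl ⟨rfl, Or.inl ⟨rfl, by dsimp only; omega⟩⟩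

theorem pushF (h : WL0 Φ) {lo hi : ℤ} (u : Wd) (h1 : lx (hi + 1) ∉ u) (h2 : lx (lo - 1) ∉ u)
    (h3 : ∀ c, ly c ∈ u → c < lo) (v : Wd) (l : ℕ) (h4 : lo + l ≤ hi + 1) :
    ∃ v' l', l ≤ l' ∧ lo + l' ≤ hi + 1 ∧
      (ds (lo + l' - 1) l' ++ v').Perm (u ++ (ds (lo + l - 1) l ++ v)) ∧
      Φ (u ++ (ds (lo + l - 1) l ++ v)) = Φ (ds (lo + l' - 1) l' ++ v') := by
  induction u using List.reverseRecOn generalizing v l with
  | nil => exact ⟨v, l, le_rfl, h4, by simp, by simp⟩
  | append_singleton u z ih =>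
    simp only [List.mem_append, List.mem_singleton, not_or] at h1 h2 h3
    have ih := ih h1.1 h2.1 fun c hc => h3 c (Or.inl hc)
    rw [List.append_assoc, List.singleton_append]
    by_cases e : z = lx (lo + l)
    · subst e
      obtain ⟨u', l', a1, a2, a3, a4⟩ := ih v (l + 1) (by
        have : hi + 1 ≠ lo + l := fun e => h1.2 (by rw [e])
        omega)
      rw [ds, show lo + (l + 1 : ℕ) - 1 = lo + l by push_cast; ring] at a3 a4
      exact ⟨u', l', by omega, a2, a3, a4⟩
    · obtain ⟨u', l', a1, a2, a3, a4⟩ := ih (z :: v) l h4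
      refine ⟨u', l', a1, a2, a3.trans (List.Perm.append_left _ List.perm_middle), ?_⟩
      rw [← a4]
      obtain ⟨a, _ | _⟩ := z
      · have b1 : a ≠ lo + l := fun e' => e (by rw [e'])
        have b2 : lo - 1 ≠ a := fun e' => h2.2 (by rw [e'])
        by_cases b3 : lo + l - 1 - l < a ∧ a ≤ lo + l - 1
        · exact (cin h b3.1 b3.2 u v).symm
        · exact (cds h (by omega) u v).symm
      · refine (cL h (fun y hy => ?_) u v).symm
        obtain ⟨b, rfl, c1, c2⟩ := mem_ds hy
        have := h3 a (Or.inr rfl)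
        exact Or.inl ⟨rfl, Or.inl ⟨rfl, by dsimp only; omega⟩⟩

/-- What is missing to the distance B. -/
def mu (B : ℤ) (w : Wd) : ℕ :=
  (w.map fun z => (B - if 0 ≤ z.1 then 2 * z.1 else -2 * z.1 - 1).toNat).sum

theorem mu_app (B : ℤ) (u v : Wd) : mu B (u ++ v) = mu B u + mu B v := by simp [mu]

theorem mu_perm (B : ℤ) {u v : Wd} (h : u.Perm v) : mu B u = mu B v := (h.map _).sum_eq

theorem mu_bk {B j : ℤ} {l : ℕ} (h1 : 2 * j + 1 ≤ B) (h2 : 2 * (l - j) ≤ B) :
    (mu B (ds (l - j - 2) l) : ℤ) + (max (j + 1) 0 - max (j - l + 1) 0) =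
      mu B (ds j l) + (max (l - j - 1) 0 - max (-j - 1) 0) := by
  induction l generalizing j with
  | zero => simp [mu, ds]
  | succ l ih =>
    have e := ih (j := j - 1) (by omega) (by omega)
    rw [ds_snoc, ds, show ((l + 1 : ℕ) : ℤ) - j - 2 = l - (j - 1) - 2 by push_cast; ring, mu_app,
      ← List.singleton_append, mu_app]
    simp only [mu, List.map_cons, List.map_nil, List.sum_cons, List.sum_nil] at e ⊢
    split_ifs <;> omega

theorem mu_ft {B j : ℤ} {l : ℕ} (h1 : 2 * j + 1 ≤ B) (h2 : 2 * (l - j) ≤ B) :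
    (mu B (ds (l - j - 1) l) : ℤ) + (max (l - j - 1) 0 - max (-j - 1) 0) =
      mu B (ds j l) + (max j 0 - max (j - l) 0) := by
  induction l generalizing j with
  | zero => simp [mu, ds]
  | succ l ih =>
    have e := ih (j := j - 1) (by omega) (by omega)
    rw [ds_snoc, ds, show ((l + 1 : ℕ) : ℤ) - j - 1 = l - (j - 1) - 1 by push_cast; ring, mu_app,
      ← List.singleton_append, mu_app]
    simp only [mu, List.map_cons, List.map_nil, List.sum_cons, List.sum_nil] at e ⊢
    split_ifs <;> omega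

theorem run {α : Type} (w : List α) {f : ℕ → α} (hf : Function.Injective f) (h0 : f 0 ∈ w) :
    ∃ t, t < w.length ∧ f t ∈ w ∧ f (t + 1) ∉ w := by
  classical
  have b : ∀ t, (∀ i < t, f i ∈ w) → t ≤ w.length := fun t ht => by
    have := (List.subperm_of_subset (List.nodup_range.map hf) (l₂ := w) fun x hx => by
      obtain ⟨i, hi, rfl⟩ := List.mem_map.1 hx
      exact ht i (List.mem_range.1 hi)).length_le
    simpa using this
  have e : ∃ t, f t ∉ w := by
    by_contra hc
    push Not at hc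
    have := b (w.length + 1) fun i _ => hc i
    omega
  have e1 := Nat.find_spec e
  have e2 := fun i => Nat.find_min e (m := i)
  rcases e3 : Nat.find e with _ | t
  · exact absurd h0 (e3 ▸ e1)
  · rw [e3] at e1 e2
    exact ⟨t, b (t + 1) fun i hi => not_not.1 (e2 i hi), not_not.1 (e2 t (by omega)), e1⟩

theorem no0 (h : WL0 Φ) {t : T} (hA : ∀ w, (∀ z ∈ w, z.1 < 0) → Φ w = t) (u v : Wd)
    (hu : lx 0 ∉ u) (hy : ∀ c, ly c ∈ u → c < 0) (hv : ∀ z ∈ v, z.1 < 0) : Φ (u ++ v) = t := by
  induction u using List.reverseRecOn generalizing v with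
  | nil => exact hA v hv
  | append_singleton u z ih =>
    simp only [List.mem_append, List.mem_singleton, not_or] at hu hy
    have ih := fun v => ih v hu.1 fun c hc => hy c (Or.inl hc)
    rw [List.append_assoc, List.singleton_append]
    by_cases e : z.1 < 0
    · exact ih _ (List.forall_mem_cons.2 ⟨e, hv⟩)
    obtain ⟨a, _ | _⟩ := z
    · have b1 : 0 ≠ a := fun e' => hu.2 (by rw [e'])
      have e1 := cL h (z := lx a) (L := v) (fun y hy' => by
        have := hv y hy'
        obtain ⟨b, _ | _⟩ := y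
        · exact Or.inl ⟨rfl, Or.inr ⟨rfl, by dsimp only at *; omega⟩⟩
        · exact Or.inr ⟨rfl, Or.inl ⟨rfl, by dsimp only at *; omega⟩⟩) u []
      rw [List.append_nil] at e1
      rw [← e1, ← List.append_assoc, h.back, List.append_assoc]
      refine ih _ fun y hy' => ?_
      rcases List.mem_append.1 hy' with hy' | hy'
      · exact hv y hy'
      · rw [List.mem_singleton.1 hy']; dsimp only at *; omega
    · exact absurd (hy a (Or.inr rfl)) e

theorem far_mod (h : WL0 Φ) {t : T} (hA : ∀ w, (∀ z ∈ w, z.1 < 0) → Φ w = t) (N : ℕ) (w : Wd)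
    (hN : w.length = N) (hy : ∀ c, ly c ∈ w → c + N ≤ 0) (h0 : w ≠ []) : Φ w = t := by
  induction hm : mu (4 * N) w using Nat.strong_induction_on generalizing w with
  | _ m ih =>
  have p0 := List.length_pos_iff.2 h0
  by_cases e : lx 0 ∈ w
  swap
  · simpa using no0 h hA w [] e (fun c hc => by have := hy c hc; omega) (by simp)
  obtain ⟨j, j1, j2, j3⟩ := run w (f := fun i : ℕ => lx i) (fun a b e => by simpa using e) e
  obtain ⟨k, k1, k2, k3⟩ := run w (f := fun i : ℕ => lx (-i)) (fun a b e => by simpa using e) e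
  rw [Nat.cast_succ] at j3
  rw [Nat.cast_succ, neg_add'] at k3
  have hy' : ∀ c, ly c ∈ w → c < -k := fun c hc => by have := hy c hc; omega
  obtain ⟨u, v, e1⟩ := List.append_of_mem j2
  obtain ⟨u', v', e2⟩ := List.append_of_mem k2
  have s1 : ∀ z ∈ v, z ∈ w := fun z hz => by simp [e1, hz]
  have s2 : ∀ z ∈ u', z ∈ w := fun z hz => by simp [e2, hz]
  obtain ⟨x, l, a1, a2, a3, a4⟩ := pushB h v (fun e => j3 (s1 _ e)) (fun e => k3 (s1 _ e))
    (fun c e => hy' c (s1 _ e)) u 1 (by omega)
  obtain ⟨x', l', b1, b2, b3, b4⟩ := pushF h u' (fun e => j3 (s2 _ e)) (fun e => k3 (s2 _ e))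
    (fun c e => hy' c (s2 _ e)) v' 1 (by omega)
  simp only [ds, Nat.cast_one, add_sub_cancel_right, List.singleton_append, ← e1, ← e2]
    at a3 a4 b3 b4
  have nl : ∀ {c j l}, ly c ∉ ds j l := fun e => by
    obtain ⟨a, e, -⟩ := mem_ds e
    simp at e
  by_cases c1 : (l : ℤ) ≤ 2 * j + 1
  · rw [a4, bk h c1]
    have := a3.length_eq
    have := mu_perm (4 * N) a3
    have := mu_bk (B := 4 * N) (j := j) (l := l) (by omega) (by omega)
    refine ih _ ?_ _ ?_ (fun c hc => hy c (a3.subset ?_)) (fun e => ?_) rfl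
    · simp only [mu_app] at *; omega
    · simp only [List.length_append, length_ds] at *; omega
    · exact List.mem_append_left _ ((List.mem_append.1 hc).resolve_right nl)
    · have := congrArg List.length e
      simp only [List.length_append, length_ds, List.length_nil] at *; omega
  · rw [b4, ft h (by omega)]
    have := b3.length_eq
    have := mu_perm (4 * N) b3
    have := mu_ft (B := 4 * N) (j := -k + l' - 1) (l := l') (by omega) (by omega)
    refine ih _ ?_ _ ?_ (fun c hc => hy c (b3.subset ?_)) (fun e => ?_) rfl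
    · simp only [mu_app] at *; omega
    · simp only [List.length_append, length_ds] at *; omega
    · exact List.mem_append_right _ ((List.mem_append.1 hc).resolve_left nl)
    · have := congrArg List.length e
      simp only [List.length_append, length_ds, List.length_nil] at *; omega

end Far

end Pool.Agent.Lib.MP_33bfb2_co.Th
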