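import Pool.Agent.Lib.MP_33bfb2_co.Th.WADef
import Pool.Agent.Lib.MP_33bfb2_co.Th.WFar1

namespace Pool.Agent.Lib.MP_33bfb2_co.Th

namespace One

open Far (fr)

/-- The increasing word a, a + 1, ... of length l. -/
def us (a : ℤ) : ℕ → Wd
  | 0 => []
  | l + 1 => lx a :: us (a + 1) l

theorem us_add (a : ℤ) (l m : ℕ) : us a (l + m) = us a l ++ us (a + l) m := by
  induction l generalizing a with
  | zero => simp [us]
  | succ l ih =>
    rw [Nat.add_right_comm, us, us, ih, List.cons_append]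
    congr 3; push_cast; ring

theorem mem_us {a : ℤ} {l : ℕ} {z : ℤ × Bool} (h : z ∈ us a l) :
    ∃ x, z = lx x ∧ a ≤ x ∧ x < a + l := by
  induction l generalizing a with
  | zero => simp [us] at h
  | succ l ih =>
    rcases List.mem_cons.1 h with rfl | h
    · exact ⟨a, rfl, le_rfl, by omega⟩
    · obtain ⟨x, h1, h2, h3⟩ := ih h
      exact ⟨x, h1, by omega, by omega⟩

variable {T : Type} {Φ : Wd → T}

theorem cL (h : WA Φ) {z : ℤ × Bool} {L : Wd} (f : ∀ y ∈ L, fr z y) (u v : Wd) :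
    Φ (u ++ (L ++ z :: v)) = Φ (u ++ z :: (L ++ v)) := by
  induction L generalizing u with
  | nil => rfl
  | cons y L ih =>
    have e := ih (fun x hx => f x (List.mem_cons_of_mem _ hx)) (u ++ [y])
    simp only [List.append_assoc, List.cons_append, List.nil_append] at e ⊢
    rw [e]
    have f := f y List.mem_cons_self
    obtain ⟨a, s⟩ := y
    obtain ⟨c, t⟩ := z
    obtain ⟨rfl, ⟨rfl, f⟩ | ⟨rfl, f | f⟩⟩ := f
    · exact h.commY u _ a c (Ne.symm f)
    · exact (h.comm u _ c a f).symm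
    · exact h.comm u _ a c f

theorem cfar (h : WA Φ) {a x : ℤ} {l : ℕ} (f : x + 2 ≤ a ∨ a + l + 1 ≤ x) (u v : Wd) :
    Φ (u ++ (us a l ++ lx x :: v)) = Φ (u ++ lx x :: (us a l ++ v)) :=
  cL h (fun y hy => by
    obtain ⟨b, rfl, h1, h2⟩ := mem_us hy
    exact ⟨rfl, Or.inr ⟨rfl, by dsimp only; omega⟩⟩) u v

theorem cY (h : WA Φ) {a c : ℤ} {l : ℕ} (f : c < a ∨ a + l ≤ c) (u v : Wd) :
    Φ (u ++ (us a l ++ ly c :: v)) = Φ (u ++ ly c :: (us a l ++ v)) :=
  cL h (fun y hy => by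
    obtain ⟨b, rfl, h1, h2⟩ := mem_us hy
    exact ⟨rfl, Or.inl ⟨rfl, by dsimp only; omega⟩⟩) u v

theorem cin (h : WA Φ) {a x : ℤ} {l : ℕ} (h1 : a ≤ x) (h2 : x < a + l) (u v : Wd) :
    Φ (u ++ (us a l ++ lx x :: v)) = Φ (u ++ lx x :: (us a l ++ v)) := by
  induction l generalizing a u with
  | zero => rfl
  | succ l ih =>
    rcases l with _ | l
    · obtain rfl : a = x := by omega
      rfl
    rcases h1.eq_or_lt with rfl | h1
    · have e := cfar h (a := a + 1 + 1) (x := a) (l := l) (by omega) (u ++ [lx a, lx (a + 1)]) v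
      have e2 := h.s1 u (us (a + 1 + 1) l ++ v) a
      simp only [us, List.append_assoc, List.cons_append, List.nil_append] at e e2 ⊢
      rw [e, e2]
    · have e := ih (a := a + 1) (by omega) (by omega) (u ++ [lx a])
      rw [us]
      simp only [List.append_assoc, List.cons_append, List.nil_append] at e ⊢
      rw [e]
      by_cases e3 : x = a + 1
      · subst e3
        exact (h.s2 u _ a).symm
      · exact h.comm u _ a x (by omega)

/-- A segment commutes with a word whose letters are inside it or far from it. -/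
theorem cW (h : WA Φ) {a : ℤ} {l : ℕ} {L : Wd}
    (f : ∀ z ∈ L, ∃ x, z = lx x ∧ x + 1 ≠ a ∧ x ≠ a + l) (u v : Wd) :
    Φ (u ++ (us a l ++ (L ++ v))) = Φ (u ++ (L ++ (us a l ++ v))) := by
  induction L generalizing u with
  | nil => rfl
  | cons z L ih =>
    obtain ⟨x, rfl, h1, h2⟩ := f z List.mem_cons_self
    have e := ih (fun y hy => f y (List.mem_cons_of_mem _ hy)) (u ++ [lx x])
    simp only [List.append_assoc, List.cons_append, List.nil_append] at e ⊢
    rw [← e]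
    by_cases b : a ≤ x ∧ x < a + l
    · exact cin h b.1 b.2 u _
    · exact cfar h (by omega) u _

theorem cS (h : WA Φ) {a b : ℤ} {l m : ℕ}
    (f : (a ≤ b ∧ b + m ≤ a + l) ∨ b + m < a ∨ a + l < b) (u v : Wd) :
    Φ (u ++ (us a l ++ (us b m ++ v))) = Φ (u ++ (us b m ++ (us a l ++ v))) :=
  cW h (fun z hz => by
    obtain ⟨x, rfl, h1, h2⟩ := mem_us hz
    exact ⟨x, rfl, by omega, by omega⟩) u v

theorem merge (h : WA Φ) {a b : ℤ} {l k r : ℕ} (h1 : a ≤ b) (h2 : b + k = a + l) (u v : Wd) :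
    Φ (u ++ (us a l ++ (us b (k + r) ++ v))) = Φ (u ++ (us b k ++ (us a (l + r) ++ v))) := by
  rw [us_add, us_add, h2, List.append_assoc, List.append_assoc]
  exact cS h (by omega) u _

theorem passY (h : WA Φ) {a b c : ℤ} {l m : ℕ} (hc : c < 0) (h1 : a ≤ b) (h2 : b ≤ c)
    (h3 : c < a + l) (h4 : a + l ≤ b + m) (u v : Wd) :
    Φ (u ++ (us a l ++ ly c :: (us b m ++ v))) = Φ (u ++ (us a l ++ (us b m ++ ly c :: v))) := by
  obtain ⟨i, rfl⟩ : ∃ i : ℕ, c = b + i := ⟨(c - b).toNat, by omega⟩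
  obtain ⟨m, rfl⟩ : ∃ k, m = i + (k + 1) := ⟨m - i - 1, by omega⟩
  obtain ⟨p, hp⟩ : ∃ p : ℕ, a + p = b + i := ⟨(b + i - a).toNat, by omega⟩
  obtain ⟨l, rfl⟩ : ∃ k, l = p + (k + 1) := ⟨l - p - 1, by omega⟩
  rw [us_add b]
  have e1 := cY h (a := b) (c := b + i) (l := i) (by omega) (u ++ us a (p + (l + 1)))
    (us (b + i) (m + 1) ++ v)
  have e2 := fun w => cS h (a := a) (b := b) (l := p + (l + 1)) (m := i) (by omega) u w
  simp only [List.append_assoc] at e1 ⊢
  rw [← e1, e2, e2, us_add a, hp]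
  have lm : l ≤ m := by omega
  generalize b + i = c at *
  have e3 := cY h (a := c + 1) (c := c) (l := l) (by omega) (u ++ (us b i ++ (us a p ++ [lx c])))
    (us c (m + 1) ++ v)
  have e4 := fun x w => cS h (a := c) (b := c + 1) (l := m + 1) (m := l) (by omega) x w
  have e5 := e4 (u ++ (us b i ++ (us a p ++ [lx c, ly c]))) v
  have e6 := e4 (u ++ (us b i ++ (us a p ++ [lx c]))) (ly c :: v)
  have e7 := h.lN (u ++ (us b i ++ us a p)) (us (c + 1) m ++ (us (c + 1) l ++ v)) c hc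
  have e8 := cY h (a := c + 1) (c := c) (l := l) (by omega)
    (u ++ (us b i ++ (us a p ++ (lx c :: lx c :: us (c + 1) m)))) v
  have e9 := cY h (a := c + 1) (c := c) (l := m) (by omega)
    (u ++ (us b i ++ (us a p ++ [lx c, lx c]))) (us (c + 1) l ++ v)
  simp only [us, List.append_assoc, List.cons_append, List.nil_append] at e3 e5 e6 e7 e8 e9 ⊢
  rw [e3, ← e5, ← e6, e7, e8, e9]

theorem rotS (h : WA Φ) {a : ℤ} {l : ℕ} (h1 : a + l ≤ 0) (w : Wd) :
    Φ (us a l ++ w) = Φ (w ++ us (a - 1) l) := by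
  induction l generalizing a w with
  | zero => simp [us]
  | succ l ih =>
    have e := ih (a := a + 1) (by omega) (w ++ [lx (a - 1)])
    rw [us, us, List.cons_append, h.rot _ _ _ (by omega), List.append_assoc, e,
      add_sub_cancel_right, sub_add_cancel, List.append_assoc, List.singleton_append]

theorem ins (h : WA Φ) (N : ℕ) (a : ℤ) (l : ℕ) (X : List ℤ) (hN : l + X.length = N)
    (h1 : X.Pairwise (· ≤ ·)) (h2 : ∀ x ∈ X, a ≤ x ∧ x < a + l) :
    ∃ Y : List ℤ, Y.Pairwise (· ≤ ·) ∧ (∀ x ∈ Y, a ≤ x ∧ x < a + l) ∧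
      ∀ u v, Φ (u ++ (us a l ++ (X.map lx ++ v))) = Φ (u ++ (Y.map lx ++ v)) := by
  induction N generalizing a l X with
  | zero =>
    obtain rfl : l = 0 := by omega
    exact ⟨X, h1, h2, fun _ _ => rfl⟩
  | succ N ih =>
    by_cases e : a ∈ X
    · rcases X with _ | ⟨x, X⟩
      · simp at e
      rw [List.pairwise_cons] at h1
      have b := h2 x List.mem_cons_self
      obtain rfl : x = a := by
        rcases List.mem_cons.1 e with e | e
        · exact e.symm
        · have := h1.1 a e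
          omega
      obtain ⟨Y, y1, y2, y3⟩ := ih x l X (by simp at hN; omega) h1.2
        fun y hy => h2 y (List.mem_cons_of_mem _ hy)
      refine ⟨x :: Y, List.pairwise_cons.2 ⟨fun y hy => (y2 y hy).1, y1⟩,
        List.forall_mem_cons.2 ⟨b, y2⟩, fun u v => ?_⟩
      have e1 := y3 (u ++ [lx x]) v
      simp only [List.append_assoc, List.cons_append, List.nil_append, List.map_cons] at e1 ⊢
      rw [cin h b.1 b.2, e1]
    · rcases l with _ | l
      · exact ⟨X, h1, h2, fun _ _ => rfl⟩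
      obtain ⟨Y, y1, y2, y3⟩ := ih (a + 1) l X (by omega) h1 fun y hy => by
        have := h2 y hy
        have : a ≠ y := fun e' => e (e' ▸ hy)
        omega
      refine ⟨a :: Y, List.pairwise_cons.2 ⟨fun y hy => by have := y2 y hy; omega, y1⟩,
        List.forall_mem_cons.2 ⟨by omega, fun y hy => by have := y2 y hy; omega⟩, fun u v => ?_⟩
      have e1 := y3 (u ++ [lx a]) v
      simp only [us, List.append_assoc, List.cons_append, List.nil_append, List.map_cons] at e1 ⊢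
      exact e1

/-- The product of segments. -/
def wd (L : List (ℤ × ℕ)) : Wd := L.flatMap fun s => us s.1 s.2

theorem wd_app (A B : List (ℤ × ℕ)) : wd (A ++ B) = wd A ++ wd B := List.flatMap_append

theorem wd_cons (s : ℤ × ℕ) (B : List (ℤ × ℕ)) : wd (s :: B) = us s.1 s.2 ++ wd B := rfl

theorem srt (h : WA Φ) (N : ℕ) (L : List (ℤ × ℕ)) (hN : L.length = N)
    (hL : ∀ s ∈ L, ∀ t ∈ L, (s.1 ≤ t.1 ∧ t.1 + t.2 ≤ s.1 + s.2) ∨
      (t.1 ≤ s.1 ∧ s.1 + s.2 ≤ t.1 + t.2)) :
    ∃ Y : List ℤ, Y.Pairwise (· ≤ ·) ∧ (∀ x ∈ Y, ∃ s ∈ L, s.1 ≤ x ∧ x < s.1 + s.2) ∧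
      ∀ u v, Φ (u ++ (wd L ++ v)) = Φ (u ++ (Y.map lx ++ v)) := by
  induction N generalizing L with
  | zero =>
    obtain rfl := List.length_eq_zero_iff.1 hN
    exact ⟨[], by simp, by simp, fun _ _ => rfl⟩
  | succ N ih =>
    obtain ⟨s, s1, s2⟩ := L.toFinset.exists_max_image (·.2)
      (List.toFinset_nonempty_iff _ |>.2 (by rintro rfl; simp at hN))
    simp only [List.mem_toFinset] at s1 s2
    have s3 : ∀ t ∈ L, s.1 ≤ t.1 ∧ t.1 + t.2 ≤ s.1 + s.2 := fun t ht => by
      have := hL s s1 t ht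
      have := s2 t ht
      omega
    obtain ⟨A, B, rfl⟩ := List.append_of_mem s1
    have sb : ∀ t ∈ A ++ B, t ∈ A ++ s :: B := fun t ht => by
      simp only [List.mem_append, List.mem_cons] at ht ⊢; tauto
    obtain ⟨X, x1, x2, x3⟩ := ih (A ++ B) (by simp at hN ⊢; omega)
      fun a ha b hb => hL a (sb a ha) b (sb b hb)
    obtain ⟨Y, y1, y2, y3⟩ := ins h _ s.1 s.2 X rfl x1 fun x hx => by
      obtain ⟨t, t1, t2⟩ := x2 x hx
      have := s3 t (sb t t1)
      omega
    refine ⟨Y, y1, fun x hx => ⟨s, s1, y2 x hx⟩, fun u v => ?_⟩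
    have e1 := x3 (u ++ us s.1 s.2) v
    rw [wd_app] at e1
    rw [wd_app, wd_cons, ← y3]
    simp only [List.append_assoc] at e1 ⊢
    rw [← e1]
    refine (cW h (fun z hz => ?_) u _).symm
    obtain ⟨t, t1, t2⟩ := List.mem_flatMap.1 hz
    obtain ⟨x, rfl, a1, a2⟩ := mem_us t2
    have := s3 t (List.mem_append_left _ t1)
    exact ⟨x, rfl, by omega, by omega⟩

end One

end Pool.Agent.Lib.MP_33bfb2_co.Th
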